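import Pool.Agent.X271.MotMain
import Pool.Agent.Y229.PG.Cmp

set_option autoImplicit false
set_option linter.unusedVariables false

/-! Motivic zeta functions of compositions with generic coefficients. -/

namespace Pool.Agent.X271.MG

open MvPolynomial Pool.Agent.H628R4.TP Pool.Agent.W425.MM Pool.Agent.W425.GN
open Pool.Agent.W425.ND (spa)
open Pool.Agent.W426.SM (gord IsRay face)
open Pool.Agent.W803.SM (gord_le exists_gord)
open Pool.Agent.W425.SV (NP)
open Pool.Agent.W749.JI (fam)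
open Pool.Agent.W428.MOT (Pt Constr ratRing Lu MK zeta)
open Pool.Agent.W375.MG (zetaG Good ratRing_mono)
open Pool.Agent.Y229.MS (stabK spa_ex)
open Pool.Agent.Y229.PS (NPT sum_exR forall_split map_yv)
open Pool.Agent.Y229.RE

variable {n κ r : ℕ} {k : Type} [Field k]

/-- `∑_{π j = i} a_j X ^ (m_j) + H_i` -/
noncomputable def tupK (π : Fin r → Fin (κ + 1)) (m : Fin r → Fin (n + κ) → ℕ) (a : Fin r → k)
    (H : Fin (κ + 1) → MvPolynomial (Fin (n + κ)) k) (i : Fin (κ + 1)) :
    MvPolynomial (Fin (n + κ)) k := fam π m a i + H i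

/-- `H_0 + ∑ y_i H_i` -/
noncomputable def hK (H : Fin (κ + 1) → MvPolynomial (Fin (n + κ)) k) :
    MvPolynomial (Fin (n + (κ + κ))) k :=
  rename emb (H 0) + ∑ i : Fin κ, X (yv n i) * rename emb (H i.succ)

theorem emb_eq : (emb : Fin (n + κ) → Fin (n + (κ + κ))) =
    Fin.addCases (Fin.castAdd (κ + κ)) fun i => Fin.natAdd n (Fin.natAdd κ i) := by
  funext i
  refine Fin.addCases (fun i => ?_) (fun i => ?_) i
  · rw [emb_l, Fin.addCases_left]
    rfl
  · rw [emb_r, Fin.addCases_right]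
    rfl

theorem spa_hK (π : Fin r → Fin (κ + 1)) (m : Fin r → Fin (n + κ) → ℕ) (a : Fin r → k)
    (H : Fin (κ + 1) → MvPolynomial (Fin (n + κ)) k) :
    spa (ex π m) a + hK H = rename emb (tupK π m a H 0) +
      ∑ i : Fin κ, X (yv n i) * rename emb (tupK π m a H i.succ) := by
  rw [spa_ex, ← emb_eq]
  unfold hK tupK
  simp only [map_add, mul_add, Finset.sum_add_distrib]
  have e : ∀ i : Fin κ, (X (Fin.natAdd n (Fin.castAdd κ i)) : MvPolynomial (Fin (n + (κ + κ))) k) =
      X (yv n i) := fun _ => rfl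
  simp only [e]
  ring

theorem np_hK (π : Fin r → Fin (κ + 1)) (m : Fin r → Fin (n + κ) → ℕ)
    (H : Fin (κ + 1) → MvPolynomial (Fin (n + κ)) k)
    (hH : ∀ i, ∀ w ∈ (H i).support, NPT π m i w) :
    ∀ w ∈ (hK H).support, NP (ex π m) w := by
  classical
  intro w hw
  unfold hK at hw
  rcases Finset.mem_union.1 (MvPolynomial.support_add hw) with h1 | h1
  · rw [support_rename_of_injective emb_inj, Finset.mem_image] at h1
    obtain ⟨w', h2, rfl⟩ := h1
    obtain ⟨l, h3, h4, h5, h6⟩ := hH 0 w' h2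
    refine ⟨l, h3, h4, forall_split (fun i => ?_) fun i => ?_⟩
    · rw [sum_exR, Finsupp.mapDomain_apply emb_inj]
      exact h6 i
    · rw [map_yv, Nat.cast_zero]
      refine (Finset.sum_eq_zero fun j _ => ?_).le
      by_cases h7 : l j = 0
      · rw [h7, zero_mul]
      · have h8 : π j = 0 := by
          rcases h5 j h7 with h8 | h8 <;> exact h8
        rw [ex_y, if_neg, Nat.cast_zero, mul_zero]
        rw [h8]
        exact (Fin.succ_ne_zero i).symm
  · have h2 := MvPolynomial.support_sum h1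
    rw [Finset.mem_biUnion] at h2
    obtain ⟨i0, -, h3⟩ := h2
    rw [mul_comm, MvPolynomial.support_mul_X, Finset.mem_map] at h3
    obtain ⟨w1, h4, rfl⟩ := h3
    rw [support_rename_of_injective emb_inj, Finset.mem_image] at h4
    obtain ⟨w', h2, rfl⟩ := h4
    obtain ⟨l, h3, h4, h5, h6⟩ := hH i0.succ w' h2
    refine ⟨l, h3, h4, forall_split (fun i => ?_) fun i => ?_⟩
    · rw [sum_exR, addRightEmbedding_apply, Finsupp.add_apply, Finsupp.mapDomain_apply emb_inj,
        Finsupp.single_eq_of_ne (emb_ne_y i i0), add_zero]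
      exact h6 i
    · rw [addRightEmbedding_apply, Finsupp.add_apply, map_yv, zero_add]
      by_cases h7 : i = i0
      · subst h7
        rw [Finsupp.single_eq_same, Nat.cast_one, ← h4]
        refine Finset.sum_le_sum fun j _ => ?_
        rw [ex_y]
        split_ifs
        · rw [Nat.cast_one, mul_one]
        · rw [Nat.cast_zero, mul_zero]
          exact h3 j
      · rw [Finsupp.single_eq_of_ne (fun h => h7 (y_inj h)), Nat.cast_zero]
        refine (Finset.sum_eq_zero fun j _ => ?_).le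
        by_cases h8 : l j = 0
        · rw [h8, zero_mul]
        · rw [ex_y, if_neg, Nat.cast_zero, mul_zero]
          rcases h5 j h8 with h9 | h9
          · rw [h9]
            intro h10
            exact h7 (Fin.succ_injective _ h10).symm
          · rw [h9]
            exact (Fin.succ_ne_zero i).symm

/-- **The automorphism for compositions.** -/
theorem graph_phiK (π : Fin r → Fin (κ + 1)) (m : Fin r → Fin (n + κ) → ℕ) (a : Fin r → k)
    (H : Fin (κ + 1) → MvPolynomial (Fin (n + κ)) k)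
    (c : Fin κ → k) (hc : ∀ i, c i ≠ 0) (p : Fin κ → MvPolynomial (Fin n) k)
    (hl : ∀ i : Fin κ, tupK π m a H i.succ = C (c i) * X (Fin.natAdd n i) -
      rename (Fin.castAdd κ) (p i)) :
    ∃ φ : MvPolynomial (Fin (n + (κ + κ))) k ≃ₐ[k] MvPolynomial (Fin (n + (κ + κ))) k,
      φ (stabK (aeval (Fin.append X fun i => C (c i)⁻¹ * p i) (tupK π m a H 0)) κ) =
        spa (ex π m) a + hK H := by
  obtain ⟨ψ, hψ⟩ := Pool.Agent.Y925.MS.gk k c hc p (tupK π m a H 0)
  refine ⟨ψ, ?_⟩
  rw [hψ, spa_hK, emb_eq]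
  congr 1
  refine Finset.sum_congr rfl fun i _ => ?_
  rw [hl, map_sub, map_mul, rename_C, rename_X, rename_rename]
  have e1 : (fun i => Fin.addCases (motive := fun _ => Fin (n + (κ + κ))) (Fin.castAdd (κ + κ))
      (fun i => Fin.natAdd n (Fin.natAdd κ i)) i : Fin (n + κ) → Fin (n + (κ + κ))) ∘
        Fin.castAdd κ = Fin.castAdd (κ + κ) := by
    funext j
    simp only [Function.comp_apply, Fin.addCases_left]
  rw [e1]
  simp only [Fin.addCases_right]
  rfl

/-- the value of `u` on the exponent `w` in the group `i` -/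
def val (u : Fin (n + (κ + κ)) → ℕ) (i : Fin (κ + 1)) (w : Fin (n + κ) → ℕ) : ℕ :=
  WY 0 u i + ∑ x, u (emb x) * w x

theorem val_ex (π : Fin r → Fin (κ + 1)) (m : Fin r → Fin (n + κ) → ℕ)
    (u : Fin (n + (κ + κ)) → ℕ) (j : Fin r) :
    ∑ i, u i * ex π m j i = val u (π j) (m j) := by
  have h1 := sum_ex π m (fun i => (u i : ℝ)) j
  have h2 : (WY 0 (fun i => (u i : ℝ)) (π j) : ℝ) = ((WY 0 u (π j) : ℕ) : ℝ) := by
    rcases Fin.eq_zero_or_eq_succ (π j) with h | ⟨i0, h⟩
    · rw [h]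
      show (0 : ℝ) = ((0 : ℕ) : ℝ)
      rw [Nat.cast_zero]
    · rw [h]
      rfl
  have h3 : ∀ x, XZ (fun i => (u i : ℝ)) x = ((u (emb x) : ℕ) : ℝ) := by
    intro x
    refine Fin.addCases (fun x => ?_) (fun x => ?_) x
    · rw [XZ_l, emb_l]
    · rw [XZ_r, emb_r]
  rw [h2] at h1
  simp only [h3] at h1
  unfold val
  have h4 : ((∑ i, u i * ex π m j i : ℕ) : ℝ) =
      ((WY 0 u (π j) + ∑ x, u (emb x) * m j x : ℕ) : ℝ) := by
    push_cast
    rw [h1]
    ring
  exact_mod_cast h4

theorem fam_mem (π : Fin r → Fin (κ + 1)) (m : Fin r → Fin (n + κ) → ℕ) (a : Fin r → k)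
    (i : Fin (κ + 1)) (w : Fin (n + κ) →₀ ℕ) (hw : coeff w (fam π m a i) ≠ 0) :
    ∃ j, π j = i ∧ m j = w := by
  classical
  unfold fam at hw
  rw [coeff_sum] at hw
  obtain ⟨j, hj, hne⟩ := Finset.exists_ne_zero_of_sum_ne_zero hw
  refine ⟨j, (Finset.mem_filter.1 hj).2, ?_⟩
  have h2 : (C (a j) * ∏ v, X v ^ m j v : MvPolynomial (Fin (n + κ)) k) =
      monomial (Finsupp.equivFunOnFinite.symm (m j)) (a j) := by
    rw [monomial_eq, Finsupp.prod_fintype _ _ fun i => pow_zero _]
    rfl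
  rw [h2, coeff_monomial] at hne
  by_contra hcon
  rw [if_neg] at hne
  · exact hne rfl
  · intro h3
    apply hcon
    rw [← h3]
    rfl

/-- the value is at least `L` on all exponents of the members -/
theorem val_ge (π : Fin r → Fin (κ + 1)) (m : Fin r → Fin (n + κ) → ℕ) (a : Fin r → k)
    (H : Fin (κ + 1) → MvPolynomial (Fin (n + κ)) k)
    (hH : ∀ i, ∀ w ∈ (H i).support, NPT π m i w) (u : Fin (n + (κ + κ)) → ℕ) (L : ℕ)
    (hu : ∀ j, L ≤ ∑ i, u i * ex π m j i) (i : Fin (κ + 1)) (w : Fin (n + κ) →₀ ℕ)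
    (hw : coeff w (tupK π m a H i) ≠ 0) : L ≤ val u i w := by
  classical
  have hu' : ∀ j, L ≤ val u (π j) (m j) := fun j => by
    rw [← val_ex]
    exact hu j
  unfold tupK at hw
  rw [coeff_add] at hw
  by_cases h1 : coeff w (fam π m a i) = 0
  · rw [h1, zero_add] at hw
    obtain ⟨l, h3, h4, h5, h6⟩ := hH i w (mem_support_iff.2 hw)
    have h7 : ∀ j, l j ≠ 0 → (L : ℝ) ≤ (WY 0 u i : ℕ) + ∑ x, (u (emb x) : ℝ) * (m j x : ℝ) := by
      intro j hj
      have h8 : (L : ℝ) ≤ ((val u (π j) (m j) : ℕ) : ℝ) := by exact_mod_cast hu' j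
      unfold val at h8
      push_cast at h8
      refine h8.trans ?_
      rcases h5 j hj with h9 | h9
      · rw [h9]
      · rw [h9]
        have : (0 : ℝ) ≤ (WY 0 u i : ℕ) := Nat.cast_nonneg _
        show ((0 : ℕ) : ℝ) + _ ≤ _
        rw [Nat.cast_zero, zero_add]
        linarith
    have h8 : (L : ℝ) ≤ ∑ j, l j * ((WY 0 u i : ℕ) + ∑ x, (u (emb x) : ℝ) * (m j x : ℝ)) := by
      calc (L : ℝ) = ∑ j, l j * (L : ℝ) := by rw [← Finset.sum_mul, h4, one_mul]
        _ ≤ _ := by
          refine Finset.sum_le_sum fun j _ => ?_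
          by_cases hj : l j = 0
          · rw [hj, zero_mul, zero_mul]
          · exact mul_le_mul_of_nonneg_left (h7 j hj) (h3 j)
    have h9 : ∑ j, l j * (((WY 0 u i : ℕ) : ℝ) + ∑ x, (u (emb x) : ℝ) * (m j x : ℝ)) =
        (WY 0 u i : ℕ) + ∑ x, (u (emb x) : ℝ) * ∑ j, l j * (m j x : ℝ) := by
      simp only [mul_add, Finset.sum_add_distrib, ← Finset.sum_mul, h4, one_mul]
      congr 1
      simp only [Finset.mul_sum]
      rw [Finset.sum_comm]
      refine Finset.sum_congr rfl fun x _ => Finset.sum_congr rfl fun j _ => ?_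
      ring
    rw [h9] at h8
    have h10 : ∑ x, (u (emb x) : ℝ) * ∑ j, l j * (m j x : ℝ) ≤ ∑ x, (u (emb x) : ℝ) * (w x : ℝ) :=
      Finset.sum_le_sum fun x _ => mul_le_mul_of_nonneg_left (h6 x) (Nat.cast_nonneg _)
    have h11 : (L : ℝ) ≤ ((val u i w : ℕ) : ℝ) := by
      unfold val
      push_cast
      linarith
    exact_mod_cast h11
  · obtain ⟨j, hj1, hj2⟩ := fam_mem π m a i w h1
    have h2 := hu' j
    rw [hj1, hj2] at h2
    exact h2

/-- **Negativity.** -/
theorem ray_posK (π : Fin r → Fin (κ + 1)) (m : Fin r → Fin (n + κ) → ℕ) (a : Fin r → k)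
    (H : Fin (κ + 1) → MvPolynomial (Fin (n + κ)) k)
    (hH : ∀ i, ∀ w ∈ (H i).support, NPT π m i w)
    (c : Fin κ → k) (hc : ∀ i, c i ≠ 0) (p : Fin κ → MvPolynomial (Fin n) k)
    (hl : ∀ i : Fin κ, tupK π m a H i.succ = C (c i) * X (Fin.natAdd n i) -
      rename (Fin.castAdd κ) (p i))
    (hf : aeval (Fin.append X fun i => C (c i)⁻¹ * p i) (tupK π m a H 0) ≠
      (0 : MvPolynomial (Fin n) k))
    (u : Fin (n + (κ + κ)) → ℕ) (L : ℕ) (hL : 0 < L) (hu : ∀ j, L ≤ ∑ i, u i * ex π m j i) :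
    κ * L < ∑ i, u i := by
  classical
  have hge := val_ge π m a H hH u L hu
  have hyz : ∀ i : Fin κ, L ≤ u (yv n i) + u (zv n i) := by
    intro i
    have h1 := hge i.succ (Finsupp.single (Fin.natAdd n i) 1) (by
      rw [hl, coeff_sub, coeff_C_mul, coeff_X, if_pos rfl, mul_one,
        coeff_rename_eq_zero _ _ _ ?_, sub_zero]
      · exact hc i
      · intro w hw
        exfalso
        have h1 := DFunLike.congr_fun hw (Fin.natAdd n i)
        rw [Finsupp.single_eq_same, Finsupp.mapDomain_of_notMem_range] at h1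
        · exact absurd h1 (by norm_num)
        · rintro ⟨i', hi'⟩
          have := congrArg Fin.val hi'
          simp only [Fin.val_castAdd, Fin.val_natAdd] at this
          omega)
    unfold val at h1
    rw [Finset.sum_eq_single (Fin.natAdd n i), Finsupp.single_eq_same, mul_one, emb_r] at h1
    · exact h1
    · intro x _ hx
      rw [Finsupp.single_eq_of_ne hx, mul_zero]
    · intro h
      exact absurd (Finset.mem_univ _) h
  have htot : ∑ i, u i = ∑ i : Fin n, u (xv κ i) + (∑ i : Fin κ, u (yv n i) +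
      ∑ i : Fin κ, u (zv n i)) := by
    rw [Fin.sum_univ_add, Fin.sum_univ_add]
    rfl
  have hsum : κ * L ≤ ∑ i : Fin κ, (u (yv n i) + u (zv n i)) := by
    have := Finset.sum_le_sum fun i (_ : i ∈ (Finset.univ : Finset (Fin κ))) => hyz i
    simpa using this
  rw [Finset.sum_add_distrib] at hsum
  by_contra hcon
  have hx0 : ∑ i : Fin n, u (xv κ i) = 0 := by omega
  have hx : ∀ i, u (xv κ i) = 0 := fun i => Finset.sum_eq_zero_iff.1 hx0 i (Finset.mem_univ i)
  have heq : ∀ i : Fin κ, u (yv n i) + u (zv n i) = L := by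
    have h1 : ∑ i : Fin κ, (u (yv n i) + u (zv n i)) = ∑ i : Fin κ, L := by
      rw [Finset.sum_add_distrib, Finset.sum_const, Finset.card_univ, Fintype.card_fin,
        smul_eq_mul]
      omega
    have h2 := (Finset.sum_eq_sum_iff_of_le fun i (_ : i ∈ (Finset.univ : Finset (Fin κ))) =>
      hyz i).1 h1.symm
    exact fun i => (h2 i (Finset.mem_univ i)).symm
  -- `p_i ≠ 0` gives `u (z_i) = 0`
  have hz : ∀ i : Fin κ, p i ≠ 0 → u (zv n i) = 0 := by
    intro i hp
    obtain ⟨w, hw⟩ := ne_zero_iff.1 hp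
    have h1 := hge i.succ (w.mapDomain (Fin.castAdd κ)) (by
      rw [hl, coeff_sub, coeff_C_mul, coeff_X, if_neg, mul_zero, zero_sub,
        coeff_rename_mapDomain _ (Fin.castAdd_injective _ _)]
      · exact neg_ne_zero.2 hw
      · intro h
        have h1 := DFunLike.congr_fun h (Fin.natAdd n i)
        rw [Finsupp.single_eq_same, Finsupp.mapDomain_of_notMem_range] at h1
        · exact absurd h1 (by norm_num)
        · rintro ⟨i', hi'⟩
          have := congrArg Fin.val hi'
          simp only [Fin.val_castAdd, Fin.val_natAdd] at this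
          omega)
    unfold val at h1
    rw [Finset.sum_eq_zero, add_zero] at h1
    · have h2 : WY 0 u i.succ = u (yv n i) := rfl
      rw [h2] at h1
      have := heq i
      omega
    · intro x _
      refine Fin.addCases (fun x => ?_) (fun x => ?_) x
      · rw [emb_l, hx, zero_mul]
      · rw [Finsupp.mapDomain_of_notMem_range, mul_zero]
        rintro ⟨i'', hi'⟩
        have := congrArg Fin.val hi'
        simp only [Fin.val_castAdd, Fin.val_natAdd] at this
        omega
  -- a monomial of `Φ` without the variables `z_i`, `p_i = 0`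
  apply hf
  rw [(tupK π m a H 0).as_sum, map_sum]
  refine Finset.sum_eq_zero fun w hw => ?_
  have h1 := hge 0 w (mem_support_iff.1 hw)
  unfold val at h1
  have h2 : WY 0 u 0 = 0 := rfl
  rw [h2, zero_add] at h1
  obtain ⟨x, -, hxx⟩ := Finset.exists_ne_zero_of_sum_ne_zero
    (show ∑ x, u (emb x) * w x ≠ 0 by omega)
  have hi1 : u (emb x) ≠ 0 := left_ne_zero_of_mul hxx
  have hi2 : w x ≠ 0 := right_ne_zero_of_mul hxx
  rw [aeval_monomial, Finsupp.prod_fintype _ _ fun i => pow_zero _]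
  have h5 : ∏ i, (Fin.append X (fun i => C (c i)⁻¹ * p i) i : MvPolynomial (Fin n) k) ^ w i = 0 := by
    refine Finset.prod_eq_zero (Finset.mem_univ x) ?_
    revert hi1 hi2
    refine Fin.addCases (fun x => ?_) (fun x => ?_) x
    · intro hi1 _
      rw [emb_l, hx] at hi1
      exact absurd rfl hi1
    · intro hi1 hi2
      rw [emb_r] at hi1
      have hp : p x = 0 := by
        by_contra h
        exact hi1 (hz x h)
      rw [Fin.append_right, hp, mul_zero, zero_pow hi2]
  rw [h5, mul_zero]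

/-- **Compositions with generic coefficients.** -/
theorem comp_mot {k : Type} [Field k] [Algebra k ℂ] (hr : 0 < r) (hκ : 0 < κ)
    (π : Fin r → Fin (κ + 1)) (m : Fin r → Fin (n + κ) → ℕ)
    (hinj : ∀ j j', π j = π j' → m j = m j' → j = j') (hm : ∀ j, π j = 0 → m j ≠ 0)
    (H : Fin (κ + 1) → MvPolynomial (Fin (n + κ)) k)
    (hH : ∀ i, ∀ w ∈ (H i).support, NPT π m i w) (hC : HypC (ex π m) (hK H)) :
    ∃ g : MvPolynomial (Fin r) k, g ≠ 0 ∧ ∀ a : Fin r → k, eval a g ≠ 0 →
      ∀ (c : Fin κ → k) (p : Fin κ → MvPolynomial (Fin n) k), (∀ i, c i ≠ 0) →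
      (∀ i : Fin κ, tupK π m a H i.succ = C (c i) * X (Fin.natAdd n i) -
        rename (Fin.castAdd κ) (p i)) →
      ∀ f : MvPolynomial (Fin n) k,
      f = aeval (Fin.append X fun i => C (c i)⁻¹ * p i) (tupK π m a H 0) → f.totalDegree ≠ 0 →
    ∃ S : Finset (ℤ × ℤ),
      (∀ p ∈ S, p.1 < 0 ∧ 0 < p.2 ∧
        ∀ b : Polynomial ℂ, IsBFunction (map (algebraMap k ℂ) f) b →
          b.eval ((p.1 : ℂ) / p.2) = 0) ∧
      ∀ (K : Type) [Field K] [Algebra k K] (W : Set (Pt K (Fin n)))
        (E : Set (AlgebraicClosure K)), Constr W → Good E →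
        zetaG (map (algebraMap k K) f) W E ∈ ratRing K S := by
  obtain ⟨g, hg, hgc⟩ := core hr (ex π m) (ex_inj π m hinj)
    (Pool.Agent.Y229.PG.ex_ne_zero' π m hm) (hK H) (np_hK π m H hH) hC
  refine ⟨g, hg, fun a ha c p hc hl f hff hf => ?_⟩
  have hf0 : f ≠ 0 := by
    rintro rfl
    exact hf totalDegree_zero
  obtain ⟨φ, hφ⟩ := graph_phiK π m a H c hc p hl
  rw [← hff] at hφ
  have hpos := fun u L hL hu => ray_posK π m a H hH c hc p hl (hff ▸ hf0) u L hL hu
  obtain ⟨S, hS, hz⟩ := hgc a ha f hf φ hφ (fun u _ hg' h1 => by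
    have h2 := hpos u (gord (ex π m) u) hg' fun j => gord_le _ _ j
    rw [h1] at h2
    have h3 : 1 * gord (ex π m) u ≤ κ * gord (ex π m) u := Nat.mul_le_mul_right _ hκ
    omega)
  refine ⟨S, fun q hq => ⟨?_, (hS q hq).1, (hS q hq).2.2⟩, hz⟩
  rcases (hS q hq).2.1 with rfl | ⟨u, hu, hg', rfl⟩
  · norm_num
  · have h1 := hpos u (gord (ex π m) u) hg' fun j => gord_le _ _ j
    show -((∑ i, u i : ℕ) : ℤ) + κ * (gord (ex π m) u : ℤ) < 0
    have h2 : ((κ * gord (ex π m) u : ℕ) : ℤ) < ((∑ i, u i : ℕ) : ℤ) := by exact_mod_cast h1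
    push_cast at h2 ⊢
    linarith

end Pool.Agent.X271.MG
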