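import Pool.Agent.X271.MotDef
import Pool.Agent.X271.MotCmp
import Pool.Agent.TH216.MF.HDM

set_option autoImplicit false

/-! The theorems on motivic zeta functions with the definitions of `MotDef`. -/

namespace Pool.Agent.X271.MD

open MvPolynomial Pool.Agent.H628R4.TP Pool.Agent.TH216.HD
open Pool.Agent.W428.MOT (Pt Constr ratRing)
open Pool.Agent.W375.MG (zetaG Good)

variable {r n N κ : ℕ}

theorem locC_iff {R : Type} [CommRing R] (v : Fin r → Fin N → ℕ) (h : MvPolynomial (Fin N) R)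
    (σ : ℚ) : Pool.Agent.X271.MG.LocC v h σ ↔ LocC v h σ := by
  refine exists_congr fun i => forall_congr' fun a => forall_congr' fun _ =>
    forall_congr' fun _ => forall_congr' fun _ => ?_
  exact or_congr (simH_iff v h a) Iff.rfl

theorem hypC_iff {R : Type} [CommRing R] (v : Fin r → Fin N → ℕ) (h : MvPolynomial (Fin N) R) :
    Pool.Agent.X271.MG.HypC v h ↔ HypC v h := by
  refine forall_congr' fun a => forall_congr' fun _ => forall_congr' fun _ => ?_
  exact or_congr Iff.rfl (locC_iff v h _)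

theorem stab_eq {k : Type} [Field k] (f : MvPolynomial (Fin n) k) (κ : ℕ) :
    Pool.Agent.Y229.MS.stabK f κ = stab f κ := rfl

theorem xz_eq : (Pool.Agent.Y229.RE.emb : Fin (n + κ) → Fin (n + (κ + κ))) = xz := by
  rw [Pool.Agent.X271.MG.emb_eq]
  rfl

theorem tup_eq {k : Type} [Field k] (π : Fin r → Fin (κ + 1)) (m : Fin r → Fin (n + κ) → ℕ)
    (a : Fin r → k) (H : Fin (κ + 1) → MvPolynomial (Fin (n + κ)) k) (i : Fin (κ + 1)) :
    Pool.Agent.X271.MG.tupK π m a H i = tup π m a H i := rfl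

theorem sumH_eq {k : Type} [Field k] (H : Fin (κ + 1) → MvPolynomial (Fin (n + κ)) k) :
    Pool.Agent.X271.MG.hK H = sumH H := by
  unfold Pool.Agent.X271.MG.hK sumH
  rw [xz_eq]
  rfl

/-- stably generic polynomials -/
theorem stable {k : Type} [Field k] [Algebra k ℂ] (hr : 0 < r)
    (v : Fin r → Fin (n + (κ + κ)) → ℕ) (hv : Function.Injective v) (hv0 : ∀ j, v j ≠ 0)
    (h : MvPolynomial (Fin (n + (κ + κ))) k) (hh : ∀ w ∈ h.support, InPoly v w)
    (hC : HypC v h) :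
    ∃ g : MvPolynomial (Fin r) k, g ≠ 0 ∧ ∀ c : Fin r → k, eval c g ≠ 0 →
      ∀ f : MvPolynomial (Fin n) k, f.totalDegree ≠ 0 →
      ∀ φ : MvPolynomial (Fin (n + (κ + κ))) k ≃ₐ[k] MvPolynomial (Fin (n + (κ + κ))) k,
      φ (stab f κ) = (∑ j, C (c j) * ∏ i, X i ^ v j i) + h →
      (∀ a : Fin (n + (κ + κ)) → ℕ, IsRay v a → 0 < ordA v a → ∑ i, a i ≠ ordA v a) →
    ∃ S : Finset (ℤ × ℤ),
      (∀ p ∈ S, 0 < p.2 ∧ ∀ b : Polynomial ℂ, IsBFunction (map (algebraMap k ℂ) f) b →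
          b.eval ((p.1 : ℂ) / p.2) = 0) ∧
      ∀ (K : Type) [Field K] [Algebra k K] (W : Set (Pt K (Fin n)))
        (E : Set (AlgebraicClosure K)), Constr W → Good E →
        zetaG (map (algebraMap k K) f) W E ∈ ratRing K S := by
  obtain ⟨g, hg, hgc⟩ := Pool.Agent.X271.MG.core hr v hv hv0 h hh ((hypC_iff v h).2 hC)
  refine ⟨g, hg, fun c hc f hf φ hφ h1 => ?_⟩
  obtain ⟨S, hS, hz⟩ := hgc c hc f hf φ hφ h1
  exact ⟨S, fun p hp => ⟨(hS p hp).1, (hS p hp).2.2⟩, hz⟩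

/-- compositions -/
theorem comps {k : Type} [Field k] [Algebra k ℂ] (hr : 0 < r) (hκ : 0 < κ)
    (π : Fin r → Fin (κ + 1)) (m : Fin r → Fin (n + κ) → ℕ)
    (hinj : ∀ j j', π j = π j' → m j = m j' → j = j') (hm : ∀ j, π j = 0 → m j ≠ 0)
    (H : Fin (κ + 1) → MvPolynomial (Fin (n + κ)) k)
    (hH : ∀ i, ∀ w ∈ (H i).support, InPolyG π m i w) (hC : HypC (exps π m) (sumH H)) :
    ∃ g : MvPolynomial (Fin r) k, g ≠ 0 ∧ ∀ a : Fin r → k, eval a g ≠ 0 →
      ∀ (c : Fin κ → k) (p : Fin κ → MvPolynomial (Fin n) k), (∀ i, c i ≠ 0) →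
      (∀ i : Fin κ, tup π m a H i.succ = C (c i) * X (Fin.natAdd n i) -
        rename (Fin.castAdd κ) (p i)) →
      ∀ f : MvPolynomial (Fin n) k,
      f = aeval (Fin.append X fun i => C (c i)⁻¹ * p i) (tup π m a H 0) → f.totalDegree ≠ 0 →
    ∃ S : Finset (ℤ × ℤ),
      (∀ p ∈ S, p.1 < 0 ∧ 0 < p.2 ∧
        ∀ b : Polynomial ℂ, IsBFunction (map (algebraMap k ℂ) f) b →
          b.eval ((p.1 : ℂ) / p.2) = 0) ∧
      ∀ (K : Type) [Field K] [Algebra k K] (W : Set (Pt K (Fin n)))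
        (E : Set (AlgebraicClosure K)), Constr W → Good E →
        zetaG (map (algebraMap k K) f) W E ∈ ratRing K S := by
  rw [← sumH_eq] at hC
  exact Pool.Agent.X271.MG.comp_mot hr hκ π m hinj hm H hH ((hypC_iff _ _).2 hC)

end Pool.Agent.X271.MD
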