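import Pool.Agent.X271.MotGen

set_option autoImplicit false
set_option linter.unusedVariables false

/-! Motivic zeta functions, generic coefficients: the refined theorem (with the factor of the strict
transform), local `b`-functions at the origin. -/

namespace Pool.Agent.X271.MG

open MvPolynomial Pool.Agent.H628R4.TP Pool.Agent.W425.MM Pool.Agent.W425.GN Pool.Agent.TH216.MC
open Pool.Agent.W425.ND (spa)
open Pool.Agent.W426.SM (gord IsRay face)
open Pool.Agent.W425.BF (B1 BD shf shf_eval shf_ne hz hz_support hz_eq cof gen_rootsJ hp_nonB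
  spa_add)
open Pool.Agent.W425.SV (NP RelV Kil1)
open Pool.Agent.TH216.MF (RelG KilU kept ke LocS)
open Pool.Agent.W428.MOT (Pt Constr ratRing sp LuMu InRat zetaE Lu MK)
open Pool.Agent.W375.MG (zetaG Good)
open Pool.Agent.Y229.MS (fst')

variable {r N : ℕ}

/-- the conclusion for the polynomial `spa v c + h`, local `b`-functions -/
def Con1L {k : Type} [Field k] [Algebra k ℂ] (v : Fin r → Fin N → ℕ)
    (h : MvPolynomial (Fin N) k) (c : Fin r → k) : Prop :=
  (∀ a' : Fin N → ℕ, 0 < gord v a' → NonB v True a' → ∀ b : Polynomial ℂ,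
    IsLocalBFunction (map (algebraMap k ℂ) (spa v c + h)) b →
      b.eval (((-lev v a' : ℚ)) : ℂ) = 0) ∧
  ∃ S : Finset (ℤ × ℤ),
    (∀ p ∈ S, ∃ a : Fin N → ℕ, IsRay v a ∧ 0 < gord v a ∧
      p = (-((∑ i, a i : ℕ) : ℤ), (gord v a : ℤ)) ∧
      (LocS v h (lev v a) → ∀ b : Polynomial ℂ,
        IsLocalBFunction (map (algebraMap k ℂ) (spa v c + h)) b →
          b.eval (((-lev v a : ℚ)) : ℂ) = 0)) ∧
    ∀ (K : Type) [Field K] [Algebra k K] (W : Set (Pt K (Fin N)))
      (E : Set (AlgebraicClosure K)), Constr W → Good E →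
      fst' K * zetaG (map (algebraMap k K) (spa v c + h)) W E ∈ ratRing K S

/-- the theorem if `h` does not contain the exponents `v j` -/
theorem gen1L {k : Type} [Field k] [Algebra k ℂ] (hr : 0 < r) (v : Fin r → Fin N → ℕ)
    (hv : Function.Injective v) (hv0 : ∀ j, v j ≠ 0) (h : MvPolynomial (Fin N) k)
    (hh : ∀ w ∈ h.support, NP v w) (hvh : ∀ w ∈ h.support, ∀ j, ¬ ∀ x, w x = v j x) :
    ∃ g : MvPolynomial (Fin r) k, g ≠ 0 ∧ ∀ c : Fin r → k, eval c g ≠ 0 → Con1L v h c := by
  classical
  have hne : NeZero r := ⟨by omega⟩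
  obtain ⟨g1, hg1, h1⟩ := rootsL hr v hv hv0 h hh
  obtain ⟨g2, hg2, h2⟩ := gen_nonDF pF4 hr v (we h) (we_np v h hh) (wc h)
  have hg3 : (∏ j : Fin r, (X j : MvPolynomial (Fin r) k)) ≠ 0 :=
    Finset.prod_ne_zero_iff.2 fun j _ => X_ne_zero j
  refine ⟨g1 * g2 * ∏ j : Fin r, (X j : MvPolynomial (Fin r) k),
    mul_ne_zero (mul_ne_zero hg1 hg2) hg3, fun c hc => ?_⟩
  rw [map_mul, map_mul, map_prod] at hc
  have hcne : ∀ j, c j ≠ 0 := by
    intro j hj
    have h5 := Finset.prod_ne_zero_iff.1 (right_ne_zero_of_mul hc) j (Finset.mem_univ j)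
    rw [eval_X, hj] at h5
    exact h5 rfl
  have hae : ∀ g : MvPolynomial (Fin r) k, eval c g ≠ 0 →
      aeval (fun j => algebraMap k ℂ (c j)) g ≠ 0 := by
    intro g hg h0
    apply hg
    have h5 : aeval (fun j => algebraMap k ℂ (c j)) g = algebraMap k ℂ (aeval c g) :=
      aeval_algebraMap_apply ℂ c g
    rw [h0] at h5
    have h6 : aeval c g = 0 := (map_eq_zero _).1 h5.symm
    rw [← h6]
    rfl
  have hb := h1 _ (hae _ (left_ne_zero_of_mul (left_ne_zero_of_mul hc)))
  have hnd := h2 _ (hae _ (right_ne_zero_of_mul (left_ne_zero_of_mul hc)))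
  have hB := hb_gen hr v hv h hh hvh (fun α => HPL v h α 0)
    (fun α hα => relL v hv hv0 h hh α hα)
  obtain ⟨S, hS, hz1⟩ := Pool.Agent.Y824.MS.four (Fin.append v (we h)) (by omega) _ hB
  have hray := pRAY v (we h) hr (we_np v h hh)
  have hmapC : map (algebraMap k ℂ) (spa v c + h) =
      spa v (fun j => algebraMap k ℂ (c j)) + map (algebraMap k ℂ) h := by
    rw [map_add, map_spa']
  refine ⟨fun a' hg' hn' b hb' => ?_, S, fun p hp => ?_, fun K _ _ W E hW hE => ?_⟩
  · rw [hmapC] at hb'
    exact (hb b hb').2 _ (hpl_nonB v hv hv0 h hh a' hg' hn')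
  · obtain ⟨a, ha, hg, hn, h3⟩ := hS p hp
    obtain ⟨hga, hra⟩ := hray a
    rw [hga] at hg hn h3
    refine ⟨a, hra ha, hg, h3, fun hL b hb' => ?_⟩
    rw [hmapC] at hb'
    refine (hb b hb').2 _ ?_
    by_contra hcon
    exact hn ⟨hL, hcon⟩
  · have hK : CharZero K := by
      have hkc : CharZero k := RingHom.charZero (algebraMap k ℂ)
      exact charZero_of_injective_algebraMap (algebraMap k K).injective
    have e0 : map (algebraMap k K) (spa v c + h) =
        spa v (fun j => algebraMap k K (c j)) + map (algebraMap k K) h := by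
      rw [map_add, map_spa']
    rw [e0, sp_eq]
    refine hz1 K _ (nonG_of_nonD _ _ ?_) (fun j => ?_) W E hW hE
    · have h4 := nonD_ext (k := k) (L := AlgebraicClosure K)
        (Fin.append v (we h)) (Fin.append c (wc h)) (by
          have e : (fun j => algebraMap k ℂ (Fin.append c (wc h) j)) =
              Fin.append (fun j => algebraMap k ℂ (c j)) (fun l => algebraMap k ℂ (wc h l)) :=
            append_map _ _ _
          rw [e]
          exact hnd)
      have h5 : (fun j => algebraMap K (AlgebraicClosure K)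
          (Fin.append (fun j => algebraMap k K (c j))
            (fun l => (algebraMap k K) (wc h l)) j)) =
          fun j => algebraMap k (AlgebraicClosure K) (Fin.append c (wc h) j) := by
        rw [append_map, append_map]
        congr 1
      rw [h5]
      exact h4
    · refine Fin.addCases (fun j => ?_) (fun l => ?_) j
      · rw [Fin.append_left]
        exact (map_ne_zero _).2 (hcne j)
      · rw [Fin.append_right]
        exact (map_ne_zero _).2 (mem_support_iff.1 (h.support.equivFin.symm l).2)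

/-- **The refined theorem for generic coefficients, local `b`-functions.** -/
theorem gen_fstL {k : Type} [Field k] [Algebra k ℂ] (hr : 0 < r) (v : Fin r → Fin N → ℕ)
    (hv : Function.Injective v) (hv0 : ∀ j, v j ≠ 0) (h : MvPolynomial (Fin N) k)
    (hh : ∀ w ∈ h.support, NP v w) :
    ∃ g : MvPolynomial (Fin r) k, g ≠ 0 ∧ ∀ c : Fin r → k, eval c g ≠ 0 → Con1L v h c := by
  classical
  have hh' : ∀ w ∈ (hz v h).support, NP v w := fun w hw => hh w ((hz_support v hv h).1 w hw)
  obtain ⟨g, hg, hgc⟩ := gen1L hr v hv hv0 (hz v h) hh' (hz_support v hv h).2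
  refine ⟨shf (cof v h) g, shf_ne _ _ hg, fun c hc => ?_⟩
  have hc' : eval (fun j => c j + cof v h j) g ≠ 0 := by
    have h5 := shf_eval (cof v h) g c
    have h6 : aeval c (shf (cof v h) g) = eval c (shf (cof v h) g) := rfl
    rw [h6] at h5
    rw [h5] at hc
    exact hc
  obtain ⟨hnb, S, hS, hz1⟩ := hgc _ hc'
  have hf : spa v c + h = spa v (fun j => c j + cof v h j) + hz v h := by
    rw [spa_add]
    unfold hz
    ring
  rw [← hf] at hnb hS hz1
  refine ⟨hnb, S, fun p hp => ?_, hz1⟩
  obtain ⟨a, ha, hg', h3, h4⟩ := hS p hp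
  exact ⟨a, ha, hg', h3, fun hL b hb => h4 (locS_hz' v hv h _ hL) b hb⟩

end Pool.Agent.X271.MG
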