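import Pool.Agent.X271.MotMain
import Pool.Agent.X271.MotGenL
import Pool.Agent.Y229.PS.Emb

set_option autoImplicit false
set_option linter.unusedVariables false

/-! Motivic zeta functions of stably generic polynomials, local `b`-functions at the origin. -/

namespace Pool.Agent.X271.MG

open MvPolynomial Pool.Agent.H628R4.TP Pool.Agent.W425.MM Pool.Agent.W425.GN
open Pool.Agent.W425.ND (spa)
open Pool.Agent.W426.SM (gord IsRay face)
open Pool.Agent.W803.SM (gord_le exists_gord)
open Pool.Agent.W425.SV (NP)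
open Pool.Agent.TH216.MF (LocS SimH)
open Pool.Agent.W428.MOT (Pt Constr ratRing Lu MK)
open Pool.Agent.W375.MG (zetaG Good ratRing_mono)
open Pool.Agent.Y229.MS
open Pool.Agent.Y229.RE (stab)
open Pool.Agent.Y229.PS (Becomes stabP becomes_local formal_of_local const_coe)
open Pool.Agent.Y229.GL (IsCoord)

variable {M r : ℕ}

/-! ### polynomial automorphisms fixing the origin are formal coordinates -/

theorem lin_coeff {n : ℕ} (j : Fin n) (p : MvPolynomial (Fin n) ℂ) :
    coeff (Finsupp.single j 1) p = constantCoeff (pderiv j p) := by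
  rw [constantCoeff_eq, coeff_pderiv]
  simp

theorem lin_chain {n m : ℕ} (ψ : MvPolynomial (Fin n) ℂ →ₐ[ℂ] MvPolynomial (Fin m) ℂ)
    (h0 : ∀ i, constantCoeff (ψ (X i)) = 0) (j : Fin m) (p : MvPolynomial (Fin n) ℂ) :
    constantCoeff (ψ p) = constantCoeff p ∧ constantCoeff (pderiv j (ψ p)) =
      ∑ i, constantCoeff (pderiv i p) * constantCoeff (pderiv j (ψ (X i))) := by
  induction p using MvPolynomial.induction_on with
  | C a =>
    have h1 : ψ (C a) = C a := by
      rw [← algebraMap_eq, AlgHom.commutes, algebraMap_eq]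
    rw [h1]
    simp
  | add p q hp hq =>
    refine ⟨by rw [map_add, map_add, map_add, hp.1, hq.1], ?_⟩
    rw [map_add, map_add, map_add, hp.2, hq.2, ← Finset.sum_add_distrib]
    refine Finset.sum_congr rfl fun i _ => ?_
    rw [map_add, map_add, add_mul]
  | mul_X p l hp =>
    refine ⟨by rw [map_mul, map_mul, map_mul, h0, constantCoeff_X, mul_zero, mul_zero], ?_⟩
    rw [map_mul, Derivation.leibniz, map_add, smul_eq_mul, smul_eq_mul, map_mul, map_mul, h0,
      zero_mul, add_zero, hp.1, Finset.sum_eq_single l]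
    · rw [Derivation.leibniz, pderiv_X_self, smul_eq_mul, smul_eq_mul, mul_one, map_add,
        map_mul, constantCoeff_X, zero_mul, add_zero]
    · intro i _ hi
      rw [Derivation.leibniz, pderiv_X_of_ne (Ne.symm hi), smul_zero, zero_add, smul_eq_mul,
        map_mul, constantCoeff_X, zero_mul, zero_mul]
    · intro h
      exact absurd (Finset.mem_univ _) h

theorem coord_of_aut {n : ℕ} (φ : MvPolynomial (Fin n) ℂ ≃ₐ[ℂ] MvPolynomial (Fin n) ℂ)
    (h0 : ∀ i, constantCoeff (φ (X i)) = 0) :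
    IsCoord fun i => ((φ (X i) : MvPolynomial (Fin n) ℂ) : MvPowerSeries (Fin n) ℂ) := by
  classical
  have h0' : ∀ i, constantCoeff (φ.symm (X i)) = 0 := by
    intro i
    have h1 := (lin_chain (φ : MvPolynomial (Fin n) ℂ →ₐ[ℂ] MvPolynomial (Fin n) ℂ) h0 i
      (φ.symm (X i))).1
    rw [← h1]
    show constantCoeff (φ (φ.symm (X i))) = 0
    rw [AlgEquiv.apply_symm_apply, constantCoeff_X]
  set A : Matrix (Fin n) (Fin n) ℂ := Matrix.of fun i j => constantCoeff (pderiv j (φ (X i)))
    with hA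
  set B : Matrix (Fin n) (Fin n) ℂ :=
    Matrix.of fun i j => constantCoeff (pderiv j (φ.symm (X i))) with hB
  have hAB : A * B = 1 := by
    ext i j
    have h1 := (lin_chain (φ.symm : MvPolynomial (Fin n) ℂ →ₐ[ℂ] MvPolynomial (Fin n) ℂ) h0' j
      (φ (X i))).2
    have h2 : (φ.symm : MvPolynomial (Fin n) ℂ →ₐ[ℂ] MvPolynomial (Fin n) ℂ) (φ (X i)) = X i :=
      AlgEquiv.symm_apply_apply φ _
    rw [h2] at h1
    rw [Matrix.mul_apply, Matrix.one_apply]
    simp only [hA, hB, Matrix.of_apply]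
    refine h1.symm.trans ?_
    by_cases h : i = j
    · subst h
      rw [pderiv_X_self, if_pos rfl, map_one]
    · rw [pderiv_X_of_ne h, if_neg h, map_zero]
  have hdet : A.det ≠ 0 := by
    intro h
    have h1 := congrArg Matrix.det hAB
    rw [Matrix.det_mul, h, zero_mul, Matrix.det_one] at h1
    exact zero_ne_one h1
  unfold IsCoord
  have h1 : (Matrix.of fun i j => MvPowerSeries.coeff (Finsupp.single j 1)
      ((φ (X i) : MvPolynomial (Fin n) ℂ) : MvPowerSeries (Fin n) ℂ)) = A := by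
    ext i j
    rw [Matrix.of_apply, coeff_coe, lin_coeff]
    rfl
  rw [h1]
  exact hdet

theorem coe_stab {n : ℕ} (f : MvPolynomial (Fin n) ℂ) (κ : ℕ) :
    ((stab f κ : MvPolynomial (Fin (n + (κ + κ))) ℂ) : MvPowerSeries (Fin (n + (κ + κ))) ℂ) =
      stabP (f : MvPowerSeries (Fin n) ℂ) κ := by
  unfold stab stabP
  rw [MvPowerSeries.rename_coe, MvPolynomial.coe_add]
  congr 1
  rw [← MvPolynomial.coeToMvPowerSeries.ringHom_apply, map_sum]
  refine Finset.sum_congr rfl fun i _ => ?_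
  rw [map_mul, MvPolynomial.coeToMvPowerSeries.ringHom_apply,
    MvPolynomial.coeToMvPowerSeries.ringHom_apply, MvPolynomial.coe_X, MvPolynomial.coe_X]

/-- polynomial automorphisms fixing the origin -/
theorem becomes_of_aut {n κ : ℕ} (f : MvPolynomial (Fin n) ℂ)
    (φ : MvPolynomial (Fin (n + (κ + κ))) ℂ ≃ₐ[ℂ] MvPolynomial (Fin (n + (κ + κ))) ℂ)
    (h0 : ∀ i, constantCoeff (φ (X i)) = 0) :
    Becomes (f : MvPowerSeries (Fin n) ℂ) κ (φ (stab f κ)) := by
  have hc0 : ∀ i, MvPowerSeries.constantCoeff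
      ((φ (X i) : MvPolynomial (Fin (n + (κ + κ))) ℂ) :
        MvPowerSeries (Fin (n + (κ + κ))) ℂ) = 0 := fun i => by
    rw [const_coe, h0]
  refine ⟨_, 1, coord_of_aut φ h0, hc0, isUnit_one, ?_⟩
  rw [← coe_stab, MvPowerSeries.subst_coe, one_mul]
  have h2 := MvPolynomial.comp_aeval_apply (R := ℂ) (f := fun i => φ (X i))
    (φ := MvPolynomial.coeToMvPowerSeries.algHom ℂ (σ := Fin (n + (κ + κ))) (R := ℂ)) (stab f κ)
  simp only [MvPolynomial.coeToMvPowerSeries.algHom_apply, Algebra.algebraMap_self,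
    MvPowerSeries.map_id, RingHom.id_apply] at h2
  rw [← h2]
  congr 1
  have h3 : (aeval fun i => φ (X i) :
      MvPolynomial (Fin (n + (κ + κ))) ℂ →ₐ[ℂ] MvPolynomial (Fin (n + (κ + κ))) ℂ) =
      (φ : MvPolynomial (Fin (n + (κ + κ))) ℂ →ₐ[ℂ] MvPolynomial (Fin (n + (κ + κ))) ℂ) := by
    apply MvPolynomial.algHom_ext
    intro i
    rw [aeval_X]
    rfl
  rw [h3]
  rfl

/-- the local functional equation of `G` -/
theorem loc_becomes {n κ : ℕ} {f : MvPolynomial (Fin n) ℂ} (hf : f ≠ 0)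
    (hf0 : constantCoeff f = 0) {b : Polynomial ℂ} (hb : IsLocalBFunction f b)
    {G : MvPolynomial (Fin (n + (κ + κ))) ℂ}
    (hG : Becomes (f : MvPowerSeries (Fin n) ℂ) κ G) :
    b.eval (-1) = 0 ∧ ∀ c : Polynomial ℂ, b = (Polynomial.X + 1) * c →
      IsLocalBFunction G ((Polynomial.X + 1) *
        c.comp (Polynomial.X + Polynomial.C (κ : ℂ))) := by
  refine becomes_local (fun h => hf ?_) (by rw [const_coe, hf0]) (formal_of_local hb) hG
  exact MvPolynomial.coe_injective (σ := Fin n) (R := ℂ) (by rw [h, MvPolynomial.coe_zero])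

/-- the coefficient of `y z` -/
theorem exists_scale' {K : Type} [Field K] {τ : K} (hτ : τ ≠ 0) :
    ∃ θ : MvPolynomial (Fin (M + 2)) K ≃ₐ[K] MvPolynomial (Fin (M + 2)) K,
      (∀ i, constantCoeff (θ (X i)) = 0) ∧
      ∀ G : MvPolynomial (Fin M) K, θ (addyz G) =
        rename (Fin.castAdd 2) G + C τ * (X (Fin.natAdd M 0) * X (Fin.natAdd M 1)) := by
  have ht : ∀ i, (Fin.append (fun _ : Fin M => (1 : K)) ![τ, 1]) i ≠ 0 := by
    intro i
    refine Fin.addCases (fun i => ?_) (fun i => ?_) i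
    · rw [Fin.append_left]
      exact one_ne_zero
    · rw [Fin.append_right]
      fin_cases i
      · exact hτ
      · exact one_ne_zero
  refine ⟨sclK (Fin.append (fun _ => 1) ![τ, 1]) ht, fun i => ?_, fun G => ?_⟩
  · rw [sclK_X, map_mul, constantCoeff_X, mul_zero]
  · unfold addyz
    rw [map_add, map_mul, sclK_X, sclK_X, Fin.append_right, Fin.append_right]
    congr 1
    · have h1 : ∀ G : MvPolynomial (Fin M) K,
          sclK (Fin.append (fun _ => 1) ![τ, 1]) ht (rename (Fin.castAdd 2) G) =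
            rename (Fin.castAdd 2) G := by
        intro G
        induction G using MvPolynomial.induction_on with
        | C a =>
          rw [rename_C, ← algebraMap_eq, AlgEquiv.commutes]
        | add p q hp hq => rw [map_add, map_add, hp, hq]
        | mul_X p i hp =>
          rw [map_mul, map_mul, hp, rename_X, sclK_X, Fin.append_left, C_1, one_mul]
      exact h1 G
    · simp only [Matrix.cons_val_zero, Matrix.cons_val_one, C_1, one_mul]
      ring

/-! ### the theorem -/

/-- The condition on the facets of `v` for local `b`-functions: the level of every facet is the level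
of a non-B1 simplex, or the facets of this level are simplices or B1 in one common direction. -/
def HypCL {R : Type} [CommRing R] (v : Fin r → Fin M → ℕ) (h : MvPolynomial (Fin M) R) : Prop :=
  ∀ a : Fin M → ℕ, IsRay v a → 0 < gord v a →
    (∃ a' : Fin M → ℕ, 0 < gord v a' ∧ NonB v True a' ∧ lev v a = lev v a') ∨
      LocC v h (lev v a)

theorem stabK_ne {k : Type} [Field k] {n κ : ℕ} {f : MvPolynomial (Fin n) k} (hf : f ≠ 0) :
    stabK f κ ≠ 0 := by
  intro h0
  apply hf
  have h3 := congrArg (aeval (Fin.append (X : Fin n → MvPolynomial (Fin n) k) fun _ => 0)) h0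
  unfold stabK at h3
  rw [map_add, map_sum, aeval_rename, map_zero, Finset.sum_eq_zero, add_zero] at h3
  · have h4 : (Fin.append (X : Fin n → MvPolynomial (Fin n) k) fun _ : Fin (κ + κ) => 0) ∘
        Fin.castAdd (κ + κ) = X := by
      funext i
      rw [Function.comp_apply, Fin.append_left]
    rw [h4, aeval_X_left_apply] at h3
    exact h3
  · intro i _
    rw [map_mul, aeval_X, Fin.append_right, zero_mul]

theorem const_spa {k : Type} [Field k] {n : ℕ} (v : Fin r → Fin n → ℕ) (hv0 : ∀ j, v j ≠ 0)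
    (c : Fin r → k) (h : MvPolynomial (Fin n) k) (hh : ∀ w ∈ h.support, NP v w) :
    constantCoeff (spa v c + h) = 0 := by
  classical
  rw [map_add]
  have h1 : constantCoeff (spa v c) = 0 := by
    unfold spa
    rw [map_sum]
    refine Finset.sum_eq_zero fun j _ => ?_
    rw [map_mul, map_prod]
    obtain ⟨x, hx⟩ : ∃ x, v j x ≠ 0 := by
      by_contra hcon
      push Not at hcon
      exact hv0 j (funext hcon)
    rw [Finset.prod_eq_zero (Finset.mem_univ x), mul_zero]
    rw [map_pow, constantCoeff_X, zero_pow hx]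
  have h2 : constantCoeff h = 0 := by
    rw [constantCoeff_eq]
    by_contra hcon
    obtain ⟨l, h3, h4, h5⟩ := hh 0 (mem_support_iff.2 hcon)
    have h6 : ∀ j, l j = 0 := by
      intro j
      obtain ⟨x, hx⟩ : ∃ x, v j x ≠ 0 := by
        by_contra hcon
        push Not at hcon
        exact hv0 j (funext hcon)
      have h7 := h5 x
      rw [Finsupp.coe_zero, Pi.zero_apply, Nat.cast_zero] at h7
      have h8 : ∀ j', 0 ≤ l j' * (v j' x : ℝ) := fun j' => mul_nonneg (h3 j') (Nat.cast_nonneg _)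
      have h9 := (Finset.sum_eq_zero_iff_of_nonneg (fun j' _ => h8 j')).1
        (le_antisymm h7 (Finset.sum_nonneg fun j' _ => h8 j')) j (Finset.mem_univ j)
      rcases mul_eq_zero.1 h9 with h10 | h10
      · exact h10
      · exact absurd (by exact_mod_cast h10) hx
    simp only [h6, Finset.sum_const_zero] at h4
    exact zero_ne_one h4
  rw [h1, h2, add_zero]

/-- **Stably generic polynomials, local `b`-functions at the origin.** -/
theorem coreL {k : Type} [Field k] [Algebra k ℂ] {n κ r : ℕ} (hr : 0 < r)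
    (v : Fin r → Fin (n + (κ + κ)) → ℕ) (hv : Function.Injective v) (hv0 : ∀ j, v j ≠ 0)
    (h : MvPolynomial (Fin (n + (κ + κ))) k) (hh : ∀ w ∈ h.support, NP v w)
    (hC : HypCL v h) :
    ∃ g : MvPolynomial (Fin r) k, g ≠ 0 ∧ ∀ c : Fin r → k, eval c g ≠ 0 →
      ∀ f : MvPolynomial (Fin n) k, f ≠ 0 → constantCoeff f = 0 →
      ∀ φ : MvPolynomial (Fin (n + (κ + κ))) k ≃ₐ[k] MvPolynomial (Fin (n + (κ + κ))) k,
      φ (stabK f κ) = spa v c + h →
      Becomes ((map (algebraMap k ℂ) f : MvPolynomial (Fin n) ℂ) : MvPowerSeries (Fin n) ℂ) κ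
        (map (algebraMap k ℂ) (spa v c + h)) →
      (∀ a : Fin (n + (κ + κ)) → ℕ, IsRay v a → 0 < gord v a → ∑ i, a i ≠ gord v a) →
    ∃ S : Finset (ℤ × ℤ),
      (∀ p ∈ S, 0 < p.2 ∧ (p = (-1, 1) ∨ ∃ a : Fin (n + (κ + κ)) → ℕ, IsRay v a ∧
          0 < gord v a ∧ p = (-((∑ i, a i : ℕ) : ℤ) + κ * (gord v a : ℤ), (gord v a : ℤ))) ∧
        ∀ b : Polynomial ℂ, IsLocalBFunction (map (algebraMap k ℂ) f) b →
          b.eval ((p.1 : ℂ) / p.2) = 0) ∧
      ∀ (K : Type) [Field K] [Algebra k K] (W : Set (Pt K (Fin n)))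
        (E : Set (AlgebraicClosure K)), Constr W → Good E →
        zetaG (map (algebraMap k K) f) W E ∈ ratRing K S := by
  classical
  have hkc : CharZero k := RingHom.charZero (algebraMap k ℂ)
  obtain ⟨g1, hg1, hc1⟩ := gen_fstL hr v hv hv0 h hh
  obtain ⟨g2, hg2, hc2⟩ := gen_fstL (Nat.succ_pos r) (exyz v) (exyz_inj hv) (exyz_ne hv0) (up h)
    (np_up hh)
  obtain ⟨τ, hτ, g2', hg2', hc2'⟩ := exists_tau hg2
  refine ⟨g1 * g2', mul_ne_zero hg1 hg2', fun c hc f hf hf0 φ hφ hbec hlev1 => ?_⟩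
  rw [map_mul] at hc
  obtain ⟨hnb1, S1, hS1, hz1⟩ := hc1 c (left_ne_zero_of_mul hc)
  obtain ⟨hnb2, S2, hS2, hz2⟩ := hc2 (Fin.cons τ c) (by
    rw [← hc2']
    exact right_ne_zero_of_mul hc)
  set G : MvPolynomial (Fin (n + (κ + κ))) k := spa v c + h with hG
  set fC : MvPolynomial (Fin n) ℂ := map (algebraMap k ℂ) f with hfC
  have hinj := map_injective (σ := Fin n) (algebraMap k ℂ) (algebraMap k ℂ).injective
  have hfCn : fC ≠ 0 := fun h0 => hf (hinj (by rw [map_zero]; exact h0))
  have hfC0 : constantCoeff fC = 0 := by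
    rw [hfC, constantCoeff_map, hf0, map_zero]
  set GC : MvPolynomial (Fin (n + (κ + κ))) ℂ := map (algebraMap k ℂ) G with hGC
  have hGCn : GC ≠ 0 := by
    intro h0
    have h1 : G = 0 := map_injective _ (algebraMap k ℂ).injective (by rw [map_zero]; exact h0)
    rw [← hφ] at h1
    exact stabK_ne hf (φ.injective (by rw [h1, map_zero]))
  have hGC0 : constantCoeff GC = 0 := by
    rw [hGC, constantCoeff_map, hG, const_spa v hv0 c h hh, map_zero]
  -- the b-functions
  have hb1 : ∀ c' : Polynomial ℂ, IsLocalBFunction fC ((Polynomial.X + 1) * c') →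
      IsLocalBFunction GC ((Polynomial.X + 1) *
        c'.comp (Polynomial.X + Polynomial.C (κ : ℂ))) := fun c' h =>
    (loc_becomes hfCn hfC0 h hbec).2 c' rfl
  set τC : ℂ := algebraMap k ℂ τ with hτC
  have hτC0 : τC ≠ 0 := (map_ne_zero _).2 hτ
  have hmap2 : ∀ (K : Type) [Field K] [Algebra k K],
      map (algebraMap k K) (spa (exyz v) (Fin.cons τ c : Fin (r + 1) → k) + up h) =
      rename (Fin.castAdd 2) (map (algebraMap k K) G) +
        C (algebraMap k K τ) * (X (Fin.natAdd _ 0) * X (Fin.natAdd _ 1)) := by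
    intro K _ _
    rw [spa_tau, ← hG]
    simp only [map_add, map_mul, map_X, map_C, map_rename]
  have hb2 : ∀ c' : Polynomial ℂ, IsLocalBFunction fC ((Polynomial.X + 1) * c') →
      IsLocalBFunction
        (map (algebraMap k ℂ) (spa (exyz v) (Fin.cons τ c : Fin (r + 1) → k) + up h))
        ((Polynomial.X + 1) *
        (c'.comp (Polynomial.X + Polynomial.C (κ : ℂ))).comp
          (Polynomial.X + Polynomial.C ((1 : ℕ) : ℂ))) := by
    intro c' h
    obtain ⟨θ, hθ0, hθ⟩ := exists_scale' (M := n + (κ + κ)) hτC0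
    have h4 : Becomes (GC : MvPowerSeries (Fin (n + (κ + κ))) ℂ) 1 (θ (stab GC 1)) :=
      becomes_of_aut (κ := 1) GC θ hθ0
    have h5 := (loc_becomes (κ := 1) (G := θ (stab GC 1)) hGCn hGC0
      (hb1 c' h) h4).2 _ rfl
    have h6 : stab GC 1 = addyz GC := by
      unfold stab addyz
      rw [Fin.sum_univ_one]
      rfl
    rw [h6, hθ, ← hmap2 ℂ] at h5
    exact h5
  -- the levels
  have hrat : ∀ a : Fin (n + (κ + κ)) → ℕ, 0 < gord v a →
      (((-((∑ i, a i : ℕ) : ℤ) + κ * (gord v a : ℤ) : ℤ) : ℂ) / ((gord v a : ℤ) : ℂ)) =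
        ((-lev v a : ℚ) : ℂ) + κ := by
    intro a hg
    have h7 : ((gord v a : ℕ) : ℂ) ≠ 0 := by
      exact_mod_cast (Nat.pos_iff_ne_zero.1 hg)
    unfold lev
    push_cast
    field_simp
  have hlev0 : ∀ a : Fin (n + (κ + κ)) → ℕ, IsRay v a → 0 < gord v a →
      ((-lev v a : ℚ) : ℂ) ≠ 0 := by
    intro a ha hg h0
    have h1 : (-lev v a : ℚ) = 0 := by exact_mod_cast h0
    unfold lev at h1
    rw [neg_eq_zero, div_eq_zero_iff] at h1
    rcases h1 with h1 | h1
    · have h2 := Pool.Agent.TH216.MC.pos_of_ray ha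
      have h3 : ∑ i, a i = 0 := by exact_mod_cast h1
      rw [h3] at h2
      simp at h2
    · have h2 : gord v a = 0 := by exact_mod_cast h1
      omega
  have hlev1' : ∀ a : Fin (n + (κ + κ)) → ℕ, IsRay v a → 0 < gord v a →
      ((-lev v a : ℚ) : ℂ) + 1 ≠ 0 := by
    intro a ha hg h0
    apply hlev1 a ha hg
    have h1 : (-lev v a : ℚ) + 1 = 0 := by exact_mod_cast h0
    have h2 : lev v a = 1 := by linarith
    unfold lev at h2
    rw [div_eq_one_iff_eq (by exact_mod_cast hg.ne')] at h2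
    exact_mod_cast h2
  -- the roots
  have hroot : ∀ a : Fin (n + (κ + κ)) → ℕ, IsRay v a → 0 < gord v a →
      (LocC v h (lev v a) → ∀ c' : Polynomial ℂ, IsLocalBFunction fC ((Polynomial.X + 1) * c') →
        c'.eval (((-lev v a : ℚ) : ℂ) + κ) = 0) →
      ∀ b : Polynomial ℂ, IsLocalBFunction fC b →
        b.eval ((((-((∑ i, a i : ℕ) : ℤ) + κ * (gord v a : ℤ) : ℤ) : ℂ) /
          ((gord v a : ℤ) : ℂ))) = 0 := by
    intro a ha hg hL b hb
    have h5 := (loc_becomes hfCn hfC0 hb hbec).1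
    obtain ⟨c', hc'⟩ : (Polynomial.X + 1 : Polynomial ℂ) ∣ b := by
      have := Polynomial.dvd_iff_isRoot.2 h5
      simpa using this
    have h6 : c'.eval (((-lev v a : ℚ) : ℂ) + κ) = 0 := by
      rcases hC a ha hg with ⟨a', hg', hn', he⟩ | h7
      · have h8 := hnb1 a' hg' hn' _ (hb1 c' (hc' ▸ hb))
        rw [← he, Polynomial.eval_mul, Polynomial.eval_comp, Polynomial.eval_add,
          Polynomial.eval_X, Polynomial.eval_one, Polynomial.eval_add, Polynomial.eval_X,
          Polynomial.eval_C] at h8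
        exact (mul_eq_zero.1 h8).resolve_left (hlev1' a ha hg)
      · exact hL h7 c' (hc' ▸ hb)
    rw [hrat a hg, hc', Polynomial.eval_mul, h6, mul_zero]
  set S : Finset (ℤ × ℤ) := insert (-1, 1) (S1.image (fun q => (q.1 + κ * q.2, q.2)) ∪
    S2.image (fun q => (q.1 + ((κ + 1 : ℕ) : ℤ) * q.2, q.2))) with hS
  refine ⟨S, fun p hp => ?_, fun K _ _ W E hW hE => ?_⟩
  · rcases Finset.mem_insert.1 hp with rfl | hp
    · refine ⟨by norm_num, Or.inl rfl, fun b hb => ?_⟩
      have h5 := (loc_becomes hfCn hfC0 hb hbec).1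
      have h6 : (((-1 : ℤ) : ℂ) / ((1 : ℤ) : ℂ)) = -1 := by norm_num
      simp only [h6]
      exact h5
    · rcases Finset.mem_union.1 hp with hp | hp
      · obtain ⟨q, hq, rfl⟩ := Finset.mem_image.1 hp
        obtain ⟨a, ha, hg, rfl, hr1⟩ := hS1 q hq
        refine ⟨Int.natCast_pos.2 hg, Or.inr ⟨a, ha, hg, rfl⟩, fun b hb => ?_⟩
        refine hroot a ha hg (fun hL c' hc' => ?_) b hb
        have h8 := hr1 hL.locS _ (hb1 c' hc')
        rw [Polynomial.eval_mul, Polynomial.eval_comp, Polynomial.eval_add,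
          Polynomial.eval_X, Polynomial.eval_one, Polynomial.eval_add, Polynomial.eval_X,
          Polynomial.eval_C] at h8
        exact (mul_eq_zero.1 h8).resolve_left (hlev1' a ha hg)
      · obtain ⟨q, hq, hqp⟩ := Finset.mem_image.1 hp
        obtain ⟨a, ha, hg, hqa, hr1⟩ := hS2 q hq
        obtain ⟨h11, h12, h13, h14, h15⟩ := ray_exyz hr v ha hg
        have hg' : 0 < gord v (low a) := by rw [h12]; exact hg
        have hpe : p =
            (-((∑ i, low a i : ℕ) : ℤ) + κ * (gord v (low a) : ℤ), (gord v (low a) : ℤ)) := by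
          rw [← hqp, hqa, h15, h12, Prod.mk.injEq]
          refine ⟨?_, rfl⟩
          push_cast
          ring
        rw [hpe]
        refine ⟨Int.natCast_pos.2 hg', Or.inr ⟨low a, h11, hg', rfl⟩, fun b hb => ?_⟩
        refine hroot (low a) h11 hg' (fun hL c' hc' => ?_) b hb
        have hlv := lev_exyz hr v ha hg
        have h8 := hr1 (by rw [hlv]; exact locS_exyz hr hL) _ (hb2 c' hc')
        rw [hlv, Polynomial.eval_mul, Polynomial.eval_comp, Polynomial.eval_comp,
          Polynomial.eval_add, Polynomial.eval_X, Polynomial.eval_one, Polynomial.eval_add,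
          Polynomial.eval_X, Polynomial.eval_C, Polynomial.eval_add,
          Polynomial.eval_X, Polynomial.eval_C] at h8
        have h9 : ((-(lev v (low a) + 1) : ℚ) : ℂ) + ((1 : ℕ) : ℂ) = ((-lev v (low a) : ℚ) : ℂ) := by
          push_cast
          ring
        have h10 : ((-(lev v (low a) + 1) : ℚ) : ℂ) + 1 = ((-lev v (low a) : ℚ) : ℂ) := by
          push_cast
          ring
        rw [h9, h10] at h8
        exact (mul_eq_zero.1 h8).resolve_left (hlev0 _ h11 hg')
  · have hK : CharZero K := charZero_of_injective_algebraMap (algebraMap k K).injective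
    have hE' : CE E := ce_good hE
    set fK : MvPolynomial (Fin n) K := map (algebraMap k K) f with hfK
    obtain ⟨ψ1, hψ1⟩ := Pool.Agent.Y405.MS.itr K fK κ
    obtain ⟨ψ2, hψ2⟩ := Pool.Agent.Y405.MS.bc k K φ
    set ψ := ψ1.trans ψ2 with hψ
    have e1 : ψ (itr fK κ) = map (algebraMap k K) G := by
      show ψ2 (ψ1 (itr fK κ)) = _
      rw [hψ1, hfK, ← map_stabK, hψ2, hφ]
    obtain ⟨ψ', hψ'⟩ := Pool.Agent.Y405.MS.ext K ψ
    obtain ⟨θ, hθ⟩ := exists_scale (K := K) (M := n + (κ + κ)) (τ := algebraMap k K τ)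
      ((map_ne_zero _).2 hτ)
    set ψ'' := ψ'.trans θ with hψ''
    have e2 : ψ'' (addyz (itr fK κ)) =
        map (algebraMap k K) (spa (exyz v) (Fin.cons τ c : Fin (r + 1) → k) + up h) := by
      show θ (ψ' (addyz (itr fK κ))) = _
      rw [hψ', e1, hθ, hmap2]
    have hW1 : Constr (Witr W κ) := constr_Witr hW κ
    have hW2 : Constr (Wyz (Witr W κ)) := constr_Wyz hW1
    have z1 := hz1 K _ E (constr_pull ψ hW1) hE
    have z2 := hz2 K _ E (constr_pull ψ'' hW2) hE
    rw [← e1, zeta_iso Pool.Agent.Z864.MS.three (by ring) ψ _ hW1 hE'] at z1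
    rw [← e2, zeta_iso Pool.Agent.Z864.MS.three (by ring) ψ'' _ hW2 hE'] at z2
    have z3 := descend' fK hW hE' κ S1 S2 (fun p hp => by
        obtain ⟨a, ha, hg, rfl, -⟩ := hS1 p hp
        exact Int.natCast_pos.2 hg)
      (fun p hp => by
        obtain ⟨a, ha, hg, rfl, -⟩ := hS2 p hp
        exact Int.natCast_pos.2 hg) z1 z2
    refine ratRing_mono ?_ (zeta_of_fst fK W E _ z3)
    rintro p (rfl | ⟨q, hq, rfl⟩ | ⟨q, hq, rfl⟩)
    · exact Finset.mem_coe.2 (Finset.mem_insert_self _ _)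
    · exact Finset.mem_coe.2 (Finset.mem_insert_of_mem (Finset.mem_union_left _
        (Finset.mem_image_of_mem (fun q : ℤ × ℤ => (q.1 + (κ : ℤ) * q.2, q.2)) hq)))
    · exact Finset.mem_coe.2 (Finset.mem_insert_of_mem (Finset.mem_union_right _
        (Finset.mem_image_of_mem (fun q : ℤ × ℤ => (q.1 + ((κ + 1 : ℕ) : ℤ) * q.2, q.2)) hq)))

end Pool.Agent.X271.MG
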