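import Pool.Agent.X271.MotCmp
import Pool.Agent.X271.MotMainL

set_option autoImplicit false
set_option linter.unusedVariables false

/-! Motivic zeta functions of compositions with generic coefficients, local `b`-functions. -/

namespace Pool.Agent.X271.MG

open MvPolynomial Pool.Agent.H628R4.TP Pool.Agent.W425.MM Pool.Agent.W425.GN
open Pool.Agent.W425.ND (spa)
open Pool.Agent.W426.SM (gord IsRay face)
open Pool.Agent.W803.SM (gord_le exists_gord)
open Pool.Agent.W425.SV (NP)
open Pool.Agent.W749.JI (fam)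
open Pool.Agent.W428.MOT (Pt Constr ratRing Lu MK zeta)
open Pool.Agent.W375.MG (zetaG Good ratRing_mono)
open Pool.Agent.Y229.MS (stabK spa_ex)
open Pool.Agent.Y229.PS (NPT sum_exR forall_split map_yv Becomes becomes_emb)
open Pool.Agent.Y229.RE

variable {n κ r : ℕ} {k : Type} [Field k]

/-- expansion in the `c_i z_i - p_i(x)` -/
theorem expandQ (c : Fin κ → k) (hc : ∀ i, c i ≠ 0) (p : Fin κ → MvPolynomial (Fin n) k)
    (G : MvPolynomial (Fin (n + κ)) k) :
    ∃ q : Fin κ → MvPolynomial (Fin (n + κ)) k,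
      G = rename (Fin.castAdd κ) (aeval (Fin.append (X : Fin n → MvPolynomial (Fin n) k)
        (fun i => C (c i)⁻¹ * p i)) G) +
        ∑ i, q i * (C (c i) * X (Fin.natAdd n i) - rename (Fin.castAdd κ) (p i)) := by
  classical
  set l : Fin κ → MvPolynomial (Fin (n + κ)) k :=
    fun i => C (c i) * X (Fin.natAdd n i) - rename (Fin.castAdd κ) (p i) with hl
  induction G using MvPolynomial.induction_on with
  | C a =>
    refine ⟨fun _ => 0, ?_⟩
    rw [algHom_C, algebraMap_eq, rename_C]
    simp
  | add P Q hP hQ =>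
    obtain ⟨r, hr⟩ := hP
    obtain ⟨s, hs⟩ := hQ
    refine ⟨fun i => r i + s i, ?_⟩
    have e : ∑ i, (r i + s i) * l i = ∑ i, r i * l i + ∑ i, s i * l i := by
      rw [← Finset.sum_add_distrib]
      exact Finset.sum_congr rfl fun i _ => add_mul _ _ _
    rw [e, map_add, map_add]
    conv_lhs => rw [hr, hs]
    ring
  | mul_X P j hP =>
    obtain ⟨r, hr⟩ := hP
    set fP := rename (Fin.castAdd κ) (aeval (Fin.append (X : Fin n → MvPolynomial (Fin n) k)
        (fun i => C (c i)⁻¹ * p i)) P) with hfP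
    refine Fin.addCases (fun i => ?_) (fun i => ?_) j
    · refine ⟨fun t => r t * X (Fin.castAdd κ i), ?_⟩
      rw [map_mul, map_mul, aeval_X, Fin.append_left, rename_X, ← hfP]
      have e : ∑ t, r t * X (Fin.castAdd κ i) * l t = (∑ t, r t * l t) * X (Fin.castAdd κ i) := by
        rw [Finset.sum_mul]
        exact Finset.sum_congr rfl fun t _ => by ring
      rw [e, ← add_mul, ← hr]
    · refine ⟨fun t => r t * (C (c i)⁻¹ * rename (Fin.castAdd κ) (p i)) +
        (if t = i then P * C (c i)⁻¹ else 0), ?_⟩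
      rw [map_mul, map_mul, aeval_X, Fin.append_right, map_mul, rename_C, ← hfP]
      have e : ∑ t, (r t * (C (c i)⁻¹ * rename (Fin.castAdd κ) (p i)) +
          (if t = i then P * C (c i)⁻¹ else 0)) * l t =
          (∑ t, r t * l t) * (C (c i)⁻¹ * rename (Fin.castAdd κ) (p i)) +
            P * C (c i)⁻¹ * l i := by
        simp only [add_mul, Finset.sum_add_distrib, ite_mul, zero_mul, Finset.sum_ite_eq',
          Finset.mem_univ, if_true, Finset.sum_mul]
        congr 1
        exact Finset.sum_congr rfl fun t _ => by ring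
      rw [e]
      have e2 : ∑ t, r t * l t = P - fP := eq_sub_of_add_eq' hr.symm
      rw [e2, hl]
      have e3 : (C (c i)⁻¹ * C (c i) : MvPolynomial (Fin (n + κ)) k) = 1 := by
        rw [← C_mul, inv_mul_cancel₀ (hc i), C_1]
      linear_combination (-(P * X (Fin.natAdd n i))) * e3

theorem castAdd_ne' (i : Fin n) (j : Fin κ) : Fin.castAdd κ i ≠ Fin.natAdd n j := by
  intro h
  have := congrArg Fin.val h
  simp only [Fin.val_castAdd, Fin.val_natAdd] at this
  have := i.2
  omega

/-- **The composition in formal coordinates at the origin.** -/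
theorem becomes_comp [Algebra k ℂ] (π : Fin r → Fin (κ + 1)) (m : Fin r → Fin (n + κ) → ℕ)
    (a : Fin r → k) (H : Fin (κ + 1) → MvPolynomial (Fin (n + κ)) k)
    (c : Fin κ → k) (hc : ∀ i, c i ≠ 0) (p : Fin κ → MvPolynomial (Fin n) k)
    (hp : ∀ i, constantCoeff (p i) = 0)
    (hl : ∀ i : Fin κ, tupK π m a H i.succ = C (c i) * X (Fin.natAdd n i) -
      rename (Fin.castAdd κ) (p i))
    (hlin : ∀ i : Fin κ, coeff (Finsupp.single (Fin.natAdd n i) 1) (tupK π m a H 0) = 0) :
    Becomes ((map (algebraMap k ℂ) (aeval (Fin.append X fun i => C (c i)⁻¹ * p i)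
      (tupK π m a H 0)) : MvPolynomial (Fin n) ℂ) : MvPowerSeries (Fin n) ℂ) κ
      (map (algebraMap k ℂ) (spa (ex π m) a + hK H)) := by
  classical
  obtain ⟨q, hq⟩ := expandQ c hc p (tupK π m a H 0)
  set f := aeval (Fin.append (X : Fin n → MvPolynomial (Fin n) k)
    fun i => C (c i)⁻¹ * p i) (tupK π m a H 0) with hf
  have hl0 : ∀ i : Fin κ, constantCoeff (C (c i) * X (Fin.natAdd n i) -
      rename (Fin.castAdd κ) (p i) : MvPolynomial (Fin (n + κ)) k) = 0 := by
    intro i
    rw [map_sub, map_mul, constantCoeff_X, mul_zero, zero_sub, constantCoeff_rename, hp, neg_zero]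
  -- the derivatives of the `l_i`
  have hder : ∀ (j : Fin κ) (g : MvPolynomial (Fin n) k),
      pderiv (Fin.natAdd n j) (rename (Fin.castAdd κ) g : MvPolynomial (Fin (n + κ)) k) = 0 := by
    intro j g
    rw [Pool.Agent.W206.CU.pderiv_rename_of_not _ _ fun i => castAdd_ne' i j]
  have hdl : ∀ i j : Fin κ, pderiv (Fin.natAdd n j) (C (c i) * X (Fin.natAdd n i) -
      rename (Fin.castAdd κ) (p i) : MvPolynomial (Fin (n + κ)) k) = if i = j then C (c i) else 0 := by
    intro i j
    rw [map_sub, hder, sub_zero, Derivation.leibniz, pderiv_C, smul_zero, add_zero]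
    by_cases h : i = j
    · subst h
      rw [pderiv_X_self, if_pos rfl, smul_eq_mul, mul_one]
    · rw [pderiv_X_of_ne (fun h' => h (Fin.natAdd_injective _ _ h')), if_neg h, smul_zero]
  have hq0 : ∀ j, constantCoeff (q j) = 0 := by
    intro j
    have h1 := congrArg (fun P => constantCoeff (pderiv (Fin.natAdd n j) P)) hq
    simp only [map_add, map_sum, hder, map_zero, zero_add] at h1
    have h2 : constantCoeff (pderiv (Fin.natAdd n j) (tupK π m a H 0)) = 0 := by
      rw [constantCoeff_eq, coeff_pderiv, zero_add, hlin, zero_mul]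
    rw [h2, Finset.sum_eq_single j] at h1
    · rw [Derivation.leibniz, hdl, if_pos rfl, smul_eq_mul, smul_eq_mul, map_add, map_mul,
        map_mul, hl0, zero_mul, add_zero, constantCoeff_C] at h1
      rcases mul_eq_zero.1 h1.symm with h3 | h3
      · exact h3
      · exact absurd h3 (hc j)
    · intro i _ hi
      rw [Derivation.leibniz, hdl, if_neg hi, smul_zero, smul_eq_mul, zero_add, map_mul, hl0,
        zero_mul]
    · intro h
      exact absurd (Finset.mem_univ _) h
  -- over `ℂ`
  set G : Fin (κ + 1) → MvPolynomial (Fin (n + κ)) ℂ :=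
    fun i => map (algebraMap k ℂ) (tupK π m a H i) with hG
  have h1 := becomes_emb (N := n) (k := κ) G (fun i => by
      rw [hG]
      simp only
      rw [constantCoeff_map, hl, hl0, map_zero]) (by
      have h2 : (Matrix.of fun i j : Fin κ => coeff (Finsupp.single (Fin.natAdd n j) 1)
          (G i.succ)) = Matrix.diagonal fun i => algebraMap k ℂ (c i) := by
        ext i j
        rw [Matrix.of_apply, hG]
        simp only
        have h3 : coeff (Finsupp.single (Fin.natAdd n j) 1) (tupK π m a H i.succ) =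
            if i = j then c i else 0 := by
          have h4 : constantCoeff (pderiv (Fin.natAdd n j) (tupK π m a H i.succ)) =
              coeff (Finsupp.single (Fin.natAdd n j) 1) (tupK π m a H i.succ) := by
            rw [constantCoeff_eq, coeff_pderiv]
            simp
          rw [← h4, hl, hdl]
          split_ifs
          · rw [constantCoeff_C]
          · rw [map_zero]
        rw [coeff_map, h3]
        by_cases h : i = j
        · subst h
          rw [if_pos rfl, Matrix.diagonal_apply_eq]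
        · rw [if_neg h, map_zero, Matrix.diagonal_apply_ne _ h]
      rw [h2, Matrix.det_diagonal]
      exact Finset.prod_ne_zero_iff.2 fun i _ => (map_ne_zero _).2 (hc i))
    ((map (algebraMap k ℂ) f : MvPolynomial (Fin n) ℂ) : MvPowerSeries (Fin n) ℂ)
    (fun i => ((map (algebraMap k ℂ) (q i) : MvPolynomial (Fin (n + κ)) ℂ) :
      MvPowerSeries (Fin (n + κ)) ℂ))
    (fun i => by
      rw [Pool.Agent.Y229.PS.const_coe, constantCoeff_map, hq0, map_zero])
    (by
      rw [MvPowerSeries.rename_coe]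
      have h5 := congrArg (map (algebraMap k ℂ)) hq
      rw [map_add, map_rename, map_sum] at h5
      rw [hG]
      simp only
      rw [h5, MvPolynomial.coe_add]
      congr 1
      rw [← MvPolynomial.coeToMvPowerSeries.ringHom_apply, map_sum]
      refine Finset.sum_congr rfl fun i _ => ?_
      rw [map_mul, map_mul, MvPolynomial.coeToMvPowerSeries.ringHom_apply,
        MvPolynomial.coeToMvPowerSeries.ringHom_apply, hl])
  have h2 : map (algebraMap k ℂ) (spa (ex π m) a + hK H) = rename emb (G 0) +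
      ∑ i : Fin κ, X (yv n i) * rename emb (G i.succ) := by
    rw [spa_hK]
    simp only [map_add, map_sum, map_mul, map_X, map_rename, hG]
  rw [h2]
  exact h1

/-- the constant coefficient of the composition -/
theorem const_comp [Algebra k ℂ] (π : Fin r → Fin (κ + 1)) (m : Fin r → Fin (n + κ) → ℕ)
    (hm : ∀ j, π j = 0 → m j ≠ 0)
    (a : Fin r → k) (H : Fin (κ + 1) → MvPolynomial (Fin (n + κ)) k)
    (hH : ∀ i, ∀ w ∈ (H i).support, NPT π m i w)
    (c : Fin κ → k) (p : Fin κ → MvPolynomial (Fin n) k)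
    (hp : ∀ i, constantCoeff (p i) = 0) :
    constantCoeff (aeval (Fin.append (X : Fin n → MvPolynomial (Fin n) k)
      fun i => C (c i)⁻¹ * p i) (tupK π m a H 0)) = 0 := by
  have h1 := const_spa (ex π m) (Pool.Agent.Y229.PG.ex_ne_zero' π m hm) a (hK H)
    (np_hK π m H hH)
  rw [spa_hK, map_add, map_sum, constantCoeff_rename, Finset.sum_eq_zero, add_zero] at h1
  · have h2 : ∀ P : MvPolynomial (Fin (n + κ)) k, constantCoeff (aeval (Fin.append
        (X : Fin n → MvPolynomial (Fin n) k) fun i => C (c i)⁻¹ * p i) P) =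
        constantCoeff P := by
      intro P
      induction P using MvPolynomial.induction_on with
      | C a => rw [algHom_C, algebraMap_eq, constantCoeff_C, constantCoeff_C]
      | add P Q hP hQ => rw [map_add, map_add, map_add, hP, hQ]
      | mul_X P j hP =>
        rw [map_mul, map_mul, map_mul, constantCoeff_X, mul_zero, aeval_X]
        refine Fin.addCases (fun i => ?_) (fun i => ?_) j
        · rw [Fin.append_left, constantCoeff_X, mul_zero]
        · rw [Fin.append_right, map_mul, hp, mul_zero, mul_zero]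
    rw [h2]
    exact h1
  · intro i _
    rw [map_mul, constantCoeff_X, zero_mul]

/-- **Compositions with generic coefficients, local `b`-functions at the origin.** -/
theorem comp_motL {k : Type} [Field k] [Algebra k ℂ] (hr : 0 < r) (hκ : 0 < κ)
    (π : Fin r → Fin (κ + 1)) (m : Fin r → Fin (n + κ) → ℕ)
    (hinj : ∀ j j', π j = π j' → m j = m j' → j = j') (hm : ∀ j, π j = 0 → m j ≠ 0)
    (H : Fin (κ + 1) → MvPolynomial (Fin (n + κ)) k)
    (hH : ∀ i, ∀ w ∈ (H i).support, NPT π m i w) (hC : HypCL (ex π m) (hK H)) :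
    ∃ g : MvPolynomial (Fin r) k, g ≠ 0 ∧ ∀ a : Fin r → k, eval a g ≠ 0 →
      ∀ (c : Fin κ → k) (p : Fin κ → MvPolynomial (Fin n) k), (∀ i, c i ≠ 0) →
      (∀ i, constantCoeff (p i) = 0) →
      (∀ i : Fin κ, tupK π m a H i.succ = C (c i) * X (Fin.natAdd n i) -
        rename (Fin.castAdd κ) (p i)) →
      (∀ i : Fin κ, coeff (Finsupp.single (Fin.natAdd n i) 1) (tupK π m a H 0) = 0) →
      ∀ f : MvPolynomial (Fin n) k,
      f = aeval (Fin.append X fun i => C (c i)⁻¹ * p i) (tupK π m a H 0) → f ≠ 0 →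
    ∃ S : Finset (ℤ × ℤ),
      (∀ p ∈ S, p.1 < 0 ∧ 0 < p.2 ∧
        ∀ b : Polynomial ℂ, IsLocalBFunction (map (algebraMap k ℂ) f) b →
          b.eval ((p.1 : ℂ) / p.2) = 0) ∧
      ∀ (K : Type) [Field K] [Algebra k K] (W : Set (Pt K (Fin n)))
        (E : Set (AlgebraicClosure K)), Constr W → Good E →
        zetaG (map (algebraMap k K) f) W E ∈ ratRing K S := by
  obtain ⟨g, hg, hgc⟩ := coreL hr (ex π m) (ex_inj π m hinj)
    (Pool.Agent.Y229.PG.ex_ne_zero' π m hm) (hK H) (np_hK π m H hH) hC
  refine ⟨g, hg, fun a ha c p hc hp hl hlin f hff hf0 => ?_⟩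
  obtain ⟨φ, hφ⟩ := graph_phiK π m a H c hc p hl
  rw [← hff] at hφ
  have hpos := fun u L hL hu => ray_posK π m a H hH c hc p hl (hff ▸ hf0) u L hL hu
  have hbec := becomes_comp π m a H c hc p hp hl hlin
  have hfz := const_comp π m hm a H hH c p hp
  rw [← hff] at hbec hfz
  obtain ⟨S, hS, hz⟩ := hgc a ha f hf0 hfz φ hφ hbec (fun u _ hg' h1 => by
    have h2 := hpos u (gord (ex π m) u) hg' fun j => gord_le _ _ j
    rw [h1] at h2
    have h3 : 1 * gord (ex π m) u ≤ κ * gord (ex π m) u := Nat.mul_le_mul_right _ hκ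
    omega)
  refine ⟨S, fun q hq => ⟨?_, (hS q hq).1, (hS q hq).2.2⟩, hz⟩
  rcases (hS q hq).2.1 with rfl | ⟨u, hu, hg', rfl⟩
  · norm_num
  · have h1 := hpos u (gord (ex π m) u) hg' fun j => gord_le _ _ j
    show -((∑ i, u i : ℕ) : ℤ) + κ * (gord (ex π m) u : ℤ) < 0
    have h2 : ((κ * gord (ex π m) u : ℕ) : ℤ) < ((∑ i, u i : ℕ) : ℤ) := by exact_mod_cast h1
    push_cast at h2 ⊢
    linarith

end Pool.Agent.X271.MG
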