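import Pool.Agent.X271.MotDefL
import Pool.Agent.X271.MotBr
import Pool.Agent.X271.MotCmpL

set_option autoImplicit false

/-! The theorems on motivic zeta functions and local `b`-functions, with the definitions of
`MotDef`. -/

namespace Pool.Agent.X271.MD

open MvPolynomial Pool.Agent.H628R4.TP Pool.Agent.TH216.HD
open Pool.Agent.W428.MOT (Pt Constr ratRing)
open Pool.Agent.W375.MG (zetaG Good)

variable {r n N κ : ℕ}

theorem hypCL_iff {R : Type} [CommRing R] (v : Fin r → Fin N → ℕ) (h : MvPolynomial (Fin N) R) :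
    Pool.Agent.X271.MG.HypCL v h ↔ HypCL v h := by
  refine forall_congr' fun a => forall_congr' fun _ => forall_congr' fun _ => ?_
  exact or_congr Iff.rfl (locC_iff v h _)

/-- stably generic polynomials -/
theorem stableL {k : Type} [Field k] [Algebra k ℂ] (hr : 0 < r)
    (v : Fin r → Fin (n + (κ + κ)) → ℕ) (hv : Function.Injective v) (hv0 : ∀ j, v j ≠ 0)
    (h : MvPolynomial (Fin (n + (κ + κ))) k) (hh : ∀ w ∈ h.support, InPoly v w)
    (hC : HypCL v h) :
    ∃ g : MvPolynomial (Fin r) k, g ≠ 0 ∧ ∀ c : Fin r → k, eval c g ≠ 0 →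
      ∀ f : MvPolynomial (Fin n) k, f ≠ 0 → constantCoeff f = 0 →
      ∀ φ : MvPolynomial (Fin (n + (κ + κ))) k ≃ₐ[k] MvPolynomial (Fin (n + (κ + κ))) k,
      (∀ i, constantCoeff (φ (X i)) = 0) →
      φ (stab f κ) = (∑ j, C (c j) * ∏ i, X i ^ v j i) + h →
      (∀ a : Fin (n + (κ + κ)) → ℕ, IsRay v a → 0 < ordA v a → ∑ i, a i ≠ ordA v a) →
    ∃ S : Finset (ℤ × ℤ),
      (∀ p ∈ S, 0 < p.2 ∧ ∀ b : Polynomial ℂ, IsLocalBFunction (map (algebraMap k ℂ) f) b →
          b.eval ((p.1 : ℂ) / p.2) = 0) ∧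
      ∀ (K : Type) [Field K] [Algebra k K] (W : Set (Pt K (Fin n)))
        (E : Set (AlgebraicClosure K)), Constr W → Good E →
        zetaG (map (algebraMap k K) f) W E ∈ ratRing K S := by
  obtain ⟨g, hg, hgc⟩ := Pool.Agent.X271.MG.coreL hr v hv hv0 h hh ((hypCL_iff v h).2 hC)
  refine ⟨g, hg, fun c hc f hf hf0 φ hφ0 hφ h1 => ?_⟩
  have hbec : Pool.Agent.Y229.PS.Becomes
      ((map (algebraMap k ℂ) f : MvPolynomial (Fin n) ℂ) : MvPowerSeries (Fin n) ℂ) κ
      (map (algebraMap k ℂ) (Pool.Agent.W425.ND.spa v c + h)) := by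
    obtain ⟨ψ, hψ⟩ := Pool.Agent.Y405.MS.bc k ℂ φ
    have h2 : ∀ i, constantCoeff (ψ (X i)) = 0 := by
      intro i
      have h3 := hψ (X i)
      rw [map_X] at h3
      rw [h3, constantCoeff_map, hφ0, map_zero]
    have h4 := Pool.Agent.X271.MG.becomes_of_aut (κ := κ) (map (algebraMap k ℂ) f) ψ h2
    have h5 : ψ (Pool.Agent.Y229.RE.stab (map (algebraMap k ℂ) f) κ) =
        map (algebraMap k ℂ) (Pool.Agent.W425.ND.spa v c + h) := by
      have e1 : Pool.Agent.Y229.RE.stab (map (algebraMap k ℂ) f) κ =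
          map (algebraMap k ℂ) (stab f κ) := by
        have := Pool.Agent.Y229.MS.map_stabK (algebraMap k ℂ) f κ
        exact this.symm
      rw [e1, hψ, hφ]
      rfl
    rw [h5] at h4
    exact h4
  obtain ⟨S, hS, hz⟩ := hgc c hc f hf hf0 φ hφ hbec h1
  exact ⟨S, fun p hp => ⟨(hS p hp).1, (hS p hp).2.2⟩, hz⟩

/-- compositions -/
theorem compsL {k : Type} [Field k] [Algebra k ℂ] (hr : 0 < r) (hκ : 0 < κ)
    (π : Fin r → Fin (κ + 1)) (m : Fin r → Fin (n + κ) → ℕ)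
    (hinj : ∀ j j', π j = π j' → m j = m j' → j = j') (hm : ∀ j, π j = 0 → m j ≠ 0)
    (H : Fin (κ + 1) → MvPolynomial (Fin (n + κ)) k)
    (hH : ∀ i, ∀ w ∈ (H i).support, InPolyG π m i w) (hC : HypCL (exps π m) (sumH H)) :
    ∃ g : MvPolynomial (Fin r) k, g ≠ 0 ∧ ∀ a : Fin r → k, eval a g ≠ 0 →
      ∀ (c : Fin κ → k) (p : Fin κ → MvPolynomial (Fin n) k), (∀ i, c i ≠ 0) →
      (∀ i, constantCoeff (p i) = 0) →
      (∀ i : Fin κ, tup π m a H i.succ = C (c i) * X (Fin.natAdd n i) -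
        rename (Fin.castAdd κ) (p i)) →
      (∀ i : Fin κ, coeff (Finsupp.single (Fin.natAdd n i) 1) (tup π m a H 0) = 0) →
      ∀ f : MvPolynomial (Fin n) k,
      f = aeval (Fin.append X fun i => C (c i)⁻¹ * p i) (tup π m a H 0) → f ≠ 0 →
    ∃ S : Finset (ℤ × ℤ),
      (∀ p ∈ S, p.1 < 0 ∧ 0 < p.2 ∧
        ∀ b : Polynomial ℂ, IsLocalBFunction (map (algebraMap k ℂ) f) b →
          b.eval ((p.1 : ℂ) / p.2) = 0) ∧
      ∀ (K : Type) [Field K] [Algebra k K] (W : Set (Pt K (Fin n)))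
        (E : Set (AlgebraicClosure K)), Constr W → Good E →
        zetaG (map (algebraMap k K) f) W E ∈ ratRing K S := by
  rw [← sumH_eq] at hC
  exact Pool.Agent.X271.MG.comp_motL hr hκ π m hinj hm H hH ((hypCL_iff _ _).2 hC)

theorem constr_zero {K : Type} [Field K] : Constr ({0} : Set (Pt K (Fin n))) := by
  have h1 := Pool.Agent.W425.MM.constr_pt (K := K) (0 : Fin n → K)
  have e : ({fun i => algebraMap K (AlgebraicClosure K) ((0 : Fin n → K) i)} :
      Set (Pt K (Fin n))) = {0} := by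
    congr 1
    funext i
    simp
  rwa [e] at h1

end Pool.Agent.X271.MD
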