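import Pool.Agent.X271.NdCore
import Pool.Agent.X271.MotBrL

set_option autoImplicit false
set_option linter.unusedVariables false

/-! Motivic zeta functions of stably nondegenerate polynomials and of nondegenerate compositions. -/

namespace Pool.Agent.X271.ND

open MvPolynomial Pool.Agent.H628R4.TP Pool.Agent.W425.MM
open Pool.Agent.W425.ND (spa Nondeg spa_ne_zero spa_const)
open Pool.Agent.W425.SG (UnitEq)
open Pool.Agent.TH216.HD
open Pool.Agent.W428.MOT (Pt Constr ratRing)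
open Pool.Agent.W375.MG (zetaG Good)
open Pool.Agent.Y229.MS
open Pool.Agent.Y229.PS (Becomes)
open Pool.Agent.Y229.PG (BecomesG becomes_global)
open Pool.Agent.X271.MG (exyz_inj exyz_ne loc_becomes becomes_of_aut map_spa' tupK hK spa_hK
  graph_phiK ray_posK becomes_comp const_comp)
open Pool.Agent.X271.MD (stab exps)
open Pool.Agent.W803.SM (gord_le)

variable {n κ r : ℕ} {k : Type} [Field k] [Algebra k ℂ]

theorem stab_one {M : ℕ} (G : MvPolynomial (Fin M) ℂ) :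
    Pool.Agent.Y229.RE.stab G 1 = addyz G := by
  unfold Pool.Agent.Y229.RE.stab addyz
  rw [Fin.sum_univ_one]
  rfl

/-- **Stably nondegenerate polynomials, global `b`-functions.** -/
theorem glob (hr : 0 < r)
    (v : Fin r → Fin (n + (κ + κ)) → ℕ) (hv : Function.Injective v) (hv0 : ∀ j, v j ≠ 0)
    (c : Fin r → k) (hc : ∀ j, c j ≠ 0)
    (hnd : Nondegenerate v (fun j => algebraMap k ℂ (c j))) (V : Finset (Fin r))
    (hV : Spans v V) (hC : HypCV False v V)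
    (f : MvPolynomial (Fin n) k) (hf : f.totalDegree ≠ 0)
    (φ : MvPolynomial (Fin (n + (κ + κ))) k ≃ₐ[k] MvPolynomial (Fin (n + (κ + κ))) k)
    (hφ : φ (stabK f κ) = spa v c) :
    ∃ S : Finset (ℤ × ℤ),
      (∀ p ∈ S, (p = (-1, 1) ∨ ∃ a : Fin (n + (κ + κ)) → ℕ, IsRay v a ∧
          0 < ordA v a ∧ p = (-((∑ i, a i : ℕ) : ℤ) + κ * (ordA v a : ℤ), (ordA v a : ℤ))) ∧
        ∀ b : Polynomial ℂ, IsBFunction (map (algebraMap k ℂ) f) b →
          ∃ i : ℤ, b.eval ((p.1 : ℂ) / p.2 - i) = 0) ∧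
      ∀ (K : Type) [Field K] [Algebra k K] (W : Set (Pt K (Fin n)))
        (E : Set (AlgebraicClosure K)), Constr W → Good E →
        zetaG (map (algebraMap k K) f) W E ∈ ratRing K S := by
  refine core hr False v hv c hc hnd V hV hC f φ hφ
    (fun b => IsBFunction (map (algebraMap k ℂ) f) b) fun b hb => ?_
  set fC : MvPolynomial (Fin n) ℂ := map (algebraMap k ℂ) f with hfC
  have hfC0 : fC.totalDegree ≠ 0 := by
    rw [hfC, totalDegree, support_map_of_injective _ (algebraMap k ℂ).injective]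
    exact hf
  have hnd' : Nondeg v (fun j => algebraMap k ℂ (c j)) := hnd
  have hnd2 : Nondeg (exyz v) (cyz fun j => algebraMap k ℂ (c j)) := nondeg_exyz hnd
  have hbec : BecomesG fC κ (spa v (fun j => algebraMap k ℂ (c j))) := by
    obtain ⟨ψ, hψ⟩ := Pool.Agent.Y405.MS.bc k ℂ φ
    refine ⟨ψ, ?_⟩
    have e1 : Pool.Agent.Y229.RE.stab fC κ = map (algebraMap k ℂ) (stabK f κ) := by
      rw [map_stabK]
      rfl
    rw [e1, hψ, hφ, map_spa']
  have hGC0 : (spa v (fun j => algebraMap k ℂ (c j))).totalDegree ≠ 0 := by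
    obtain ⟨ψ, hψ⟩ := hbec
    rw [← hψ]
    exact Pool.Agent.X271.MG.stab_ne hfC0 ψ
  obtain ⟨h5, h6⟩ := becomes_global hfC0 hb hbec
  refine ⟨h5, fun c' hc' => ⟨?_, ?_⟩⟩
  · exact (of_global v hr _ hv hv0 hnd' _ (h6 c' hc')).2
  · have h7 := (becomes_global (k := 1) hGC0 (h6 c' hc') ⟨AlgEquiv.refl, rfl⟩).2 _ rfl
    rw [AlgEquiv.coe_refl, id_eq, stab_one, ← spa_addyz] at h7
    exact (of_global (exyz v) (Nat.succ_pos r) _ (exyz_inj hv) (exyz_ne hv0) hnd2 _ h7).2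

/-- **Stably nondegenerate polynomials, local `b`-functions.** -/
theorem locl (hr : 0 < r)
    (v : Fin r → Fin (n + (κ + κ)) → ℕ) (hv : Function.Injective v) (hv0 : ∀ j, v j ≠ 0)
    (c : Fin r → k) (hc : ∀ j, c j ≠ 0)
    (hnd : Nondegenerate v (fun j => algebraMap k ℂ (c j))) (V : Finset (Fin r))
    (hV : Spans v V) (hC : HypCV True v V)
    (f : MvPolynomial (Fin n) k) (hf : f ≠ 0) (hf0 : constantCoeff f = 0)
    (φ : MvPolynomial (Fin (n + (κ + κ))) k ≃ₐ[k] MvPolynomial (Fin (n + (κ + κ))) k)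
    (hφ : φ (stabK f κ) = spa v c)
    (hbec : Becomes ((map (algebraMap k ℂ) f : MvPolynomial (Fin n) ℂ) :
      MvPowerSeries (Fin n) ℂ) κ (spa v (fun j => algebraMap k ℂ (c j)))) :
    ∃ S : Finset (ℤ × ℤ),
      (∀ p ∈ S, (p = (-1, 1) ∨ ∃ a : Fin (n + (κ + κ)) → ℕ, IsRay v a ∧
          0 < ordA v a ∧ p = (-((∑ i, a i : ℕ) : ℤ) + κ * (ordA v a : ℤ), (ordA v a : ℤ))) ∧
        ∀ b : Polynomial ℂ, IsLocalBFunction (map (algebraMap k ℂ) f) b →
          ∃ i : ℤ, b.eval ((p.1 : ℂ) / p.2 - i) = 0) ∧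
      ∀ (K : Type) [Field K] [Algebra k K] (W : Set (Pt K (Fin n)))
        (E : Set (AlgebraicClosure K)), Constr W → Good E →
        zetaG (map (algebraMap k K) f) W E ∈ ratRing K S := by
  refine core hr True v hv c hc hnd V hV hC f φ hφ
    (fun b => IsLocalBFunction (map (algebraMap k ℂ) f) b) fun b hb => ?_
  set fC : MvPolynomial (Fin n) ℂ := map (algebraMap k ℂ) f with hfC
  have hinj := map_injective (σ := Fin n) (algebraMap k ℂ) (algebraMap k ℂ).injective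
  have hfCn : fC ≠ 0 := fun h0 => hf (hinj (by rw [map_zero]; exact h0))
  have hfC0 : constantCoeff fC = 0 := by
    rw [hfC, constantCoeff_map, hf0, map_zero]
  have hnd' : Nondeg v (fun j => algebraMap k ℂ (c j)) := hnd
  have hnd2 : Nondeg (exyz v) (cyz fun j => algebraMap k ℂ (c j)) := nondeg_exyz hnd
  have : NeZero r := ⟨by omega⟩
  have hGCn : spa v (fun j => algebraMap k ℂ (c j)) ≠ 0 := spa_ne_zero hv _ hnd'
  have hGC0 : constantCoeff (spa v (fun j => algebraMap k ℂ (c j))) = 0 := spa_const v hv0 _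
  obtain ⟨h5, h6⟩ := loc_becomes hfCn hfC0 hb hbec
  refine ⟨h5, fun c' hc' => ⟨?_, ?_⟩⟩
  · exact (of_local v hr _ hv hv0 hnd' _ (h6 c' hc')).2
  · have h4 := becomes_of_aut (κ := 1) (spa v (fun j => algebraMap k ℂ (c j)))
      AlgEquiv.refl (fun i => by rw [AlgEquiv.coe_refl, id_eq, constantCoeff_X])
    have h7 := (loc_becomes (κ := 1) hGCn hGC0 (h6 c' hc') h4).2 _ rfl
    rw [AlgEquiv.coe_refl, id_eq, stab_one, ← spa_addyz] at h7
    exact (of_local (exyz v) (Nat.succ_pos r) _ (exyz_inj hv) (exyz_ne hv0) hnd2 _ h7).2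

omit [Algebra k ℂ] in
theorem grp_eq (π : Fin r → Fin (κ + 1)) (m : Fin r → Fin (n + κ) → ℕ) (a : Fin r → k)
    (i : Fin (κ + 1)) : tupK π m a (fun _ => 0) i = grp π m a i := by
  unfold tupK grp
  rw [add_zero]
  rfl

omit [Algebra k ℂ] in
theorem hK_zero : hK (fun _ => 0 : Fin (κ + 1) → MvPolynomial (Fin (n + κ)) k) = 0 := by
  unfold hK
  simp

/-- the negativity for the pairs `(-|a| + κ N_a, N_a)` -/
theorem neg_of {v : Fin r → Fin (n + (κ + κ)) → ℕ} {S : Finset (ℤ × ℤ)}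
    (hpos : ∀ a : Fin (n + (κ + κ)) → ℕ, IsRay v a → 0 < ordA v a → κ * ordA v a < ∑ i, a i)
    {p : ℤ × ℤ} (hp : p = (-1, 1) ∨ ∃ a : Fin (n + (κ + κ)) → ℕ, IsRay v a ∧
          0 < ordA v a ∧ p = (-((∑ i, a i : ℕ) : ℤ) + κ * (ordA v a : ℤ), (ordA v a : ℤ))) :
    p.1 < 0 ∧ 0 < p.2 := by
  rcases hp with rfl | ⟨u, hu, hg', rfl⟩
  · norm_num
  · refine ⟨?_, Int.natCast_pos.2 hg'⟩
    have h1 := hpos u hu hg'
    show -((∑ i, u i : ℕ) : ℤ) + κ * (ordA v u : ℤ) < 0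
    have h2 : ((κ * ordA v u : ℕ) : ℤ) < ((∑ i, u i : ℕ) : ℤ) := by exact_mod_cast h1
    push_cast at h2 ⊢
    linarith

/-- **Stably nondegenerate polynomials**, global `b`-functions -/
theorem stableG (hr : 0 < r)
    (v : Fin r → Fin (n + (κ + κ)) → ℕ) (hv : Function.Injective v) (hv0 : ∀ j, v j ≠ 0)
    (c : Fin r → k) (hc : ∀ j, c j ≠ 0)
    (hnd : Nondegenerate v (fun j => algebraMap k ℂ (c j))) (V : Finset (Fin r))
    (hV : Spans v V) (hC : HypCV False v V)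
    (f : MvPolynomial (Fin n) k) (hf : f.totalDegree ≠ 0)
    (φ : MvPolynomial (Fin (n + (κ + κ))) k ≃ₐ[k] MvPolynomial (Fin (n + (κ + κ))) k)
    (hφ : φ (stab f κ) = ∑ j, C (c j) * ∏ i, X i ^ v j i)
    (hpos : ∀ a : Fin (n + (κ + κ)) → ℕ, IsRay v a → 0 < ordA v a → κ * ordA v a < ∑ i, a i) :
    ∃ S : Finset (ℤ × ℤ),
      (∀ p ∈ S, p.1 < 0 ∧ 0 < p.2 ∧
        ∀ b : Polynomial ℂ, IsBFunction (map (algebraMap k ℂ) f) b →
          ∃ i : ℤ, b.eval ((p.1 : ℂ) / p.2 - i) = 0) ∧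
      ∀ (K : Type) [Field K] [Algebra k K] (W : Set (Pt K (Fin n)))
        (E : Set (AlgebraicClosure K)), Constr W → Good E →
        zetaG (map (algebraMap k K) f) W E ∈ ratRing K S := by
  obtain ⟨S, hS, hz⟩ := glob hr v hv hv0 c hc hnd V hV hC f hf φ hφ
  refine ⟨S, fun p hp => ?_, hz⟩
  obtain ⟨h1, h2⟩ := neg_of (S := S) hpos (hS p hp).1
  exact ⟨h1, h2, (hS p hp).2⟩

/-- **Stably nondegenerate polynomials**, local `b`-functions -/
theorem stableL (hr : 0 < r)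
    (v : Fin r → Fin (n + (κ + κ)) → ℕ) (hv : Function.Injective v) (hv0 : ∀ j, v j ≠ 0)
    (c : Fin r → k) (hc : ∀ j, c j ≠ 0)
    (hnd : Nondegenerate v (fun j => algebraMap k ℂ (c j))) (V : Finset (Fin r))
    (hV : Spans v V) (hC : HypCV True v V)
    (f : MvPolynomial (Fin n) k) (hf : f ≠ 0) (hf0 : constantCoeff f = 0)
    (φ : MvPolynomial (Fin (n + (κ + κ))) k ≃ₐ[k] MvPolynomial (Fin (n + (κ + κ))) k)
    (hφ0 : ∀ i, constantCoeff (φ (X i)) = 0)
    (hφ : φ (stab f κ) = ∑ j, C (c j) * ∏ i, X i ^ v j i)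
    (hpos : ∀ a : Fin (n + (κ + κ)) → ℕ, IsRay v a → 0 < ordA v a → κ * ordA v a < ∑ i, a i) :
    ∃ S : Finset (ℤ × ℤ),
      (∀ p ∈ S, p.1 < 0 ∧ 0 < p.2 ∧
        ∀ b : Polynomial ℂ, IsLocalBFunction (map (algebraMap k ℂ) f) b →
          ∃ i : ℤ, b.eval ((p.1 : ℂ) / p.2 - i) = 0) ∧
      ∀ (K : Type) [Field K] [Algebra k K] (W : Set (Pt K (Fin n)))
        (E : Set (AlgebraicClosure K)), Constr W → Good E →
        zetaG (map (algebraMap k K) f) W E ∈ ratRing K S := by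
  have hbec : Becomes ((map (algebraMap k ℂ) f : MvPolynomial (Fin n) ℂ) :
      MvPowerSeries (Fin n) ℂ) κ (spa v (fun j => algebraMap k ℂ (c j))) := by
    obtain ⟨ψ, hψ⟩ := Pool.Agent.Y405.MS.bc k ℂ φ
    have h2 : ∀ i, constantCoeff (ψ (X i)) = 0 := by
      intro i
      have h3 := hψ (X i)
      rw [map_X] at h3
      rw [h3, constantCoeff_map, hφ0, map_zero]
    have h4 := becomes_of_aut (κ := κ) (map (algebraMap k ℂ) f) ψ h2
    have h5 : ψ (Pool.Agent.Y229.RE.stab (map (algebraMap k ℂ) f) κ) =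
        spa v (fun j => algebraMap k ℂ (c j)) := by
      have e1 : Pool.Agent.Y229.RE.stab (map (algebraMap k ℂ) f) κ =
          map (algebraMap k ℂ) (stab f κ) := by
        have := map_stabK (algebraMap k ℂ) f κ
        exact this.symm
      rw [e1, hψ, hφ]
      exact map_spa' _ v c
    rw [h5] at h4
    exact h4
  obtain ⟨S, hS, hz⟩ := locl hr v hv hv0 c hc hnd V hV hC f hf hf0 φ hφ hbec
  refine ⟨S, fun p hp => ?_, hz⟩
  obtain ⟨h1, h2⟩ := neg_of (S := S) hpos (hS p hp).1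
  exact ⟨h1, h2, (hS p hp).2⟩

/-- the exponents -/
theorem exps_eq (π : Fin r → Fin (κ + 1)) (m : Fin r → Fin (n + κ) → ℕ) :
    Pool.Agent.Y229.RE.ex π m = exps π m := rfl

/-- **Nondegenerate compositions**, global `b`-functions -/
theorem compG (hr : 0 < r) (π : Fin r → Fin (κ + 1)) (m : Fin r → Fin (n + κ) → ℕ)
    (hinj : ∀ j j', π j = π j' → m j = m j' → j = j') (hm : ∀ j, π j = 0 → m j ≠ 0)
    (a : Fin r → k) (ha : ∀ j, a j ≠ 0)
    (hnd : Nondegenerate (exps π m) (fun j => algebraMap k ℂ (a j))) (V : Finset (Fin r))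
    (hV : Spans (exps π m) V) (hC : HypCV False (exps π m) V)
    (c : Fin κ → k) (p : Fin κ → MvPolynomial (Fin n) k) (hc : ∀ i, c i ≠ 0)
    (hl : ∀ i : Fin κ, grp π m a i.succ = C (c i) * X (Fin.natAdd n i) -
      rename (Fin.castAdd κ) (p i))
    (f : MvPolynomial (Fin n) k)
    (hff : f = aeval (Fin.append X fun i => C (c i)⁻¹ * p i) (grp π m a 0))
    (hf : f.totalDegree ≠ 0) :
    ∃ S : Finset (ℤ × ℤ),
      (∀ p ∈ S, p.1 < 0 ∧ 0 < p.2 ∧
        ∀ b : Polynomial ℂ, IsBFunction (map (algebraMap k ℂ) f) b →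
          ∃ i : ℤ, b.eval ((p.1 : ℂ) / p.2 - i) = 0) ∧
      ∀ (K : Type) [Field K] [Algebra k K] (W : Set (Pt K (Fin n)))
        (E : Set (AlgebraicClosure K)), Constr W → Good E →
        zetaG (map (algebraMap k K) f) W E ∈ ratRing K S := by
  have hf0 : f ≠ 0 := by
    rintro rfl
    exact hf totalDegree_zero
  have hl' : ∀ i : Fin κ, tupK π m a (fun _ => 0) i.succ = C (c i) * X (Fin.natAdd n i) -
      rename (Fin.castAdd κ) (p i) := fun i => by rw [grp_eq, hl]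
  rw [← grp_eq] at hff
  obtain ⟨φ, hφ⟩ := graph_phiK π m a (fun _ => 0) c hc p hl'
  rw [← hff, hK_zero, add_zero] at hφ
  have hpos := fun u L hL hu => ray_posK π m a (fun _ => 0) (fun i w hw => by
    simp at hw) c hc p hl' (hff ▸ hf0) u L hL hu
  refine stableG hr (exps π m) (Pool.Agent.Y229.RE.ex_inj π m hinj)
    (Pool.Agent.Y229.PG.ex_ne_zero' π m hm) a ha hnd V hV hC f hf φ hφ
    (fun u _ hg => hpos u (ordA (exps π m) u) hg fun j => gord_le _ _ j)

/-- **Nondegenerate compositions**, local `b`-functions -/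
theorem compL (hr : 0 < r) (π : Fin r → Fin (κ + 1)) (m : Fin r → Fin (n + κ) → ℕ)
    (hinj : ∀ j j', π j = π j' → m j = m j' → j = j') (hm : ∀ j, π j = 0 → m j ≠ 0)
    (a : Fin r → k) (ha : ∀ j, a j ≠ 0)
    (hnd : Nondegenerate (exps π m) (fun j => algebraMap k ℂ (a j))) (V : Finset (Fin r))
    (hV : Spans (exps π m) V) (hC : HypCV True (exps π m) V)
    (c : Fin κ → k) (p : Fin κ → MvPolynomial (Fin n) k) (hc : ∀ i, c i ≠ 0)
    (hp : ∀ i, constantCoeff (p i) = 0)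
    (hl : ∀ i : Fin κ, grp π m a i.succ = C (c i) * X (Fin.natAdd n i) -
      rename (Fin.castAdd κ) (p i))
    (hlin : ∀ i : Fin κ, coeff (Finsupp.single (Fin.natAdd n i) 1) (grp π m a 0) = 0)
    (f : MvPolynomial (Fin n) k)
    (hff : f = aeval (Fin.append X fun i => C (c i)⁻¹ * p i) (grp π m a 0))
    (hf : f ≠ 0) :
    ∃ S : Finset (ℤ × ℤ),
      (∀ p ∈ S, p.1 < 0 ∧ 0 < p.2 ∧
        ∀ b : Polynomial ℂ, IsLocalBFunction (map (algebraMap k ℂ) f) b →
          ∃ i : ℤ, b.eval ((p.1 : ℂ) / p.2 - i) = 0) ∧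
      ∀ (K : Type) [Field K] [Algebra k K] (W : Set (Pt K (Fin n)))
        (E : Set (AlgebraicClosure K)), Constr W → Good E →
        zetaG (map (algebraMap k K) f) W E ∈ ratRing K S := by
  have hl' : ∀ i : Fin κ, tupK π m a (fun _ => 0) i.succ = C (c i) * X (Fin.natAdd n i) -
      rename (Fin.castAdd κ) (p i) := fun i => by rw [grp_eq, hl]
  have hlin' : ∀ i : Fin κ, coeff (Finsupp.single (Fin.natAdd n i) 1)
      (tupK π m a (fun _ => 0) 0) = 0 := fun i => by rw [grp_eq, hlin]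
  rw [← grp_eq] at hff
  have hH : ∀ i, ∀ w ∈ ((fun _ => 0 : Fin (κ + 1) → MvPolynomial (Fin (n + κ)) k) i).support,
      Pool.Agent.Y229.PS.NPT π m i w := fun i w hw => by simp at hw
  obtain ⟨φ, hφ⟩ := graph_phiK π m a (fun _ => 0) c hc p hl'
  rw [← hff, hK_zero, add_zero] at hφ
  have hpos := fun u L hL hu => ray_posK π m a (fun _ => 0) hH c hc p hl' (hff ▸ hf) u L hL hu
  have hbec := becomes_comp π m a (fun _ => 0) c hc p hp hl' hlin'
  have hfz := const_comp π m hm a (fun _ => 0) hH c p hp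
  rw [← hff, hK_zero, add_zero, map_spa'] at hbec
  rw [← hff] at hfz
  obtain ⟨S, hS, hz⟩ := locl hr (exps π m) (Pool.Agent.Y229.RE.ex_inj π m hinj)
    (Pool.Agent.Y229.PG.ex_ne_zero' π m hm) a ha hnd V hV hC f hf hfz φ hφ hbec
  refine ⟨S, fun q hq => ?_, hz⟩
  obtain ⟨h1, h2⟩ := neg_of (S := S) (v := exps π m)
    (fun u _ hg => hpos u (ordA (exps π m) u) hg fun j => gord_le _ _ j) (hS q hq).1
  exact ⟨h1, h2, (hS q hq).2⟩

end Pool.Agent.X271.ND
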