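import Pool.Agent.X271.RefCub

set_option autoImplicit false

/-! Refined motivic monodromy properties: descent and reduction to cubics. -/

namespace Pool.Agent.X271.RC

open MvPolynomial Pool.Agent.H628R4.TP
open Pool.Agent.W428.MOT (Pt Constr ratRing Lu MK)
open Pool.Agent.W375.MG (zetaG Good ratRing_mono zetaW zetaW_eq zetaOrd zetaOrd_eq IsPole good_one
  good_units)
open Pool.Agent.Y229.MS
open Pool.Agent.X271.RD (fac cubic RedRoot stab)
open Pool.Agent.Y229.PG (BecomesG becomes_global)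

variable {k : Type} [Field k]

/-! ### The roots -/

theorem map_addyz {K : Type} [Field K] (g : k →+* K) {n : ℕ} (f : MvPolynomial (Fin n) k) :
    map g (addyz f) = addyz (map g f) := by
  unfold addyz
  simp only [map_add, map_mul, map_X, map_rename]

section roots
variable [Algebra k ℂ]

theorem deg_map {n : ℕ} {f : MvPolynomial (Fin n) k} (hf : f.totalDegree ≠ 0) :
    (map (algebraMap k ℂ) f).totalDegree ≠ 0 := by
  rw [totalDegree, support_map_of_injective _ (algebraMap k ℂ).injective]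
  exact hf

theorem redRoot_addyz {n : ℕ} {f : MvPolynomial (Fin n) k} (hf : f.totalDegree ≠ 0) {s : ℂ}
    (h : RedRoot (addyz f) s) : RedRoot f (s + 1) := by
  intro c hc
  have h1 := (becomes_global (k := 1) (deg_map hf) hc ⟨AlgEquiv.refl, rfl⟩).2 _ rfl
  have h2 : (AlgEquiv.refl (R := ℂ) (Pool.Agent.Y229.RE.stab (map (algebraMap k ℂ) f) 1)) =
      map (algebraMap k ℂ) (addyz f) := by
    rw [map_addyz]
    show Pool.Agent.Y229.RE.stab _ 1 = _
    unfold Pool.Agent.Y229.RE.stab addyz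
    rw [Fin.sum_univ_one]
    rfl
  rw [h2] at h1
  have h3 := h _ h1
  rw [Polynomial.eval_comp] at h3
  simpa using h3

theorem redRoot_iso {a b : ℕ} (Φ : MvPolynomial (Fin a) k ≃ₐ[k] MvPolynomial (Fin b) k)
    {g : MvPolynomial (Fin a) k} {s : ℂ} (h : RedRoot (Φ g) s) : RedRoot g s := by
  intro c hc
  obtain ⟨ψ, hψ⟩ := Pool.Agent.Y405.MS.bc k ℂ Φ
  refine h c ?_
  rw [← hψ]
  exact Pool.Agent.W206.CU.isBFunction_iso ψ hc

/-- roots of the reduced polynomial and roots -/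
theorem root_of_red {n : ℕ} {f : MvPolynomial (Fin n) k} (hf : f.totalDegree ≠ 0)
    {b : Polynomial ℂ} (hb : IsBFunction (map (algebraMap k ℂ) f) b) :
    b.eval (-1) = 0 ∧ ∀ s : ℂ, RedRoot f s → b.eval s = 0 := by
  have h1 := (becomes_global (k := 0) (deg_map hf) hb ⟨AlgEquiv.refl, rfl⟩).1
  refine ⟨h1, fun s hs => ?_⟩
  obtain ⟨c, hc⟩ : (Polynomial.X + 1 : Polynomial ℂ) ∣ b := by
    have := Polynomial.dvd_iff_isRoot.2 h1
    simpa using this
  rw [hc, Polynomial.eval_mul, hs c (hc ▸ hb), mul_zero]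

end roots

/-! ### The zeta functions -/

theorem zdesc {K : Type} [Field K] [CharZero K] {n : ℕ} (f : MvPolynomial (Fin n) K)
    {W : Set (Pt K (Fin n))} (hW : Constr W) {E : Set (AlgebraicClosure K)} (hE : CE E)
    (S1 S2 : Set (ℤ × ℤ)) (hS1 : ∀ p ∈ S1, 0 < p.2) (hS2 : ∀ p ∈ S2, 0 < p.2)
    (h1 : fac K * zetaG (addyz f) (Wyz W) E ∈ ratRing K S1)
    (h2 : fac K * zetaG (addyz (addyz f)) (Wyz (Wyz W)) E ∈ ratRing K S2) :
    fac K * zetaG f W E ∈ ratRing K (shn 1 S1 ∪ shn 2 S2) :=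
  descend' f hW hE 1 S1 S2 hS1 hS2 h1 h2

theorem wyz_univ {K : Type} [Field K] {n : ℕ} :
    Wyz (Set.univ : Set (Pt K (Fin n))) = Set.univ := by
  ext w
  simp [Wyz]

theorem ziso {K : Type} [Field K] [CharZero K] [Algebra k K] {a b : ℕ} (hab : a = b)
    (Φ : MvPolynomial (Fin a) k ≃ₐ[k] MvPolynomial (Fin b) k) (g : MvPolynomial (Fin a) k)
    (A : Prop) {E : Set (AlgebraicClosure K)} (hE : CE E) (S : Set (ℤ × ℤ))
    (h : ∀ W : Set (Pt K (Fin b)), Constr W → (A ∨ W = Set.univ) →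
      fac K * zetaG (map (algebraMap k K) (Φ g)) W E ∈ ratRing K S)
    (W : Set (Pt K (Fin a))) (hW : Constr W) (hA : A ∨ W = Set.univ) :
    fac K * zetaG (map (algebraMap k K) g) W E ∈ ratRing K S := by
  obtain ⟨ψ, hψ⟩ := Pool.Agent.Y405.MS.bc k K Φ
  have h1 := h {w | (fun i => aeval w (ψ (X i))) ∈ W} (constr_pull ψ hW) (by
    rcases hA with hA | rfl
    · exact Or.inl hA
    · exact Or.inr (by ext w; simp))
  rwa [← hψ, zeta_iso Pool.Agent.Z864.MS.three hab ψ _ hW hE] at h1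

/-- the class of the pairs `(W, E)` for one field `K` -/
theorem zstep {K : Type} [Field K] [CharZero K] [Algebra k K] {n : ℕ}
    (f : MvPolynomial (Fin n) k) (A : Prop) {E : Set (AlgebraicClosure K)} (hE : CE E)
    (S1 S2 : Set (ℤ × ℤ)) (hS1 : ∀ p ∈ S1, 0 < p.2) (hS2 : ∀ p ∈ S2, 0 < p.2)
    (h1 : ∀ W, Constr W → (A ∨ W = Set.univ) →
      fac K * zetaG (map (algebraMap k K) (addyz f)) W E ∈ ratRing K S1)
    (h2 : ∀ W, Constr W → (A ∨ W = Set.univ) →
      fac K * zetaG (map (algebraMap k K) (addyz (addyz f))) W E ∈ ratRing K S2)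
    (W : Set (Pt K (Fin n))) (hW : Constr W) (hA : A ∨ W = Set.univ) :
    fac K * zetaG (map (algebraMap k K) f) W E ∈ ratRing K (shn 1 S1 ∪ shn 2 S2) := by
  have hA1 : A ∨ Wyz W = Set.univ := by
    rcases hA with hA | rfl
    · exact Or.inl hA
    · exact Or.inr wyz_univ
  have hA2 : A ∨ Wyz (Wyz W) = Set.univ := by
    rcases hA1 with hA | hA
    · exact Or.inl hA
    · exact Or.inr (by rw [hA]; exact wyz_univ)
  refine zdesc _ hW hE S1 S2 hS1 hS2 ?_ ?_
  · rw [← map_addyz]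
    exact h1 _ (constr_Wyz hW) hA1
  · rw [← map_addyz, ← map_addyz]
    exact h2 _ (constr_Wyz (constr_Wyz hW)) hA2

/-! ### Version with finite sets -/

/-- the refined property; `𝒦` selects the fields and the conditions on the leading coefficients,
`A` allows all origins -/
def Ref [Algebra k ℂ] (A : Prop)
    (𝒦 : ∀ (K : Type) [Field K] [Algebra k K], Set (AlgebraicClosure K) → Prop) (n : ℕ)
    (f : MvPolynomial (Fin n) k) : Prop :=
  ∃ S : Finset (ℤ × ℤ), (∀ p ∈ S, 0 < p.2 ∧ RedRoot f ((p.1 : ℂ) / p.2)) ∧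
    ∀ (K : Type) [Field K] [Algebra k K] (E : Set (AlgebraicClosure K)), 𝒦 K E →
      ∀ W : Set (Pt K (Fin n)), Constr W → (A ∨ W = Set.univ) →
        fac K * zetaG (map (algebraMap k K) f) W E ∈ ratRing K S

theorem mem_shn {κ : ℕ} {S : Finset (ℤ × ℤ)} {p : ℤ × ℤ} (hp : p ∈ shn κ (S : Set (ℤ × ℤ))) :
    p ∈ S.image (fun q : ℤ × ℤ => (q.1 + (κ : ℤ) * q.2, q.2)) := by
  obtain ⟨q, hq, rfl⟩ := hp
  exact Finset.mem_image_of_mem (fun q : ℤ × ℤ => (q.1 + (κ : ℤ) * q.2, q.2)) hq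

theorem div_shift {a b : ℤ} (hb : 0 < b) (κ : ℕ) :
    ((a + (κ : ℤ) * b : ℤ) : ℂ) / (b : ℂ) = (a : ℂ) / b + κ := by
  have h1 : (b : ℂ) ≠ 0 := by exact_mod_cast hb.ne'
  push_cast
  field_simp

theorem ref_iso [Algebra k ℂ] {A : Prop}
    {𝒦 : ∀ (K : Type) [Field K] [Algebra k K], Set (AlgebraicClosure K) → Prop}
    (h𝒦 : ∀ (K : Type) [Field K] [Algebra k K] (E : Set (AlgebraicClosure K)), 𝒦 K E → CE E)
    {a b : ℕ} (hab : a = b) (Φ : MvPolynomial (Fin a) k ≃ₐ[k] MvPolynomial (Fin b) k)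
    {g : MvPolynomial (Fin a) k} (h : Ref A 𝒦 b (Φ g)) : Ref A 𝒦 a g := by
  have hkc : CharZero k := RingHom.charZero (algebraMap k ℂ)
  obtain ⟨S, hS, hz⟩ := h
  refine ⟨S, fun p hp => ⟨(hS p hp).1, redRoot_iso Φ (hS p hp).2⟩, fun K _ _ E hE W hW hA => ?_⟩
  have hK : CharZero K := charZero_of_injective_algebraMap (algebraMap k K).injective
  exact ziso hab Φ g A (h𝒦 K E hE) S (hz K E hE) W hW hA

theorem ref_desc [Algebra k ℂ] {A : Prop}
    {𝒦 : ∀ (K : Type) [Field K] [Algebra k K], Set (AlgebraicClosure K) → Prop}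
    (h𝒦 : ∀ (K : Type) [Field K] [Algebra k K] (E : Set (AlgebraicClosure K)), 𝒦 K E → CE E)
    {n : ℕ} {f : MvPolynomial (Fin n) k} (hf : f.totalDegree ≠ 0) (h1 : Ref A 𝒦 _ (addyz f))
    (h2 : Ref A 𝒦 _ (addyz (addyz f))) : Ref A 𝒦 n f := by
  classical
  have hkc : CharZero k := RingHom.charZero (algebraMap k ℂ)
  obtain ⟨S1, hS1, hz1⟩ := h1
  obtain ⟨S2, hS2, hz2⟩ := h2
  refine ⟨S1.image (fun q : ℤ × ℤ => (q.1 + ((1 : ℕ) : ℤ) * q.2, q.2)) ∪
    S2.image (fun q : ℤ × ℤ => (q.1 + ((2 : ℕ) : ℤ) * q.2, q.2)), fun p hp => ?_,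
    fun K _ _ E hE W hW hA => ?_⟩
  · rcases Finset.mem_union.1 hp with hp | hp
    · obtain ⟨q, hq, rfl⟩ := Finset.mem_image.1 hp
      refine ⟨(hS1 q hq).1, ?_⟩
      rw [div_shift (hS1 q hq).1, Nat.cast_one]
      exact redRoot_addyz hf (hS1 q hq).2
    · obtain ⟨q, hq, rfl⟩ := Finset.mem_image.1 hp
      refine ⟨(hS2 q hq).1, ?_⟩
      rw [div_shift (hS2 q hq).1, show (((2 : ℕ) : ℂ)) = 1 + 1 by norm_num, ← add_assoc]
      exact redRoot_addyz hf (redRoot_addyz (addyz_deg f) (hS2 q hq).2)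
  · have hK : CharZero K := charZero_of_injective_algebraMap (algebraMap k K).injective
    refine ratRing_mono ?_ (zstep f A (h𝒦 K E hE) S1 S2 (fun p hp => (hS1 p hp).1)
      (fun p hp => (hS2 p hp).1) (hz1 K E hE) (hz2 K E hE) W hW hA)
    rintro p (hp | hp)
    · exact Finset.mem_coe.2 (Finset.mem_union_left _ (mem_shn hp))
    · exact Finset.mem_coe.2 (Finset.mem_union_right _ (mem_shn hp))

theorem cubic_deg {n l : ℕ} (q : Fin l → MvPolynomial (Fin (n + 1)) k) :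
    (cubic q).totalDegree ≠ 0 := by
  intro h0
  have h1 := totalDegree_eq_zero_iff_eq_C.1 h0
  have h2 := congrArg (aeval (Fin.append (fun _ => (Polynomial.X : Polynomial k)) fun _ => 0)) h1
  unfold cubic at h2
  rw [map_add, map_sum, aeval_X, Fin.append_left, Finset.sum_eq_zero] at h2
  · rw [add_zero, ← algebraMap_eq, AlgHom.commutes] at h2
    exact Polynomial.X_ne_C _ h2
  · intro j _
    rw [map_mul, aeval_X, Fin.append_right, zero_mul]

/-- **Reduction to cubics**, version with finite sets -/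
theorem ref_cubic [Algebra k ℂ] {A : Prop}
    {𝒦 : ∀ (K : Type) [Field K] [Algebra k K], Set (AlgebraicClosure K) → Prop}
    (h𝒦 : ∀ (K : Type) [Field K] [Algebra k K] (E : Set (AlgebraicClosure K)), 𝒦 K E → CE E) :
    (∀ (n : ℕ) (f : MvPolynomial (Fin n) k), f.totalDegree ≠ 0 → Ref A 𝒦 n f) ↔
    ∀ (n l : ℕ) (q : Fin l → MvPolynomial (Fin (n + 1)) k), (∀ j, (q j).totalDegree ≤ 2) →
      Ref A 𝒦 _ (cubic q) := by
  refine ⟨fun h n l q _ => h _ _ (cubic_deg q), fun h n f hf => ?_⟩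
  exact principle (Ref A 𝒦) (fun a b Φ hab g hg => ref_iso h𝒦 hab Φ hg)
    (fun n f hf h1 h2 => ref_desc h𝒦 hf h1 h2) h f hf

/-! ### Version with finite sets, one field -/

/-- the refined property for the field `k` and one condition on the leading coefficients -/
def RefF [Algebra k ℂ] (A : Prop) (E : Set (AlgebraicClosure k)) (n : ℕ)
    (f : MvPolynomial (Fin n) k) : Prop :=
  ∃ S : Finset (ℤ × ℤ), (∀ p ∈ S, 0 < p.2 ∧ RedRoot f ((p.1 : ℂ) / p.2)) ∧
    ∀ W : Set (Pt k (Fin n)), Constr W → (A ∨ W = Set.univ) →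
      fac k * zetaG (map (algebraMap k k) f) W E ∈ ratRing k S

theorem refF_iso [Algebra k ℂ] {A : Prop} {E : Set (AlgebraicClosure k)} (hE : CE E)
    {a b : ℕ} (hab : a = b) (Φ : MvPolynomial (Fin a) k ≃ₐ[k] MvPolynomial (Fin b) k)
    {g : MvPolynomial (Fin a) k} (h : RefF A E b (Φ g)) : RefF A E a g := by
  have hkc : CharZero k := RingHom.charZero (algebraMap k ℂ)
  obtain ⟨S, hS, hz⟩ := h
  exact ⟨S, fun p hp => ⟨(hS p hp).1, redRoot_iso Φ (hS p hp).2⟩, fun W hW hA =>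
    ziso hab Φ g A hE S hz W hW hA⟩

theorem refF_desc [Algebra k ℂ] {A : Prop} {E : Set (AlgebraicClosure k)} (hE : CE E)
    {n : ℕ} {f : MvPolynomial (Fin n) k} (hf : f.totalDegree ≠ 0) (h1 : RefF A E _ (addyz f))
    (h2 : RefF A E _ (addyz (addyz f))) : RefF A E n f := by
  classical
  have hkc : CharZero k := RingHom.charZero (algebraMap k ℂ)
  obtain ⟨S1, hS1, hz1⟩ := h1
  obtain ⟨S2, hS2, hz2⟩ := h2
  refine ⟨S1.image (fun q : ℤ × ℤ => (q.1 + ((1 : ℕ) : ℤ) * q.2, q.2)) ∪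
    S2.image (fun q : ℤ × ℤ => (q.1 + ((2 : ℕ) : ℤ) * q.2, q.2)), fun p hp => ?_,
    fun W hW hA => ?_⟩
  · rcases Finset.mem_union.1 hp with hp | hp
    · obtain ⟨q, hq, rfl⟩ := Finset.mem_image.1 hp
      refine ⟨(hS1 q hq).1, ?_⟩
      rw [div_shift (hS1 q hq).1, Nat.cast_one]
      exact redRoot_addyz hf (hS1 q hq).2
    · obtain ⟨q, hq, rfl⟩ := Finset.mem_image.1 hp
      refine ⟨(hS2 q hq).1, ?_⟩
      rw [div_shift (hS2 q hq).1, show (((2 : ℕ) : ℂ)) = 1 + 1 by norm_num, ← add_assoc]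
      exact redRoot_addyz hf (redRoot_addyz (addyz_deg f) (hS2 q hq).2)
  · refine ratRing_mono ?_ (zstep f A hE S1 S2 (fun p hp => (hS1 p hp).1)
      (fun p hp => (hS2 p hp).1) hz1 hz2 W hW hA)
    rintro p (hp | hp)
    · exact Finset.mem_coe.2 (Finset.mem_union_left _ (mem_shn hp))
    · exact Finset.mem_coe.2 (Finset.mem_union_right _ (mem_shn hp))

/-- **Reduction to cubics**, version for one field -/
theorem refF_cubic [Algebra k ℂ] {A : Prop} {E : Set (AlgebraicClosure k)} (hE : CE E) :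
    (∀ (n : ℕ) (f : MvPolynomial (Fin n) k), f.totalDegree ≠ 0 → RefF A E n f) ↔
    ∀ (n l : ℕ) (q : Fin l → MvPolynomial (Fin (n + 1)) k), (∀ j, (q j).totalDegree ≤ 2) →
      RefF A E _ (cubic q) := by
  refine ⟨fun h n l q _ => h _ _ (cubic_deg q), fun h n f hf => ?_⟩
  exact principle (RefF A E) (fun a b Φ hab g hg => refF_iso hE hab Φ hg)
    (fun n f hf h1 h2 => refF_desc hE hf h1 h2) h f hf

/-! ### Version with poles -/

/-- the refined property with poles -/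
def RefP [Algebra k ℂ] (A : Prop) (n : ℕ) (f : MvPolynomial (Fin n) k) : Prop :=
  ∀ W : Set (Pt k (Fin n)), Constr W → (A ∨ W = Set.univ) → ∀ s₀ : ℚ,
    IsPole (fac k * zetaOrd f W) s₀ → RedRoot f (s₀ : ℂ)

theorem unit_mul_mem {K : Type} [Field K] (u : (MK K)ˣ) (Z : PowerSeries (MK K))
    (S : Set (ℤ × ℤ)) : PowerSeries.C (u : MK K) * Z ∈ ratRing K S ↔ Z ∈ ratRing K S := by
  refine ⟨fun h => ?_, fun h => (ratRing K S).mul_mem (Pool.Agent.W63.MTFin.C_mem _ _) h⟩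
  have h1 := (ratRing K S).mul_mem (Pool.Agent.W63.MTFin.C_mem S ((u⁻¹ : (MK K)ˣ) : MK K)) h
  rwa [← mul_assoc, ← map_mul, Units.inv_mul, map_one, one_mul] at h1

theorem pole_iff {K : Type} [Field K] {n : ℕ} (f : MvPolynomial (Fin n) K)
    (W : Set (Pt K (Fin n))) (S : Set (ℤ × ℤ)) :
    fac K * zetaOrd f W ∈ ratRing K S ↔ fac K * zetaG f W {a | a ≠ 0} ∈ ratRing K S := by
  rw [zetaOrd_eq, mul_left_comm]
  exact unit_mul_mem _ _ _

theorem refP_iff [Algebra k ℂ] {A : Prop} {n : ℕ} {f : MvPolynomial (Fin n) k} :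
    RefP A n f ↔ ∀ s₀ : ℚ, ¬ RedRoot f (s₀ : ℂ) →
      ∀ W : Set (Pt k (Fin n)), Constr W → (A ∨ W = Set.univ) →
        fac k * zetaG (map (algebraMap k k) f) W {a | a ≠ 0} ∈
          ratRing k {p | 0 < p.2 ∧ ((p.1 : ℚ) / p.2) ≠ s₀} := by
  have hid : map (algebraMap k k) f = f := by
    rw [Algebra.algebraMap_self, MvPolynomial.map_id]
  rw [hid]
  constructor
  · intro h s₀ hs W hW hA
    rw [← pole_iff]
    by_contra hcon
    exact hs (h W hW hA s₀ hcon)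
  · intro h W hW hA s₀ hs
    by_contra hcon
    exact hs ((pole_iff f W _).2 (h s₀ hcon W hW hA))

theorem refP_iso [Algebra k ℂ] {A : Prop} {a b : ℕ} (hab : a = b)
    (Φ : MvPolynomial (Fin a) k ≃ₐ[k] MvPolynomial (Fin b) k)
    {g : MvPolynomial (Fin a) k} (h : RefP A b (Φ g)) : RefP A a g := by
  have hkc : CharZero k := RingHom.charZero (algebraMap k ℂ)
  rw [refP_iff] at h ⊢
  intro s₀ hs W hW hA
  exact ziso hab Φ g A (ce_good good_units) _ (h s₀ fun h1 => hs (redRoot_iso Φ h1)) W hW hA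

theorem refP_desc [Algebra k ℂ] {A : Prop} {n : ℕ} {f : MvPolynomial (Fin n) k}
    (hf : f.totalDegree ≠ 0) (h1 : RefP A _ (addyz f)) (h2 : RefP A _ (addyz (addyz f))) :
    RefP A n f := by
  have hkc : CharZero k := RingHom.charZero (algebraMap k ℂ)
  rw [refP_iff] at h1 h2 ⊢
  intro s₀ hs W hW hA
  have h3 := h1 (s₀ - 1) (fun h => hs (by
    have := redRoot_addyz hf h
    push_cast at this
    rwa [sub_add_cancel] at this))
  have h4 := h2 (s₀ - 2) (fun h => hs (by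
    have := redRoot_addyz hf (redRoot_addyz (addyz_deg f) h)
    push_cast at this
    rw [show ((s₀ : ℂ) - 2 + 1 + 1) = s₀ by ring] at this
    exact this))
  refine ratRing_mono ?_ (zstep f A (ce_good good_units) _ _ (fun p hp => hp.1)
    (fun p hp => hp.1) h3 h4 W hW hA)
  rintro p (⟨q, ⟨hq, hq'⟩, rfl⟩ | ⟨q, ⟨hq, hq'⟩, rfl⟩)
  · refine ⟨hq, fun h => hq' ?_⟩
    have h5 : (q.2 : ℚ) ≠ 0 := by exact_mod_cast hq.ne'
    rw [← h]
    push_cast
    field_simp
    ring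
  · refine ⟨hq, fun h => hq' ?_⟩
    have h5 : (q.2 : ℚ) ≠ 0 := by exact_mod_cast hq.ne'
    rw [← h]
    push_cast
    field_simp
    ring

/-- **Reduction to cubics**, version with poles -/
theorem refP_cubic [Algebra k ℂ] {A : Prop} :
    (∀ (n : ℕ) (f : MvPolynomial (Fin n) k), f.totalDegree ≠ 0 → RefP A n f) ↔
    ∀ (n l : ℕ) (q : Fin l → MvPolynomial (Fin (n + 1)) k), (∀ j, (q j).totalDegree ≤ 2) →
      RefP A _ (cubic q) := by
  refine ⟨fun h n l q _ => h _ _ (cubic_deg q), fun h n f hf => ?_⟩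
  exact principle (RefP A) (fun a b Φ hab g hg => refP_iso hab Φ hg)
    (fun n f hf h1 h2 => refP_desc hf h1 h2) h f hf

/-! ### The transfer -/

theorem stab_eq {n : ℕ} (f : MvPolynomial (Fin n) k) (κ : ℕ) : stabK f κ = stab f κ := rfl

/-- the transfer for a property -/
theorem transfer (Q : ∀ n, MvPolynomial (Fin n) k → Prop)
    (hiso : ∀ (a b : ℕ) (Φ : MvPolynomial (Fin a) k ≃ₐ[k] MvPolynomial (Fin b) k), a = b →
      ∀ g, Q b (Φ g) → Q a g)
    (hdesc : ∀ (n : ℕ) (f : MvPolynomial (Fin n) k), f.totalDegree ≠ 0 → Q _ (addyz f) →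
      Q _ (addyz (addyz f)) → Q n f)
    {n : ℕ} (f : MvPolynomial (Fin n) k) (hf : f.totalDegree ≠ 0) (κ : ℕ)
    (Φ1 : MvPolynomial (Fin (n + (κ + κ))) k ≃ₐ[k] MvPolynomial (Fin (n + (κ + κ))) k)
    (Φ2 : MvPolynomial (Fin (n + (κ + 1 + (κ + 1)))) k ≃ₐ[k]
      MvPolynomial (Fin (n + (κ + 1 + (κ + 1)))) k)
    (h1 : Q _ (Φ1 (stab f κ))) (h2 : Q _ (Φ2 (stab f (κ + 1)))) : Q n f := by
  have key : ∀ m : ℕ, Q _ (itr f m) → Q _ (itr f (m + 1)) → Q n f := by
    intro m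
    induction m with
    | zero => exact fun h _ => h
    | succ m ih => exact fun h1 h2 => ih (hdesc _ (itr f m) (itr_deg hf m) h1 h2) h1
  have h3 : ∀ κ : ℕ, Q _ (stab f κ) → Q _ (itr f κ) := by
    intro κ h
    obtain ⟨ψ, hψ⟩ := Pool.Agent.Y405.MS.itr k f κ
    exact hiso _ _ ψ (by ring) _ (by rw [hψ]; exact h)
  exact key κ (h3 _ (hiso _ _ Φ1 rfl _ h1)) (h3 _ (hiso _ _ Φ2 rfl _ h2))

end Pool.Agent.X271.RC
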