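import Pool.Agent.X271.IdGen
import Pool.Agent.X271.MotBrL
import Pool.Agent.TH216.ID.Id3

set_option autoImplicit false
set_option linter.unusedVariables false

/-! Ideals `(f_i)` such that `∑ y_i f_i` is stably generic: from `∑ y_i f_i` to the ideal. -/

namespace Pool.Agent.X271.MG

open MvPolynomial Pool.Agent.H628R4.TP Pool.Agent.TH216.ID
open Pool.Agent.W749.JI (IsLocalBIdeal zetaI gpol sBtoG)
open Pool.Agent.W428.MOT (Pt Constr ratRing Lu MK)
open Pool.Agent.W375.MG (zetaG Good good_one)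
open Pool.Agent.Y229.MS (fst')

theorem local_of_unitB {n : ℕ} {f : MvPolynomial (Fin n) ℂ} {b : Polynomial ℂ}
    (h : Pool.Agent.W749.NM.IsUnitB f b) : IsLocalBFunction f b := by
  classical
  obtain ⟨a, P, ha, hP⟩ := h
  have ha' : MvPowerSeries.constantCoeff (a : MvPowerSeries (Fin n) ℂ) ≠ 0 := by
    rw [← MvPowerSeries.coeff_zero_eq_constantCoeff_apply, MvPolynomial.coeff_coe]
    show constantCoeff a ≠ 0
    rw [ha]
    exact one_ne_zero
  set e := P.support.equivFin with he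
  refine ⟨P.support.card, fun i => (e.symm i : ℕ), fun _ => (a : MvPowerSeries (Fin n) ℂ)⁻¹,
    fun i => P (e.symm i), fun s => ?_⟩
  have h1 := congrArg (fun p : MvPolynomial (Fin n) ℂ => (a : MvPowerSeries (Fin n) ℂ)⁻¹ *
    (p : MvPowerSeries (Fin n) ℂ)) (hP s)
  beta_reduce at h1
  have e1 : (C (b.eval (s : ℂ)) * a * f ^ s : MvPolynomial (Fin n) ℂ) =
      a * (C (b.eval (s : ℂ)) * f ^ s) := by ring
  rw [e1, MvPolynomial.coe_mul, ← mul_assoc, MvPowerSeries.inv_mul_cancel _ ha', one_mul,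
    MvPolynomial.coe_mul, MvPolynomial.coe_C] at h1
  have h2 : ((P.sum fun m Q => ((s : ℂ) ^ m) • (Q : Module.End ℂ (MvPolynomial (Fin n) ℂ))
      (f ^ (s + 1)) : MvPolynomial (Fin n) ℂ) : MvPowerSeries (Fin n) ℂ) =
      ∑ m ∈ P.support, ((((s : ℂ) ^ m) • (P m : Module.End ℂ (MvPolynomial (Fin n) ℂ))
      (f ^ (s + 1)) : MvPolynomial (Fin n) ℂ) : MvPowerSeries (Fin n) ℂ) := by
    rw [Finsupp.sum, ← MvPolynomial.coeToMvPowerSeries.ringHom_apply, map_sum]
    rfl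
  rw [h1, h2, Finset.mul_sum, ← Finset.sum_coe_sort P.support, ← Equiv.sum_comp e.symm]
  refine Finset.sum_congr rfl fun i _ => ?_
  rw [smul_eq_C_mul, MvPolynomial.coe_mul, MvPolynomial.coe_C]
  ring

variable {n P : ℕ}

theorem gp_map {k K : Type} [Field k] [Field K] (e : k →+* K)
    (f : Fin P → MvPolynomial (Fin n) k) : gp (fun i => map e (f i)) = map e (gp f) := by
  unfold gp
  rw [map_sum]
  refine Finset.sum_congr rfl fun i _ => ?_
  rw [map_mul, MvPolynomial.map_X, MvPolynomial.map_rename]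

theorem gp_const {k : Type} [Field k] (f : Fin P → MvPolynomial (Fin n) k) :
    constantCoeff (gp f) = 0 := by
  unfold gp
  rw [map_sum]
  refine Finset.sum_eq_zero fun i _ => ?_
  rw [map_mul, constantCoeff_X, zero_mul]

theorem gp_ne {k : Type} [Field k] (f : Fin P → MvPolynomial (Fin n) k) (h : ∃ i, f i ≠ 0) :
    gp f ≠ 0 := by
  classical
  obtain ⟨i, hi⟩ := h
  intro h0
  apply hi
  have h1 := congrArg (aeval (Fin.append (X : Fin n → MvPolynomial (Fin n) k)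
    (fun j => if j = i then 1 else 0))) h0
  rw [map_zero, gp, map_sum, Finset.sum_eq_single i] at h1
  · rw [map_mul, aeval_X, Fin.append_right, if_pos rfl, one_mul, aeval_rename] at h1
    have e : (Fin.append (X : Fin n → MvPolynomial (Fin n) k)
        (fun j : Fin P => if j = i then 1 else 0)) ∘ Fin.castAdd P = X := by
      funext x
      rw [Function.comp_apply, Fin.append_left]
    rw [e, aeval_X_left_apply] at h1
    exact h1
  · intro j _ hj
    rw [map_mul, aeval_X, Fin.append_right, if_neg hj, zero_mul]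
  · intro h2
    exact absurd (Finset.mem_univ i) h2

/-- roots -/
theorem local_gp (f : Fin P → MvPolynomial (Fin n) ℂ) (b : Polynomial ℂ)
    (hb : IsLocalBIdeal f b) : IsLocalBFunction (gp f) ((Polynomial.X + 1) * b) :=
  local_of_unitB (sBtoG f b hb)

/-- the zeta function -/
theorem zetaI_gp {k : Type} [Field k] [Algebra k ℂ] (f : Fin P → MvPolynomial (Fin n) k)
    (S : Finset (ℤ × ℤ))
    (hz : ∀ (K : Type) [Field K] [Algebra k K] (W : Set (Pt K (Fin (n + P))))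
        (E : Set (AlgebraicClosure K)), Constr W → Good E →
        fst' K * zetaG (map (algebraMap k K) (gp f)) W E ∈ ratRing K S)
    (K : Type) [Field K] [Algebra k K] :
    zetaI (fun i => map (algebraMap k K) (f i)) ∈ ratRing K S := by
  have hkc : CharZero k := RingHom.charZero (algebraMap k ℂ)
  have hK : CharZero K := charZero_of_injective_algebraMap (algebraMap k K).injective
  refine zetaI_mem _ _ ?_
  rw [gp_map, mul_comm]
  exact hz K _ _ constr_W0 good_one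

end Pool.Agent.X271.MG

namespace Pool.Agent.X271.MD

open MvPolynomial Pool.Agent.H628R4.TP Pool.Agent.TH216.HD Pool.Agent.TH216.ID
open Pool.Agent.W749.JI (IsLocalBIdeal zetaI)
open Pool.Agent.W428.MOT (Pt Constr ratRing)
open Pool.Agent.W375.MG (zetaG Good)

variable {r n P κ : ℕ}

/-- stably generic ideals -/
theorem stableI {k : Type} [Field k] [Algebra k ℂ] (hr : 0 < r)
    (v : Fin r → Fin ((n + P) + (κ + κ)) → ℕ) (hv : Function.Injective v) (hv0 : ∀ j, v j ≠ 0)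
    (h : MvPolynomial (Fin ((n + P) + (κ + κ))) k) (hh : ∀ w ∈ h.support, InPoly v w)
    (hC : HypCL v h) :
    ∃ g : MvPolynomial (Fin r) k, g ≠ 0 ∧ ∀ c : Fin r → k, eval c g ≠ 0 →
      ∀ f : Fin P → MvPolynomial (Fin n) k, (∃ i, f i ≠ 0) →
      ∀ φ : MvPolynomial (Fin ((n + P) + (κ + κ))) k ≃ₐ[k]
        MvPolynomial (Fin ((n + P) + (κ + κ))) k,
      (∀ i, constantCoeff (φ (X i)) = 0) →
      φ (stab (gp f) κ) = (∑ j, C (c j) * ∏ i, X i ^ v j i) + h →
      (∀ a : Fin ((n + P) + (κ + κ)) → ℕ, IsRay v a → 0 < ordA v a → ∑ i, a i ≠ ordA v a) →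
    ∃ S : Finset (ℤ × ℤ),
      (∀ p ∈ S, 0 < p.2 ∧ ∀ b : Polynomial ℂ,
          IsLocalBIdeal (fun i => map (algebraMap k ℂ) (f i)) b → b.eval ((p.1 : ℂ) / p.2) = 0) ∧
      ∀ (K : Type) [Field K] [Algebra k K],
        zetaI (fun i => map (algebraMap k K) (f i)) ∈ ratRing K S := by
  obtain ⟨g, hg, hgc⟩ := Pool.Agent.X271.MG.coreR hr v hv hv0 h hh ((hypCL_iff v h).2 hC)
  refine ⟨g, hg, fun c hc f hf φ hφ0 hφ h1 => ?_⟩
  have hbec : Pool.Agent.Y229.PS.Becomes
      ((map (algebraMap k ℂ) (gp f) : MvPolynomial (Fin (n + P)) ℂ) :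
        MvPowerSeries (Fin (n + P)) ℂ) κ
      (map (algebraMap k ℂ) (Pool.Agent.W425.ND.spa v c + h)) := by
    obtain ⟨ψ, hψ⟩ := Pool.Agent.Y405.MS.bc k ℂ φ
    have h2 : ∀ i, constantCoeff (ψ (X i)) = 0 := by
      intro i
      have h3 := hψ (X i)
      rw [map_X] at h3
      rw [h3, constantCoeff_map, hφ0, map_zero]
    have h4 := Pool.Agent.X271.MG.becomes_of_aut (κ := κ) (map (algebraMap k ℂ) (gp f)) ψ h2
    have h5 : ψ (Pool.Agent.Y229.RE.stab (map (algebraMap k ℂ) (gp f)) κ) =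
        map (algebraMap k ℂ) (Pool.Agent.W425.ND.spa v c + h) := by
      have e1 : Pool.Agent.Y229.RE.stab (map (algebraMap k ℂ) (gp f)) κ =
          map (algebraMap k ℂ) (stab (gp f) κ) := by
        have := Pool.Agent.Y229.MS.map_stabK (algebraMap k ℂ) (gp f) κ
        exact this.symm
      rw [e1, hψ, hφ]
      rfl
    rw [h5] at h4
    exact h4
  obtain ⟨S, hS, hz⟩ := hgc c hc (gp f) (Pool.Agent.X271.MG.gp_ne f hf)
    (Pool.Agent.X271.MG.gp_const f) φ hφ hbec h1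
  refine ⟨S, fun p hp => ⟨(hS p hp).1, fun b hb => (hS p hp).2.2 b ?_⟩,
    fun K _ _ => Pool.Agent.X271.MG.zetaI_gp f S hz K⟩
  rw [← Pool.Agent.X271.MG.gp_map]
  exact Pool.Agent.X271.MG.local_gp _ b hb

/-- ideals of compositions -/
theorem compsI {k : Type} [Field k] [Algebra k ℂ] (hr : 0 < r) (hκ : 0 < κ)
    (π : Fin r → Fin (κ + 1)) (m : Fin r → Fin ((n + P) + κ) → ℕ)
    (hinj : ∀ j j', π j = π j' → m j = m j' → j = j') (hm : ∀ j, π j = 0 → m j ≠ 0)
    (H : Fin (κ + 1) → MvPolynomial (Fin ((n + P) + κ)) k)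
    (hH : ∀ i, ∀ w ∈ (H i).support, InPolyG π m i w) (hC : HypCL (exps π m) (sumH H)) :
    ∃ g : MvPolynomial (Fin r) k, g ≠ 0 ∧ ∀ a : Fin r → k, eval a g ≠ 0 →
      ∀ (c : Fin κ → k) (p : Fin κ → MvPolynomial (Fin (n + P)) k), (∀ i, c i ≠ 0) →
      (∀ i, constantCoeff (p i) = 0) →
      (∀ i : Fin κ, tup π m a H i.succ = C (c i) * X (Fin.natAdd (n + P) i) -
        rename (Fin.castAdd κ) (p i)) →
      (∀ i : Fin κ, coeff (Finsupp.single (Fin.natAdd (n + P) i) 1) (tup π m a H 0) = 0) →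
      ∀ f : Fin P → MvPolynomial (Fin n) k, (∃ i, f i ≠ 0) →
      gp f = aeval (Fin.append X fun i => C (c i)⁻¹ * p i) (tup π m a H 0) →
    ∃ S : Finset (ℤ × ℤ),
      (∀ p ∈ S, p.1 < 0 ∧ 0 < p.2 ∧ ∀ b : Polynomial ℂ,
          IsLocalBIdeal (fun i => map (algebraMap k ℂ) (f i)) b → b.eval ((p.1 : ℂ) / p.2) = 0) ∧
      ∀ (K : Type) [Field K] [Algebra k K],
        zetaI (fun i => map (algebraMap k K) (f i)) ∈ ratRing K S := by
  rw [← sumH_eq] at hC
  obtain ⟨g, hg, hgc⟩ := Pool.Agent.X271.MG.comp_motR hr hκ π m hinj hm H hH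
    ((hypCL_iff _ _).2 hC)
  refine ⟨g, hg, fun a ha c p hc hp0 hl hlin f hf hff => ?_⟩
  obtain ⟨S, hS, hz⟩ := hgc a ha c p hc hp0 hl hlin (gp f) hff (Pool.Agent.X271.MG.gp_ne f hf)
  refine ⟨S, fun p hp => ⟨(hS p hp).1, (hS p hp).2.1, fun b hb => (hS p hp).2.2 b ?_⟩,
    fun K _ _ => Pool.Agent.X271.MG.zetaI_gp f S hz K⟩
  rw [← Pool.Agent.X271.MG.gp_map]
  exact Pool.Agent.X271.MG.local_gp _ b hb

end Pool.Agent.X271.MD
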