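import Pool.Agent.X271.DenefGen
import Pool.Agent.W206.CU.Pole

set_option autoImplicit false
set_option linter.unusedVariables false

/-! Denef's question: transfer, cubics, stably sparse polynomials, compositions. -/

namespace Pool.Agent.X271.DQ

open MvPolynomial Pool.Agent.W206.CU
open Pool.Agent.W425.ND (spa)
open Pool.Agent.W425.SV (NP)
open Pool.Agent.H628R4.TP (IsBFunction)
open Pool.Agent.TH216.MF (HypL LocS)
open Pool.Agent.Y229.PC (plusYZ IsStable cubicSum comp graphExp graphFix)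

/-- Denef's question has a positive answer for `f` and the prime `p`: for every pole `T₀` of Igusa's
Poincaré series of `f` the number `- log |T₀| / log p` is a root of every `b` with
`b(s) f ^ s = P(s) f ^ (s + 1)`, in particular of the Bernstein-Sato polynomial. -/
def RootsAt (p : ℕ) {V : Type} (f : MvPolynomial V ℤ) : Prop :=
  ∀ (T₀ : ℂ) (m : ℕ), 0 < m → IsPoleOfOrder (poincare p f) T₀ m →
    ∀ b : Polynomial ℂ, b ≠ 0 → IsBFunction (map (Int.castRingHom ℂ) f) b →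
      b.eval ((-Real.log ‖T₀‖ / Real.log p : ℝ) : ℂ) = 0

/-- The same with orders: the order of the pole `T₀` is at most the multiplicity of the root
`- log |T₀| / log p` of `b`. -/
def OrdersAt (p : ℕ) {V : Type} (f : MvPolynomial V ℤ) : Prop :=
  ∀ (T₀ : ℂ) (m : ℕ), 0 < m → IsPoleOfOrder (poincare p f) T₀ m →
    ∀ b : Polynomial ℂ, b ≠ 0 → IsBFunction (map (Int.castRingHom ℂ) f) b →
      m ≤ b.rootMultiplicity ((-Real.log ‖T₀‖ / Real.log p : ℝ) : ℂ)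

theorem roots_rename {V W : Type} [Finite V] [Finite W] (e : V ≃ W) (p : ℕ)
    {F : MvPolynomial V ℤ} (h : RootsAt p (renameEquiv ℤ e F)) : RootsAt p F := by
  intro T₀ m hm hP b hb0 hb
  refine h T₀ m hm ?_ b hb0 ?_
  · rwa [poincare_iso p (renameEquiv ℤ e) F]
  · rw [Pool.Agent.Y229.PA.map_renameEquiv]
    exact isBFunction_iso _ hb

theorem orders_rename {V W : Type} [Finite V] [Finite W] (e : V ≃ W) (p : ℕ)
    {F : MvPolynomial V ℤ} (h : OrdersAt p (renameEquiv ℤ e F)) : OrdersAt p F := by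
  intro T₀ m hm hP b hb0 hb
  refine h T₀ m hm ?_ b hb0 ?_
  · rwa [poincare_iso p (renameEquiv ℤ e) F]
  · rw [Pool.Agent.Y229.PA.map_renameEquiv]
    exact isBFunction_iso _ hb

/-- the transfer along the moves which start at `u f` -/
theorem follow_down {n : ℕ} {f : MvPolynomial (Fin n) ℤ} (hf : f ≠ 0) {V : Type} [Finite V]
    {κ : ℕ} {F : MvPolynomial V ℤ} (hfol : Follow f V κ F) (hκ : 1 ≤ κ) (p : ℕ)
    [hp : Fact p.Prime] {T₀ : ℂ} {m : ℕ} (hm : 0 < m) (hP : IsPoleOfOrder (poincare p f) T₀ m)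
    {b : Polynomial ℂ} (hb0 : b ≠ 0) (hb : IsBFunction (map (Int.castRingHom ℂ) f) b) :
    ∃ (T₁ : ℂ) (m₁ : ℕ) (B : Polynomial ℂ), m ≤ m₁ ∧ IsPoleOfOrder (poincare p F) T₁ m₁ ∧ B ≠ 0 ∧
      IsBFunction (map (Int.castRingHom ℂ) F) B ∧
      B.rootMultiplicity ((-Real.log ‖T₁‖ / Real.log p : ℝ) : ℂ) =
        b.rootMultiplicity ((-Real.log ‖T₀‖ / Real.log p : ℝ) : ℂ) := by
  have hp0 : (p : ℂ) ≠ 0 := by exact_mod_cast hp.out.ne_zero
  have hs : ((p : ℂ)⁻¹) ^ κ ≠ 0 := pow_ne_zero _ (inv_ne_zero hp0)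
  have hd : (1 - (p : ℂ)⁻¹) ≠ 0 := by
    intro h
    have h1 : (p : ℂ) = 1 := by
      have h2 : (p : ℂ)⁻¹ = 1 := by linear_combination -h
      rw [← inv_inv (p : ℂ), h2, inv_one]
    have h2 : p = 1 := by exact_mod_cast h1
    exact hp.out.one_lt.ne' h2
  have h1 := poincare_eq hfol p
  obtain ⟨m₁, hmm, hQ⟩ := pole_transfer (inv_ne_zero hp0) hs hd h1 hm hP
  have hT0 := pole_ne_zero hm hP
  have hT1 : T₀ / ((p : ℂ)⁻¹) ^ κ = T₀ * (p : ℂ) ^ κ := by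
    rw [inv_pow, div_inv_eq_mul]
  rw [hT1] at hQ
  have hX : (Polynomial.X + 1 : Polynomial ℂ) ≠ 0 := Polynomial.X_add_C_ne_zero 1
  have hcb : b.comp (Polynomial.X + Polynomial.C (κ : ℂ)) ≠ 0 := comp_ne_zero hb0 _
  refine ⟨T₀ * (p : ℂ) ^ κ, m₁, _, hmm, hQ, mul_ne_zero hX hcb,
    isBFunction_of_bs1 (hfol.1 b hb), ?_⟩
  rw [Pool.Agent.Y229.PA.log_down p hT0 κ]
  have hgt := Pool.Agent.Y229.PA.pole_gt p hf hm hP
  have hp1 : (1 : ℝ) < p := by exact_mod_cast hp.out.one_lt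
  have hlp : 0 < Real.log p := Real.log_pos hp1
  set t₀ : ℝ := -Real.log ‖T₀‖ / Real.log p with ht₀
  have htneg : t₀ < 0 := by
    rw [ht₀]
    exact div_neg_of_neg_of_pos (by have := Real.log_pos hgt; linarith) hlp
  have hκ' : (1 : ℝ) ≤ κ := by exact_mod_cast hκ
  have hne : (((t₀ - κ : ℝ)) : ℂ) ≠ -1 := by
    intro h
    have h3 : ((t₀ - κ : ℝ) : ℂ) = ((-1 : ℝ) : ℂ) := by rw [h]; push_cast; rfl
    have h4 : t₀ - κ = -1 := by exact_mod_cast h3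
    linarith
  have h3 : (Polynomial.X + 1 : Polynomial ℂ).rootMultiplicity (((t₀ - κ : ℝ)) : ℂ) = 0 := by
    apply Polynomial.rootMultiplicity_eq_zero
    intro hroot
    apply hne
    rw [Polynomial.IsRoot.def] at hroot
    simp only [Polynomial.eval_add, Polynomial.eval_X, Polynomial.eval_one] at hroot
    linear_combination hroot
  rw [Polynomial.rootMultiplicity_mul (mul_ne_zero hX hcb), rootMultiplicity_comp, h3, zero_add]
  congr 1
  push_cast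
  ring

theorem roots_follow {n : ℕ} {f : MvPolynomial (Fin n) ℤ} (hf : f ≠ 0) {V : Type} [Finite V]
    {κ : ℕ} {F : MvPolynomial V ℤ} (hfol : Follow f V κ F) (hκ : 1 ≤ κ) (p : ℕ)
    [hp : Fact p.Prime] (h : RootsAt p F) : RootsAt p f := by
  intro T₀ m hm hP b hb0 hb
  obtain ⟨T₁, m₁, B, h1, h2, h3, h4, h5⟩ := follow_down hf hfol hκ p hm hP hb0 hb
  have h6 := h T₁ m₁ (by omega) h2 B h3 h4
  have h7 : 0 < B.rootMultiplicity ((-Real.log ‖T₁‖ / Real.log p : ℝ) : ℂ) :=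
    (Polynomial.rootMultiplicity_pos h3).2 h6
  rw [h5] at h7
  exact (Polynomial.rootMultiplicity_pos hb0).1 h7

theorem orders_follow {n : ℕ} {f : MvPolynomial (Fin n) ℤ} (hf : f ≠ 0) {V : Type} [Finite V]
    {κ : ℕ} {F : MvPolynomial V ℤ} (hfol : Follow f V κ F) (hκ : 1 ≤ κ) (p : ℕ)
    [hp : Fact p.Prime] (h : OrdersAt p F) : OrdersAt p f := by
  intro T₀ m hm hP b hb0 hb
  obtain ⟨T₁, m₁, B, h1, h2, h3, h4, h5⟩ := follow_down hf hfol hκ p hm hP hb0 hb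
  have h6 := h T₁ m₁ (by omega) h2 B h3 h4
  rw [h5] at h6
  omega

theorem quadSum_ne {n k : ℕ} {q : Fin k → MvPolynomial (Fin n) ℤ} (hq : q ≠ 0) :
    quadSum q ≠ 0 := by
  intro h0
  apply hq
  funext j
  have h1 := congrArg (pderiv (Sum.inr j)) h0
  unfold quadSum at h1
  rw [map_sum, map_zero, Finset.sum_eq_single j] at h1
  · rw [Derivation.leibniz, pderiv_X_self, pderiv_rename_of_not Sum.inl (Sum.inr j) (by simp),
      smul_zero, zero_add, smul_eq_mul, mul_one] at h1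
    exact rename_injective _ Sum.inl_injective (by rw [h1, Pi.zero_apply, map_zero])
  · intro i _ hi
    rw [Derivation.leibniz, pderiv_X_of_ne (by simpa using hi),
      pderiv_rename_of_not Sum.inl (Sum.inr j) (by simp), smul_zero, smul_zero, add_zero]
  · intro h2
    exact absurd (Finset.mem_univ _) h2

theorem cubicSum_eq {n k : ℕ} (q : Fin k → MvPolynomial (Fin n) ℤ) : cubicSum q = quadSum q := rfl

/-- **The reduction to cubics, prime by prime.** -/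
theorem cubics (p : ℕ) [hp : Fact p.Prime] :
    ((∀ (n : ℕ) (f : MvPolynomial (Fin n) ℤ), f ≠ 0 → RootsAt p f) ↔
      ∀ (n k : ℕ) (q : Fin k → MvPolynomial (Fin n) ℤ), q ≠ 0 → (∀ j, (q j).totalDegree ≤ 2) →
        (∀ j d, (q j).coeff d = 0 ∨ (q j).coeff d = 1 ∨ (q j).coeff d = -1) →
        RootsAt p (cubicSum q)) ∧
    ((∀ (n : ℕ) (f : MvPolynomial (Fin n) ℤ), f ≠ 0 → OrdersAt p f) ↔
      ∀ (n k : ℕ) (q : Fin k → MvPolynomial (Fin n) ℤ), q ≠ 0 → (∀ j, (q j).totalDegree ≤ 2) →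
        (∀ j d, (q j).coeff d = 0 ∨ (q j).coeff d = 1 ∨ (q j).coeff d = -1) →
        OrdersAt p (cubicSum q)) := by
  have hred : ∀ (n : ℕ) (f : MvPolynomial (Fin n) ℤ), f ≠ 0 →
      ∃ (n' k κ : ℕ) (q : Fin k → MvPolynomial (Fin n') ℤ), 1 ≤ κ ∧ q ≠ 0 ∧
        (∀ j, (q j).totalDegree ≤ 2) ∧
        (∀ j d, (q j).coeff d = 0 ∨ (q j).coeff d = 1 ∨ (q j).coeff d = -1) ∧
        Follow f (Fin n' ⊕ Fin k) κ (quadSum q) := by
    intro n f hf
    obtain ⟨n', k, κ, q, hκ, h1, h2, h3⟩ := exists_follow f hf 1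
    refine ⟨n', k, κ, q, hκ, ?_, h1, h2, h3⟩
    rintro rfl
    apply h3.2.2 0
    rw [map_zero]
    unfold quadSum
    simp
  refine ⟨⟨fun h n k q hq _ _ => ?_, fun h n f hf => ?_⟩,
    ⟨fun h n k q hq _ _ => ?_, fun h n f hf => ?_⟩⟩
  · exact roots_rename finSumFinEquiv p (h (n + k) (renameEquiv ℤ finSumFinEquiv (quadSum q))
      ((map_ne_zero_iff _ (AlgEquiv.injective _)).2 (quadSum_ne hq)))
  · obtain ⟨n', k, κ, q, hκ, hq, h1, h2, h3⟩ := hred n f hf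
    exact roots_follow hf h3 hκ p (h n' k q hq h1 h2)
  · exact orders_rename finSumFinEquiv p (h (n + k) (renameEquiv ℤ finSumFinEquiv (quadSum q))
      ((map_ne_zero_iff _ (AlgEquiv.injective _)).2 (quadSum_ne hq)))
  · obtain ⟨n', k, κ, q, hκ, hq, h1, h2, h3⟩ := hred n f hf
    exact orders_follow hf h3 hκ p (h n' k q hq h1 h2)

/-- **The transfer, for every prime.** -/
theorem transfer (p : ℕ) [hp : Fact p.Prime] {n M κ : ℕ} {f : MvPolynomial (Fin n) ℤ}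
    {F : MvPolynomial (Fin M) ℤ} (hf : (map (Int.castRingHom ℂ) f).totalDegree ≠ 0) (hκ : 0 < κ)
    (hs : IsStable f κ F) : (RootsAt p F → RootsAt p f) ∧ (OrdersAt p F → OrdersAt p f) := by
  obtain ⟨ψ, hψ⟩ := hs
  refine ⟨fun h T₀ m hm hP b hb0 hb => ?_, fun h T₀ m hm hP b hb0 hb => ?_⟩
  · obtain ⟨B, μ₁, hB0, hB, hQ, -, h2⟩ :=
      Pool.Agent.Y229.PA.down hf hκ ψ hψ p hm hP hb0 hb
    exact h2 fun h3 => h _ μ₁ h3 hQ B hB0 hB
  · obtain ⟨B, μ₁, hB0, hB, hQ, h1, -⟩ :=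
      Pool.Agent.Y229.PA.down hf hκ ψ hψ p hm hP hb0 hb
    exact h1 fun h3 => h _ μ₁ h3 hQ B hB0 hB

/-- the conclusion for polynomials with generic coefficients -/
def Conclusion {R N : ℕ} (v : Fin R → Fin N → ℕ) (h : MvPolynomial (Fin N) ℤ) (κ : ℕ)
    {n : ℕ} (f : MvPolynomial (Fin n) ℤ) : Prop :=
  ∀ p : ℕ, p.Prime → ∀ (T₀ : ℂ) (m : ℕ), 0 < m → IsPoleOfOrder (poincare p f) T₀ m →
    ∀ b : Polynomial ℂ, b ≠ 0 → IsBFunction (map (Int.castRingHom ℂ) f) b →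
      b.eval ((-Real.log ‖T₀‖ / Real.log p : ℝ) : ℂ) = 0 ∧
      ∃ σ : ℚ, -Real.log ‖T₀‖ / Real.log p = -(σ : ℝ) ∧
        (LocS v h (σ + κ) → m ≤ b.rootMultiplicity ((-Real.log ‖T₀‖ / Real.log p : ℝ) : ℂ))

theorem conclusion_of_levels {R N : ℕ} (hR : 0 < R) (v : Fin R → Fin N → ℕ)
    (h : MvPolynomial (Fin N) ℤ) (hh : ∀ w ∈ h.support, NP v w) (hL : HypL v h) {κ n : ℕ}
    {f : MvPolynomial (Fin n) ℤ} (hf : Pool.Agent.Y229.PA.Levels v h κ f) :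
    Conclusion v h κ f := by
  intro p hpp T₀ m hm hP b hb0 hb
  obtain ⟨σ, h1, h2, h3⟩ := hf p hpp T₀ m hm hP b hb0 hb
  exact ⟨h2 (levOK_of_hypL hR v h hh hL _), σ, h1, fun h4 =>
    h3 (Pool.Agent.TH216.MF.hypS_of_locS hR v h hh _ h4)⟩

/-- **Stably generic polynomials.** -/
theorem stably_generic {R N : ℕ} (v : Fin R → Fin N → ℕ) (h : MvPolynomial (Fin N) ℤ)
    (hR : 0 < R) (hv : Function.Injective v) (hv0 : ∀ j, v j ≠ 0) (hh : ∀ u ∈ h.support, NP v u)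
    (hL : HypL v h) :
    ∃ g : MvPolynomial (Fin R) ℚ, g ≠ 0 ∧ ∀ (c : Fin R → ℤ) (t : Fin N → ℚ),
      (∀ i, t i ≠ 0) → (∀ u ∈ h.support, ∏ i, t i ^ u i = 1) →
      eval (fun j => (c j : ℚ) * ∏ i, t i ^ v j i) g ≠ 0 →
      ∀ (n κ : ℕ) (f : MvPolynomial (Fin n) ℤ), 0 < κ →
        (map (Int.castRingHom ℂ) f).totalDegree ≠ 0 → IsStable f κ (spa v c + h) →
        Conclusion v h κ f := by
  obtain ⟨g, hg, hgc⟩ := gen_ordT' hR v hv hv0 h hh
  refine ⟨g, hg, fun c t ht hht hc n κ f hκ hf hs => ?_⟩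
  obtain ⟨ψ, hψ⟩ := hs
  exact conclusion_of_levels hR v h hh hL
    (Pool.Agent.Y229.PA.levels_down hR v hv0 h hh (hgc c t ht hht hc) hκ hf ψ hψ)

/-- **Compositions with generic coefficients.** -/
theorem compositions {n κ r s : ℕ} (hr : 0 < r) (hκ : 0 < κ) (m : Fin r → Fin n ⊕ Fin κ → ℕ)
    (hm : Function.Injective m) (hm0 : ∀ j, m j ≠ 0) (w : Fin s → Fin n → ℕ) (ι : Fin s → Fin κ)
    (hw : Function.Injective fun l => (ι l, w l)) (h₀ : MvPolynomial (Fin n ⊕ Fin κ) ℤ)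
    (h : Fin κ → MvPolynomial (Fin n) ℤ)
    (hS : ∀ i, h i = 0 ∨ ∀ u ∈ h₀.support, u (Sum.inr i) = 0)
    (hh : ∀ u ∈ (graphFix h₀ h).support, NP (graphExp m w ι) u)
    (hL : HypL (graphExp m w ι) (graphFix h₀ h)) :
    ∃ g : MvPolynomial (Fin r ⊕ Fin s) ℚ, g ≠ 0 ∧ ∀ (a : Fin r → ℤ) (b : Fin s → ℤ),
      eval (fun J => ((Sum.elim a b J : ℤ) : ℚ)) g ≠ 0 →
      (map (Int.castRingHom ℂ) (comp m w ι h₀ h a b)).totalDegree ≠ 0 →
      Conclusion (graphExp m w ι) (graphFix h₀ h) κ (comp m w ι h₀ h a b) := by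
  rw [Pool.Agent.Y229.PC.graphExp_eq, Pool.Agent.Y229.PC.graphFix_eq] at hh hL ⊢
  obtain ⟨g, hg, hgc⟩ := cmpH' hr hκ m hm hm0 w ι hw h₀ h hS hh
  refine ⟨g, hg, fun a b hab hdeg => ?_⟩
  exact conclusion_of_levels (by omega) _ _ hh hL (hgc a b hab hdeg)

/-- **Stably sparse polynomials.** -/
theorem stably_sparse {n M κ r : ℕ} {f : MvPolynomial (Fin n) ℤ} (v : Fin r → Fin M → ℕ)
    (a : Fin r → ℤ) (hr : 2 ≤ r)
    (hv : AffineIndependent ℚ (fun (j : Fin r) (i : Fin M) => (v j i : ℚ)))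
    (ha : ∀ j, a j ≠ 0) (hf : (map (Int.castRingHom ℂ) f).totalDegree ≠ 0)
    (hs : IsStable f κ (spa v a)) (p : ℕ) (hp : p.Prime) : OrdersAt p f := by
  obtain ⟨ψ, hψ⟩ := hs
  intro T₀ m hm hP b hb0 hb
  exact Pool.Agent.Y229.PA.sparse_down hr hf v hv a ha ψ hψ hp hm hP hb0 hb

end Pool.Agent.X271.DQ
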