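import Mathlib

/-!
# Facts on `k[y][x]` used for the conductor example
-/

namespace Pool.Agent.X271.Conduct

universe w

open Polynomial

section Poly

variable (k : Type w) [Field k]

theorem poly_facts :
    (∀ a : k[X][X], ((X : k[X][X]) - C X) * a = 0 → a = 0) ∧
    (∀ a : k[X][X], ((X : k[X][X]) - C X) * a ∈ Ideal.span {(X : k[X][X])} →
      a ∈ Ideal.span {(X : k[X][X])}) ∧
    (∀ a : k[X][X], ((X : k[X][X]) - C X) * a ∈ Ideal.span {(C X : k[X][X])} →
      a ∈ Ideal.span {(C X : k[X][X])}) ∧
    (∀ r s : k[X][X], r ∈ Ideal.span {(X : k[X][X])} → r ∈ Ideal.span {(C X : k[X][X])} →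
      (X : k[X][X]) ≠ r + s * ((X : k[X][X]) - C X)) := by
  have hx : Prime (X : k[X][X]) := prime_X
  have hy : Prime (C X : k[X][X]) := prime_C_iff.2 prime_X
  have hxy : ¬ (X : k[X][X]) ∣ C X := by
    intro h
    rw [X_dvd_iff, coeff_C_zero] at h
    exact X_ne_zero h
  have hyx : ¬ (C X : k[X][X]) ∣ X := by
    intro h
    rw [C_dvd_iff_dvd_coeff] at h
    have := h 1
    rw [coeff_X_one] at this
    exact not_isUnit_X (isUnit_of_dvd_one this)
  refine ⟨?_, ?_, ?_, ?_⟩
  · intro a ha
    rcases mul_eq_zero.1 ha with h | h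
    · exfalso
      exact X_sub_C_ne_zero _ h
    · exact h
  · intro a ha
    rw [Ideal.mem_span_singleton] at ha ⊢
    rcases hx.dvd_or_dvd ha with h | h
    · exfalso
      apply hxy
      have := dvd_sub (dvd_refl (X : k[X][X])) h
      simpa using this
    · exact h
  · intro a ha
    rw [Ideal.mem_span_singleton] at ha ⊢
    rcases hy.dvd_or_dvd ha with h | h
    · exfalso
      apply hyx
      have := dvd_add h (dvd_refl (C X : k[X][X]))
      simpa using this
    · exact h
  · intro r s hr hr2 heq
    rw [Ideal.mem_span_singleton] at hr hr2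
    obtain ⟨a, rfl⟩ := hr
    rcases hy.dvd_or_dvd hr2 with h | h
    · exact hyx h
    · obtain ⟨b, rfl⟩ := h
      have h3 := congrArg (evalRingHom (X : k[X])) heq
      simp only [map_add, map_mul, map_sub, coe_evalRingHom, eval_X, eval_C, sub_self, mul_zero,
        add_zero] at h3
      have h4 : (X : k[X]) * (X * eval X b) = X * 1 := by rw [mul_one]; exact h3.symm
      have h5 := mul_left_cancel₀ X_ne_zero h4
      exact not_isUnit_X (isUnit_of_dvd_one ⟨_, h5.symm⟩)

end Poly


end Pool.Agent.X271.Conduct
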