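import Pool.Agent.X271.LocRef
import Pool.Agent.TH216.LR.Lr8

set_option autoImplicit false

/-! Refined local motivic monodromy properties: the theorems. -/

namespace Pool.Agent.X271.LR

open MvPolynomial Pool.Agent.W428.MOT Pool.Agent.H628R4.TP
open Pool.Agent.W375.MG (JetG zetaG Good ratRing_mono zetaOrd zetaOrd_eq IsPole good_units)
open Pool.Agent.Y229.MS
open Pool.Agent.W63.MTFin (mapMeas X_mem C_mem L_mul)
open Pool.Agent.X271.RD (fac cubic trans RedRootL pt stab)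
open Pool.Agent.X271.RC (mem_shn div_shift pole_iff cubic_deg unit_mul_mem)
open Pool.Agent.W749.NM (zetaN JetN)

variable {k : Type} [Field k]

theorem fac_mem (K : Type) [Field K] (S : Set (ℤ × ℤ)) : fac K ∈ ratRing K S :=
  (ratRing K S).sub_mem (ratRing K S).one_mem ((ratRing K S).mul_mem (C_mem _ _) (X_mem _))

theorem zetaN_iff (K : Type) [Field K] [Algebra k K] {n : ℕ} (f : MvPolynomial (Fin n) k)
    (P : Fin n → k) (S : Set (ℤ × ℤ)) :
    fac K * zetaN (map (algebraMap k K) f) (fun i => algebraMap k K (P i)) ∈ ratRing K S ↔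
      fac K * zetaG (map (algebraMap k K) f) {pt K P} {a | a ≠ 0} ∈ ratRing K S := by
  set Z := zetaG (map (algebraMap k K) f) {pt K P} {a | a ≠ 0} with hZ
  have h2 : zetaN (map (algebraMap k K) f) (fun i => algebraMap k K (P i)) =
      PowerSeries.C (((Lu K) ^ (-(n : ℤ)) : (MK K)ˣ) : MK K) *
      (Z - PowerSeries.C (PowerSeries.coeff 0 Z)) := by
    unfold zetaN
    congr 1
    ext d
    rw [map_sub, PowerSeries.coeff_C]
    by_cases hd : d = 0
    · subst hd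
      rw [if_pos rfl, sub_self, PowerSeries.coeff_mk, if_pos rfl]
    · rw [if_neg hd, sub_zero, PowerSeries.coeff_mk, if_neg hd, hZ,
        zetaG, PowerSeries.coeff_mk]
      have h3 : JetN (map (algebraMap k K) f) (fun i => algebraMap k K (P i)) d =
          JetG (map (algebraMap k K) f) {pt K P} {a | a ≠ 0} d := by
        ext z
        simp only [JetN, JetG, Set.mem_ofPred_eq, Set.mem_singleton_iff, funext_iff, pt]
      rw [h3]
  rw [h2, mul_left_comm, unit_mul_mem, mul_sub]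
  have h4 : fac K * PowerSeries.C (PowerSeries.coeff 0 Z) ∈ ratRing K S :=
    (ratRing K S).mul_mem (fac_mem K S) (C_mem _ _)
  constructor
  · intro h
    have h5 := (ratRing K S).add_mem h h4
    rwa [sub_add_cancel] at h5
  · intro h
    exact (ratRing K S).sub_mem h h4

theorem deg_of_zero {n : ℕ} {f : MvPolynomial (Fin n) k} (hf : f ≠ 0) {P : Fin n → k}
    (hP : eval P f = 0) : f.totalDegree ≠ 0 := by
  intro h
  have h1 := totalDegree_eq_zero_iff_eq_C.1 h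
  rw [h1, eval_C] at hP
  rw [hP, C_0] at h1
  exact hf h1

section ring
variable [Algebra k ℂ]
variable {𝒦 : ∀ (K : Type) [Field K] [Algebra k K], Set (AlgebraicClosure K) → Prop}

/-- the property for `principle` -/
def QZ (𝒦 : ∀ (K : Type) [Field K] [Algebra k K], Set (AlgebraicClosure K) → Prop) (n : ℕ)
    (f : MvPolynomial (Fin n) k) : Prop := f ≠ 0 → RefZ 𝒦 n f

theorem qz_iso (h𝒦 : ∀ (K : Type) [Field K] [Algebra k K] (E : Set (AlgebraicClosure K)),
      𝒦 K E → Good E)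
    {a b : ℕ} (hab : a = b) (Φ : MvPolynomial (Fin a) k ≃ₐ[k] MvPolynomial (Fin b) k)
    (g : MvPolynomial (Fin a) k) (h : QZ 𝒦 b (Φ g)) : QZ 𝒦 a g := fun hg =>
  refZ_iso h𝒦 hab Φ hg (h fun h0 => hg ((map_eq_zero_iff _ Φ.injective).1 h0))

theorem qz_desc (h𝒦 : ∀ (K : Type) [Field K] [Algebra k K] (E : Set (AlgebraicClosure K)),
      𝒦 K E → Good E)
    (n : ℕ) (f : MvPolynomial (Fin n) k) (hf : f.totalDegree ≠ 0) (h1 : QZ 𝒦 _ (addyz f))
    (h2 : QZ 𝒦 _ (addyz (addyz f))) : QZ 𝒦 n f := fun _ =>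
  refZ_desc h𝒦 hf (h1 (addyz_ne f)) (h2 (addyz_ne _))

theorem cubic_ne {n l : ℕ} (q : Fin l → MvPolynomial (Fin (n + 1)) k) : cubic q ≠ 0 := by
  intro h
  apply cubic_deg q
  rw [h, totalDegree_zero]

/-- **Reduction to cubics**, local version with finite sets -/
theorem refZ_cubic (h𝒦 : ∀ (K : Type) [Field K] [Algebra k K] (E : Set (AlgebraicClosure K)),
      𝒦 K E → Good E) :
    (∀ (n : ℕ) (f : MvPolynomial (Fin n) k) (P : Fin n → k), f ≠ 0 → eval P f = 0 →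
      RefAt 𝒦 f P) ↔
    ∀ (n l : ℕ) (q : Fin l → MvPolynomial (Fin (n + 1)) k), (∀ j, (q j).totalDegree ≤ 2) →
      ∀ P : Fin (n + 1 + l) → k, eval P (cubic q) = 0 → RefAt 𝒦 (cubic q) P := by
  refine ⟨fun h n l q _ P hP => h _ _ P (cubic_ne q) hP, fun h n f P hf hP => ?_⟩
  exact Pool.Agent.X271.RC.principle (QZ 𝒦) (fun a b Φ hab g hg => qz_iso h𝒦 hab Φ g hg)
    (fun n f hf h1 h2 => qz_desc h𝒦 n f hf h1 h2) (fun n l q hq _ P hP => h n l q hq P hP) f
    (deg_of_zero hf hP) hf P hP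

theorem refZ_transfer (h𝒦 : ∀ (K : Type) [Field K] [Algebra k K]
      (E : Set (AlgebraicClosure K)), 𝒦 K E → Good E)
    {n : ℕ} (f : MvPolynomial (Fin n) k) (hf : f ≠ 0) (κ : ℕ)
    (Φ1 : MvPolynomial (Fin (n + (κ + κ))) k ≃ₐ[k] MvPolynomial (Fin (n + (κ + κ))) k)
    (Φ2 : MvPolynomial (Fin (n + (κ + 1 + (κ + 1)))) k ≃ₐ[k]
      MvPolynomial (Fin (n + (κ + 1 + (κ + 1)))) k)
    (h1 : RefZ 𝒦 _ (Φ1 (stab f κ))) (h2 : RefZ 𝒦 _ (Φ2 (stab f (κ + 1)))) : RefZ 𝒦 n f :=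
  fun P hP => Pool.Agent.X271.RC.transfer (QZ 𝒦) (fun a b Φ hab g hg => qz_iso h𝒦 hab Φ g hg)
    (fun n f hf h1 h2 => qz_desc h𝒦 n f hf h1 h2) f (deg_of_zero hf hP) κ Φ1 Φ2
    (fun _ => h1) (fun _ => h2) hf P hP

end ring

/-! ### Version with poles -/

section poles
variable [Algebra k ℂ]

/-- the refined property with poles -/
def RefPAt {n : ℕ} (f : MvPolynomial (Fin n) k) (P : Fin n → k) : Prop :=
  ∀ s₀ : ℚ, IsPole (fac k * zetaOrd f {pt k P}) s₀ → RedRootL f P (s₀ : ℂ)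

theorem refPAt_iff {n : ℕ} {f : MvPolynomial (Fin n) k} {P : Fin n → k} :
    RefPAt f P ↔ ∀ s₀ : ℚ, ¬ RedRootL f P (s₀ : ℂ) →
        fac k * zetaG (map (algebraMap k k) f) {pt k P} {a | a ≠ 0} ∈
          ratRing k {p | 0 < p.2 ∧ ((p.1 : ℚ) / p.2) ≠ s₀} := by
  have hid : map (algebraMap k k) f = f := by
    rw [Algebra.algebraMap_self, MvPolynomial.map_id]
  rw [hid]
  constructor
  · intro h s₀ hs
    rw [← pole_iff]
    by_contra hcon
    exact hs (h s₀ hcon)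
  · intro h s₀ hs
    by_contra hcon
    exact hs ((pole_iff f _ _).2 (h s₀ hcon))

theorem refPAt_iso {a b : ℕ} (hab : a = b)
    (Φ : MvPolynomial (Fin a) k ≃ₐ[k] MvPolynomial (Fin b) k)
    {g : MvPolynomial (Fin a) k} (hg : g ≠ 0) {P : Fin a → k} (hP : eval P g = 0)
    (h : RefPAt (Φ g) (im Φ P)) : RefPAt g P := by
  have hkc : CharZero k := RingHom.charZero (algebraMap k ℂ)
  rw [refPAt_iff] at h ⊢
  intro s₀ hs
  exact zisoL hab Φ g P (ce_good good_units) _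
    (h s₀ fun h1 => hs (redRootL_iso hab Φ hg hP h1))

theorem refPAt_desc {n : ℕ} {f : MvPolynomial (Fin n) k} (hf : f ≠ 0) {P : Fin n → k}
    (hP : eval P f = 0) (h1 : RefPAt (addyz f) (ex0 P))
    (h2 : RefPAt (addyz (addyz f)) (ex0 (ex0 P))) : RefPAt f P := by
  have hkc : CharZero k := RingHom.charZero (algebraMap k ℂ)
  rw [refPAt_iff] at h1 h2 ⊢
  intro s₀ hs
  have h3 := h1 (s₀ - 1) (fun h => hs (by
    have := redRootL_addyz hf hP h
    push_cast at this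
    rwa [sub_add_cancel] at this))
  have h4 := h2 (s₀ - 2) (fun h => hs (by
    have := redRootL_addyz hf hP (redRootL_addyz (addyz_ne f) (by rw [eval_ex0, hP]) h)
    push_cast at this
    rw [show ((s₀ : ℂ) - 2 + 1 + 1) = s₀ by ring] at this
    exact this))
  refine ratRing_mono ?_ (zdescL f hP (ce_good good_units) good_units.zero _ _ (fun p hp => hp.1)
    (fun p hp => hp.1) h3 h4)
  rintro p (⟨q, ⟨hq, hq'⟩, rfl⟩ | ⟨q, ⟨hq, hq'⟩, rfl⟩)
  · refine ⟨hq, fun h => hq' ?_⟩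
    have h5 : (q.2 : ℚ) ≠ 0 := by exact_mod_cast hq.ne'
    rw [← h]
    push_cast
    field_simp
    ring
  · refine ⟨hq, fun h => hq' ?_⟩
    have h5 : (q.2 : ℚ) ≠ 0 := by exact_mod_cast hq.ne'
    rw [← h]
    push_cast
    field_simp
    ring

/-- at all zeros in `k ^ n` -/
def QP (n : ℕ) (f : MvPolynomial (Fin n) k) : Prop :=
  f ≠ 0 → ∀ P : Fin n → k, eval P f = 0 → RefPAt f P

theorem qp_iso {a b : ℕ} (hab : a = b) (Φ : MvPolynomial (Fin a) k ≃ₐ[k] MvPolynomial (Fin b) k)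
    (g : MvPolynomial (Fin a) k) (h : QP b (Φ g)) : QP a g := fun hg P hP =>
  refPAt_iso hab Φ hg hP (h (fun h0 => hg ((map_eq_zero_iff _ Φ.injective).1 h0)) _
    (by rw [eval_im', hP]))

theorem qp_desc (n : ℕ) (f : MvPolynomial (Fin n) k) (hf : f.totalDegree ≠ 0)
    (h1 : QP _ (addyz f)) (h2 : QP _ (addyz (addyz f))) : QP n f := fun _ P hP =>
  refPAt_desc (ne_of_deg hf) hP (h1 (addyz_ne f) _ (by rw [eval_ex0, hP]))
    (h2 (addyz_ne _) _ (by rw [eval_ex0, eval_ex0, hP]))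

/-- **Reduction to cubics**, local version with poles -/
theorem refP_cubic :
    (∀ (n : ℕ) (f : MvPolynomial (Fin n) k) (P : Fin n → k), f ≠ 0 → eval P f = 0 →
      RefPAt f P) ↔
    ∀ (n l : ℕ) (q : Fin l → MvPolynomial (Fin (n + 1)) k), (∀ j, (q j).totalDegree ≤ 2) →
      ∀ P : Fin (n + 1 + l) → k, eval P (cubic q) = 0 → RefPAt (cubic q) P := by
  refine ⟨fun h n l q _ P hP => h _ _ P (cubic_ne q) hP, fun h n f P hf hP => ?_⟩
  exact Pool.Agent.X271.RC.principle QP (fun a b Φ hab g hg => qp_iso hab Φ g hg)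
    (fun n f hf h1 h2 => qp_desc n f hf h1 h2) (fun n l q hq _ P hP => h n l q hq P hP) f
    (deg_of_zero hf hP) hf P hP

theorem refP_transfer {n : ℕ} (f : MvPolynomial (Fin n) k) (hf : f ≠ 0) (κ : ℕ)
    (Φ1 : MvPolynomial (Fin (n + (κ + κ))) k ≃ₐ[k] MvPolynomial (Fin (n + (κ + κ))) k)
    (Φ2 : MvPolynomial (Fin (n + (κ + 1 + (κ + 1)))) k ≃ₐ[k]
      MvPolynomial (Fin (n + (κ + 1 + (κ + 1)))) k)
    (h1 : ∀ P, eval P (Φ1 (stab f κ)) = 0 → RefPAt (Φ1 (stab f κ)) P)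
    (h2 : ∀ P, eval P (Φ2 (stab f (κ + 1))) = 0 → RefPAt (Φ2 (stab f (κ + 1))) P) :
    ∀ P, eval P f = 0 → RefPAt f P :=
  fun P hP => Pool.Agent.X271.RC.transfer QP (fun a b Φ hab g hg => qp_iso hab Φ g hg)
    (fun n f hf h1 h2 => qp_desc n f hf h1 h2) f (deg_of_zero hf hP) κ Φ1 Φ2
    (fun _ => h1) (fun _ => h2) hf P hP

end poles

end Pool.Agent.X271.LR
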