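import Pool.Agent.TH216.HD

set_option autoImplicit false

/-! Polynomials with generic coefficients at given exponents, in groups, and the condition on the
facets of one Newton polyhedron: definitions. -/

namespace Pool.Agent.X271.MD

open MvPolynomial Pool.Agent.TH216.HD

variable {r n N κ : ℕ}

/-- There is a variable `x_i` such that all facets with `|a| / N_a = σ` are simplices or B1 in the
direction `i`. -/
def LocC {R : Type} [CommRing R] (v : Fin r → Fin N → ℕ) (h : MvPolynomial (Fin N) R)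
    (σ : ℚ) : Prop :=
  ∃ i, ∀ a : Fin N → ℕ, IsRay v a → 0 < ordA v a → lev v a = σ → Simp v h a ∨ B1Dir v h i a

/-- Every `|a| / N_a`, `a` a ray of the normal fan with `N_a > 0`, comes from a facet or face which
contains a simplex which is not B1, or satisfies `LocC`. -/
def HypC {R : Type} [CommRing R] (v : Fin r → Fin N → ℕ) (h : MvPolynomial (Fin N) R) : Prop :=
  ∀ a : Fin N → ℕ, IsRay v a → 0 < ordA v a →
    (∃ a' : Fin N → ℕ, 0 < ordA v a' ∧ NonB1 v False a' ∧ lev v a = lev v a') ∨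
    LocC v h (lev v a)

/-- `f + ∑_i y_i z_i` in the variables `x, y, z` -/
noncomputable def stab {k : Type} [Field k] (f : MvPolynomial (Fin n) k) (κ : ℕ) :
    MvPolynomial (Fin (n + (κ + κ))) k :=
  rename (Fin.castAdd (κ + κ)) f +
    ∑ i : Fin κ, X (Fin.natAdd n (Fin.castAdd κ i)) * X (Fin.natAdd n (Fin.natAdd κ i))

/-- The exponents `m j` for `π j = 0` and `y_i m j` for `π j = i`, in the variables `x, y, z`; `m j` is an
exponent in the variables `x, z`. -/
def exps (π : Fin r → Fin (κ + 1)) (m : Fin r → Fin (n + κ) → ℕ) (j : Fin r) :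
    Fin (n + (κ + κ)) → ℕ :=
  Fin.append (fun i => m j (Fin.castAdd κ i)) (Fin.append
    (fun i : Fin κ => if π j = i.succ then 1 else 0) (fun i => m j (Fin.natAdd n i)))

/-- The exponent `w` is in the Newton polyhedron (convex hull plus positive orthant) of the `m j` with
`π j = i` or `π j = 0`. -/
def InPolyG (π : Fin r → Fin (κ + 1)) (m : Fin r → Fin n → ℕ) (i : Fin (κ + 1))
    (w : Fin n →₀ ℕ) : Prop :=
  ∃ l : Fin r → ℝ, (∀ j, 0 ≤ l j) ∧ ∑ j, l j = 1 ∧ (∀ j, l j ≠ 0 → π j = i ∨ π j = 0) ∧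
    ∀ x, ∑ j, l j * (m j x : ℝ) ≤ (w x : ℝ)

/-- `∑_{π j = i} a_j X ^ (m j) + H_i` -/
noncomputable def tup {k : Type} [Field k] (π : Fin r → Fin (κ + 1)) (m : Fin r → Fin n → ℕ)
    (a : Fin r → k) (H : Fin (κ + 1) → MvPolynomial (Fin n) k) (i : Fin (κ + 1)) :
    MvPolynomial (Fin n) k :=
  (∑ j with π j = i, C (a j) * ∏ x, X x ^ m j x) + H i

/-- the variables `x, z` among the variables `x, y, z` -/
def xz (i : Fin (n + κ)) : Fin (n + (κ + κ)) :=
  Fin.addCases (fun i => Fin.castAdd (κ + κ) i) (fun i => Fin.natAdd n (Fin.natAdd κ i)) i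

/-- `H_0 + ∑_i y_i H_i` in the variables `x, y, z` -/
noncomputable def sumH {k : Type} [Field k] (H : Fin (κ + 1) → MvPolynomial (Fin (n + κ)) k) :
    MvPolynomial (Fin (n + (κ + κ))) k :=
  rename xz (H 0) + ∑ i : Fin κ, X (Fin.natAdd n (Fin.castAdd κ i)) * rename xz (H i.succ)

end Pool.Agent.X271.MD
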