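import Pool.Agent.X271.GermEmb
import Pool.Agent.X271.MotDef
import Pool.Agent.TH216.LR.Lr8

set_option autoImplicit false
set_option linter.unusedVariables false
set_option linter.unusedSectionVars false

/-! Stably sparse germs: the theorems. -/

namespace Pool.Agent.X271.GE

open MvPolynomial Pool.Agent.W428.MOT Pool.Agent.W375.MG Pool.Agent.H628R4.TP
open Pool.Agent.X271.LR Pool.Agent.X271.RD
open Pool.Agent.W425.SM (Ind)
open Pool.Agent.Y229.MS (stabK addyz)
open Pool.Agent.W749.NM (zetaN)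

variable {k : Type} [Field k] [Algebra k ℂ] {n κ r : ℕ}

/-- the strong form from the refined property -/
theorem strong_of_ref0 {f : MvPolynomial (Fin n) k} (hf : f ≠ 0) (hf0 : constantCoeff f = 0)
    (h : Ref0 f) :
    ∃ S : Finset (ℤ × ℤ),
      (∀ p ∈ S, 0 < p.2 ∧ ∀ b : Polynomial ℂ, IsLocalBFunction (map (algebraMap k ℂ) f) b →
        b.eval ((p.1 : ℂ) / p.2) = 0) ∧
      ∀ (K : Type) [Field K] [Algebra k K], zetaN (map (algebraMap k K) f) 0 ∈ ratRing K S ∧
        ∀ E : Set (AlgebraicClosure K), Good E →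
          zetaG (map (algebraMap k K) f) {0} E ∈ ratRing K S := by
  classical
  obtain ⟨S, hS, hz⟩ := h
  have hP : eval (o0 k n) f = 0 := by
    rw [← hf0, ← const_trans (o0 k n) f, trans_o0]
  have hroot : ∀ p ∈ (insert (-1, 1) S : Finset (ℤ × ℤ)), 0 < p.2 ∧ ∀ b : Polynomial ℂ,
      IsLocalBFunction (map (algebraMap k ℂ) f) b → b.eval ((p.1 : ℂ) / p.2) = 0 := by
    intro p hp
    rcases Finset.mem_insert.1 hp with rfl | hp
    · refine ⟨by norm_num, fun b hb => ?_⟩
      have h1 := (rootL_of_red (P := o0 k n) hf hP (by rw [trans_o0]; exact hb)).1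
      have h6 : (((-1 : ℤ) : ℂ) / ((1 : ℤ) : ℂ)) = -1 := by norm_num
      simp only [h6]
      exact h1
    · exact ⟨(hS p hp).1, fun b hb =>
        (rootL_of_red (P := o0 k n) hf hP (by rw [trans_o0]; exact hb)).2 _ (hS p hp).2⟩
  have hzE : ∀ (K : Type) [Field K] [Algebra k K] (E : Set (AlgebraicClosure K)), Good E →
      zetaG (map (algebraMap k K) f) {0} E ∈
        ratRing K ((insert (-1, 1) S : Finset (ℤ × ℤ)) : Set (ℤ × ℤ)) := by
    intro K _ _ E hE
    have h1 := hz K E hE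
    rw [pt_o0] at h1
    have h2 := Pool.Agent.Y229.MS.zeta_of_fst _ _ _ _ h1
    rwa [Finset.coe_insert]
  exact ⟨insert (-1, 1) S, hroot, fun K _ _ => ⟨Pool.Agent.TH216.LR.zetaN_mem0 _ _
    (hzE K _ good_units), fun E hE => hzE K E hE⟩⟩

/-- the constant coefficient of a sum of monomials with units -/
theorem const_sum {N : ℕ} (v : Fin r → Fin N → ℕ) (U : Fin r → MvPowerSeries (Fin N) k) (j : Fin r)
    (hj : v j ≠ 0) :
    MvPowerSeries.constantCoeff (U j * ∏ i, MvPowerSeries.X i ^ v j i) = 0 := by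
  obtain ⟨x, hx⟩ : ∃ x, v j x ≠ 0 := by
    by_contra hcon
    push Not at hcon
    exact hj (funext hcon)
  rw [map_mul, map_prod, Finset.prod_eq_zero (Finset.mem_univ x), mul_zero]
  rw [map_pow, MvPowerSeries.constantCoeff_X, zero_pow hx]

theorem ind_inj {N : ℕ} {v : Fin r → Fin N → ℕ} (hv : Ind v) : Function.Injective v := by
  intro j j' h
  refine hv.injective ?_
  rw [h]

theorem exps_ne {N : ℕ} (v : Fin r → Fin N → ℕ) (hv : Ind v)
    (U : Fin r → MvPowerSeries (Fin N) k) (hU : ∀ j, MvPowerSeries.constantCoeff (U j) ≠ 0)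
    (h : MvPowerSeries.constantCoeff (∑ j, U j * ∏ i, MvPowerSeries.X i ^ v j i) = 0) :
    ∀ j, v j ≠ 0 := by
  classical
  intro j hj
  rw [map_sum, Finset.sum_eq_single j] at h
  · rw [hj] at h
    simp only [Pi.zero_apply, pow_zero, Finset.prod_const_one, mul_one] at h
    exact hU j h
  · intro j' _ hj'
    refine const_sum v U j' fun h0 => hj' (ind_inj hv ?_)
    rw [h0, hj]
  · intro h'
    exact absurd (Finset.mem_univ _) h'

theorem stabK_const {f : MvPolynomial (Fin n) k} (hf0 : constantCoeff f = 0) :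
    MvPowerSeries.constantCoeff ((stabK f κ : MvPolynomial (Fin (n + (κ + κ))) k) :
      MvPowerSeries (Fin (n + (κ + κ))) k) = 0 := by
  rw [← MvPowerSeries.coeff_zero_eq_constantCoeff_apply, MvPolynomial.coeff_coe,
    ← MvPolynomial.constantCoeff_eq]
  unfold stabK
  rw [map_add, constantCoeff_rename, hf0, map_sum, Finset.sum_eq_zero, add_zero]
  intro i _
  rw [map_mul, constantCoeff_X, zero_mul]

theorem eqvP_const {N : ℕ} {F G : MvPowerSeries (Fin N) k} (h : EqvP F G)
    (hF : MvPowerSeries.constantCoeff F = 0) : MvPowerSeries.constantCoeff G = 0 := by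
  obtain ⟨φ, u, hφ, hu, h1⟩ := h
  have h2 := congrArg MvPowerSeries.constantCoeff h1
  rw [const_subst hφ.zero, hF, map_mul] at h2
  have h3 := isUnit_iff_ne_zero.1 (MvPowerSeries.isUnit_iff_constantCoeff.1 hu)
  exact (mul_eq_zero.1 h2.symm).resolve_left h3

theorem eqvP_zero {N : ℕ} {F : MvPowerSeries (Fin N) k} (h : EqvP F 0) : F = 0 := by
  obtain ⟨φ, u, hφ, hu, h1⟩ := h.symm
  have hs := MvPowerSeries.hasSubst_of_constantCoeff_zero hφ.zero
  rw [← MvPowerSeries.coe_substAlgHom hs, map_zero] at h1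
  exact (hu.mul_right_eq_zero).1 h1.symm

/-- **Stably sparse germs.** -/
theorem sparse_germ (v : Fin r → Fin (n + (κ + κ)) → ℕ) (hv : Ind v)
    (U : Fin r → MvPowerSeries (Fin (n + (κ + κ))) k)
    (hU : ∀ j, MvPowerSeries.constantCoeff (U j) ≠ 0) {f : MvPolynomial (Fin n) k} (hf : f ≠ 0)
    (hf0 : constantCoeff f = 0)
    (h : EqvP ((stabK f κ : MvPolynomial (Fin (n + (κ + κ))) k) :
      MvPowerSeries (Fin (n + (κ + κ))) k) (∑ j, U j * ∏ i, MvPowerSeries.X i ^ v j i)) :
    Ref0 f := by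
  have hr : 1 ≤ r := by
    rcases Nat.eq_zero_or_pos r with rfl | hr
    · exfalso
      rw [Finset.univ_eq_empty, Finset.sum_empty] at h
      have h1 := eqvP_zero h
      refine Pool.Agent.X271.MG.stabK_ne (κ := κ) hf ?_
      exact MvPolynomial.coe_injective (σ := Fin (n + (κ + κ))) (R := k)
        (by rw [h1, MvPolynomial.coe_zero])
    · exact hr
  refine ref0_germ hr hf ?_ v hv (exps_ne v hv U hU (eqvP_const h (stabK_const hf0))) U hU h
  rw [← hf0, ← const_trans (o0 k n) f, trans_o0]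

/-- **Functions on smooth complete intersections.** -/
theorem emb_germ (π : Fin r → Fin (κ + 1)) (m : Fin r → Fin (n + κ) → ℕ)
    (hv : Ind (Pool.Agent.Y229.RE.ex π m))
    (U : Fin r → MvPowerSeries (Fin (n + κ)) k)
    (hU : ∀ j, MvPowerSeries.constantCoeff (U j) ≠ 0) (Φ : MvPowerSeries (Fin (n + κ)) k)
    (l : Fin κ → MvPowerSeries (Fin (n + κ)) k)
    (hΦ : Φ = ∑ j, if π j = 0 then U j * ∏ i, MvPowerSeries.X i ^ m j i else 0)
    (hl : ∀ i : Fin κ, l i =
      ∑ j, if π j = i.succ then U j * ∏ i, MvPowerSeries.X i ^ m j i else 0)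
    (hl0 : ∀ i, MvPowerSeries.constantCoeff (l i) = 0)
    (hdet : (Matrix.of fun i j => MvPowerSeries.coeff (Finsupp.single (Fin.natAdd n j) 1)
      (l i)).det ≠ 0)
    (hlin : ∀ j : Fin κ, MvPowerSeries.coeff (Finsupp.single (Fin.natAdd n j) 1) Φ = 0)
    {f : MvPolynomial (Fin n) k} (hf : f ≠ 0) (hf0 : constantCoeff f = 0)
    (hI : Φ - MvPowerSeries.rename (Fin.castAdd κ) (f : MvPowerSeries (Fin n) k) ∈
      Ideal.span (Set.range l)) : Ref0 f := by
  obtain ⟨q, hq⟩ := Ideal.mem_span_range_iff_exists_fun.1 hI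
  have hΦ' : Φ = MvPowerSeries.rename (Fin.castAdd κ) (f : MvPowerSeries (Fin n) k) +
      ∑ i, q i * l i := by
    rw [hq]
    ring
  have h1 := eqv_emb f Φ l q hl0 (q_zero f Φ l q hl0 hdet hΦ' hlin) hdet hΦ'
  rw [sum_ex π m U Φ l hΦ hl] at h1
  refine sparse_germ _ hv _ (fun j => ?_) hf hf0 h1
  rw [MvPowerSeries.constantCoeff_rename]
  exact hU j

end Pool.Agent.X271.GE
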