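import Pool.Agent.Y129.TB.Final

/-!
# The class of closed subsets of projective spaces generated by some operations
-/

set_option autoImplicit false

namespace Pool.Agent.X271.TQ

open MvPolynomial
open Pool.Agent.Y129.TA (TiltPair DimGE)
open Pool.Agent.Y129.TB (IsConeOver Approximable DimLEOver)

/-- The smallest class of closed subsets `X` of dimension `d` of the projective spaces over `C` (given by
the sets of the points of their cones) which contains the projective spaces and all `X` for which
Q1 is known, and which is closed under the operations of intersecting, of taking images and inverse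
images under maps given by forms over `K` of the same degree, of taking products, and of enlarging,
all with the expected dimensions. -/
inductive Generated {p : ℕ} {C F : Type} [Field C] [Field F] (T : TiltPair p C F) (K E : Type)
    [Field K] [Field E] [Algebra K C] [Algebra E F] :
    (n : ℕ) → Set (Fin (n + 1) → C) → ℕ → Prop
  /-- The projective space of dimension `n`. -/
  | space (n : ℕ) : Generated T K E n Set.univ n
  /-- Any closed `X`, defined over `K`, of dimension `d`, for which Q1 holds. -/
  | known {n d : ℕ} {X : Set (Fin (n + 1) → C)} : IsConeOver K X → DimGE X d →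
      DimLEOver K X d → Approximable T K E X d → Generated T K E n X d
  /-- A closed subset of dimension `d` which contains a given one. -/
  | super {n d : ℕ} {X X' : Set (Fin (n + 1) → C)} : Generated T K E n X d → X ⊆ X' →
      IsConeOver K X' → DimLEOver K X' d → Generated T K E n X' d
  /-- A proper intersection: the dimension of the intersection is at most `d₁ + d₂ - n`. -/
  | inter {n d₁ d₂ d : ℕ} {X₁ X₂ : Set (Fin (n + 1) → C)} : Generated T K E n X₁ d₁ →
      Generated T K E n X₂ d₂ → n + d ≤ d₁ + d₂ → DimLEOver K (X₁ ∩ X₂) d →
      Generated T K E n (X₁ ∩ X₂) d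
  /-- The image of `X` under forms `f i` over `K` of the same degree without common zero on `X`. -/
  | image {m n d e : ℕ} {X : Set (Fin (m + 1) → C)}
      (f : Fin (n + 1) → MvPolynomial (Fin (m + 1)) K) : 0 < e → (∀ i, (f i).IsHomogeneous e) →
      Generated T K E m X d → (∀ x ∈ X, (∀ i, aeval x (f i) = 0) → x = 0) →
      DimLEOver K {y : Fin (n + 1) → C | ∃ x ∈ X, ∀ i, y i = aeval x (f i)} d →
      Generated T K E n {y : Fin (n + 1) → C | ∃ x ∈ X, ∀ i, y i = aeval x (f i)} d
  /-- The inverse image of `X` under forms `f i` over `K` of the same degree, if its dimension is at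
  most the expected dimension `m + d - n`. -/
  | preimage {m n d d' e : ℕ} {X : Set (Fin (n + 1) → C)}
      (f : Fin (n + 1) → MvPolynomial (Fin (m + 1)) K) : 0 < e → (∀ i, (f i).IsHomogeneous e) →
      Generated T K E n X d → n + d' ≤ m + d →
      DimLEOver K {z : Fin (m + 1) → C | (fun i => aeval z (f i)) ∈ X} d' →
      Generated T K E m {z : Fin (m + 1) → C | (fun i => aeval z (f i)) ∈ X} d'
  /-- The product in the Segre embedding; `σ` is a numbering of the coordinates. -/
  | prod {n n₁ n₂ d₁ d₂ : ℕ} {X₁ : Set (Fin (n₁ + 1) → C)} {X₂ : Set (Fin (n₂ + 1) → C)}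
      (σ : Fin (n + 1) ≃ Fin (n₁ + 1) × Fin (n₂ + 1)) : Generated T K E n₁ X₁ d₁ →
      Generated T K E n₂ X₂ d₂ →
      Generated T K E n {y : Fin (n + 1) → C | ∃ x₁ ∈ X₁, ∃ x₂ ∈ X₂,
        ∀ i, y i = x₁ (σ i).1 * x₂ (σ i).2} (d₁ + d₂)

end Pool.Agent.X271.TQ
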