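import Pool.Agent.X271.TqCls
import Pool.Agent.X271.TqFam

/-!
# Q1 for the generated class
-/

set_option autoImplicit false

namespace Pool.Agent.X271.TQ

open MvPolynomial
open Pool.Agent.Y129.TA (TiltPair Tilting DimGE)
open Pool.Agent.Y129.TB (IsConeOver Approximable DimLEOver BaseField)

theorem Generated.good {p : ℕ} [Fact p.Prime] {C F K E : Type} [Field C] [Field F] [CharP F p]
    [Field K] [Field E] [Algebra K C] [Algebra E F] [IsAlgClosed C] [IsAlgClosed F]
    (T : Tilting p C F) (B : BaseField T K E) {n d : ℕ} {X : Set (Fin (n + 1) → C)}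
    (h : Generated T.toTiltPair K E n X d) : Good T.toTiltPair K E X d := by
  induction h with
  | space n => exact Good.univ T B n
  | known h1 h2 h3 h4 => exact ⟨h1, h2, h3, h4⟩
  | super _ h1 h2 h3 ih => exact Good.super ih h1 h2 h3
  | inter _ _ h1 h2 ih₁ ih₂ => exact Good.inter T B ih₁ ih₂ h1 h2
  | image f he hf _ h0 hle ih => exact Good.image T B ih f he hf h0 hle
  | preimage f he hf _ hd hle ih => exact Good.preimage T B ih f he hf hd hle
  | prod σ _ _ ih₁ ih₂ => exact Good.prod T B σ ih₁ ih₂

end Pool.Agent.X271.TQ
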