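import Pool.Agent.X271.RefDef
import Pool.Agent.H628R4.TP.LocDefs

set_option autoImplicit false

/-! The refined local motivic monodromy property at a point: definitions. -/

namespace Pool.Agent.X271.RD

open MvPolynomial Pool.Agent.W428.MOT

/-- `f(x + P)` -/
noncomputable def trans {k : Type} [Field k] {n : ℕ} (P : Fin n → k) :
    MvPolynomial (Fin n) k →ₐ[k] MvPolynomial (Fin n) k :=
  aeval fun i => X i + C (P i)

/-- `s` is a root of every polynomial `c` for which `(s + 1) c(s)` satisfies a local functional equation
`(s + 1) c(s) f ^ s = P(s) f ^ (s + 1)` at the point `P` (with formal power series in `x - P` as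
coefficients); for `f ≠ 0`, `f(P) = 0`: `s` is a root of `b_{f,P}(s) / (s + 1)`. -/
def RedRootL {k : Type} [Field k] [Algebra k ℂ] {n : ℕ} (f : MvPolynomial (Fin n) k)
    (P : Fin n → k) (s : ℂ) : Prop :=
  ∀ c : Polynomial ℂ, Pool.Agent.H628R4.TP.IsLocalBFunction (map (algebraMap k ℂ) (trans P f))
    ((Polynomial.X + 1) * c) → c.eval s = 0

/-- the point `P ∈ k ^ n` as a point over the algebraic closure of `K` -/
noncomputable def pt {k : Type} [Field k] (K : Type) [Field K] [Algebra k K] {n : ℕ}
    (P : Fin n → k) : Pt K (Fin n) :=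
  fun i => algebraMap K (AlgebraicClosure K) (algebraMap k K (P i))

end Pool.Agent.X271.RD
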