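import Pool.Agent.X271.LocRel
import Pool.Agent.X271.LocDef
import Pool.Agent.X271.MotMainL

set_option autoImplicit false

/-! Refined local motivic monodromy properties: descent and reduction to cubics. -/

namespace Pool.Agent.X271.LR

open MvPolynomial Pool.Agent.W428.MOT Pool.Agent.H628R4.TP
open Pool.Agent.W375.MG (JetG zetaG Good ratRing_mono zetaOrd zetaOrd_eq IsPole good_units)
open Pool.Agent.Y229.MS
open Pool.Agent.W63.MTFin (mapMeas X_mem C_mem L_mul)
open Pool.Agent.X271.RD (fac cubic trans RedRootL pt)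
open Pool.Agent.X271.RC (map_addyz mem_shn div_shift pole_iff cubic_deg)
open Pool.Agent.Z864.MS (three)

section step
variable {K : Type} [Field K] {n : ℕ}

/-- **One step, at the points with `y = z = 0`.** -/
theorem stepL [CharZero K] (f : MvPolynomial (Fin n) K) {W : Set (Pt K (Fin n))} (hW : Constr W)
    (hf : Zr f W) {E : Set (AlgebraicClosure K)} (hE : CE E) (hE0 : (0 : AlgebraicClosure K) ∉ E)
    {S1 S2 : Set (ℤ × ℤ)} (hS1 : ∀ p ∈ S1, 0 < p.2) (hS2 : ∀ p ∈ S2, 0 < p.2)
    (hz1 : fac K * zetaG (addyz f) (W0 W) E ∈ ratRing K S1)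
    (hz2 : fac K * zetaG (addyz (addyz f)) (W0 (W0 W)) E ∈ ratRing K S2) :
    fac K * zetaG f W E ∈ ratRing K (shn 1 S1 ∪ shn 2 S2) := by
  obtain ⟨M₀, hM₀⟩ := Pool.Agent.W417.MT.K0.main K
  set M := mapMeas M₀ (algebraMap (K0 K) (MK K)) with hM
  set Y : MK K := (((Lu K)⁻¹ : (MK K)ˣ) : MK K) with hY
  have hL : M.L * Y = 1 := L_mul hM₀
  have hML : M.L = ((Lu K : (MK K)ˣ) : MK K) := by
    have h2 : ((Lu K : (MK K)ˣ) : MK K) * Y = 1 := Units.mul_inv _
    calc M.L = M.L * (((Lu K : (MK K)ˣ) : MK K) * Y) := by rw [h2, mul_one]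
      _ = (M.L * Y) * ((Lu K : (MK K)ˣ) : MK K) := by ring
      _ = _ := by rw [hL, one_mul]
  have hz : ∀ {a : ℕ} (g : MvPolynomial (Fin a) K) (V : Set (Pt K (Fin a))),
      zetaG g V E = zs M Y g V E := by
    intro a g V
    ext N
    rw [zetaG, zs, PowerSeries.coeff_mk, PowerSeries.coeff_mk, zpow_neg, zpow_natCast, ← inv_pow,
      Units.val_pow_eq_pow_val, ← hM₀]
    rfl
  have r0 := rel1 M Y hL f hW hf hE hE0
  have r1 := rel1 M Y hL (addyz f) (constr_W0 hW) (zr_W0 hf) hE hE0
  have r2 := rel2 M Y hL f hW hf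
  generalize M.χ (Fin 1) {a | a 0 ∈ E} * (M.L - 1) = e at r0 r1
  have hre : PowerSeries.rescale M.L (PowerSeries.C (wt M f W) * (1 + PowerSeries.X)) =
      PowerSeries.C (wt M f W) * (1 + PowerSeries.C M.L * PowerSeries.X) := by
    rw [map_mul, rescale_C', map_add, map_one, rescale_X']
  have hps := pl_mul M Y f W
  have hps1 := pl_mul M Y (addyz f) (W0 W)
  rw [wt_W0 M f hW] at hps1
  have key := elim M.L Y hL (zs M Y f W E) (zs M Y (addyz f) (W0 W) E)
    (zs M Y (addyz (addyz f)) (W0 (W0 W)) E)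
    (PowerSeries.C e * (phiS M Y f W - PowerSeries.C (wt M f W) * (1 + PowerSeries.X)))
    (PowerSeries.C e * (phiS M Y (addyz f) (W0 W) -
      PowerSeries.C (wt M f W) * (1 + PowerSeries.X)))
    (by
      rw [r0]
      linear_combination (PowerSeries.C e) * hps)
    (by
      rw [r1]
      linear_combination (PowerSeries.C e) * hps1)
    (by
      rw [map_mul, rescale_C', map_sub, r2, hre]
      linear_combination (PowerSeries.C e * (PowerSeries.C M.L * PowerSeries.C M.L -
        PowerSeries.C M.L * PowerSeries.X)) * hps)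
  have hfac : fac K = 1 - PowerSeries.C Y * PowerSeries.X := rfl
  rw [hz, hfac] at hz1 hz2 ⊢
  rw [key, hML]
  have h22 : shn 1 (shn 1 S2) = shn 2 S2 := shn_shn 1 1 S2
  have m1 : PowerSeries.rescale ((Lu K : (MK K)ˣ) : MK K)
      ((1 - PowerSeries.C Y * PowerSeries.X) * zs M Y (addyz f) (W0 W) E) ∈
      ratRing K (shn 1 S1 ∪ shn 2 S2) :=
    ratRing_mono Set.subset_union_left (rescale_mem hS1 hz1)
  have m2 : PowerSeries.rescale ((Lu K : (MK K)ˣ) : MK K)
      (PowerSeries.rescale ((Lu K : (MK K)ˣ) : MK K)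
        ((1 - PowerSeries.C Y * PowerSeries.X) * zs M Y (addyz (addyz f)) (W0 (W0 W)) E)) ∈
      ratRing K (shn 1 S1 ∪ shn 2 S2) := by
    rw [← h22]
    exact ratRing_mono Set.subset_union_right (rescale_mem (shn_pos hS2) (rescale_mem hS2 hz2))
  exact (ratRing K _).mul_mem (C_mem _ _) ((ratRing K _).sub_mem ((ratRing K _).mul_mem
    ((ratRing K _).add_mem ((ratRing K _).mul_mem (C_mem _ _) (C_mem _ _)) (C_mem _ _)) m1) m2)

end step

/-! ### Points -/

section points
variable {k : Type} [Field k] {n : ℕ}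

/-- the point `(P, 0, 0)` -/
def ex0 (P : Fin n → k) : Fin (n + 2) → k := Fin.append P fun _ => 0

theorem w0_pt (K : Type) [Field K] [Algebra k K] (P : Fin n → k) :
    W0 ({pt K P} : Set (Pt K (Fin n))) = {pt K (ex0 P)} := by
  ext w
  simp only [W0, Set.mem_ofPred_eq, Set.mem_singleton_iff]
  constructor
  · rintro ⟨h1, h2, h3⟩
    funext i
    refine Fin.addCases (fun i => ?_) (fun i => ?_) i
    · rw [pt, ex0, Fin.append_left]
      exact congrFun h1 i
    · rw [pt, ex0, Fin.append_right, map_zero, map_zero]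
      fin_cases i
      · exact h2
      · exact h3
  · rintro rfl
    refine ⟨?_, ?_, ?_⟩
    · funext i
      rw [pt, ex0, Fin.append_left]
      rfl
    · rw [pt, ex0, Fin.append_right, map_zero, map_zero]
    · rw [pt, ex0, Fin.append_right, map_zero, map_zero]

theorem constr_pt' (K : Type) [Field K] [Algebra k K] (P : Fin n → k) :
    Constr ({pt K P} : Set (Pt K (Fin n))) :=
  Pool.Agent.W425.MM.constr_pt (K := K) fun i => algebraMap k K (P i)

theorem aeval_pt (K : Type) [Field K] [Algebra k K] (P : Fin n → k) (g : MvPolynomial (Fin n) k) :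
    aeval (pt K P) (map (algebraMap k K) g) =
      algebraMap K (AlgebraicClosure K) (algebraMap k K (eval P g)) := by
  induction g using MvPolynomial.induction_on with
  | C a => rw [map_C, eval_C, ← algebraMap_eq, AlgHom.commutes]
  | add p q hp hq => rw [map_add, map_add, hp, hq, map_add, map_add, map_add]
  | mul_X p i hp =>
    rw [map_mul, map_mul, hp, map_X, aeval_X, map_mul, eval_X, map_mul, map_mul]
    rfl

theorem zr_pt (K : Type) [Field K] [Algebra k K] {P : Fin n → k} {g : MvPolynomial (Fin n) k}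
    (h : eval P g = 0) : Zr (map (algebraMap k K) g) ({pt K P} : Set (Pt K (Fin n))) := by
  rintro w hw
  rw [Set.mem_singleton_iff] at hw
  rw [hw, aeval_pt, h, map_zero, map_zero]

theorem eval_ex0 (P : Fin n → k) (f : MvPolynomial (Fin n) k) :
    eval (ex0 P) (addyz f) = eval P f := by
  unfold addyz
  rw [map_add, map_mul, eval_X, eval_X, eval_rename]
  have h1 : ex0 P ∘ Fin.castAdd 2 = P := by
    funext i
    rw [Function.comp_apply, ex0, Fin.append_left]
  rw [h1, ex0, Fin.append_right, zero_mul, add_zero]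

theorem trans_X (P : Fin n → k) (i : Fin n) : trans P (X i) = X i + C (P i) := aeval_X _ _

theorem const_trans (P : Fin n → k) (f : MvPolynomial (Fin n) k) :
    constantCoeff (trans P f) = eval P f := by
  induction f using MvPolynomial.induction_on with
  | C a => rw [← algebraMap_eq, AlgHom.commutes, algebraMap_eq, constantCoeff_C, eval_C]
  | add p q hp hq => rw [map_add, map_add, hp, hq, map_add]
  | mul_X p i hp =>
    rw [map_mul, map_mul, hp, trans_X, map_add, constantCoeff_X, constantCoeff_C, zero_add, map_mul,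
      eval_X]

theorem trans_trans (P Q : Fin n → k) (f : MvPolynomial (Fin n) k) :
    trans P (trans Q f) = trans (fun i => P i + Q i) f := by
  induction f using MvPolynomial.induction_on with
  | C a => rw [← algebraMap_eq, AlgHom.commutes, AlgHom.commutes, AlgHom.commutes]
  | add p q hp hq => rw [map_add, map_add, hp, hq, map_add]
  | mul_X p i hp =>
    rw [map_mul, map_mul, hp, map_mul, trans_X, trans_X, map_add, trans_X]
    have : trans P (C (Q i) : MvPolynomial (Fin n) k) = C (Q i) := by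
      rw [← algebraMap_eq, AlgHom.commutes]
    rw [this, map_add, add_assoc]

theorem trans_zero (f : MvPolynomial (Fin n) k) : trans (fun _ => (0 : k)) f = f := by
  have h : (trans (fun _ => (0 : k)) : MvPolynomial (Fin n) k →ₐ[k] _) = AlgHom.id k _ := by
    apply MvPolynomial.algHom_ext
    intro i
    rw [trans_X, C_0, add_zero, AlgHom.id_apply]
  rw [h]
  rfl

/-- the translation as an automorphism -/
noncomputable def transE (P : Fin n → k) : MvPolynomial (Fin n) k ≃ₐ[k] MvPolynomial (Fin n) k :=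
  AlgEquiv.ofAlgHom (trans P) (trans fun i => -P i)
    (by
      apply MvPolynomial.algHom_ext
      intro i
      rw [AlgHom.comp_apply, trans_trans]
      simp only [add_neg_cancel]
      rw [trans_zero, AlgHom.id_apply])
    (by
      apply MvPolynomial.algHom_ext
      intro i
      rw [AlgHom.comp_apply, trans_trans]
      simp only [neg_add_cancel]
      rw [trans_zero, AlgHom.id_apply])

theorem transE_apply (P : Fin n → k) (f : MvPolynomial (Fin n) k) : transE P f = trans P f := rfl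

theorem trans_ne {P : Fin n → k} {f : MvPolynomial (Fin n) k} (hf : f ≠ 0) : trans P f ≠ 0 := by
  intro h
  apply hf
  have h1 : transE P f = 0 := h
  exact (map_eq_zero_iff _ (transE P).injective).1 h1

theorem trans_addyz (P : Fin n → k) (f : MvPolynomial (Fin n) k) :
    trans (ex0 P) (addyz f) = addyz (trans P f) := by
  unfold addyz
  rw [map_add, map_mul, trans_X, trans_X]
  have h1 : ex0 P (Fin.natAdd n 0) = 0 := by rw [ex0, Fin.append_right]
  have h2 : ex0 P (Fin.natAdd n 1) = 0 := by rw [ex0, Fin.append_right]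
  rw [h1, h2, C_0, add_zero, add_zero]
  congr 1
  have h3 : ∀ g : MvPolynomial (Fin n) k, trans (ex0 P) (rename (Fin.castAdd 2) g) =
      rename (Fin.castAdd 2) (trans P g) := by
    intro g
    induction g using MvPolynomial.induction_on with
    | C a => rw [rename_C, ← algebraMap_eq, ← algebraMap_eq, AlgHom.commutes, AlgHom.commutes,
        algebraMap_eq, algebraMap_eq, rename_C]
    | add p q hp hq => rw [map_add, map_add, hp, hq, map_add, map_add]
    | mul_X p i hp =>
      rw [map_mul, map_mul, hp, rename_X, trans_X, map_mul, trans_X, map_mul, map_add, rename_X,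
        rename_C, ex0, Fin.append_left]
  exact h3 f

end points

/-! ### Roots -/

section roots
variable {k : Type} [Field k] [Algebra k ℂ]

theorem stab_one {n : ℕ} (f : MvPolynomial (Fin n) ℂ) :
    Pool.Agent.Y229.RE.stab f 1 = addyz f := by
  unfold Pool.Agent.Y229.RE.stab addyz
  rw [Fin.sum_univ_one]
  rfl

theorem redRootL_addyz {n : ℕ} {f : MvPolynomial (Fin n) k} {P : Fin n → k} (hf : f ≠ 0)
    (hP : eval P f = 0) {s : ℂ} (h : RedRootL (addyz f) (ex0 P) s) : RedRootL f P (s + 1) := by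
  intro c hc
  set F := map (algebraMap k ℂ) (trans P f) with hF
  have hF1 : F ≠ 0 := fun h0 => trans_ne (P := P) hf
    (map_injective _ (algebraMap k ℂ).injective (by rw [map_zero]; exact h0))
  have hF2 : constantCoeff F = 0 := by rw [hF, constantCoeff_map, const_trans, hP, map_zero]
  have h1 := (Pool.Agent.X271.MG.loc_becomes (κ := 1) (G := AlgEquiv.refl
    (Pool.Agent.Y229.RE.stab F 1)) hF1 hF2 hc
    (Pool.Agent.X271.MG.becomes_of_aut (κ := 1) F AlgEquiv.refl (fun i => constantCoeff_X ℂ i))).2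
    c rfl
  have h2 : (AlgEquiv.refl (R := ℂ) (Pool.Agent.Y229.RE.stab F 1)) =
      map (algebraMap k ℂ) (trans (ex0 P) (addyz f)) := by
    rw [trans_addyz, map_addyz]
    exact stab_one F
  rw [h2] at h1
  have h3 := h _ h1
  rw [Polynomial.eval_comp] at h3
  simpa using h3

theorem loc_iso {n : ℕ} {F : MvPolynomial (Fin n) ℂ} (hF : F ≠ 0) (hF0 : constantCoeff F = 0)
    (ψ : MvPolynomial (Fin n) ℂ ≃ₐ[ℂ] MvPolynomial (Fin n) ℂ)
    (h0 : ∀ i, constantCoeff (ψ (X i)) = 0) {c : Polynomial ℂ}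
    (hc : IsLocalBFunction F ((Polynomial.X + 1) * c)) :
    IsLocalBFunction (ψ F) ((Polynomial.X + 1) * c) := by
  have e1 : Pool.Agent.Y229.RE.stab F 0 = F := by
    unfold Pool.Agent.Y229.RE.stab
    rw [Fin.sum_univ_zero]
    exact (add_zero _).trans (rename_id_apply F)
  have h1 := (Pool.Agent.X271.MG.loc_becomes (κ := 0) (G := ψ (Pool.Agent.Y229.RE.stab F 0))
    hF hF0 hc (Pool.Agent.X271.MG.becomes_of_aut (κ := 0) F ψ h0)).2 c rfl
  rw [e1] at h1
  have h2 : c.comp (Polynomial.X + Polynomial.C ((0 : ℕ) : ℂ)) = c := by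
    rw [Nat.cast_zero, Polynomial.C_0, add_zero, Polynomial.comp_X]
  rwa [h2] at h1

/-- the image of a point under an isomorphism -/
noncomputable def im {a b : ℕ} (Φ : MvPolynomial (Fin a) k ≃ₐ[k] MvPolynomial (Fin b) k) (P : Fin a → k)
    (j : Fin b) : k := eval P (Φ.symm (X j))

theorem eval_im {a b : ℕ} (Φ : MvPolynomial (Fin a) k ≃ₐ[k] MvPolynomial (Fin b) k)
    (P : Fin a → k) (g : MvPolynomial (Fin b) k) : eval (im Φ P) g = eval P (Φ.symm g) := by
  induction g using MvPolynomial.induction_on with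
  | C c => rw [eval_C, ← algebraMap_eq, AlgEquiv.commutes, algebraMap_eq, eval_C]
  | add p q hp hq => rw [map_add, map_add, hp, hq, map_add]
  | mul_X p i hp => rw [map_mul, map_mul, hp, map_mul, eval_X]; rfl

theorem eval_im' {a b : ℕ} (Φ : MvPolynomial (Fin a) k ≃ₐ[k] MvPolynomial (Fin b) k)
    (P : Fin a → k) (g : MvPolynomial (Fin a) k) : eval (im Φ P) (Φ g) = eval P g := by
  rw [eval_im, AlgEquiv.symm_apply_apply]

theorem redRootL_iso {a b : ℕ} (hab : a = b)
    (Φ : MvPolynomial (Fin a) k ≃ₐ[k] MvPolynomial (Fin b) k) {g : MvPolynomial (Fin a) k}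
    {P : Fin a → k} (hg : g ≠ 0) (hP : eval P g = 0) {s : ℂ}
    (h : RedRootL (Φ g) (im Φ P) s) : RedRootL g P s := by
  subst hab
  intro c hc
  set ψ : MvPolynomial (Fin a) k ≃ₐ[k] MvPolynomial (Fin a) k :=
    ((transE P).symm.trans Φ).trans (transE (im Φ P)) with hψ
  have h1 : ψ (trans P g) = trans (im Φ P) (Φ g) := by
    show transE (im Φ P) (Φ ((transE P).symm (transE P g))) = _
    rw [AlgEquiv.symm_apply_apply]
    rfl
  have h2 : ∀ i, constantCoeff (ψ (X i)) = 0 := by
    intro i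
    show constantCoeff (trans (im Φ P) (Φ ((transE P).symm (X i)))) = 0
    rw [const_trans, eval_im']
    have h3 : (transE P).symm (X i) = trans (fun i => -P i) (X i) := rfl
    rw [h3, trans_X, map_add, eval_X, eval_C, add_neg_cancel]
  obtain ⟨ψ', hψ'⟩ := Pool.Agent.Y405.MS.bc k ℂ ψ
  refine h c ?_
  rw [← h1, ← hψ']
  refine loc_iso (fun h0 => trans_ne (P := P) hg
    (map_injective _ (algebraMap k ℂ).injective (by rw [map_zero]; exact h0))) ?_ ψ' ?_ hc
  · rw [constantCoeff_map, const_trans, hP, map_zero]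
  · intro i
    have h3 := hψ' (X i)
    rw [map_X] at h3
    rw [h3, constantCoeff_map, h2, map_zero]

/-- roots of the reduced polynomial and roots -/
theorem rootL_of_red {n : ℕ} {f : MvPolynomial (Fin n) k} {P : Fin n → k} (hf : f ≠ 0)
    (hP : eval P f = 0) {b : Polynomial ℂ}
    (hb : IsLocalBFunction (map (algebraMap k ℂ) (trans P f)) b) :
    b.eval (-1) = 0 ∧ ∀ s : ℂ, RedRootL f P s → b.eval s = 0 := by
  set F := map (algebraMap k ℂ) (trans P f) with hF
  have hF1 : F ≠ 0 := fun h0 => trans_ne (P := P) hf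
    (map_injective _ (algebraMap k ℂ).injective (by rw [map_zero]; exact h0))
  have hF2 : constantCoeff F = 0 := by rw [hF, constantCoeff_map, const_trans, hP, map_zero]
  have h1 := (Pool.Agent.X271.MG.loc_becomes (κ := 1) (G := AlgEquiv.refl
    (Pool.Agent.Y229.RE.stab F 1)) hF1 hF2 hb
    (Pool.Agent.X271.MG.becomes_of_aut (κ := 1) F AlgEquiv.refl (fun i => constantCoeff_X ℂ i))).1
  refine ⟨h1, fun s hs => ?_⟩
  obtain ⟨c, hc⟩ : (Polynomial.X + 1 : Polynomial ℂ) ∣ b := by
    have := Polynomial.dvd_iff_isRoot.2 h1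
    simpa using this
  rw [hc, Polynomial.eval_mul, hs c (hc ▸ hb), mul_zero]

end roots

/-! ### Zeta functions -/

section zeta
variable {k : Type} [Field k]

theorem zisoL {K : Type} [Field K] [CharZero K] [Algebra k K] {a b : ℕ} (hab : a = b)
    (Φ : MvPolynomial (Fin a) k ≃ₐ[k] MvPolynomial (Fin b) k) (g : MvPolynomial (Fin a) k)
    (P : Fin a → k) {E : Set (AlgebraicClosure K)} (hE : CE E) (S : Set (ℤ × ℤ))
    (h : fac K * zetaG (map (algebraMap k K) (Φ g))
      {pt K fun j => eval P (Φ.symm (X j))} E ∈ ratRing K S) :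
    fac K * zetaG (map (algebraMap k K) g) {pt K P} E ∈ ratRing K S := by
  obtain ⟨ψ, hψ⟩ := Pool.Agent.Y405.MS.bc k K Φ
  have h1 := zeta_iso three hab ψ (map (algebraMap k K) g) (constr_pt' K P) hE
  have h2 : {w : Pt K (Fin b) | (fun i => aeval w (ψ (X i))) ∈
      ({pt K P} : Set (Pt K (Fin a)))} = {pt K fun j => eval P (Φ.symm (X j))} := by
    have hX : ∀ i, ψ (X i) = map (algebraMap k K) (Φ (X i)) := by
      intro i
      rw [← hψ, map_X]
    ext w
    simp only [Set.mem_ofPred_eq, Set.mem_singleton_iff]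
    constructor
    · intro hw
      have h3 : ∀ p : MvPolynomial (Fin a) k, aeval w (map (algebraMap k K) (Φ p)) =
          aeval (pt K P) (map (algebraMap k K) p) := by
        intro p
        induction p using MvPolynomial.induction_on with
        | C c =>
          have e1 : Φ (C c) = C c := by
            rw [← algebraMap_eq, AlgEquiv.commutes, algebraMap_eq]
          rw [e1, map_C, map_C, ← algebraMap_eq, AlgHom.commutes, ← algebraMap_eq,
            AlgHom.commutes]
        | add p q hp hq => rw [map_add, map_add, map_add, hp, hq, map_add, map_add]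
        | mul_X p i hp =>
          rw [map_mul, map_mul, map_mul, hp, map_mul, map_mul, map_X, aeval_X, ← hX]
          rw [← congrFun hw i]
      funext j
      have h4 := h3 (Φ.symm (X j))
      rw [AlgEquiv.apply_symm_apply, map_X, aeval_X, aeval_pt] at h4
      exact h4
    · rintro rfl
      funext i
      rw [hX, aeval_pt]
      have h5 : eval (fun j => eval P (Φ.symm (X j))) (Φ (X i)) = P i := by
        have h6 : ∀ g : MvPolynomial (Fin b) k,
            eval (fun j => eval P (Φ.symm (X j))) g = eval P (Φ.symm g) := by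
          intro g
          induction g using MvPolynomial.induction_on with
          | C c => rw [eval_C, ← algebraMap_eq, AlgEquiv.commutes, algebraMap_eq, eval_C]
          | add p q hp hq => rw [map_add, map_add, hp, hq, map_add]
          | mul_X p i hp => rw [map_mul, map_mul, hp, map_mul, eval_X]
        rw [h6, AlgEquiv.symm_apply_apply, eval_X]
      rw [h5]
      rfl
  rw [h2, hψ] at h1
  rw [← h1]
  exact h

theorem zdescL {K : Type} [Field K] [CharZero K] [Algebra k K] {n : ℕ}
    (f : MvPolynomial (Fin n) k) {P : Fin n → k} (hP : eval P f = 0)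
    {E : Set (AlgebraicClosure K)} (hE : CE E) (hE0 : (0 : AlgebraicClosure K) ∉ E)
    (S1 S2 : Set (ℤ × ℤ)) (hS1 : ∀ p ∈ S1, 0 < p.2) (hS2 : ∀ p ∈ S2, 0 < p.2)
    (h1 : fac K * zetaG (map (algebraMap k K) (addyz f)) {pt K (ex0 P)} E ∈ ratRing K S1)
    (h2 : fac K * zetaG (map (algebraMap k K) (addyz (addyz f))) {pt K (ex0 (ex0 P))} E ∈
      ratRing K S2) :
    fac K * zetaG (map (algebraMap k K) f) {pt K P} E ∈ ratRing K (shn 1 S1 ∪ shn 2 S2) := by
  refine stepL _ (constr_pt' K P) (zr_pt K hP) hE hE0 hS1 hS2 ?_ ?_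
  · rw [w0_pt, ← map_addyz]
    exact h1
  · rw [w0_pt, w0_pt, ← map_addyz, ← map_addyz]
    exact h2

end zeta

/-! ### Version with finite sets -/

section ring
variable {k : Type} [Field k] [Algebra k ℂ]

/-- the refined local property at `P`; `𝒦` selects the fields and the conditions on the leading
coefficients -/
def RefAt (𝒦 : ∀ (K : Type) [Field K] [Algebra k K], Set (AlgebraicClosure K) → Prop) {n : ℕ}
    (f : MvPolynomial (Fin n) k) (P : Fin n → k) : Prop :=
  ∃ S : Finset (ℤ × ℤ), (∀ p ∈ S, 0 < p.2 ∧ RedRootL f P ((p.1 : ℂ) / p.2)) ∧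
    ∀ (K : Type) [Field K] [Algebra k K] (E : Set (AlgebraicClosure K)), 𝒦 K E →
      fac K * zetaG (map (algebraMap k K) f) {pt K P} E ∈ ratRing K S

/-- at all zeros in `k ^ n` -/
def RefZ (𝒦 : ∀ (K : Type) [Field K] [Algebra k K], Set (AlgebraicClosure K) → Prop) (n : ℕ)
    (f : MvPolynomial (Fin n) k) : Prop := ∀ P : Fin n → k, eval P f = 0 → RefAt 𝒦 f P

variable {𝒦 : ∀ (K : Type) [Field K] [Algebra k K], Set (AlgebraicClosure K) → Prop}

theorem refAt_iso (h𝒦 : ∀ (K : Type) [Field K] [Algebra k K] (E : Set (AlgebraicClosure K)),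
      𝒦 K E → Good E)
    {a b : ℕ} (hab : a = b) (Φ : MvPolynomial (Fin a) k ≃ₐ[k] MvPolynomial (Fin b) k)
    {g : MvPolynomial (Fin a) k} (hg : g ≠ 0) {P : Fin a → k} (hP : eval P g = 0)
    (h : RefAt 𝒦 (Φ g) (im Φ P)) : RefAt 𝒦 g P := by
  have hkc : CharZero k := RingHom.charZero (algebraMap k ℂ)
  obtain ⟨S, hS, hz⟩ := h
  refine ⟨S, fun p hp => ⟨(hS p hp).1, redRootL_iso hab Φ hg hP (hS p hp).2⟩,
    fun K _ _ E hE => ?_⟩
  have hK : CharZero K := charZero_of_injective_algebraMap (algebraMap k K).injective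
  exact zisoL hab Φ g P (ce_good (h𝒦 K E hE)) S (hz K E hE)

theorem addyz_ne {n : ℕ} (f : MvPolynomial (Fin n) k) : addyz f ≠ 0 := fun h =>
  Pool.Agent.X271.RC.addyz_deg f (by rw [h, totalDegree_zero])

theorem refAt_desc (h𝒦 : ∀ (K : Type) [Field K] [Algebra k K] (E : Set (AlgebraicClosure K)),
      𝒦 K E → Good E)
    {n : ℕ} {f : MvPolynomial (Fin n) k} (hf : f ≠ 0) {P : Fin n → k} (hP : eval P f = 0)
    (h1 : RefAt 𝒦 (addyz f) (ex0 P)) (h2 : RefAt 𝒦 (addyz (addyz f)) (ex0 (ex0 P))) :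
    RefAt 𝒦 f P := by
  classical
  have hkc : CharZero k := RingHom.charZero (algebraMap k ℂ)
  obtain ⟨S1, hS1, hz1⟩ := h1
  obtain ⟨S2, hS2, hz2⟩ := h2
  refine ⟨S1.image (fun q : ℤ × ℤ => (q.1 + ((1 : ℕ) : ℤ) * q.2, q.2)) ∪
    S2.image (fun q : ℤ × ℤ => (q.1 + ((2 : ℕ) : ℤ) * q.2, q.2)), fun p hp => ?_,
    fun K _ _ E hE => ?_⟩
  · rcases Finset.mem_union.1 hp with hp | hp
    · obtain ⟨q, hq, rfl⟩ := Finset.mem_image.1 hp
      refine ⟨(hS1 q hq).1, ?_⟩
      rw [div_shift (hS1 q hq).1, Nat.cast_one]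
      exact redRootL_addyz hf hP (hS1 q hq).2
    · obtain ⟨q, hq, rfl⟩ := Finset.mem_image.1 hp
      refine ⟨(hS2 q hq).1, ?_⟩
      rw [div_shift (hS2 q hq).1, show (((2 : ℕ) : ℂ)) = 1 + 1 by norm_num, ← add_assoc]
      exact redRootL_addyz hf hP (redRootL_addyz (addyz_ne f) (by rw [eval_ex0, hP])
        (hS2 q hq).2)
  · have hK : CharZero K := charZero_of_injective_algebraMap (algebraMap k K).injective
    refine ratRing_mono ?_ (zdescL f hP (ce_good (h𝒦 K E hE)) (h𝒦 K E hE).zero S1 S2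
      (fun p hp => (hS1 p hp).1) (fun p hp => (hS2 p hp).1) (hz1 K E hE) (hz2 K E hE))
    rintro p (hp | hp)
    · exact Finset.mem_coe.2 (Finset.mem_union_left _ (mem_shn hp))
    · exact Finset.mem_coe.2 (Finset.mem_union_right _ (mem_shn hp))

theorem ne_of_deg {n : ℕ} {f : MvPolynomial (Fin n) k} (hf : f.totalDegree ≠ 0) : f ≠ 0 := by
  rintro rfl
  exact hf totalDegree_zero

theorem refZ_iso (h𝒦 : ∀ (K : Type) [Field K] [Algebra k K] (E : Set (AlgebraicClosure K)),
      𝒦 K E → Good E)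
    {a b : ℕ} (hab : a = b) (Φ : MvPolynomial (Fin a) k ≃ₐ[k] MvPolynomial (Fin b) k)
    {g : MvPolynomial (Fin a) k} (hg : g ≠ 0) (h : RefZ 𝒦 b (Φ g)) : RefZ 𝒦 a g := fun P hP =>
  refAt_iso h𝒦 hab Φ hg hP (h _ (by rw [eval_im', hP]))

theorem refZ_desc (h𝒦 : ∀ (K : Type) [Field K] [Algebra k K] (E : Set (AlgebraicClosure K)),
      𝒦 K E → Good E)
    {n : ℕ} {f : MvPolynomial (Fin n) k} (hf : f.totalDegree ≠ 0) (h1 : RefZ 𝒦 _ (addyz f))
    (h2 : RefZ 𝒦 _ (addyz (addyz f))) : RefZ 𝒦 n f := fun P hP =>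
  refAt_desc h𝒦 (ne_of_deg hf) hP (h1 _ (by rw [eval_ex0, hP])) (h2 _ (by
    rw [eval_ex0, eval_ex0, hP]))

end ring

end Pool.Agent.X271.LR
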