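import Mathlib

/-!
# Conductors of ideals: the example `k[x,y,u,v]/(xu, yv, u², uv, v²)`
-/

namespace Pool.Agent.X271.Conduct

open MvPolynomial

universe w

/-- The presentation `φ : R[y_1, …, y_m] → R[t]`, `y_j ↦ g_j t`, of the Rees algebra of the ideal
generated by the family `g`. -/
noncomputable def reesMap {R : Type w} [CommRing R] {n : ℕ} (g : Fin n → R) :
    MvPolynomial (Fin n) R →ₐ[R] Polynomial R :=
  aeval (fun j => Polynomial.C (g j) * Polynomial.X)

/-- `J = ker φ`, the defining ideal of the Rees algebra. -/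
noncomputable def reesKer {R : Type w} [CommRing R] {n : ℕ} (g : Fin n → R) :
    Ideal (MvPolynomial (Fin n) R) :=
  RingHom.ker (reesMap g)

/-- `L`, the ideal generated by the linear forms `∑ a_i y_i` with `∑ a_i g_i = 0`. -/
noncomputable def symKer {R : Type w} [CommRing R] {n : ℕ} (g : Fin n → R) :
    Ideal (MvPolynomial (Fin n) R) :=
  Ideal.span {p | ∃ a : Fin n → R, ∑ i, a i * g i = 0 ∧ p = ∑ i, C (a i) * X i}

/-- The conductor `C(I) = {r ∈ R : r J ⊆ L}` of the ideal `I` generated by the family `g`. -/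
noncomputable def conductor {R : Type w} [CommRing R] {n : ℕ} (g : Fin n → R) : Ideal R where
  carrier := {r | ∀ p ∈ reesKer g, C r * p ∈ symKer g}
  add_mem' := by
    intro a b ha hb p hp
    rw [C_add, add_mul]
    exact Ideal.add_mem _ (ha p hp) (hb p hp)
  zero_mem' := by
    intro p _
    rw [C_0, zero_mul]
    exact Ideal.zero_mem _
  smul_mem' := by
    intro c x hx p hp
    rw [smul_eq_mul, C_mul, mul_assoc]
    exact Ideal.mul_mem_left _ _ (hx p hp)

theorem mem_conductor {R : Type w} [CommRing R] {n : ℕ} (g : Fin n → R) (r : R) :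
    r ∈ conductor g ↔ ∀ p ∈ reesKer g, C r * p ∈ symKer g := Iff.rfl

/-- General principle: `x` is in the conductor of `(u,v,f)`. -/
theorem mem_conductor_of_relations {R : Type w} [CommRing R] (u v f x : R)
    (h1 : x * u = 0) (h2 : v * u = 0) (h3 : v * v = 0) (h4 : x * v = f * v)
    (hf : ∀ r, f * r = 0 → r = 0) : x ∈ conductor ![u, v, f] := by
  -- membership of linear forms
  have hL : ∀ a b c : R, a * u + b * v + c * f = 0 →
      (C a * X 0 + C b * X 1 + C c * X 2 : MvPolynomial (Fin 3) R) ∈ symKer ![u, v, f] := by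
    intro a b c habc
    apply Ideal.subset_span
    refine ⟨![a, b, c], ?_, ?_⟩
    · simpa [Fin.sum_univ_three] using habc
    · simp [Fin.sum_univ_three]
  have hxy1 : (C x * X 0 : MvPolynomial (Fin 3) R) ∈ symKer ![u, v, f] := by
    simpa using hL x 0 0 (by simpa using h1)
  have hvy1 : (C v * X 0 : MvPolynomial (Fin 3) R) ∈ symKer ![u, v, f] := by
    simpa using hL v 0 0 (by simpa using h2)
  have hvy2 : (C v * X 1 : MvPolynomial (Fin 3) R) ∈ symKer ![u, v, f] := by
    simpa using hL 0 v 0 (by simpa using h3)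
  have hxy2 : (C x * X 1 - C v * X 2 : MvPolynomial (Fin 3) R) ∈ symKer ![u, v, f] := by
    have := hL 0 x (-v) (by rw [h4]; ring)
    simpa [sub_eq_add_neg] using this
  -- the embedding of `R[z]`
  let ι : Polynomial R →ₐ[R] MvPolynomial (Fin 3) R := Polynomial.aeval (X 2)
  have key : ∀ P : MvPolynomial (Fin 3) R, ∃ q1 q2 : Polynomial R,
      C x * P - (C x * ι q1 + C v * ι q2) ∈ symKer ![u, v, f] := by
    intro P
    induction P using MvPolynomial.induction_on with
    | C a =>
      refine ⟨Polynomial.C a, 0, ?_⟩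
      have : (C x * C a - (C x * ι (Polynomial.C a) + C v * ι 0) : MvPolynomial (Fin 3) R) = 0 := by
        simp [ι, MvPolynomial.algebraMap_eq]
      rw [this]
      exact Ideal.zero_mem _
    | add p q hp hq =>
      obtain ⟨p1, p2, hp⟩ := hp
      obtain ⟨q1, q2, hq⟩ := hq
      refine ⟨p1 + q1, p2 + q2, ?_⟩
      have := Ideal.add_mem _ hp hq
      convert this using 1
      rw [map_add, map_add]
      ring
    | mul_X p i hp =>
      obtain ⟨q1, q2, hp⟩ := hp
      have hp' := Ideal.mul_mem_right (X i) _ hp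
      fin_cases i
      · refine ⟨0, 0, ?_⟩
        have e1 := Ideal.mul_mem_right (ι q1) _ hxy1
        have e2 := Ideal.mul_mem_right (ι q2) _ hvy1
        have := Ideal.add_mem _ hp' (Ideal.add_mem _ e1 e2)
        convert this using 1
        simp
        ring
      · refine ⟨0, Polynomial.X * q1, ?_⟩
        have e1 := Ideal.mul_mem_right (ι q1) _ hxy2
        have e2 := Ideal.mul_mem_right (ι q2) _ hvy2
        have := Ideal.add_mem _ hp' (Ideal.add_mem _ e1 e2)
        convert this using 1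
        have : ι (Polynomial.X * q1) = X 2 * ι q1 := by simp [ι]
        rw [this]
        simp
        ring
      · refine ⟨Polynomial.X * q1, Polynomial.X * q2, ?_⟩
        convert hp' using 1
        have h1 : ι (Polynomial.X * q1) = X 2 * ι q1 := by simp [ι]
        have h2 : ι (Polynomial.X * q2) = X 2 * ι q2 := by simp [ι]
        rw [h1, h2]
        simp
        ring
  have hLJ : symKer ![u, v, f] ≤ reesKer ![u, v, f] := by
    unfold symKer
    rw [Ideal.span_le]
    rintro _ ⟨a, ha, rfl⟩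
    rw [SetLike.mem_coe, reesKer, RingHom.mem_ker, map_sum]
    have : ∀ i : Fin 3, reesMap ![u, v, f] (C (a i) * X i) =
        Polynomial.C (a i * ![u, v, f] i) * Polynomial.X := by
      intro i
      rw [map_mul, reesMap, aeval_X, algHom_C, Polynomial.algebraMap_apply, Algebra.algebraMap_self,
        RingHom.id_apply, Polynomial.C_mul, mul_assoc]
    rw [Finset.sum_congr rfl (fun i _ => this i), ← Finset.sum_mul, ← map_sum, ha]
    simp
  rw [mem_conductor]
  intro P hP
  obtain ⟨q1, q2, hq⟩ := key P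
  set q : Polynomial R := Polynomial.C x * q1 + Polynomial.C v * q2 with hqdef
  have hιq : C x * ι q1 + C v * ι q2 = ι q := by
    rw [hqdef, map_add, map_mul, map_mul]
    simp [ι, MvPolynomial.algebraMap_eq]
  rw [hιq] at hq
  have h5 : reesMap ![u, v, f] (ι q) = 0 := by
    have h6 := hLJ hq
    rw [reesKer, RingHom.mem_ker, map_sub, map_mul] at h6
    have h7 : reesMap ![u, v, f] P = 0 := hP
    rw [h7, mul_zero, zero_sub, neg_eq_zero] at h6
    exact h6
  have h6 : q = 0 := by
    have h8 : reesMap ![u, v, f] (ι q) = q.comp (Polynomial.C f * Polynomial.X) := by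
      have : ((reesMap ![u, v, f]).comp ι) = (Polynomial.aeval (Polynomial.C f * Polynomial.X)) := by
        apply Polynomial.algHom_ext
        simp [ι, reesMap]
      have h9 := congrArg (fun h => h q) this
      simp only [AlgHom.comp_apply] at h9
      rw [h9, Polynomial.comp, Polynomial.aeval_def, Polynomial.algebraMap_eq]
    rw [h8] at h5
    ext n
    have h9 := congrArg (fun p => Polynomial.coeff p n) h5
    simp only [Polynomial.comp_C_mul_X_coeff, Polynomial.coeff_zero] at h9
    rw [Polynomial.coeff_zero]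
    have hfn : ∀ (n : ℕ) (r : R), r * f ^ n = 0 → r = 0 := by
      intro n
      induction n with
      | zero => intro r hr; simpa using hr
      | succ n ih =>
        intro r hr
        apply ih
        apply hf
        rw [← hr]; ring
    exact hfn n _ h9
  rw [h6, map_zero, sub_zero] at hq
  exact hq


section Example

variable {A : Type w} [CommRing A] (x y : A)

/-- The module `A/(x) ⊕ A/(y)`. -/
abbrev Mod : Type w := (A ⧸ (Ideal.span {x} : Ideal A)) × (A ⧸ (Ideal.span {y} : Ideal A))

/-- The ring `A[u,v]/(xu, yv, u², uv, v²)`, as a trivial square-zero extension of `A`. -/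
abbrev Ex : Type w := TrivSqZeroExt A (Mod x y)

/-- the element `u` -/
def uu : Ex x y := TrivSqZeroExt.inr (1, 0)

/-- the element `v` -/
def vv : Ex x y := TrivSqZeroExt.inr (0, 1)

theorem x_smul_one : x • (1 : A ⧸ (Ideal.span {x} : Ideal A)) = 0 := by
  rw [Algebra.smul_def, mul_one]
  exact Ideal.Quotient.eq_zero_iff_mem.2 (Ideal.mem_span_singleton_self x)

theorem x_mul_u : (TrivSqZeroExt.inl x : Ex x y) * uu x y = 0 := by
  rw [uu, TrivSqZeroExt.inl_mul_inr, Prod.smul_mk, x_smul_one, smul_zero, ← Prod.zero_eq_mk,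
    TrivSqZeroExt.inr_zero]

theorem y_mul_v : (TrivSqZeroExt.inl y : Ex x y) * vv x y = 0 := by
  rw [vv, TrivSqZeroExt.inl_mul_inr, Prod.smul_mk, x_smul_one, smul_zero, ← Prod.zero_eq_mk,
    TrivSqZeroExt.inr_zero]

theorem v_mul_u : vv x y * uu x y = 0 := by
  rw [vv, uu, TrivSqZeroExt.inr_mul_inr]

theorem v_mul_v : vv x y * vv x y = 0 := by
  rw [vv, TrivSqZeroExt.inr_mul_inr]

theorem u_mul_u : uu x y * uu x y = 0 := by
  rw [uu, TrivSqZeroExt.inr_mul_inr]

theorem mem_uv_iff (r : Ex x y) : r ∈ Ideal.span {uu x y, vv x y} ↔ r.fst = 0 := by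
  constructor
  · intro h
    have : Ideal.span {uu x y, vv x y} ≤ RingHom.ker (TrivSqZeroExt.fstHom A A (Mod x y)) := by
      rw [Ideal.span_le]
      intro z hz
      simp only [Set.mem_insert_iff, Set.mem_singleton_iff] at hz
      rcases hz with rfl | rfl
      · simp [uu, RingHom.mem_ker]
      · simp [vv, RingHom.mem_ker]
    have h2 := this h
    rwa [RingHom.mem_ker] at h2
  · intro h
    obtain ⟨a, ha⟩ := Ideal.Quotient.mk_surjective r.snd.1
    obtain ⟨b, hb⟩ := Ideal.Quotient.mk_surjective r.snd.2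
    have h3 : r = TrivSqZeroExt.inl a * uu x y + TrivSqZeroExt.inl b * vv x y := by
      rw [uu, vv, TrivSqZeroExt.inl_mul_inr, TrivSqZeroExt.inl_mul_inr]
      apply TrivSqZeroExt.ext
      · simp [h]
      · simp only [TrivSqZeroExt.snd_add, TrivSqZeroExt.snd_inr, Prod.smul_mk, Prod.mk_add_mk,
          smul_zero, add_zero, zero_add]
        ext
        · simp only
          rw [← ha, Algebra.smul_def, mul_one]; rfl
        · simp only
          rw [← hb, Algebra.smul_def, mul_one]; rfl
    rw [h3]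
    exact Ideal.add_mem _ (Ideal.mul_mem_left _ _ (Ideal.subset_span (by simp)))
      (Ideal.mul_mem_left _ _ (Ideal.subset_span (by simp)))

theorem uv_sq : (Ideal.span {uu x y, vv x y}) ^ 2 = ⊥ := by
  rw [eq_bot_iff, pow_two, Ideal.mul_le]
  intro r hr s hs
  rw [mem_uv_iff] at hr hs
  rw [Ideal.mem_bot]
  apply TrivSqZeroExt.ext
  · simp [hr]
  · simp [hr, hs]

variable {x y}

theorem f_regular (h0 : ∀ a : A, (x - y) * a = 0 → a = 0)
    (h1 : ∀ a : A, (x - y) * a ∈ Ideal.span {x} → a ∈ Ideal.span {x})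
    (h2 : ∀ a : A, (x - y) * a ∈ Ideal.span {y} → a ∈ Ideal.span {y}) (r : Ex x y)
    (hr : TrivSqZeroExt.inl (x - y) * r = 0) : r = 0 := by
  have e1 := congrArg TrivSqZeroExt.fst hr
  have e2 := congrArg TrivSqZeroExt.snd hr
  rw [TrivSqZeroExt.fst_mul, TrivSqZeroExt.fst_inl, TrivSqZeroExt.fst_zero] at e1
  have e3 := h0 _ e1
  rw [TrivSqZeroExt.snd_mul, TrivSqZeroExt.fst_inl, TrivSqZeroExt.snd_inl, smul_zero, add_zero,
    TrivSqZeroExt.snd_zero] at e2
  obtain ⟨a, ha⟩ := Ideal.Quotient.mk_surjective r.snd.1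
  obtain ⟨b, hb⟩ := Ideal.Quotient.mk_surjective r.snd.2
  have e4 : (x - y) • r.snd.1 = 0 := by
    have := congrArg Prod.fst e2
    simpa using this
  have e5 : (x - y) • r.snd.2 = 0 := by
    have := congrArg Prod.snd e2
    simpa using this
  apply TrivSqZeroExt.ext
  · rw [e3, TrivSqZeroExt.fst_zero]
  · rw [TrivSqZeroExt.snd_zero]
    ext
    · rw [← ha, Algebra.smul_def, Ideal.Quotient.algebraMap_eq, ← map_mul,
        Ideal.Quotient.eq_zero_iff_mem] at e4
      rw [← ha, Prod.fst_zero, Ideal.Quotient.eq_zero_iff_mem]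
      exact h1 _ e4
    · rw [← hb, Algebra.smul_def, Ideal.Quotient.algebraMap_eq, ← map_mul,
        Ideal.Quotient.eq_zero_iff_mem] at e5
      rw [← hb, Prod.snd_zero, Ideal.Quotient.eq_zero_iff_mem]
      exact h2 _ e5

theorem f_regular_powers (h0 : ∀ a : A, (x - y) * a = 0 → a = 0)
    (h1 : ∀ a : A, (x - y) * a ∈ Ideal.span {x} → a ∈ Ideal.span {x})
    (h2 : ∀ a : A, (x - y) * a ∈ Ideal.span {y} → a ∈ Ideal.span {y}) (j : ℕ) :
    Submodule.colon ((Ideal.span {uu x y, vv x y}) ^ j) {(TrivSqZeroExt.inl (x - y) : Ex x y)} =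
      (Ideal.span {uu x y, vv x y}) ^ j := by
  apply le_antisymm
  · intro r hr
    rw [Submodule.mem_colon_singleton, smul_eq_mul] at hr
    rcases j with _ | _ | j
    · simp
    · have e : (Ideal.span {uu x y, vv x y}) ^ (0 + 1) = Ideal.span {uu x y, vv x y} := by simp
      rw [e, mem_uv_iff] at hr ⊢
      rw [TrivSqZeroExt.fst_mul, TrivSqZeroExt.fst_inl] at hr
      exact h0 _ (by rw [mul_comm]; exact hr)
    · have hb : (Ideal.span {uu x y, vv x y}) ^ (j + 1 + 1) = ⊥ := by
        rw [eq_bot_iff, ← uv_sq x y]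
        exact Ideal.pow_le_pow_right (by omega)
      rw [hb, Ideal.mem_bot] at hr ⊢
      exact f_regular h0 h1 h2 r (by rw [mul_comm]; exact hr)
  · intro r hr
    rw [Submodule.mem_colon_singleton, smul_eq_mul]
    exact Ideal.mul_mem_right _ _ hr

theorem conductor_fst {r : Ex x y} (hr : r ∈ conductor ![uu x y, vv x y]) :
    r.fst ∈ (Ideal.span {x} : Ideal A) ∧ r.fst ∈ (Ideal.span {y} : Ideal A) := by
  have hsyz : ∀ a : Fin 2 → Ex x y, ∑ i, a i * ![uu x y, vv x y] i = 0 →
      (a 0).fst ∈ (Ideal.span {x} : Ideal A) ∧ (a 1).fst ∈ (Ideal.span {y} : Ideal A) := by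
    intro a ha
    rw [Fin.sum_univ_two] at ha
    simp only [Matrix.cons_val_zero, Matrix.cons_val_one] at ha
    have e2 := congrArg TrivSqZeroExt.snd ha
    rw [uu, vv, TrivSqZeroExt.snd_add, TrivSqZeroExt.snd_mul, TrivSqZeroExt.snd_mul,
      TrivSqZeroExt.snd_inr, TrivSqZeroExt.snd_inr, TrivSqZeroExt.fst_inr, TrivSqZeroExt.fst_inr,
      TrivSqZeroExt.snd_zero] at e2
    simp only [MulOpposite.op_zero, zero_smul, add_zero, Prod.smul_mk, smul_zero,
      Prod.mk_add_mk, zero_add] at e2
    have e3 := congrArg Prod.fst e2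
    have e4 := congrArg Prod.snd e2
    simp only [Prod.fst_zero, Prod.snd_zero] at e3 e4
    rw [Algebra.smul_def, mul_one, Ideal.Quotient.algebraMap_eq,
      Ideal.Quotient.eq_zero_iff_mem] at e3 e4
    exact ⟨e3, e4⟩
  rw [mem_conductor] at hr
  constructor
  · let h : MvPolynomial (Fin 2) (Ex x y) →+* Polynomial (A ⧸ (Ideal.span {x} : Ideal A)) :=
      eval₂Hom (Polynomial.C.comp ((Ideal.Quotient.mk (Ideal.span {x})).comp
        (TrivSqZeroExt.fstHom A A (Mod x y)).toRingHom)) ![Polynomial.X, 0]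
    have hle : symKer ![uu x y, vv x y] ≤ RingHom.ker h := by
      unfold symKer
      rw [Ideal.span_le]
      rintro _ ⟨a, ha, rfl⟩
      have := (hsyz a ha).1
      rw [SetLike.mem_coe, RingHom.mem_ker, Fin.sum_univ_two]
      have h3 := Ideal.Quotient.eq_zero_iff_mem.2 this
      simp [h, h3]
    have hJ : (X 0 ^ 2 : MvPolynomial (Fin 2) (Ex x y)) ∈ reesKer ![uu x y, vv x y] := by
      rw [reesKer, RingHom.mem_ker, map_pow, reesMap, aeval_X]
      simp only [Matrix.cons_val_zero]
      rw [mul_pow, ← map_pow, pow_two, u_mul_u, map_zero, zero_mul]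
    have h4 := hle (hr _ hJ)
    rw [RingHom.mem_ker] at h4
    simp only [h, map_mul, map_pow, coe_eval₂Hom, eval₂_C, eval₂_X, RingHom.comp_apply,
      Matrix.cons_val_zero] at h4
    have h5 := congrArg (fun p => Polynomial.coeff p 2) h4
    simp only [Polynomial.coeff_C_mul, Polynomial.coeff_X_pow, if_true, mul_one,
      Polynomial.coeff_zero] at h5
    exact Ideal.Quotient.eq_zero_iff_mem.1 h5
  · let h : MvPolynomial (Fin 2) (Ex x y) →+* Polynomial (A ⧸ (Ideal.span {y} : Ideal A)) :=
      eval₂Hom (Polynomial.C.comp ((Ideal.Quotient.mk (Ideal.span {y})).comp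
        (TrivSqZeroExt.fstHom A A (Mod x y)).toRingHom)) ![0, Polynomial.X]
    have hle : symKer ![uu x y, vv x y] ≤ RingHom.ker h := by
      unfold symKer
      rw [Ideal.span_le]
      rintro _ ⟨a, ha, rfl⟩
      have := (hsyz a ha).2
      rw [SetLike.mem_coe, RingHom.mem_ker, Fin.sum_univ_two]
      have h3 := Ideal.Quotient.eq_zero_iff_mem.2 this
      simp [h, h3]
    have hJ : (X 1 ^ 2 : MvPolynomial (Fin 2) (Ex x y)) ∈ reesKer ![uu x y, vv x y] := by
      rw [reesKer, RingHom.mem_ker, map_pow, reesMap, aeval_X]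
      simp only [Matrix.cons_val_one, Matrix.cons_val_fin_one]
      rw [mul_pow, ← map_pow, pow_two, v_mul_v, map_zero, zero_mul]
    have h4 := hle (hr _ hJ)
    rw [RingHom.mem_ker] at h4
    simp only [h, map_mul, map_pow, coe_eval₂Hom, eval₂_C, eval₂_X, RingHom.comp_apply,
      Matrix.cons_val_one, Matrix.cons_val_fin_one] at h4
    have h5 := congrArg (fun p => Polynomial.coeff p 2) h4
    simp only [Polynomial.coeff_C_mul, Polynomial.coeff_X_pow, if_true, mul_one,
      Polynomial.coeff_zero] at h5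
    exact Ideal.Quotient.eq_zero_iff_mem.1 h5

theorem x_mem_conductor (h0 : ∀ a : A, (x - y) * a = 0 → a = 0)
    (h1 : ∀ a : A, (x - y) * a ∈ Ideal.span {x} → a ∈ Ideal.span {x})
    (h2 : ∀ a : A, (x - y) * a ∈ Ideal.span {y} → a ∈ Ideal.span {y}) :
    (TrivSqZeroExt.inl x : Ex x y) ∈
      conductor ![uu x y, vv x y, TrivSqZeroExt.inl (x - y)] := by
  apply mem_conductor_of_relations
  · exact x_mul_u x y
  · exact v_mul_u x y
  · exact v_mul_v x y
  · rw [TrivSqZeroExt.inl_sub, sub_mul, y_mul_v, sub_zero]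
  · exact f_regular h0 h1 h2

instance exNoeth [IsNoetherianRing A] : IsNoetherianRing (Ex x y) := by
  have : Module.Finite A (Ex x y) := inferInstanceAs (Module.Finite A (A × Mod x y))
  have : IsScalarTower A (Ex x y) (Ex x y) := ⟨fun a b c => by
    rw [smul_eq_mul, smul_eq_mul]
    apply TrivSqZeroExt.ext
    · rw [TrivSqZeroExt.fst_mul, TrivSqZeroExt.fst_smul, TrivSqZeroExt.fst_smul,
        TrivSqZeroExt.fst_mul, smul_mul_assoc]
    · rw [TrivSqZeroExt.snd_mul, TrivSqZeroExt.fst_smul, TrivSqZeroExt.snd_smul,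
        TrivSqZeroExt.snd_smul, TrivSqZeroExt.snd_mul, smul_add, smul_assoc,
        smul_comm (MulOpposite.op (TrivSqZeroExt.fst c)) a]⟩
  exact IsNoetherianRing.of_finite A _

end Example

end Pool.Agent.X271.Conduct
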