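import Mathlib

set_option autoImplicit false

/-! Reduction of a polynomial over a commutative ring to a cubic one of the shape `∑ t_j q_j(x)` with
`q_j` quadratic, by the moves `F ↦ F + (y - a) (t + e)` with new variables `y`, `t`. (The method of
`Pool.Agent.W206.CU`, over a ring `k`.) -/

namespace Pool.Agent.X271.CK

open MvPolynomial

variable {k : Type} [CommRing k]

/-- The polynomial `∑_j t_j q_j(x)` in the variables `x` and `t`. -/
noncomputable def quadSum {n m : ℕ} (q : Fin m → MvPolynomial (Fin n) k) :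
    MvPolynomial (Fin n ⊕ Fin m) k :=
  ∑ j, X (Sum.inr j) * rename Sum.inl (q j)

/-- A property of pairs (number of moves, polynomial) preserved by automorphisms of polynomial
rings, by renaming the variables, and by adding the product of two new variables. -/
structure Chain (PP : ∀ (ρ : Type) [Finite ρ], ℕ → MvPolynomial ρ k → Prop) : Prop where
  aut : ∀ (ρ : Type) [Finite ρ] (e : MvPolynomial ρ k ≃ₐ[k] MvPolynomial ρ k)
    (m : ℕ) (F : MvPolynomial ρ k), PP ρ m F → PP ρ m (e F)
  ren : ∀ (ρ ρ' : Type) [Finite ρ] [Finite ρ'] (e : ρ ≃ ρ')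
    (m : ℕ) (F : MvPolynomial ρ k), PP ρ m F → PP ρ' m (rename e F)
  step : ∀ (ρ : Type) [Finite ρ] (m : ℕ) (F : MvPolynomial ρ k), PP ρ m F →
    PP (ρ ⊕ Fin 2) (m + 1) (rename Sum.inl F + X (Sum.inr 0) * X (Sum.inr 1))

theorem aeval_elim_rename {ρ : Type} (v : Fin 2 → MvPolynomial (ρ ⊕ Fin 2) k)
    (a : MvPolynomial ρ k) :
    aeval (Sum.elim (fun i => X (Sum.inl i)) v) (rename Sum.inl a) = rename Sum.inl a := by
  induction a using MvPolynomial.induction_on with
  | C c => rw [rename_C, ← algebraMap_eq, AlgHom.commutes]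
  | add p q hp hq => rw [map_add, map_add, hp, hq]
  | mul_X p i hp => rw [map_mul, map_mul, hp, rename_X, aeval_X, Sum.elim_inl]

/-- The automorphism `y ↦ y - a`, `t ↦ t + e`. -/
noncomputable def shear {ρ : Type} (a e : MvPolynomial ρ k) :
    MvPolynomial (ρ ⊕ Fin 2) k ≃ₐ[k] MvPolynomial (ρ ⊕ Fin 2) k :=
  AlgEquiv.ofAlgHom
    (aeval (Sum.elim (fun i => X (Sum.inl i))
      ![X (Sum.inr 0) - rename Sum.inl a, X (Sum.inr 1) + rename Sum.inl e]))
    (aeval (Sum.elim (fun i => X (Sum.inl i))
      ![X (Sum.inr 0) + rename Sum.inl a, X (Sum.inr 1) - rename Sum.inl e]))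
    (by
      apply MvPolynomial.algHom_ext
      rintro (i | i)
      · rw [AlgHom.comp_apply, aeval_X, Sum.elim_inl, aeval_X, Sum.elim_inl, AlgHom.id_apply]
      · fin_cases i
        · rw [AlgHom.comp_apply, aeval_X, Sum.elim_inr]
          simp only [Fin.zero_eta, Matrix.cons_val_zero, map_add, aeval_elim_rename, aeval_X,
            Sum.elim_inr, AlgHom.id_apply, sub_add_cancel]
        · rw [AlgHom.comp_apply, aeval_X, Sum.elim_inr]
          simp only [Fin.mk_one, Matrix.cons_val_one, Matrix.cons_val_fin_one, map_sub,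
            aeval_elim_rename, aeval_X, Sum.elim_inr, AlgHom.id_apply, add_sub_cancel_right])
    (by
      apply MvPolynomial.algHom_ext
      rintro (i | i)
      · rw [AlgHom.comp_apply, aeval_X, Sum.elim_inl, aeval_X, Sum.elim_inl, AlgHom.id_apply]
      · fin_cases i
        · rw [AlgHom.comp_apply, aeval_X, Sum.elim_inr]
          simp only [Fin.zero_eta, Matrix.cons_val_zero, map_sub, aeval_elim_rename, aeval_X,
            Sum.elim_inr, AlgHom.id_apply, add_sub_cancel_right]
        · rw [AlgHom.comp_apply, aeval_X, Sum.elim_inr]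
          simp only [Fin.mk_one, Matrix.cons_val_one, Matrix.cons_val_fin_one, map_add,
            aeval_elim_rename, aeval_X, Sum.elim_inr, AlgHom.id_apply, sub_add_cancel])

theorem shear_rename {ρ : Type} (a e h : MvPolynomial ρ k) :
    shear a e (rename Sum.inl h) = rename Sum.inl h :=
  aeval_elim_rename _ h

theorem shear_y {ρ : Type} (a e : MvPolynomial ρ k) :
    shear a e (X (Sum.inr 0)) = X (Sum.inr 0) - rename Sum.inl a := by
  change aeval _ _ = _
  rw [aeval_X]
  rfl

theorem shear_t {ρ : Type} (a e : MvPolynomial ρ k) :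
    shear a e (X (Sum.inr 1)) = X (Sum.inr 1) + rename Sum.inl e := by
  change aeval _ _ = _
  rw [aeval_X]
  rfl

variable {PP : ∀ (ρ : Type) [Finite ρ], ℕ → MvPolynomial ρ k → Prop}

theorem Chain.shear (hc : Chain PP) {ρ : Type} [Finite ρ] {m : ℕ} {F : MvPolynomial ρ k}
    (h : PP ρ m F) (a e : MvPolynomial ρ k) :
    PP (ρ ⊕ Fin 2) (m + 1) (rename Sum.inl F +
      (X (Sum.inr 0) - rename Sum.inl a) * (X (Sum.inr 1) + rename Sum.inl e)) := by
  have h1 := hc.aut _ (CK.shear a e) _ _ (hc.step ρ m F h)
  rwa [map_add, map_mul, shear_rename, shear_y, shear_t] at h1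

/-- The polynomial of a list of monomials `c t x ⋯ x`. -/
noncomputable def lp {σ τ : Type} (L : List (k × τ × List σ)) : MvPolynomial (σ ⊕ τ) k :=
  (L.map fun c => C c.1 * X (Sum.inr c.2.1) * (c.2.2.map fun i => X (Sum.inl i)).prod).sum

theorem lp_nil {σ τ : Type} : lp ([] : List (k × τ × List σ)) = 0 := by
  simp [lp]

theorem lp_cons {σ τ : Type} (c : k × τ × List σ) (L : List (k × τ × List σ)) :
    lp (c :: L) = C c.1 * X (Sum.inr c.2.1) * (c.2.2.map fun i => X (Sum.inl i)).prod + lp L := by
  simp [lp]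

theorem lp_append {σ τ : Type} (L L' : List (k × τ × List σ)) :
    lp (L ++ L') = lp L + lp L' := by
  simp [lp]

/-- Raising a term to the variables `Option σ`, `Option τ`. -/
def lift {σ τ : Type} (c : k × τ × List σ) : k × Option τ × List (Option σ) :=
  (c.1, some c.2.1, c.2.2.map some)

/-- The renaming `(σ ⊕ τ) ⊕ {y, t} ≃ Option σ ⊕ Option τ`. -/
def ren (σ τ : Type) : (σ ⊕ τ) ⊕ Fin 2 ≃ Option σ ⊕ Option τ where
  toFun := Sum.elim (Sum.map some some) ![Sum.inl none, Sum.inr none]
  invFun := Sum.elim (fun o => o.elim (Sum.inr 0) fun i => Sum.inl (Sum.inl i))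
    (fun o => o.elim (Sum.inr 1) fun i => Sum.inl (Sum.inr i))
  left_inv := by
    rintro ((i | j) | k)
    · rfl
    · rfl
    · fin_cases k <;> rfl
  right_inv := by
    rintro ((_ | i) | (_ | j)) <;> rfl

theorem rename_lp {σ τ : Type} (L : List (k × τ × List σ)) :
    rename (ren σ τ) (rename Sum.inl (lp L)) = lp (L.map lift) := by
  induction L with
  | nil => simp [lp_nil]
  | cons c L ih =>
    rw [List.map_cons, lp_cons, lp_cons, map_add, map_add, ih]
    congr 1
    simp only [map_mul, rename_C, rename_X, map_list_prod, List.map_map, lift]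
    congr 1
    congr 2
    funext i
    simp only [Function.comp_apply, rename_X]
    rfl

theorem Chain.lpStep (hc : Chain PP) {σ τ : Type} [Finite σ] [Finite τ] {m : ℕ} {o : σ}
    {L : List (k × τ × List σ)} (h : PP (σ ⊕ τ) m (X (Sum.inl o) + lp L))
    (a e : MvPolynomial (σ ⊕ τ) k) :
    PP (Option σ ⊕ Option τ) (m + 1) (X (Sum.inl (some o)) + lp (L.map lift) +
      (X (Sum.inl none) - rename (CK.ren σ τ) (rename Sum.inl a)) *
      (X (Sum.inr none) + rename (CK.ren σ τ) (rename Sum.inl e))) := by
  have h1 := hc.ren _ _ (CK.ren σ τ) _ _ (hc.shear h a e)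
  rw [map_add, map_add, map_add, rename_lp, map_mul, map_sub, map_add, rename_X, rename_X,
    rename_X, rename_X] at h1
  exact h1

/-- The total excess of the degrees in `x` over two. -/
def excess {σ τ : Type} (L : List (k × τ × List σ)) : ℕ :=
  (L.map fun c => c.2.2.length - 2).sum

theorem excess_cons {σ τ : Type} (c : k × τ × List σ) (L : List (k × τ × List σ)) :
    excess (c :: L) = (c.2.2.length - 2) + excess L := by
  simp [excess]

theorem excess_append {σ τ : Type} (L L' : List (k × τ × List σ)) :
    excess (L ++ L') = excess L + excess L' := by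
  simp [excess]

theorem excess_lift {σ τ : Type} (L : List (k × τ × List σ)) :
    excess (L.map lift) = excess L := by
  simp [excess, lift, Function.comp_def]

/-- One move lowers the excess. -/
theorem Chain.reduce (hc : Chain PP) {σ τ : Type} [Finite σ] [Finite τ] {m : ℕ} {o : σ}
    {L : List (k × τ × List σ)} (h : PP (σ ⊕ τ) m (X (Sum.inl o) + lp L))
    (hL : ∃ c ∈ L, 2 < c.2.2.length) :
    ∃ L' : List (k × Option τ × List (Option σ)), excess L' < excess L ∧
      PP (Option σ ⊕ Option τ) (m + 1) (X (Sum.inl (some o)) + lp L') := by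
  obtain ⟨⟨c, t, l⟩, hcL, hl⟩ := hL
  obtain ⟨s, s', rfl⟩ := List.append_of_mem hcL
  simp only at hl
  match l, hl with
  | i :: j :: p :: l, hl =>
    refine ⟨(1, none, [none]) :: (-1, none, [some i, some j]) ::
      (c, some t, none :: some p :: l.map some) :: (s ++ s').map lift, ?_, ?_⟩
    · simp only [excess_cons, excess_append, List.map_append, excess_lift, List.length_cons,
        List.length_nil, List.length_map]
      omega
    · have h1 := hc.lpStep h (X (Sum.inl i) * X (Sum.inl j))
        (C c * X (Sum.inr t) * (X (Sum.inl p) * (l.map fun i => X (Sum.inl i)).prod))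
      convert h1 using 1
      simp only [List.map_append, List.map_cons, lp_append, lp_cons, lift, List.prod_cons,
        List.prod_nil, List.map_nil, List.map_map, map_mul, rename_C, rename_X, map_list_prod,
        Function.comp_def]
      simp only [CK.ren, Equiv.coe_fn_mk, Sum.elim_inl, Sum.map_inl, Sum.map_inr, map_one, map_neg]
      ring

theorem Chain.quadratic (hc : Chain PP) {σ τ : Type} [Finite σ] [Finite τ] {m : ℕ} {o : σ}
    {L : List (k × τ × List σ)} (h : PP (σ ⊕ τ) m (X (Sum.inl o) + lp L)) :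
    ∃ (σ' τ' : Type) (_ : Finite σ') (_ : Finite τ') (o' : σ') (L' : List (k × τ' × List σ'))
      (m' : ℕ), m ≤ m' ∧ (∀ c ∈ L', c.2.2.length ≤ 2) ∧
      PP (σ' ⊕ τ') m' (X (Sum.inl o') + lp L') := by
  induction hN : excess L using Nat.strong_induction_on generalizing σ τ m with
  | _ N ih =>
    by_cases hL : ∃ c ∈ L, 2 < c.2.2.length
    · obtain ⟨L', hlt, h'⟩ := hc.reduce h hL
      obtain ⟨σ'', τ'', i1, i2, o'', L'', m', hm, h2, h5⟩ := ih _ (hN ▸ hlt) h' rfl
      exact ⟨σ'', τ'', i1, i2, o'', L'', m', by omega, h2, h5⟩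
    · push Not at hL
      exact ⟨σ, τ, inferInstance, inferInstance, o, L, m, le_rfl, hL, h⟩

/-- The exponent of a list of variables. -/
noncomputable def expo {n : ℕ} (l : List (Fin n)) : Fin n →₀ ℕ :=
  Multiset.toFinsupp (l : Multiset (Fin n))

theorem C_mul_prod {n : ℕ} (c : k) (l : List (Fin n)) :
    (C c * (l.map fun i => X i).prod : MvPolynomial (Fin n) k) = monomial (expo l) c := by
  induction l with
  | nil =>
    rw [List.map_nil, List.prod_nil, mul_one, expo, Multiset.coe_nil, map_zero]
    rfl
  | cons i l ih =>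
    rw [List.map_cons, List.prod_cons, mul_left_comm, ih, X, monomial_mul, one_mul]
    congr 1
    rw [expo, expo, ← Multiset.cons_coe, ← Multiset.singleton_add, map_add,
      Multiset.toFinsupp_singleton]

/-- A list with monomials of degree at most two in `x` gives a sum `∑ t_j q_j(x)`. -/
theorem exists_quadSum {σ τ : Type} {n m : ℕ} (e : σ → Fin n) (e' : τ → Fin m)
    (L : List (k × τ × List σ)) (hL : ∀ c ∈ L, c.2.2.length ≤ 2) :
    ∃ q : Fin m → MvPolynomial (Fin n) k, (∀ j, (q j).totalDegree ≤ 2) ∧
      rename (Sum.map e e') (lp L) = quadSum q := by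
  classical
  induction L with
  | nil => exact ⟨0, by simp, by simp [quadSum, lp_nil]⟩
  | cons c L ih =>
    obtain ⟨q, hq, hq'⟩ := ih fun c hc => hL c (List.mem_cons_of_mem _ hc)
    refine ⟨fun j => (if j = e' c.2.1 then monomial (expo (c.2.2.map e)) c.1 else 0) + q j,
      fun j => ?_, ?_⟩
    · refine (totalDegree_add _ _).trans (max_le ?_ (hq j))
      split_ifs
      · rw [← C_mul_prod]
        refine (totalDegree_mul _ _).trans ?_
        rw [totalDegree_C, zero_add]
        refine (totalDegree_list_prod _).trans ?_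
        rw [List.map_map]
        refine le_trans ?_ (hL c (List.mem_cons_self))
        have : ∀ l : List (Fin n),
            (l.map (totalDegree ∘ fun i => (X i : MvPolynomial (Fin n) k))).sum ≤ l.length := by
          intro l
          induction l with
          | nil => simp
          | cons a l ih =>
            simp only [List.map_cons, List.sum_cons, List.length_cons, Function.comp_apply] at ih ⊢
            have := totalDegree_monomial_le (Finsupp.single a 1) (1 : k)
            rw [Finsupp.sum_single_index rfl] at this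
            have h2 : (X a : MvPolynomial (Fin n) k).totalDegree ≤ 1 := this
            omega
        exact (this _).trans (by rw [List.length_map])
      · simp
    · rw [lp_cons, map_add, hq', quadSum, quadSum]
      simp only [map_add, mul_add, Finset.sum_add_distrib]
      congr 1
      rw [Finset.sum_eq_single (e' c.2.1)]
      · rw [if_pos rfl, ← C_mul_prod]
        simp only [map_mul, rename_C, rename_X, map_list_prod, List.map_map,
          Function.comp_def, Sum.map_inl, Sum.map_inr]
        ring
      · intro j _ hj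
        rw [if_neg hj]
        simp
      · simp

theorem list_add {σ : Type} {f g : MvPolynomial σ k}
    (hf : ∃ L : List (k × Unit × List σ), X (Sum.inr ()) * rename Sum.inl f = lp L)
    (hg : ∃ L : List (k × Unit × List σ), X (Sum.inr ()) * rename Sum.inl g = lp L) :
    ∃ L : List (k × Unit × List σ), X (Sum.inr ()) * rename Sum.inl (f + g) = lp L := by
  obtain ⟨L, hL⟩ := hf
  obtain ⟨L', hL'⟩ := hg
  exact ⟨L ++ L', by rw [lp_append, ← hL, ← hL', map_add, mul_add]⟩

/-- Every polynomial is given by a list of monomials. -/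
theorem exists_lp {σ : Type} (f : MvPolynomial σ k) :
    ∃ L : List (k × Unit × List σ), X (Sum.inr ()) * rename Sum.inl f = lp L := by
  induction f using MvPolynomial.induction_on with
  | C a => exact ⟨[(a, (), [])], by simp [lp, mul_comm]⟩
  | add p q hp hq => exact list_add hp hq
  | mul_X p i hp =>
    obtain ⟨L, hL⟩ := hp
    refine ⟨L.map fun c => (c.1, c.2.1, i :: c.2.2), ?_⟩
    rw [map_mul, ← mul_assoc, hL, rename_X]
    clear hL
    induction L with
    | nil => simp [lp_nil]
    | cons c L ih =>
      rw [List.map_cons, lp_cons, lp_cons, add_mul, ih]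
      simp only [List.map_cons, List.prod_cons]
      ring

/-- the first renaming -/
def ren0 (σ : Type) : σ ⊕ Fin 2 ≃ Option σ ⊕ Unit where
  toFun := Sum.elim (fun i => Sum.inl (some i)) ![Sum.inr (), Sum.inl none]
  invFun := Sum.elim (fun o => o.elim (Sum.inr 1) fun i => Sum.inl i) fun _ => Sum.inr 0
  left_inv := by
    rintro (i | i)
    · rfl
    · fin_cases i <;> rfl
  right_inv := by
    rintro ((_ | i) | i) <;> rfl

/-- The reduction principle. -/
theorem Chain.main (hc : Chain PP) {σ : Type} [Finite σ] (f : MvPolynomial σ k) {m : ℕ}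
    (h : PP σ m f) :
    ∃ (n' l m' : ℕ) (q : Fin l → MvPolynomial (Fin (n' + 1)) k), m + 1 ≤ m' ∧
      (∀ j, (q j).totalDegree ≤ 2) ∧
      PP (Fin (n' + 1) ⊕ Fin l) m' (X (Sum.inl 0) + quadSum q) := by
  obtain ⟨L, hL⟩ := exists_lp (X none - rename some f : MvPolynomial (Option σ) k)
  have h1 := hc.ren _ _ (ren0 σ) _ _ (hc.shear h (-1) (-f))
  have h2 : rename (ren0 σ) (rename Sum.inl f +
      (X (Sum.inr 0) - rename Sum.inl (-1)) * (X (Sum.inr 1) + rename Sum.inl (-f))) =
      X (Sum.inl none) + lp L := by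
    rw [← hL]
    have e1 : rename (ren0 σ) (rename Sum.inl f) = rename Sum.inl (rename some f) := by
      rw [rename_rename, rename_rename]
      rfl
    have e2 : (ren0 σ) (Sum.inr 0) = Sum.inr () := rfl
    have e3 : (ren0 σ) (Sum.inr 1) = Sum.inl none := rfl
    simp only [map_add, map_mul, map_sub, map_neg, map_one, rename_X, e1, e2, e3]
    ring
  rw [h2] at h1
  obtain ⟨σ', τ', i5, i6, o, L3, m', hm, hq3, h3⟩ := hc.quadratic h1
  obtain ⟨n, ⟨e⟩⟩ := Finite.exists_equiv_fin σ'
  obtain ⟨l, ⟨e'⟩⟩ := Finite.exists_equiv_fin τ'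
  obtain ⟨n', rfl⟩ : ∃ n', n = n' + 1 := Nat.exists_eq_succ_of_ne_zero (by
    rintro rfl
    exact (e o).elim0)
  set e1 : σ' ≃ Fin (n' + 1) := e.trans (Equiv.swap (e o) 0) with he1
  have ho : e1 o = 0 := by
    rw [he1, Equiv.trans_apply, Equiv.swap_apply_left]
  obtain ⟨q, hq, hq'⟩ := exists_quadSum e1 e' L3 hq3
  refine ⟨n', l, m', q, hm, hq, ?_⟩
  have h4 := hc.ren _ _ (Equiv.sumCongr e1 e') _ _ h3
  have h5 : ⇑(e1.sumCongr e') = Sum.map e1 e' := rfl
  rw [h5, map_add, hq', rename_X, Sum.map_inl, ho] at h4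
  exact h4

end Pool.Agent.X271.CK
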