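import Pool.Agent.Y229.PA.CmpH
import Pool.Agent.Y229.PC.Conv

set_option autoImplicit false
set_option linter.unusedVariables false

/-! Denef's question: generic coefficients up to the torus, the fixed part may contain the generic
monomials. -/

namespace Pool.Agent.X271.DQ

open MvPolynomial Pool.Agent.W206.CU Pool.Agent.TH216.MF
open Pool.Agent.W425.ND (spa)
open Pool.Agent.W425.MM (NonB)
open Pool.Agent.W425.SV (NP)
open Pool.Agent.W426.SM (gord IsRay face)
open Pool.Agent.H628R4.TP (IsBFunction)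
open Pool.Agent.TH216.EP (ConcF LevOK hypS_kept)
open Pool.Agent.Y229.PA
open Pool.Agent.W425.BF (cof hz hz_support shf shf_ne shf_eval)

variable {r N : ℕ}

theorem gen_ordT' (hr : 0 < r)
    (v : Fin r → Fin N → ℕ) (hv : Function.Injective v) (hv0 : ∀ j, v j ≠ 0)
    (h : MvPolynomial (Fin N) ℤ) (hh : ∀ w ∈ h.support, NP v w) :
    ∃ g : MvPolynomial (Fin r) ℚ, g ≠ 0 ∧ ∀ (c : Fin r → ℤ) (t : Fin N → ℚ), (∀ i, t i ≠ 0) →
      (∀ w ∈ h.support, ∏ i, t i ^ w i = 1) →
      eval (fun j => (c j : ℚ) * ∏ i, t i ^ v j i) g ≠ 0 → ConcF v h c := by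
  classical
  set cf : Fin r → ℤ := fun j => coeff (Finsupp.equivFunOnFinite.symm (v j)) h with hcf
  set h0 : MvPolynomial (Fin N) ℤ := h - spa v cf with hh0
  set hQ : MvPolynomial (Fin N) ℚ := MvPolynomial.map (Int.castRingHom ℚ) h with hhQ
  have hcof : cof v hQ = fun j => ((cf j : ℤ) : ℚ) := by
    funext j
    show coeff _ hQ = _
    rw [hhQ, coeff_map]
    rfl
  have hmap0 : MvPolynomial.map (Int.castRingHom ℚ) h0 = hz v hQ := by
    unfold hz
    rw [hh0, map_sub, hcof]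
    congr 1
    unfold spa
    simp
  have hs0 : ∀ w ∈ h0.support, w ∈ (hz v hQ).support := by
    intro w hw
    rw [mem_support_iff] at hw ⊢
    rw [← hmap0, coeff_map]
    intro h1
    apply hw
    have h2 : ((coeff w h0 : ℤ) : ℚ) = 0 := h1
    exact_mod_cast h2
  have hs1 : ∀ w ∈ h0.support, w ∈ h.support := fun w hw =>
    MvPolynomial.support_map_subset _ _ ((hz_support v hv hQ).1 w (hs0 w hw))
  obtain ⟨g, hg, hgc⟩ := gen_ordT hr v hv hv0 h0
    (fun w hw => hh w (hs1 w hw)) (fun w hw => (hz_support v hv hQ).2 w (hs0 w hw))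
  refine ⟨shf (cof v hQ) g, shf_ne _ _ hg, fun c t ht htf hc => ?_⟩
  have htv : ∀ j, (cf j : ℚ) * ∏ i, t i ^ v j i = cf j := by
    intro j
    by_cases h1 : cf j = 0
    · rw [h1]
      simp
    · have h2 : Finsupp.equivFunOnFinite.symm (v j) ∈ h.support := mem_support_iff.2 h1
      have h3 := htf _ h2
      have h4 : ∏ i, t i ^ v j i = 1 := h3
      rw [h4, mul_one]
  have h1 := hgc (fun j => c j + cf j) t ht (fun w hw => htf w (hs1 w hw)) (by
    intro h2
    apply hc
    have h3 := shf_eval (K := ℚ) (cof v hQ) g (fun j => (c j : ℚ) * ∏ i, t i ^ v j i)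
    rw [← coe_aeval_eq_eval] at h2 ⊢
    rw [← h2]
    rw [hcof] at h3 ⊢
    have h4 : (fun j => (((c j + cf j : ℤ)) : ℚ) * ∏ i, t i ^ v j i) =
        fun j => (c j : ℚ) * (∏ i, t i ^ v j i) + algebraMap ℚ ℚ ((cf j : ℤ) : ℚ) := by
      funext j
      push_cast
      rw [add_mul, htv j]
      rfl
    rw [h4]
    exact h3)
  have heq : spa v c + h = spa v (fun j => c j + cf j) + h0 := by
    have h5 : spa v (fun j => c j + cf j) = spa v c + spa v cf := by
      unfold spa
      rw [← Finset.sum_add_distrib]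
      refine Finset.sum_congr rfl fun j _ => ?_
      rw [C_add, add_mul]
    rw [h5, hh0]
    ring
  have hkept : kept v h0 = kept v h := by
    ext w
    rw [mem_kept, mem_kept]
    constructor
    · rintro ⟨h6, h7⟩
      exact ⟨hs1 w h6, h7⟩
    · rintro ⟨h6, h7⟩
      refine ⟨?_, h7⟩
      rw [mem_support_iff] at h6 ⊢
      have h8 : coeff w (spa v cf) = 0 := by
        by_contra hne
        apply h7
        unfold spa at hne
        rw [coeff_sum] at hne
        obtain ⟨j, -, hj⟩ := Finset.exists_ne_zero_of_sum_ne_zero hne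
        have h9 : (∏ i, X i ^ v j i : MvPolynomial (Fin N) ℤ) =
            monomial (Finsupp.equivFunOnFinite.symm (v j)) 1 := by
          rw [MvPolynomial.monomial_eq, C_1, one_mul, Finsupp.prod_fintype _ _ (fun _ => pow_zero _)]
          rfl
        rw [h9, coeff_C_mul, coeff_monomial] at hj
        have h10 : Finsupp.equivFunOnFinite.symm (v j) = w := by
          by_contra h11
          rw [if_neg h11, mul_zero] at hj
          exact hj rfl
        have h12 : (fun i => w i) = v j := by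
          funext i
          rw [← h10]
          rfl
        rw [h12]
        exact inC_self v _ j (Finset.mem_univ _)
      rw [hh0, coeff_sub, h8, sub_zero]
      exact h6
  unfold ConcF at h1 ⊢
  rw [heq]
  intro p hpp T₀ μ hμ hP b hb0 hb
  obtain ⟨h3, h4, α, hα, h5⟩ := h1 p hpp T₀ μ hμ hP b hb0 hb
  exact ⟨h3, h4, α, hα, fun hL => h5 (hypS_kept hkept hL)⟩

/-- under the hypothesis on the facets all the levels are fine -/
theorem levOK_of_hypL (hr : 0 < r) (v : Fin r → Fin N → ℕ) (h : MvPolynomial (Fin N) ℤ)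
    (hh : ∀ w ∈ h.support, NP v w) (hL : HypL v h) (σ : ℚ) : LevOK v h σ := by
  rintro ⟨a, ha, hg, rfl⟩
  rcases hL a ha hg with h1 | ⟨a', hg', hn', he⟩ | h1
  · left
    rw [h1, div_self]
    exact_mod_cast hg.ne'
  · exact Or.inr (Or.inl ⟨a', hg', hn', he.symm⟩)
  · exact Or.inr (Or.inr (hypS_of_locS hr v h hh _ h1))

/-- compositions, with a fixed part -/
theorem cmpH' {n κ s : ℕ} (hr : 0 < r) (hκ : 0 < κ) (m : Fin r → Fin n ⊕ Fin κ → ℕ)
    (hm : Function.Injective m) (hm0 : ∀ j, m j ≠ 0) (w : Fin s → Fin n → ℕ) (ι : Fin s → Fin κ)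
    (hw : Function.Injective fun l => (ι l, w l)) (h₀ : MvPolynomial (Fin n ⊕ Fin κ) ℤ)
    (h : Fin κ → MvPolynomial (Fin n) ℤ)
    (hS : ∀ i, h i = 0 ∨ ∀ u ∈ h₀.support, u (Sum.inr i) = 0)
    (hh : ∀ u ∈ (fixH h₀ h).support, NP (expG m w ι) u) :
    ∃ g : MvPolynomial (Fin r ⊕ Fin s) ℚ, g ≠ 0 ∧ ∀ (a : Fin r → ℤ) (b : Fin s → ℤ),
      eval (fun J => ((Sum.elim a b J : ℤ) : ℚ)) g ≠ 0 →
      (toC (compH m w ι h₀ h a b)).totalDegree ≠ 0 →
      Levels (expG m w ι) (fixH h₀ h) κ (compH m w ι h₀ h a b) := by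
  obtain ⟨g, hg, hgc⟩ := gen_ordT' (by omega) (expG m w ι) (expG_inj hm hw) (expG_ne hm0)
    (fixH h₀ h) hh
  obtain ⟨ty, tz, hy, hz, hty, htz, hgτ⟩ := exists_tor m ι (fun i => h i = 0) hg
  refine ⟨aeval (par m ι ty tz) g, hgτ, fun a b hab hdeg => ?_⟩
  rw [eval_par m w ι ty tz a b] at hab
  have hconc := hgc _ (tor ty tz) (tor_ne hy hz)
    (inv_fixH h₀ h hS hty htz) hab
  obtain ⟨ψ, hψ⟩ := comp_isoH m w ι h₀ h a b
  exact levels_down (by omega) _ (expG_ne hm0) _ hh hconc hκ hdeg ψ hψ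

end Pool.Agent.X271.DQ
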