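import Pool.Agent.X271.VNum

/-!
# Depth of `S/I` by regular sequences
-/

namespace Pool.Agent.X271.Depth

open MvPolynomial

/-- The depth of `S/I` with respect to the homogeneous maximal ideal: the supremum of the lengths
of `S/I`-regular sequences with entries in `(x_1, …, x_n)`. -/
noncomputable def depth {σ K : Type*} [Field K] (I : Ideal (MvPolynomial σ K)) : ℕ∞ :=
  sSup {n : ℕ∞ | ∃ rs : List (MvPolynomial σ K), (∀ r ∈ rs, r ∈ idealOfVars σ K) ∧
    RingTheory.Sequence.IsRegular (MvPolynomial σ K ⧸ I) rs ∧ n = (rs.length : ℕ∞)}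

section

variable {R : Type*} [CommRing R] {I : Ideal R}

theorem smul_mk_eq_zero_iff (a z : R) :
    a • (Ideal.Quotient.mk I z) = 0 ↔ a * z ∈ I := by
  rw [← Ideal.Quotient.eq_zero_iff_mem, map_mul]
  rfl

theorem isSMulRegular_iff (a : R) :
    IsSMulRegular (R ⧸ I) a ↔ ∀ z, a * z ∈ I → z ∈ I := by
  rw [isSMulRegular_iff_right_eq_zero_of_smul]
  constructor
  · intro h z hz
    exact Ideal.Quotient.eq_zero_iff_mem.1 (h _ ((smul_mk_eq_zero_iff a z).2 hz))
  · intro h x hx
    obtain ⟨z, rfl⟩ := Ideal.Quotient.mk_surjective x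
    exact Ideal.Quotient.eq_zero_iff_mem.2 (h z ((smul_mk_eq_zero_iff a z).1 hx))

theorem two_regular {a b : R} {rest : List R}
    (h : RingTheory.Sequence.IsWeaklyRegular (R ⧸ I) (a :: b :: rest)) :
    (∀ z, a * z ∈ I → z ∈ I) ∧ (∀ z c, b * z - a * c ∈ I → ∃ d, z - a * d ∈ I) := by
  rw [RingTheory.Sequence.isWeaklyRegular_cons_iff,
    RingTheory.Sequence.isWeaklyRegular_cons_iff] at h
  obtain ⟨h1, h2, _⟩ := h
  refine ⟨(isSMulRegular_iff a).1 h1, ?_⟩
  intro z c hzc
  rw [isSMulRegular_iff_right_eq_zero_of_smul] at h2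
  have h3 := h2 (Submodule.Quotient.mk (Ideal.Quotient.mk I z)) (by
    rw [← Submodule.Quotient.mk_smul, Submodule.Quotient.mk_eq_zero]
    rw [Submodule.mem_smul_pointwise_iff_exists]
    refine ⟨Ideal.Quotient.mk I c, trivial, ?_⟩
    have : b • (Ideal.Quotient.mk I) z = Ideal.Quotient.mk I (b * z) := by
      rw [map_mul]; rfl
    rw [this]
    have : a • (Ideal.Quotient.mk I) c = Ideal.Quotient.mk I (a * c) := by
      rw [map_mul]; rfl
    rw [this]
    rw [Ideal.Quotient.eq]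
    have := I.neg_mem hzc
    rwa [neg_sub] at this)
  rw [Submodule.Quotient.mk_eq_zero, Submodule.mem_smul_pointwise_iff_exists] at h3
  obtain ⟨y, _, hy⟩ := h3
  obtain ⟨d, rfl⟩ := Ideal.Quotient.mk_surjective y
  refine ⟨d, ?_⟩
  have : a • (Ideal.Quotient.mk I) d = Ideal.Quotient.mk I (a * d) := by
    rw [map_mul]; rfl
  rw [this, Ideal.Quotient.eq] at hy
  have := I.neg_mem hy
  rwa [neg_sub] at this

end

end Pool.Agent.X271.Depth
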