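import Mathlib

set_option autoImplicit false
set_option linter.unusedSectionVars false

/-! The formal inverse function theorem over a field (adapted from `Pool/Agent/Helper706/JD/K6.lean`,
where the field is `ℂ`). -/

namespace Pool.Agent.X271.FI

open MvPowerSeries

section aux

variable {ι F : Type*} [Field F]

theorem mul_diff {a a' b b' : MvPowerSeries ι F} {m n : ℕ∞} (ha : m ≤ a.order)
    (hb' : n ≤ b'.order) (haa : m + 1 ≤ (a - a').order) (hbb : n + 1 ≤ (b - b').order) :
    m + n + 1 ≤ (a * b - a' * b').order := by
  have e : a * b - a' * b' = a * (b - b') + (a - a') * b' := by ring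
  rw [e]
  refine le_trans (le_min ?_ ?_) min_order_le_add
  · refine le_trans ?_ le_order_mul
    rw [add_assoc]
    exact add_le_add ha hbb
  · refine le_trans ?_ le_order_mul
    rw [add_right_comm]
    exact add_le_add haa hb'

theorem X_order (i : ι) : 1 ≤ (X i : MvPowerSeries ι F).order := by
  rw [one_le_order_iff_constCoeff_eq_zero]
  simp

theorem prod_order (B : ι → MvPowerSeries ι F) (hB : ∀ i, 1 ≤ (B i).order) (d : ι →₀ ℕ) :
    ((Finsupp.degree d : ℕ) : ℕ∞) ≤ (d.prod fun s n => B s ^ n).order := by
  induction d using Finsupp.induction_linear with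
  | zero => simp
  | add f g hf hg =>
    rw [Finsupp.prod_add_index' (by simp) (by intro a b c; rw [pow_add]), map_add, Nat.cast_add]
    exact le_trans (add_le_add hf hg) le_order_mul
  | single i n =>
    rw [Finsupp.prod_single_index (by simp), Finsupp.degree_single]
    refine le_trans ?_ (le_order_pow n)
    rw [nsmul_eq_mul]
    calc (n : ℕ∞) = n * 1 := (mul_one _).symm
      _ ≤ n * (B i).order := by gcongr; exact hB i

theorem diff_order (B : ι → MvPowerSeries ι F) (hB : ∀ i, 2 ≤ (B i - X i).order) (d : ι →₀ ℕ) :
    ((Finsupp.degree d : ℕ) : ℕ∞) + 1 ≤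
      ((d.prod fun s n => B s ^ n) - d.prod fun s n => (X s : MvPowerSeries ι F) ^ n).order := by
  have hB1 : ∀ i, 1 ≤ (B i).order := by
    intro i
    have e : B i = (B i - X i) + X i := by ring
    rw [e]
    refine le_trans (le_min ?_ ?_) min_order_le_add
    · exact le_trans (by norm_num) (hB i)
    · exact X_order i
  induction d using Finsupp.induction_linear with
  | zero => simp
  | add f g hf hg =>
    rw [Finsupp.prod_add_index' (by simp) (by intro a b c; rw [pow_add]),
      Finsupp.prod_add_index' (by simp) (by intro a b c; rw [pow_add]), map_add, Nat.cast_add]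
    exact mul_diff (prod_order B hB1 f) (prod_order _ X_order g) hf hg
  | single i n =>
    rw [Finsupp.prod_single_index (by simp), Finsupp.prod_single_index (by simp),
      Finsupp.degree_single]
    induction n with
    | zero => simp
    | succ n ih =>
      rw [pow_succ, pow_succ, Nat.cast_succ]
      refine mul_diff ?_ (X_order i) ih ?_
      · have := prod_order B hB1 (Finsupp.single i n)
        rwa [Finsupp.prod_single_index (by simp), Finsupp.degree_single] at this
      · exact le_trans (by norm_num) (hB i)

theorem coeff_substB (B : ι → MvPowerSeries ι F) (hs : HasSubst B)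
    (hB : ∀ i, 2 ≤ (B i - X i).order)
    (f : MvPowerSeries ι F) (e : ι →₀ ℕ) (he : ((Finsupp.degree e : ℕ) : ℕ∞) ≤ f.order) :
    coeff e (subst B f : MvPowerSeries ι F) = coeff e f := by
  have h1 : coeff e f = coeff e (subst (X : ι → MvPowerSeries ι F) f : MvPowerSeries ι F) := by
    rw [subst_self]; rfl
  rw [h1, coeff_subst hs, coeff_subst HasSubst.X]
  congr 1
  funext d
  by_cases hd : coeff d f = 0
  · rw [hd, zero_smul, zero_smul]
  · have h2 := order_le hd
    have h3 : coeff e ((d.prod fun s n => B s ^ n) -
        d.prod fun s n => (X s : MvPowerSeries ι F) ^ n) = 0 := by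
      apply coeff_of_lt_order
      have h4 := diff_order B hB d
      refine lt_of_lt_of_le ?_ h4
      have h5 : ((Finsupp.degree e : ℕ) : ℕ∞) ≤ Finsupp.degree d := he.trans h2
      have h6 : Finsupp.degree e ≤ Finsupp.degree d := by exact_mod_cast h5
      have h7 : Finsupp.degree e < Finsupp.degree d + 1 := by omega
      exact_mod_cast h7
    rw [map_sub, sub_eq_zero] at h3
    rw [h3]

theorem subst_inj (B : ι → MvPowerSeries ι F) (hs : HasSubst B)
    (hB : ∀ i, 2 ≤ (B i - X i).order)
    (f : MvPowerSeries ι F) (hf : (subst B f : MvPowerSeries ι F) = 0) : f = 0 := by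
  by_contra h
  obtain ⟨e, he1, he2⟩ := exists_coeff_ne_zero_and_order (ne_zero_iff_order_finite.mp h)
  apply he1
  rw [← coeff_substB B hs hB f e he2.le, hf, map_zero]

theorem subst_surj (B : ι → MvPowerSeries ι F) (hs : HasSubst B)
    (hB : ∀ i, 2 ≤ (B i - X i).order)
    (g : MvPowerSeries ι F) : ∃ f : MvPowerSeries ι F, (subst B f : MvPowerSeries ι F) = g := by
  set G : ℕ → MvPowerSeries ι F := fun k =>
    Nat.rec g (fun _ Fk => Fk + (g - subst B Fk)) k with hG
  have hFs : ∀ k, G (k+1) = G k + (g - subst B (G k)) := fun k => rfl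
  have hr : ∀ k : ℕ, (k : ℕ∞) ≤ (g - subst B (G k)).order := by
    intro k
    induction k with
    | zero => simp
    | succ k ih =>
      have e1 : g - subst B (G (k+1)) = (g - subst B (G k)) - subst B (g - subst B (G k)) := by
        rw [hFs, subst_add hs]; ring
      rw [e1]
      apply nat_le_order
      intro e he
      rw [map_sub, coeff_substB B hs hB _ e, sub_self]
      refine le_trans ?_ ih
      have : Finsupp.degree e ≤ k := by omega
      exact_mod_cast this
  have hstab : ∀ (e : ι →₀ ℕ) (k : ℕ), Finsupp.degree e + 1 ≤ k →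
      coeff e (G k) = coeff e (G (Finsupp.degree e + 1)) := by
    intro e k hk
    induction k, hk using Nat.le_induction with
    | base => rfl
    | succ k hk ih =>
      rw [hFs, map_add, ih]
      have : coeff e (g - subst B (G k)) = 0 := by
        apply coeff_of_lt_order
        refine lt_of_lt_of_le ?_ (hr k)
        have : Finsupp.degree e < k := by omega
        exact_mod_cast this
      rw [this, add_zero]
  set f : MvPowerSeries ι F := fun e => coeff e (G (Finsupp.degree e + 1)) with hf
  have hfe : ∀ e, coeff e f = coeff e (G (Finsupp.degree e + 1)) := fun e => rfl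
  refine ⟨f, ?_⟩
  ext e
  set n := Finsupp.degree e + 1 with hn
  have h1 : (n : ℕ∞) ≤ (f - G n).order := by
    apply nat_le_order
    intro e' he'
    rw [map_sub, hfe, hstab e' n (by omega), sub_self]
  have h2 : f = G n + (f - G n) := by ring
  have h3 : coeff e (subst B (f - G n) : MvPowerSeries ι F) = 0 := by
    rw [coeff_substB B hs hB _ e]
    · apply coeff_of_lt_order
      refine lt_of_lt_of_le ?_ h1
      have : Finsupp.degree e < n := by omega
      exact_mod_cast this
    · refine le_trans ?_ h1
      have : Finsupp.degree e ≤ n := by omega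
      exact_mod_cast this
  have h4 : coeff e (g - subst B (G n)) = 0 := by
    apply coeff_of_lt_order
    refine lt_of_lt_of_le ?_ (hr n)
    have : Finsupp.degree e < n := by omega
    exact_mod_cast this
  rw [h2, subst_add hs, map_add, h3, add_zero]
  rw [map_sub, sub_eq_zero] at h4
  exact h4.symm

end aux

/-- formal inverse function theorem -/
theorem exists_formal_inverse {ι F : Type*} [Field F] [Fintype ι] [DecidableEq ι] (A : ι → MvPowerSeries ι F)
    (h0 : ∀ i, constantCoeff (A i) = 0)
    (hJ : IsUnit (Matrix.of fun i j => coeff (Finsupp.single j 1) (A i)).det) :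
    ∃ C : ι → MvPowerSeries ι F, (∀ i, constantCoeff (C i) = 0) ∧
      (∀ i, (subst A (C i) : MvPowerSeries ι F) = X i) ∧
      (∀ i, (subst C (A i) : MvPowerSeries ι F) = X i) := by
  set J : Matrix ι ι F := Matrix.of fun i j => coeff (Finsupp.single j 1) (A i) with hJdef
  have hJc : ∀ i j, J i j = coeff (Finsupp.single j 1) (A i) := fun i j => rfl
  have hA : HasSubst A := hasSubst_of_constantCoeff_zero h0
  -- linear maps
  set L : Matrix ι ι F → ι → MvPowerSeries ι F := fun K i => ∑ j, K i j • X j with hL
  have hL0 : ∀ K i, constantCoeff (L K i) = 0 := by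
    intro K i
    simp only [hL, map_sum]
    apply Finset.sum_eq_zero
    intro j _
    simp
  have hLs : ∀ K, HasSubst (L K) := fun K => hasSubst_of_constantCoeff_zero (hL0 K)
  have hsum : ∀ (a : ι → MvPowerSeries ι F) (ha : HasSubst a) (K : Matrix ι ι F) (i : ι),
      (subst a (L K i) : MvPowerSeries ι F) = ∑ j, K i j • a j := by
    intro a ha K i
    rw [← substAlgHom_apply ha]
    simp only [hL, map_sum, map_smul, substAlgHom_X]
  set B : ι → MvPowerSeries ι F := fun i => ∑ j, J⁻¹ i j • A j with hB
  have hBA : ∀ i, (subst A (L J⁻¹ i) : MvPowerSeries ι F) = B i := fun i => hsum A hA J⁻¹ i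
  have hB0 : ∀ i, constantCoeff (B i) = 0 := by
    intro i
    simp only [hB, map_sum]
    apply Finset.sum_eq_zero
    intro j _
    have : constantCoeff (J⁻¹ i j • A j) = J⁻¹ i j * constantCoeff (A j) := by
      rw [← coeff_zero_eq_constantCoeff_apply, ← coeff_zero_eq_constantCoeff_apply]
      simp
    rw [this, h0, mul_zero]
  have hBs : HasSubst B := hasSubst_of_constantCoeff_zero hB0
  have hB2 : ∀ i, 2 ≤ (B i - X i).order := by
    intro i
    have : ((2 : ℕ) : ℕ∞) ≤ (B i - X i).order := by
      apply nat_le_order
      intro e he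
      have he' : Finsupp.degree e = 0 ∨ Finsupp.degree e = 1 := by omega
      rcases he' with he' | he'
      · rw [Finsupp.degree_eq_zero_iff] at he'
        rw [he', coeff_zero_eq_constantCoeff_apply, map_sub, hB0]
        simp
      · obtain ⟨k, hk⟩ : ∃ k, e = Finsupp.single k 1 := by
          have h1 : e ∈ Set.range (fun a : ι => Finsupp.single a 1) := by
            rw [Finsupp.range_single_one]; exact he'
          obtain ⟨k, hk⟩ := h1
          exact ⟨k, hk.symm⟩
        rw [hk, map_sub]
        have h1 : coeff (Finsupp.single k 1) (B i) = (J⁻¹ * J) i k := by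
          simp only [hB, map_sum, Matrix.mul_apply, hJc]
          apply Finset.sum_congr rfl
          intro j _
          simp
        rw [h1, Matrix.nonsing_inv_mul J hJ, Matrix.one_apply, coeff_X]
        by_cases hik : i = k
        · subst hik; simp
        · rw [if_neg hik, if_neg, sub_self]
          intro h
          apply hik
          exact (Finsupp.single_left_injective one_ne_zero h).symm
    exact_mod_cast this
  have hcomp : ∀ f : MvPowerSeries ι F, (subst A (subst (L J⁻¹) f : MvPowerSeries ι F) : MvPowerSeries ι F) = subst B f := by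
    intro f
    rw [subst_comp_subst_apply (hLs _) hA]
    congr 1
    funext i
    exact hBA i
  -- surjectivity of the linear substitution
  have hLsurj : ∀ f : MvPowerSeries ι F, (subst (L J⁻¹) (subst (L J) f : MvPowerSeries ι F) : MvPowerSeries ι F) = f := by
    intro f
    rw [subst_comp_subst_apply (hLs _) (hLs _)]
    have : (fun s => (subst (L J⁻¹) (L J s) : MvPowerSeries ι F)) = X := by
      funext i
      rw [hsum _ (hLs _)]
      simp only [hL, Finset.smul_sum, smul_smul]
      rw [Finset.sum_comm]
      simp only [← Finset.sum_smul]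
      have h2 : ∀ k, ∑ j, J i j * J⁻¹ j k = (1 : Matrix ι ι F) i k := by
        intro k
        rw [← Matrix.mul_nonsing_inv J hJ, Matrix.mul_apply]
      simp only [h2, Matrix.one_apply, ite_smul, one_smul, zero_smul, Finset.sum_ite_eq,
        Finset.mem_univ, if_true]
    rw [this, subst_self]; rfl
  have hAinj : ∀ f : MvPowerSeries ι F, (subst A f : MvPowerSeries ι F) = 0 → f = 0 := by
    intro f hf
    rw [← hLsurj f, hcomp] at hf
    have := subst_inj B hBs hB2 _ hf
    rw [← hLsurj f, this, ← substAlgHom_apply (hLs _), map_zero]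
  have hex : ∀ i, ∃ c : MvPowerSeries ι F, (subst A c : MvPowerSeries ι F) = X i := by
    intro i
    obtain ⟨f, hf⟩ := subst_surj B hBs hB2 (X i)
    exact ⟨subst (L J⁻¹) f, by rw [hcomp, hf]⟩
  choose C hC using hex
  have hC0 : ∀ i, constantCoeff (C i) = 0 := by
    intro i
    have h1 : C i = (C i - MvPowerSeries.C (constantCoeff (C i))) + MvPowerSeries.C (constantCoeff (C i)) := by ring
    have h2 : constantCoeff (subst A (C i - MvPowerSeries.C (constantCoeff (C i))) : MvPowerSeries ι F) = 0 := by
      apply constantCoeff_subst_eq_zero hA h0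
      simp
    have h3 := congrArg constantCoeff (hC i)
    rw [h1, subst_add hA, map_add, h2, subst_C, zero_add] at h3
    simpa using h3
  have hCs : HasSubst C := hasSubst_of_constantCoeff_zero hC0
  refine ⟨C, hC0, hC, ?_⟩
  intro i
  have h1 : (subst A (subst C (A i) : MvPowerSeries ι F) : MvPowerSeries ι F) = A i := by
    rw [subst_comp_subst_apply hCs hA]
    have : (fun s => (subst A (C s) : MvPowerSeries ι F)) = X := funext hC
    rw [this, subst_self]; rfl
  have h2 : (subst A (subst C (A i) - X i : MvPowerSeries ι F) : MvPowerSeries ι F) = 0 := by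
    rw [subst_sub hA, h1, subst_X hA, sub_self]
  exact sub_eq_zero.mp (hAinj _ h2)


end Pool.Agent.X271.FI
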