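import Pool.Agent.X271.FInv
import Pool.Agent.X271.LocThm

set_option autoImplicit false
set_option linter.unusedVariables false

/-! The classes of jets with origin `0` are invariant under formal changes of coordinates and
multiplication by units. -/

namespace Pool.Agent.X271.GE

open MvPolynomial Pool.Agent.W428.MOT Pool.Agent.W375.MT Pool.Agent.Y229.MS
open Pool.Agent.W375.MG (JetG Good zetaG)
open Pool.Agent.Z864.MS (constr_JetE coeff_zero_aeval)

/-- `φ` are formal coordinates at the origin, with origin `0`: the constant coefficients are zero and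
the determinant of the linear parts is not zero. -/
structure FCoord {k : Type} [Field k] {n : ℕ} (φ : Fin n → MvPowerSeries (Fin n) k) : Prop where
  zero : ∀ i, MvPowerSeries.constantCoeff (φ i) = 0
  det : (Matrix.of fun i j => MvPowerSeries.coeff (Finsupp.single j 1) (φ i)).det ≠ 0

/-- `F` and `G` are the same function up to a unit in formal coordinates at the origin -/
def Eqv {k : Type} [Field k] {n : ℕ} (F G : MvPolynomial (Fin n) k) : Prop :=
  ∃ (φ : Fin n → MvPowerSeries (Fin n) k) (u : MvPowerSeries (Fin n) k), FCoord φ ∧ IsUnit u ∧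
    MvPowerSeries.subst φ (F : MvPowerSeries (Fin n) k) = u * (G : MvPowerSeries (Fin n) k)

section subst
variable {K : Type} [Field K] {n : ℕ} {L : Type} [Field L] [Algebra K L]

theorem hs (a : Fin n → PowerSeries L) (ha : ∀ i, PowerSeries.constantCoeff (a i) = 0) :
    MvPowerSeries.HasSubst (a : Fin n → MvPowerSeries Unit L) :=
  MvPowerSeries.hasSubst_of_constantCoeff_zero ha

/-- the value of a power series on an arc -/
noncomputable def ev (a : Fin n → PowerSeries L) (p : MvPowerSeries (Fin n) K) : PowerSeries L :=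
  MvPowerSeries.subst (a : Fin n → MvPowerSeries Unit L) p

theorem ev_zero (a : Fin n → PowerSeries L) (ha : ∀ i, PowerSeries.constantCoeff (a i) = 0)
    (p : MvPowerSeries (Fin n) K) (hp : MvPowerSeries.constantCoeff p = 0) :
    PowerSeries.constantCoeff (ev a p) = 0 :=
  MvPowerSeries.constantCoeff_subst_eq_zero (hs a ha) ha hp

theorem coeff_tail (a : Fin n → PowerSeries L) (ha : ∀ i, PowerSeries.constantCoeff (a i) = 0)
    (p : MvPowerSeries (Fin n) K) (N : ℕ) (hp : ((N + 1 : ℕ) : ℕ∞) ≤ p.order) {k : ℕ}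
    (hk : k ≤ N) : PowerSeries.coeff k (ev a p) = 0 := by
  have h1 := MvPowerSeries.le_order_subst (hs a ha) p
  have h2 : (1 : ℕ∞) ≤ ⨅ i, MvPowerSeries.order (a i) :=
    le_iInf fun i => MvPowerSeries.one_le_order_iff_constCoeff_eq_zero.2 (ha i)
  have h3 : ((N + 1 : ℕ) : ℕ∞) ≤ MvPowerSeries.order
      (MvPowerSeries.subst (a : Fin n → MvPowerSeries Unit L) p) := by
    refine le_trans ?_ h1
    refine hp.trans ?_
    calc p.order = 1 * p.order := (one_mul _).symm
      _ ≤ _ := mul_le_mul_left h2 _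
  unfold ev
  rw [PowerSeries.coeff]
  refine MvPowerSeries.coeff_of_lt_order (lt_of_lt_of_le ?_ h3)
  rw [Finsupp.degree_single]
  exact_mod_cast Nat.lt_succ_of_le hk

theorem order_tail (m : ℕ) (f : MvPowerSeries (Fin n) K) :
    (m : ℕ∞) ≤ (f - (MvPowerSeries.truncTotal m f : MvPowerSeries (Fin n) K)).order := by
  apply MvPowerSeries.nat_le_order
  intro e he
  rw [map_sub, MvPolynomial.coeff_coe, MvPowerSeries.coeff_truncTotal _ he, sub_self]

theorem ev_add (a : Fin n → PowerSeries L) (ha : ∀ i, PowerSeries.constantCoeff (a i) = 0)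
    (p q : MvPowerSeries (Fin n) K) : ev a (p + q) = ev a p + ev a q :=
  MvPowerSeries.subst_add (hs a ha) p q

theorem ev_mul (a : Fin n → PowerSeries L) (ha : ∀ i, PowerSeries.constantCoeff (a i) = 0)
    (p q : MvPowerSeries (Fin n) K) : ev a (p * q) = ev a p * ev a q :=
  MvPowerSeries.subst_mul (hs a ha) p q

theorem ev_coe (a : Fin n → PowerSeries L) (ha : ∀ i, PowerSeries.constantCoeff (a i) = 0)
    (p : MvPolynomial (Fin n) K) : ev a (p : MvPowerSeries (Fin n) K) = aeval a p :=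
  MvPowerSeries.subst_coe p

theorem coeff_trunc (a : Fin n → PowerSeries L)
    (ha : ∀ i, PowerSeries.constantCoeff (a i) = 0) (p : MvPowerSeries (Fin n) K) (N : ℕ)
    {k : ℕ} (hk : k ≤ N) : PowerSeries.coeff k (ev a p) =
      PowerSeries.coeff k (aeval a (MvPowerSeries.truncTotal (N + 1) p)) := by
  have h1 : ev a p = ev a (MvPowerSeries.truncTotal (N + 1) p : MvPowerSeries (Fin n) K) +
      ev a (p - (MvPowerSeries.truncTotal (N + 1) p : MvPowerSeries (Fin n) K)) := by
    rw [← ev_add a ha, add_sub_cancel]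
  rw [h1, map_add, coeff_tail a ha _ N (order_tail (N + 1) p) hk, add_zero, ev_coe a ha]

theorem ev_comp (a : Fin n → PowerSeries L) (ha : ∀ i, PowerSeries.constantCoeff (a i) = 0)
    {φ : Fin n → MvPowerSeries (Fin n) K} (hφ : ∀ i, MvPowerSeries.constantCoeff (φ i) = 0)
    (p : MvPowerSeries (Fin n) K) :
    ev a (MvPowerSeries.subst φ p) = ev (fun i => ev a (φ i)) p :=
  MvPowerSeries.subst_comp_subst_apply (MvPowerSeries.hasSubst_of_constantCoeff_zero hφ)
    (hs a ha) p

theorem ev_X (a : Fin n → PowerSeries L) (ha : ∀ i, PowerSeries.constantCoeff (a i) = 0)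
    (i : Fin n) : ev a (MvPowerSeries.X i : MvPowerSeries (Fin n) K) = a i :=
  MvPowerSeries.subst_X (hs a ha) i

theorem ev_const (a : Fin n → PowerSeries L) (ha : ∀ i, PowerSeries.constantCoeff (a i) = 0)
    (p : MvPowerSeries (Fin n) K) :
    PowerSeries.constantCoeff (ev a p) = algebraMap K L (MvPowerSeries.constantCoeff p) := by
  have h1 : ev a p = ev a ((MvPolynomial.C (MvPowerSeries.constantCoeff p) :
      MvPolynomial (Fin n) K) : MvPowerSeries (Fin n) K) +
      ev a (p - ((MvPolynomial.C (MvPowerSeries.constantCoeff p) :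
      MvPolynomial (Fin n) K) : MvPowerSeries (Fin n) K)) := by
    rw [← ev_add a ha, add_sub_cancel]
  rw [h1, map_add, ev_zero a ha (p - _) (by
    rw [map_sub, MvPolynomial.coe_C, MvPowerSeries.constantCoeff_C, sub_self]), add_zero,
    ev_coe a ha, MvPolynomial.algHom_C, PowerSeries.algebraMap_apply, PowerSeries.constantCoeff_C]

end subst

section jets
variable {K : Type} [Field K] {n N : ℕ}

theorem ev_congr (p : MvPowerSeries (Fin n) K) (N : ℕ)
    (a b : Fin n → PowerSeries (AlgebraicClosure K))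
    (ha : ∀ i, PowerSeries.constantCoeff (a i) = 0)
    (hb : ∀ i, PowerSeries.constantCoeff (b i) = 0)
    (h : ∀ i, ∀ k ≤ N, PowerSeries.coeff k (a i) = PowerSeries.coeff k (b i)) :
    ∀ k ≤ N, PowerSeries.coeff k (ev a p) = PowerSeries.coeff k (ev b p) := by
  intro k hk
  rw [coeff_trunc a ha p N hk, coeff_trunc b hb p N hk]
  exact coeff_aeval_congr _ N a b h k hk

/-- composition of jets with a formal map -/
noncomputable def Tf (φ : Fin n → MvPowerSeries (Fin n) K) (N : ℕ)
    (z : Pt K (Fin n × Fin (N + 1))) : Pt K (Fin n × Fin (N + 1)) :=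
  fun p => PowerSeries.coeff (p.2 : ℕ)
    (aeval (arc z) (MvPowerSeries.truncTotal (N + 1) (φ p.1)))

theorem isPF_Tf (φ : Fin n → MvPowerSeries (Fin n) K) (p : Fin n × Fin (N + 1)) :
    IsPF (fun z => Tf φ N z p) :=
  IsPA.aeval (fun i z => arc z i) (fun i => isPA_arc i) _ p.2

theorem arc_const {z : Pt K (Fin n × Fin (N + 1))} (hz : ∀ i, z (i, 0) = 0) (i : Fin n) :
    PowerSeries.constantCoeff (arc z i) = 0 := by
  rw [← PowerSeries.coeff_zero_eq_constantCoeff_apply, coeff_arc _ _ _ (Nat.succ_pos N)]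
  exact hz i

theorem Tf_apply {φ : Fin n → MvPowerSeries (Fin n) K} {z : Pt K (Fin n × Fin (N + 1))}
    (hz : ∀ i, z (i, 0) = 0) (i : Fin n) (k : ℕ) (hk : k ≤ N) :
    PowerSeries.coeff k (arc (Tf φ N z) i) = PowerSeries.coeff k (ev (arc z) (φ i)) := by
  rw [coeff_arc _ _ _ (by omega), coeff_trunc (arc z) (arc_const hz) (φ i) N hk]
  rfl

theorem Tf_zero {φ : Fin n → MvPowerSeries (Fin n) K}
    (hφ : ∀ i, MvPowerSeries.constantCoeff (φ i) = 0) {z : Pt K (Fin n × Fin (N + 1))}
    (hz : ∀ i, z (i, 0) = 0) (i : Fin n) : Tf φ N z (i, 0) = 0 := by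
  have h1 := Tf_apply (φ := φ) hz i 0 (Nat.zero_le N)
  rw [coeff_arc _ _ _ (Nat.succ_pos N), PowerSeries.coeff_zero_eq_constantCoeff_apply,
    ev_zero (arc z) (arc_const hz) (φ i) (hφ i)] at h1
  exact h1

theorem coeff_Tf {φ : Fin n → MvPowerSeries (Fin n) K}
    (hφ : ∀ i, MvPowerSeries.constantCoeff (φ i) = 0) {z : Pt K (Fin n × Fin (N + 1))}
    (hz : ∀ i, z (i, 0) = 0) (p : MvPowerSeries (Fin n) K) (k : ℕ) (hk : k ≤ N) :
    PowerSeries.coeff k (ev (arc (Tf φ N z)) p) =
      PowerSeries.coeff k (ev (arc z) (MvPowerSeries.subst φ p)) := by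
  rw [ev_comp (arc z) (arc_const hz) hφ]
  exact ev_congr p N _ _ (arc_const (Tf_zero hφ hz))
    (fun i => ev_zero (arc z) (arc_const hz) (φ i) (hφ i)) (fun i k hk => Tf_apply hz i k hk) k hk

theorem Tf_Tf {φ ψ : Fin n → MvPowerSeries (Fin n) K}
    (hφ : ∀ i, MvPowerSeries.constantCoeff (φ i) = 0)
    (h : ∀ i, MvPowerSeries.subst φ (ψ i) = (MvPowerSeries.X i : MvPowerSeries (Fin n) K))
    {z : Pt K (Fin n × Fin (N + 1))} (hz : ∀ i, z (i, 0) = 0) : Tf ψ N (Tf φ N z) = z := by
  funext p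
  obtain ⟨i, k⟩ := p
  have h1 : Tf ψ N (Tf φ N z) (i, k) = PowerSeries.coeff (k : ℕ) (ev (arc (Tf φ N z)) (ψ i)) :=
    (coeff_trunc (arc (Tf φ N z)) (arc_const (Tf_zero hφ hz)) (ψ i) N
      (Nat.lt_succ_iff.1 k.2)).symm
  rw [h1, coeff_Tf hφ hz _ _ (Nat.lt_succ_iff.1 k.2), h i, ev_X (arc z) (arc_const hz),
    coeff_arc _ _ _ k.2]

/-- orders and leading coefficients of products with units -/
theorem lead {L : Type} [Field L] {P Q U : PowerSeries L} (h : P = U * Q) {c : L}
    (hU : PowerSeries.constantCoeff U = c) (hc : c ≠ 0) (N : ℕ) :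
    ((∀ j < N, PowerSeries.coeff j P = 0) ↔ ∀ j < N, PowerSeries.coeff j Q = 0) ∧
    ((∀ j < N, PowerSeries.coeff j Q = 0) →
      PowerSeries.coeff N P = c * PowerSeries.coeff N Q) := by
  have hU' : IsUnit U := by
    rw [PowerSeries.isUnit_iff_constantCoeff, hU]
    exact isUnit_iff_ne_zero.2 hc
  refine ⟨?_, fun h1 => ?_⟩
  · rw [← PowerSeries.X_pow_dvd_iff, ← PowerSeries.X_pow_dvd_iff, h]
    exact hU'.dvd_mul_left
  · obtain ⟨Q', rfl⟩ := PowerSeries.X_pow_dvd_iff.2 h1
    rw [h, mul_left_comm, PowerSeries.coeff_X_pow_mul', if_pos le_rfl, Nat.sub_self,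
      PowerSeries.coeff_X_pow_mul', if_pos le_rfl, Nat.sub_self,
      PowerSeries.coeff_zero_eq_constantCoeff_apply, map_mul, hU,
      PowerSeries.coeff_zero_eq_constantCoeff_apply]

/-- the set `{a : c a ∈ E}` -/
def scE (c : K) (E : Set (AlgebraicClosure K)) : Set (AlgebraicClosure K) :=
  {a | algebraMap K (AlgebraicClosure K) c * a ∈ E}

theorem ce_scE (c : K) {E : Set (AlgebraicClosure K)} (hE : CE E) : CE (scE c E) := fun F hF =>
  hE (fun z => algebraMap K (AlgebraicClosure K) c * F z) ((IsPF.const c).mul hF)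

theorem good_scE (c : K) {E : Set (AlgebraicClosure K)} (hE : Good E) : Good (scE c E) where
  constr := fun F hF => ce_scE c (ce_good hE) F hF
  zero := by
    intro h
    apply hE.zero
    have h1 : algebraMap K (AlgebraicClosure K) c * 0 ∈ E := h
    rwa [mul_zero] at h1

theorem zero_constr : Constr ({0} : Set (Pt K (Fin n))) := by
  have h2 : ({0} : Set (Pt K (Fin n))) = {z | ∀ i, z i = (0 : AlgebraicClosure K)} := by
    ext z
    simp only [Set.mem_singleton_iff, Set.mem_ofPred_eq]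
    constructor
    · rintro rfl i
      rfl
    · intro h
      funext i
      exact h i
  rw [h2]
  exact Constr.all fun i => Constr.eq (IsPF.coord _) IsPF.zero

/-- **Invariance of the classes of jets with origin `0`.** -/
theorem germ_chi {R : Type} [CommRing R] (M : Meas K R) {F G : MvPolynomial (Fin n) K}
    {φ : Fin n → MvPowerSeries (Fin n) K} (hφ : FCoord φ) {u : MvPowerSeries (Fin n) K} {c : K}
    (hu : MvPowerSeries.constantCoeff u = c) (hc : c ≠ 0)
    (h : MvPowerSeries.subst φ (F : MvPowerSeries (Fin n) K) = u * (G : MvPowerSeries (Fin n) K))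
    {E : Set (AlgebraicClosure K)} (hE : CE E) (N : ℕ) :
    M.χ _ (JetG F {0} E N) = M.χ _ (JetG G {0} (scE c E) N) := by
  obtain ⟨ψ, hψ0, hφψ, hψφ⟩ := Pool.Agent.X271.FI.exists_formal_inverse φ hφ.zero
    (isUnit_iff_ne_zero.2 hφ.det)
  have hsψ := MvPowerSeries.hasSubst_of_constantCoeff_zero hψ0
  have hsφ := MvPowerSeries.hasSubst_of_constantCoeff_zero hφ.zero
  set cb := algebraMap K (AlgebraicClosure K) c with hcb
  have hcb0 : cb ≠ 0 := (map_ne_zero _).2 hc
  -- `F = (u ∘ ψ) (G ∘ ψ)`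
  have hF : (F : MvPowerSeries (Fin n) K) = MvPowerSeries.subst ψ u *
      MvPowerSeries.subst ψ (G : MvPowerSeries (Fin n) K) := by
    rw [← MvPowerSeries.subst_mul hsψ, ← h, MvPowerSeries.subst_comp_subst_apply hsφ hsψ]
    have h1 : (fun s => (MvPowerSeries.subst ψ (φ s) : MvPowerSeries (Fin n) K)) =
        MvPowerSeries.X := funext hψφ
    rw [h1, MvPowerSeries.subst_self]
    rfl
  have hz0 : ∀ z : Pt K (Fin n × Fin (N + 1)), (fun i => z (i, 0)) ∈ ({0} : Set (Pt K (Fin n))) →
      ∀ i, z (i, 0) = 0 := fun z hz i => congrFun (Set.mem_singleton_iff.1 hz) i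
  refine (M.iso _ _ (constr_JetE _ zero_constr (ce_scE c hE) N)
    (constr_JetE F zero_constr hE N) (Tf φ N) (Tf ψ N)
    (regularOn_poly (fun p => isPF_Tf _ p) _) (regularOn_poly (fun p => isPF_Tf _ p) _)
    ?_ ?_ (fun z hz => Tf_Tf hφ.zero hφψ (hz0 z hz.1))
    (fun z hz => Tf_Tf hψ0 hψφ (hz0 z hz.1))).symm
  · rintro z ⟨g1, g2, g3⟩
    have hz := hz0 z g1
    have hac := arc_const hz
    have hP : ∀ k ≤ N, PowerSeries.coeff k (aeval (arc (Tf φ N z)) F) =
        PowerSeries.coeff k (ev (arc z) u * aeval (arc z) G) := by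
      intro k hk
      rw [← ev_coe (arc (Tf φ N z)) (arc_const (Tf_zero hφ.zero hz)),
        coeff_Tf hφ.zero hz _ k hk, h, ev_mul (arc z) hac, ev_coe (arc z) hac G]
    obtain ⟨l1, l2⟩ := lead (P := ev (arc z) u * aeval (arc z) G) (Q := aeval (arc z) G)
      (U := ev (arc z) u) rfl (c := cb) (by rw [ev_const (arc z) hac, hu]) hcb0 N
    refine ⟨?_, fun j hj => ?_, ?_⟩
    · exact funext fun i => Tf_zero hφ.zero hz i
    · rw [hP j hj.le]
      exact l1.2 g2 j hj
    · rw [hP N le_rfl, l2 g2]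
      exact g3
  · rintro z ⟨g1, g2, g3⟩
    have hz := hz0 z g1
    have hac := arc_const hz
    have hP : ∀ k ≤ N, PowerSeries.coeff k (aeval (arc (Tf ψ N z)) G) =
        PowerSeries.coeff k (ev (arc z) (MvPowerSeries.subst ψ
          (G : MvPowerSeries (Fin n) K) : MvPowerSeries (Fin n) K)) := by
      intro k hk
      rw [← ev_coe (arc (Tf ψ N z)) (arc_const (Tf_zero hψ0 hz)), coeff_Tf hψ0 hz _ k hk]
    have huc : MvPowerSeries.constantCoeff (MvPowerSeries.subst ψ u :
        MvPowerSeries (Fin n) K) = c := by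
      have h1 : u = (u - MvPowerSeries.C c) + MvPowerSeries.C c := by ring
      rw [h1, MvPowerSeries.subst_add hsψ, map_add,
        MvPowerSeries.constantCoeff_subst_eq_zero hsψ hψ0 (by
          rw [map_sub, hu, MvPowerSeries.constantCoeff_C, sub_self]), MvPowerSeries.subst_C,
        zero_add]
      simp
    obtain ⟨l1, l2⟩ := lead (P := aeval (arc z) F)
      (Q := ev (arc z) (MvPowerSeries.subst ψ (G : MvPowerSeries (Fin n) K) :
        MvPowerSeries (Fin n) K))
      (U := ev (arc z) (MvPowerSeries.subst ψ u : MvPowerSeries (Fin n) K))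
      (by rw [← ev_mul (arc z) hac, ← hF, ev_coe (arc z) hac]) (c := cb)
      (by rw [ev_const (arc z) hac, huc]) hcb0 N
    refine ⟨?_, fun j hj => ?_, ?_⟩
    · exact funext fun i => Tf_zero hψ0 hz i
    · rw [hP j hj.le]
      exact l1.1 g2 j hj
    · rw [hP N le_rfl]
      show cb * _ ∈ E
      rw [← l2 (l1.1 g2)]
      exact g3

/-- **Invariance of the zeta functions.** -/
theorem germ_zeta [CharZero K] {F G : MvPolynomial (Fin n) K}
    {φ : Fin n → MvPowerSeries (Fin n) K} (hφ : FCoord φ) {u : MvPowerSeries (Fin n) K} {c : K}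
    (hu : MvPowerSeries.constantCoeff u = c) (hc : c ≠ 0)
    (h : MvPowerSeries.subst φ (F : MvPowerSeries (Fin n) K) = u * (G : MvPowerSeries (Fin n) K))
    {E : Set (AlgebraicClosure K)} (hE : CE E) :
    zetaG F {0} E = zetaG G {0} (scE c E) := by
  obtain ⟨M₀, hM₀⟩ := Pool.Agent.W417.MT.K0.main K
  ext N
  rw [zetaG, zetaG, PowerSeries.coeff_mk, PowerSeries.coeff_mk, ← hM₀, ← hM₀,
    germ_chi M₀ hφ hu hc h hE N]

end jets

end Pool.Agent.X271.GE
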