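import Pool.Agent.X271.GermInd
import Pool.Agent.X271.MotCmp

set_option autoImplicit false
set_option linter.unusedVariables false

/-! Germs of functions on smooth complete intersections (adapted from `Pool/Agent/Y229/PS/Emb.lean`,
where the field is `ℂ`). -/

namespace Pool.Agent.X271.GE

open MvPowerSeries
open Pool.Agent.Y229.RE
open Pool.Agent.Y229.MS (stabK)

variable {k : Type} [Field k] {n κ r : ℕ}

theorem coe_stabK (f : MvPolynomial (Fin n) k) :
    ((stabK f κ : MvPolynomial (Fin (n + (κ + κ))) k) : MvPowerSeries (Fin (n + (κ + κ))) k) =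
      rename (Fin.castAdd (κ + κ)) (f : MvPowerSeries (Fin n) k) +
        ∑ i : Fin κ, X (Fin.natAdd n (Fin.castAdd κ i)) * X (Fin.natAdd n (Fin.natAdd κ i)) := by
  unfold stabK
  rw [MvPolynomial.coe_add, rename_coe]
  congr 1
  rw [← MvPolynomial.coeToMvPowerSeries.ringHom_apply, map_sum]
  refine Finset.sum_congr rfl fun i _ => ?_
  rw [map_mul, MvPolynomial.coeToMvPowerSeries.ringHom_apply,
    MvPolynomial.coeToMvPowerSeries.ringHom_apply, MvPolynomial.coe_X, MvPolynomial.coe_X]

/-- the change of coordinates `z_i ↦ l_i`, `y_i ↦ y_i + q_i` -/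
noncomputable def PhiP (q l : Fin κ → MvPowerSeries (Fin (n + κ)) k) :
    Fin (n + (κ + κ)) → MvPowerSeries (Fin (n + (κ + κ))) k :=
  Fin.append (fun i => X (xv κ i)) (Fin.append (fun i => X (yv n i) + rename emb (q i))
    (fun i => rename emb (l i)))

lemma PhiP_x (q l : Fin κ → MvPowerSeries (Fin (n + κ)) k) (i : Fin n) :
    PhiP q l (xv κ i) = X (xv κ i) := by
  unfold PhiP xv
  rw [Fin.append_left]

lemma PhiP_y (q l : Fin κ → MvPowerSeries (Fin (n + κ)) k) (i : Fin κ) :
    PhiP q l (yv n i) = X (yv n i) + rename emb (q i) := by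
  unfold PhiP yv
  rw [Fin.append_right, Fin.append_left]

lemma PhiP_z (q l : Fin κ → MvPowerSeries (Fin (n + κ)) k) (i : Fin κ) :
    PhiP q l (zv n i) = rename emb (l i) := by
  unfold PhiP zv
  rw [Fin.append_right, Fin.append_right]

lemma PhiP_zero (q l : Fin κ → MvPowerSeries (Fin (n + κ)) k)
    (hq : ∀ i, constantCoeff (q i) = 0) (hl : ∀ i, constantCoeff (l i) = 0) (i) :
    constantCoeff (PhiP q l i) = 0 := by
  refine Fin.addCases (fun i => ?_) (fun i => ?_) i
  · rw [show PhiP q l (Fin.castAdd (κ + κ) i) = X (xv κ i) from PhiP_x q l i, constantCoeff_X]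
  · refine Fin.addCases (fun i => ?_) (fun i => ?_) i
    · rw [show PhiP q l (Fin.natAdd n (Fin.castAdd κ i)) = X (yv n i) + rename emb (q i) from
        PhiP_y q l i, map_add, constantCoeff_X, constantCoeff_rename, hq, add_zero]
    · rw [show PhiP q l (Fin.natAdd n (Fin.natAdd κ i)) = rename emb (l i) from
        PhiP_z q l i, constantCoeff_rename, hl]

lemma subst_stabK (f : MvPolynomial (Fin n) k) (q l : Fin κ → MvPowerSeries (Fin (n + κ)) k)
    (hq : ∀ i, constantCoeff (q i) = 0) (hl : ∀ i, constantCoeff (l i) = 0) :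
    subst (PhiP q l) ((stabK f κ : MvPolynomial (Fin (n + (κ + κ))) k) :
        MvPowerSeries (Fin (n + (κ + κ))) k) =
      rename emb (rename (Fin.castAdd κ) (f : MvPowerSeries (Fin n) k) + ∑ i, q i * l i) +
      ∑ i, X (yv n i) * rename emb (l i) := by
  have h0 := PhiP_zero q l hq hl
  have hs := hasSubst_of_constantCoeff_zero h0
  rw [coe_stabK, subst_add hs, map_add, map_sum, rename_rename]
  have h1 : subst (PhiP q l) (rename (Fin.castAdd (κ + κ)) (f : MvPowerSeries (Fin n) k)) =
      rename (emb ∘ Fin.castAdd κ) (f : MvPowerSeries (Fin n) k) := by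
    rw [rename_eq_subst, rename_eq_subst, subst_comp_subst_apply (HasSubst.X_comp _) hs]
    congr 1
    funext i
    rw [Function.comp_apply, subst_X hs, Function.comp_apply, Function.comp_apply, emb_l]
    exact PhiP_x q l i
  have h2 : subst (PhiP q l) (∑ i : Fin κ, (X (Fin.natAdd n (Fin.castAdd κ i)) :
      MvPowerSeries (Fin (n + (κ + κ))) k) * X (Fin.natAdd n (Fin.natAdd κ i))) = ∑ i : Fin κ, (X (yv n i) + rename emb (q i)) *
        rename emb (l i) := by
    rw [← coe_substAlgHom hs, map_sum]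
    refine Finset.sum_congr rfl fun i _ => ?_
    rw [map_mul, coe_substAlgHom hs, subst_X hs, subst_X hs,
      show PhiP q l (Fin.natAdd n (Fin.castAdd κ i)) = X (yv n i) + rename emb (q i) from
        PhiP_y q l i,
      show PhiP q l (Fin.natAdd n (Fin.natAdd κ i)) = rename emb (l i) from PhiP_z q l i]
  rw [h1, h2, add_assoc, ← Finset.sum_add_distrib]
  congr 1
  refine Finset.sum_congr rfl fun i _ => ?_
  rw [map_mul]
  ring

lemma coeff_rnP (p : MvPowerSeries (Fin (n + κ)) k) (i : Fin (n + κ)) :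
    coeff (Finsupp.single (emb i) 1) (rename emb p) = coeff (Finsupp.single i 1) p := by
  have h := coeff_embDomain_rename (⟨emb, emb_inj⟩ : Fin (n + κ) ↪ Fin (n + (κ + κ))) p
    (Finsupp.single i 1)
  rwa [Finsupp.embDomain_single] at h

lemma coeff_rnP_y (p : MvPowerSeries (Fin (n + κ)) k) (j : Fin κ) :
    coeff (Finsupp.single (yv n j) 1) (rename emb p) = 0 := by
  refine coeff_rename_eq_zero _ _ ?_
  rintro ⟨u, hu⟩
  have h1 := DFunLike.congr_fun hu (yv n j)
  rw [Finsupp.single_eq_same, Finsupp.mapDomain_of_notMem_range _ _ (by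
    rintro ⟨i, hi⟩
    exact emb_ne_y i j hi)] at h1
  exact zero_ne_one h1

/-- the change of coordinates is invertible at the origin -/
lemma coord_PhiP (q l : Fin κ → MvPowerSeries (Fin (n + κ)) k)
    (hdet : (Matrix.of fun i j => coeff (Finsupp.single (Fin.natAdd n j) 1) (l i)).det ≠ 0) :
    (Matrix.of fun i j => coeff (Finsupp.single j 1) (PhiP q l i)).det ≠ 0 := by
  classical
  intro h0
  obtain ⟨u, hu, hMu⟩ := Matrix.exists_mulVec_eq_zero_iff.2 h0
  have hrow : ∀ i, ∑ j, coeff (Finsupp.single j 1) (PhiP q l i) * u j = 0 := by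
    intro i
    have h1 := congrFun hMu i
    rw [Matrix.mulVec, dotProduct] at h1
    simp only [Matrix.of_apply, Pi.zero_apply] at h1
    exact h1
  have hsplit : ∀ (F : Fin (n + (κ + κ)) → k), ∑ j, F j = ∑ j : Fin n, F (xv κ j) +
      (∑ j : Fin κ, F (yv n j) + ∑ j : Fin κ, F (zv n j)) := by
    intro F
    rw [Fin.sum_univ_add, Fin.sum_univ_add]
    rfl
  have hXX : ∀ i j : Fin (n + (κ + κ)), coeff (Finsupp.single j 1)
      (X i : MvPowerSeries (Fin (n + (κ + κ))) k) = if i = j then 1 else 0 := by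
    intro i j
    rw [coeff_X]
    by_cases h : i = j
    · subst h
      simp
    · rw [if_neg h, if_neg]
      intro h2
      exact h (Finsupp.single_left_injective one_ne_zero h2).symm
  have hx : ∀ i : Fin n, u (xv κ i) = 0 := by
    intro i
    have h1 := hrow (xv κ i)
    rw [PhiP_x, Finset.sum_eq_single (xv κ i)] at h1
    · rwa [hXX, if_pos rfl, one_mul] at h1
    · intro j _ hj
      rw [hXX, if_neg hj.symm, zero_mul]
    · intro h
      exact absurd (Finset.mem_univ _) h
  have hz : ∀ i : Fin κ, u (zv n i) = 0 := by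
    by_contra hcon
    push Not at hcon
    obtain ⟨i0, hi0⟩ := hcon
    apply hdet
    refine Matrix.exists_mulVec_eq_zero_iff.1 ⟨fun i => u (zv n i), ?_, ?_⟩
    · intro h
      exact hi0 (congrFun h i0)
    · funext i
      rw [Matrix.mulVec, dotProduct]
      simp only [Matrix.of_apply, Pi.zero_apply]
      have h1 := hrow (zv n i)
      rw [PhiP_z, hsplit] at h1
      simp only [hx, mul_zero, Finset.sum_const_zero, zero_add, coeff_rnP_y, zero_mul] at h1
      rw [← h1]
      refine Finset.sum_congr rfl fun j _ => ?_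
      rw [← emb_r j, coeff_rnP]
  have hy : ∀ i : Fin κ, u (yv n i) = 0 := by
    intro i
    have h1 := hrow (yv n i)
    rw [PhiP_y, hsplit] at h1
    simp only [hx, hz, mul_zero, Finset.sum_const_zero, zero_add, add_zero, map_add,
      coeff_rnP_y, hXX] at h1
    rw [Finset.sum_eq_single i] at h1
    · rwa [if_pos rfl, one_mul] at h1
    · intro j _ hj
      rw [if_neg (fun h => hj (y_inj h).symm), zero_mul]
    · intro h
      exact absurd (Finset.mem_univ _) h
  apply hu
  funext i
  rw [Pi.zero_apply]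
  refine Fin.addCases (fun i => hx i) (fun i => ?_) i
  exact Fin.addCases (fun i => hy i) (fun i => hz i) i


/-- **Functions on smooth complete intersections.** -/
theorem eqv_emb (f : MvPolynomial (Fin n) k) (Φ : MvPowerSeries (Fin (n + κ)) k)
    (l q : Fin κ → MvPowerSeries (Fin (n + κ)) k) (hl0 : ∀ i, constantCoeff (l i) = 0)
    (hq0 : ∀ i, constantCoeff (q i) = 0)
    (hdet : (Matrix.of fun i j => coeff (Finsupp.single (Fin.natAdd n j) 1) (l i)).det ≠ 0)
    (hΦ : Φ = rename (Fin.castAdd κ) (f : MvPowerSeries (Fin n) k) + ∑ i, q i * l i) :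
    EqvP ((stabK f κ : MvPolynomial (Fin (n + (κ + κ))) k) :
      MvPowerSeries (Fin (n + (κ + κ))) k)
      (rename emb Φ + ∑ i, X (yv n i) * rename emb (l i)) := by
  refine ⟨PhiP q l, 1, ⟨PhiP_zero q l hq0 hl0, coord_PhiP q l hdet⟩, isUnit_one, ?_⟩
  rw [subst_stabK f q l hq0 hl0, ← hΦ, one_mul]

theorem coeff_rn_nat (f : MvPowerSeries (Fin n) k) (j : Fin κ) :
    coeff (Finsupp.single (Fin.natAdd n j) 1) (rename (Fin.castAdd κ) f) = 0 := by
  refine coeff_rename_eq_zero _ _ ?_
  rintro ⟨u, hu⟩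
  have h1 := DFunLike.congr_fun hu (Fin.natAdd n j)
  rw [Finsupp.single_eq_same, Finsupp.mapDomain_of_notMem_range _ _ (by
    rintro ⟨i, hi⟩
    have := congrArg Fin.val hi
    simp only [Fin.val_castAdd, Fin.val_natAdd] at this
    have := i.2
    omega)] at h1
  exact zero_ne_one h1

/-- the coefficients `q_i` vanish at the origin -/
theorem q_zero (f : MvPolynomial (Fin n) k) (Φ : MvPowerSeries (Fin (n + κ)) k)
    (l q : Fin κ → MvPowerSeries (Fin (n + κ)) k) (hl0 : ∀ i, constantCoeff (l i) = 0)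
    (hdet : (Matrix.of fun i j => coeff (Finsupp.single (Fin.natAdd n j) 1) (l i)).det ≠ 0)
    (hΦ : Φ = rename (Fin.castAdd κ) (f : MvPowerSeries (Fin n) k) + ∑ i, q i * l i)
    (hlin : ∀ j : Fin κ, coeff (Finsupp.single (Fin.natAdd n j) 1) Φ = 0) :
    ∀ i, constantCoeff (q i) = 0 := by
  classical
  have h1 : Matrix.vecMul (fun i => constantCoeff (q i))
      (Matrix.of fun i j => coeff (Finsupp.single (Fin.natAdd n j) 1) (l i)) = 0 := by
    funext j
    have h2 := hlin j
    rw [hΦ, map_add, coeff_rn_nat, zero_add, map_sum] at h2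
    simp only [coeff_single_mul, hl0, mul_zero, add_zero] at h2
    exact h2
  have h3 := Matrix.eq_zero_of_vecMul_eq_zero hdet h1
  exact fun i => congrFun h3 i

/-- the monomials of `Φ + ∑ y_i l_i` -/
theorem sum_ex (π : Fin r → Fin (κ + 1)) (m : Fin r → Fin (n + κ) → ℕ)
    (U : Fin r → MvPowerSeries (Fin (n + κ)) k) (Φ : MvPowerSeries (Fin (n + κ)) k)
    (l : Fin κ → MvPowerSeries (Fin (n + κ)) k)
    (hΦ : Φ = ∑ j, if π j = 0 then U j * ∏ i, X i ^ m j i else 0)
    (hl : ∀ i : Fin κ, l i = ∑ j, if π j = i.succ then U j * ∏ i, X i ^ m j i else 0) :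
    rename emb Φ + ∑ i, X (yv n i) * rename emb (l i) =
      ∑ j, (rename emb (U j) : MvPowerSeries (Fin (n + (κ + κ))) k) *
        ∏ i, X i ^ ex π m j i := by
  classical
  have hmon : ∀ j, (rename emb (∏ i, X i ^ m j i : MvPowerSeries (Fin (n + κ)) k) :
      MvPowerSeries (Fin (n + (κ + κ))) k) = ∏ i, X (emb i) ^ m j i := by
    intro j
    rw [map_prod]
    exact Finset.prod_congr rfl fun i _ => by rw [map_pow, rename_X]
  have hprod : ∀ j, (∏ i, X i ^ ex π m j i : MvPowerSeries (Fin (n + (κ + κ))) k) =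
      (∏ i : Fin κ, X (yv n i) ^ (if π j = i.succ then 1 else 0)) *
        ∏ i, X (emb i) ^ m j i := by
    intro j
    rw [Fin.prod_univ_add, Fin.prod_univ_add, Fin.prod_univ_add]
    have e1 : ∀ i : Fin n, ex π m j (Fin.castAdd (κ + κ) i) = m j (Fin.castAdd κ i) := by
      intro i
      unfold ex
      rw [Fin.append_left]
    have e2 : ∀ i : Fin κ, ex π m j (Fin.natAdd n (Fin.castAdd κ i)) =
        if π j = i.succ then 1 else 0 := by
      intro i
      unfold ex
      rw [Fin.append_right, Fin.append_left]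
    have e3 : ∀ i : Fin κ, ex π m j (Fin.natAdd n (Fin.natAdd κ i)) = m j (Fin.natAdd n i) := by
      intro i
      unfold ex
      rw [Fin.append_right, Fin.append_right]
    simp only [e1, e2, e3, emb_l, emb_r]
    unfold xv yv zv
    ring
  rw [hΦ, map_sum]
  have h1 : ∀ i : Fin κ, X (yv n i) * (rename emb (l i) :
      MvPowerSeries (Fin (n + (κ + κ))) k) = ∑ j, if π j = i.succ then
        X (yv n i) * (rename emb (U j) * ∏ i, X (emb i) ^ m j i) else 0 := by
    intro i
    rw [hl, map_sum, Finset.mul_sum]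
    refine Finset.sum_congr rfl fun j _ => ?_
    split_ifs
    · rw [map_mul, hmon]
    · rw [map_zero, mul_zero]
  rw [Finset.sum_congr rfl fun i _ => h1 i, Finset.sum_comm, ← Finset.sum_add_distrib]
  refine Finset.sum_congr rfl fun j _ => ?_
  rw [hprod]
  rcases Fin.eq_zero_or_eq_succ (π j) with h0 | ⟨i0, h0⟩
  · have hA : (∏ i : Fin κ, X (yv n i) ^ (if π j = i.succ then 1 else 0) :
        MvPowerSeries (Fin (n + (κ + κ))) k) = 1 := Finset.prod_eq_one fun i _ => by
      rw [if_neg (by rw [h0]; exact (Fin.succ_ne_zero i).symm), pow_zero]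
    rw [if_pos h0, map_mul, hmon, Finset.sum_eq_zero (fun i _ => by
      rw [if_neg (by rw [h0]; exact (Fin.succ_ne_zero i).symm)]), add_zero, hA, one_mul]
  · rw [if_neg (by rw [h0]; exact Fin.succ_ne_zero i0), map_zero, zero_add,
      Finset.sum_eq_single i0, if_pos h0, Finset.prod_eq_single i0, if_pos h0, pow_one]
    · ring
    · intro i _ hi
      rw [if_neg (by
        rw [h0]
        intro h
        exact hi (Fin.succ_injective _ h).symm), pow_zero]
    · intro h
      exact absurd (Finset.mem_univ _) h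
    · intro i _ hi
      rw [if_neg (by
        rw [h0]
        intro h
        exact hi (Fin.succ_injective _ h).symm)]
    · intro h
      exact absurd (Finset.mem_univ _) h

end Pool.Agent.X271.GE
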