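import Pool.Agent.X271.Germ

set_option autoImplicit false
set_option linter.unusedVariables false

/-! Formal coordinates and equivalence of power series up to units. -/

namespace Pool.Agent.X271.GE

open MvPowerSeries

variable {k : Type} [Field k] {n m : ℕ}

theorem coeff_single_mul (A B : MvPowerSeries (Fin m) k) (j : Fin m) :
    coeff (Finsupp.single j 1) (A * B) = constantCoeff A * coeff (Finsupp.single j 1) B +
      coeff (Finsupp.single j 1) A * constantCoeff B := by
  classical
  rw [coeff_mul, Finsupp.antidiagonal_single, Finset.sum_map]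
  simp [Finset.Nat.antidiagonal_succ]

theorem poly_subst (a : Fin n → MvPowerSeries (Fin m) k) (ha : ∀ i, constantCoeff (a i) = 0)
    (p : MvPolynomial (Fin n) k) (j : Fin m) :
    constantCoeff (MvPolynomial.aeval a p) = MvPolynomial.constantCoeff p ∧
    coeff (Finsupp.single j 1) (MvPolynomial.aeval a p) =
      ∑ i, MvPolynomial.coeff (Finsupp.single i 1) p * coeff (Finsupp.single j 1) (a i) := by
  classical
  induction p using MvPolynomial.induction_on with
  | C c =>
    have h1 : (MvPolynomial.aeval a (MvPolynomial.C c) : MvPowerSeries (Fin m) k) = C c := by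
      rw [MvPolynomial.algHom_C]
      rfl
    rw [h1]
    refine ⟨by simp, ?_⟩
    rw [coeff_C, if_neg (by simp), Finset.sum_eq_zero]
    intro i _
    rw [MvPolynomial.coeff_C, if_neg (by
      intro h
      have := DFunLike.congr_fun h i
      simp at this), zero_mul]
  | add p q hp hq =>
    refine ⟨by rw [map_add, map_add, map_add, hp.1, hq.1], ?_⟩
    rw [map_add, map_add, hp.2, hq.2, ← Finset.sum_add_distrib]
    refine Finset.sum_congr rfl fun i _ => ?_
    rw [MvPolynomial.coeff_add, add_mul]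
  | mul_X p l hp =>
    refine ⟨by rw [map_mul, MvPolynomial.aeval_X, map_mul, ha, mul_zero, map_mul,
      MvPolynomial.constantCoeff_X, mul_zero], ?_⟩
    rw [map_mul, MvPolynomial.aeval_X, coeff_single_mul, hp.1, ha, mul_zero, add_zero,
      Finset.sum_eq_single l]
    · rw [MvPolynomial.coeff_mul_X', if_pos (by simp)]
      simp [MvPolynomial.constantCoeff_eq]
    · intro i _ hi
      rw [MvPolynomial.coeff_mul_X', if_neg (by
        rw [Finsupp.mem_support_iff, Finsupp.single_apply, if_neg hi]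
        simp), zero_mul]
    · intro h
      exact absurd (Finset.mem_univ _) h

theorem order_tail' (d : ℕ) (f : MvPowerSeries (Fin n) k) :
    (d : ℕ∞) ≤ (f - (truncTotal d f : MvPowerSeries (Fin n) k)).order := by
  apply nat_le_order
  intro e he
  rw [map_sub, MvPolynomial.coeff_coe, coeff_truncTotal _ he, sub_self]

/-- the linear part of a composition -/
theorem lin_subst (a : Fin n → MvPowerSeries (Fin m) k) (ha : ∀ i, constantCoeff (a i) = 0)
    (p : MvPowerSeries (Fin n) k) (j : Fin m) :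
    coeff (Finsupp.single j 1) (subst a p : MvPowerSeries (Fin m) k) =
      ∑ i, coeff (Finsupp.single i 1) p * coeff (Finsupp.single j 1) (a i) := by
  have hs := hasSubst_of_constantCoeff_zero ha
  have h1 : (subst a p : MvPowerSeries (Fin m) k) =
      subst a (truncTotal 2 p : MvPowerSeries (Fin n) k) +
        subst a (p - (truncTotal 2 p : MvPowerSeries (Fin n) k)) := by
    rw [← subst_add hs, add_sub_cancel]
  have h2 : coeff (Finsupp.single j 1) (subst a (p - (truncTotal 2 p :
      MvPowerSeries (Fin n) k)) : MvPowerSeries (Fin m) k) = 0 := by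
    have h3 := le_order_subst hs (p - (truncTotal 2 p : MvPowerSeries (Fin n) k))
    have h4 : (1 : ℕ∞) ≤ ⨅ i, (a i).order :=
      le_iInf fun i => one_le_order_iff_constCoeff_eq_zero.2 (ha i)
    refine coeff_of_lt_order (lt_of_lt_of_le ?_ h3)
    rw [Finsupp.degree_single]
    refine lt_of_lt_of_le ?_ (mul_le_mul_left h4 _)
    rw [one_mul]
    refine lt_of_lt_of_le ?_ (order_tail' 2 p)
    norm_num
  rw [h1, map_add, h2, add_zero, subst_coe, (poly_subst a ha _ j).2]
  refine Finset.sum_congr rfl fun i _ => ?_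
  rw [coeff_truncTotal _ (by rw [Finsupp.degree_single]; norm_num)]

theorem const_subst {a : Fin n → MvPowerSeries (Fin m) k} (ha : ∀ i, constantCoeff (a i) = 0)
    (p : MvPowerSeries (Fin n) k) :
    constantCoeff (subst a p : MvPowerSeries (Fin m) k) = constantCoeff p := by
  have hs := hasSubst_of_constantCoeff_zero ha
  have h1 : p = (p - C (constantCoeff p)) + C (constantCoeff p) := by ring
  conv_lhs => rw [h1]
  rw [subst_add hs, map_add, constantCoeff_subst_eq_zero hs ha (by
    rw [map_sub, constantCoeff_C, sub_self]), subst_C, zero_add]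
  simp

/-- the matrix of the linear parts -/
noncomputable def lmat (φ : Fin n → MvPowerSeries (Fin n) k) : Matrix (Fin n) (Fin n) k :=
  Matrix.of fun i j => coeff (Finsupp.single j 1) (φ i)

theorem lmat_comp {φ ψ : Fin n → MvPowerSeries (Fin n) k}
    (hφ : ∀ i, constantCoeff (φ i) = 0) :
    lmat (fun i => (subst φ (ψ i) : MvPowerSeries (Fin n) k)) = lmat ψ * lmat φ := by
  ext i j
  rw [Matrix.mul_apply]
  exact lin_subst φ hφ (ψ i) j

theorem lmat_X : lmat (fun i => (X i : MvPowerSeries (Fin n) k)) = 1 := by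
  classical
  ext i j
  unfold lmat
  rw [Matrix.of_apply, coeff_X, Matrix.one_apply]
  by_cases h : i = j
  · subst h
    simp
  · rw [if_neg h, if_neg]
    intro h2
    exact h (Finsupp.single_left_injective one_ne_zero h2).symm

theorem FCoord.comp {φ ψ : Fin n → MvPowerSeries (Fin n) k} (hφ : FCoord φ) (hψ : FCoord ψ) :
    FCoord (fun i => (subst φ (ψ i) : MvPowerSeries (Fin n) k)) where
  zero i := by rw [const_subst hφ.zero, hψ.zero]
  det := by
    show (lmat _).det ≠ 0
    rw [lmat_comp hφ.zero, Matrix.det_mul]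
    exact mul_ne_zero hψ.det hφ.det

/-- the inverse formal coordinates -/
theorem FCoord.inv {φ : Fin n → MvPowerSeries (Fin n) k} (hφ : FCoord φ) :
    ∃ ψ : Fin n → MvPowerSeries (Fin n) k, FCoord ψ ∧
      (∀ i, (subst φ (ψ i) : MvPowerSeries (Fin n) k) = X i) ∧
      ∀ i, (subst ψ (φ i) : MvPowerSeries (Fin n) k) = X i := by
  obtain ⟨ψ, hψ0, h1, h2⟩ := Pool.Agent.X271.FI.exists_formal_inverse φ hφ.zero
    (isUnit_iff_ne_zero.2 hφ.det)
  refine ⟨ψ, ⟨hψ0, fun h0 => ?_⟩, h1, h2⟩
  have h3 := lmat_comp (ψ := ψ) hφ.zero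
  have h4 : (fun i => (subst φ (ψ i) : MvPowerSeries (Fin n) k)) = fun i => X i := funext h1
  rw [h4, lmat_X] at h3
  have h5 := congrArg Matrix.det h3
  rw [Matrix.det_one, Matrix.det_mul] at h5
  rw [show (lmat ψ).det = 0 from h0, zero_mul] at h5
  exact one_ne_zero h5

/-- `F` and `G` are the same function up to a unit in formal coordinates at the origin -/
def EqvP (F G : MvPowerSeries (Fin n) k) : Prop :=
  ∃ (φ : Fin n → MvPowerSeries (Fin n) k) (u : MvPowerSeries (Fin n) k), FCoord φ ∧ IsUnit u ∧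
    subst φ F = u * G

theorem EqvP.symm {F G : MvPowerSeries (Fin n) k} (h : EqvP F G) : EqvP G F := by
  obtain ⟨φ, u, hφ, hu, h1⟩ := h
  obtain ⟨ψ, hψ, h2, h3⟩ := hφ.inv
  obtain ⟨u, rfl⟩ := hu
  have hsφ := hasSubst_of_constantCoeff_zero hφ.zero
  have hsψ := hasSubst_of_constantCoeff_zero hψ.zero
  have h4 : F = subst ψ (u : MvPowerSeries (Fin n) k) * subst ψ G := by
    rw [← subst_mul hsψ, ← h1, subst_comp_subst_apply hsφ hsψ]
    have h5 : (fun s => (subst ψ (φ s) : MvPowerSeries (Fin n) k)) = X := funext h3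
    rw [h5, subst_self]
    rfl
  have h6 : subst ψ ((u⁻¹ : (MvPowerSeries (Fin n) k)ˣ) : MvPowerSeries (Fin n) k) *
      (subst ψ (u : MvPowerSeries (Fin n) k) : MvPowerSeries (Fin n) k) = 1 := by
    rw [← subst_mul hsψ, Units.inv_mul, ← coe_substAlgHom hsψ, map_one]
  refine ⟨ψ, subst ψ ((u⁻¹ : (MvPowerSeries (Fin n) k)ˣ) : MvPowerSeries (Fin n) k), hψ,
    IsUnit.of_mul_eq_one _ h6, ?_⟩
  rw [h4, ← mul_assoc, h6, one_mul]

theorem EqvP.trans {F G H : MvPowerSeries (Fin n) k} (h : EqvP F G) (h' : EqvP G H) :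
    EqvP F H := by
  obtain ⟨φ, u, hφ, hu, h1⟩ := h
  obtain ⟨ψ, w, hψ, hw, h2⟩ := h'
  have hsφ := hasSubst_of_constantCoeff_zero hφ.zero
  have hsψ := hasSubst_of_constantCoeff_zero hψ.zero
  refine ⟨fun i => subst ψ (φ i), subst ψ u * w, hψ.comp hφ, ?_, ?_⟩
  · refine IsUnit.mul ?_ hw
    rw [← coe_substAlgHom hsψ]
    exact hu.map (substAlgHom hsψ)
  · rw [← subst_comp_subst_apply hsφ hsψ, h1, subst_mul hsψ, h2, mul_assoc]

/-- multiplication by a unit -/
theorem EqvP.unit {F G : MvPowerSeries (Fin n) k} (h : EqvP F G) {w : MvPowerSeries (Fin n) k}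
    (hw : IsUnit w) : EqvP F (w * G) := by
  obtain ⟨φ, u, hφ, hu, h1⟩ := h
  obtain ⟨w, rfl⟩ := hw
  refine ⟨φ, u * ((w⁻¹ : (MvPowerSeries (Fin n) k)ˣ) : MvPowerSeries (Fin n) k), hφ,
    hu.mul (Units.isUnit _), ?_⟩
  rw [h1, mul_assoc, ← mul_assoc (((w⁻¹ : (MvPowerSeries (Fin n) k)ˣ) : MvPowerSeries (Fin n) k)),
    Units.inv_mul, one_mul]

end Pool.Agent.X271.GE
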