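import Pool.Agent.X271.GermUnit

set_option autoImplicit false
set_option linter.unusedVariables false
set_option linter.unusedSectionVars false

/-! Refined local motivic monodromy property: invariance under formal coordinates and units. -/

namespace Pool.Agent.X271.GE

open Pool.Agent.Y229.MS (addyz)

variable {k : Type} [Field k] {n : ℕ}

section base
open MvPowerSeries

theorem coe_map {K : Type} [Field K] (g : k →+* K) (F : MvPolynomial (Fin n) k) :
    map g (F : MvPowerSeries (Fin n) k) =
      ((MvPolynomial.map g F : MvPolynomial (Fin n) K) : MvPowerSeries (Fin n) K) := by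
  ext d
  rw [coeff_map, MvPolynomial.coeff_coe, MvPolynomial.coeff_coe, MvPolynomial.coeff_map]

theorem FCoord.map {K : Type} [Field K] (g : k →+* K) {φ : Fin n → MvPowerSeries (Fin n) k}
    (hφ : FCoord φ) : FCoord fun i => MvPowerSeries.map g (φ i) where
  zero i := by rw [constantCoeff_map, hφ.zero, map_zero]
  det := by
    have h1 : (Matrix.of fun i j => coeff (Finsupp.single j 1) (MvPowerSeries.map g (φ i))) =
        g.mapMatrix (Matrix.of fun i j => coeff (Finsupp.single j 1) (φ i)) := by
      ext i j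
      simp [coeff_map]
    rw [h1, ← RingHom.map_det]
    exact (map_ne_zero g).2 hφ.det

/-- extension of the field -/
theorem eqv_base {K : Type} [Field K] (g : k →+* K) {φ : Fin n → MvPowerSeries (Fin n) k}
    (hφ : FCoord φ) {u : MvPowerSeries (Fin n) k} {F G : MvPolynomial (Fin n) k}
    (h : subst φ (F : MvPowerSeries (Fin n) k) = u * (G : MvPowerSeries (Fin n) k)) :
    subst (fun i => map g (φ i)) ((MvPolynomial.map g F : MvPolynomial (Fin n) K) :
      MvPowerSeries (Fin n) K) =
      map g u * ((MvPolynomial.map g G : MvPolynomial (Fin n) K) : MvPowerSeries (Fin n) K) := by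
  have h1 := congrArg (map g) h
  rw [map_subst (hasSubst_of_constantCoeff_zero hφ.zero), map_mul, coe_map, coe_map] at h1
  exact h1

/-! ### `F + y z` -/

theorem coe_addyz (F : MvPolynomial (Fin n) k) :
    ((addyz F : MvPolynomial (Fin (n + 2)) k) : MvPowerSeries (Fin (n + 2)) k) =
      rename (Fin.castAdd 2) (F : MvPowerSeries (Fin n) k) +
        X (Fin.natAdd n 0) * X (Fin.natAdd n 1) := by
  unfold addyz
  rw [MvPolynomial.coe_add, MvPolynomial.coe_mul, MvPolynomial.coe_X, MvPolynomial.coe_X,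
    rename_coe]

theorem subst_rename {m : ℕ} (ι : Fin n → Fin m) (φ : Fin n → MvPowerSeries (Fin n) k)
    (hφ : ∀ i, constantCoeff (φ i) = 0) (φ' : Fin m → MvPowerSeries (Fin m) k)
    (hφ' : ∀ i, constantCoeff (φ' i) = 0) (h : ∀ i, φ' (ι i) = rename ι (φ i))
    (p : MvPowerSeries (Fin n) k) :
    (subst φ' (rename ι p) : MvPowerSeries (Fin m) k) = rename ι (subst φ p) := by
  have hs := hasSubst_of_constantCoeff_zero hφ
  have hs' := hasSubst_of_constantCoeff_zero hφ'
  rw [rename_eq_subst, rename_eq_subst, subst_comp_subst_apply (HasSubst.X_comp _) hs',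
    subst_comp_subst_apply hs (HasSubst.X_comp _)]
  congr 1
  funext s
  rw [Function.comp_apply, subst_X hs', h, rename_eq_subst]

theorem coeff_X' {m : ℕ} (i j : Fin m) :
    coeff (Finsupp.single j 1) (X i : MvPowerSeries (Fin m) k) = if i = j then 1 else 0 := by
  classical
  rw [coeff_X]
  by_cases h : i = j
  · subst h
    simp
  · rw [if_neg h, if_neg]
    intro h2
    exact h (Finsupp.single_left_injective one_ne_zero h2).symm

theorem coeff_rn (p : MvPowerSeries (Fin n) k) (i : Fin n) :
    coeff (Finsupp.single (Fin.castAdd 2 i) 1) (rename (Fin.castAdd 2) p) =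
      coeff (Finsupp.single i 1) p := by
  have h := coeff_embDomain_rename (⟨Fin.castAdd 2, Fin.castAdd_injective n 2⟩ :
    Fin n ↪ Fin (n + 2)) p (Finsupp.single i 1)
  rwa [Finsupp.embDomain_single] at h

theorem coeff_rn' (p : MvPowerSeries (Fin n) k) (j : Fin 2) :
    coeff (Finsupp.single (Fin.natAdd n j) 1) (rename (Fin.castAdd 2) p) = 0 := by
  refine coeff_rename_eq_zero _ _ ?_
  rintro ⟨u, hu⟩
  have h1 := DFunLike.congr_fun hu (Fin.natAdd n j)
  rw [Finsupp.single_eq_same, Finsupp.mapDomain_of_notMem_range _ _ (by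
    rintro ⟨i, hi⟩
    have := congrArg Fin.val hi
    simp only [Fin.val_castAdd, Fin.val_natAdd] at this
    have := i.2
    omega)] at h1
  exact zero_ne_one h1

theorem EqvP.addyz {F G : MvPolynomial (Fin n) k}
    (h : EqvP (F : MvPowerSeries (Fin n) k) (G : MvPowerSeries (Fin n) k)) :
    EqvP ((addyz F : MvPolynomial (Fin (n + 2)) k) : MvPowerSeries (Fin (n + 2)) k)
      ((Pool.Agent.Y229.MS.addyz G : MvPolynomial (Fin (n + 2)) k) :
        MvPowerSeries (Fin (n + 2)) k) := by
  classical
  obtain ⟨φ, u, hφ, hu, h1⟩ := h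
  set c := constantCoeff u with hc
  have hc0 : c ≠ 0 := isUnit_iff_ne_zero.1 (isUnit_iff_constantCoeff.1 hu)
  set ru : MvPowerSeries (Fin (n + 2)) k := rename (Fin.castAdd 2) u with hru
  have hruc : constantCoeff ru = c := by rw [hru, constantCoeff_rename]
  set φ' : Fin (n + 2) → MvPowerSeries (Fin (n + 2)) k :=
    Fin.append (fun i => rename (Fin.castAdd 2) (φ i))
      ![ru * X (Fin.natAdd n 0), X (Fin.natAdd n 1)] with hφ'
  have e1 : ∀ i, φ' (Fin.castAdd 2 i) = rename (Fin.castAdd 2) (φ i) := fun i => by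
    rw [hφ', Fin.append_left]
  have e2 : φ' (Fin.natAdd n 0) = ru * X (Fin.natAdd n 0) := by
    rw [hφ', Fin.append_right]
    rfl
  have e3 : φ' (Fin.natAdd n 1) = X (Fin.natAdd n 1) := by
    rw [hφ', Fin.append_right]
    rfl
  have h0 : ∀ i, constantCoeff (φ' i) = 0 := by
    intro i
    refine Fin.addCases (fun i => ?_) (fun i => ?_) i
    · rw [e1, constantCoeff_rename, hφ.zero]
    · fin_cases i
      · exact (congrArg constantCoeff e2).trans (by rw [map_mul, constantCoeff_X, mul_zero])
      · exact (congrArg constantCoeff e3).trans (constantCoeff_X _)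
  have hs := hasSubst_of_constantCoeff_zero h0
  refine ⟨φ', ru, ⟨h0, ?_⟩, ?_, ?_⟩
  · show (lmat φ').det ≠ 0
    have hM : (lmat φ').submatrix finSumFinEquiv finSumFinEquiv =
        Matrix.fromBlocks (lmat φ) 0 0 !![c, 0; 0, 1] := by
      ext i j
      rcases i with i | i <;> rcases j with j | j
      · rw [Matrix.submatrix_apply, Matrix.fromBlocks_apply₁₁, finSumFinEquiv_apply_left,
          finSumFinEquiv_apply_left]
        show coeff _ (φ' _) = _
        rw [e1, coeff_rn]
        rfl
      · rw [Matrix.submatrix_apply, Matrix.fromBlocks_apply₁₂, finSumFinEquiv_apply_left,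
          finSumFinEquiv_apply_right]
        show coeff _ (φ' _) = _
        rw [e1, coeff_rn']
        rfl
      · rw [Matrix.submatrix_apply, Matrix.fromBlocks_apply₂₁, finSumFinEquiv_apply_left,
          finSumFinEquiv_apply_right]
        show coeff _ (φ' _) = 0
        have hne : ∀ b : Fin 2, Fin.natAdd n b ≠ Fin.castAdd 2 j := by
          intro b hb
          have := congrArg Fin.val hb
          simp only [Fin.val_castAdd, Fin.val_natAdd] at this
          have := j.2
          omega
        fin_cases i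
        · exact (congrArg (coeff _) e2).trans (by
            rw [coeff_single_mul, constantCoeff_X, mul_zero, add_zero, coeff_X',
              if_neg (hne 0), mul_zero])
        · exact (congrArg (coeff _) e3).trans (by rw [coeff_X', if_neg (hne 1)])
      · rw [Matrix.submatrix_apply, Matrix.fromBlocks_apply₂₂, finSumFinEquiv_apply_right,
          finSumFinEquiv_apply_right]
        show coeff _ (φ' _) = _
        have h01 : (Fin.natAdd n (0 : Fin 2)) ≠ Fin.natAdd n 1 := by
          intro h
          have := congrArg Fin.val h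
          simp only [Fin.val_natAdd] at this
          simp at this
        have m00 : coeff (Finsupp.single (Fin.natAdd n 0) 1) (φ' (Fin.natAdd n 0)) = c := by
          rw [e2, coeff_single_mul, constantCoeff_X, mul_zero, add_zero, coeff_X', hruc,
            if_pos rfl, mul_one]
        have m01 : coeff (Finsupp.single (Fin.natAdd n 1) 1) (φ' (Fin.natAdd n 0)) = 0 := by
          rw [e2, coeff_single_mul, constantCoeff_X, mul_zero, add_zero, coeff_X', hruc,
            if_neg h01, mul_zero]
        have m10 : coeff (Finsupp.single (Fin.natAdd n 0) 1) (φ' (Fin.natAdd n 1)) = 0 := by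
          rw [e3, coeff_X', if_neg h01.symm]
        have m11 : coeff (Finsupp.single (Fin.natAdd n 1) 1) (φ' (Fin.natAdd n 1)) = 1 := by
          rw [e3, coeff_X', if_pos rfl]
        fin_cases i <;> fin_cases j
        · exact m00
        · exact m01
        · exact m10
        · exact m11
    rw [← Matrix.det_submatrix_equiv_self finSumFinEquiv, hM, Matrix.det_fromBlocks_zero₂₁,
      Matrix.det_fin_two_of]
    simp only [mul_one, mul_zero, sub_zero]
    exact mul_ne_zero hφ.det hc0
  · rw [isUnit_iff_constantCoeff, hruc]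
    exact isUnit_iff_ne_zero.2 hc0
  · rw [coe_addyz, coe_addyz, subst_add hs, subst_mul hs, subst_X hs, subst_X hs, e2, e3,
      subst_rename (Fin.castAdd 2) φ hφ.zero φ' h0 e1, h1, map_mul]
    ring

end base

/-! ### Functional equations -/

section bf
open MvPolynomial Pool.Agent.H628R4.TP
open Pool.Agent.X271.LR Pool.Agent.X271.RD

variable [Algebra k ℂ]

theorem eqv_local {F G : MvPolynomial (Fin n) ℂ}
    (h : EqvP (F : MvPowerSeries (Fin n) ℂ) (G : MvPowerSeries (Fin n) ℂ)) {b : Polynomial ℂ}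
    (hb : IsLocalBFunction F b) : IsLocalBFunction G b := by
  obtain ⟨φ, u, hφ, hu, h1⟩ := h
  obtain ⟨u, rfl⟩ := hu
  refine Pool.Agent.Y229.PS.local_of_formal (Pool.Agent.Y229.PS.formal_of_unit
    (Units.inv_mul u) ?_)
  rw [← h1]
  exact Pool.Agent.Y229.PS.coordB hφ.det hφ.zero (Pool.Agent.Y229.PS.formal_of_local hb)

theorem eqvC {F G : MvPolynomial (Fin n) k}
    (h : EqvP (F : MvPowerSeries (Fin n) k) (G : MvPowerSeries (Fin n) k)) (K : Type) [Field K]
    [Algebra k K] :
    EqvP ((map (algebraMap k K) F : MvPolynomial (Fin n) K) : MvPowerSeries (Fin n) K)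
      ((map (algebraMap k K) G : MvPolynomial (Fin n) K) : MvPowerSeries (Fin n) K) := by
  obtain ⟨φ, u, hφ, hu, h1⟩ := h
  exact ⟨_, _, hφ.map (algebraMap k K), hu.map (MvPowerSeries.map (algebraMap k K)),
    eqv_base (algebraMap k K) hφ h1⟩

/-- the origin -/
def o0 (k : Type) [Field k] (n : ℕ) : Fin n → k := fun _ => 0

theorem trans_o0 (F : MvPolynomial (Fin n) k) : trans (o0 k n) F = F := trans_zero F

theorem redRootL_eqv {F G : MvPolynomial (Fin n) k}
    (h : EqvP (F : MvPowerSeries (Fin n) k) (G : MvPowerSeries (Fin n) k)) {s : ℂ}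
    (hs : RedRootL G (o0 k n) s) : RedRootL F (o0 k n) s := by
  intro c hc
  refine hs c ?_
  rw [trans_o0] at hc ⊢
  exact eqv_local (eqvC h ℂ) hc

end bf

/-! ### The refined property -/

section ref
open MvPolynomial Pool.Agent.W428.MOT Pool.Agent.W375.MG
open Pool.Agent.X271.LR Pool.Agent.X271.RD Pool.Agent.Y229.MS

variable [Algebra k ℂ]

/-- all constructible conditions on the leading coefficient -/
def GoodK (K : Type) [Field K] [Algebra k K] (E : Set (AlgebraicClosure K)) : Prop := Good E

theorem pt_o0 (K : Type) [Field K] [Algebra k K] :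
    ({pt K (o0 k n)} : Set (Pt K (Fin n))) = {0} := by
  congr 1
  funext i
  show algebraMap K (AlgebraicClosure K) (algebraMap k K 0) = 0
  rw [map_zero, map_zero]

/-- the refined property at the origin -/
abbrev Ref0 {n : ℕ} (f : MvPolynomial (Fin n) k) : Prop :=
  RefAt (fun K _ _ E => GoodK (k := k) K E) f (o0 k n)

theorem ref0_eqv {F G : MvPolynomial (Fin n) k}
    (h : EqvP (F : MvPowerSeries (Fin n) k) (G : MvPowerSeries (Fin n) k)) (hG : Ref0 G) :
    Ref0 F := by
  have hkc : CharZero k := RingHom.charZero (algebraMap k ℂ)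
  obtain ⟨S, hS, hz⟩ := hG
  refine ⟨S, fun p hp => ⟨(hS p hp).1, redRootL_eqv h (hS p hp).2⟩, fun K _ _ E hE => ?_⟩
  have hK : CharZero K := charZero_of_injective_algebraMap (algebraMap k K).injective
  obtain ⟨φ, u, hφ, hu, h1⟩ := h
  have hc0 : MvPowerSeries.constantCoeff u ≠ 0 :=
    isUnit_iff_ne_zero.1 (MvPowerSeries.isUnit_iff_constantCoeff.1 hu)
  rw [pt_o0, germ_zeta (hφ.map (algebraMap k K)) (c := algebraMap k K
    (MvPowerSeries.constantCoeff u)) (MvPowerSeries.constantCoeff_map _ _)
    ((map_ne_zero _).2 hc0) (eqv_base (algebraMap k K) hφ h1) (ce_good hE), ← pt_o0 (k := k)]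
  exact hz K _ (good_scE _ hE)

/-- renaming of the variables -/
theorem ref0_rename {a b : ℕ} (hab : a = b) (e : Fin a ≃ Fin b) {g : MvPolynomial (Fin a) k}
    (hg : g ≠ 0) (hP : eval (o0 k a) g = 0) (h : Ref0 (rename e g)) : Ref0 g := by
  refine refAt_iso (fun K _ _ E hE => hE) hab (renameEquiv k e) hg hP ?_
  have h1 : im (renameEquiv k e) (o0 k a) = o0 k b := by
    funext j
    show eval (o0 k a) (rename e.symm (X j)) = 0
    rw [rename_X, eval_X]
    rfl
  rw [h1]
  exact h

theorem ex0_o0 : ex0 (o0 k n) = o0 k (n + 2) := by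
  funext i
  refine Fin.addCases (fun i => ?_) (fun i => ?_) i
  · rw [ex0, Fin.append_left]
    rfl
  · rw [ex0, Fin.append_right]
    rfl

theorem itr_ne {f : MvPolynomial (Fin n) k} (hf : f ≠ 0) : ∀ j, itr f j ≠ 0
  | 0 => hf
  | j + 1 => addyz_ne (itr f j)

theorem itr_zero' {f : MvPolynomial (Fin n) k} (hf : eval (o0 k n) f = 0) :
    ∀ j, eval (o0 k (n + 2 * j)) (itr f j) = 0
  | 0 => hf
  | j + 1 => by
    have h1 : eval (ex0 (o0 k (n + 2 * j))) (addyz (itr f j)) = 0 := by
      rw [eval_ex0, itr_zero' hf j]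
    rw [ex0_o0] at h1
    exact h1

/-- descent -/
theorem ref0_down {f : MvPolynomial (Fin n) k} (hf : f ≠ 0) (hf0 : eval (o0 k n) f = 0) :
    ∀ κ : ℕ, Ref0 (itr f κ) → Ref0 (addyz (itr f κ)) → Ref0 f
  | 0, h1, _ => h1
  | κ + 1, h1, h2 => by
    refine ref0_down hf hf0 κ ?_ h1
    refine refAt_desc (fun K _ _ E hE => hE) (itr_ne hf κ) (itr_zero' hf0 κ) ?_ ?_
    · rw [ex0_o0]
      exact h1
    · rw [ex0_o0, ex0_o0]
      exact h2

/-- the two forms of `f + ∑ y_i z_i` -/
theorem itr_rename (f : MvPolynomial (Fin n) k) (κ : ℕ) :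
    ∃ e : Fin (n + 2 * κ) ≃ Fin (n + (κ + κ)), rename e (itr f κ) = stabK f κ := by
  obtain ⟨g, hg, hr⟩ := Pool.Agent.Y405.MS.itr_aux f κ
  let h : Fin n ⊕ (Fin κ ⊕ Fin κ) ≃ Fin (n + (κ + κ)) :=
    (Equiv.sumCongr (Equiv.refl _) finSumFinEquiv).trans finSumFinEquiv
  have hb : Function.Bijective (h ∘ g) := by
    rw [Fintype.bijective_iff_injective_and_card]
    refine ⟨h.injective.comp hg, ?_⟩
    rw [Fintype.card_fin, Fintype.card_fin]
    omega
  refine ⟨Equiv.ofBijective _ hb, ?_⟩
  show rename (h ∘ g) (itr f κ) = _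
  rw [← rename_rename, hr, map_add, rename_rename, map_sum]
  unfold stabK
  congr 1
  refine Finset.sum_congr rfl fun i _ => ?_
  rw [map_mul, rename_X, rename_X]
  rfl

theorem rename_addyz {a b : ℕ} (e : Fin a ≃ Fin b) (g : MvPolynomial (Fin a) k) :
    ∃ e' : Fin (a + 2) ≃ Fin (b + 2), rename e' (addyz g) = addyz (rename e g) := by
  refine ⟨(finSumFinEquiv.symm.trans (Equiv.sumCongr e (Equiv.refl (Fin 2)))).trans
    finSumFinEquiv, ?_⟩
  set e' : Fin (a + 2) ≃ Fin (b + 2) := (finSumFinEquiv.symm.trans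
    (Equiv.sumCongr e (Equiv.refl (Fin 2)))).trans finSumFinEquiv with he'
  have h1 : ∀ i, e' (Fin.castAdd 2 i) = Fin.castAdd 2 (e i) := by
    intro i
    simp [he']
  have h2 : ∀ i, e' (Fin.natAdd a i) = Fin.natAdd b i := by
    intro i
    simp [he']
  unfold addyz
  rw [map_add, map_mul, rename_X, rename_X, h2, h2, rename_rename, rename_rename]
  have h3 : (e' : Fin (a + 2) → Fin (b + 2)) ∘ Fin.castAdd 2 = Fin.castAdd 2 ∘ e := by
    funext i
    exact h1 i
  rw [h3]

/-- **The refined property for germs which are stably equivalent to `G`.** -/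
theorem ref0_stable {f : MvPolynomial (Fin n) k} (hf : f ≠ 0) (hf0 : eval (o0 k n) f = 0)
    (κ : ℕ) {G : MvPolynomial (Fin (n + (κ + κ))) k}
    (h : EqvP ((stabK f κ : MvPolynomial (Fin (n + (κ + κ))) k) :
      MvPowerSeries (Fin (n + (κ + κ))) k) (G : MvPowerSeries (Fin (n + (κ + κ))) k))
    (h1 : Ref0 G) (h2 : Ref0 (addyz G)) : Ref0 f := by
  obtain ⟨e, he⟩ := itr_rename f κ
  obtain ⟨e', he'⟩ := rename_addyz e (itr f κ)
  rw [he] at he'
  refine ref0_down hf hf0 κ ?_ ?_
  · refine ref0_rename (by ring) e (itr_ne hf κ) (itr_zero' hf0 κ) ?_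
    rw [he]
    exact ref0_eqv h h1
  · refine ref0_rename (by ring) e' (itr_ne hf (κ + 1)) (itr_zero' hf0 (κ + 1)) ?_
    show Ref0 (rename e' (addyz (itr f κ)))
    rw [he']
    exact ref0_eqv h.addyz h2

end ref

end Pool.Agent.X271.GE
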