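import Pool.Agent.X271.GermEqv
import Mathlib.RingTheory.PowerSeries.Binomial

set_option autoImplicit false
set_option linter.unusedVariables false
set_option linter.unusedSectionVars false

/-! Sums of monomials with units as coefficients and affinely independent exponents. -/

namespace Pool.Agent.X271.GE

open MvPowerSeries
open Pool.Agent.W425.SM (Ind)
open Pool.Agent.W425.ND (spa)

variable {k : Type} [Field k] {n r : ℕ}

section rp
variable [CharZero k]

/-- the rational powers of a power series with constant coefficient `1` -/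
noncomputable def rp (q : ℚ) (h : MvPowerSeries (Fin n) k) : MvPowerSeries (Fin n) k :=
  PowerSeries.subst (h - 1) (PowerSeries.binomialSeries k q)

theorem hs1 {h : MvPowerSeries (Fin n) k} (h1 : constantCoeff h = 1) :
    PowerSeries.HasSubst (h - 1) :=
  PowerSeries.HasSubst.of_constantCoeff_zero (by rw [map_sub, h1, map_one, sub_self])

theorem rp_add {h : MvPowerSeries (Fin n) k} (h1 : constantCoeff h = 1) (p q : ℚ) :
    rp (p + q) h = rp p h * rp q h := by
  unfold rp
  rw [PowerSeries.binomialSeries_add, PowerSeries.subst_mul (hs1 h1)]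

theorem rp_zero {h : MvPowerSeries (Fin n) k} (h1 : constantCoeff h = 1) : rp 0 h = 1 := by
  unfold rp
  rw [PowerSeries.binomialSeries_zero, ← PowerSeries.coe_substAlgHom (hs1 h1), map_one]

theorem rp_one {h : MvPowerSeries (Fin n) k} (h1 : constantCoeff h = 1) : rp 1 h = h := by
  unfold rp
  have h2 := PowerSeries.binomialSeries_nat (R := ℚ) (A := k) 1
  rw [Nat.cast_one, pow_one] at h2
  rw [h2, ← PowerSeries.coe_substAlgHom (hs1 h1), map_add, map_one,
    PowerSeries.coe_substAlgHom (hs1 h1), PowerSeries.subst_X (hs1 h1), add_sub_cancel]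

theorem rp_nmul {h : MvPowerSeries (Fin n) k} (h1 : constantCoeff h = 1) (q : ℚ) (m : ℕ) :
    rp (m * q) h = rp q h ^ m := by
  induction m with
  | zero => rw [Nat.cast_zero, zero_mul, pow_zero, rp_zero h1]
  | succ m ih => rw [Nat.cast_succ, add_mul, one_mul, rp_add h1, ih, pow_succ]

theorem rp_sum {h : MvPowerSeries (Fin n) k} (h1 : constantCoeff h = 1) {ι : Type}
    (s : Finset ι) (q : ι → ℚ) : rp (∑ i ∈ s, q i) h = ∏ i ∈ s, rp (q i) h := by
  classical
  induction s using Finset.induction_on with
  | empty => rw [Finset.sum_empty, Finset.prod_empty, rp_zero h1]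
  | insert a s ha ih => rw [Finset.sum_insert ha, Finset.prod_insert ha, rp_add h1, ih]

theorem rp_const {h : MvPowerSeries (Fin n) k} (h1 : constantCoeff h = 1) (q : ℚ) :
    constantCoeff (rp q h) = 1 := by
  have h2 : rp q h = PowerSeries.subst (h - 1) (PowerSeries.binomialSeries k q - 1) + 1 := by
    have h3 := PowerSeries.coe_substAlgHom (R := k) (hs1 h1)
    unfold rp
    rw [← h3, map_sub, map_one, sub_add_cancel]
  rw [h2, map_add, PowerSeries.constantCoeff_subst_eq_zero (by
    rw [map_sub, h1, map_one, sub_self]) _ (by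
      rw [map_sub, PowerSeries.binomialSeries_constantCoeff, map_one, sub_self]), zero_add,
    map_one]

end rp

/-- solution of the linear equations -/
theorem exists_dual (v : Fin r → Fin n → ℕ) (hv : Ind v) :
    ∃ (b : Fin n → Fin r → ℚ) (b0 : Fin r → ℚ), ∀ j l,
      ∑ i, (v j i : ℚ) * b i l + b0 l = if j = l then 1 else 0 := by
  classical
  set T : (Fin r → ℚ) →ₗ[ℚ] (Fin n → ℚ) × ℚ :=
    { toFun := fun w => (fun i => ∑ j, w j * (v j i : ℚ), ∑ j, w j)
      map_add' := by
        intro w w'
        ext i
        · simp [add_mul, Finset.sum_add_distrib]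
        · simp [Finset.sum_add_distrib]
      map_smul' := by
        intro c w
        ext i
        · simp [Finset.mul_sum, mul_assoc]
        · simp [Finset.mul_sum] } with hT
  have hTi : Function.Injective T := by
    rw [← LinearMap.ker_eq_bot, LinearMap.ker_eq_bot']
    intro w hw
    have h1 : ∑ j, w j = 0 := congrArg Prod.snd hw
    have h2 : ∀ i, ∑ j, w j * (v j i : ℚ) = 0 := fun i => congrFun (congrArg Prod.fst hw) i
    unfold Ind at hv
    rw [affineIndependent_iff] at hv
    funext j
    refine hv Finset.univ w h1 ?_ j (Finset.mem_univ _)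
    funext i
    simp only [Finset.sum_apply, Pi.smul_apply, smul_eq_mul, Pi.zero_apply]
    exact h2 i
  obtain ⟨S, hS⟩ := LinearMap.exists_leftInverse_of_injective T (LinearMap.ker_eq_bot.2 hTi)
  refine ⟨fun i l => S (Pi.single i 1, 0) l, fun l => S (0, 1) l, fun j l => ?_⟩
  have h1 : T (Pi.single j 1) = (fun i => (v j i : ℚ), 1) := by
    simp only [hT, LinearMap.coe_mk, AddHom.coe_mk]
    refine Prod.ext ?_ ?_
    · funext i
      simp only
      rw [Finset.sum_eq_single j]
      · simp
      · intro j' _ h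
        rw [Pi.single_eq_of_ne h, zero_mul]
      · intro h
        exact absurd (Finset.mem_univ _) h
    · simp only
      rw [Finset.sum_eq_single j]
      · simp
      · intro j' _ h
        rw [Pi.single_eq_of_ne h]
      · intro h
        exact absurd (Finset.mem_univ _) h
  have h2 : ((fun i => (v j i : ℚ), 1) : (Fin n → ℚ) × ℚ) =
      ∑ i, (v j i : ℚ) • ((Pi.single i 1, 0) : (Fin n → ℚ) × ℚ) + (0, 1) := by
    refine Prod.ext ?_ ?_
    · funext i
      rw [Prod.fst_add, Prod.fst_sum, Pi.add_apply, Finset.sum_apply]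
      show (v j i : ℚ) = ∑ c, ((v j c : ℚ) • (Pi.single c (1 : ℚ) : Fin n → ℚ)) i +
        (0 : Fin n → ℚ) i
      rw [Pi.zero_apply, add_zero, Finset.sum_eq_single i]
      · simp
      · intro i' _ h
        simp [Pi.single_eq_of_ne (Ne.symm h)]
      · intro h
        exact absurd (Finset.mem_univ _) h
    · rw [Prod.snd_add, Prod.snd_sum]
      simp
  have h3 := congrArg (fun f => f l) (DFunLike.congr_fun hS (Pi.single j 1))
  simp only [LinearMap.comp_apply, LinearMap.id_apply] at h3
  rw [h1, h2, map_add, map_sum, Pi.add_apply, Finset.sum_apply] at h3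
  simp only [map_smul, Pi.smul_apply, smul_eq_mul] at h3
  rw [h3, Pi.single_apply]
  by_cases h : j = l
  · rw [if_pos h, if_pos h.symm]
  · rw [if_neg h, if_neg (Ne.symm h)]

/-- **Sums of monomials with affinely independent exponents and units as coefficients.** -/
theorem units_eqv [CharZero k] (v : Fin r → Fin n → ℕ) (hv : Ind v)
    (U : Fin r → MvPowerSeries (Fin n) k) (hU : ∀ j, constantCoeff (U j) ≠ 0) :
    EqvP (∑ j, U j * ∏ i, X i ^ v j i)
      ((spa v (fun j => constantCoeff (U j)) : MvPolynomial (Fin n) k) :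
        MvPowerSeries (Fin n) k) := by
  classical
  obtain ⟨b, b0, hb⟩ := exists_dual v hv
  set c : Fin r → k := fun j => constantCoeff (U j) with hc
  set h : Fin r → MvPowerSeries (Fin n) k := fun j => C (c j)⁻¹ * U j with hh
  have hUh : ∀ j, U j = C (c j) * h j := by
    intro j
    simp only [hh]
    rw [← mul_assoc, ← map_mul, mul_inv_cancel₀ (hU j), map_one, one_mul]
  have h1 : ∀ j, constantCoeff (h j) = 1 := by
    intro j
    simp only [hh]
    rw [map_mul, constantCoeff_C, inv_mul_cancel₀ (hU j)]
  set w : Fin n → MvPowerSeries (Fin n) k := fun i => ∏ l, rp (b i l) (h l) with hw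
  set u : MvPowerSeries (Fin n) k := ∏ l, rp (b0 l) (h l) with hu
  have hw1 : ∀ i, constantCoeff (w i) = 1 := by
    intro i
    simp only [hw]
    rw [map_prod]
    exact Finset.prod_eq_one fun l _ => rp_const (h1 l) _
  have hu1 : constantCoeff u = 1 := by
    rw [hu, map_prod]
    exact Finset.prod_eq_one fun l _ => rp_const (h1 l) _
  have hkey : ∀ j, (∏ i, w i ^ v j i) * u = h j := by
    intro j
    simp only [hw, hu]
    have e1 : ∏ i, (∏ l, rp (b i l) (h l)) ^ v j i =
        ∏ l, ∏ i, rp ((v j i : ℚ) * b i l) (h l) := by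
      rw [Finset.prod_comm]
      refine Finset.prod_congr rfl fun i _ => ?_
      rw [← Finset.prod_pow]
      exact Finset.prod_congr rfl fun l _ => (rp_nmul (h1 l) _ _).symm
    rw [e1, ← Finset.prod_mul_distrib]
    have e2 : ∀ l, (∏ i, rp ((v j i : ℚ) * b i l) (h l)) * rp (b0 l) (h l) =
        if j = l then h l else 1 := by
      intro l
      rw [← rp_sum (h1 l), ← rp_add (h1 l), hb j l]
      split_ifs
      · exact rp_one (h1 l)
      · exact rp_zero (h1 l)
    rw [Finset.prod_congr rfl fun l _ => e2 l, Finset.prod_ite_eq, if_pos (Finset.mem_univ _)]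
  set φ : Fin n → MvPowerSeries (Fin n) k := fun i => X i * w i with hφ
  have hφ0 : ∀ i, constantCoeff (φ i) = 0 := by
    intro i
    simp only [hφ]
    rw [map_mul, constantCoeff_X, zero_mul]
  have hF : FCoord φ := by
    refine ⟨hφ0, ?_⟩
    show (lmat φ).det ≠ 0
    have h2 : lmat φ = lmat fun i => X i := by
      ext i j
      show coeff (Finsupp.single j 1) (X i * w i) = coeff (Finsupp.single j 1) (X i)
      rw [coeff_single_mul, constantCoeff_X, zero_mul, zero_add, hw1, mul_one]
    rw [h2, lmat_X, Matrix.det_one]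
    exact one_ne_zero
  have hsφ := hasSubst_of_constantCoeff_zero hφ0
  have huu : IsUnit u := by
    rw [isUnit_iff_constantCoeff, hu1]
    exact isUnit_one
  refine EqvP.symm ?_
  obtain ⟨u', hu'⟩ := huu
  refine ⟨φ, ((u'⁻¹ : (MvPowerSeries (Fin n) k)ˣ) : MvPowerSeries (Fin n) k), hF,
    Units.isUnit _, ?_⟩
  have e3 : (subst φ ((spa v c : MvPolynomial (Fin n) k) : MvPowerSeries (Fin n) k) :
      MvPowerSeries (Fin n) k) = ∑ j, C (c j) * ∏ i, (X i * w i) ^ v j i := by
    rw [subst_coe]
    unfold spa
    rw [map_sum]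
    refine Finset.sum_congr rfl fun j _ => ?_
    rw [map_mul, map_prod, MvPolynomial.algHom_C]
    congr 1
    refine Finset.prod_congr rfl fun i _ => ?_
    rw [map_pow, MvPolynomial.aeval_X]
  rw [e3, Units.eq_inv_mul_iff_mul_eq, hu', Finset.mul_sum]
  refine Finset.sum_congr rfl fun j _ => ?_
  have e4 : ∏ i, (X i * w i) ^ v j i = (∏ i, X i ^ v j i) * ∏ i, w i ^ v j i := by
    rw [← Finset.prod_mul_distrib]
    exact Finset.prod_congr rfl fun i _ => mul_pow _ _ _
  rw [e4, hUh j, ← hkey j]
  ring

end Pool.Agent.X271.GE
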