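import Pool.Agent.X159.QI.Red
import Pool.Agent.X159.QI.Ext
import Pool.Agent.Y229.SP4
import Pool.Agent.W206.CU.BF

set_option autoImplicit false
set_option linter.unusedSectionVars false

/-! # Local functional equations of ideals: one more variable -/

namespace Pool.Agent.X271.IQ

open MvPolynomial Pool.Agent.H628R4.TP Pool.Agent.Y229
open Pool.Agent.X159.QI (ex nf)
open Pool.Agent.W206.CU (weylS_mulLeft weylS_pderiv weylS_conj)

section eqn
variable {σ ι : Type} [Fintype ι]

/-- The functional equation, multiplied by a polynomial `H`. -/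
def PolyEq (H : MvPolynomial σ ℂ) (f : ι → MvPolynomial σ ℂ) (b : Polynomial ℂ) : Prop :=
  ∃ (L : Type) (_ : Fintype L) (c : L → ι → ℤ) (q : L → MvPolynomial ι ℂ) (Q : L → weylS σ),
    (∀ l, ∑ j, c l j = 1) ∧
    ∀ s : ι → ℕ, H * (C (b.eval ((∑ j, s j : ℕ) : ℂ)) * ∏ j, f j ^ s j) =
      ∑ l, C (eval (fun j => (s j : ℂ)) (q l) * ∏ j, ((s j).choose (-(c l j)).toNat : ℂ)) *
        ((Q l : Module.End ℂ (MvPolynomial σ ℂ)) (∏ j, f j ^ ((s j : ℤ) + c l j).toNat))

theorem polyEq_of_local [Finite σ] {f : ι → MvPolynomial σ ℂ} {b : Polynomial ℂ}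
    (h : IsLocalBI f b) : ∃ H : MvPolynomial σ ℂ, constantCoeff H ≠ 0 ∧ PolyEq H f b := by
  classical
  obtain ⟨L, c, q, a, Q, hc, hQ⟩ := h
  obtain ⟨H, u, hH, hu⟩ := flatInf (fun s : ι → ℕ => C (b.eval ((∑ j, s j : ℕ) : ℂ)) *
    ∏ j, f j ^ s j) (fun (l : Fin L) (s : ι → ℕ) => C (eval (fun j => (s j : ℂ)) (q l) *
      ∏ j, ((s j).choose (-(c l j)).toNat : ℂ)) *
        ((Q l : Module.End ℂ (MvPolynomial σ ℂ)) (∏ j, f j ^ ((s j : ℤ) + c l j).toNat))) a (by
      intro s
      have h1 := hQ s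
      rw [← MvPolynomial.coe_C, ← MvPolynomial.coe_mul] at h1
      rw [h1]
      refine Finset.sum_congr rfl fun l _ => ?_
      rw [MvPolynomial.coe_mul, MvPolynomial.coe_C]
      ring)
  refine ⟨H, hH, Fin L, inferInstance, c, q,
    fun l => ⟨LinearMap.mulLeft ℂ (u l) * (Q l : Module.End ℂ (MvPolynomial σ ℂ)),
      (weylS σ).mul_mem (weylS_mulLeft (u l)) (Q l).2⟩, hc, fun s => ?_⟩
  rw [hu s]
  refine Finset.sum_congr rfl fun l _ => ?_
  rw [Module.End.mul_apply, LinearMap.mulLeft_apply]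
  ring

theorem local_of_polyEq {H : MvPolynomial σ ℂ} (hH : constantCoeff H ≠ 0)
    {f : ι → MvPolynomial σ ℂ} {b : Polynomial ℂ} (h : PolyEq H f b) : IsLocalBI f b := by
  classical
  obtain ⟨L, _, c, q, Q, hc, hQ⟩ := h
  have hH' : MvPowerSeries.constantCoeff (H : MvPowerSeries σ ℂ) ≠ 0 := by
    rw [← MvPowerSeries.coeff_zero_eq_constantCoeff_apply, MvPolynomial.coeff_coe]
    exact hH
  set e := Fintype.equivFin L with he
  refine ⟨Fintype.card L, fun l => c (e.symm l), fun l => q (e.symm l),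
    fun _ => (H : MvPowerSeries σ ℂ)⁻¹, fun l => Q (e.symm l), fun l => hc _, fun s => ?_⟩
  have h1 := congrArg (fun p : MvPolynomial σ ℂ => (H : MvPowerSeries σ ℂ)⁻¹ *
    (p : MvPowerSeries σ ℂ)) (hQ s)
  beta_reduce at h1
  rw [MvPolynomial.coe_mul, ← mul_assoc, MvPowerSeries.inv_mul_cancel _ hH', one_mul,
    MvPolynomial.coe_mul, MvPolynomial.coe_C] at h1
  rw [h1]
  have h2 : ((∑ l, C (eval (fun j => (s j : ℂ)) (q l) *
      ∏ j, ((s j).choose (-(c l j)).toNat : ℂ)) *
        ((Q l : Module.End ℂ (MvPolynomial σ ℂ)) (∏ j, f j ^ ((s j : ℤ) + c l j).toNat)) :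
      MvPolynomial σ ℂ) : MvPowerSeries σ ℂ) = ∑ l, ((C (eval (fun j => (s j : ℂ)) (q l) *
      ∏ j, ((s j).choose (-(c l j)).toNat : ℂ)) *
        ((Q l : Module.End ℂ (MvPolynomial σ ℂ)) (∏ j, f j ^ ((s j : ℤ) + c l j).toNat)) :
      MvPolynomial σ ℂ) : MvPowerSeries σ ℂ) := by
    rw [← MvPolynomial.coeToMvPowerSeries.ringHom_apply, map_sum]
    rfl
  rw [h2, Finset.mul_sum, ← Equiv.sum_comp e.symm]
  refine Finset.sum_congr rfl fun l _ => ?_
  rw [MvPolynomial.coe_mul, MvPolynomial.coe_C]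
  ring

/-- isomorphisms of polynomial rings -/
theorem PolyEq.iso {τ : Type} [Finite σ] [Finite τ] {H : MvPolynomial σ ℂ}
    {f : ι → MvPolynomial σ ℂ} {b : Polynomial ℂ} (h : PolyEq H f b)
    (e : MvPolynomial σ ℂ ≃ₐ[ℂ] MvPolynomial τ ℂ) : PolyEq (e H) (fun j => e (f j)) b := by
  obtain ⟨L, iL, c, q, Q, hc, hQ⟩ := h
  refine ⟨L, iL, c, q, fun l => ⟨_, weylS_conj e (Q l).2⟩, hc, fun s => ?_⟩
  have h1 := congrArg e (hQ s)
  have hC : ∀ z : ℂ, e (C z) = C z := fun z => e.commutes z
  rw [map_mul, map_mul, hC, map_prod, map_sum] at h1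
  simp only [map_pow] at h1
  rw [h1]
  refine Finset.sum_congr rfl fun l _ => ?_
  rw [map_mul, hC]
  congr 1
  simp only [LinearMap.comp_apply, LinearEquiv.coe_coe, AlgEquiv.toLinearEquiv_apply,
    map_prod, map_pow, AlgEquiv.symm_apply_apply]

/-- Operators extend along injective maps of the variables. -/
theorem extendW {τ : Type} {e : σ → τ} (he : Function.Injective e)
    (P : Module.End ℂ (MvPolynomial σ ℂ)) (hP : P ∈ weylS σ) :
    ∃ P' : Module.End ℂ (MvPolynomial τ ℂ), P' ∈ weylS τ ∧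
      ∀ (u : MvPolynomial σ ℂ) (m : MvPolynomial τ ℂ),
        (∀ i, pderiv (e i) m = 0) → P' (rename e u * m) = rename e (P u) * m := by
  induction hP using Algebra.adjoin_induction with
  | mem P hP =>
    rcases hP with ⟨i, rfl⟩ | ⟨i, rfl⟩
    · refine ⟨LinearMap.mulLeft ℂ (X (e i)), weylS_mulLeft _, fun u m _ => ?_⟩
      rw [LinearMap.mulLeft_apply, LinearMap.mulLeft_apply, map_mul, rename_X, mul_assoc]
    · refine ⟨_, weylS_pderiv (e i), fun u m hm => ?_⟩
      show pderiv (e i) (rename e u * m) = rename e (pderiv i u) * m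
      rw [Derivation.leibniz, hm i, smul_zero, zero_add, smul_eq_mul, pderiv_rename he, mul_comm]
  | algebraMap c =>
    refine ⟨algebraMap ℂ _ c, Subalgebra.algebraMap_mem _ c, fun u m _ => ?_⟩
    rw [Module.algebraMap_end_apply, Module.algebraMap_end_apply, map_smul, smul_mul_assoc]
  | add P Q _ _ hP hQ =>
    obtain ⟨P', h1, h2⟩ := hP
    obtain ⟨Q', h3, h4⟩ := hQ
    refine ⟨P' + Q', Subalgebra.add_mem _ h1 h3, fun u m hm => ?_⟩
    rw [LinearMap.add_apply, h2 u m hm, h4 u m hm, LinearMap.add_apply, map_add, add_mul]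
  | mul P Q _ _ hP hQ =>
    obtain ⟨P', h1, h2⟩ := hP
    obtain ⟨Q', h3, h4⟩ := hQ
    refine ⟨P' * Q', Subalgebra.mul_mem _ h1 h3, fun u m hm => ?_⟩
    rw [Module.End.mul_apply, h4 u m hm, h2 _ m hm, Module.End.mul_apply]

theorem pderiv_none_rename (p : MvPolynomial σ ℂ) :
    pderiv (none : Option σ) (rename some p) = 0 := by
  classical
  induction p using MvPolynomial.induction_on with
  | C a => rw [rename_C, pderiv_C]
  | add p q hp hq => rw [map_add, map_add, hp, hq, add_zero]
  | mul_X p i hp =>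
    rw [map_mul, Derivation.leibniz, hp, rename_X, pderiv_X_of_ne (Option.some_ne_none i),
      smul_zero, smul_zero, add_zero]

theorem pderiv_some_X_none (i : σ) (t : ℕ) :
    pderiv (some i) ((X none : MvPolynomial (Option σ) ℂ) ^ t) = 0 := by
  classical
  rw [Derivation.leibniz_pow, pderiv_X_of_ne (Option.some_ne_none i).symm, smul_zero, smul_zero]

/-- the factor `(b(x + y) - b(x)) / y` -/
theorem exists_factor2 (b : Polynomial ℂ) :
    ∃ h : MvPolynomial (Option ι) ℂ, ∀ s : Option ι → ℂ,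
      b.eval (s none + ∑ j, s (some j) + 1) - b.eval (∑ j, s (some j)) =
        eval s h * (s none + 1) := by
  obtain ⟨h, hh⟩ := (b.map (C : ℂ →+* MvPolynomial (Option ι) ℂ)).evalSubFactor
    (X none + ∑ j, X (some j) + 1) (∑ j, X (some j))
  refine ⟨h, fun s => ?_⟩
  have h1 := congrArg (eval s) hh
  have h2 : ∀ x : MvPolynomial (Option ι) ℂ, eval s ((b.map (C : ℂ →+* _)).eval x) =
      b.eval (eval s x) := by
    intro x
    rw [Polynomial.eval_map, Polynomial.hom_eval₂]
    have h3 : (eval s).comp (C : ℂ →+* MvPolynomial (Option ι) ℂ) = RingHom.id ℂ := by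
      ext z
      simp
    rw [h3]
    rfl
  rw [map_sub, h2, h2, map_mul, map_sub, map_add, map_add, map_sum, map_one, eval_X] at h1
  simp only [eval_X] at h1
  rw [h1]
  ring

/-- the shifts -/
def cE {L : Type} (c : L → ι → ℤ) : Option L → Option ι → ℤ
  | some l, some j => c l j
  | some _, none => 0
  | none, some _ => 0
  | none, none => 1

/-- the coefficients -/
noncomputable def qE {L : Type} (q : L → MvPolynomial ι ℂ) (h : MvPolynomial (Option ι) ℂ) :
    Option L → MvPolynomial (Option ι) ℂ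
  | some l => rename some (q l)
  | none => h

/-- the operators -/
noncomputable def QE {L : Type} (Q : L → weylS (Option σ)) (Q0 : weylS (Option σ)) :
    Option L → weylS (Option σ)
  | some l => Q l
  | none => Q0

/-- **One more variable.** -/
theorem PolyEq.ext {H : MvPolynomial σ ℂ} {f : ι → MvPolynomial σ ℂ} {b : Polynomial ℂ}
    (h : PolyEq H f b) : PolyEq (rename some H) (ex f) (b.comp (Polynomial.X + 1)) := by
  classical
  obtain ⟨L, _, c, q, Q, hc, hQ⟩ := h
  obtain ⟨hh, hhs⟩ := exists_factor2 (ι := ι) b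
  choose Q' hQ' hQ'' using fun l => extendW (Option.some_injective σ) (Q l).1 (Q l).2
  refine ⟨Option L, inferInstance, cE c, qE q hh, QE (fun l => ⟨Q' l, hQ' l⟩)
      ⟨LinearMap.mulLeft ℂ (rename some H) *
          ((pderiv none : Derivation ℂ (MvPolynomial (Option σ) ℂ)
            (MvPolynomial (Option σ) ℂ)) : MvPolynomial (Option σ) ℂ →ₗ[ℂ]
              MvPolynomial (Option σ) ℂ),
          (weylS _).mul_mem (weylS_mulLeft _) (weylS_pderiv none)⟩, ?_, fun s => ?_⟩
  · intro l
    rcases l with _ | l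
    · simp [Fintype.sum_option, cE]
    · simp [Fintype.sum_option, cE, hc l]
  · set t := s none with ht
    set s' : ι → ℕ := fun j => s (some j) with hs'
    set A : MvPolynomial σ ℂ := ∏ j, f j ^ s' j with hA
    have e1 : ∏ o, ex f o ^ s o = X none ^ t * rename some A := by
      rw [Fintype.prod_option, hA, map_prod]
      simp only [ex, map_pow]
      rfl
    have e2 : ((b.comp (Polynomial.X + 1)).eval ((∑ o, s o : ℕ) : ℂ)) =
        b.eval ((∑ j, s' j : ℕ) : ℂ) + eval (fun o => (s o : ℂ)) hh * ((t : ℂ) + 1) := by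
      have h3 := hhs (fun o => (s o : ℂ))
      rw [Polynomial.eval_comp, Polynomial.eval_add, Polynomial.eval_X, Polynomial.eval_one,
        Fintype.sum_option]
      push_cast
      rw [← h3]
      ring
    have e3 : (∏ j : Option ι, (((s j).choose (-(cE c none j)).toNat : ℕ) : ℂ)) = 1 := by
      rw [Fintype.prod_option]
      simp [cE]
    have e4 : ∏ o : Option ι, ex f o ^ ((s o : ℤ) + cE c none o).toNat =
        X none ^ (t + 1) * rename some A := by
      rw [Fintype.prod_option, hA, map_prod]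
      simp only [ex, map_pow, cE, add_zero, Int.toNat_natCast]
      rfl
    have e5 : ∀ l, ∏ j : Option ι, (((s j).choose (-(cE c (some l) j)).toNat : ℕ) : ℂ) =
        ∏ j, (((s' j).choose (-(c l j)).toNat : ℕ) : ℂ) := by
      intro l
      rw [Fintype.prod_option]
      simp [hs', cE]
    have e6 : ∀ l, ∏ o : Option ι, ex f o ^ ((s o : ℤ) + cE c (some l) o).toNat =
        rename some (∏ j, f j ^ ((s' j : ℤ) + c l j).toNat) * X none ^ t := by
      intro l
      rw [Fintype.prod_option, map_prod, mul_comm]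
      simp only [ex, map_pow, cE, add_zero, Int.toNat_natCast]
      rfl
    have h1 := congrArg (fun p : MvPolynomial σ ℂ =>
      (rename some p : MvPolynomial (Option σ) ℂ) * X none ^ t) (hQ s')
    beta_reduce at h1
    rw [← hA, map_mul, map_mul, rename_C, map_sum, Finset.sum_mul] at h1
    have h2 : ∀ l : L, C (eval (fun o => (s o : ℂ)) (qE q hh (some l)) *
          ∏ j : Option ι, (((s j).choose (-(cE c (some l) j)).toNat : ℕ) : ℂ)) *
            (Q' l) (∏ o : Option ι, ex f o ^ ((s o : ℤ) + cE c (some l) o).toNat) =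
        rename some (C (eval (fun j => (s' j : ℂ)) (q l) *
          ∏ j, (((s' j).choose (-(c l j)).toNat : ℕ) : ℂ)) *
          ((Q l : Module.End ℂ (MvPolynomial σ ℂ)) (∏ j, f j ^ ((s' j : ℤ) + c l j).toNat))) *
            X none ^ t := by
      intro l
      rw [e5, e6, hQ'' l _ _ (fun i => pderiv_some_X_none i t), qE, eval_rename,
        map_mul (rename some) (C _) _, rename_C, mul_assoc]
      rfl
    have e7 : (((pderiv none : Derivation ℂ (MvPolynomial (Option σ) ℂ)
            (MvPolynomial (Option σ) ℂ)) : MvPolynomial (Option σ) ℂ →ₗ[ℂ]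
              MvPolynomial (Option σ) ℂ)) (X none ^ (t + 1) * rename some A) =
        C ((t : ℂ) + 1) * (X none ^ t * rename some A) := by
      show pderiv none (X none ^ (t + 1) * rename some A) = _
      rw [Derivation.leibniz, pderiv_none_rename, smul_zero, zero_add, Derivation.leibniz_pow,
        pderiv_X_self, smul_eq_mul, smul_eq_mul, mul_one, Nat.add_sub_cancel, nsmul_eq_mul,
        map_add, map_one]
      push_cast
      rw [show (C ((t : ℕ) : ℂ) : MvPolynomial (Option σ) ℂ) = ((t : ℕ) : MvPolynomial (Option σ) ℂ)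
        from map_natCast C t]
      ring
    rw [e1, e2, Fintype.sum_option, e3, e4]
    have h3 : ∀ l : L, C (eval (fun o => (s o : ℂ)) (qE q hh (some l)) *
          ∏ j : Option ι, (((s j).choose (-(cE c (some l) j)).toNat : ℕ) : ℂ)) *
            ((QE (fun l => ⟨Q' l, hQ' l⟩)
      ⟨LinearMap.mulLeft ℂ (rename some H) *
          ((pderiv none : Derivation ℂ (MvPolynomial (Option σ) ℂ)
            (MvPolynomial (Option σ) ℂ)) : MvPolynomial (Option σ) ℂ →ₗ[ℂ]
              MvPolynomial (Option σ) ℂ),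
          (weylS _).mul_mem (weylS_mulLeft _) (weylS_pderiv none)⟩ (some l) : weylS (Option σ)) :
              Module.End ℂ (MvPolynomial (Option σ) ℂ))
              (∏ o : Option ι, ex f o ^ ((s o : ℤ) + cE c (some l) o).toNat) =
        rename some (C (eval (fun j => (s' j : ℂ)) (q l) *
          ∏ j, (((s' j).choose (-(c l j)).toNat : ℕ) : ℂ)) *
          ((Q l : Module.End ℂ (MvPolynomial σ ℂ)) (∏ j, f j ^ ((s' j : ℤ) + c l j).toNat))) *
            X none ^ t := h2
    rw [Finset.sum_congr rfl fun l _ => h3 l, ← h1]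
    show _ = C (eval (fun o => (s o : ℂ)) hh * 1) * (rename some H *
      (((pderiv none : Derivation ℂ (MvPolynomial (Option σ) ℂ)
            (MvPolynomial (Option σ) ℂ)) : MvPolynomial (Option σ) ℂ →ₗ[ℂ]
              MvPolynomial (Option σ) ℂ)) (X none ^ (t + 1) * rename some A)) + _
    rw [e7, mul_one, map_add, map_mul C]
    ring

end eqn

end Pool.Agent.X271.IQ
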