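import Pool.Agent.X271.MotCmpL
import Pool.Agent.TH216.ID.Id3
import Pool.Agent.TH216.ID.Gn1

set_option autoImplicit false
set_option linter.unusedVariables false

/-! Ideals `(f_i)` such that `∑ y_i f_i` is stably generic. -/

namespace Pool.Agent.X271.MG

open MvPolynomial Pool.Agent.H628R4.TP Pool.Agent.W425.MM Pool.Agent.W425.GN
open Pool.Agent.W425.ND (spa)
open Pool.Agent.W426.SM (gord IsRay face)
open Pool.Agent.W803.SM (gord_le exists_gord)
open Pool.Agent.W425.SV (NP)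
open Pool.Agent.TH216.MF (LocS SimH)
open Pool.Agent.W428.MOT (Pt Constr ratRing Lu MK)
open Pool.Agent.W375.MG (zetaG Good ratRing_mono)
open Pool.Agent.Y229.MS
open Pool.Agent.Y229.RE
open Pool.Agent.Y229.PS (Becomes stabP becomes_local formal_of_local const_coe NPT)
open Pool.Agent.Y229.GL (IsCoord)

variable {M r : ℕ}

/-- **Stably generic polynomials, reduced local `b`-functions at the origin.** -/
theorem coreR {k : Type} [Field k] [Algebra k ℂ] {n κ r : ℕ} (hr : 0 < r)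
    (v : Fin r → Fin (n + (κ + κ)) → ℕ) (hv : Function.Injective v) (hv0 : ∀ j, v j ≠ 0)
    (h : MvPolynomial (Fin (n + (κ + κ))) k) (hh : ∀ w ∈ h.support, NP v w)
    (hC : HypCL v h) :
    ∃ g : MvPolynomial (Fin r) k, g ≠ 0 ∧ ∀ c : Fin r → k, eval c g ≠ 0 →
      ∀ f : MvPolynomial (Fin n) k, f ≠ 0 → constantCoeff f = 0 →
      ∀ φ : MvPolynomial (Fin (n + (κ + κ))) k ≃ₐ[k] MvPolynomial (Fin (n + (κ + κ))) k,
      φ (stabK f κ) = spa v c + h →
      Becomes ((map (algebraMap k ℂ) f : MvPolynomial (Fin n) ℂ) : MvPowerSeries (Fin n) ℂ) κ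
        (map (algebraMap k ℂ) (spa v c + h)) →
      (∀ a : Fin (n + (κ + κ)) → ℕ, IsRay v a → 0 < gord v a → ∑ i, a i ≠ gord v a) →
    ∃ S : Finset (ℤ × ℤ),
      (∀ p ∈ S, 0 < p.2 ∧ (∃ a : Fin (n + (κ + κ)) → ℕ, IsRay v a ∧
          0 < gord v a ∧ p = (-((∑ i, a i : ℕ) : ℤ) + κ * (gord v a : ℤ), (gord v a : ℤ))) ∧
        ∀ c' : Polynomial ℂ,
          IsLocalBFunction (map (algebraMap k ℂ) f) ((Polynomial.X + 1) * c') →
          c'.eval ((p.1 : ℂ) / p.2) = 0) ∧
      ∀ (K : Type) [Field K] [Algebra k K] (W : Set (Pt K (Fin n)))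
        (E : Set (AlgebraicClosure K)), Constr W → Good E →
        fst' K * zetaG (map (algebraMap k K) f) W E ∈ ratRing K S := by
  classical
  have hkc : CharZero k := RingHom.charZero (algebraMap k ℂ)
  obtain ⟨g1, hg1, hc1⟩ := gen_fstL hr v hv hv0 h hh
  obtain ⟨g2, hg2, hc2⟩ := gen_fstL (Nat.succ_pos r) (exyz v) (exyz_inj hv) (exyz_ne hv0) (up h)
    (np_up hh)
  obtain ⟨τ, hτ, g2', hg2', hc2'⟩ := exists_tau hg2
  refine ⟨g1 * g2', mul_ne_zero hg1 hg2', fun c hc f hf hf0 φ hφ hbec hlev1 => ?_⟩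
  rw [map_mul] at hc
  obtain ⟨hnb1, S1, hS1, hz1⟩ := hc1 c (left_ne_zero_of_mul hc)
  obtain ⟨hnb2, S2, hS2, hz2⟩ := hc2 (Fin.cons τ c) (by
    rw [← hc2']
    exact right_ne_zero_of_mul hc)
  set G : MvPolynomial (Fin (n + (κ + κ))) k := spa v c + h with hG
  set fC : MvPolynomial (Fin n) ℂ := map (algebraMap k ℂ) f with hfC
  have hinj := map_injective (σ := Fin n) (algebraMap k ℂ) (algebraMap k ℂ).injective
  have hfCn : fC ≠ 0 := fun h0 => hf (hinj (by rw [map_zero]; exact h0))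
  have hfC0 : constantCoeff fC = 0 := by
    rw [hfC, constantCoeff_map, hf0, map_zero]
  set GC : MvPolynomial (Fin (n + (κ + κ))) ℂ := map (algebraMap k ℂ) G with hGC
  have hGCn : GC ≠ 0 := by
    intro h0
    have h1 : G = 0 := map_injective _ (algebraMap k ℂ).injective (by rw [map_zero]; exact h0)
    rw [← hφ] at h1
    exact stabK_ne hf (φ.injective (by rw [h1, map_zero]))
  have hGC0 : constantCoeff GC = 0 := by
    rw [hGC, constantCoeff_map, hG, const_spa v hv0 c h hh, map_zero]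
  -- the b-functions
  have hb1 : ∀ c' : Polynomial ℂ, IsLocalBFunction fC ((Polynomial.X + 1) * c') →
      IsLocalBFunction GC ((Polynomial.X + 1) *
        c'.comp (Polynomial.X + Polynomial.C (κ : ℂ))) := fun c' h =>
    (loc_becomes hfCn hfC0 h hbec).2 c' rfl
  set τC : ℂ := algebraMap k ℂ τ with hτC
  have hτC0 : τC ≠ 0 := (map_ne_zero _).2 hτ
  have hmap2 : ∀ (K : Type) [Field K] [Algebra k K],
      map (algebraMap k K) (spa (exyz v) (Fin.cons τ c : Fin (r + 1) → k) + up h) =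
      rename (Fin.castAdd 2) (map (algebraMap k K) G) +
        C (algebraMap k K τ) * (X (Fin.natAdd _ 0) * X (Fin.natAdd _ 1)) := by
    intro K _ _
    rw [spa_tau, ← hG]
    simp only [map_add, map_mul, map_X, map_C, map_rename]
  have hb2 : ∀ c' : Polynomial ℂ, IsLocalBFunction fC ((Polynomial.X + 1) * c') →
      IsLocalBFunction
        (map (algebraMap k ℂ) (spa (exyz v) (Fin.cons τ c : Fin (r + 1) → k) + up h))
        ((Polynomial.X + 1) *
        (c'.comp (Polynomial.X + Polynomial.C (κ : ℂ))).comp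
          (Polynomial.X + Polynomial.C ((1 : ℕ) : ℂ))) := by
    intro c' h
    obtain ⟨θ, hθ0, hθ⟩ := exists_scale' (M := n + (κ + κ)) hτC0
    have h4 : Becomes (GC : MvPowerSeries (Fin (n + (κ + κ))) ℂ) 1 (θ (stab GC 1)) :=
      becomes_of_aut (κ := 1) GC θ hθ0
    have h5 := (loc_becomes (κ := 1) (G := θ (stab GC 1)) hGCn hGC0
      (hb1 c' h) h4).2 _ rfl
    have h6 : stab GC 1 = addyz GC := by
      unfold stab addyz
      rw [Fin.sum_univ_one]
      rfl
    rw [h6, hθ, ← hmap2 ℂ] at h5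
    exact h5
  -- the levels
  have hrat : ∀ a : Fin (n + (κ + κ)) → ℕ, 0 < gord v a →
      (((-((∑ i, a i : ℕ) : ℤ) + κ * (gord v a : ℤ) : ℤ) : ℂ) / ((gord v a : ℤ) : ℂ)) =
        ((-lev v a : ℚ) : ℂ) + κ := by
    intro a hg
    have h7 : ((gord v a : ℕ) : ℂ) ≠ 0 := by
      exact_mod_cast (Nat.pos_iff_ne_zero.1 hg)
    unfold lev
    push_cast
    field_simp
  have hlev0 : ∀ a : Fin (n + (κ + κ)) → ℕ, IsRay v a → 0 < gord v a →
      ((-lev v a : ℚ) : ℂ) ≠ 0 := by
    intro a ha hg h0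
    have h1 : (-lev v a : ℚ) = 0 := by exact_mod_cast h0
    unfold lev at h1
    rw [neg_eq_zero, div_eq_zero_iff] at h1
    rcases h1 with h1 | h1
    · have h2 := Pool.Agent.TH216.MC.pos_of_ray ha
      have h3 : ∑ i, a i = 0 := by exact_mod_cast h1
      rw [h3] at h2
      simp at h2
    · have h2 : gord v a = 0 := by exact_mod_cast h1
      omega
  have hlev1' : ∀ a : Fin (n + (κ + κ)) → ℕ, IsRay v a → 0 < gord v a →
      ((-lev v a : ℚ) : ℂ) + 1 ≠ 0 := by
    intro a ha hg h0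
    apply hlev1 a ha hg
    have h1 : (-lev v a : ℚ) + 1 = 0 := by exact_mod_cast h0
    have h2 : lev v a = 1 := by linarith
    unfold lev at h2
    rw [div_eq_one_iff_eq (by exact_mod_cast hg.ne')] at h2
    exact_mod_cast h2
  -- the roots
  have hroot : ∀ a : Fin (n + (κ + κ)) → ℕ, IsRay v a → 0 < gord v a →
      (LocC v h (lev v a) → ∀ c' : Polynomial ℂ, IsLocalBFunction fC ((Polynomial.X + 1) * c') →
        c'.eval (((-lev v a : ℚ) : ℂ) + κ) = 0) →
      ∀ c' : Polynomial ℂ, IsLocalBFunction fC ((Polynomial.X + 1) * c') →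
        c'.eval ((((-((∑ i, a i : ℕ) : ℤ) + κ * (gord v a : ℤ) : ℤ) : ℂ) /
          ((gord v a : ℤ) : ℂ))) = 0 := by
    intro a ha hg hL c' hb
    have h6 : c'.eval (((-lev v a : ℚ) : ℂ) + κ) = 0 := by
      rcases hC a ha hg with ⟨a', hg', hn', he⟩ | h7
      · have h8 := hnb1 a' hg' hn' _ (hb1 c' hb)
        rw [← he, Polynomial.eval_mul, Polynomial.eval_comp, Polynomial.eval_add,
          Polynomial.eval_X, Polynomial.eval_one, Polynomial.eval_add, Polynomial.eval_X,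
          Polynomial.eval_C] at h8
        exact (mul_eq_zero.1 h8).resolve_left (hlev1' a ha hg)
      · exact hL h7 c' hb
    rw [hrat a hg, h6]
  set S : Finset (ℤ × ℤ) := (S1.image (fun q => (q.1 + κ * q.2, q.2)) ∪
    S2.image (fun q => (q.1 + ((κ + 1 : ℕ) : ℤ) * q.2, q.2))) with hS
  refine ⟨S, fun p hp => ?_, fun K _ _ W E hW hE => ?_⟩
  · rcases Finset.mem_union.1 hp with hp | hp
    · obtain ⟨q, hq, rfl⟩ := Finset.mem_image.1 hp
      obtain ⟨a, ha, hg, rfl, hr1⟩ := hS1 q hq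
      refine ⟨Int.natCast_pos.2 hg, ⟨a, ha, hg, rfl⟩, fun c0 hb => ?_⟩
      refine hroot a ha hg (fun hL c' hc' => ?_) c0 hb
      have h8 := hr1 hL.locS _ (hb1 c' hc')
      rw [Polynomial.eval_mul, Polynomial.eval_comp, Polynomial.eval_add,
        Polynomial.eval_X, Polynomial.eval_one, Polynomial.eval_add, Polynomial.eval_X,
        Polynomial.eval_C] at h8
      exact (mul_eq_zero.1 h8).resolve_left (hlev1' a ha hg)
    · obtain ⟨q, hq, hqp⟩ := Finset.mem_image.1 hp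
      obtain ⟨a, ha, hg, hqa, hr1⟩ := hS2 q hq
      obtain ⟨h11, h12, h13, h14, h15⟩ := ray_exyz hr v ha hg
      have hg' : 0 < gord v (low a) := by rw [h12]; exact hg
      have hpe : p =
          (-((∑ i, low a i : ℕ) : ℤ) + κ * (gord v (low a) : ℤ), (gord v (low a) : ℤ)) := by
        rw [← hqp, hqa, h15, h12, Prod.mk.injEq]
        refine ⟨?_, rfl⟩
        push_cast
        ring
      rw [hpe]
      refine ⟨Int.natCast_pos.2 hg', ⟨low a, h11, hg', rfl⟩, fun c0 hb => ?_⟩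
      refine hroot (low a) h11 hg' (fun hL c' hc' => ?_) c0 hb
      have hlv := lev_exyz hr v ha hg
      have h8 := hr1 (by rw [hlv]; exact locS_exyz hr hL) _ (hb2 c' hc')
      rw [hlv, Polynomial.eval_mul, Polynomial.eval_comp, Polynomial.eval_comp,
        Polynomial.eval_add, Polynomial.eval_X, Polynomial.eval_one, Polynomial.eval_add,
        Polynomial.eval_X, Polynomial.eval_C, Polynomial.eval_add,
        Polynomial.eval_X, Polynomial.eval_C] at h8
      have h9 : ((-(lev v (low a) + 1) : ℚ) : ℂ) + ((1 : ℕ) : ℂ) = ((-lev v (low a) : ℚ) : ℂ) := by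
        push_cast
        ring
      have h10 : ((-(lev v (low a) + 1) : ℚ) : ℂ) + 1 = ((-lev v (low a) : ℚ) : ℂ) := by
        push_cast
        ring
      rw [h9, h10] at h8
      exact (mul_eq_zero.1 h8).resolve_left (hlev0 _ h11 hg')
  · have hK : CharZero K := charZero_of_injective_algebraMap (algebraMap k K).injective
    have hE' : CE E := ce_good hE
    set fK : MvPolynomial (Fin n) K := map (algebraMap k K) f with hfK
    obtain ⟨ψ1, hψ1⟩ := Pool.Agent.Y405.MS.itr K fK κ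
    obtain ⟨ψ2, hψ2⟩ := Pool.Agent.Y405.MS.bc k K φ
    set ψ := ψ1.trans ψ2 with hψ
    have e1 : ψ (itr fK κ) = map (algebraMap k K) G := by
      show ψ2 (ψ1 (itr fK κ)) = _
      rw [hψ1, hfK, ← map_stabK, hψ2, hφ]
    obtain ⟨ψ', hψ'⟩ := Pool.Agent.Y405.MS.ext K ψ
    obtain ⟨θ, hθ⟩ := exists_scale (K := K) (M := n + (κ + κ)) (τ := algebraMap k K τ)
      ((map_ne_zero _).2 hτ)
    set ψ'' := ψ'.trans θ with hψ''
    have e2 : ψ'' (addyz (itr fK κ)) =
        map (algebraMap k K) (spa (exyz v) (Fin.cons τ c : Fin (r + 1) → k) + up h) := by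
      show θ (ψ' (addyz (itr fK κ))) = _
      rw [hψ', e1, hθ, hmap2]
    have hW1 : Constr (Witr W κ) := constr_Witr hW κ
    have hW2 : Constr (Wyz (Witr W κ)) := constr_Wyz hW1
    have z1 := hz1 K _ E (constr_pull ψ hW1) hE
    have z2 := hz2 K _ E (constr_pull ψ'' hW2) hE
    rw [← e1, zeta_iso Pool.Agent.Z864.MS.three (by ring) ψ _ hW1 hE'] at z1
    rw [← e2, zeta_iso Pool.Agent.Z864.MS.three (by ring) ψ'' _ hW2 hE'] at z2
    have z3 := descend' fK hW hE' κ S1 S2 (fun p hp => by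
        obtain ⟨a, ha, hg, rfl, -⟩ := hS1 p hp
        exact Int.natCast_pos.2 hg)
      (fun p hp => by
        obtain ⟨a, ha, hg, rfl, -⟩ := hS2 p hp
        exact Int.natCast_pos.2 hg) z1 z2
    refine ratRing_mono ?_ z3
    rintro p (⟨q, hq, rfl⟩ | ⟨q, hq, rfl⟩)
    · exact Finset.mem_coe.2 (Finset.mem_union_left _
        (Finset.mem_image_of_mem (fun q : ℤ × ℤ => (q.1 + (κ : ℤ) * q.2, q.2)) hq))
    · exact Finset.mem_coe.2 (Finset.mem_union_right _
        (Finset.mem_image_of_mem (fun q : ℤ × ℤ => (q.1 + ((κ + 1 : ℕ) : ℤ) * q.2, q.2)) hq))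

variable {n κ : ℕ}

/-- **Compositions with generic coefficients, reduced local `b`-functions at the origin.** -/
theorem comp_motR {k : Type} [Field k] [Algebra k ℂ] (hr : 0 < r) (hκ : 0 < κ)
    (π : Fin r → Fin (κ + 1)) (m : Fin r → Fin (n + κ) → ℕ)
    (hinj : ∀ j j', π j = π j' → m j = m j' → j = j') (hm : ∀ j, π j = 0 → m j ≠ 0)
    (H : Fin (κ + 1) → MvPolynomial (Fin (n + κ)) k)
    (hH : ∀ i, ∀ w ∈ (H i).support, NPT π m i w) (hC : HypCL (ex π m) (hK H)) :
    ∃ g : MvPolynomial (Fin r) k, g ≠ 0 ∧ ∀ a : Fin r → k, eval a g ≠ 0 →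
      ∀ (c : Fin κ → k) (p : Fin κ → MvPolynomial (Fin n) k), (∀ i, c i ≠ 0) →
      (∀ i, constantCoeff (p i) = 0) →
      (∀ i : Fin κ, tupK π m a H i.succ = C (c i) * X (Fin.natAdd n i) -
        rename (Fin.castAdd κ) (p i)) →
      (∀ i : Fin κ, coeff (Finsupp.single (Fin.natAdd n i) 1) (tupK π m a H 0) = 0) →
      ∀ f : MvPolynomial (Fin n) k,
      f = aeval (Fin.append X fun i => C (c i)⁻¹ * p i) (tupK π m a H 0) → f ≠ 0 →
    ∃ S : Finset (ℤ × ℤ),
      (∀ p ∈ S, p.1 < 0 ∧ 0 < p.2 ∧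
        ∀ c' : Polynomial ℂ,
          IsLocalBFunction (map (algebraMap k ℂ) f) ((Polynomial.X + 1) * c') →
          c'.eval ((p.1 : ℂ) / p.2) = 0) ∧
      ∀ (K : Type) [Field K] [Algebra k K] (W : Set (Pt K (Fin n)))
        (E : Set (AlgebraicClosure K)), Constr W → Good E →
        fst' K * zetaG (map (algebraMap k K) f) W E ∈ ratRing K S := by
  obtain ⟨g, hg, hgc⟩ := coreR hr (ex π m) (ex_inj π m hinj)
    (Pool.Agent.Y229.PG.ex_ne_zero' π m hm) (hK H) (np_hK π m H hH) hC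
  refine ⟨g, hg, fun a ha c p hc hp hl hlin f hff hf0 => ?_⟩
  obtain ⟨φ, hφ⟩ := graph_phiK π m a H c hc p hl
  rw [← hff] at hφ
  have hpos := fun u L hL hu => ray_posK π m a H hH c hc p hl (hff ▸ hf0) u L hL hu
  have hbec := becomes_comp π m a H c hc p hp hl hlin
  have hfz := const_comp π m hm a H hH c p hp
  rw [← hff] at hbec hfz
  obtain ⟨S, hS, hz⟩ := hgc a ha f hf0 hfz φ hφ hbec (fun u _ hg' h1 => by
    have h2 := hpos u (gord (ex π m) u) hg' fun j => gord_le _ _ j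
    rw [h1] at h2
    have h3 : 1 * gord (ex π m) u ≤ κ * gord (ex π m) u := Nat.mul_le_mul_right _ hκ
    omega)
  refine ⟨S, fun q hq => ⟨?_, (hS q hq).1, (hS q hq).2.2⟩, hz⟩
  obtain ⟨u, hu, hg', rfl⟩ := (hS q hq).2.1
  have h1 := hpos u (gord (ex π m) u) hg' fun j => gord_le _ _ j
  show -((∑ i, u i : ℕ) : ℤ) + κ * (gord (ex π m) u : ℤ) < 0
  have h2 : ((κ * gord (ex π m) u : ℕ) : ℤ) < ((∑ i, u i : ℕ) : ℤ) := by exact_mod_cast h1
  push_cast at h2 ⊢
  linarith

end Pool.Agent.X271.MG
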