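import Pool.Agent.X271.IdZeta

set_option autoImplicit false
set_option linter.unusedSectionVars false

/-! # The motivic monodromy conjecture for ideals: reduction to linear forms and binomials -/

namespace Pool.Agent.X271.IQ

open MvPolynomial Pool.Agent.W428.MOT Pool.Agent.Y229 Pool.Agent.X159.QI
open Pool.Agent.Y229.MS (shn)

/-- The condition `P s₀ β` for all the polynomials `β` which satisfy the local functional equation of
Budur, Mustata and Saito for some finite system of generators of the ideal `(f_i) ⊂ ℂ[x]`. -/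
def AllB (P : ℚ → Polynomial ℂ → Prop) {k : Type} [Field k] [Algebra k ℂ]
    {σ ι : Type} (f : ι → MvPolynomial σ k) (s₀ : ℚ) : Prop :=
  ∀ (J : Type) [Fintype J] (h : J → MvPolynomial σ ℂ),
    Ideal.span (Set.range h) = Ideal.span (Set.range fun i => map (algebraMap k ℂ) (f i)) →
      ∀ β : Polynomial ℂ, IsLocalBI h β → P s₀ β

/-- The conclusion of the conjecture, in the form `P`, for the ideal `(f_i)` over the field `k ⊂ ℂ` at
the origin: there is a finite set `S` of pairs `(a, b)`, `b > 0`, such that the local motivic zeta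
function over every field `K ⊃ k` is in the ring generated by `T` and the `1 / (1 - 𝕃 ^ a T ^ b)`, and
such that `AllB P f (a / b)` holds. -/
def MonoI (P : ℚ → Polynomial ℂ → Prop) {k : Type} [Field k] [Algebra k ℂ]
    {σ ι : Type} [Fintype σ] (f : ι → MvPolynomial σ k) : Prop :=
  ∃ S : Finset (ℤ × ℤ), (∀ p ∈ S, 0 < p.2 ∧ AllB P f ((p.1 : ℚ) / p.2)) ∧
    ∀ (K : Type) [Field K] [Algebra k K],
      zetaO (fun i => map (algebraMap k K) (f i)) ∈ ratRing K S

/-- `𝕃 ^ (- s₀)` is a pole of the series `z`: it is not in the ring generated by `T` and all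
`1 / (1 - 𝕃 ^ a T ^ b)` with `b > 0` and `a / b ≠ s₀`. -/
def IsPoleO {K : Type} [Field K] (z : PowerSeries (MK K)) (s₀ : ℚ) : Prop :=
  z ∉ ratRing K {p : ℤ × ℤ | 0 < p.2 ∧ (p.1 : ℚ) / p.2 ≠ s₀}

/-- The conclusion of the conjecture for the poles: if `𝕃 ^ (- s₀)` is a pole of the local motivic zeta
function of the ideal `(f_i)` over a field `K ⊃ k`, then `AllB P f s₀` holds. -/
def PoleI (P : ℚ → Polynomial ℂ → Prop) {k : Type} [Field k] [Algebra k ℂ]
    {σ ι : Type} [Fintype σ] (f : ι → MvPolynomial σ k) : Prop :=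
  ∀ (K : Type) [Field K] [Algebra k K] (s₀ : ℚ),
    IsPoleO (zetaO (fun i => map (algebraMap k K) (f i))) s₀ → AllB P f s₀

/-- the strong form: `s₀` is a root -/
def PStrong (s₀ : ℚ) (β : Polynomial ℂ) : Prop := β.eval (s₀ : ℂ) = 0

/-- the weak form: `s₀` is a root modulo the integers -/
def PWeak (s₀ : ℚ) (β : Polynomial ℂ) : Prop := ∃ i : ℤ, β.eval ((s₀ : ℂ) - i) = 0

/-- compatible with the shift -/
def Shift (P : ℚ → Polynomial ℂ → Prop) : Prop :=
  ∀ (s₀ : ℚ) (β : Polynomial ℂ), P s₀ (β.comp (Polynomial.X + 1)) → P (s₀ + 1) β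

theorem shift_strong : Shift PStrong := by
  intro s₀ β h
  unfold PStrong at h ⊢
  rw [Polynomial.eval_comp, Polynomial.eval_add, Polynomial.eval_X, Polynomial.eval_one] at h
  push_cast
  exact h

theorem shift_weak : Shift PWeak := by
  rintro s₀ β ⟨i, h⟩
  refine ⟨i, ?_⟩
  rw [Polynomial.eval_comp, Polynomial.eval_add, Polynomial.eval_X, Polynomial.eval_one] at h
  have e : (((s₀ + 1 : ℚ) : ℂ)) - i = (s₀ : ℂ) - i + 1 := by
    push_cast
    ring
  rw [e]
  exact h

/-! ### The change of the variable `u` -/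

section vars
variable {σ : Type}

/-- the images of the variables -/
noncomputable def wv (g : MvPolynomial σ ℂ) : Option σ → MvPolynomial (Option σ) ℂ
  | some i => X (some i)
  | none => X none + rename some g

theorem aeval_wv (g p : MvPolynomial σ ℂ) :
    aeval (wv g) (rename some p : MvPolynomial (Option σ) ℂ) = rename some p := by
  rw [aeval_rename, rename_eq_aeval]
  rfl

theorem wv_comp (g : MvPolynomial σ ℂ) : (aeval (wv g)).comp (aeval (wv (-g))) =
    AlgHom.id ℂ (MvPolynomial (Option σ) ℂ) := by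
  apply MvPolynomial.algHom_ext
  intro v
  rw [AlgHom.comp_apply, aeval_X, AlgHom.id_apply]
  rcases v with _ | i
  · show aeval (wv g) (X none + rename some (-g)) = X none
    rw [map_add, aeval_wv, aeval_X, map_neg]
    show X none + rename some g + -rename some g = _
    ring
  · show aeval (wv g) (X (some i)) = X (some i)
    rw [aeval_X]
    rfl

/-- the automorphism `u ↦ u - g` -/
noncomputable def cv (g : MvPolynomial σ ℂ) : MvPolynomial (Option σ) ℂ ≃ₐ[ℂ]
    MvPolynomial (Option σ) ℂ :=
  AlgEquiv.ofAlgHom (aeval (wv (-g))) (aeval (wv g)) (by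
    have := wv_comp (-g)
    rwa [neg_neg] at this) (wv_comp g)

theorem cv_some (g p : MvPolynomial σ ℂ) : cv g (rename some p) = rename some p := aeval_wv _ p

theorem cv_none (g : MvPolynomial σ ℂ) : cv g (X none) = X none - rename some g := by
  show aeval (wv (-g)) (X none) = _
  rw [aeval_X]
  show X none + rename some (-g) = _
  rw [map_neg]
  ring

/-- the new family -/
noncomputable def nf0 {ι : Type} (f : ι → MvPolynomial σ ℂ) (g : MvPolynomial σ ℂ) :
    Option ι → MvPolynomial (Option σ) ℂ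
  | some i => rename some (f i)
  | none => X none - rename some g

/-- **The functional equation with one more variable.** -/
theorem local_step [Finite σ] {ι : Type} [Fintype ι] {f : ι → MvPolynomial σ ℂ}
    {β : Polynomial ℂ} (h : IsLocalBI f β) (g : MvPolynomial σ ℂ) :
    IsLocalBI (nf0 f g) (β.comp (Polynomial.X + 1)) := by
  obtain ⟨H, hH, h1⟩ := polyEq_of_local h
  have h2 := h1.ext.iso (cv g)
  rw [cv_some] at h2
  have e : (fun o => cv g (ex f o)) = nf0 f g := by
    funext o
    rcases o with _ | i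
    · exact cv_none g
    · exact cv_some g (f i)
  rw [e] at h2
  refine local_of_polyEq ?_ h2
  rwa [constantCoeff_rename]

end vars

/-! ### Ideals -/

section span
variable {k : Type} [Field k] {σ ι : Type}

/-- the ideal generated by `I` and `u - g` -/
noncomputable def TI (I : Ideal (MvPolynomial σ k)) (g : MvPolynomial σ k) :
    Ideal (MvPolynomial (Option σ) k) :=
  Ideal.map (rename some : MvPolynomial σ k →ₐ[k] MvPolynomial (Option σ) k) I ⊔
    Ideal.span {X none - rename some g}

theorem span_family (f : ι → MvPolynomial σ k) (g : MvPolynomial σ k)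
    (F : Option ι → MvPolynomial (Option σ) k) (h0 : F none = X none - rename some g)
    (c : ι → MvPolynomial (Option σ) k)
    (h1 : ∀ i, F (some i) = rename some (f i) + c i * (X none - rename some g)) :
    Ideal.span (Set.range F) = TI (Ideal.span (Set.range f)) g := by
  unfold TI
  rw [Ideal.map_span, ← Ideal.span_union]
  refine le_antisymm (Ideal.span_le.2 ?_) (Ideal.span_le.2 ?_)
  · rintro _ ⟨o, rfl⟩
    have hn : X none - rename some g ∈ Ideal.span ((⇑(rename some : MvPolynomial σ k →ₐ[k]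
        MvPolynomial (Option σ) k) '' Set.range f) ∪ {X none - rename some g}) :=
      Ideal.subset_span (Or.inr rfl)
    rcases o with _ | i
    · rw [h0]
      exact hn
    · rw [h1]
      exact Ideal.add_mem _ (Ideal.subset_span (Or.inl ⟨_, ⟨i, rfl⟩, rfl⟩))
        (Ideal.mul_mem_left _ _ hn)
  · have hn : X none - rename some g ∈ Ideal.span (Set.range F) := by
      rw [← h0]
      exact Ideal.subset_span ⟨none, rfl⟩
    rintro p (⟨_, ⟨i, rfl⟩, rfl⟩ | hp)
    · have h2 : F (some i) - c i * (X none - rename some g) = rename some (f i) := by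
        rw [h1]
        ring
      show rename some (f i) ∈ Ideal.span (Set.range F)
      rw [← h2]
      exact Ideal.sub_mem _ (Ideal.subset_span ⟨some i, rfl⟩) (Ideal.mul_mem_left _ _ hn)
    · rw [Set.mem_singleton_iff.1 hp]
      exact hn

theorem span_nf [DecidableEq ι] (f : ι → MvPolynomial σ k) (j : ι) (a g : MvPolynomial σ k) :
    Ideal.span (Set.range (nf f j a g)) = TI (Ideal.span (Set.range f)) g := by
  refine span_family f g _ rfl (fun i => if i = j then rename some a else 0) fun i => ?_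
  show rename some (f i) + (if i = j then rename some a * (X none - rename some g) else 0) = _
  split_ifs
  · rfl
  · rw [zero_mul]

theorem span_nf0 (f : ι → MvPolynomial σ ℂ) (g : MvPolynomial σ ℂ) :
    Ideal.span (Set.range (nf0 f g)) = TI (Ideal.span (Set.range f)) g := by
  refine span_family f g _ rfl (fun i => 0) fun i => ?_
  show rename some (f i) = _
  rw [zero_mul, add_zero]

end span

/-- the transfer of the condition on the roots -/
theorem roots_step {k : Type} [Field k] [Algebra k ℂ] {σ ι : Type} [Fintype σ]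
    [DecidableEq ι] {P : ℚ → Polynomial ℂ → Prop} (hP : Shift P) (f : ι → MvPolynomial σ k)
    (j : ι) (a g : MvPolynomial σ k) (s₀ : ℚ) (h : AllB P (nf f j a g) s₀) :
    AllB P f (s₀ + 1) := by
  intro J _ h' hs β hβ
  refine hP s₀ β (h (Option J) (nf0 h' (map (algebraMap k ℂ) g)) ?_ _ (local_step hβ _))
  rw [span_nf0, hs, map_nf, span_nf]

theorem map_nf2 {k K : Type} [Field k] [Field K] (e : k →+* K) {σ ι : Type} [DecidableEq ι]
    (f : ι → MvPolynomial σ k)
    (j : ι) (a g : MvPolynomial σ k) (j' : Option ι) (a' g' : MvPolynomial (Option σ) k) :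
    (fun o => map e (nf (nf f j a g) j' a' g' o)) =
      nf (nf (fun i => map e (f i)) j (map e a) (map e g)) j' (map e a') (map e g') := by
  rw [map_nf, map_nf]

/-- **Descent.** -/
theorem mono_step {k : Type} [Field k] [Algebra k ℂ] {σ ι : Type} [Fintype σ] [Finite ι]
    [DecidableEq ι] {P : ℚ → Polynomial ℂ → Prop} (hP : Shift P) (f : ι → MvPolynomial σ k)
    (j : ι) (a g : MvPolynomial σ k) (hg : constantCoeff g = 0) (j' : Option ι)
    (a' g' : MvPolynomial (Option σ) k) (hg' : constantCoeff g' = 0)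
    (h1 : MonoI P (nf f j a g)) (h2 : MonoI P (nf (nf f j a g) j' a' g')) : MonoI P f := by
  classical
  have hkc : CharZero k := RingHom.charZero (algebraMap k ℂ)
  obtain ⟨S1, hS1, hz1⟩ := h1
  obtain ⟨S2, hS2, hz2⟩ := h2
  have hq : ∀ q : ℤ × ℤ, 0 < q.2 → (((q.1 + q.2 : ℤ) : ℚ) / q.2) = (q.1 : ℚ) / q.2 + 1 := by
    intro q hq
    have : (q.2 : ℚ) ≠ 0 := by exact_mod_cast hq.ne'
    push_cast
    field_simp
  refine ⟨S1.image (fun p => (p.1 + p.2, p.2)) ∪ S2.image (fun p => (p.1 + p.2 + p.2, p.2)),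
    fun p hp => ?_, fun K _ _ => ?_⟩
  · rcases Finset.mem_union.1 hp with hp | hp
    · obtain ⟨q, hqm, rfl⟩ := Finset.mem_image.1 hp
      refine ⟨(hS1 q hqm).1, ?_⟩
      show AllB P f (((q.1 + q.2 : ℤ) : ℚ) / q.2)
      rw [hq q (hS1 q hqm).1]
      exact roots_step hP f j a g _ (hS1 q hqm).2
    · obtain ⟨q, hqm, rfl⟩ := Finset.mem_image.1 hp
      refine ⟨(hS2 q hqm).1, ?_⟩
      show AllB P f ((((q.1 + q.2) + q.2 : ℤ) : ℚ) / q.2)
      rw [hq (q.1 + q.2, q.2) (hS2 q hqm).1]
      refine roots_step hP f j a g _ ?_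
      show AllB P (nf f j a g) (((q.1 + q.2 : ℤ) : ℚ) / q.2)
      rw [hq q (hS2 q hqm).1]
      exact roots_step hP (nf f j a g) j' a' g' _ (hS2 q hqm).2
  · have hK : CharZero K := charZero_of_injective_algebraMap (algebraMap k K).injective
    have h3 := hz1 K
    have h4 := hz2 K
    rw [map_nf] at h3
    rw [map_nf2] at h4
    refine Pool.Agent.W375.MG.ratRing_mono ?_ (descend_I (fun i => map (algebraMap k K) (f i)) j
      (map (algebraMap k K) a) (map (algebraMap k K) g)
      (by rw [constantCoeff_map, hg, map_zero]) j' (map (algebraMap k K) a')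
      (map (algebraMap k K) g') (by rw [constantCoeff_map, hg', map_zero])
      (fun p hp => (hS1 p hp).1) (fun p hp => (hS2 p hp).1) h3 h4)
    rintro p (⟨q, hq, rfl⟩ | ⟨q', ⟨q, hq, rfl⟩, rfl⟩)
    · refine Finset.mem_coe.2 (Finset.mem_union_left _ (Finset.mem_image.2 ⟨q, hq, ?_⟩))
      push_cast
      rw [one_mul]
    · refine Finset.mem_coe.2 (Finset.mem_union_right _ (Finset.mem_image.2 ⟨q, hq, ?_⟩))
      push_cast
      simp only [one_mul]

theorem shn_ne (s₀ : ℚ) : shn 1 {p : ℤ × ℤ | 0 < p.2 ∧ (p.1 : ℚ) / p.2 ≠ s₀ - 1} ⊆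
    {p : ℤ × ℤ | 0 < p.2 ∧ (p.1 : ℚ) / p.2 ≠ s₀} := by
  rintro p ⟨q, ⟨hq, hne⟩, rfl⟩
  refine ⟨hq, fun h => hne ?_⟩
  have h2 : (q.2 : ℚ) ≠ 0 := by exact_mod_cast hq.ne'
  rw [← h]
  push_cast
  field_simp
  ring

/-- **Descent for the poles.** -/
theorem pole_step {k : Type} [Field k] [Algebra k ℂ] {σ ι : Type} [Fintype σ] [Finite ι]
    [DecidableEq ι] {P : ℚ → Polynomial ℂ → Prop} (hP : Shift P) (f : ι → MvPolynomial σ k)
    (j : ι) (a g : MvPolynomial σ k) (hg : constantCoeff g = 0) (j' : Option ι)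
    (a' g' : MvPolynomial (Option σ) k) (hg' : constantCoeff g' = 0)
    (h1 : PoleI P (nf f j a g)) (h2 : PoleI P (nf (nf f j a g) j' a' g')) : PoleI P f := by
  classical
  have hkc : CharZero k := RingHom.charZero (algebraMap k ℂ)
  intro K _ _ s₀ hs
  have hK : CharZero K := charZero_of_injective_algebraMap (algebraMap k K).injective
  by_contra hcon
  apply hs
  have h3 : zetaO (nf (fun i => map (algebraMap k K) (f i)) j (map (algebraMap k K) a)
      (map (algebraMap k K) g)) ∈
      ratRing K {p : ℤ × ℤ | 0 < p.2 ∧ (p.1 : ℚ) / p.2 ≠ s₀ - 1} := by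
    by_contra h3
    rw [← map_nf] at h3
    have h4 := roots_step hP f j a g _ (h1 K (s₀ - 1) h3)
    rw [sub_add_cancel] at h4
    exact hcon h4
  have h4 : zetaO (nf (nf (fun i => map (algebraMap k K) (f i)) j (map (algebraMap k K) a)
      (map (algebraMap k K) g)) j' (map (algebraMap k K) a') (map (algebraMap k K) g')) ∈
      ratRing K {p : ℤ × ℤ | 0 < p.2 ∧ (p.1 : ℚ) / p.2 ≠ s₀ - 1 - 1} := by
    by_contra h4
    rw [← map_nf2] at h4
    have h5 := roots_step hP f j a g _ (roots_step hP (nf f j a g) j' a' g' _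
      (h2 K (s₀ - 1 - 1) h4))
    rw [sub_add_cancel, sub_add_cancel] at h5
    exact hcon h5
  refine Pool.Agent.W375.MG.ratRing_mono ?_ (descend_I (fun i => map (algebraMap k K) (f i)) j
      (map (algebraMap k K) a) (map (algebraMap k K) g)
      (by rw [constantCoeff_map, hg, map_zero]) j' (map (algebraMap k K) a')
      (map (algebraMap k K) g') (by rw [constantCoeff_map, hg', map_zero])
      (fun p hp => hp.1) (fun p hp => hp.1) h3 h4)
  refine Set.union_subset (shn_ne s₀) ?_
  refine Set.Subset.trans ?_ (shn_ne s₀)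
  rintro p ⟨q, hq, rfl⟩
  exact ⟨q, shn_ne (s₀ - 1) hq, rfl⟩

/-! ### The reduction -/

section red
variable {k : Type} [Field k]

/-- one step -/
theorem exists_step0 {σ ι : Type} [Fintype ι] [DecidableEq ι] (f : ι → MvPolynomial σ k) (i : ι)
    (hi : w1 (f i) ≠ 0) : ∃ (a : MvPolynomial σ k) (α β : σ),
      ∑ o, w1 (nf f i a (X α * X β) o) < ∑ l, w1 (f l) := by
  classical
  have hb : ¬ Bin (f i) := by
    intro hb
    rw [w1, if_pos hb] at hi
    exact hi rfl
  have h1 : ww (f i) ≠ 0 := by
    rwa [w1, if_neg hb] at hi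
  obtain ⟨m, hm, hm1⟩ : ∃ m ∈ (f i).support, dg m - 1 ≠ 0 := by
    by_contra hcon
    push Not at hcon
    exact h1 (Finset.sum_eq_zero hcon)
  obtain ⟨α, m1, rfl⟩ := exists_split m (by omega)
  rw [dg_add, dg_single] at hm1
  obtain ⟨β, m2, rfl⟩ := exists_split m1 (by omega)
  rw [dg_add, dg_single] at hm1
  set c := coeff (Finsupp.single α 1 + (Finsupp.single β 1 + m2)) (f i) with hc
  refine ⟨monomial m2 c, α, β, ?_⟩
  rw [Fintype.sum_option]
  have hn : w1 (nf f i (monomial m2 c) (X α * X β) none) = 0 := by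
    have h2 : Bin (nf f i (monomial m2 c) (X α * X β) none) :=
      ⟨some α, some β, none, by simp [nf]⟩
    rw [w1, if_pos h2]
  rw [hn, zero_add]
  have key : nf f i (monomial m2 c) (X α * X β) (some i) =
      rename some (f i - monomial (Finsupp.single α 1 + (Finsupp.single β 1 + m2)) c) +
        monomial (Finsupp.mapDomain some m2 + Finsupp.single none 1) c := by
    have h3 : (monomial (Finsupp.single α 1 + (Finsupp.single β 1 + m2)) c : MvPolynomial σ k)
        = X α * X β * monomial m2 c := by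
      rw [X, X, monomial_mul, monomial_mul, one_mul, one_mul, add_assoc]
    have h4 : (monomial (Finsupp.mapDomain some m2 + Finsupp.single none 1) c :
        MvPolynomial (Option σ) k) = rename some (monomial m2 c) * X none := by
      rw [rename_monomial, X, monomial_mul, mul_one]
    rw [h3, h4]
    simp only [nf, if_true, map_sub, map_mul, rename_X]
    ring
  have h5 := w1_le (rename some (f i - monomial (Finsupp.single α 1 +
    (Finsupp.single β 1 + m2)) c) +
        monomial (Finsupp.mapDomain some m2 + Finsupp.single none 1) c :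
          MvPolynomial (Option σ) k)
  have h6 := ww_add (rename some (f i - monomial (Finsupp.single α 1 +
    (Finsupp.single β 1 + m2)) c) : MvPolynomial (Option σ) k)
        (monomial (Finsupp.mapDomain some m2 + Finsupp.single none 1) c)
  have h7 := ww_monomial (Finsupp.mapDomain some m2 + Finsupp.single none 1 :
    Option σ →₀ ℕ) c
  rw [ww_rename _ (Option.some_injective _)] at h6
  have h8 := ww_sub (f i) _ hm
  rw [← hc, dg_add, dg_single, dg_add, dg_single] at h8
  rw [dg_add, dg_single, dg_map] at h7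
  have h9 : w1 (f i) = ww (f i) := by rw [w1, if_neg hb]
  have hlt : w1 (nf f i (monomial m2 c) (X α * X β) (some i)) < w1 (f i) := by
    rw [key]
    omega
  refine Finset.sum_lt_sum (fun l _ => ?_) ⟨i, Finset.mem_univ _, hlt⟩
  by_cases hl : l = i
  · subst hl
    exact hlt.le
  · have h2 : nf f i (monomial m2 c) (X α * X β) (some l) = rename some (f l) := by
      simp [nf, hl]
    rw [h2]
    exact w1_rename _

/-- the family with one more variable -/
theorem w1_trivial {σ ι : Type} [Fintype ι] [DecidableEq ι] (f : ι → MvPolynomial σ k) (i : ι) :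
    ∑ o, w1 (nf f i 0 0 o) ≤ ∑ l, w1 (f l) := by
  classical
  rw [Fintype.sum_option]
  have hn : w1 (nf f i 0 0 none) = 0 := by
    have h1 : nf f i 0 0 none = (X none : MvPolynomial (Option σ) k) := by simp [nf]
    rw [h1]
    refine Nat.le_zero.1 ((w1_le _).trans ?_)
    have h2 := ww_monomial (Finsupp.single none 1 : Option σ →₀ ℕ) (1 : k)
    rw [dg_single] at h2
    exact h2
  rw [hn, zero_add]
  refine Finset.sum_le_sum fun l _ => ?_
  have h2 : nf f i 0 0 (some l) = rename some (f l) := by
    simp [nf]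
  rw [h2]
  exact w1_rename _

/-- **The reduction principle.** -/
theorem principle2 (Q : ∀ (σ ι : Type) [Fintype σ] [Fintype ι], (ι → MvPolynomial σ k) → Prop)
    (hstep : ∀ (σ ι : Type) [Fintype σ] [Fintype ι] [DecidableEq ι] (f : ι → MvPolynomial σ k)
      (j : ι) (a : MvPolynomial σ k) (α β : σ), Q _ _ (nf f j a (X α * X β)) →
        Q _ _ (nf (nf f j a (X α * X β)) none 0 0) → Q _ _ f)
    (heasy : ∀ (σ ι : Type) [Fintype σ] [Fintype ι] (f : ι → MvPolynomial σ k),
      (∀ i, Easy (f i)) → Q _ _ f) :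
    ∀ (N : ℕ) (σ ι : Type) [Fintype σ] [Fintype ι] (f : ι → MvPolynomial σ k),
      ∑ l, w1 (f l) ≤ N → Q _ _ f := by
  classical
  intro N
  induction N with
  | zero =>
    intro σ ι _ _ f h
    refine heasy _ _ f fun i => easy_of_w1 ?_
    exact Finset.sum_eq_zero_iff.1 (Nat.le_zero.1 h) i (Finset.mem_univ _)
  | succ N ih =>
    intro σ ι _ _ f h
    by_cases h0 : ∀ i, w1 (f i) = 0
    · exact heasy _ _ f fun i => easy_of_w1 (h0 i)
    · push Not at h0
      obtain ⟨i, hi⟩ := h0
      obtain ⟨a, α, β, h1⟩ := exists_step0 f i hi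
      refine hstep _ _ f i a α β (ih _ _ _ ?_) (ih _ _ _ ?_)
      · omega
      · have h2 := w1_trivial (nf f i a (X α * X β)) none
        omega

theorem const_nf {σ ι : Type} [DecidableEq ι] (f : ι → MvPolynomial σ k) (j : ι)
    (a g : MvPolynomial σ k) (hg : constantCoeff g = 0) (hf : ∀ i, constantCoeff (f i) = 0) :
    ∀ o, constantCoeff (nf f j a g o) = 0 := by
  intro o
  rcases o with _ | i
  · show constantCoeff (X none - rename some g) = 0
    rw [map_sub, constantCoeff_X, constantCoeff_rename, hg, sub_zero]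
  · show constantCoeff (rename some (f i) + _) = 0
    rw [map_add, constantCoeff_rename, hf, zero_add]
    split_ifs
    · rw [map_mul, map_sub, constantCoeff_X, constantCoeff_rename (φ := g), hg, sub_zero, mul_zero]
    · exact map_zero _

/-- **Reduction of a property of ideals.** -/
theorem gen_red {Q : ∀ (σ ι : Type) [Fintype σ] [Fintype ι], (ι → MvPolynomial σ k) → Prop}
    (hQ : ∀ (σ ι : Type) [Fintype σ] [Fintype ι] [DecidableEq ι] (f : ι → MvPolynomial σ k)
      (j : ι) (a g : MvPolynomial σ k), constantCoeff g = 0 →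
        Q _ _ (nf f j a g) → Q _ _ (nf (nf f j a g) none 0 0) → Q _ _ f) :
    (∀ (σ ι : Type) [Fintype σ] [Fintype ι] (f : ι → MvPolynomial σ k),
      (∃ i, f i ≠ 0) → (∀ i, constantCoeff (f i) = 0) → Q _ _ f) ↔
    ∀ (σ ι : Type) [Fintype σ] [Fintype ι] (f : ι → MvPolynomial σ k),
      (∃ i, f i ≠ 0) → (∀ i, constantCoeff (f i) = 0) →
        (∀ i, (f i).totalDegree ≤ 1 ∨ ∃ a b c : σ, f i = X c - X a * X b) → Q _ _ f := by
  classical
  constructor
  · intro h σ ι _ _ f h1 h2 _
    exact h σ ι f h1 h2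
  · intro h σ ι _ _ f
    have hne : ∀ {σ ι : Type} [Fintype σ] [Fintype ι] [DecidableEq ι] (f : ι → MvPolynomial σ k)
        (j : ι) (a g : MvPolynomial σ k), ∃ i, nf f j a g i ≠ 0 := by
      intro σ ι _ _ _ f j a g
      by_contra hcon
      push Not at hcon
      apply nf_ne_bot f j a g
      rw [Ideal.span_eq_bot]
      rintro _ ⟨i, rfl⟩
      exact hcon i
    refine principle2 (k := k) (fun σ ι _ _ f => (∃ i, f i ≠ 0) →
      (∀ i, constantCoeff (f i) = 0) → Q _ _ f) ?_ ?_ _ σ ι f le_rfl
    · intro σ ι _ _ _ f j a α β h1 h2 h3 h4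
      have hg : constantCoeff (X α * X β : MvPolynomial σ k) = 0 := by
        rw [map_mul, constantCoeff_X, zero_mul]
      have h5 := const_nf f j a _ hg h4
      have h6 := const_nf (nf f j a (X α * X β)) none 0 0 (map_zero _) h5
      exact hQ _ _ f j a _ hg (h1 (hne _ _ _ _) h5) (h2 (hne _ _ _ _) h6)
    · intro σ ι _ _ f hq h1 h2
      exact h σ ι f h1 h2 hq

end red

end Pool.Agent.X271.IQ
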