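import Pool.Agent.X271.IdEq
import Pool.Agent.X159.TZ.Rel
import Pool.Agent.Y229.MS.Step

set_option autoImplicit false
set_option linter.unusedSectionVars false

/-! # Local motivic zeta functions of ideals: one and two more variables -/

namespace Pool.Agent.X271.IQ

open MvPolynomial Pool.Agent.W428.MOT Pool.Agent.TH192.MT Pool.Agent.X159.QI
open Pool.Agent.Y229.MS (shn rescale_mem shn_pos)

section zeta
variable {K : Type} [Field K] {σ J : Type} [Fintype σ]

/-- **The local motivic zeta function** `∑_N [𝒳_N] 𝕃 ^ (- n N) T ^ N` **of the ideal** `(f_j)` **at the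
origin**; `𝒳_N` is the set of the `N`-jets with origin `0` on which the ideal has the order `N`, `n` the
number of the variables. -/
noncomputable def zetaO (f : J → MvPolynomial σ K) : PowerSeries (MK K) :=
  PowerSeries.mk fun N => algebraMap (K0 K) (MK K) (cls (σ × Fin (N + 1)) (JetF f {0} N)) *
    (((Lu K) ^ (-((Fintype.card σ * N : ℕ) : ℤ)) : (MK K)ˣ) : MK K)

/-- the measure of the Grothendieck ring -/
theorem exists_measK (K : Type) [Field K] [CharZero K] : ∃ M : Meas K (MK K),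
    M.L = ((Lu K : (MK K)ˣ) : MK K) ∧ M.L * (((Lu K)⁻¹ : (MK K)ˣ) : MK K) = 1 ∧
    ∀ {σ J : Type} [Fintype σ] (f : J → MvPolynomial σ K),
      zetaO f = zI M (((Lu K)⁻¹ : (MK K)ˣ) : MK K) f {0} := by
  obtain ⟨M₀, hM₀⟩ := Pool.Agent.W417.MT.K0.main K
  have hL := Pool.Agent.W63.MTFin.L_mul hM₀
  refine ⟨Pool.Agent.W63.MTFin.mapMeas M₀ (algebraMap (K0 K) (MK K)), ?_, hL, ?_⟩
  · set Y : MK K := (((Lu K)⁻¹ : (MK K)ˣ) : MK K) with hY
    have h2 : ((Lu K : (MK K)ˣ) : MK K) * Y = 1 := Units.mul_inv _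
    calc (Pool.Agent.W63.MTFin.mapMeas M₀ (algebraMap (K0 K) (MK K))).L
        = (Pool.Agent.W63.MTFin.mapMeas M₀ (algebraMap (K0 K) (MK K))).L *
            (((Lu K : (MK K)ˣ) : MK K) * Y) := by
          rw [h2, mul_one]
      _ = ((Pool.Agent.W63.MTFin.mapMeas M₀ (algebraMap (K0 K) (MK K))).L * Y) *
            ((Lu K : (MK K)ˣ) : MK K) := by ring
      _ = _ := by rw [hL, one_mul]
  · intro σ J _ f
    ext N
    rw [zetaO, zI, PowerSeries.coeff_mk, PowerSeries.coeff_mk, zpow_neg, zpow_natCast, ← inv_pow,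
      Units.val_pow_eq_pow_val, ← hM₀]
    rfl

theorem constr_zero {ι : Type} [Finite ι] : Constr ({0} : Set (Pt K ι)) := by
  have h1 : ({0} : Set (Pt K ι)) = {z | ∀ i, z i = 0} := by
    ext z
    simp [funext_iff]
  rw [h1]
  exact Constr.all fun i => Constr.eqz (IsPF.coord i)

theorem constr_A0 : Constr {z : Pt K (Fin 1) | z 0 ∈ ({0} : Set (AlgebraicClosure K))} :=
  Constr.eqz (IsPF.coord 0)

theorem wg_zero (g : MvPolynomial σ K) (hg : constantCoeff g = 0) :
    Wg ({0} : Set (Pt K σ)) {0} g = {0} := by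
  ext w
  simp only [Wg, Set.mem_ofPred_eq, Set.mem_singleton_iff]
  have h0 : ∀ u : Pt K σ, u = 0 → aeval u g = 0 := by
    intro u hu
    have h1 : aeval (0 : Pt K σ) g = algebraMap K (AlgebraicClosure K) (constantCoeff g) :=
      MvPolynomial.aeval_zero g
    rw [hu, h1, hg, map_zero]
  constructor
  · rintro ⟨h1, h2⟩
    rw [h0 _ h1, sub_zero] at h2
    funext o
    rcases o with _ | i
    · exact h2
    · exact congrFun h1 i
  · intro hw
    have h1 : (fun i => w (some i)) = (0 : Pt K σ) := by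
      rw [hw]
      rfl
    refine ⟨h1, ?_⟩
    rw [h0 _ h1, sub_zero, hw]
    rfl

theorem ph_zero {R : Type} [CommRing R] (M : Meas K R) (Y : R) (f : J → MvPolynomial σ K) :
    ph M Y f {0} 0 = 1 := by
  have h2 : (TF f {0} 0 0 : Set (Pt K (σ × Fin (0 + 1)))) =
      {fun i => algebraMap K (AlgebraicClosure K) ((fun _ => (0 : K)) i)} := by
    ext z
    simp only [TF, Set.mem_ofPred_eq, Set.mem_singleton_iff, map_zero]
    constructor
    · rintro ⟨h1, -⟩
      funext ⟨i, k⟩
      have : k = 0 := Fin.ext (by have := k.2; simp only [Fin.val_zero]; omega)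
      subst this
      exact congrFun h1 i
    · rintro rfl
      exact ⟨rfl, fun l k hk => absurd hk (Nat.not_lt_zero _)⟩
  rw [ph, h2, Pool.Agent.X159.TZ.chi_single, mul_zero, pow_zero, mul_one]

theorem rescale_C'' (a c : MK K) : PowerSeries.rescale a (PowerSeries.C c) = PowerSeries.C c := by
  ext k
  rw [PowerSeries.coeff_rescale, PowerSeries.coeff_C]
  split_ifs with h
  · rw [h, pow_zero, one_mul]
  · rw [mul_zero]

/-- **The relation for one more variable.** -/
theorem rel_one [CharZero K] [Finite J] [DecidableEq J] (f : J → MvPolynomial σ K) (j : J)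
    (a g : MvPolynomial σ K) (hg : constantCoeff g = 0) :
    (1 - PowerSeries.X) * PowerSeries.rescale ((Lu K : (MK K)ˣ) : MK K) (zetaO (nf f j a g)) =
      (1 - PowerSeries.C ((Lu K : (MK K)ˣ) : MK K) * PowerSeries.X) * zetaO f +
        (PowerSeries.C ((Lu K : (MK K)ˣ) : MK K) - 1) * PowerSeries.X := by
  obtain ⟨M, hML, hL, hz⟩ := exists_measK K
  have h1 := rel_nf M _ hL f (W := {0}) constr_zero (A := {0}) constr_A0 rfl j a g
  have hpt : M.χ (Fin 1) {z : Pt K (Fin 1) | z 0 ∈ ({0} : Set (AlgebraicClosure K))} = 1 :=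
    Pool.Agent.Y229.MS.chi_pt M
  rw [wg_zero g hg, ← hz, ← hz, ph_zero, hpt, hML, sub_self, map_zero, zero_add, map_one, one_mul,
    map_sub, map_one] at h1
  exact h1

/-- **The zeta function of `I` from those of the ideals with one and two more variables.** -/
theorem rel_two [CharZero K] [Finite J] [DecidableEq J] (f : J → MvPolynomial σ K) (j : J)
    (a g : MvPolynomial σ K) (hg : constantCoeff g = 0) (j' : Option J)
    (a' g' : MvPolynomial (Option σ) K) (hg' : constantCoeff g' = 0) :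
    zetaO f = PowerSeries.C (((Lu K)⁻¹ : (MK K)ˣ) : MK K) *
      ((PowerSeries.C ((Lu K : (MK K)ˣ) : MK K) + 1) *
        PowerSeries.rescale ((Lu K : (MK K)ˣ) : MK K) (zetaO (nf f j a g)) -
      PowerSeries.rescale ((Lu K : (MK K)ˣ) : MK K)
        (PowerSeries.rescale ((Lu K : (MK K)ˣ) : MK K) (zetaO (nf (nf f j a g) j' a' g')))) := by
  have h1 := rel_one f j a g hg
  have h2 := rel_one (nf f j a g) j' a' g' hg'
  set L : MK K := ((Lu K : (MK K)ˣ) : MK K) with hLdef
  set Y : MK K := (((Lu K)⁻¹ : (MK K)ˣ) : MK K) with hY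
  have hYL : Y * L = 1 := Units.inv_mul _
  have h3 := congrArg (PowerSeries.rescale L) h2
  simp only [map_mul, map_sub, map_one, map_add, rescale_C'', PowerSeries.rescale_X] at h3
  set Z := zetaO f with hZ
  set Z1 := PowerSeries.rescale L (zetaO (nf f j a g)) with hZ1
  set Z2 := PowerSeries.rescale L (PowerSeries.rescale L
    (zetaO (nf (nf f j a g) j' a' g'))) with hZ2
  set T : PowerSeries (MK K) := PowerSeries.X with hT
  set ℓ : PowerSeries (MK K) := PowerSeries.C L with hℓ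
  have hu : IsUnit ((1 - T) * (1 - ℓ * T)) := by
    rw [PowerSeries.isUnit_iff_constantCoeff, map_mul, map_sub, map_sub, map_mul, hT, hℓ]
    simp
  have h4 : (1 - T) * (1 - ℓ * T) * (ℓ * Z) =
      (1 - T) * (1 - ℓ * T) * ((ℓ + 1) * Z1 - Z2) := by
    linear_combination (-(ℓ + 1) * (1 - ℓ * T) + (1 - ℓ * (ℓ * T))) * h1 + (1 - T) * h3
  have h5 := hu.mul_left_cancel h4
  rw [← h5, ← mul_assoc, hℓ, ← map_mul, hYL, map_one, one_mul]

/-- **Descent.** -/
theorem descend_I [CharZero K] [Finite J] [DecidableEq J] (f : J → MvPolynomial σ K) (j : J)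
    (a g : MvPolynomial σ K) (hg : constantCoeff g = 0) (j' : Option J)
    (a' g' : MvPolynomial (Option σ) K) (hg' : constantCoeff g' = 0)
    {S1 S2 : Set (ℤ × ℤ)} (hS1 : ∀ p ∈ S1, 0 < p.2) (hS2 : ∀ p ∈ S2, 0 < p.2)
    (h1 : zetaO (nf f j a g) ∈ ratRing K S1)
    (h2 : zetaO (nf (nf f j a g) j' a' g') ∈ ratRing K S2) :
    zetaO f ∈ ratRing K (shn 1 S1 ∪ shn 1 (shn 1 S2)) := by
  rw [rel_two f j a g hg j' a' g' hg']
  have m1 := Pool.Agent.W375.MG.ratRing_mono (K := K) (Set.subset_union_left (s := shn 1 S1)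
    (t := shn 1 (shn 1 S2))) (rescale_mem hS1 h1)
  have m2 := Pool.Agent.W375.MG.ratRing_mono (K := K) (Set.subset_union_right (s := shn 1 S1)
    (t := shn 1 (shn 1 S2))) (rescale_mem (shn_pos hS2) (rescale_mem hS2 h2))
  have hC : ∀ c : MK K, PowerSeries.C c ∈ ratRing K (shn 1 S1 ∪ shn 1 (shn 1 S2)) :=
    fun c => Pool.Agent.W63.MTFin.C_mem _ _
  exact (ratRing K _).mul_mem (hC _) ((ratRing K _).sub_mem ((ratRing K _).mul_mem
    ((ratRing K _).add_mem (hC _) (ratRing K _).one_mem) m1) m2)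

end zeta

end Pool.Agent.X271.IQ
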