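import Pool.Agent.X271.RefThm

set_option autoImplicit false

/-! The zeta functions of `f + y z` at the points with `y = z = 0`. -/

namespace Pool.Agent.X271.LR

open MvPolynomial Pool.Agent.W428.MOT
open Pool.Agent.W375.MG (JetG zetaG Good ratRing_mono)
open Pool.Agent.Y229.MS
open Pool.Agent.W63.MTFin (mapMeas X_mem C_mem L_mul)
open Pool.Agent.W749.MT (χ_empty)
open Pool.Agent.Y971.MS (constr_jet aeval_addyz fg ap ap_cast ap_nat arc_fg)
open Pool.Agent.Z864.MS (coeff_zero_aeval three)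

variable {K : Type} [Field K] {n : ℕ}

/-- the origins with `y = z = 0` -/
def W0 (W : Set (Pt K (Fin n))) : Set (Pt K (Fin (n + 2))) :=
  {w | (fun i => w (Fin.castAdd 2 i)) ∈ W ∧ w (Fin.natAdd n 0) = 0 ∧ w (Fin.natAdd n 1) = 0}

/-- `f` vanishes on `W` -/
def Zr (f : MvPolynomial (Fin n) K) (W : Set (Pt K (Fin n))) : Prop := ∀ w ∈ W, aeval w f = 0

theorem constr_W0 {W : Set (Pt K (Fin n))} (hW : Constr W) : Constr (W0 W) :=
  Constr.and (hW.preimage (fun w i => w (Fin.castAdd 2 i)) fun _ => IsPF.coord _)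
    (Constr.and (Constr.eqz (IsPF.coord _)) (Constr.eqz (IsPF.coord _)))

theorem zr_W0 {f : MvPolynomial (Fin n) K} {W : Set (Pt K (Fin n))} (h : Zr f W) :
    Zr (addyz f) (W0 W) := by
  rintro w ⟨h1, h2, h3⟩
  rw [aeval_addyz, h2, zero_mul, add_zero]
  exact h _ h1

/-- origins with `y ≠ 0` -/
def V1 (W : Set (Pt K (Fin n))) : Set (Pt K (Fin (n + 2))) :=
  {w | (fun i => w (Fin.castAdd 2 i)) ∈ W ∧ w (Fin.natAdd n 0) ≠ 0}

/-- origins with `z ≠ 0` -/
def V2 (W : Set (Pt K (Fin n))) : Set (Pt K (Fin (n + 2))) :=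
  {w | (fun i => w (Fin.castAdd 2 i)) ∈ W ∧ w (Fin.natAdd n 1) ≠ 0}

/-- origins with `y = 0`, `z ≠ 0` -/
def V3 (W : Set (Pt K (Fin n))) : Set (Pt K (Fin (n + 2))) :=
  {w | (fun i => w (Fin.castAdd 2 i)) ∈ W ∧ w (Fin.natAdd n 0) = 0 ∧ w (Fin.natAdd n 1) ≠ 0}

theorem constr_V1 {W : Set (Pt K (Fin n))} (hW : Constr W) : Constr (V1 W) :=
  Constr.and (hW.preimage (fun w i => w (Fin.castAdd 2 i)) fun _ => IsPF.coord _)
    (Constr.eqz (IsPF.coord _)).not

theorem constr_V3 {W : Set (Pt K (Fin n))} (hW : Constr W) : Constr (V3 W) :=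
  Constr.and (hW.preimage (fun w i => w (Fin.castAdd 2 i)) fun _ => IsPF.coord _)
    (Constr.and (Constr.eqz (IsPF.coord _)) (Constr.eqz (IsPF.coord _)).not)

section
variable {R : Type} [CommRing R]

/-- exchange of `y` and `z` -/
def sw (n : ℕ) : Equiv.Perm (Fin (n + 2)) := Equiv.swap (Fin.natAdd n 0) (Fin.natAdd n 1)

theorem sw_cast (i : Fin n) : sw n (Fin.castAdd 2 i) = Fin.castAdd 2 i := by
  refine Equiv.swap_apply_of_ne_of_ne ?_ ?_ <;>
  · intro h
    have := congrArg Fin.val h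
    have := i.2
    simp only [Fin.val_castAdd, Fin.val_natAdd] at *
    omega

theorem sw_addyz (f : MvPolynomial (Fin n) K) : rename (sw n) (addyz f) = addyz f := by
  unfold addyz
  rw [map_add, map_mul, rename_X, rename_X, rename_rename]
  have h1 : (sw n : Fin (n + 2) → Fin (n + 2)) ∘ Fin.castAdd 2 = Fin.castAdd 2 := by
    funext i
    exact sw_cast i
  rw [h1, show sw n (Fin.natAdd n 0) = Fin.natAdd n 1 from Equiv.swap_apply_left _ _,
    show sw n (Fin.natAdd n 1) = Fin.natAdd n 0 from Equiv.swap_apply_right _ _]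
  ring

theorem chi_V2 (M : Meas K R) (f : MvPolynomial (Fin n) K) {W : Set (Pt K (Fin n))}
    (hW : Constr W) {E : Set (AlgebraicClosure K)} (hE : CE E) (N : ℕ) :
    M.χ _ (JetG (addyz f) (V2 W) E N) = M.χ _ (JetG (addyz f) (V1 W) E N) := by
  have h1 := three K R M (renameEquiv K (sw n)) (addyz f) (V1 W) E (constr_V1 hW) hE N
  have h2 : renameEquiv K (sw n) (addyz f) = addyz f := by
    rw [renameEquiv_apply]
    exact sw_addyz f
  have h3 : {w : Pt K (Fin (n + 2)) | (fun i => aeval w (renameEquiv K (sw n) (X i))) ∈ V1 W} =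
      V2 W := by
    ext w
    simp only [renameEquiv_apply, rename_X, aeval_X, V1, V2, Set.mem_ofPred_eq, sw_cast]
    rw [show sw n (Fin.natAdd n 0) = Fin.natAdd n 1 from Equiv.swap_apply_left _ _]
  rw [h2, h3] at h1
  exact h1

theorem chi_V1 (M : Meas K R) (f : MvPolynomial (Fin n) K) {W : Set (Pt K (Fin n))}
    (hW : Constr W) {E : Set (AlgebraicClosure K)} (hE : CE E) (N : ℕ) :
    M.χ _ (JetG (addyz f) (V1 W) E N) =
      M.χ (Fin 1) {a | a 0 ∈ E} * (M.L - 1) * M.L ^ N * M.χ _ (Tl f W 0 N) := by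
  rw [← Pool.Agent.Y366.MS.onea K R M f W E hW hE 0 N (Nat.zero_le N)]
  congr 1
  ext z
  simp only [JetG, V1, Wyz, Yi, Set.mem_ofPred_eq, Set.mem_inter_iff]
  constructor
  · rintro ⟨⟨h1, h2⟩, h3, h4⟩
    refine ⟨⟨h1, h3, h4⟩, fun j hj => absurd hj (Nat.not_lt_zero _), fun j hj => ?_⟩
    have : j = 0 := Fin.ext hj
    rw [this]
    exact h2
  · rintro ⟨⟨h1, h3, h4⟩, -, h5⟩
    exact ⟨⟨h1, h5 0 rfl⟩, h3, h4⟩

/-- the value at the origin of the jet -/
theorem coeff_zero_addyz (f : MvPolynomial (Fin n) K) {W : Set (Pt K (Fin n))} (hf : Zr f W)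
    {N : ℕ} (z : Pt K (Fin (n + 2) × Fin (N + 1)))
    (hz : (fun i => z (Fin.castAdd 2 i, 0)) ∈ W) :
    PowerSeries.coeff 0 (aeval (arc z) (addyz f)) =
      z (Fin.natAdd n 0, 0) * z (Fin.natAdd n 1, 0) := by
  rw [coeff_zero_aeval, aeval_addyz, hf _ hz, zero_add]

theorem jet_V3 (f : MvPolynomial (Fin n) K) {W : Set (Pt K (Fin n))} (hf : Zr f W)
    {E : Set (AlgebraicClosure K)} {N : ℕ} (hN : 1 ≤ N) :
    JetG (addyz f) (V3 W) E N = JetG (addyz f) (V2 W) E N := by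
  ext z
  simp only [JetG, V2, V3, Set.mem_ofPred_eq]
  constructor
  · rintro ⟨⟨h1, h2, h3⟩, h4⟩
    exact ⟨⟨h1, h3⟩, h4⟩
  · rintro ⟨⟨h1, h3⟩, h4, h5⟩
    refine ⟨⟨h1, ?_, h3⟩, h4, h5⟩
    have h6 := h4 0 (by omega)
    rw [coeff_zero_addyz f hf z h1] at h6
    exact (mul_eq_zero.1 h6).resolve_right h3

/-- **The class of the jets of `f + y z` with origin in `y = z = 0`.** -/
theorem onel (M : Meas K R) (f : MvPolynomial (Fin n) K) {W : Set (Pt K (Fin n))}
    (hW : Constr W) (hf : Zr f W) {E : Set (AlgebraicClosure K)} (hE : CE E) (N : ℕ)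
    (hN : 1 ≤ N) :
    M.χ _ (JetG (addyz f) (W0 W) E N) = M.χ _ (JetG f W E N) * M.L ^ (N + 1) +
      M.χ (Fin 1) {a | a 0 ∈ E} * (M.L - 1) * M.L ^ N *
        (∑ i ∈ Finset.range (N + 1), M.χ _ (Tl f W i N) - 2 * M.χ _ (Tl f W 0 N)) := by
  have h1 := t1 K R M f W E hW hE N
  have hu : JetG (addyz f) (Wyz W) E N = JetG (addyz f) (W0 W) E N ∪
      (JetG (addyz f) (V3 W) E N ∪ JetG (addyz f) (V1 W) E N) := by
    ext z
    simp only [JetG, W0, V1, V3, Wyz, Set.mem_ofPred_eq, Set.mem_union]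
    by_cases hy : z (Fin.natAdd n 0, 0) = 0 <;> by_cases hz : z (Fin.natAdd n 1, 0) = 0 <;>
      simp [hy, hz]
  have hd1 : Disjoint (JetG (addyz f) (V3 W) E N) (JetG (addyz f) (V1 W) E N) := by
    rw [Set.disjoint_left]
    rintro z ⟨⟨-, h2, -⟩, -⟩ ⟨⟨-, h3⟩, -⟩
    exact h3 h2
  have hd2 : Disjoint (JetG (addyz f) (W0 W) E N)
      (JetG (addyz f) (V3 W) E N ∪ JetG (addyz f) (V1 W) E N) := by
    rw [Set.disjoint_left]
    rintro z ⟨⟨-, h2, h3⟩, -⟩ (⟨⟨-, -, h4⟩, -⟩ | ⟨⟨-, h4⟩, -⟩)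
    · exact h4 h3
    · exact h4 h2
  have c0 := constr_jet (addyz f) (constr_W0 hW) hE N
  have c1 := constr_jet (addyz f) (constr_V1 hW) hE N
  have c3 := constr_jet (addyz f) (constr_V3 hW) hE N
  rw [hu, M.add _ _ c0 (c3.union c1) hd2, M.add _ _ c3 c1 hd1, jet_V3 f hf hN, chi_V2 M f hW hE,
    chi_V1 M f hW hE] at h1
  linear_combination h1

/-- jets of level `0` -/
theorem tl_W0 (M : Meas K R) (f : MvPolynomial (Fin n) K) {W : Set (Pt K (Fin n))}
    (hW : Constr W) :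
    M.χ _ (Tl (addyz f) (W0 W) 0 0) = M.χ _ (Tl f W 0 0) := by
  have hU : CE (Set.univ : Set (AlgebraicClosure K)) := fun F _ => by
    simpa using Constr.univ (K := K)
  rw [← tl_zero, ← tl_zero]
  refine M.iso _ _ (constr_jet _ (constr_W0 hW) hU 0) (constr_jet f hW hU 0) (fg 0) (ap 0)
    (regularOn_poly (fun p => IsPF.coord _) _) (regularOn_poly (fun p => ?_) _) ?_ ?_ ?_ ?_
  · obtain ⟨i, j⟩ := p
    refine Fin.addCases (fun i => ?_) (fun i => ?_) i
    · simp only [ap_cast]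
      exact IsPF.coord _
    · simp only [ap_nat]
      exact IsPF.zero
  · rintro z ⟨⟨h1, -, -⟩, -, -⟩
    exact ⟨h1, fun j hj => absurd hj (Nat.not_lt_zero _), Set.mem_univ _⟩
  · rintro z ⟨h1, -, -⟩
    refine ⟨⟨?_, ap_nat 0 z 0 0, ap_nat 0 z 1 0⟩, fun j hj => absurd hj (Nat.not_lt_zero _),
      Set.mem_univ _⟩
    convert h1 using 1
    funext i
    exact ap_cast 0 z i 0
  · rintro z ⟨⟨h1, h2, h3⟩, -⟩
    funext p
    obtain ⟨i, j⟩ := p
    obtain rfl : j = 0 := Fin.ext (by have := j.2; simp only [Fin.val_zero]; omega)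
    refine Fin.addCases (fun i => ?_) (fun i => ?_) i
    · rw [ap_cast]
      rfl
    · rw [ap_nat]
      fin_cases i
      · exact h2.symm
      · exact h3.symm
  · intro z _
    funext p
    exact ap_cast 0 z p.1 p.2

theorem jet_zero_empty {m : ℕ} (g : MvPolynomial (Fin m) K) {W : Set (Pt K (Fin m))}
    (hg : Zr g W) {E : Set (AlgebraicClosure K)} (hE0 : (0 : AlgebraicClosure K) ∉ E) :
    JetG g W E 0 = ∅ := by
  rw [Set.eq_empty_iff_forall_notMem]
  rintro z ⟨h1, -, h3⟩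
  rw [coeff_zero_aeval, hg _ h1] at h3
  exact hE0 h3

theorem jet_zero_zero {m : ℕ} (g : MvPolynomial (Fin m) K) {W : Set (Pt K (Fin m))}
    (hg : Zr g W) : JetG g W {0} 0 = Tl g W 0 0 := by
  ext z
  simp only [JetG, Tl, Set.mem_ofPred_eq, Nat.not_lt_zero, IsEmpty.forall_iff, implies_true,
    true_and, and_true, and_iff_left_iff_imp, Set.mem_singleton_iff]
  intro h1
  rw [coeff_zero_aeval, hg _ h1]

/-- `1 + 2 T + 2 T ^ 2 + ⋯` -/
noncomputable def q2 (R : Type) [CommRing R] : PowerSeries R :=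
  PowerSeries.mk fun N => if N = 0 then 1 else 2

theorem q2_mul : q2 R * (1 - PowerSeries.X) = 1 + PowerSeries.X := by
  ext N
  rw [mul_sub, mul_one, map_sub, map_add]
  rcases N with _ | N
  · rw [PowerSeries.coeff_zero_mul_X, q2, PowerSeries.coeff_mk, PowerSeries.coeff_zero_X]
    simp
  · rw [PowerSeries.coeff_succ_mul_X, q2, PowerSeries.coeff_mk, PowerSeries.coeff_mk,
      PowerSeries.coeff_one, PowerSeries.coeff_X]
    rcases N with _ | N
    · norm_num
    · simp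

/-- the class of `W` -/
noncomputable def wt (M : Meas K R) (f : MvPolynomial (Fin n) K) (W : Set (Pt K (Fin n))) : R :=
  M.χ _ (Tl f W 0 0)

/-- the local version of the partial sums of the tails -/
noncomputable def pl (M : Meas K R) (Y : R) (f : MvPolynomial (Fin n) K)
    (W : Set (Pt K (Fin n))) : PowerSeries R :=
  psum (phiS M Y f W) - PowerSeries.C (wt M f W) * q2 R

theorem pl_mul (M : Meas K R) (Y : R) (f : MvPolynomial (Fin n) K) (W : Set (Pt K (Fin n))) :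
    pl M Y f W * (1 - PowerSeries.X) =
      phiS M Y f W - PowerSeries.C (wt M f W) * (1 + PowerSeries.X) := by
  rw [pl, sub_mul, psum_mul, mul_assoc, q2_mul]

theorem phi_zero (M : Meas K R) (Y : R) (f : MvPolynomial (Fin n) K) (W : Set (Pt K (Fin n))) :
    PowerSeries.coeff 0 (phiS M Y f W) = wt M f W := by
  rw [phiS, PowerSeries.coeff_mk, mul_zero, pow_zero, mul_one, wt]

theorem phi_one (M : Meas K R) (Y : R) (hL : M.L * Y = 1) (f : MvPolynomial (Fin n) K)
    {W : Set (Pt K (Fin n))} (hW : Constr W) (hf : Zr f W) :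
    PowerSeries.coeff 1 (phiS M Y f W) = wt M f W := by
  have h : M.χ _ (Tl f W 1 1) * Y ^ (n * 1) = M.χ _ (JetG f W {0} 0) * Y ^ (n * 0) :=
    phi_succ Pool.Agent.Y812.MS.two M Y hL f W hW 0
  rw [phiS, PowerSeries.coeff_mk, h, mul_zero, pow_zero, mul_one, jet_zero_zero f hf, wt]

theorem pl_zero (M : Meas K R) (Y : R) (f : MvPolynomial (Fin n) K) (W : Set (Pt K (Fin n))) :
    PowerSeries.coeff 0 (pl M Y f W) = 0 := by
  rw [pl, map_sub, PowerSeries.coeff_C_mul, Pool.Agent.Y229.MS.psum, PowerSeries.coeff_mk, q2, PowerSeries.coeff_mk,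
    Finset.sum_range_one, phi_zero, if_pos rfl, mul_one, sub_self]

theorem pl_coeff (M : Meas K R) (Y : R) (f : MvPolynomial (Fin n) K) (W : Set (Pt K (Fin n)))
    {N : ℕ} (hN : 1 ≤ N) :
    PowerSeries.coeff N (pl M Y f W) =
      ∑ i ∈ Finset.range (N + 1), PowerSeries.coeff i (phiS M Y f W) - 2 * wt M f W := by
  rw [pl, map_sub, PowerSeries.coeff_C_mul, Pool.Agent.Y229.MS.psum, PowerSeries.coeff_mk, q2, PowerSeries.coeff_mk,
    if_neg (by omega), mul_comm]

theorem pl_one (M : Meas K R) (Y : R) (hL : M.L * Y = 1) (f : MvPolynomial (Fin n) K)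
    {W : Set (Pt K (Fin n))} (hW : Constr W) (hf : Zr f W) :
    PowerSeries.coeff 1 (pl M Y f W) = 0 := by
  rw [pl_coeff M Y f W le_rfl, Finset.sum_range_succ, Finset.sum_range_one, phi_zero,
    phi_one M Y hL f hW hf]
  ring

/-- the coefficient of the zeta function, `N ≥ 1` -/
theorem coeff_onel (M : Meas K R) (Y : R) (hL : M.L * Y = 1) (f : MvPolynomial (Fin n) K)
    {W : Set (Pt K (Fin n))} (hW : Constr W) (hf : Zr f W) {E : Set (AlgebraicClosure K)}
    (hE : CE E) {N : ℕ} (hN : 1 ≤ N) :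
    M.L ^ N * (M.χ _ (JetG (addyz f) (W0 W) E N) * Y ^ ((n + 2) * N)) =
      M.L * (M.χ _ (JetG f W E N) * Y ^ (n * N)) +
        M.χ (Fin 1) {a | a 0 ∈ E} * (M.L - 1) * PowerSeries.coeff N (pl M Y f W) := by
  have h3 : ∑ i ∈ Finset.range (N + 1), PowerSeries.coeff i (phiS M Y f W) =
      (∑ i ∈ Finset.range (N + 1), M.χ _ (Tl f W i N)) * Y ^ (n * N) := by
    rw [Finset.sum_mul]
    refine Finset.sum_congr rfl fun i hi => ?_
    rw [phiS, PowerSeries.coeff_mk, phi_level' Pool.Agent.Y812.MS.two M Y hL f W hW i N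
      (Nat.lt_succ_iff.1 (Finset.mem_range.1 hi))]
  have h6 : wt M f W = M.χ _ (Tl f W 0 N) * Y ^ (n * N) := by
    have := phi_level' Pool.Agent.Y812.MS.two M Y hL f W hW 0 N (Nat.zero_le _)
    rw [mul_zero, pow_zero, mul_one] at this
    exact this.symm
  rw [pl_coeff M Y f W hN, h3, h6, onel M f hW hf hE N hN]
  have h4 : M.L ^ N * Y ^ N = 1 := by rw [← mul_pow, hL, one_pow]
  have h5 : Y ^ ((n + 2) * N) = Y ^ (n * N) * (Y ^ N * Y ^ N) := by
    rw [← pow_add, ← pow_add]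
    congr 1
    ring
  rw [h5, pow_succ]
  set A := M.χ _ (JetG f W E N)
  set B := ∑ i ∈ Finset.range (N + 1), M.χ _ (Tl f W i N)
  set B0 := M.χ _ (Tl f W 0 N)
  set e := M.χ (Fin 1) {a | a 0 ∈ E}
  linear_combination ((A * M.L + e * (M.L - 1) * (B - 2 * B0)) * Y ^ (n * N) *
    (M.L ^ N * Y ^ N + 1)) * h4

/-- **The relation of the zeta functions.** -/
theorem rel1 (M : Meas K R) (Y : R) (hL : M.L * Y = 1) (f : MvPolynomial (Fin n) K)
    {W : Set (Pt K (Fin n))} (hW : Constr W) (hf : Zr f W) {E : Set (AlgebraicClosure K)}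
    (hE : CE E) (hE0 : (0 : AlgebraicClosure K) ∉ E) :
    PowerSeries.rescale M.L (zs M Y (addyz f) (W0 W) E) =
      PowerSeries.C M.L * zs M Y f W E +
        PowerSeries.C (M.χ (Fin 1) {a | a 0 ∈ E} * (M.L - 1)) * pl M Y f W := by
  ext N
  rw [PowerSeries.coeff_rescale, map_add, PowerSeries.coeff_C_mul, PowerSeries.coeff_C_mul, zs, zs,
    PowerSeries.coeff_mk, PowerSeries.coeff_mk]
  rcases Nat.eq_zero_or_pos N with rfl | hN
  · rw [jet_zero_empty _ (zr_W0 hf) hE0, jet_zero_empty _ hf hE0, χ_empty, χ_empty, pl_zero]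
    ring
  · exact coeff_onel M Y hL f hW hf hE hN

theorem wt_W0 (M : Meas K R) (f : MvPolynomial (Fin n) K) {W : Set (Pt K (Fin n))}
    (hW : Constr W) : wt M (addyz f) (W0 W) = wt M f W := tl_W0 M f hW

/-- **The relation of the tails.** -/
theorem rel2 (M : Meas K R) (Y : R) (hL : M.L * Y = 1) (f : MvPolynomial (Fin n) K)
    {W : Set (Pt K (Fin n))} (hW : Constr W) (hf : Zr f W) :
    PowerSeries.rescale M.L (phiS M Y (addyz f) (W0 W)) =
      PowerSeries.C (wt M f W) * (1 + PowerSeries.C M.L * PowerSeries.X) +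
        (PowerSeries.C M.L * PowerSeries.C M.L - PowerSeries.C M.L * PowerSeries.X) *
          pl M Y f W := by
  have hr : ∀ P : PowerSeries R, (PowerSeries.C M.L * PowerSeries.C M.L -
      PowerSeries.C M.L * PowerSeries.X) * P = PowerSeries.C (M.L * M.L) * P -
        PowerSeries.C M.L * (PowerSeries.X * P) := by
    intro P
    rw [map_mul]
    ring
  have hr' : PowerSeries.C (wt M f W) * (1 + PowerSeries.C M.L * PowerSeries.X) =
      PowerSeries.C (wt M f W) + PowerSeries.C (wt M f W * M.L) * PowerSeries.X := by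
    rw [map_mul]
    ring
  rw [hr, hr']
  ext N
  rw [PowerSeries.coeff_rescale, map_add, map_add, map_sub, PowerSeries.coeff_C_mul,
    PowerSeries.coeff_C_mul, PowerSeries.coeff_C_mul, PowerSeries.coeff_C, PowerSeries.coeff_X]
  rcases N with _ | N
  · rw [PowerSeries.coeff_zero_X_mul, pl_zero, phi_zero, wt_W0 M f hW]
    simp
  · rw [PowerSeries.coeff_succ_X_mul, if_neg (by omega), phiS, PowerSeries.coeff_mk,
      phi_succ Pool.Agent.Y812.MS.two M Y hL (addyz f) (W0 W) (constr_W0 hW) N]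
    rcases Nat.eq_zero_or_pos N with rfl | hN
    · have h1 : PowerSeries.coeff (0 + 1) (pl M Y f W) = 0 := pl_one M Y hL f hW hf
      rw [jet_zero_zero _ (zr_W0 hf), tl_W0 M f hW, pl_zero, h1, wt]
      simp
      ring
    · have h1 := coeff_onel M Y hL f hW hf ce_zero hN
      rw [chi_pt, one_mul] at h1
      have h2 : PowerSeries.coeff (N + 1) (pl M Y f W) = PowerSeries.coeff N (pl M Y f W) +
          PowerSeries.coeff (N + 1) (phiS M Y f W) := by
        rw [pl_coeff M Y f W (by omega), pl_coeff M Y f W hN, Finset.sum_range_succ _ (N + 1)]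
        ring
      have h3 : PowerSeries.coeff (N + 1) (phiS M Y f W) =
          M.χ _ (JetG f W {0} N) * Y ^ (n * N) := by
        rw [phiS, PowerSeries.coeff_mk, phi_succ Pool.Agent.Y812.MS.two M Y hL f W hW N]
      rw [if_neg (by omega), h2, h3, pow_succ]
      linear_combination M.L * h1

end

end Pool.Agent.X271.LR
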