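import Pool.Agent.X271.VNum

/-!
# Killing a set of variables
-/

namespace Pool.Agent.X271.Mono

open MvPolynomial

variable {σ K : Type*} [Field K]

open Classical in
/-- The substitution sending the variables of `s` to `0`. -/
noncomputable def kill (s : Set σ) : MvPolynomial σ K →ₐ[K] MvPolynomial σ K :=
  aeval (fun x => if x ∈ s then 0 else X x)

theorem kill_X_mem {s : Set σ} {x : σ} (h : x ∈ s) : kill (K := K) s (X x) = 0 := by
  rw [kill, aeval_X, if_pos h]

theorem kill_X_not_mem {s : Set σ} {x : σ} (h : x ∉ s) : kill (K := K) s (X x) = X x := by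
  rw [kill, aeval_X, if_neg h]

open Classical in
theorem kill_coeff (s : Set σ) (m : σ →₀ ℕ) (f : MvPolynomial σ K) :
    (kill s f).coeff m = if (∀ x ∈ s, m x = 0) then f.coeff m else 0 := by
  induction f using MvPolynomial.induction_on' with
  | monomial u c =>
    have hk : kill s (monomial u c : MvPolynomial σ K) =
        if (∀ x ∈ s, u x = 0) then monomial u c else 0 := by
      rw [kill, aeval_monomial]
      split_ifs with h
      · rw [Finsupp.prod_congr (g2 := fun i k => X i ^ k), monomial_eq]
        · rw [MvPolynomial.algebraMap_eq]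
        · intro x hx
          rw [if_neg]
          intro hxs
          exact (Finsupp.mem_support_iff.1 hx) (h x hxs)
      · push Not at h
        obtain ⟨x, hx, hux⟩ := h
        rw [Finsupp.prod, Finset.prod_eq_zero (Finsupp.mem_support_iff.2 hux), mul_zero]
        rw [if_pos hx, zero_pow hux]
    rw [hk]
    by_cases hu : u = m
    · subst hu
      split_ifs with h <;> simp
    · split_ifs with h h2 h2
      · rfl
      · rw [coeff_monomial, if_neg hu]
      · rw [coeff_zero, coeff_monomial, if_neg hu]
      · rfl
  | add p q hp hq =>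
    rw [map_add, coeff_add, hp, hq, coeff_add]
    split_ifs <;> simp

theorem sub_kill_mem (s : Set σ) (f : MvPolynomial σ K) :
    f - kill s f ∈ Ideal.span (X '' s : Set (MvPolynomial σ K)) := by
  rw [mem_ideal_span_X_image]
  intro m hm
  rw [mem_support_iff, coeff_sub, kill_coeff] at hm
  split_ifs at hm with h
  · simp at hm
  · push Not at h
    exact h

theorem mem_span_X_iff (s : Set σ) (f : MvPolynomial σ K) :
    f ∈ Ideal.span (X '' s : Set (MvPolynomial σ K)) ↔ kill s f = 0 := by
  constructor
  · intro h
    rw [mem_ideal_span_X_image] at h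
    ext m
    rw [kill_coeff, coeff_zero]
    split_ifs with h2
    · by_contra hcon
      obtain ⟨i, hi, hi2⟩ := h m (mem_support_iff.2 hcon)
      exact hi2 (h2 i hi)
    · rfl
  · intro h
    have := sub_kill_mem s f
    rwa [h, sub_zero] at this

theorem span_X_prime (s : Set σ) : (Ideal.span (X '' s : Set (MvPolynomial σ K))).IsPrime := by
  have : Ideal.span (X '' s : Set (MvPolynomial σ K)) = RingHom.ker (kill (K := K) s) := by
    ext f
    rw [mem_span_X_iff, RingHom.mem_ker]
  rw [this]
  exact RingHom.ker_isPrime _

end Pool.Agent.X271.Mono
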