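import Pool.Agent.X271.Mono

/-!
# Monomial ideals and their powers
-/

namespace Pool.Agent.X271.Mono

open MvPolynomial

variable {σ K : Type*} [Field K]

/-- A monomial ideal. -/
def IsMonomial (J : Ideal (MvPolynomial σ K)) : Prop :=
  ∃ S : Set (σ →₀ ℕ), J = Ideal.span ((fun s => monomial s (1 : K)) '' S)

theorem IsMonomial.mem_iff {J : Ideal (MvPolynomial σ K)} (hJ : IsMonomial J)
    (f : MvPolynomial σ K) :
    f ∈ J ↔ ∀ m, f.coeff m ≠ 0 → (monomial m (1 : K)) ∈ J := by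
  obtain ⟨S, rfl⟩ := hJ
  rw [mem_ideal_span_monomial_image]
  have key : ∀ m : σ →₀ ℕ, (monomial m (1 : K)) ∈ Ideal.span ((fun s => monomial s (1 : K)) '' S) ↔
      ∃ si ∈ S, si ≤ m := by
    intro m
    rw [mem_ideal_span_monomial_image]
    classical
    rw [support_monomial, if_neg one_ne_zero]
    simp
  constructor
  · intro h m hm
    exact (key m).2 (h m (mem_support_iff.2 hm))
  · intro h m hm
    exact (key m).1 (h m (mem_support_iff.1 hm))

theorem monomial_mem_span_iff (S : Set (σ →₀ ℕ)) (m : σ →₀ ℕ) :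
    (monomial m (1 : K)) ∈ Ideal.span ((fun s => monomial s (1 : K)) '' S) ↔
      ∃ si ∈ S, si ≤ m := by
  rw [mem_ideal_span_monomial_image]
  classical
  rw [support_monomial, if_neg one_ne_zero]
  simp

theorem isMonomial_mul {I J : Ideal (MvPolynomial σ K)} (hI : IsMonomial I) (hJ : IsMonomial J) :
    IsMonomial (I * J) := by
  obtain ⟨S, rfl⟩ := hI
  obtain ⟨T, rfl⟩ := hJ
  refine ⟨{u | ∃ s ∈ S, ∃ t ∈ T, s + t = u}, ?_⟩
  rw [Ideal.span_mul_span']
  congr 1
  ext f
  constructor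
  · rintro ⟨_, ⟨s, hs, rfl⟩, _, ⟨t, ht, rfl⟩, rfl⟩
    refine ⟨s + t, ⟨s, hs, t, ht, rfl⟩, ?_⟩
    simp only [monomial_mul, one_mul]
  · rintro ⟨_, ⟨s, hs, t, ht, rfl⟩, rfl⟩
    refine ⟨_, ⟨s, hs, rfl⟩, _, ⟨t, ht, rfl⟩, ?_⟩
    simp only [monomial_mul, one_mul]

theorem isMonomial_top : IsMonomial (⊤ : Ideal (MvPolynomial σ K)) := by
  refine ⟨{0}, ?_⟩
  rw [Set.image_singleton]
  symm
  rw [Ideal.eq_top_iff_one]
  exact Ideal.subset_span rfl

theorem IsMonomial.pow {I : Ideal (MvPolynomial σ K)} (hI : IsMonomial I) (k : ℕ) :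
    IsMonomial (I ^ k) := by
  induction k with
  | zero => rw [pow_zero, Ideal.one_eq_top]; exact isMonomial_top
  | succ k ih => rw [pow_succ]; exact isMonomial_mul ih hI

/-- An additive weight which is at least `c` on the monomials of `I` is at least `c k` on the
monomials of `I^k`. -/
theorem weight_le_of_mem_pow {I : Ideal (MvPolynomial σ K)} (hI : IsMonomial I) (φ : (σ →₀ ℕ) →+ ℕ)
    (c : ℕ) (hc : ∀ m, (monomial m (1 : K)) ∈ I → c ≤ φ m) (k : ℕ) :
    ∀ m, (monomial m (1 : K)) ∈ I ^ k → c * k ≤ φ m := by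
  induction k with
  | zero => intro m _; simp
  | succ k ih =>
    intro m hm
    obtain ⟨T, hT⟩ := hI.pow k
    obtain ⟨S, hS⟩ := hI
    have hprod : I ^ (k + 1) = Ideal.span ((fun s => monomial s (1 : K)) ''
        {u | ∃ s ∈ T, ∃ t ∈ S, s + t = u}) := by
      rw [pow_succ, hT, hS, Ideal.span_mul_span']
      congr 1
      ext f
      constructor
      · rintro ⟨_, ⟨s, hs, rfl⟩, _, ⟨t, ht, rfl⟩, rfl⟩
        refine ⟨s + t, ⟨s, hs, t, ht, rfl⟩, ?_⟩
        simp only [monomial_mul, one_mul]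
      · rintro ⟨_, ⟨s, hs, t, ht, rfl⟩, rfl⟩
        refine ⟨_, ⟨s, hs, rfl⟩, _, ⟨t, ht, rfl⟩, ?_⟩
        simp only [monomial_mul, one_mul]
    rw [hprod, monomial_mem_span_iff] at hm
    obtain ⟨_, ⟨s, hs, t, ht, rfl⟩, hle⟩ := hm
    obtain ⟨r, rfl⟩ := exists_add_of_le hle
    have h1 := ih s (by rw [hT]; exact Ideal.subset_span ⟨s, hs, rfl⟩)
    have h2 := hc t (by rw [hS]; exact Ideal.subset_span ⟨t, ht, rfl⟩)
    rw [map_add, map_add]
    have : c * (k + 1) = c * k + c := by ring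
    omega

end Pool.Agent.X271.Mono

namespace Pool.Agent.X271.Mono

open MvPolynomial

variable {σ K : Type*} [Field K]

theorem monomial_mem_mul_iff {I J : Ideal (MvPolynomial σ K)} (hI : IsMonomial I)
    (hJ : IsMonomial J) (u : σ →₀ ℕ) :
    (monomial u (1 : K)) ∈ I * J ↔ ∃ s t, (monomial s (1 : K)) ∈ I ∧ (monomial t (1 : K)) ∈ J ∧
      s + t ≤ u := by
  constructor
  · intro h
    obtain ⟨S, hS⟩ := hI
    obtain ⟨T, hT⟩ := hJ
    have hprod : I * J = Ideal.span ((fun s => monomial s (1 : K)) ''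
        {u | ∃ s ∈ S, ∃ t ∈ T, s + t = u}) := by
      rw [hT, hS, Ideal.span_mul_span']
      congr 1
      ext f
      constructor
      · rintro ⟨_, ⟨s, hs, rfl⟩, _, ⟨t, ht, rfl⟩, rfl⟩
        refine ⟨s + t, ⟨s, hs, t, ht, rfl⟩, ?_⟩
        simp only [monomial_mul, one_mul]
      · rintro ⟨_, ⟨s, hs, t, ht, rfl⟩, rfl⟩
        refine ⟨_, ⟨s, hs, rfl⟩, _, ⟨t, ht, rfl⟩, ?_⟩
        simp only [monomial_mul, one_mul]
    rw [hprod, monomial_mem_span_iff] at h
    obtain ⟨_, ⟨s, hs, t, ht, rfl⟩, hle⟩ := h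
    exact ⟨s, t, by rw [hS]; exact Ideal.subset_span ⟨s, hs, rfl⟩,
      by rw [hT]; exact Ideal.subset_span ⟨t, ht, rfl⟩, hle⟩
  · rintro ⟨s, t, hs, ht, hle⟩
    obtain ⟨r, rfl⟩ := exists_add_of_le hle
    have h1 := Ideal.mul_mem_mul hs ht
    rw [monomial_mul, one_mul] at h1
    have h2 := Ideal.mul_mem_right (monomial r (1 : K)) _ h1
    rwa [monomial_mul, one_mul] at h2

theorem isMonomial_sup {I J : Ideal (MvPolynomial σ K)} (hI : IsMonomial I) (hJ : IsMonomial J) :
    IsMonomial (I ⊔ J) := by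
  obtain ⟨S, rfl⟩ := hI
  obtain ⟨T, rfl⟩ := hJ
  exact ⟨S ∪ T, by rw [Set.image_union, Ideal.span_union]⟩

theorem monomial_mem_sup_iff {I J : Ideal (MvPolynomial σ K)} (hI : IsMonomial I)
    (hJ : IsMonomial J) (u : σ →₀ ℕ) :
    (monomial u (1 : K)) ∈ I ⊔ J ↔ (monomial u (1 : K)) ∈ I ∨ (monomial u (1 : K)) ∈ J := by
  obtain ⟨S, rfl⟩ := hI
  obtain ⟨T, rfl⟩ := hJ
  rw [← Ideal.span_union, ← Set.image_union, monomial_mem_span_iff, monomial_mem_span_iff,
    monomial_mem_span_iff]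
  constructor
  · rintro ⟨s, (hs | hs), hle⟩
    · exact Or.inl ⟨s, hs, hle⟩
    · exact Or.inr ⟨s, hs, hle⟩
  · rintro (⟨s, hs, hle⟩ | ⟨s, hs, hle⟩)
    · exact ⟨s, Or.inl hs, hle⟩
    · exact ⟨s, Or.inr hs, hle⟩

theorem isMonomial_vars : IsMonomial (idealOfVars σ K) := by
  refine ⟨Set.range (fun i => Finsupp.single i 1), ?_⟩
  rw [idealOfVars, ← Set.range_comp]
  rfl

theorem monomial_mem_vars_iff (u : σ →₀ ℕ) :
    (monomial u (1 : K)) ∈ idealOfVars σ K ↔ ∃ i, u i ≠ 0 := by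
  have : idealOfVars σ K = Ideal.span ((fun s => monomial s (1 : K)) ''
      Set.range (fun i => Finsupp.single i 1)) := by
    rw [idealOfVars, ← Set.range_comp]
    rfl
  rw [this, monomial_mem_span_iff]
  constructor
  · rintro ⟨_, ⟨i, rfl⟩, hle⟩
    refine ⟨i, ?_⟩
    have := hle i
    simp at this
    omega
  · rintro ⟨i, hi⟩
    refine ⟨_, ⟨i, rfl⟩, ?_⟩
    rw [Finsupp.single_le_iff]
    omega

theorem monomial_mem_vars_mul_iff {J : Ideal (MvPolynomial σ K)} (hJ : IsMonomial J)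
    (u : σ →₀ ℕ) :
    (monomial u (1 : K)) ∈ idealOfVars σ K * J ↔
      ∃ i, u i ≠ 0 ∧ (monomial (u - Finsupp.single i 1) (1 : K)) ∈ J := by
  classical
  rw [monomial_mem_mul_iff isMonomial_vars hJ]
  constructor
  · rintro ⟨s, t, hs, ht, hle⟩
    rw [monomial_mem_vars_iff] at hs
    obtain ⟨i, hi⟩ := hs
    refine ⟨i, ?_, ?_⟩
    · have := hle i
      rw [Finsupp.add_apply] at this
      omega
    · have h1 : t ≤ u - Finsupp.single i 1 := by
        intro j
        have h2 := hle j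
        rw [Finsupp.add_apply] at h2
        rw [Finsupp.tsub_apply, Finsupp.single_apply]
        split_ifs with h
        · subst h; omega
        · omega
      obtain ⟨r, hr⟩ := exists_add_of_le h1
      rw [hr]
      have h2 := Ideal.mul_mem_right (monomial r (1 : K)) _ ht
      rwa [monomial_mul, one_mul] at h2
  · rintro ⟨i, hi, h⟩
    refine ⟨Finsupp.single i 1, u - Finsupp.single i 1, ?_, h, ?_⟩
    · rw [monomial_mem_vars_iff]
      exact ⟨i, by simp⟩
    · rw [add_tsub_cancel_of_le]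
      rw [Finsupp.single_le_iff]
      omega

/-- The dimension of a quotient of monomial ideals is the number of monomials in between. -/
theorem finrank_quot {J N : Ideal (MvPolynomial σ K)} (hJ : IsMonomial J) (hN : IsMonomial N)
    (hfin : {u : σ →₀ ℕ | (monomial u (1 : K)) ∈ J ∧ (monomial u (1 : K)) ∉ N}.Finite) :
    Module.finrank K (↥J ⧸ Submodule.comap J.subtype N) =
      {u : σ →₀ ℕ | (monomial u (1 : K)) ∈ J ∧ (monomial u (1 : K)) ∉ N}.ncard := by
  classical
  set G := {u : σ →₀ ℕ | (monomial u (1 : K)) ∈ J ∧ (monomial u (1 : K)) ∉ N} with hG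
  have : Fintype G := hfin.fintype
  let Φ : ↥J →ₗ[K] (G → K) :=
    { toFun := fun f u => (f : MvPolynomial σ K).coeff u
      map_add' := by intro f g; ext u; simp
      map_smul' := by intro c f; ext u; simp }
  have hker : LinearMap.ker Φ = (Submodule.comap J.subtype N).restrictScalars K := by
    ext f
    rw [LinearMap.mem_ker, Submodule.restrictScalars_mem, Submodule.mem_comap]
    change Φ f = 0 ↔ (f : MvPolynomial σ K) ∈ N
    rw [hN.mem_iff]
    constructor
    · intro h m hm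
      by_contra hcon
      have hmJ : (monomial m (1 : K)) ∈ J := (hJ.mem_iff _).1 f.2 m hm
      have := congrFun h ⟨m, hmJ, hcon⟩
      exact hm this
    · intro h
      ext u
      by_contra hcon
      exact u.2.2 (h u hcon)
  have hsurj : LinearMap.range Φ = ⊤ := by
    rw [LinearMap.range_eq_top]
    intro g
    refine ⟨⟨∑ u : G, monomial (u : σ →₀ ℕ) (g u), ?_⟩, ?_⟩
    · refine Ideal.sum_mem _ fun u _ => ?_
      have h1 := Ideal.mul_mem_left J (C (g u)) u.2.1
      rwa [C_mul_monomial, mul_one] at h1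
    · ext u
      change (∑ v : G, monomial (v : σ →₀ ℕ) (g v)).coeff (u : σ →₀ ℕ) = g u
      rw [coeff_sum, Finset.sum_eq_single u]
      · simp
      · intro v _ hv
        rw [coeff_monomial, if_neg]
        intro h
        exact hv (Subtype.ext h)
      · intro h; exact absurd (Finset.mem_univ _) h
  have h1 : Module.finrank K (↥J ⧸ Submodule.comap J.subtype N) =
      Module.finrank K (↥J ⧸ LinearMap.ker Φ) := by
    rw [hker]
    rfl
  rw [h1, (Φ.quotKerEquivRange).finrank_eq, hsurj, finrank_top, Module.finrank_fintype_fun_eq_card,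
    ← Nat.card_coe_set_eq, Nat.card_eq_fintype_card]

end Pool.Agent.X271.Mono
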