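import Pool.Agent.X271.MotDef

set_option autoImplicit false

/-! The condition on the facets for local Bernstein-Sato polynomials: definition. -/

namespace Pool.Agent.X271.MD

open MvPolynomial Pool.Agent.TH216.HD

/-- Every `|a| / N_a`, `a` a ray of the normal fan with `N_a > 0`, comes from a facet or face which
contains a simplex which is not B1 (with the condition for the local version), or satisfies `LocC`. -/
def HypCL {r N : ℕ} {R : Type} [CommRing R] (v : Fin r → Fin N → ℕ) (h : MvPolynomial (Fin N) R) :
    Prop :=
  ∀ a : Fin N → ℕ, IsRay v a → 0 < ordA v a →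
    (∃ a' : Fin N → ℕ, 0 < ordA v a' ∧ NonB1 v True a' ∧ lev v a = lev v a') ∨
    LocC v h (lev v a)

end Pool.Agent.X271.MD
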