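import Pool.Agent.X271.MotRay

set_option autoImplicit false
set_option linter.unusedVariables false

/-! Motivic zeta functions of stably generic polynomials. -/

namespace Pool.Agent.X271.MG

open MvPolynomial Pool.Agent.H628R4.TP Pool.Agent.W425.MM Pool.Agent.W425.GN
open Pool.Agent.W425.ND (spa)
open Pool.Agent.W426.SM (gord IsRay face)
open Pool.Agent.W425.SV (NP)
open Pool.Agent.TH216.MF (LocS)
open Pool.Agent.W428.MOT (Pt Constr ratRing Lu MK zeta)
open Pool.Agent.W375.MG (zetaG Good ratRing_mono)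
open Pool.Agent.Y229.MS
open Pool.Agent.Y229.RE (stab)
open Pool.Agent.Y229.PG (BecomesG becomes_global)

variable {M r : ℕ}

/-- scaling of the variables -/
noncomputable def sclK {K : Type} [Field K] {N : ℕ} (t : Fin N → K) (ht : ∀ i, t i ≠ 0) :
    MvPolynomial (Fin N) K ≃ₐ[K] MvPolynomial (Fin N) K :=
  AlgEquiv.ofAlgHom (aeval fun i => C (t i) * X i) (aeval fun i => C (t i)⁻¹ * X i)
    (by
      apply MvPolynomial.algHom_ext
      intro i
      rw [AlgHom.comp_apply, aeval_X, map_mul, algHom_C, aeval_X, algebraMap_eq, ← mul_assoc,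
        ← C_mul, inv_mul_cancel₀ (ht i), C_1, one_mul]
      rfl)
    (by
      apply MvPolynomial.algHom_ext
      intro i
      rw [AlgHom.comp_apply, aeval_X, map_mul, algHom_C, aeval_X, algebraMap_eq, ← mul_assoc,
        ← C_mul, mul_inv_cancel₀ (ht i), C_1, one_mul]
      rfl)

theorem sclK_X {K : Type} [Field K] {N : ℕ} (t : Fin N → K) (ht : ∀ i, t i ≠ 0) (i : Fin N) :
    sclK t ht (X i) = C (t i) * X i := aeval_X _ _

/-- the coefficient of `y z` -/
theorem exists_scale {K : Type} [Field K] {τ : K} (hτ : τ ≠ 0) :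
    ∃ θ : MvPolynomial (Fin (M + 2)) K ≃ₐ[K] MvPolynomial (Fin (M + 2)) K,
      ∀ G : MvPolynomial (Fin M) K, θ (addyz G) =
        rename (Fin.castAdd 2) G + C τ * (X (Fin.natAdd M 0) * X (Fin.natAdd M 1)) := by
  refine ⟨sclK (Fin.append (fun _ => 1) ![τ, 1]) (fun i => ?_), fun G => ?_⟩
  · refine Fin.addCases (fun i => ?_) (fun i => ?_) i
    · rw [Fin.append_left]
      exact one_ne_zero
    · rw [Fin.append_right]
      fin_cases i
      · exact hτ
      · exact one_ne_zero
  · unfold addyz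
    rw [map_add, map_mul, sclK_X, sclK_X, Fin.append_right, Fin.append_right]
    congr 1
    · have h1 : ∀ G : MvPolynomial (Fin M) K,
          sclK (Fin.append (fun _ => 1) ![τ, 1]) (fun i => by
            refine Fin.addCases (fun i => ?_) (fun i => ?_) i
            · rw [Fin.append_left]
              exact one_ne_zero
            · rw [Fin.append_right]
              fin_cases i
              · exact hτ
              · exact one_ne_zero) (rename (Fin.castAdd 2) G) = rename (Fin.castAdd 2) G := by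
        intro G
        induction G using MvPolynomial.induction_on with
        | C a => rw [rename_C]; exact (sclK _ _).commutes a
        | add p q hp hq => rw [map_add, map_add, hp, hq]
        | mul_X p i hp =>
          rw [map_mul, map_mul, hp, rename_X, sclK_X, Fin.append_left, C_1, one_mul]
      exact h1 G
    · simp only [Matrix.cons_val_zero, Matrix.cons_val_one, C_1, one_mul]
      ring

theorem spa_tau {F : Type} [Field F] (v : Fin r → Fin M → ℕ) (c : Fin r → F) (τ : F)
    (h : MvPolynomial (Fin M) F) :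
    spa (exyz v) (Fin.cons τ c : Fin (r + 1) → F) + up h = rename (Fin.castAdd 2) (spa v c + h) +
      C τ * (X (Fin.natAdd M 0) * X (Fin.natAdd M 1)) := by
  unfold spa exyz up
  rw [Fin.sum_univ_succ]
  simp only [Fin.cons_zero, Fin.cons_succ, Fin.prod_univ_add, Fin.append_left, Fin.append_right,
    pow_zero, pow_one, Finset.prod_const_one, one_mul, mul_one, map_sum, map_mul, map_prod,
    map_pow, rename_X, rename_C, Fin.prod_univ_two, map_add]
  ring

/-- a value for the coefficient of `y z` -/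
theorem exists_tau {k : Type} [Field k] [Infinite k] {g : MvPolynomial (Fin (r + 1)) k}
    (hg : g ≠ 0) : ∃ τ : k, τ ≠ 0 ∧ ∃ g' : MvPolynomial (Fin r) k, g' ≠ 0 ∧
      ∀ c : Fin r → k, eval c g' = eval (Fin.cons τ c) g := by
  have h1 : g * X 0 ≠ 0 := mul_ne_zero hg (X_ne_zero _)
  obtain ⟨x, hx⟩ : ∃ x : Fin (r + 1) → k, eval x (g * X 0) ≠ 0 := by
    by_contra hcon
    push Not at hcon
    exact h1 (MvPolynomial.funext fun x => by rw [hcon x, map_zero])
  rw [map_mul, eval_X] at hx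
  have key : ∀ c : Fin r → k, eval c (bind₁ (Fin.cons (C (x 0)) fun i => X i :
      Fin (r + 1) → MvPolynomial (Fin r) k) g) = eval (Fin.cons (x 0) c : Fin (r + 1) → k) g := by
    intro c
    have h2 := aeval_bind₁ c (Fin.cons (C (x 0)) fun i => X i :
      Fin (r + 1) → MvPolynomial (Fin r) k) g
    have h3 : (fun i => aeval c ((Fin.cons (C (x 0)) fun i => X i :
        Fin (r + 1) → MvPolynomial (Fin r) k) i)) = (Fin.cons (x 0) c : Fin (r + 1) → k) := by
      funext i
      refine Fin.cases ?_ (fun i => ?_) i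
      · rw [Fin.cons_zero, Fin.cons_zero]
        exact (aeval c).commutes _
      · rw [Fin.cons_succ, Fin.cons_succ, aeval_X]
    rw [h3] at h2
    exact h2
  refine ⟨x 0, right_ne_zero_of_mul hx, _, ?_, key⟩
  intro h0
  apply left_ne_zero_of_mul hx
  have h2 := key (fun i => x i.succ)
  rw [h0, map_zero] at h2
  rw [← Fin.cons_self_tail x]
  exact h2.symm

/-- The condition on the facets of `v`: the level of every facet is the level of a non-B1 simplex, or
the facets of this level are simplices or B1 in one common direction. -/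
def HypC {R : Type} [CommRing R] (v : Fin r → Fin M → ℕ) (h : MvPolynomial (Fin M) R) : Prop :=
  ∀ a : Fin M → ℕ, IsRay v a → 0 < gord v a →
    (∃ a' : Fin M → ℕ, 0 < gord v a' ∧ NonB v False a' ∧ lev v a = lev v a') ∨
      LocC v h (lev v a)

theorem stab_ne {n κ : ℕ} {f : MvPolynomial (Fin n) ℂ} (hf : f.totalDegree ≠ 0)
    {N : ℕ} (φ : MvPolynomial (Fin (n + (κ + κ))) ℂ ≃ₐ[ℂ] MvPolynomial (Fin N) ℂ) :
    (φ (stab f κ)).totalDegree ≠ 0 := by
  intro h0
  have h1 := totalDegree_eq_zero_iff_eq_C.1 h0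
  apply hf
  have h2 : stab f κ = C (coeff 0 (φ (stab f κ))) := by
    apply φ.injective
    conv_lhs => rw [h1]
    exact (φ.commutes _).symm
  have h3 := congrArg (aeval (Fin.append (X : Fin n → MvPolynomial (Fin n) ℂ) fun _ => 0)) h2
  unfold stab at h3
  rw [map_add, map_sum, aeval_rename] at h3
  have h4 : (Fin.append (X : Fin n → MvPolynomial (Fin n) ℂ) fun _ : Fin (κ + κ) => 0) ∘
      Fin.castAdd (κ + κ) = X := by
    funext i
    rw [Function.comp_apply, Fin.append_left]
  rw [h4, aeval_X_left_apply, Finset.sum_eq_zero, add_zero] at h3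
  · rw [h3]
    have : aeval (Fin.append (X : Fin n → MvPolynomial (Fin n) ℂ) fun _ : Fin (κ + κ) => 0)
        (C (coeff 0 (φ (rename (Fin.castAdd (κ + κ)) f + ∑ i : Fin κ,
          X (Fin.natAdd n (Fin.castAdd κ i)) * X (Fin.natAdd n (Fin.natAdd κ i)))))) =
        C (coeff 0 (φ (rename (Fin.castAdd (κ + κ)) f + ∑ i : Fin κ,
          X (Fin.natAdd n (Fin.castAdd κ i)) * X (Fin.natAdd n (Fin.natAdd κ i))))) :=
      (aeval _).commutes _
    rw [this]
    exact totalDegree_C _
  · intro i _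
    rw [map_mul, aeval_X, Fin.append_right, zero_mul]

/-- **Stably generic polynomials.** -/
theorem core {k : Type} [Field k] [Algebra k ℂ] {n κ r : ℕ} (hr : 0 < r)
    (v : Fin r → Fin (n + (κ + κ)) → ℕ) (hv : Function.Injective v) (hv0 : ∀ j, v j ≠ 0)
    (h : MvPolynomial (Fin (n + (κ + κ))) k) (hh : ∀ w ∈ h.support, NP v w)
    (hC : HypC v h) :
    ∃ g : MvPolynomial (Fin r) k, g ≠ 0 ∧ ∀ c : Fin r → k, eval c g ≠ 0 →
      ∀ f : MvPolynomial (Fin n) k, f.totalDegree ≠ 0 →
      ∀ φ : MvPolynomial (Fin (n + (κ + κ))) k ≃ₐ[k] MvPolynomial (Fin (n + (κ + κ))) k,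
      φ (stabK f κ) = spa v c + h →
      (∀ a : Fin (n + (κ + κ)) → ℕ, IsRay v a → 0 < gord v a → ∑ i, a i ≠ gord v a) →
    ∃ S : Finset (ℤ × ℤ),
      (∀ p ∈ S, 0 < p.2 ∧ (p = (-1, 1) ∨ ∃ a : Fin (n + (κ + κ)) → ℕ, IsRay v a ∧
          0 < gord v a ∧ p = (-((∑ i, a i : ℕ) : ℤ) + κ * (gord v a : ℤ), (gord v a : ℤ))) ∧
        ∀ b : Polynomial ℂ, IsBFunction (map (algebraMap k ℂ) f) b →
          b.eval ((p.1 : ℂ) / p.2) = 0) ∧
      ∀ (K : Type) [Field K] [Algebra k K] (W : Set (Pt K (Fin n)))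
        (E : Set (AlgebraicClosure K)), Constr W → Good E →
        zetaG (map (algebraMap k K) f) W E ∈ ratRing K S := by
  classical
  have hkc : CharZero k := RingHom.charZero (algebraMap k ℂ)
  obtain ⟨g1, hg1, hc1⟩ := gen_fst hr v hv hv0 h hh
  obtain ⟨g2, hg2, hc2⟩ := gen_fst (Nat.succ_pos r) (exyz v) (exyz_inj hv) (exyz_ne hv0) (up h)
    (np_up hh)
  obtain ⟨τ, hτ, g2', hg2', hc2'⟩ := exists_tau hg2
  refine ⟨g1 * g2', mul_ne_zero hg1 hg2', fun c hc f hf φ hφ hlev1 => ?_⟩
  rw [map_mul] at hc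
  obtain ⟨hnb1, S1, hS1, hz1⟩ := hc1 c (left_ne_zero_of_mul hc)
  obtain ⟨hnb2, S2, hS2, hz2⟩ := hc2 (Fin.cons τ c) (by
    rw [← hc2']
    exact right_ne_zero_of_mul hc)
  set G : MvPolynomial (Fin (n + (κ + κ))) k := spa v c + h with hG
  set fC : MvPolynomial (Fin n) ℂ := map (algebraMap k ℂ) f with hfC
  have hfC0 : fC.totalDegree ≠ 0 := by
    rw [hfC, totalDegree, support_map_of_injective _ (algebraMap k ℂ).injective]
    exact hf
  set GC : MvPolynomial (Fin (n + (κ + κ))) ℂ := map (algebraMap k ℂ) G with hGC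
  have hbec : BecomesG fC κ GC := by
    obtain ⟨ψ, hψ⟩ := Pool.Agent.Y405.MS.bc k ℂ φ
    refine ⟨ψ, ?_⟩
    have e1 : stab fC κ = map (algebraMap k ℂ) (stabK f κ) := by
      rw [map_stabK]
      rfl
    rw [e1, hψ, hφ]
  have hGC0 : GC.totalDegree ≠ 0 := by
    obtain ⟨ψ, hψ⟩ := hbec
    rw [← hψ]
    exact stab_ne hfC0 ψ
  -- the b-functions
  have hb1 : ∀ c' : Polynomial ℂ, IsBFunction fC ((Polynomial.X + 1) * c') →
      IsBFunction GC ((Polynomial.X + 1) *
        c'.comp (Polynomial.X + Polynomial.C (κ : ℂ))) := fun c' h =>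
    (becomes_global hfC0 h hbec).2 c' rfl
  set τC : ℂ := algebraMap k ℂ τ with hτC
  have hτC0 : τC ≠ 0 := (map_ne_zero _).2 hτ
  have hmap2 : ∀ (K : Type) [Field K] [Algebra k K],
      map (algebraMap k K) (spa (exyz v) (Fin.cons τ c : Fin (r + 1) → k) + up h) =
      rename (Fin.castAdd 2) (map (algebraMap k K) G) +
        C (algebraMap k K τ) * (X (Fin.natAdd _ 0) * X (Fin.natAdd _ 1)) := by
    intro K _ _
    rw [spa_tau, ← hG]
    simp only [map_add, map_mul, map_X, map_C, map_rename]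
  have hb2 : ∀ c' : Polynomial ℂ, IsBFunction fC ((Polynomial.X + 1) * c') →
      IsBFunction (map (algebraMap k ℂ) (spa (exyz v) (Fin.cons τ c : Fin (r + 1) → k) + up h))
        ((Polynomial.X + 1) *
        (c'.comp (Polynomial.X + Polynomial.C (κ : ℂ))).comp
          (Polynomial.X + Polynomial.C ((1 : ℕ) : ℂ))) := by
    intro c' h
    obtain ⟨θ, hθ⟩ := exists_scale (M := n + (κ + κ)) hτC0
    have h5 := (becomes_global (k := 1) (G := θ (stab GC 1)) hGC0
      (hb1 c' h) ⟨θ, rfl⟩).2 _ rfl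
    have h6 : stab GC 1 = addyz GC := by
      unfold stab addyz
      rw [Fin.sum_univ_one]
      rfl
    rw [h6, hθ, ← hmap2 ℂ] at h5
    exact h5
  -- the levels
  have hrat : ∀ a : Fin (n + (κ + κ)) → ℕ, 0 < gord v a →
      (((-((∑ i, a i : ℕ) : ℤ) + κ * (gord v a : ℤ) : ℤ) : ℂ) / ((gord v a : ℤ) : ℂ)) =
        ((-lev v a : ℚ) : ℂ) + κ := by
    intro a hg
    have h7 : ((gord v a : ℕ) : ℂ) ≠ 0 := by
      exact_mod_cast (Nat.pos_iff_ne_zero.1 hg)
    unfold lev
    push_cast
    field_simp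
  have hlev0 : ∀ a : Fin (n + (κ + κ)) → ℕ, IsRay v a → 0 < gord v a →
      ((-lev v a : ℚ) : ℂ) ≠ 0 := by
    intro a ha hg h0
    have h1 : (-lev v a : ℚ) = 0 := by exact_mod_cast h0
    unfold lev at h1
    rw [neg_eq_zero, div_eq_zero_iff] at h1
    rcases h1 with h1 | h1
    · have h2 := Pool.Agent.TH216.MC.pos_of_ray ha
      have h3 : ∑ i, a i = 0 := by exact_mod_cast h1
      rw [h3] at h2
      simp at h2
    · have h2 : gord v a = 0 := by exact_mod_cast h1
      omega
  have hlev1' : ∀ a : Fin (n + (κ + κ)) → ℕ, IsRay v a → 0 < gord v a →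
      ((-lev v a : ℚ) : ℂ) + 1 ≠ 0 := by
    intro a ha hg h0
    apply hlev1 a ha hg
    have h1 : (-lev v a : ℚ) + 1 = 0 := by exact_mod_cast h0
    have h2 : lev v a = 1 := by linarith
    unfold lev at h2
    rw [div_eq_one_iff_eq (by exact_mod_cast hg.ne')] at h2
    exact_mod_cast h2
  -- the roots
  have hroot : ∀ a : Fin (n + (κ + κ)) → ℕ, IsRay v a → 0 < gord v a →
      (LocC v h (lev v a) → ∀ c' : Polynomial ℂ, IsBFunction fC ((Polynomial.X + 1) * c') →
        c'.eval (((-lev v a : ℚ) : ℂ) + κ) = 0) →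
      ∀ b : Polynomial ℂ, IsBFunction fC b →
        b.eval ((((-((∑ i, a i : ℕ) : ℤ) + κ * (gord v a : ℤ) : ℤ) : ℂ) /
          ((gord v a : ℤ) : ℂ))) = 0 := by
    intro a ha hg hL b hb
    have h5 := (becomes_global hfC0 hb hbec).1
    obtain ⟨c', hc'⟩ : (Polynomial.X + 1 : Polynomial ℂ) ∣ b := by
      have := Polynomial.dvd_iff_isRoot.2 h5
      simpa using this
    have h6 : c'.eval (((-lev v a : ℚ) : ℂ) + κ) = 0 := by
      rcases hC a ha hg with ⟨a', hg', hn', he⟩ | h7
      · have h8 := hnb1 a' hg' hn' _ (hb1 c' (hc' ▸ hb))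
        rw [← he, Polynomial.eval_mul, Polynomial.eval_comp, Polynomial.eval_add,
          Polynomial.eval_X, Polynomial.eval_one, Polynomial.eval_add, Polynomial.eval_X,
          Polynomial.eval_C] at h8
        exact (mul_eq_zero.1 h8).resolve_left (hlev1' a ha hg)
      · exact hL h7 c' (hc' ▸ hb)
    rw [hrat a hg, hc', Polynomial.eval_mul, h6, mul_zero]
  set S : Finset (ℤ × ℤ) := insert (-1, 1) (S1.image (fun q => (q.1 + κ * q.2, q.2)) ∪
    S2.image (fun q => (q.1 + ((κ + 1 : ℕ) : ℤ) * q.2, q.2))) with hS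
  refine ⟨S, fun p hp => ?_, fun K _ _ W E hW hE => ?_⟩
  · rcases Finset.mem_insert.1 hp with rfl | hp
    · refine ⟨by norm_num, Or.inl rfl, fun b hb => ?_⟩
      have h5 := (becomes_global hfC0 hb hbec).1
      have h6 : (((-1 : ℤ) : ℂ) / ((1 : ℤ) : ℂ)) = -1 := by norm_num
      simp only [h6]
      exact h5
    · rcases Finset.mem_union.1 hp with hp | hp
      · obtain ⟨q, hq, rfl⟩ := Finset.mem_image.1 hp
        obtain ⟨a, ha, hg, rfl, hr1⟩ := hS1 q hq
        refine ⟨Int.natCast_pos.2 hg, Or.inr ⟨a, ha, hg, rfl⟩, fun b hb => ?_⟩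
        refine hroot a ha hg (fun hL c' hc' => ?_) b hb
        have h8 := hr1 (Or.inr hL.locS) _ (hb1 c' hc')
        rw [Polynomial.eval_mul, Polynomial.eval_comp, Polynomial.eval_add,
          Polynomial.eval_X, Polynomial.eval_one, Polynomial.eval_add, Polynomial.eval_X,
          Polynomial.eval_C] at h8
        exact (mul_eq_zero.1 h8).resolve_left (hlev1' a ha hg)
      · obtain ⟨q, hq, hqp⟩ := Finset.mem_image.1 hp
        obtain ⟨a, ha, hg, hqa, hr1⟩ := hS2 q hq
        obtain ⟨h11, h12, h13, h14, h15⟩ := ray_exyz hr v ha hg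
        have hg' : 0 < gord v (low a) := by rw [h12]; exact hg
        have hpe : p =
            (-((∑ i, low a i : ℕ) : ℤ) + κ * (gord v (low a) : ℤ), (gord v (low a) : ℤ)) := by
          rw [← hqp, hqa, h15, h12, Prod.mk.injEq]
          refine ⟨?_, rfl⟩
          push_cast
          ring
        rw [hpe]
        refine ⟨Int.natCast_pos.2 hg', Or.inr ⟨low a, h11, hg', rfl⟩, fun b hb => ?_⟩
        refine hroot (low a) h11 hg' (fun hL c' hc' => ?_) b hb
        have hlv := lev_exyz hr v ha hg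
        have h8 := hr1 (Or.inr (by rw [hlv]; exact locS_exyz hr hL)) _ (hb2 c' hc')
        rw [hlv, Polynomial.eval_mul, Polynomial.eval_comp, Polynomial.eval_comp,
          Polynomial.eval_add, Polynomial.eval_X, Polynomial.eval_one, Polynomial.eval_add,
          Polynomial.eval_X, Polynomial.eval_C, Polynomial.eval_add,
          Polynomial.eval_X, Polynomial.eval_C] at h8
        have h9 : ((-(lev v (low a) + 1) : ℚ) : ℂ) + ((1 : ℕ) : ℂ) = ((-lev v (low a) : ℚ) : ℂ) := by
          push_cast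
          ring
        have h10 : ((-(lev v (low a) + 1) : ℚ) : ℂ) + 1 = ((-lev v (low a) : ℚ) : ℂ) := by
          push_cast
          ring
        rw [h9, h10] at h8
        exact (mul_eq_zero.1 h8).resolve_left (hlev0 _ h11 hg')
  · have hK : CharZero K := charZero_of_injective_algebraMap (algebraMap k K).injective
    have hE' : CE E := ce_good hE
    set fK : MvPolynomial (Fin n) K := map (algebraMap k K) f with hfK
    obtain ⟨ψ1, hψ1⟩ := Pool.Agent.Y405.MS.itr K fK κ
    obtain ⟨ψ2, hψ2⟩ := Pool.Agent.Y405.MS.bc k K φ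
    set ψ := ψ1.trans ψ2 with hψ
    have e1 : ψ (itr fK κ) = map (algebraMap k K) G := by
      show ψ2 (ψ1 (itr fK κ)) = _
      rw [hψ1, hfK, ← map_stabK, hψ2, hφ]
    obtain ⟨ψ', hψ'⟩ := Pool.Agent.Y405.MS.ext K ψ
    obtain ⟨θ, hθ⟩ := exists_scale (K := K) (M := n + (κ + κ)) (τ := algebraMap k K τ)
      ((map_ne_zero _).2 hτ)
    set ψ'' := ψ'.trans θ with hψ''
    have e2 : ψ'' (addyz (itr fK κ)) =
        map (algebraMap k K) (spa (exyz v) (Fin.cons τ c : Fin (r + 1) → k) + up h) := by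
      show θ (ψ' (addyz (itr fK κ))) = _
      rw [hψ', e1, hθ, hmap2]
    have hW1 : Constr (Witr W κ) := constr_Witr hW κ
    have hW2 : Constr (Wyz (Witr W κ)) := constr_Wyz hW1
    have z1 := hz1 K _ E (constr_pull ψ hW1) hE
    have z2 := hz2 K _ E (constr_pull ψ'' hW2) hE
    rw [← e1, zeta_iso Pool.Agent.Z864.MS.three (by ring) ψ _ hW1 hE'] at z1
    rw [← e2, zeta_iso Pool.Agent.Z864.MS.three (by ring) ψ'' _ hW2 hE'] at z2
    have z3 := descend' fK hW hE' κ S1 S2 (fun p hp => by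
        obtain ⟨a, ha, hg, rfl, -⟩ := hS1 p hp
        exact Int.natCast_pos.2 hg)
      (fun p hp => by
        obtain ⟨a, ha, hg, rfl, -⟩ := hS2 p hp
        exact Int.natCast_pos.2 hg) z1 z2
    refine ratRing_mono ?_ (zeta_of_fst fK W E _ z3)
    rintro p (rfl | ⟨q, hq, rfl⟩ | ⟨q, hq, rfl⟩)
    · exact Finset.mem_coe.2 (Finset.mem_insert_self _ _)
    · exact Finset.mem_coe.2 (Finset.mem_insert_of_mem (Finset.mem_union_left _
        (Finset.mem_image_of_mem (fun q : ℤ × ℤ => (q.1 + (κ : ℤ) * q.2, q.2)) hq)))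
    · exact Finset.mem_coe.2 (Finset.mem_insert_of_mem (Finset.mem_union_right _
        (Finset.mem_image_of_mem (fun q : ℤ × ℤ => (q.1 + ((κ + 1 : ℕ) : ℤ) * q.2, q.2)) hq)))

end Pool.Agent.X271.MG
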