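import Pool.Agent.X271.MotGen

set_option autoImplicit false
set_option linter.unusedVariables false

/-! The normal fan of `G + y z`. -/

namespace Pool.Agent.X271.MG

open MvPolynomial Pool.Agent.W425.MM Pool.Agent.W425.GN
open Pool.Agent.W426.SM (gord IsRay face)
open Pool.Agent.W803.SM (gord_le exists_gord)
open Pool.Agent.W425.BF (BD)
open Pool.Agent.W425.SV (NP)
open Pool.Agent.TH216.MF (LocS SimH SimR InC)
open Pool.Agent.Y229.MS (exyz)

variable {r M : ℕ}

/-- the part of a vector -/
def low (a : Fin (M + 2) → ℕ) : Fin M → ℕ := fun i => a (Fin.castAdd 2 i)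

theorem exyz_zero_l (v : Fin r → Fin M → ℕ) (i : Fin M) : exyz v 0 (Fin.castAdd 2 i) = 0 := by
  simp only [exyz, Fin.cons_zero, Fin.append_left]

theorem exyz_zero_r (v : Fin r → Fin M → ℕ) (i : Fin 2) : exyz v 0 (Fin.natAdd M i) = 1 := by
  simp only [exyz, Fin.cons_zero, Fin.append_right]

theorem exyz_succ_l (v : Fin r → Fin M → ℕ) (j : Fin r) (i : Fin M) :
    exyz v j.succ (Fin.castAdd 2 i) = v j i := by
  simp only [exyz, Fin.cons_succ, Fin.append_left]

theorem exyz_succ_r (v : Fin r → Fin M → ℕ) (j : Fin r) (i : Fin 2) :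
    exyz v j.succ (Fin.natAdd M i) = 0 := by
  simp only [exyz, Fin.cons_succ, Fin.append_right]

theorem sumR_zero {R : Type} [CommSemiring R] (v : Fin r → Fin M → ℕ) (u : Fin (M + 2) → R) :
    ∑ i, u i * (exyz v 0 i : R) = u (Fin.natAdd M 0) + u (Fin.natAdd M 1) := by
  rw [Fin.sum_univ_add, Finset.sum_eq_zero, zero_add, Fin.sum_univ_two, exyz_zero_r, exyz_zero_r,
    Nat.cast_one, mul_one, mul_one]
  intro i _
  rw [exyz_zero_l, Nat.cast_zero, mul_zero]

theorem sumR_succ {R : Type} [CommSemiring R] (v : Fin r → Fin M → ℕ) (u : Fin (M + 2) → R)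
    (j : Fin r) :
    ∑ i, u i * (exyz v j.succ i : R) = ∑ i, u (Fin.castAdd 2 i) * (v j i : R) := by
  rw [Fin.sum_univ_add]
  conv_lhs => rw [Finset.sum_eq_zero (s := Finset.univ (α := Fin 2)) (fun i _ => by
    rw [exyz_succ_r, Nat.cast_zero, mul_zero]), add_zero]
  exact Finset.sum_congr rfl fun i _ => by rw [exyz_succ_l]

theorem sum_zero (v : Fin r → Fin M → ℕ) (a : Fin (M + 2) → ℕ) :
    ∑ i, a i * exyz v 0 i = a (Fin.natAdd M 0) + a (Fin.natAdd M 1) := by
  have := sumR_zero (R := ℕ) v a
  simpa using this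

theorem sum_succ (v : Fin r → Fin M → ℕ) (a : Fin (M + 2) → ℕ) (j : Fin r) :
    ∑ i, a i * exyz v j.succ i = ∑ i, low a i * v j i := by
  have := sumR_succ (R := ℕ) v a j
  simp only [Nat.cast_id] at this
  exact this

theorem sum_tot (a : Fin (M + 2) → ℕ) :
    ∑ i, a i = ∑ i, low a i + (a (Fin.natAdd M 0) + a (Fin.natAdd M 1)) := by
  rw [Fin.sum_univ_add, Fin.sum_univ_two]
  rfl

/-- **The rays of the normal fan of `G + y z`.** -/
theorem ray_exyz (hr : 0 < r) (v : Fin r → Fin M → ℕ) {a : Fin (M + 2) → ℕ}
    (ha : IsRay (exyz v) a) (hg : 0 < gord (exyz v) a) :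
    IsRay v (low a) ∧ gord v (low a) = gord (exyz v) a ∧
      a (Fin.natAdd M 0) + a (Fin.natAdd M 1) = gord (exyz v) a ∧
      (a (Fin.natAdd M 0) = 0 ∨ a (Fin.natAdd M 1) = 0) ∧
      ∑ i, a i = ∑ i, low a i + gord (exyz v) a := by
  set L := gord (exyz v) a with hL
  obtain ⟨ha0, hray⟩ := ha
  have h0 : L ≤ a (Fin.natAdd M 0) + a (Fin.natAdd M 1) := by
    rw [← sum_zero v a]
    exact gord_le _ _ _
  have h1 : ∀ j, L ≤ ∑ i, low a i * v j i := by
    intro j
    rw [← sum_succ v a j]
    exact gord_le _ _ _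
  obtain ⟨j1, hj1⟩ := exists_gord hr v (low a)
  have hLv : L ≤ gord v (low a) := by
    rw [← hj1]
    exact h1 j1
  -- the coordinates `y`, `z`
  have e0 : a (Fin.natAdd M 0) + a (Fin.natAdd M 1) = L := by
    by_contra hne
    -- the face does not contain `y z`
    have hf0 : ¬ face (exyz v) a 0 := by
      unfold face
      rw [sum_zero v a]
      exact hne
    obtain ⟨q, hq⟩ := hray (Fin.append (fun _ => 0) fun i => (a (Fin.natAdd M i) : ℚ)) (by
      intro i hi
      refine Fin.addCases (fun i => ?_) (fun i => ?_) i (motive := fun i => a i = 0 →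
        (Fin.append (fun _ => (0 : ℚ)) (fun i => (a (Fin.natAdd M i) : ℚ)) : Fin (M + 2) → ℚ) i = 0) hi
      · intro _
        rw [Fin.append_left]
      · intro h
        rw [Fin.append_right, h, Nat.cast_zero]) (by
      have hz : ∀ j, face (exyz v) a j → ∑ i, (Fin.append (fun _ => (0 : ℚ))
          (fun i => (a (Fin.natAdd M i) : ℚ)) : Fin (M + 2) → ℚ) i * (exyz v j i : ℚ) = 0 := by
        intro j hj
        induction j using Fin.cases with
        | zero => exact absurd hj hf0
        | succ j =>
          rw [sumR_succ]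
          refine Finset.sum_eq_zero fun i _ => ?_
          rw [Fin.append_left, zero_mul]
      intro j j' hj hj'
      rw [hz j hj, hz j' hj'])
    -- some coordinate of `low a` is nonzero
    obtain ⟨i, hi⟩ : ∃ i, low a i ≠ 0 := by
      by_contra hcon
      push Not at hcon
      have h2 := h1 j1
      rw [Finset.sum_eq_zero (fun i _ => by rw [hcon, zero_mul])] at h2
      omega
    have h3 := hq (Fin.castAdd 2 i)
    rw [Fin.append_left] at h3
    have h4 : q = 0 := by
      rcases mul_eq_zero.1 h3.symm with h5 | h5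
      · exact h5
      · exact absurd (by exact_mod_cast h5) hi
    have h5 : ∀ i : Fin 2, a (Fin.natAdd M i) = 0 := by
      intro i
      have h6 := hq (Fin.natAdd M i)
      rw [Fin.append_right, h4, zero_mul] at h6
      exact_mod_cast h6
    rw [h5, h5] at h0
    omega
  have e1 : gord v (low a) = L := by
    by_contra hne
    have hlt : L < gord v (low a) := lt_of_le_of_ne hLv (Ne.symm hne)
    have hf0 : ∀ j : Fin r, ¬ face (exyz v) a j.succ := by
      intro j hj
      unfold face at hj
      rw [sum_succ v a j] at hj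
      have := gord_le v (low a) j
      omega
    obtain ⟨q, hq⟩ := hray (Fin.append (fun i => (low a i : ℚ)) fun _ => 0) (by
      intro i hi
      refine Fin.addCases (fun i => ?_) (fun i => ?_) i (motive := fun i => a i = 0 →
        (Fin.append (fun i => (low a i : ℚ)) (fun _ => 0) : Fin (M + 2) → ℚ) i = 0) hi
      · intro h
        rw [Fin.append_left]
        have : low a i = 0 := h
        rw [this, Nat.cast_zero]
      · intro _
        rw [Fin.append_right]) (by
      have hz : ∀ j, face (exyz v) a j → ∑ i, (Fin.append (fun i => (low a i : ℚ))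
          (fun _ => 0) : Fin (M + 2) → ℚ) i * (exyz v j i : ℚ) = 0 := by
        intro j hj
        induction j using Fin.cases with
        | zero => rw [sumR_zero, Fin.append_right, Fin.append_right, add_zero]
        | succ j => exact absurd hj (hf0 j)
      intro j j' hj hj'
      rw [hz j hj, hz j' hj'])
    obtain ⟨i, hi⟩ : ∃ i : Fin 2, a (Fin.natAdd M i) ≠ 0 := by
      by_contra hcon
      push Not at hcon
      rw [hcon, hcon] at e0
      omega
    have h3 := hq (Fin.natAdd M i)
    rw [Fin.append_right] at h3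
    have h4 : q = 0 := by
      rcases mul_eq_zero.1 h3.symm with h5 | h5
      · exact h5
      · exact absurd (by exact_mod_cast h5) hi
    have h5 : ∀ i, low a i = 0 := by
      intro i
      have h6 := hq (Fin.castAdd 2 i)
      rw [Fin.append_left, h4, zero_mul] at h6
      exact_mod_cast h6
    have h6 := hj1
    rw [Finset.sum_eq_zero (fun i _ => by rw [h5, zero_mul])] at h6
    omega
  have e2 : a (Fin.natAdd M 0) = 0 ∨ a (Fin.natAdd M 1) = 0 := by
    by_contra hcon
    push Not at hcon
    obtain ⟨q, hq⟩ := hray (Fin.append (fun _ => 0) ![1, -1]) (by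
      intro i hi
      refine Fin.addCases (fun i => ?_) (fun i => ?_) i (motive := fun i => a i = 0 →
        (Fin.append (fun _ => (0 : ℚ)) ![1, -1] : Fin (M + 2) → ℚ) i = 0) hi
      · intro _
        rw [Fin.append_left]
      · intro h
        exfalso
        fin_cases i
        · exact hcon.1 h
        · exact hcon.2 h) (by
      have hz : ∀ j, ∑ i, (Fin.append (fun _ => (0 : ℚ)) ![1, -1] : Fin (M + 2) → ℚ) i *
          (exyz v j i : ℚ) = 0 := by
        intro j
        induction j using Fin.cases with
        | zero =>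
          rw [sumR_zero, Fin.append_right, Fin.append_right]
          norm_num
        | succ j =>
          rw [sumR_succ]
          refine Finset.sum_eq_zero fun i _ => ?_
          rw [Fin.append_left, zero_mul]
      intro j j' _ _
      rw [hz j, hz j'])
    have h3 := hq (Fin.natAdd M 0)
    have h4 := hq (Fin.natAdd M 1)
    rw [Fin.append_right] at h3 h4
    have h5 : (0 : ℚ) < a (Fin.natAdd M 0) := by
      exact_mod_cast Nat.pos_of_ne_zero hcon.1
    have h6 : (0 : ℚ) < a (Fin.natAdd M 1) := by
      exact_mod_cast Nat.pos_of_ne_zero hcon.2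
    simp only [Matrix.cons_val_zero, Matrix.cons_val_one] at h3 h4
    have h7 : 0 < q := by
      by_contra h8
      push Not at h8
      have := mul_nonpos_of_nonpos_of_nonneg h8 h5.le
      linarith
    have := mul_pos h7 h6
    linarith
  refine ⟨⟨?_, ?_⟩, e1, e0, e2, ?_⟩
  · intro h
    have h2 := hj1
    rw [h, Finset.sum_eq_zero (fun i _ => by rw [Pi.zero_apply, zero_mul])] at h2
    rw [h] at e1
    omega
  · intro w hw hconst
    -- the common value
    set s : ℚ := ∑ i, w i * (v j1 i : ℚ) with hs
    have hfv : ∀ j, face v (low a) j → ∑ i, w i * (v j i : ℚ) = s := fun j hj =>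
      hconst j j1 hj hj1
    have hfs : ∀ j : Fin r, face (exyz v) a j.succ → face v (low a) j := by
      intro j hj
      unfold face at hj ⊢
      rw [sum_succ v a j] at hj
      rw [hj, e1]
    obtain ⟨q, hq⟩ := hray (Fin.append w fun i => if a (Fin.natAdd M i) = 0 then 0 else s) (by
      intro i hi
      refine Fin.addCases (fun i => ?_) (fun i => ?_) i (motive := fun i => a i = 0 →
        (Fin.append w (fun i => if a (Fin.natAdd M i) = 0 then 0 else s) : Fin (M + 2) → ℚ) i = 0)
        hi
      · intro h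
        rw [Fin.append_left]
        exact hw i h
      · intro h
        rw [Fin.append_right, if_pos h]) (by
      have hz : ∀ j, face (exyz v) a j → ∑ i, (Fin.append w
          (fun i => if a (Fin.natAdd M i) = 0 then 0 else s) : Fin (M + 2) → ℚ) i *
            (exyz v j i : ℚ) = s := by
        intro j hj
        induction j using Fin.cases with
        | zero =>
          rw [sumR_zero, Fin.append_right, Fin.append_right]
          rcases e2 with h2 | h2
          · rw [if_pos h2, zero_add, if_neg (by omega)]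
          · rw [if_pos h2, add_zero, if_neg (by omega)]
        | succ j =>
          rw [sumR_succ]
          refine Eq.trans (Finset.sum_congr rfl fun i _ => ?_) (hfv j (hfs j hj))
          rw [Fin.append_left]
      intro j j' hj hj'
      rw [hz j hj, hz j' hj'])
    refine ⟨q, fun i => ?_⟩
    have h3 := hq (Fin.castAdd 2 i)
    rw [Fin.append_left] at h3
    exact h3
  · rw [sum_tot, e0]

/-- **Common direction**: the facets of the level `σ` are simplices or B1 in one direction. -/
def LocC {R : Type} [CommRing R] (v : Fin r → Fin M → ℕ) (h : MvPolynomial (Fin M) R)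
    (σ : ℚ) : Prop :=
  ∃ i, ∀ a : Fin M → ℕ, IsRay v a → 0 < gord v a → lev v a = σ → SimH v h a ∨ BD v h i a

theorem LocC.locS {R : Type} [CommRing R] {v : Fin r → Fin M → ℕ} {h : MvPolynomial (Fin M) R}
    {σ : ℚ} (hC : LocC v h σ) : LocS v h σ := by
  obtain ⟨i, hi⟩ := hC
  exact fun j1 => ⟨i, fun a ha hg _ hs => hi a ha hg hs⟩

/-- the polynomial `h` in the variables with `y`, `z` -/
noncomputable def up {R : Type} [CommRing R] (h : MvPolynomial (Fin M) R) :
    MvPolynomial (Fin (M + 2)) R := rename (Fin.castAdd 2) h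

theorem mem_up {R : Type} [CommRing R] {h : MvPolynomial (Fin M) R} {w : Fin (M + 2) →₀ ℕ}
    (hw : w ∈ (up h).support) : ∃ w' ∈ h.support, (∀ i, w (Fin.castAdd 2 i) = w' i) ∧
      ∀ i, w (Fin.natAdd M i) = 0 := by
  classical
  unfold up at hw
  rw [support_rename_of_injective (Fin.castAdd_injective _ _), Finset.mem_image] at hw
  obtain ⟨w', h1, rfl⟩ := hw
  refine ⟨w', h1, fun i => Finsupp.mapDomain_apply (Fin.castAdd_injective _ _) _ _, fun i => ?_⟩
  apply Finsupp.mapDomain_of_notMem_range
  rintro ⟨j, hj⟩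
  have := congrArg Fin.val hj
  simp only [Fin.val_castAdd, Fin.val_natAdd] at this
  have := j.2
  omega

theorem up_sum {w : Fin (M + 2) →₀ ℕ} {w' : Fin M →₀ ℕ} (h1 : ∀ i, w (Fin.castAdd 2 i) = w' i)
    (h2 : ∀ i, w (Fin.natAdd M i) = 0) (a : Fin (M + 2) → ℕ) :
    ∑ x, a x * w x = ∑ x, low a x * w' x := by
  rw [Fin.sum_univ_add]
  conv_lhs => rw [Finset.sum_eq_zero (s := Finset.univ (α := Fin 2)) (fun i _ => by
    rw [h2, mul_zero]), add_zero]
  exact Finset.sum_congr rfl fun i _ => by rw [h1]; rfl

theorem np_up {R : Type} [CommRing R] {v : Fin r → Fin M → ℕ} {h : MvPolynomial (Fin M) R}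
    (hh : ∀ w ∈ h.support, NP v w) : ∀ w ∈ (up h).support, NP (exyz v) w := by
  intro w hw
  obtain ⟨w', h1, h2, h3⟩ := mem_up hw
  obtain ⟨l, h4, h5, h6⟩ := hh w' h1
  refine ⟨Fin.cons 0 l, fun j => ?_, ?_, fun i => ?_⟩
  · refine Fin.cases ?_ (fun j => ?_) j
    · rw [Fin.cons_zero]
    · rw [Fin.cons_succ]
      exact h4 j
  · rw [Fin.sum_univ_succ, Fin.cons_zero, zero_add]
    simp only [Fin.cons_succ]
    exact h5
  · rw [Fin.sum_univ_succ, Fin.cons_zero, zero_mul, zero_add]
    simp only [Fin.cons_succ]
    refine Fin.addCases (fun i => ?_) (fun i => ?_) i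
    · rw [h2]
      refine le_trans (le_of_eq (Finset.sum_congr rfl fun j _ => ?_)) (h6 i)
      rw [exyz_succ_l]
    · rw [h3]
      refine le_of_eq ?_
      rw [Nat.cast_zero]
      refine Finset.sum_eq_zero fun j _ => ?_
      rw [exyz_succ_r, Nat.cast_zero, mul_zero]

theorem exyz_inj {v : Fin r → Fin M → ℕ} (hv : Function.Injective v) :
    Function.Injective (exyz v) := by
  intro j j'
  refine Fin.cases ?_ (fun j => ?_) j <;> refine Fin.cases ?_ (fun j' => ?_) j'
  · intro _
    rfl
  · intro h
    have := congrFun h (Fin.natAdd M 0)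
    rw [exyz_zero_r, exyz_succ_r] at this
    omega
  · intro h
    have := congrFun h (Fin.natAdd M 0)
    rw [exyz_zero_r, exyz_succ_r] at this
    omega
  · intro h
    congr 1
    apply hv
    funext i
    have := congrFun h (Fin.castAdd 2 i)
    rwa [exyz_succ_l, exyz_succ_l] at this

theorem exyz_ne {v : Fin r → Fin M → ℕ} (hv : ∀ j, v j ≠ 0) : ∀ j, exyz v j ≠ 0 := by
  intro j
  refine Fin.cases ?_ (fun j => ?_) j
  · intro h
    have := congrFun h (Fin.natAdd M 0)
    rw [exyz_zero_r] at this
    simp at this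
  · intro h
    apply hv j
    funext i
    have := congrFun h (Fin.castAdd 2 i)
    rwa [exyz_succ_l] at this

/-- the level goes up by one -/
theorem lev_exyz (hr : 0 < r) (v : Fin r → Fin M → ℕ) {a : Fin (M + 2) → ℕ}
    (ha : IsRay (exyz v) a) (hg : 0 < gord (exyz v) a) :
    lev (exyz v) a = lev v (low a) + 1 := by
  obtain ⟨-, h1, -, -, h2⟩ := ray_exyz hr v ha hg
  unfold lev
  rw [h2, h1, Nat.cast_add, add_div, div_self]
  exact_mod_cast hg.ne'

/-- **The condition for `G + y z`.** -/
theorem locS_exyz {R : Type} [CommRing R] (hr : 0 < r) {v : Fin r → Fin M → ℕ}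
    {h : MvPolynomial (Fin M) R} {σ : ℚ} (hC : LocC v h σ) : LocS (exyz v) (up h) (σ + 1) := by
  classical
  obtain ⟨i, hi⟩ := hC
  intro j1
  refine ⟨Fin.castAdd 2 i, fun a ha hg _ hs => ?_⟩
  have hlev := lev_exyz hr v ha hg
  obtain ⟨h1, h2, h3, h4, h5⟩ := ray_exyz hr v ha hg
  have hs' : lev v (low a) = σ := by
    have h6 : lev (exyz v) a = σ + 1 := hs
    rw [hlev] at h6
    linarith
  have hfs : ∀ j : Fin r, face (exyz v) a j.succ ↔ face v (low a) j := by
    intro j
    unfold face
    rw [sum_succ v a j, h2]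
  rcases hi (low a) h1 (by rw [h2]; exact hg) hs' with ⟨h6, h7⟩ | ⟨h6, j0, h7, h8, h9, h10⟩
  · left
    refine ⟨fun w hw hsum => ?_, fun w hw hwa => ?_⟩
    · -- the coefficient of `y z`
      have h0 : w 0 = 0 := by
        obtain ⟨x, hx⟩ : ∃ x : Fin 2, a (Fin.natAdd M x) ≠ 0 := by
          by_contra hcon
          push Not at hcon
          rw [hcon, hcon] at h3
          omega
        have h11 := hsum (Fin.natAdd M x) hx
        rw [Fin.sum_univ_succ, exyz_zero_r, Finset.sum_eq_zero (fun j _ => by
          rw [exyz_succ_r, Nat.cast_zero, mul_zero]), add_zero, Nat.cast_one, mul_one] at h11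
        exact h11
      have h12 := h6 (fun j => w j.succ) (fun j hj => hw _ (fun h => hj ((hfs j).1 h)))
        (fun x hx => by
          have h11 := hsum (Fin.castAdd 2 x) hx
          rw [Fin.sum_univ_succ, h0, zero_mul, zero_add] at h11
          rw [← h11]
          exact Finset.sum_congr rfl fun j _ => by rw [exyz_succ_l])
      intro j
      exact Fin.cases h0 h12 j
    · obtain ⟨w', hw1, hw2, hw3⟩ := mem_up hw
      rw [up_sum hw2 hw3, ← h2] at hwa
      obtain ⟨l, l1, l2, l3, l4⟩ := h7 w' hw1 hwa
      refine ⟨Fin.cons 0 l, fun j => ?_, fun j hj => absurd (Finset.mem_univ j) hj, ?_,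
        fun x => ?_⟩
      · refine Fin.cases ?_ (fun j => ?_) j
        · rw [Fin.cons_zero]
        · rw [Fin.cons_succ]
          exact l1 j
      · rw [Fin.sum_univ_succ, Fin.cons_zero, zero_add]
        simp only [Fin.cons_succ]
        exact l3
      · rw [Fin.sum_univ_succ, Fin.cons_zero, zero_mul, zero_add]
        simp only [Fin.cons_succ]
        refine Fin.addCases (fun x => ?_) (fun x => ?_) x
        · rw [hw2, ← l4 x]
          exact Finset.sum_congr rfl fun j _ => by rw [exyz_succ_l]
        · rw [hw3, Nat.cast_zero]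
          refine Finset.sum_eq_zero fun j _ => ?_
          rw [exyz_succ_r, Nat.cast_zero, mul_zero]
  · right
    refine ⟨h6, j0.succ, (hfs j0).2 h7, ?_, fun j => ?_, fun w hw hwa => ?_⟩
    · rw [exyz_succ_l]
      exact h8
    · refine Fin.cases ?_ (fun j => ?_) j
      · intro _ _
        exact exyz_zero_l v i
      · intro hj hne
        rw [exyz_succ_l]
        exact h9 j ((hfs j).1 hj) (fun h => hne (by rw [h]))
    · obtain ⟨w', hw1, hw2, hw3⟩ := mem_up hw
      rw [up_sum hw2 hw3, ← h2] at hwa
      rcases h10 w' hw1 hwa with h11 | h11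
      · left
        rw [hw2]
        exact h11
      · right
        intro x
        refine Fin.addCases (fun x => ?_) (fun x => ?_) x
        · rw [hw2, exyz_succ_l]
          exact h11 x
        · rw [hw3, exyz_succ_r]

end Pool.Agent.X271.MG
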