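import Pool.Agent.X271.NdRay
import Pool.Agent.X271.MotMain

set_option autoImplicit false
set_option linter.unusedVariables false

/-! Motivic zeta functions of stably nondegenerate polynomials, roots modulo integers. -/

namespace Pool.Agent.X271.ND

open MvPolynomial Pool.Agent.H628R4.TP Pool.Agent.W425.MM
open Pool.Agent.W425.ND (spa Nondeg prodb prodb_eval parts)
open Pool.Agent.W426.SM (gord face)
open Pool.Agent.W803.SM (gord_le exists_gord)
open Pool.Agent.W425.SG (UnitEq)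
open Pool.Agent.TH216.HD
open Pool.Agent.TH216.MC (HB both pos_of_ray)
open Pool.Agent.TH216.ND
open Pool.Agent.W428.MOT (Pt Constr ratRing sp Lu MK)
open Pool.Agent.W375.MG (zetaG Good ratRing_mono)
open Pool.Agent.Y229.MS
open Pool.Agent.X271.MG (low exyz_zero_l exyz_zero_r exyz_succ_l exyz_succ_r sumR_zero sumR_succ
  sum_succ ray_exyz exyz_inj lev_exyz exyz_ne)

variable {r N M : ℕ}

/-- **The refined theorem for nondegenerate polynomials.** -/
theorem nd_fst {k : Type} [Field k] [Algebra k ℂ] (hr : 0 < r) (loc : Prop)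
    (v : Fin r → Fin N → ℕ) (hv : Function.Injective v) (c : Fin r → k) (hc : ∀ j, c j ≠ 0)
    (hnd : Nondegenerate v (fun j => algebraMap k ℂ (c j))) (V : Finset (Fin r))
    (hV : Spans v V) :
    ∃ S : Finset (ℤ × ℤ),
      (∀ p ∈ S, ∃ a : Fin N → ℕ, IsRay v a ∧ 0 < ordA v a ∧
        p = (-((∑ i, a i : ℕ) : ℤ), (ordA v a : ℤ)) ∧
        (LocV v V (lev v a) → PW loc (spa v (fun j => algebraMap k ℂ (c j))) (-(lev v a)))) ∧
      ∀ (K : Type) [Field K] [Algebra k K] (W : Set (Pt K (Fin N)))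
        (E : Set (AlgebraicClosure K)), Constr W → Good E →
        fst' K * zetaG (spa v (fun j => algebraMap k K (c j))) W E ∈ ratRing K S := by
  classical
  have hne : NeZero r := ⟨by omega⟩
  have hkc : CharZero k := RingHom.charZero (algebraMap k ℂ)
  have hnd' : Nondeg v (fun j => algebraMap k ℂ (c j)) := hnd
  obtain ⟨S, hS, hz1⟩ := Pool.Agent.Y824.MS.four v hr _ (hb_nd hr v hv V hV
    (PW loc (spa v (fun j => algebraMap k ℂ (c j))))
    (fun α hα => rel_nd hr loc v hv _ hnd' V α hα))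
  have hspa : ∀ {K : Type} [Field K] (c' : Fin r → K), spa v c' = sp 0 v c' 1 := by
    intro K _ c'
    unfold sp spa
    simp
  refine ⟨S, fun p hp => ?_, fun K _ _ W E hW hE => ?_⟩
  · obtain ⟨a, ha, hg, hn, h3⟩ := hS p hp
    refine ⟨a, ha, hg, h3, fun hL => ?_⟩
    by_contra hcon
    exact hn ⟨hL, hcon⟩
  · have hK : CharZero K := charZero_of_injective_algebraMap (algebraMap k K).injective
    rw [hspa]
    exact hz1 K _ (nonG_of Pool.Agent.W67.MM.taskB1 k K v c hr hnd')
      (fun j => (map_ne_zero _).2 (hc j)) W E hW hE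

/-- non-B1 simplices -/
theorem nd_nonB (hr : 0 < r) (loc : Prop) (v : Fin r → Fin N → ℕ) (hv : Function.Injective v)
    (c : Fin r → ℂ) (hnd : Nondegenerate v c) (a' : Fin N → ℕ) (hg' : 0 < ordA v a')
    (hN : NonB1 v loc a') : PW loc (spa v c) (-(lev v a')) := by
  have hne : NeZero r := ⟨by omega⟩
  intro b hb hU
  obtain ⟨K, hK⟩ := relAll parts loc v _ hv hnd b hU
  have h1 := a5 v loc (prodb b K) hK a' hg' hN
  rw [prodb_eval, Finset.prod_eq_zero_iff] at h1
  obtain ⟨i, -, hi⟩ := h1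
  refine ⟨(i : ℤ), ?_⟩
  have h3 : ((-(lev v a') : ℚ) : ℂ) - ((i : ℤ) : ℂ) =
      -(((∑ i, a' i : ℕ) : ℂ) / gord v a') - i := by
    unfold lev
    push_cast
    rfl
  rw [h3]
  exact hi

/-- **Stably nondegenerate polynomials.** -/
theorem core {k : Type} [Field k] [Algebra k ℂ] {n κ r : ℕ} (hr : 0 < r) (loc : Prop)
    (v : Fin r → Fin (n + (κ + κ)) → ℕ) (hv : Function.Injective v)
    (c : Fin r → k) (hc : ∀ j, c j ≠ 0)
    (hnd : Nondegenerate v (fun j => algebraMap k ℂ (c j))) (V : Finset (Fin r))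
    (hV : Spans v V) (hC : HypCV loc v V)
    (f : MvPolynomial (Fin n) k)
    (φ : MvPolynomial (Fin (n + (κ + κ))) k ≃ₐ[k] MvPolynomial (Fin (n + (κ + κ))) k)
    (hφ : φ (stabK f κ) = spa v c)
    (B : Polynomial ℂ → Prop)
    (hB : ∀ b, B b → b.eval (-1) = 0 ∧ ∀ c' : Polynomial ℂ, b = (Polynomial.X + 1) * c' →
      UnitEq loc (spa v (fun j => algebraMap k ℂ (c j)))
        ((Polynomial.X + 1) * c'.comp (Polynomial.X + Polynomial.C (κ : ℂ))) ∧
      UnitEq loc (spa (exyz v) (cyz fun j => algebraMap k ℂ (c j)))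
        ((Polynomial.X + 1) * (c'.comp (Polynomial.X + Polynomial.C (κ : ℂ))).comp
          (Polynomial.X + Polynomial.C ((1 : ℕ) : ℂ)))) :
    ∃ S : Finset (ℤ × ℤ),
      (∀ p ∈ S, (p = (-1, 1) ∨ ∃ a : Fin (n + (κ + κ)) → ℕ, IsRay v a ∧
          0 < ordA v a ∧ p = (-((∑ i, a i : ℕ) : ℤ) + κ * (ordA v a : ℤ), (ordA v a : ℤ))) ∧
        ∀ b : Polynomial ℂ, B b → ∃ i : ℤ, b.eval ((p.1 : ℂ) / p.2 - i) = 0) ∧
      ∀ (K : Type) [Field K] [Algebra k K] (W : Set (Pt K (Fin n)))
        (E : Set (AlgebraicClosure K)), Constr W → Good E →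
        zetaG (map (algebraMap k K) f) W E ∈ ratRing K S := by
  classical
  have hkc : CharZero k := RingHom.charZero (algebraMap k ℂ)
  obtain ⟨S1, hS1, hz1⟩ := nd_fst hr loc v hv c hc hnd V hV
  have hcyz : (fun j => algebraMap k ℂ (cyz c j)) = cyz fun j => algebraMap k ℂ (c j) := by
    funext j
    refine Fin.cases ?_ (fun j => ?_) j
    · simp [cyz]
    · simp [cyz]
  obtain ⟨S2, hS2, hz2⟩ := nd_fst (Nat.succ_pos r) loc (exyz v) (exyz_inj hv) (cyz c) (by
    intro j
    refine Fin.cases ?_ (fun j => ?_) j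
    · rw [cyz, Fin.cons_zero]
      exact one_ne_zero
    · rw [cyz, Fin.cons_succ]
      exact hc j) (by
    rw [hcyz]
    exact nondeg_exyz hnd) (upV V) (spans_exyz hV)
  rw [hcyz] at hS2
  -- the levels
  have hrat : ∀ a : Fin (n + (κ + κ)) → ℕ, 0 < ordA v a →
      (((-((∑ i, a i : ℕ) : ℤ) + κ * (ordA v a : ℤ) : ℤ) : ℂ) / ((ordA v a : ℤ) : ℂ)) =
        ((-lev v a : ℚ) : ℂ) + κ := by
    intro a hg
    have h7 : ((ordA v a : ℕ) : ℂ) ≠ 0 := by
      exact_mod_cast (Nat.pos_iff_ne_zero.1 hg)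
    unfold lev
    push_cast
    field_simp
  -- integral levels
  have hint : ∀ (a : Fin (n + (κ + κ)) → ℕ) (z : ℤ), ((-lev v a : ℚ) : ℂ) = z →
      ∀ b : Polynomial ℂ, b.eval (-1) = 0 →
        ∃ i : ℤ, b.eval (((-lev v a : ℚ) : ℂ) + κ - i) = 0 := by
    intro a z hz b hb
    refine ⟨z + κ + 1, ?_⟩
    have h1 : ((-lev v a : ℚ) : ℂ) + κ - ((z + κ + 1 : ℤ) : ℂ) = -1 := by
      rw [hz]
      push_cast
      ring
    rw [h1, hb]
  -- the step from `(s + 1) c(s + κ)` to `(s + 1) c(s)`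
  have hstep : ∀ (a : Fin (n + (κ + κ)) → ℕ) (z : ℤ) (b c' : Polynomial ℂ),
      b.eval (-1) = 0 → b = (Polynomial.X + 1) * c' →
      ((Polynomial.X + 1) * c'.comp (Polynomial.X + Polynomial.C (κ : ℂ))).eval
        (((-lev v a : ℚ) : ℂ) - z) = 0 →
      ∃ i : ℤ, b.eval (((-lev v a : ℚ) : ℂ) + κ - i) = 0 := by
    intro a z b c' hb hbc h8
    rw [Polynomial.eval_mul, Polynomial.eval_comp, Polynomial.eval_add,
      Polynomial.eval_X, Polynomial.eval_one, Polynomial.eval_add, Polynomial.eval_X,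
      Polynomial.eval_C] at h8
    rcases mul_eq_zero.1 h8 with h9 | h9
    · refine hint a (z - 1) ?_ b hb
      push_cast at h9 ⊢
      linear_combination h9
    · refine ⟨z, ?_⟩
      have h10 : ((-lev v a : ℚ) : ℂ) + κ - z = ((-lev v a : ℚ) : ℂ) - z + κ := by ring
      rw [h10, hbc, Polynomial.eval_mul, h9, mul_zero]
  -- the roots
  have hroot : ∀ a : Fin (n + (κ + κ)) → ℕ, IsRay v a → 0 < ordA v a →
      (ComV v V (lev v a) → ∀ b : Polynomial ℂ, B b →
        ∃ i : ℤ, b.eval (((-lev v a : ℚ) : ℂ) + κ - i) = 0) →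
      ∀ b : Polynomial ℂ, B b →
        ∃ i : ℤ, b.eval ((((-((∑ i, a i : ℕ) : ℤ) + κ * (ordA v a : ℤ) : ℤ) : ℂ) /
          ((ordA v a : ℤ) : ℂ)) - i) = 0 := by
    intro a ha hg hL b hb
    rw [hrat a hg]
    obtain ⟨h5, h5'⟩ := hB b hb
    rcases hC a ha hg with ⟨t, ht⟩ | ⟨a', hg', hN, z, hz⟩ | h7
    · refine hint a (-(t : ℤ)) ?_ b h5
      have h7 : ((ordA v a : ℕ) : ℂ) ≠ 0 := by
        exact_mod_cast (Nat.pos_iff_ne_zero.1 hg)
      unfold lev
      rw [ht]
      push_cast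
      field_simp
    · obtain ⟨c', hc'⟩ : (Polynomial.X + 1 : Polynomial ℂ) ∣ b := by
        have := Polynomial.dvd_iff_isRoot.2 h5
        simpa using this
      obtain ⟨i, hi⟩ := nd_nonB hr loc v hv _ hnd a' hg' hN _ (by
        rw [Polynomial.eval_mul, Polynomial.eval_add, Polynomial.eval_X, Polynomial.eval_one]
        norm_num) (h5' c' hc').1
      refine hstep a (i - z) b c' h5 hc' ?_
      have h9 : ((-lev v a : ℚ) : ℂ) - ((i - z : ℤ) : ℂ) = ((-(lev v a') : ℚ) : ℂ) - (i : ℂ) := by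
        rw [hz]
        push_cast
        ring
      rw [h9]
      exact hi
    · exact hL h7 b hb
  set S : Finset (ℤ × ℤ) := insert (-1, 1) (S1.image (fun q => (q.1 + κ * q.2, q.2)) ∪
    S2.image (fun q => (q.1 + ((κ + 1 : ℕ) : ℤ) * q.2, q.2))) with hS
  refine ⟨S, fun p hp => ?_, fun K _ _ W E hW hE => ?_⟩
  · rcases Finset.mem_insert.1 hp with rfl | hp
    · refine ⟨Or.inl rfl, fun b hb => ⟨0, ?_⟩⟩
      have h6 : (((-1 : ℤ) : ℂ) / ((1 : ℤ) : ℂ)) - ((0 : ℤ) : ℂ) = -1 := by norm_num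
      simp only [h6]
      exact (hB b hb).1
    · rcases Finset.mem_union.1 hp with hp | hp
      · obtain ⟨q, hq, rfl⟩ := Finset.mem_image.1 hp
        obtain ⟨a, ha, hg, rfl, hr1⟩ := hS1 q hq
        refine ⟨Or.inr ⟨a, ha, hg, rfl⟩, fun b hb => ?_⟩
        refine hroot a ha hg (fun hL b hb => ?_) b hb
        obtain ⟨h5, h5'⟩ := hB b hb
        obtain ⟨c', hc'⟩ : (Polynomial.X + 1 : Polynomial ℂ) ∣ b := by
          have := Polynomial.dvd_iff_isRoot.2 h5
          simpa using this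
        obtain ⟨i, hi⟩ := hr1 hL.locV _ (by
          rw [Polynomial.eval_mul, Polynomial.eval_add, Polynomial.eval_X, Polynomial.eval_one]
          norm_num) (h5' c' hc').1
        exact hstep a i b c' h5 hc' hi
      · obtain ⟨q, hq, hqp⟩ := Finset.mem_image.1 hp
        obtain ⟨a, ha, hg, hqa, hr1⟩ := hS2 q hq
        obtain ⟨h11, h12, h13, h14, h15⟩ := ray_exyz hr v ha hg
        have h12' : ordA v (low a) = ordA (exyz v) a := h12
        have h15' : ∑ i, a i = ∑ i, low a i + ordA (exyz v) a := h15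
        have hg' : 0 < ordA v (low a) := by rw [h12']; exact hg
        have hpe : p =
            (-((∑ i, low a i : ℕ) : ℤ) + κ * (ordA v (low a) : ℤ), (ordA v (low a) : ℤ)) := by
          rw [← hqp, hqa, h15', h12', Prod.mk.injEq]
          refine ⟨?_, rfl⟩
          push_cast
          ring
        rw [hpe]
        refine ⟨Or.inr ⟨low a, h11, hg', rfl⟩, fun b hb => ?_⟩
        refine hroot (low a) h11 hg' (fun hL b hb => ?_) b hb
        have hlv : lev (exyz v) a = lev v (low a) + 1 := lev_exyz hr v ha hg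
        obtain ⟨h5, h5'⟩ := hB b hb
        obtain ⟨c', hc'⟩ : (Polynomial.X + 1 : Polynomial ℂ) ∣ b := by
          have := Polynomial.dvd_iff_isRoot.2 h5
          simpa using this
        obtain ⟨i, hi⟩ := hr1 (by rw [hlv]; exact locV_exyz hr hL) _ (by
          rw [Polynomial.eval_mul, Polynomial.eval_add, Polynomial.eval_X, Polynomial.eval_one]
          norm_num) (h5' c' hc').2
        rw [hlv, Polynomial.eval_mul, Polynomial.eval_comp, Polynomial.eval_comp,
          Polynomial.eval_add, Polynomial.eval_X, Polynomial.eval_one, Polynomial.eval_add,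
          Polynomial.eval_X, Polynomial.eval_C, Polynomial.eval_add,
          Polynomial.eval_X, Polynomial.eval_C] at hi
        rcases mul_eq_zero.1 hi with h9 | h9
        · refine hint (low a) i ?_ b h5
          push_cast at h9 ⊢
          linear_combination h9
        · refine ⟨i, ?_⟩
          have h10 : ((-lev v (low a) : ℚ) : ℂ) + κ - i =
              ((-(lev v (low a) + 1) : ℚ) : ℂ) - i + ((1 : ℕ) : ℂ) + κ := by
            push_cast
            ring
          rw [h10, hc', Polynomial.eval_mul, h9, mul_zero]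
  · have hK : CharZero K := charZero_of_injective_algebraMap (algebraMap k K).injective
    have hE' : CE E := ce_good hE
    set fK : MvPolynomial (Fin n) K := map (algebraMap k K) f with hfK
    obtain ⟨ψ1, hψ1⟩ := Pool.Agent.Y405.MS.itr K fK κ
    obtain ⟨ψ2, hψ2⟩ := Pool.Agent.Y405.MS.bc k K φ
    set ψ := ψ1.trans ψ2 with hψ
    have e1 : ψ (itr fK κ) = spa v (fun j => algebraMap k K (c j)) := by
      show ψ2 (ψ1 (itr fK κ)) = _
      rw [hψ1, hfK, ← map_stabK, hψ2, hφ, Pool.Agent.X271.MG.map_spa']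
    obtain ⟨ψ', hψ'⟩ := Pool.Agent.Y405.MS.ext K ψ
    have hcyzK : (fun j => algebraMap k K (cyz c j)) = cyz fun j => algebraMap k K (c j) := by
      funext j
      refine Fin.cases ?_ (fun j => ?_) j
      · simp [cyz]
      · simp [cyz]
    have e2 : ψ' (addyz (itr fK κ)) =
        spa (exyz v) (fun j => algebraMap k K (cyz c j)) := by
      rw [hψ', e1, hcyzK, spa_addyz]
    have hW1 : Constr (Witr W κ) := constr_Witr hW κ
    have hW2 : Constr (Wyz (Witr W κ)) := constr_Wyz hW1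
    have z1 := hz1 K _ E (constr_pull ψ hW1) hE
    have z2 := hz2 K _ E (constr_pull ψ' hW2) hE
    rw [← e1, zeta_iso Pool.Agent.Z864.MS.three (by ring) ψ _ hW1 hE'] at z1
    rw [← e2, zeta_iso Pool.Agent.Z864.MS.three (by ring) ψ' _ hW2 hE'] at z2
    have z3 := descend' fK hW hE' κ S1 S2 (fun p hp => by
        obtain ⟨a, ha, hg, rfl, -⟩ := hS1 p hp
        exact Int.natCast_pos.2 hg)
      (fun p hp => by
        obtain ⟨a, ha, hg, rfl, -⟩ := hS2 p hp
        exact Int.natCast_pos.2 hg) z1 z2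
    refine ratRing_mono ?_ (zeta_of_fst fK W E _ z3)
    rintro p (rfl | ⟨q, hq, rfl⟩ | ⟨q, hq, rfl⟩)
    · exact Finset.mem_coe.2 (Finset.mem_insert_self _ _)
    · exact Finset.mem_coe.2 (Finset.mem_insert_of_mem (Finset.mem_union_left _
        (Finset.mem_image_of_mem (fun q : ℤ × ℤ => (q.1 + (κ : ℤ) * q.2, q.2)) hq)))
    · exact Finset.mem_coe.2 (Finset.mem_insert_of_mem (Finset.mem_union_right _
        (Finset.mem_image_of_mem (fun q : ℤ × ℤ => (q.1 + ((κ + 1 : ℕ) : ℤ) * q.2, q.2)) hq)))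

end Pool.Agent.X271.ND
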