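import Pool.Agent.TH216.HDN

set_option autoImplicit false

/-! The condition on the facets for stably nondegenerate polynomials: definitions. -/

namespace Pool.Agent.X271.ND

open MvPolynomial Pool.Agent.TH216.HD

variable {r N n κ : ℕ}

/-- All the facets with `|a| / N_a = σ` are simplices or B1 in one common direction. -/
def ComV (v : Fin r → Fin N → ℕ) (V : Finset (Fin r)) (σ : ℚ) : Prop :=
  ∃ i, ∀ a : Fin N → ℕ, IsRay v a → 0 < ordA v a → lev v a = σ → SimpV v V a ∨ B1V v i a

/-- The condition on the facets: for every ray `a` of the normal fan with `N_a > 0` the number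
`|a| / N_a` is an integer, or it agrees modulo integers with the one of a facet or face which contains
a simplex which is not B1, or all the facets with this `|a| / N_a` are simplices or B1 in one common
direction. -/
def HypCV (loc : Prop) (v : Fin r → Fin N → ℕ) (V : Finset (Fin r)) : Prop :=
  ∀ a : Fin N → ℕ, IsRay v a → 0 < ordA v a → ordA v a ∣ ∑ i, a i ∨
    (∃ a' : Fin N → ℕ, 0 < ordA v a' ∧ NonB1 v loc a' ∧ ∃ z : ℤ, lev v a = lev v a' + z) ∨
    ComV v V (lev v a)

/-- `∑_{π j = i} a_j X ^ (m j)` -/
noncomputable def grp {k : Type} [Field k] (π : Fin r → Fin (κ + 1)) (m : Fin r → Fin n → ℕ)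
    (a : Fin r → k) (i : Fin (κ + 1)) : MvPolynomial (Fin n) k :=
  ∑ j with π j = i, C (a j) * ∏ x, X x ^ m j x

end Pool.Agent.X271.ND
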