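import Pool.Agent.X271.MotRay
import Pool.Agent.X271.NdDef
import Pool.Agent.TH216.ND.Nd2

set_option autoImplicit false
set_option linter.unusedVariables false

/-! Nondegenerate polynomials `G` and `G + y z`. -/

namespace Pool.Agent.X271.ND

open MvPolynomial Pool.Agent.H628R4.TP Pool.Agent.W425.MM
open Pool.Agent.W425.ND (spa Nondeg prodb prodb_eval parts)
open Pool.Agent.W426.SM (gord IsRay face)
open Pool.Agent.W803.SM (gord_le exists_gord)
open Pool.Agent.W425.SG (UnitEq)
open Pool.Agent.TH216.HD hiding IsRay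
open Pool.Agent.TH216.MC (HB both pos_of_ray)
open Pool.Agent.TH216.ND
open Pool.Agent.W428.MOT (Pt Constr ratRing sp)
open Pool.Agent.W375.MG (zetaG Good)
open Pool.Agent.Y229.MS (fst' exyz cyz)
open Pool.Agent.X271.MG (low exyz_zero_l exyz_zero_r exyz_succ_l exyz_succ_r sumR_zero sumR_succ
  sum_succ ray_exyz exyz_inj lev_exyz)

variable {r N M : ℕ}

theorem ComV.locV {v : Fin r → Fin N → ℕ} {V : Finset (Fin r)} {σ : ℚ} (h : ComV v V σ) :
    LocV v V σ := by
  obtain ⟨i, hi⟩ := h
  exact fun j1 _ => ⟨i, fun a ha hg _ hs => hi a ha hg hs⟩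

/-- the exponents `V` of `G`, and `y z` -/
noncomputable def upV (V : Finset (Fin r)) : Finset (Fin (r + 1)) :=
  insert 0 (V.map (Fin.succEmb r))

theorem mem_upV (V : Finset (Fin r)) (j : Fin r) : j.succ ∈ upV V ↔ j ∈ V := by
  unfold upV
  rw [Finset.mem_insert, Finset.mem_map]
  constructor
  · rintro (h | ⟨j', h1, h2⟩)
    · exact absurd h (Fin.succ_ne_zero j)
    · have h3 : j' = j := Fin.succ_injective _ h2
      rw [← h3]
      exact h1
  · exact fun h => Or.inr ⟨j, h, rfl⟩

theorem zero_mem_upV (V : Finset (Fin r)) : (0 : Fin (r + 1)) ∈ upV V :=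
  Finset.mem_insert_self _ _

theorem hullV_exyz {v : Fin r → Fin M → ℕ} {V : Finset (Fin r)} {j : Fin r}
    (h : HullV v V j) : HullV (exyz v) (upV V) j.succ := by
  obtain ⟨l, h1, h2, h3, h4⟩ := h
  refine ⟨Fin.cons 0 l, fun k => ?_, fun k hk => ?_, ?_, fun i => ?_⟩
  · refine Fin.cases ?_ (fun k => ?_) k
    · rw [Fin.cons_zero]
    · rw [Fin.cons_succ]
      exact h1 k
  · revert hk
    refine Fin.cases ?_ (fun k => ?_) k
    · intro _
      rw [Fin.cons_zero]
    · intro hk
      rw [Fin.cons_succ]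
      exact h2 k fun h => hk ((mem_upV V k).2 h)
  · rw [Fin.sum_univ_succ, Fin.cons_zero, zero_add]
    simp only [Fin.cons_succ]
    exact h3
  · rw [Fin.sum_univ_succ, Fin.cons_zero, zero_mul, zero_add]
    simp only [Fin.cons_succ]
    refine Fin.addCases (fun i => ?_) (fun i => ?_) i
    · rw [exyz_succ_l, ← h4 i]
      exact Finset.sum_congr rfl fun k _ => by rw [exyz_succ_l]
    · rw [exyz_succ_r, Nat.cast_zero]
      refine Finset.sum_eq_zero fun k _ => ?_
      rw [exyz_succ_r, Nat.cast_zero, mul_zero]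

theorem spans_exyz {v : Fin r → Fin M → ℕ} {V : Finset (Fin r)} (h : Spans v V) :
    Spans (exyz v) (upV V) := by
  intro j
  refine Fin.cases ?_ (fun j => ?_) j
  · refine ⟨Pi.single 0 1, fun k => ?_, fun k hk => ?_, ?_, fun i => ?_⟩
    · by_cases hk : k = 0
      · subst hk
        rw [Pi.single_eq_same]
        exact zero_le_one
      · rw [Pi.single_eq_of_ne hk]
    · refine Pi.single_eq_of_ne ?_ _
      rintro rfl
      exact hk (zero_mem_upV V)
    · rw [Finset.sum_pi_single', if_pos (Finset.mem_univ _)]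
    · rw [Finset.sum_eq_single (0 : Fin (r + 1))]
      · rw [Pi.single_eq_same, one_mul]
      · intro k _ hk
        rw [Pi.single_eq_of_ne hk, zero_mul]
      · intro h0
        exact absurd (Finset.mem_univ _) h0
  · obtain ⟨l, h1, h2, h3, h4⟩ := h j
    refine ⟨Fin.cons 0 l, fun k => ?_, fun k hk => ?_, ?_, fun i => ?_⟩
    · refine Fin.cases ?_ (fun k => ?_) k
      · rw [Fin.cons_zero]
      · rw [Fin.cons_succ]
        exact h1 k
    · revert hk
      refine Fin.cases ?_ (fun k => ?_) k
      · intro _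
        rw [Fin.cons_zero]
      · intro hk
        rw [Fin.cons_succ]
        exact h2 k fun h => hk ((mem_upV V k).2 h)
    · rw [Fin.sum_univ_succ, Fin.cons_zero, zero_add]
      simp only [Fin.cons_succ]
      exact h3
    · rw [Fin.sum_univ_succ, Fin.cons_zero, zero_mul, zero_add]
      simp only [Fin.cons_succ]
      refine Fin.addCases (fun i => ?_) (fun i => ?_) i
      · rw [exyz_succ_l]
        refine le_trans (le_of_eq (Finset.sum_congr rfl fun k _ => ?_)) (h4 i)
        rw [exyz_succ_l]
      · rw [exyz_succ_r, Nat.cast_zero]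
        refine le_of_eq (Finset.sum_eq_zero fun k _ => ?_)
        rw [exyz_succ_r, Nat.cast_zero, mul_zero]

/-- **The condition for `G + y z`.** -/
theorem locV_exyz (hr : 0 < r) {v : Fin r → Fin M → ℕ} {V : Finset (Fin r)} {σ : ℚ}
    (hC : ComV v V σ) : LocV (exyz v) (upV V) (σ + 1) := by
  classical
  obtain ⟨i, hi⟩ := hC
  intro j1 _
  refine ⟨Fin.castAdd 2 i, fun a ha hg _ hs => ?_⟩
  have hlev := lev_exyz hr v ha hg
  obtain ⟨h1, h2, h3, h4, h5⟩ := ray_exyz hr v ha hg
  have hs' : lev v (low a) = σ := by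
    have h6 : Pool.Agent.X271.MG.lev (exyz v) a = σ + 1 := hs
    rw [hlev] at h6
    have h7 : Pool.Agent.X271.MG.lev v (low a) = σ := by linarith
    exact h7
  have hfs : ∀ j : Fin r, OnFace (exyz v) a j.succ ↔ OnFace v (low a) j := by
    intro j
    have e1 : ordA v (low a) = ordA (exyz v) a := h2
    unfold OnFace
    rw [sum_succ v a j, e1]
  have hg' : 0 < ordA v (low a) := by
    have e1 : ordA v (low a) = ordA (exyz v) a := h2
    rw [e1]
    exact hg
  rcases hi (low a) h1 hg' hs' with ⟨h6, h7⟩ | ⟨h6, j0, h7, h8, h9⟩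
  · left
    refine ⟨fun w hw hsum => ?_, fun j hj => ?_⟩
    · have h0 : w 0 = 0 := by
        obtain ⟨x, hx⟩ : ∃ x : Fin 2, a (Fin.natAdd M x) ≠ 0 := by
          by_contra hcon
          push Not at hcon
          rw [hcon, hcon] at h3
          have : 0 < gord (exyz v) a := hg
          omega
        have h11 := hsum (Fin.natAdd M x) hx
        rw [Fin.sum_univ_succ, exyz_zero_r, Finset.sum_eq_zero (fun j _ => by
          rw [exyz_succ_r, Nat.cast_zero, mul_zero]), add_zero, Nat.cast_one, mul_one] at h11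
        exact h11
      have h12 := h6 (fun j => w j.succ)
        (fun j hj => hw _ (fun h => hj ⟨(mem_upV V j).1 h.1, (hfs j).1 h.2⟩))
        (fun x hx => by
          have h11 := hsum (Fin.castAdd 2 x) hx
          rw [Fin.sum_univ_succ, h0, zero_mul, zero_add] at h11
          rw [← h11]
          exact Finset.sum_congr rfl fun j _ => by rw [exyz_succ_l])
      intro j
      exact Fin.cases h0 h12 j
    · revert hj
      refine Fin.cases ?_ (fun j => ?_) j
      · intro _
        refine ⟨Pi.single 0 1, fun k => ?_, fun k hk => ?_, ?_, fun i => ?_⟩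
        · by_cases hk : k = 0
          · subst hk
            rw [Pi.single_eq_same]
            exact zero_le_one
          · rw [Pi.single_eq_of_ne hk]
        · refine Pi.single_eq_of_ne ?_ _
          rintro rfl
          exact hk (zero_mem_upV V)
        · rw [Finset.sum_pi_single', if_pos (Finset.mem_univ _)]
        · rw [Finset.sum_eq_single (0 : Fin (r + 1))]
          · rw [Pi.single_eq_same, one_mul]
          · intro k _ hk
            rw [Pi.single_eq_of_ne hk, zero_mul]
          · intro h0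
            exact absurd (Finset.mem_univ _) h0
      · intro hj
        exact hullV_exyz (h7 j ((hfs j).1 hj))
  · right
    refine ⟨h6, j0.succ, (hfs j0).2 h7, ?_, fun j => ?_⟩
    · rw [exyz_succ_l]
      exact h8
    · refine Fin.cases ?_ (fun j => ?_) j
      · intro _ _
        exact exyz_zero_l v i
      · intro hj hne
        rw [exyz_succ_l]
        exact h9 j ((hfs j).1 hj) (fun h => hne (by rw [h]))

/-- **`G + y z` is nondegenerate.** -/
theorem nondeg_exyz {v : Fin r → Fin M → ℕ} {c : Fin r → ℂ} (h : Nondegenerate v c) :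
    Nondegenerate (exyz v) (cyz c) := by
  classical
  intro w z hz
  rintro ⟨h1, h2⟩
  -- the monomial `y z` is not in the face
  have h0 : ¬ MinAt (exyz v) w 0 := by
    intro hm
    have h3 := h2 (Fin.natAdd M 0)
    rw [Fin.sum_univ_succ, if_pos hm, Finset.sum_eq_zero] at h3
    · rw [add_zero, exyz_zero_r, Nat.cast_one, mul_one, cyz, Fin.cons_zero, one_mul] at h3
      exact Finset.prod_ne_zero_iff.2 (fun i _ => pow_ne_zero _ (hz i)) h3
    · intro j _
      split_ifs
      · rw [exyz_succ_r, Nat.cast_zero, mul_zero, zero_mul]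
      · rfl
  have hS : ∀ j : Fin r, ∑ i, w i * (exyz v j.succ i : ℝ) =
      ∑ i, (fun i => w (Fin.castAdd 2 i)) i * (v j i : ℝ) := fun j => sumR_succ v w j
  have hex : (∃ j : Fin r, MinAt (exyz v) w j.succ) := by
    obtain ⟨j, -, hj⟩ := Finset.exists_min_image (Finset.univ : Finset (Fin (r + 1)))
      (fun j => ∑ i, w i * (exyz v j i : ℝ)) ⟨0, Finset.mem_univ _⟩
    have hj' : MinAt (exyz v) w j := fun j' => hj j' (Finset.mem_univ _)
    revert hj'
    refine Fin.cases ?_ (fun j => ?_) j
    · intro hj'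
      exact absurd hj' h0
    · intro hj'
      exact ⟨j, hj'⟩
  obtain ⟨j1, hj1⟩ := hex
  have hmin : ∀ j : Fin r, MinAt (exyz v) w j.succ ↔
      MinAt v (fun i => w (Fin.castAdd 2 i)) j := by
    intro j
    constructor
    · intro hm j'
      have := hm j'.succ
      rwa [hS, hS] at this
    · intro hm j'
      refine le_trans ?_ (hj1 j')
      rw [hS, hS]
      exact hm j1
  refine h (fun i => w (Fin.castAdd 2 i)) (fun i => z (Fin.castAdd 2 i)) (fun i => hz _) ⟨?_, ?_⟩
  · rw [Fin.sum_univ_succ, if_neg h0, zero_add] at h1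
    refine Eq.trans (Finset.sum_congr rfl fun j _ => ?_) h1
    by_cases hj : MinAt (exyz v) w j.succ
    · rw [if_pos hj, if_pos ((hmin j).1 hj), cyz, Fin.cons_succ, Fin.prod_univ_add]
      simp only [exyz_succ_l, exyz_succ_r, pow_zero, Finset.prod_const_one, mul_one]
    · rw [if_neg hj, if_neg fun hh => hj ((hmin j).2 hh)]
  · intro i
    have h3 := h2 (Fin.castAdd 2 i)
    rw [Fin.sum_univ_succ, if_neg h0, zero_add] at h3
    refine Eq.trans (Finset.sum_congr rfl fun j _ => ?_) h3
    by_cases hj : MinAt (exyz v) w j.succ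
    · rw [if_pos hj, if_pos ((hmin j).1 hj), cyz, Fin.cons_succ, Fin.prod_univ_add]
      simp only [exyz_succ_l, exyz_succ_r, pow_zero, Finset.prod_const_one, mul_one]
    · rw [if_neg hj, if_neg fun hh => hj ((hmin j).2 hh)]

end Pool.Agent.X271.ND
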