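import Mathlib

/-!
# Permanental ideals: Cramer's rule for permanents
-/

set_option autoImplicit false

namespace Pool.Agent.X271.PR

open Matrix Polynomial

section Basic

variable {S : Type*} [CommRing S]

/-- The ideal `P_t(X)` generated by the permanents of all the `t × t` submatrices of `X`. -/
def permIdeal {m n : ℕ} (t : ℕ) (X : Matrix (Fin m) (Fin n) S) : Ideal S :=
  Ideal.span {x | ∃ (r : Fin t ↪o Fin m) (c : Fin t ↪o Fin n), x = (X.submatrix r c).permanent}

/-- An injective map from `Fin t` is an order embedding after a permutation. -/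
lemma exists_perm {t m : ℕ} {r : Fin t → Fin m} (hr : Function.Injective r) :
    ∃ (e : Fin t ↪o Fin m) (σ : Equiv.Perm (Fin t)), ∀ i, r i = e (σ i) := by
  classical
  set s : Finset (Fin m) := Finset.univ.image r with hs
  have hc : s.card = t := by
    rw [hs, Finset.card_image_of_injective _ hr, Finset.card_fin]
  have hmem : ∀ i, r i ∈ Set.range (s.orderEmbOfFin hc) := by
    intro i
    rw [Finset.range_orderEmbOfFin]
    simp [hs]
  choose f hf using hmem
  have hfi : Function.Injective f := fun i j h => hr (by rw [← hf i, ← hf j, h])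
  exact ⟨s.orderEmbOfFin hc, Equiv.ofBijective f (Finite.injective_iff_bijective.1 hfi),
    fun i => (hf i).symm⟩

lemma perm_mem {m n t : ℕ} (X : Matrix (Fin m) (Fin n) S) {r : Fin t → Fin m}
    {c : Fin t → Fin n} (hr : Function.Injective r) (hc : Function.Injective c) :
    (X.submatrix r c).permanent ∈ permIdeal t X := by
  obtain ⟨e, σ, he⟩ := exists_perm hr
  obtain ⟨d, τ, hd⟩ := exists_perm hc
  have h : X.submatrix r c = ((X.submatrix e d).submatrix σ id).submatrix id τ := by
    ext i j
    simp [he, hd]
  rw [h, permanent_permute_rows, permanent_permute_cols]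
  exact Ideal.subset_span ⟨e, d, rfl⟩

lemma permIdeal_transpose {m n : ℕ} (t : ℕ) (X : Matrix (Fin m) (Fin n) S) :
    permIdeal t Xᵀ = permIdeal t X := by
  have key : ∀ {m n : ℕ} (X : Matrix (Fin m) (Fin n) S), permIdeal t Xᵀ ≤ permIdeal t X := by
    intro m n X
    rw [permIdeal, Ideal.span_le]
    rintro x ⟨r, c, rfl⟩
    rw [← transpose_submatrix, permanent_transpose]
    exact Ideal.subset_span ⟨c, r, rfl⟩
  exact le_antisymm (key X) (by simpa using key Xᵀ)

end Basic

section Cramer

variable {ι : Type*} [Fintype ι] [DecidableEq ι] {S : Type*} [CommRing S]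

/-- The matrix of the permanents of `W` with the column `l` replaced by the unit vector `e_i`. -/
def pmMat (W : Matrix ι ι S) : Matrix ι ι S :=
  Matrix.of fun l i => (W.updateCol l (Pi.single i 1)).permanent

lemma permanent_updateCol (W : Matrix ι ι S) (l : ι) (x : ι → S) :
    (W.updateCol l x).permanent =
      ∑ σ : Equiv.Perm ι, x (σ l) * ∏ j ∈ Finset.univ.erase l, W (σ j) j := by
  rw [permanent]
  refine Finset.sum_congr rfl fun σ _ => ?_
  rw [← Finset.mul_prod_erase _ _ (Finset.mem_univ l), updateCol_self]
  congr 1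
  refine Finset.prod_congr rfl fun j hj => ?_
  rw [updateCol_ne (Finset.ne_of_mem_erase hj)]

lemma permanent_updateCol_eq (W : Matrix ι ι S) (l : ι) (x : ι → S) :
    (W.updateCol l x).permanent = (pmMat W).mulVec x l := by
  rw [permanent_updateCol, mulVec, dotProduct]
  simp_rw [pmMat, of_apply, permanent_updateCol, Finset.sum_mul]
  rw [Finset.sum_comm]
  refine Finset.sum_congr rfl fun σ _ => ?_
  rw [Finset.sum_eq_single (σ l)]
  · simp [mul_comm]
  · intro i _ hi
    simp [Pi.single_apply, Ne.symm hi]
  · simp

lemma map_permanent {T : Type*} [CommRing T] (φ : S →+* T) (W : Matrix ι ι S) :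
    φ W.permanent = (W.map φ).permanent := by
  simp [permanent, map_sum, map_prod]

lemma map_pmMat {T : Type*} [CommRing T] (φ : S →+* T) (W : Matrix ι ι S) :
    (pmMat W).map φ = pmMat (W.map φ) := by
  ext l i
  simp only [pmMat, map_apply, of_apply]
  rw [map_permanent]
  congr 1
  ext a b
  by_cases hb : b = l
  · subst hb
    simp only [map_apply, updateCol_self, Pi.single_apply]
    split_ifs <;> simp
  · simp [updateCol_ne hb]

/-- Cramer's rule for permanents. -/
lemma det_pmMat_mem {P : Ideal S} (hP : P.IsPrime) (W : Matrix ι ι S) (x : ι → S)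
    (h : ∀ l, (W.updateCol l x).permanent ∈ P) {i : ι} (hi : x i ∉ P) :
    (pmMat W).det ∈ P := by
  have h1 : (pmMat W).det * x i ∈ P := by
    have h2 : (pmMat W).adjugate.mulVec ((pmMat W).mulVec x) = (pmMat W).det • x := by
      rw [mulVec_mulVec, adjugate_mul, smul_mulVec, one_mulVec]
    have h3 : (pmMat W).det * x i = ∑ l, (pmMat W).adjugate i l * (pmMat W).mulVec x l := by
      have := congrFun h2 i
      simpa [mulVec, dotProduct] using this.symm
    rw [h3]
    refine P.sum_mem fun l _ => P.mul_mem_left _ ?_
    rw [← permanent_updateCol_eq]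
    exact h l
  exact (hP.mem_or_mem h1).resolve_right hi

/-- If all the rows of `M` are orthogonal modulo the prime `P` to a vector which is not zero modulo
`P`, then `det M ∈ P`. -/
lemma det_mem {P : Ideal S} (hP : P.IsPrime) (M : Matrix ι ι S) (x : ι → S)
    (h : ∀ l, M.mulVec x l ∈ P) {i : ι} (hi : x i ∉ P) : M.det ∈ P := by
  have h1 : M.det * x i ∈ P := by
    have h2 : M.adjugate.mulVec (M.mulVec x) = M.det • x := by
      rw [mulVec_mulVec, adjugate_mul, smul_mulVec, one_mulVec]
    have h3 : M.det * x i = ∑ l, M.adjugate i l * M.mulVec x l := by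
      have := congrFun h2 i
      simpa [mulVec, dotProduct] using this.symm
    rw [h3]
    exact P.sum_mem fun l _ => P.mul_mem_left _ (h l)
  exact (hP.mem_or_mem h1).resolve_right hi

/-- Two columns supported in two rows, with zero `2 × 2` permanent. -/
lemma permanent_eq_zero (W : Matrix ι ι S) {b l p q : ι} (hbl : b ≠ l) (hpq : p ≠ q)
    (hb : ∀ i, i ≠ p → i ≠ q → W i b = 0) (hl : ∀ i, i ≠ p → i ≠ q → W i l = 0)
    (h : W p b * W q l + W q b * W p l = 0) : W.permanent = 0 := by
  rw [permanent]
  refine Finset.sum_involution (fun σ _ => Equiv.swap p q * σ) ?_ ?_ ?_ ?_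
  · intro σ _
    have hsplit : ∀ ρ : Equiv.Perm ι, ∏ j, W (ρ j) j =
        W (ρ b) b * (W (ρ l) l * ∏ j ∈ (Finset.univ.erase b).erase l, W (ρ j) j) := by
      intro ρ
      rw [← Finset.mul_prod_erase _ _ (Finset.mem_univ b),
        ← Finset.mul_prod_erase _ _ (Finset.mem_erase.2 ⟨Ne.symm hbl, Finset.mem_univ l⟩)]
    rw [hsplit, hsplit]
    have hne : σ b ≠ σ l := fun e => hbl (σ.injective e)
    by_cases h1 : σ b = p ∨ σ b = q
    · by_cases h2 : σ l = p ∨ σ l = q
      · have hrest : ∏ j ∈ (Finset.univ.erase b).erase l, W ((Equiv.swap p q * σ) j) j =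
            ∏ j ∈ (Finset.univ.erase b).erase l, W (σ j) j := by
          refine Finset.prod_congr rfl fun j hj => ?_
          rw [Finset.mem_erase, Finset.mem_erase] at hj
          have hjb : σ j ≠ σ b := fun e => hj.2.1 (σ.injective e)
          have hjl : σ j ≠ σ l := fun e => hj.1 (σ.injective e)
          rw [Equiv.Perm.mul_apply, Equiv.swap_apply_of_ne_of_ne]
          · rcases h1 with h1 | h1
            · rw [← h1]; exact hjb
            · rcases h2 with h2 | h2
              · rw [← h2]; exact hjl
              · exact absurd (h1.trans h2.symm) hne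
          · rcases h1 with h1 | h1
            · rcases h2 with h2 | h2
              · exact absurd (h1.trans h2.symm) hne
              · rw [← h2]; exact hjl
            · rw [← h1]; exact hjb
        rw [hrest]
        rcases h1 with h1 | h1
        · rcases h2 with h2 | h2
          · exact absurd (h1.trans h2.symm) hne
          · simp only [Equiv.Perm.mul_apply, h1, h2, Equiv.swap_apply_left,
              Equiv.swap_apply_right]
            linear_combination (∏ j ∈ (Finset.univ.erase b).erase l, W (σ j) j) * h
        · rcases h2 with h2 | h2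
          · simp only [Equiv.Perm.mul_apply, h1, h2, Equiv.swap_apply_left,
              Equiv.swap_apply_right]
            linear_combination (∏ j ∈ (Finset.univ.erase b).erase l, W (σ j) j) * h
          · exact absurd (h1.trans h2.symm) hne
      · push Not at h2
        rw [hl _ h2.1 h2.2]
        have h3 : (Equiv.swap p q * σ) l = σ l := by
          rw [Equiv.Perm.mul_apply, Equiv.swap_apply_of_ne_of_ne h2.1 h2.2]
        rw [h3, hl _ h2.1 h2.2]
        ring
    · push Not at h1
      rw [hb _ h1.1 h1.2]
      have h3 : (Equiv.swap p q * σ) b = σ b := by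
        rw [Equiv.Perm.mul_apply, Equiv.swap_apply_of_ne_of_ne h1.1 h1.2]
      rw [h3, hb _ h1.1 h1.2]
      ring
  · intro σ _ _ e
    have h4 : Equiv.swap p q = 1 := by
      have := congrArg (fun ρ => ρ * σ⁻¹) e
      simpa [mul_assoc] using this
    have := congrArg (fun ρ : Equiv.Perm ι => ρ p) h4
    simp only [Equiv.swap_apply_left, Equiv.Perm.one_apply] at this
    exact hpq this.symm
  · intro σ _
    exact Finset.mem_univ _
  · intro σ _
    change Equiv.swap p q * (Equiv.swap p q * σ) = σ
    rw [← mul_assoc, Equiv.swap_mul_self, one_mul]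

end Cramer

end Pool.Agent.X271.PR
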