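import Pool.Agent.X271.PermA

/-!
# A matrix with permanent zero and invertible matrix of subpermanents
-/

set_option autoImplicit false

namespace Pool.Agent.X271.PR

open Matrix Polynomial
open scoped Fin.CommRing

variable {k : Type*} [Field k] {n : ℕ}

/-- The numbers `-1, 1, …, 1`. -/
def dd (k : Type*) [Field k] (n : ℕ) (j : Fin (n + 2)) : k := if j = 0 then -1 else 1

/-- The symmetric matrix with entries `-1, 1, …, 1` on `i + j = 0` and `1` on `i + j = 1`. -/
def YY (k : Type*) [Field k] (n : ℕ) : Matrix (Fin (n + 2)) (Fin (n + 2)) k :=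
  Matrix.of fun i j => if i + j = 0 then dd k n j else if i + j = 1 then 1 else 0

lemma dd_ne (j : Fin (n + 2)) : dd k n j ≠ 0 := by
  unfold dd; split_ifs <;> simp

lemma dd_sq (j : Fin (n + 2)) : dd k n j * dd k n j = 1 := by
  unfold dd; split_ifs <;> simp

lemma prod_dd : ∏ j, dd k n j = -1 := by
  rw [Finset.prod_eq_single (0 : Fin (n + 2))]
  · simp [dd]
  · intro j _ hj; simp [dd, hj]
  · simp

lemma YY_symm (i j : Fin (n + 2)) : YY k n i j = YY k n j i := by
  have h : i + j = 0 → dd k n i = dd k n j := by
    intro h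
    have : i = 0 ↔ j = 0 := by
      constructor
      · rintro rfl; simpa using h
      · rintro rfl; simpa using h
    simp [dd, this]
  simp only [YY, of_apply, add_comm j i]
  by_cases h0 : i + j = 0
  · simp [h0, h h0]
  · simp [h0]

lemma YY_ne {i j : Fin (n + 2)} (h : YY k n i j ≠ 0) : i = -j ∨ i = 1 - j := by
  simp only [YY, of_apply] at h
  by_cases h0 : i + j = 0
  · exact Or.inl (eq_neg_of_add_eq_zero_left h0)
  · by_cases h1 : i + j = 1
    · exact Or.inr (eq_sub_of_add_eq h1)
    · simp [h0, h1] at h

lemma YY_neg (j : Fin (n + 2)) : YY k n (-j) j = dd k n j := by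
  simp [YY]

lemma YY_sub (j : Fin (n + 2)) : YY k n (1 - j) j = 1 := by
  have : (1 : Fin (n + 2)) ≠ 0 := by simp
  simp [YY, this]

/-- A permutation with values in the support which is equal to `-j` somewhere. -/
lemma perm_neg (σ : Equiv.Perm (Fin (n + 2))) (h : ∀ j, σ j = -j ∨ σ j = 1 - j)
    (j₀ : Fin (n + 2)) (h0 : σ j₀ = -j₀) : σ = Equiv.neg _ := by
  have key : ∀ m : ℕ, σ (j₀ + (m : Fin (n + 2))) = -(j₀ + (m : Fin (n + 2))) := by
    intro m
    induction m with
    | zero => simpa using h0
    | succ m ih =>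
      rcases h (j₀ + ((m + 1 : ℕ) : Fin (n + 2))) with h1 | h1
      · exact h1
      · exfalso
        have h2 : σ (j₀ + ((m + 1 : ℕ) : Fin (n + 2))) = σ (j₀ + (m : Fin (n + 2))) := by
          rw [h1, ih]
          push_cast
          ring
        have h3 := σ.injective h2
        have h4 : ((m + 1 : ℕ) : Fin (n + 2)) = (m : Fin (n + 2)) := add_left_cancel h3
        push_cast at h4
        have h5 : (1 : Fin (n + 2)) = 0 := by
          have := congrArg (fun x => x - (m : Fin (n + 2))) h4
          simpa using this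
        simp at h5
  ext j
  have h1 : j = j₀ + (((j - j₀ : Fin (n + 2)).val : ℕ) : Fin (n + 2)) := by
    rw [Fin.cast_val_eq_self]
    abel
  rw [h1, key]
  rfl

lemma perm_cases (σ : Equiv.Perm (Fin (n + 2))) (h : ∀ j, σ j = -j ∨ σ j = 1 - j) :
    σ = Equiv.neg _ ∨ σ = Equiv.subLeft 1 := by
  by_cases h0 : ∃ j, σ j = -j
  · obtain ⟨j, hj⟩ := h0
    exact Or.inl (perm_neg σ h j hj)
  · push Not at h0
    right
    ext j
    rw [(h j).resolve_left (h0 j)]
    rfl

lemma neg_ne_sub : (Equiv.neg (Fin (n + 2))) ≠ Equiv.subLeft 1 := by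
  intro h
  have := congrArg (fun e : Equiv.Perm (Fin (n + 2)) => e 0) h
  simp at this

/-- The permanent vanishes. -/
lemma YY_permanent : (YY k n).permanent = 0 := by
  rw [permanent, Fintype.sum_eq_add (Equiv.neg _) (Equiv.subLeft 1) neg_ne_sub]
  · have h1 : ∏ j, YY k n ((Equiv.neg (Fin (n + 2))) j) j = -1 := by
      rw [← prod_dd (k := k) (n := n)]
      exact Finset.prod_congr rfl fun j _ => YY_neg j
    have h2 : ∏ j, YY k n ((Equiv.subLeft (1 : Fin (n + 2))) j) j = 1 := by
      apply Finset.prod_eq_one
      intro j _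
      exact YY_sub j
    rw [h1, h2]
    ring
  · rintro σ ⟨hσ1, hσ2⟩
    by_contra hne
    have h : ∀ j, YY k n (σ j) j ≠ 0 := fun j hj =>
      hne (Finset.prod_eq_zero (Finset.mem_univ j) hj)
    rcases perm_cases σ (fun j => YY_ne (h j)) with h1 | h1
    · exact hσ1 h1
    · exact hσ2 h1

/-- The vectors `e_{1-b} - d_b e_{-b}`. -/
def BB (k : Type*) [Field k] (n : ℕ) : Matrix (Fin (n + 2)) (Fin (n + 2)) k :=
  Matrix.of fun i b => if i = 1 - b then 1 else if i = -b then -dd k n b else 0

lemma one_sub_ne_neg (b : Fin (n + 2)) : (1 : Fin (n + 2)) - b ≠ -b := by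
  intro h
  have : (1 : Fin (n + 2)) = 0 := by
    have := congrArg (fun x => x + b) h
    simpa using this
  simp at this

lemma perm_single (b : Fin (n + 2)) :
    ((YY k n).updateCol b (Pi.single (-b) 1)).permanent = -dd k n b := by
  rw [permanent, Fintype.sum_eq_single (Equiv.neg _)]
  · have hs : ∏ j, (YY k n).updateCol b (Pi.single (-b) 1) ((Equiv.neg (Fin (n + 2))) j) j =
        ∏ j ∈ Finset.univ.erase b, dd k n j := by
      rw [← Finset.mul_prod_erase _ _ (Finset.mem_univ b), updateCol_self]
      simp only [Equiv.neg_apply, Pi.single_eq_same, one_mul]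
      refine Finset.prod_congr rfl fun j hj => ?_
      rw [updateCol_ne (Finset.ne_of_mem_erase hj)]
      exact YY_neg j
    rw [hs]
    have h1 : dd k n b * ∏ j ∈ Finset.univ.erase b, dd k n j = -1 := by
      rw [Finset.mul_prod_erase _ _ (Finset.mem_univ b)]
      exact prod_dd
    calc ∏ j ∈ Finset.univ.erase b, dd k n j
        = dd k n b * dd k n b * ∏ j ∈ Finset.univ.erase b, dd k n j := by rw [dd_sq, one_mul]
      _ = dd k n b * (dd k n b * ∏ j ∈ Finset.univ.erase b, dd k n j) := by ring
      _ = -dd k n b := by rw [h1]; ring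
  · intro σ hσ
    by_contra hne
    have h : ∀ j, (YY k n).updateCol b (Pi.single (-b) 1) (σ j) j ≠ 0 := fun j hj =>
      hne (Finset.prod_eq_zero (Finset.mem_univ j) hj)
    have hb : σ b = -b := by
      by_contra hb
      apply h b
      rw [updateCol_self, Pi.single_eq_of_ne hb]
    apply hσ
    refine perm_neg σ (fun j => ?_) b hb
    by_cases hj : j = b
    · subst hj; exact Or.inl hb
    · apply YY_ne (k := k)
      have := h j
      rwa [updateCol_ne hj] at this

/-- The matrix of subpermanents of `YY` is invertible in characteristic different from 2. -/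
lemma pmMat_mul : pmMat (YY k n) * BB k n = (2 : k) • (1 : Matrix (Fin (n + 2)) (Fin (n + 2)) k) := by
  ext l b
  have h1 : (pmMat (YY k n) * BB k n) l b =
      ((YY k n).updateCol l (fun i => BB k n i b)).permanent := by
    rw [permanent_updateCol_eq]
    rfl
  rw [h1]
  by_cases hlb : l = b
  · subst hlb
    rw [Matrix.smul_apply, one_apply_eq, smul_eq_mul, mul_one, permanent_updateCol_eq]
    have h2 : (fun i => BB k n i l) =
        (fun i => YY k n i l) - (2 * dd k n l) • (Pi.single (-l) (1 : k)) := by
      funext i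
      simp only [BB, of_apply, Pi.sub_apply, Pi.smul_apply, smul_eq_mul, Pi.single_apply]
      by_cases hi : i = 1 - l
      · subst hi
        rw [YY_sub]
        simp [one_sub_ne_neg]
      · by_cases hi2 : i = -l
        · subst hi2
          rw [YY_neg]
          simp [(one_sub_ne_neg l).symm]
          ring
        · have : YY k n i l = 0 := by
            by_contra h
            rcases YY_ne h with h | h
            · exact hi2 h
            · exact hi h
          simp [hi, hi2, this]
    rw [h2, mulVec_sub, mulVec_smul, Pi.sub_apply, Pi.smul_apply, ← permanent_updateCol_eq,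
      ← permanent_updateCol_eq, perm_single]
    have h3 : (YY k n).updateCol l (fun i => YY k n i l) = YY k n := by
      ext i j
      by_cases hj : j = l
      · subst hj; rw [updateCol_self]
      · rw [updateCol_ne hj]
    rw [h3, YY_permanent, smul_eq_mul]
    have := dd_sq (k := k) l
    linear_combination 2 * this
  · rw [Matrix.smul_apply, one_apply_ne hlb, smul_zero]
    refine permanent_eq_zero _ (b := b) (l := l) (p := -b) (q := 1 - b) (Ne.symm hlb)
      (one_sub_ne_neg b).symm ?_ ?_ ?_
    · intro i hi1 hi2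
      rw [updateCol_ne (Ne.symm hlb)]
      by_contra h
      rcases YY_ne h with h | h
      · exact hi1 h
      · exact hi2 h
    · intro i hi1 hi2
      rw [updateCol_self]
      simp [BB, hi1, hi2]
    · rw [updateCol_ne (Ne.symm hlb), updateCol_ne (Ne.symm hlb), updateCol_self, updateCol_self,
        YY_neg, YY_sub]
      simp [BB, (one_sub_ne_neg b).symm]

lemma det_pmMat_ne (h2 : (2 : k) ≠ 0) : (pmMat (YY k n)).det ≠ 0 := by
  intro h
  have := congrArg Matrix.det (pmMat_mul (k := k) (n := n))
  rw [det_mul, h, zero_mul, det_smul, det_one, mul_one] at this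
  exact pow_ne_zero _ h2 this.symm

end Pool.Agent.X271.PR
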