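import Pool.Agent.X271.PermB

/-!
# The permanental ideals of generic and of symmetric matrices are not prime
-/

set_option autoImplicit false

namespace Pool.Agent.X271.PR

open Matrix Polynomial

variable {k : Type*} [Field k] {S : Type*} [CommRing S]

/-- Elements of `P_t(X)` have order at least `t`. -/
lemma pow_dvd_of_mem {m n t : ℕ} (X : Matrix (Fin m) (Fin n) S) (Θ : S →+* k[X])
    (hΘ : ∀ i j, (Polynomial.X : k[X]) ∣ Θ (X i j)) {f : S} (hf : f ∈ permIdeal t X) :
    (Polynomial.X : k[X]) ^ t ∣ Θ f := by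
  have h : permIdeal t X ≤ (Ideal.span {(Polynomial.X : k[X]) ^ t}).comap Θ := by
    rw [permIdeal, Ideal.span_le]
    rintro x ⟨r, c, rfl⟩
    rw [SetLike.mem_coe, Ideal.mem_comap, Ideal.mem_span_singleton, map_permanent, permanent]
    refine Finset.dvd_sum fun σ _ => ?_
    have : (Polynomial.X : k[X]) ^ t = ∏ _j : Fin t, (Polynomial.X : k[X]) := by simp
    rw [this]
    exact Finset.prod_dvd_prod_of_dvd _ _ fun j _ => hΘ _ _
  have := h hf
  rwa [Ideal.mem_comap, Ideal.mem_span_singleton] at this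

/-- An order embedding of `Fin t` with small values. -/
lemma emb_injective {m t : ℕ} (r : Fin t ↪o Fin m) (h : ∀ i, (r i).val < t) :
    ∃ ρ : Equiv.Perm (Fin t), ∀ i, (ρ i).val = (r i).val := by
  have hi : Function.Injective (fun i : Fin t => (⟨(r i).val, h i⟩ : Fin t)) := by
    intro i j hij
    have h1 := congrArg Fin.val hij
    exact r.injective (Fin.ext h1)
  exact ⟨Equiv.ofBijective _ (Finite.injective_iff_bijective.1 hi), fun i => rfl⟩

/-- A matrix supported on the first `t` rows and columns. -/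
lemma permanent_submatrix_eq_zero {m n t : ℕ} (Z : Matrix (Fin m) (Fin n) k)
    (Y : Matrix (Fin t) (Fin t) k) (hY : Y.permanent = 0)
    (hZ : ∀ i j, Z i j = if h : i.val < t ∧ j.val < t then Y ⟨i, h.1⟩ ⟨j, h.2⟩ else 0)
    (r : Fin t ↪o Fin m) (c : Fin t ↪o Fin n) : (Z.submatrix r c).permanent = 0 := by
  by_cases hr : ∀ i, (r i).val < t
  · by_cases hc : ∀ i, (c i).val < t
    · obtain ⟨ρ, hρ⟩ := emb_injective r hr
      obtain ⟨κ, hκ⟩ := emb_injective c hc
      have h1 : Z.submatrix r c = (Y.submatrix ρ id).submatrix id κ := by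
        ext i j
        simp only [submatrix_apply, id]
        rw [hZ, dif_pos ⟨hr i, hc j⟩]
        have e1 : (⟨(r i).val, hr i⟩ : Fin t) = ρ i := Fin.ext (hρ i).symm
        have e2 : (⟨(c j).val, hc j⟩ : Fin t) = κ j := Fin.ext (hκ j).symm
        rw [e1, e2]
      rw [h1, permanent_permute_rows, permanent_permute_cols, hY]
    · push Not at hc
      obtain ⟨j₀, hj⟩ := hc
      rw [permanent]
      refine Finset.sum_eq_zero fun σ _ => Finset.prod_eq_zero (Finset.mem_univ j₀) ?_
      rw [submatrix_apply, hZ, dif_neg]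
      rintro ⟨_, h⟩
      omega
  · push Not at hr
    obtain ⟨i₀, hi⟩ := hr
    rw [permanent]
    refine Finset.sum_eq_zero fun σ _ => Finset.prod_eq_zero (Finset.mem_univ (σ⁻¹ i₀)) ?_
    rw [submatrix_apply, hZ, dif_neg]
    rintro ⟨h, _⟩
    have : σ (σ⁻¹ i₀) = i₀ := by simp
    rw [this] at h
    omega

/-- The criterion. -/
theorem not_prime {m n s : ℕ} (h2 : (2 : k) ≠ 0) (hm : s + 2 ≤ m) (hn : s + 2 < n)
    (X : Matrix (Fin m) (Fin n) S) (Θ : S →+* k[X])
    (hΘ : ∀ i j, Θ (X i j) = (Polynomial.X : k[X])) (φ : S →+* k)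
    (hφ : ∀ i j, φ (X i j) = if h : i.val < s + 2 ∧ j.val < s + 2 then
      YY k s ⟨i, h.1⟩ ⟨j, h.2⟩ else 0) :
    ¬ (permIdeal (s + 2) X).IsPrime := by
  intro hP
  set e : Fin (s + 2) → Fin m := Fin.castLE hm with he
  set d : Fin (s + 2) → Fin n := Fin.castLE hn.le with hd
  set W : Matrix (Fin (s + 2)) (Fin (s + 2)) S := X.submatrix e d with hW
  set x : Fin (s + 2) → S := fun i => X (e i) ⟨s + 2, hn⟩ with hx
  have hei : Function.Injective e := Fin.castLE_injective _
  have hdi : Function.Injective d := Fin.castLE_injective _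
  have h1 : ∀ l, (W.updateCol l x).permanent ∈ permIdeal (s + 2) X := by
    intro l
    have h3 : W.updateCol l x = X.submatrix e (Function.update d l ⟨s + 2, hn⟩) := by
      ext i j
      by_cases hj : j = l
      · subst hj
        rw [updateCol_self, submatrix_apply, Function.update_self]
      · rw [updateCol_ne hj, submatrix_apply, Function.update_of_ne hj]
        rfl
    rw [h3]
    refine perm_mem X hei ?_
    intro i j hij
    have hne : ∀ i, d i ≠ ⟨s + 2, hn⟩ := by
      intro i h
      have := congrArg Fin.val h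
      simp [hd] at this
      omega
    by_cases hi : i = l
    · by_cases hj : j = l
      · rw [hi, hj]
      · rw [hi, Function.update_self, Function.update_of_ne hj] at hij
        exact absurd hij.symm (hne j)
    · by_cases hj : j = l
      · rw [hj, Function.update_self, Function.update_of_ne hi] at hij
        exact absurd hij (hne i)
      · rw [Function.update_of_ne hi, Function.update_of_ne hj] at hij
        exact hdi hij
  have h0 : x 0 ∉ permIdeal (s + 2) X := by
    intro h
    have h4 := pow_dvd_of_mem X Θ (fun i j => by rw [hΘ]) h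
    rw [hx] at h4
    simp only [hΘ] at h4
    have h5 := Polynomial.natDegree_le_of_dvd h4 Polynomial.X_ne_zero
    simp at h5
  have h6 := det_pmMat_mem hP W x h1 h0
  have h7 : φ (pmMat W).det = (pmMat (YY k s)).det := by
    rw [RingHom.map_det, RingHom.mapMatrix_apply, map_pmMat]
    congr 2
    ext i j
    rw [map_apply, hW, submatrix_apply, hφ, dif_pos ⟨i.2, j.2⟩]
    rfl
  have h8 : permIdeal (s + 2) X ≤ RingHom.ker φ := by
    rw [permIdeal, Ideal.span_le]
    rintro y ⟨r, c, rfl⟩
    rw [SetLike.mem_coe, RingHom.mem_ker, map_permanent]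
    have := permanent_submatrix_eq_zero (X.map φ) (YY k s) YY_permanent
      (fun i j => by rw [map_apply, hφ]) r c
    rwa [submatrix_map] at this
  have h9 : φ (pmMat W).det = 0 := h8 h6
  rw [h7] at h9
  exact det_pmMat_ne h2 h9

/-! ### Generic matrices -/

/-- The generic `m × n` matrix. -/
noncomputable def genericMat (k : Type*) [Field k] (m n : ℕ) :
    Matrix (Fin m) (Fin n) (MvPolynomial (Fin m × Fin n) k) :=
  Matrix.of fun i j => MvPolynomial.X (i, j)

/-- The symmetric `n × n` matrix of indeterminates `x_{ij} = x_{ji}`. -/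
noncomputable def symmMat (k : Type*) [Field k] (n : ℕ) :
    Matrix (Fin n) (Fin n) (MvPolynomial (Sym2 (Fin n)) k) :=
  Matrix.of fun i j => MvPolynomial.X s(i, j)

/-- The numbers used for the evaluation. -/
def ev (k : Type*) [Field k] (s : ℕ) (i j : ℕ) : k :=
  if h : i < s + 2 ∧ j < s + 2 then YY k s ⟨i, h.1⟩ ⟨j, h.2⟩ else 0

lemma ev_symm (s i j : ℕ) : ev k s i j = ev k s j i := by
  unfold ev
  by_cases h : i < s + 2 ∧ j < s + 2
  · rw [dif_pos h, dif_pos h.symm, YY_symm]
  · rw [dif_neg h, dif_neg fun h' => h h'.symm]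

theorem generic_not_prime (h2 : (2 : k) ≠ 0) {m n t : ℕ} (ht : 2 ≤ t) (hm : t ≤ m) (hn : t ≤ n)
    (h : ¬ (t = m ∧ t = n)) : ¬ (permIdeal t (genericMat k m n)).IsPrime := by
  obtain ⟨s, rfl⟩ : ∃ s, t = s + 2 := ⟨t - 2, by omega⟩
  by_cases hn' : s + 2 < n
  · exact not_prime h2 hm hn' (genericMat k m n)
      (MvPolynomial.aeval (fun _ => (Polynomial.X : k[X]))).toRingHom
      (fun i j => by simp [genericMat])
      (MvPolynomial.aeval (fun p : Fin m × Fin n => ev k s p.1 p.2)).toRingHom
      (fun i j => by simp [genericMat, ev])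
  · have hm' : s + 2 < m := by omega
    rw [← permIdeal_transpose]
    exact not_prime h2 hn hm' (genericMat k m n)ᵀ
      (MvPolynomial.aeval (fun _ => (Polynomial.X : k[X]))).toRingHom
      (fun i j => by simp [genericMat])
      (MvPolynomial.aeval (fun p : Fin m × Fin n => ev k s p.2 p.1)).toRingHom
      (fun i j => by simp [genericMat, ev])

theorem symm_not_prime (h2 : (2 : k) ≠ 0) {n t : ℕ} (ht : 2 ≤ t) (hn : t < n) :
    ¬ (permIdeal t (symmMat k n)).IsPrime := by
  obtain ⟨s, rfl⟩ : ∃ s, t = s + 2 := ⟨t - 2, by omega⟩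
  exact not_prime h2 hn.le hn (symmMat k n)
    (MvPolynomial.aeval (fun _ => (Polynomial.X : k[X]))).toRingHom
    (fun i j => by simp [symmMat])
    (MvPolynomial.aeval (fun p : Sym2 (Fin n) => Sym2.lift ⟨fun i j : Fin n => ev k s i j,
      fun i j => ev_symm s i j⟩ p)).toRingHom
    (fun i j => by simp [symmMat, ev])

end Pool.Agent.X271.PR
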