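import Pool.Agent.X271.PermC

/-!
# The permanental ideals of wide Hankel matrices are not prime: valuations
-/

set_option autoImplicit false

namespace Pool.Agent.X271.PR

open Matrix Polynomial

/-- Two injective functions `ρ`, `γ`: the defects `3 - (ρ i + γ i)` sum up to at most `3`, unless
`(0, 0)`, `(1, 1)` or `(0, 1)`, `(1, 0)` are values. -/
lemma comb {t : ℕ} (ρ γ : Fin t → ℕ) (hρ : Function.Injective ρ) (hγ : Function.Injective γ) :
    (∑ i, (3 - (ρ i + γ i)) ≤ 3) ∨ (∃ i j, ρ i = 0 ∧ γ i = 0 ∧ ρ j = 1 ∧ γ j = 1) ∨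
      ∃ i j, ρ i = 0 ∧ γ i = 1 ∧ ρ j = 1 ∧ γ j = 0 := by
  classical
  set D : ℕ → ℕ := fun a => ∑ i, if ρ i = a then 3 - (a + γ i) else 0 with hD
  have hsum : ∑ i, (3 - (ρ i + γ i)) = D 0 + D 1 + D 2 := by
    have : ∀ i, 3 - (ρ i + γ i) = (if ρ i = 0 then 3 - (0 + γ i) else 0) +
        (if ρ i = 1 then 3 - (1 + γ i) else 0) + (if ρ i = 2 then 3 - (2 + γ i) else 0) := by
      intro i
      by_cases h0 : ρ i = 0
      · simp [h0]
      · by_cases h1 : ρ i = 1
        · simp [h1]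
        · by_cases h2 : ρ i = 2
          · simp [h2]
          · simp only [h0, h1, h2, if_false]
            omega
    simp only [hD]
    rw [← Finset.sum_add_distrib, ← Finset.sum_add_distrib]
    exact Finset.sum_congr rfl fun i _ => this i
  have hDa : ∀ a, D a = 0 ∨ ∃ i, ρ i = a ∧ D a = 3 - (a + γ i) := by
    intro a
    by_cases h : ∃ i, ρ i = a
    · obtain ⟨i, hi⟩ := h
      refine Or.inr ⟨i, hi, ?_⟩
      simp only [hD]
      rw [Finset.sum_eq_single i]
      · simp [hi]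
      · intro j _ hj
        rw [if_neg]
        intro hj'
        exact hj (hρ (hj'.trans hi.symm))
      · simp
    · push Not at h
      refine Or.inl ?_
      simp only [hD]
      exact Finset.sum_eq_zero fun i _ => if_neg (h i)
  rw [hsum]
  rcases hDa 0 with h0 | ⟨i0, hi0, h0⟩ <;> rcases hDa 1 with h1 | ⟨i1, hi1, h1⟩ <;>
    rcases hDa 2 with h2 | ⟨i2, hi2, h2⟩
  · left; omega
  · left; omega
  · left; omega
  · left
    have e : γ i1 ≠ γ i2 := fun e => by have := hγ e; subst this; omega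
    omega
  · left; omega
  · left
    have e : γ i0 ≠ γ i2 := fun e => by have := hγ e; subst this; omega
    omega
  · have e : γ i0 ≠ γ i1 := fun e => by have := hγ e; subst this; omega
    by_cases hA : γ i0 = 0 ∧ γ i1 = 1
    · exact Or.inr (Or.inl ⟨i0, i1, hi0, hA.1, hi1, hA.2⟩)
    · by_cases hB : γ i0 = 1 ∧ γ i1 = 0
      · exact Or.inr (Or.inr ⟨i0, i1, hi0, hB.1, hi1, hB.2⟩)
      · left; omega
  · have e : γ i0 ≠ γ i1 := fun e => by have := hγ e; subst this; omega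
    have e2 : γ i0 ≠ γ i2 := fun e => by have := hγ e; subst this; omega
    have e3 : γ i1 ≠ γ i2 := fun e => by have := hγ e; subst this; omega
    by_cases hA : γ i0 = 0 ∧ γ i1 = 1
    · exact Or.inr (Or.inl ⟨i0, i1, hi0, hA.1, hi1, hA.2⟩)
    · by_cases hB : γ i0 = 1 ∧ γ i1 = 0
      · exact Or.inr (Or.inr ⟨i0, i1, hi0, hB.1, hi1, hB.2⟩)
      · left; omega

variable {k : Type*} [Field k]

/-- The weights. -/
noncomputable def ww (a : ℕ → k) (s : ℕ) : k[X] :=
  if s = 0 then 1 else if s = 1 then X else if s = 2 then -X ^ 2 else C (a s) * X ^ 3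

lemma ww_zero (a : ℕ → k) : ww a 0 = 1 := by simp [ww]
lemma ww_one (a : ℕ → k) : ww a 1 = X := by simp [ww]
lemma ww_two (a : ℕ → k) : ww a 2 = -X ^ 2 := by simp [ww]
lemma ww_of_le (a : ℕ → k) {s : ℕ} (h : 3 ≤ s) : ww a s = C (a s) * X ^ 3 := by
  rw [ww, if_neg (by omega), if_neg (by omega), if_neg (by omega)]

lemma pow_dvd_ww (a : ℕ → k) (s : ℕ) : (X : k[X]) ^ (3 - (3 - s)) ∣ ww a s := by
  by_cases h0 : s = 0
  · subst h0; simp
  by_cases h1 : s = 1
  · subst h1; simp [ww_one]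
  by_cases h2 : s = 2
  · subst h2; simp [ww_two]
  · rw [ww_of_le a (by omega), show 3 - (3 - s) = 3 by omega]
    exact Dvd.intro_left _ rfl

lemma term_dvd {t : ℕ} (a : ℕ → k) (s : Fin t → ℕ) (h : ∑ i, (3 - s i) ≤ 3) :
    (X : k[X]) ^ (3 * t - 3) ∣ ∏ i, ww a (s i) := by
  have h1 : (X : k[X]) ^ (∑ i, (3 - (3 - s i))) ∣ ∏ i, ww a (s i) := by
    rw [← Finset.prod_pow_eq_pow_sum]
    exact Finset.prod_dvd_prod_of_dvd _ _ fun i _ => pow_dvd_ww a (s i)
  have h2 : ∑ i, (3 - (3 - s i)) + ∑ i, (3 - s i) = 3 * t := by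
    rw [← Finset.sum_add_distrib]
    have : ∀ i, 3 - (3 - s i) + (3 - s i) = 3 := fun i => by omega
    simp only [this, Finset.sum_const, Finset.card_univ, Fintype.card_fin, smul_eq_mul]
    ring
  exact (pow_dvd_pow _ (by omega)).trans h1

/-- The two exceptional configurations. -/
def Ex {t : ℕ} (ρ γ : Fin t → ℕ) : Prop :=
  (∃ i j, ρ i = 0 ∧ γ i = 0 ∧ ρ j = 1 ∧ γ j = 1) ∨ ∃ i j, ρ i = 0 ∧ γ i = 1 ∧ ρ j = 1 ∧ γ j = 0

lemma pair_zero {t : ℕ} (a : ℕ → k) (r c : Fin t → ℕ) (hr : Function.Injective r)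
    (hc : Function.Injective c) {j0 j1 : Fin t} (h0 : r j0 = 0) (h1 : r j1 = 1)
    (σ : Equiv.Perm (Fin t)) (h : Ex (fun i => r (σ i)) c) :
    ∏ i, ww a (r (σ i) + c i) + ∏ i, ww a (r ((Equiv.swap j0 j1 * σ) i) + c i) = 0 := by
  have key : ∀ i j : Fin t, σ i = j0 → σ j = j1 → ((c i = 0 ∧ c j = 1) ∨ (c i = 1 ∧ c j = 0)) →
      ∏ i, ww a (r (σ i) + c i) + ∏ i, ww a (r ((Equiv.swap j0 j1 * σ) i) + c i) = 0 := by
    intro i j hi hj hcc
    have hij : j ≠ i := by
      intro e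
      subst e
      omega
    have hsplit : ∀ ρ : Equiv.Perm (Fin t), ∏ l, ww a (r (ρ l) + c l) =
        ww a (r (ρ i) + c i) * (ww a (r (ρ j) + c j) *
          ∏ l ∈ (Finset.univ.erase i).erase j, ww a (r (ρ l) + c l)) := by
      intro ρ
      rw [← Finset.mul_prod_erase _ _ (Finset.mem_univ i),
        ← Finset.mul_prod_erase _ _ (Finset.mem_erase.2 ⟨hij, Finset.mem_univ j⟩)]
    have hrest : ∏ l ∈ (Finset.univ.erase i).erase j, ww a (r ((Equiv.swap j0 j1 * σ) l) + c l) =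
        ∏ l ∈ (Finset.univ.erase i).erase j, ww a (r (σ l) + c l) := by
      refine Finset.prod_congr rfl fun l hl => ?_
      rw [Finset.mem_erase, Finset.mem_erase] at hl
      rw [Equiv.Perm.mul_apply, Equiv.swap_apply_of_ne_of_ne]
      · rw [← hi]; exact fun e => hl.2.1 (σ.injective e)
      · rw [← hj]; exact fun e => hl.1 (σ.injective e)
    rw [hsplit, hsplit, hrest]
    simp only [Equiv.Perm.mul_apply, hi, hj, Equiv.swap_apply_left, Equiv.swap_apply_right, h0, h1]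
    rcases hcc with ⟨e1, e2⟩ | ⟨e1, e2⟩
    · rw [e1, e2, ww_zero, ww_one, ww_two]
      ring
    · rw [e1, e2]
      simp only [zero_add, add_zero, Nat.reduceAdd, ww_zero, ww_one, ww_two]
      ring
  rcases h with ⟨i, j, hi, hci, hj, hcj⟩ | ⟨i, j, hi, hci, hj, hcj⟩
  · exact key i j (hr (hi.trans h0.symm)) (hr (hj.trans h1.symm)) (Or.inl ⟨hci, hcj⟩)
  · exact key i j (hr (hi.trans h0.symm)) (hr (hj.trans h1.symm)) (Or.inr ⟨hci, hcj⟩)

/-- The permanents have large order. -/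
lemma perm_dvd (h2 : (2 : k) ≠ 0) {t : ℕ} (a : ℕ → k) (r c : Fin t → ℕ)
    (hr : Function.Injective r) (hc : Function.Injective c) :
    (X : k[X]) ^ (3 * t - 3) ∣ (Matrix.of fun i j => ww a (r i + c j)).permanent := by
  have hperm : (Matrix.of fun i j => ww a (r i + c j)).permanent =
      ∑ σ : Equiv.Perm (Fin t), ∏ i, ww a (r (σ i) + c i) := rfl
  rw [hperm]
  by_cases hrows : ∃ j0 j1, r j0 = 0 ∧ r j1 = 1
  · obtain ⟨j0, j1, h0, h1⟩ := hrows
    have hdouble : C (2 : k) * ∑ σ : Equiv.Perm (Fin t), ∏ i, ww a (r (σ i) + c i) =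
        ∑ σ : Equiv.Perm (Fin t), (∏ i, ww a (r (σ i) + c i) +
          ∏ i, ww a (r ((Equiv.swap j0 j1 * σ) i) + c i)) := by
      rw [Finset.sum_add_distrib]
      have : ∑ σ : Equiv.Perm (Fin t), ∏ i, ww a (r ((Equiv.swap j0 j1 * σ) i) + c i) =
          ∑ σ : Equiv.Perm (Fin t), ∏ i, ww a (r (σ i) + c i) :=
        (Group.mulLeft_bijective (Equiv.swap j0 j1)).sum_comp
          fun τ : Equiv.Perm (Fin t) => ∏ i, ww a (r (τ i) + c i)
      rw [this, map_ofNat (C : k →+* k[X]) 2]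
      ring
    have hdvd : (X : k[X]) ^ (3 * t - 3) ∣
        C (2 : k) * ∑ σ : Equiv.Perm (Fin t), ∏ i, ww a (r (σ i) + c i) := by
      rw [hdouble]
      refine Finset.dvd_sum fun σ _ => ?_
      have hc1 := comb (fun i => r (σ i)) c (hr.comp σ.injective) hc
      rcases hc1 with hs | hex
      · have hc2 := comb (fun i => r ((Equiv.swap j0 j1 * σ) i)) c
          (hr.comp (Equiv.swap j0 j1 * σ).injective) hc
        rcases hc2 with hs2 | hex2
        · exact dvd_add (term_dvd a _ hs) (term_dvd a _ hs2)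
        · have := pair_zero a r c hr hc h0 h1 (Equiv.swap j0 j1 * σ) hex2
          rw [← mul_assoc, Equiv.swap_mul_self, one_mul] at this
          rw [add_comm, this]
          exact dvd_zero _
      · rw [pair_zero a r c hr hc h0 h1 σ hex]
        exact dvd_zero _
    have hu : IsUnit (C (2 : k) : k[X]) := Polynomial.isUnit_C.2 (isUnit_iff_ne_zero.2 h2)
    exact (hu.dvd_mul_left).1 hdvd
  · refine Finset.dvd_sum fun σ _ => ?_
    rcases comb (fun i => r (σ i)) c (hr.comp σ.injective) hc with hs | hex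
    · exact term_dvd a _ hs
    · exfalso
      apply hrows
      rcases hex with ⟨i, j, hi, _, hj, _⟩ | ⟨i, j, hi, _, hj, _⟩
      · exact ⟨_, _, hi, hj⟩
      · exact ⟨_, _, hi, hj⟩

end Pool.Agent.X271.PR
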