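import Pool.Agent.X271.PermD

/-!
# The permanental ideals of wide Hankel matrices are not prime
-/

set_option autoImplicit false

namespace Pool.Agent.X271.PR

open Matrix Polynomial

variable {k : Type*} [Field k]

/-- The columns. -/
def kk (c s0 : ℕ) (l : ℕ) : ℕ := if l < c then l else s0 + l

/-- The coefficients. -/
def aa (k : Type*) [Field k] (s c s0 : ℕ) (x : ℕ) : k :=
  if x = c + 1 ∨ x = s0 + (s + 2) - 1 + c then 1 else 0

/-- The values of the permutation. -/
def si (s c : ℕ) (l : ℕ) : ℕ := if l < 2 then l else if l < c then c + 1 - l else s + 1 + c - l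

lemma si_lt {s c l : ℕ} (hc : c ≤ s + 2) (hl : l < s + 2) : si s c l < s + 2 := by
  unfold si; split_ifs <;> omega

lemma si_si {s c l : ℕ} (h2c : 2 ≤ c) (hc : c ≤ s + 2) (hl : l < s + 2) : si s c (si s c l) = l := by
  unfold si; split_ifs <;> omega

/-- The permutation. -/
def sg {s c : ℕ} (h2c : 2 ≤ c) (hc : c ≤ s + 2) : Equiv.Perm (Fin (s + 2)) :=
  Function.Involutive.toPerm (fun l => ⟨si s c l, si_lt hc l.2⟩)
    (fun l => Fin.ext (si_si h2c hc l.2))

lemma sg_val {s c : ℕ} (h2c : 2 ≤ c) (hc : c ≤ s + 2) (l : Fin (s + 2)) :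
    (sg h2c hc l).val = si s c l := rfl

/-- The terms. -/
noncomputable def tm (k : Type*) [Field k] (s c s0 : ℕ) (σ : Equiv.Perm (Fin (s + 2))) : k[X] :=
  ∏ l, ww (aa k s c s0) ((σ l).val + kk c s0 l.val)

lemma kk_inj {c s0 : ℕ} {s : ℕ} : Function.Injective (fun l : Fin (s + 2) => kk c s0 l.val) := by
  intro l l' h
  simp only [kk] at h
  apply Fin.ext
  split_ifs at h <;> omega

lemma ww_pos {s c s0 : ℕ} {x : ℕ} (hx : 3 ≤ x) (h : ww (aa k s c s0) x ≠ 0) :
    x = c + 1 ∨ x = s0 + (s + 2) - 1 + c := by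
  by_contra hne
  apply h
  rw [ww_of_le _ hx, aa, if_neg hne, map_zero, zero_mul]

/-- Uniqueness. -/
lemma sg_unique {s c s0 : ℕ} (h2c : 2 ≤ c) (hc : c ≤ s + 2) (hs0 : s + 1 ≤ s0)
    (τ : Equiv.Perm (Fin (s + 2))) (h0 : (τ 0).val = 0) (h1 : (τ 1).val = 1)
    (hτ : ∀ l : Fin (s + 2), 2 ≤ l.val → ww (aa k s c s0) ((τ l).val + kk c s0 l.val) ≠ 0) :
    τ = sg h2c hc := by
  ext l
  rw [sg_val]
  by_cases hl0 : l.val = 0
  · have : l = 0 := Fin.ext hl0
    subst this
    rw [h0]; simp [si]
  by_cases hl1 : l.val = 1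
  · have : l = 1 := Fin.ext hl1
    subst this
    rw [h1]; simp [si]
  have hl2 : 2 ≤ l.val := by omega
  have hne0 : (τ l).val ≠ 0 := by
    intro e
    have : τ l = τ 0 := Fin.ext (e.trans h0.symm)
    have := τ.injective this
    subst this
    simp at hl0
  have hne1 : (τ l).val ≠ 1 := by
    intro e
    have : τ l = τ 1 := Fin.ext (e.trans h1.symm)
    have := τ.injective this
    subst this
    simp at hl1
  have hlt := (τ l).isLt
  have hll := l.isLt
  have hk : 2 ≤ kk c s0 l.val := by unfold kk; split_ifs <;> omega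
  have h4 := ww_pos (by omega) (hτ l hl2)
  unfold kk at h4
  unfold si
  split_ifs at h4 ⊢ <;> omega

lemma det_not_dvd (h2 : (2 : k) ≠ 0) {s c s0 : ℕ} (h2c : 2 ≤ c) (hc : c ≤ s + 2)
    (hs0 : s + 1 ≤ s0) :
    ¬ (X : k[X]) ^ (3 * (s + 2) - 3) ∣ (Matrix.of fun i l : Fin (s + 2) =>
      ww (aa k s c s0) (i.val + kk c s0 l.val)).det := by
  intro hdvd
  set τ : Equiv.Perm (Fin (s + 2)) := sg h2c hc with hτ
  set g : Equiv.Perm (Fin (s + 2)) := Equiv.swap 0 1 with hg
  have hdet : (Matrix.of fun i l : Fin (s + 2) =>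
      ww (aa k s c s0) (i.val + kk c s0 l.val)).det =
      ∑ σ : Equiv.Perm (Fin (s + 2)), (Equiv.Perm.sign σ : ℤ) • tm k s c s0 σ := by
    rw [det_apply]
    rfl
  have hτ0 : (τ 0).val = 0 := by rw [hτ, sg_val]; simp [si]
  have hτ1 : (τ 1).val = 1 := by rw [hτ, sg_val]; simp [si]
  have hgne : g * τ ≠ τ := by
    intro e
    have h3 : g = 1 := by
      have := congrArg (fun ρ => ρ * τ⁻¹) e
      simpa [mul_assoc] using this
    have h4 := congrArg (fun ρ : Equiv.Perm (Fin (s + 2)) => ρ 0) h3
    simp [hg] at h4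
  -- the other terms
  have hoth : ∀ σ, σ ≠ τ → σ ≠ g * τ → (X : k[X]) ^ (3 * (s + 2) - 3) ∣ tm k s c s0 σ := by
    intro σ hσ1 hσ2
    have hcomb := comb (fun l : Fin (s + 2) => (σ l).val) (fun l => kk c s0 l.val)
      (fun l l' h => σ.injective (Fin.ext h)) kk_inj
    rcases hcomb with hs | hex
    · exact term_dvd _ _ hs
    · have hzero : tm k s c s0 σ = 0 := by
        have hz : ∃ l : Fin (s + 2), 2 ≤ l.val ∧
            ww (aa k s c s0) ((σ l).val + kk c s0 l.val) = 0 := by
          by_contra hcon
          push Not at hcon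
          rcases hex with ⟨i, j, hi, hci, hj, hcj⟩ | ⟨i, j, hi, hci, hj, hcj⟩
          · have hi0 : i = 0 := by
              apply Fin.ext
              simp only [kk] at hci
              rw [Fin.val_zero]
              split_ifs at hci <;> omega
            have hj1 : j = 1 := by
              apply Fin.ext
              simp only [kk] at hcj
              rw [Fin.val_one]
              split_ifs at hcj <;> omega
            subst hi0 hj1
            exact hσ1 (sg_unique h2c hc hs0 σ hi hj hcon)
          · have hi1 : i = 1 := by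
              apply Fin.ext
              simp only [kk] at hci
              rw [Fin.val_one]
              split_ifs at hci <;> omega
            have hj0 : j = 0 := by
              apply Fin.ext
              simp only [kk] at hcj
              rw [Fin.val_zero]
              split_ifs at hcj <;> omega
            subst hi1 hj0
            have e0 : σ 1 = 0 := Fin.ext hi
            have e1 : σ 0 = 1 := Fin.ext hj
            have h5 : g * σ = τ := by
              refine sg_unique (k := k) h2c hc hs0 (g * σ) ?_ ?_ ?_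
              · rw [Equiv.Perm.mul_apply, e1, hg, Equiv.swap_apply_right]; simp
              · rw [Equiv.Perm.mul_apply, e0, hg, Equiv.swap_apply_left]; simp
              · intro l hl
                have hne : σ l ≠ 0 ∧ σ l ≠ 1 := by
                  constructor
                  · intro e
                    have := σ.injective (e.trans e0.symm)
                    subst this
                    simp at hl
                  · intro e
                    have := σ.injective (e.trans e1.symm)
                    subst this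
                    simp at hl
                rw [Equiv.Perm.mul_apply, hg, Equiv.swap_apply_of_ne_of_ne hne.1 hne.2]
                exact hcon l hl
            apply hσ2
            rw [← h5, ← mul_assoc, hg, Equiv.swap_mul_self, one_mul]
        obtain ⟨l, _, hl⟩ := hz
        exact Finset.prod_eq_zero (Finset.mem_univ l) hl
      rw [hzero]
      exact dvd_zero _
  -- the two main terms
  have hk0 : kk c s0 0 = 0 := by simp [kk]; omega
  have hk1 : kk c s0 1 = 1 := by simp [kk]; omega
  have hsplit : ∀ ρ : Equiv.Perm (Fin (s + 2)), tm k s c s0 ρ =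
      ww (aa k s c s0) ((ρ 0).val + 0) * (ww (aa k s c s0) ((ρ 1).val + 1) *
        ∏ l ∈ (Finset.univ.erase (0 : Fin (s + 2))).erase 1,
          ww (aa k s c s0) ((ρ l).val + kk c s0 l.val)) := by
    intro ρ
    rw [tm, ← Finset.mul_prod_erase _ _ (Finset.mem_univ (0 : Fin (s + 2))),
      ← Finset.mul_prod_erase _ _ (Finset.mem_erase.2 ⟨(by simp : (1 : Fin (s + 2)) ≠ 0),
        Finset.mem_univ (1 : Fin (s + 2))⟩)]
    simp only [Fin.val_zero, Fin.val_one, hk0, hk1]
  have hmain : ∏ l ∈ (Finset.univ.erase (0 : Fin (s + 2))).erase 1,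
      ww (aa k s c s0) ((τ l).val + kk c s0 l.val) = (X : k[X]) ^ (3 * s) := by
    have : ∀ l ∈ (Finset.univ.erase (0 : Fin (s + 2))).erase 1,
        ww (aa k s c s0) ((τ l).val + kk c s0 l.val) = (X : k[X]) ^ 3 := by
      intro l hl
      rw [Finset.mem_erase, Finset.mem_erase] at hl
      have hl2 : 2 ≤ l.val := by
        have e0 : l.val ≠ 0 := fun e => hl.2.1 (Fin.ext e)
        have e1 : l.val ≠ 1 := fun e => hl.1 (Fin.ext (by simpa using e))
        omega
      have hll := l.isLt
      have hx : (τ l).val + kk c s0 l.val = c + 1 ∨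
          (τ l).val + kk c s0 l.val = s0 + (s + 2) - 1 + c := by
        rw [hτ, sg_val]
        unfold si kk
        split_ifs <;> omega
      rw [ww_of_le _ (by rcases hx with hx | hx <;> omega), aa, if_pos hx, map_one, one_mul]
    rw [Finset.prod_congr rfl this, Finset.prod_const, ← pow_mul, Finset.card_erase_of_mem
      (Finset.mem_erase.2 ⟨(by simp : (1 : Fin (s + 2)) ≠ 0), Finset.mem_univ _⟩),
      Finset.card_erase_of_mem (Finset.mem_univ _), Finset.card_univ, Fintype.card_fin]
    congr 1
  have ht1 : tm k s c s0 τ = -(X : k[X]) ^ (3 * (s + 2) - 4) := by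
    rw [hsplit, hmain, hτ0, hτ1]
    simp only [add_zero, Nat.reduceAdd, ww_zero, ww_two]
    rw [show 3 * (s + 2) - 4 = 2 + 3 * s by omega, pow_add]
    ring
  have ht2 : tm k s c s0 (g * τ) = (X : k[X]) ^ (3 * (s + 2) - 4) := by
    rw [hsplit]
    have hrest : ∏ l ∈ (Finset.univ.erase (0 : Fin (s + 2))).erase 1,
        ww (aa k s c s0) (((g * τ) l).val + kk c s0 l.val) =
        ∏ l ∈ (Finset.univ.erase (0 : Fin (s + 2))).erase 1,
        ww (aa k s c s0) ((τ l).val + kk c s0 l.val) := by
      refine Finset.prod_congr rfl fun l hl => ?_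
      rw [Finset.mem_erase, Finset.mem_erase] at hl
      rw [Equiv.Perm.mul_apply, hg, Equiv.swap_apply_of_ne_of_ne]
      · intro e
        have : τ l = τ 0 := e.trans (Fin.ext (by simpa using hτ0.symm))
        exact hl.2.1 (τ.injective this)
      · intro e
        have : τ l = τ 1 := e.trans (Fin.ext (by simpa using hτ1.symm))
        exact hl.1 (τ.injective this)
    have e0 : τ 0 = 0 := Fin.ext (by simpa using hτ0)
    have e1 : τ 1 = 1 := Fin.ext (by simpa using hτ1)
    rw [hrest, hmain, Equiv.Perm.mul_apply, Equiv.Perm.mul_apply, e0, e1, hg,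
      Equiv.swap_apply_left, Equiv.swap_apply_right]
    simp only [Fin.val_zero, Fin.val_one, add_zero, zero_add, ww_one]
    rw [show 3 * (s + 2) - 4 = 2 + 3 * s by omega, pow_add]
    ring
  rw [hdet] at hdvd
  have hrem : (X : k[X]) ^ (3 * (s + 2) - 3) ∣
      ∑ σ ∈ (Finset.univ.erase τ).erase (g * τ), (Equiv.Perm.sign σ : ℤ) • tm k s c s0 σ := by
    refine Finset.dvd_sum fun σ hσ => ?_
    rw [Finset.mem_erase, Finset.mem_erase] at hσ
    rw [zsmul_eq_mul]
    exact (hoth σ hσ.2.1 hσ.1).mul_left _
  rw [← Finset.add_sum_erase _ _ (Finset.mem_univ τ),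
    ← Finset.add_sum_erase _ _ (Finset.mem_erase.2 ⟨hgne, Finset.mem_univ (g * τ)⟩),
    ← add_assoc] at hdvd
  have hlast := (dvd_add_left hrem).1 hdvd
  have hsg : Equiv.Perm.sign (g * τ) = - Equiv.Perm.sign τ := by
    rw [Equiv.Perm.sign_mul, hg, Equiv.Perm.sign_swap (by simp), neg_one_mul]
  rw [ht1, ht2, hsg] at hlast
  have hlast2 : (X : k[X]) ^ (3 * (s + 2) - 3) ∣ C (2 : k) * X ^ (3 * (s + 2) - 4) := by
    rcases Int.units_eq_one_or (Equiv.Perm.sign τ) with hu | hu
    · rw [hu] at hlast
      have h6 := (dvd_neg).2 hlast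
      rw [map_ofNat (C : k →+* k[X]) 2]
      convert h6 using 1
      simp
      ring
    · rw [hu] at hlast
      rw [map_ofNat (C : k →+* k[X]) 2]
      convert hlast using 1
      simp
      ring
  have hu : IsUnit (C (2 : k) : k[X]) := Polynomial.isUnit_C.2 (isUnit_iff_ne_zero.2 h2)
  have h7 := (hu.dvd_mul_left).1 hlast2
  have h8 := Polynomial.natDegree_le_of_dvd h7 (pow_ne_zero _ Polynomial.X_ne_zero)
  simp only [natDegree_pow, natDegree_X, mul_one] at h8
  omega

end Pool.Agent.X271.PR
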