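import Pool.Agent.X271.PermE

/-!
# The permanental ideals of wide Hankel matrices are not prime
-/

set_option autoImplicit false

namespace Pool.Agent.X271.PR

open Matrix Polynomial

variable {k : Type*} [Field k] {S : Type*} [CommRing S]

/-- The Hankel matrix with entries `z (i + j)`. -/
def hk (z : ℕ → S) (m n : ℕ) : Matrix (Fin m) (Fin n) S := Matrix.of fun i j => z (i.val + j.val)

lemma hankel_mem (z : ℕ → S) {m n t : ℕ} (ϱ : ℕ) (hϱ : ϱ + t ≤ m) (q : Fin t → ℕ)
    (hq : Function.Injective q) (h1 : ∀ j, ϱ ≤ q j) (h2 : ∀ j, q j < n + ϱ) :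
    (Matrix.of fun i j : Fin t => z (i.val + q j)).permanent ∈ permIdeal t (hk z m n) := by
  have h := perm_mem (t := t) (hk z m n) (r := fun i => ⟨ϱ + i.val, by have := i.2; omega⟩)
    (c := fun j => ⟨q j - ϱ, by have := h1 j; have := h2 j; omega⟩)
    (fun i j h => Fin.ext (by have := congrArg Fin.val h; simp at this; omega))
    (fun i j h => hq (by
      have := congrArg Fin.val h
      have := h1 i
      have := h1 j
      simp at *
      omega))
  convert h using 2
  ext i j
  have := h1 j
  simp only [of_apply, submatrix_apply, hk]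
  congr 1
  omega

/-- The columns of the auxiliary matrix. -/
def qq (κ k0 : ℕ) {s : ℕ} (j : Fin (s + 2)) : ℕ := if j.val = 0 then k0 else κ + j.val - 1

lemma qq_inj {κ k0 s : ℕ} (h : k0 < κ ∨ κ + s < k0) :
    Function.Injective (qq κ k0 : Fin (s + 2) → ℕ) := by
  intro i j hij
  have := i.isLt
  have := j.isLt
  apply Fin.ext
  unfold qq at hij
  split_ifs at hij <;> omega

theorem hankel_core {m n s : ℕ} (h2 : (2 : k) ≠ 0) (hm : s + 2 ≤ m) (hmn : m ≤ n)
    (h3 : 3 * (s + 2) ≤ m + n + 1) (z : ℕ → S)
    (hΨ : ∀ w : ℕ → k[X], ∃ Ψ : S →+* k[X], ∀ x, x + 1 < m + n → Ψ (z x) = w x) :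
    ¬ (permIdeal (s + 2) (hk z m n)).IsPrime := by
  intro hP
  set P := permIdeal (s + 2) (hk z m n) with hPdef
  set c : ℕ := min (s + 2) (n - (s + 2) + 1) with hc
  set s0 : ℕ := m + n - 2 * (s + 2) with hs0
  set κ : ℕ := max c (m - (s + 2)) with hκ
  have hc2 : 2 ≤ c := by omega
  have hcs : c ≤ s + 2 := by omega
  have hs01 : s + 1 ≤ s0 := by omega
  -- the auxiliary matrix
  set W : Matrix (Fin (s + 2)) (Fin (s + 2)) S :=
    Matrix.of fun i j => z (i.val + qq κ 0 j) with hW
  set π : Fin (s + 2) → S := fun i => (W.updateCol 0 (Pi.single i 1)).permanent with hπ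
  have hupd : ∀ k0 : ℕ, (Matrix.of fun i j : Fin (s + 2) => z (i.val + qq κ k0 j)) =
      W.updateCol 0 (fun i => z (i.val + k0)) := by
    intro k0
    ext i j
    by_cases hj : j = 0
    · subst hj
      rw [updateCol_self, of_apply]
      simp [qq]
    · rw [updateCol_ne hj, hW, of_apply, of_apply]
      have : j.val ≠ 0 := fun e => hj (Fin.ext e)
      simp [qq, this]
  -- membership
  set M : Matrix (Fin (s + 2)) (Fin (s + 2)) S :=
    Matrix.of fun l i => z (i.val + kk c s0 l.val) with hM
  have hmem : ∀ l, M.mulVec π l ∈ P := by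
    intro l
    have hll := l.isLt
    have h4 : M.mulVec π l = (W.updateCol 0 (fun i => z (i.val + kk c s0 l.val))).permanent := by
      rw [permanent_updateCol_eq]
      simp only [mulVec, dotProduct, pmMat, of_apply, hM, hπ]
      exact Finset.sum_congr rfl fun i _ => mul_comm _ _
    rw [h4, ← hupd]
    by_cases hl : l.val < c
    · have hk : kk c s0 l.val = l.val := by simp [kk, hl]
      rw [hk]
      refine hankel_mem z 0 (by omega) _ (qq_inj (Or.inl (by omega))) (fun j => Nat.zero_le _) ?_
      intro j
      have := j.isLt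
      unfold qq
      split_ifs <;> omega
    · have hk : kk c s0 l.val = s0 + l.val := by simp [kk, hl]
      rw [hk]
      refine hankel_mem z (m - (s + 2)) (by omega) _ (qq_inj (Or.inr (by omega))) ?_ ?_
      · intro j
        have := j.isLt
        unfold qq
        split_ifs <;> omega
      · intro j
        have := j.isLt
        unfold qq
        split_ifs <;> omega
  -- `π 0` is not in `P`
  have hπ0 : π 0 ∉ P := by
    intro hmem0
    obtain ⟨Θ, hΘ⟩ := hΨ (fun x => if x = κ + s + 1 then Polynomial.X else 0)
    have hdvd : (Polynomial.X : k[X]) ^ (s + 2) ∣ Θ (π 0) := by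
      refine pow_dvd_of_mem (hk z m n) Θ (fun i j => ?_) hmem0
      rw [hk, of_apply, hΘ _ (by have := i.2; have := j.2; omega)]
      split_ifs
      · exact dvd_rfl
      · exact dvd_zero _
    have hval : Θ (π 0) = (Polynomial.X : k[X]) ^ (s + 1) := by
      rw [hπ]
      simp only
      rw [map_permanent, permanent]
      set N : Equiv.Perm (Fin (s + 2)) := Function.Involutive.toPerm
        (fun j : Fin (s + 2) => (⟨if j.val = 0 then 0 else s + 2 - j.val, by
          split_ifs <;> omega⟩ : Fin (s + 2)))
        (fun j => by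
          apply Fin.ext
          have := j.isLt
          simp only
          split_ifs <;> omega) with hN
      have hNv : ∀ j, (N j).val = if j.val = 0 then 0 else s + 2 - j.val := fun j => rfl
      have hent : ∀ (i j : Fin (s + 2)), j ≠ 0 →
          (W.updateCol 0 (Pi.single 0 1)).map Θ i j =
            if i.val + j.val = s + 2 then (Polynomial.X : k[X]) else 0 := by
        intro i j hj
        have hj0 : j.val ≠ 0 := fun e => hj (Fin.ext e)
        have := i.isLt
        have := j.isLt
        rw [map_apply, updateCol_ne hj, hW, of_apply, hΘ _ (by unfold qq; split_ifs <;> omega)]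
        unfold qq
        rw [if_neg hj0]
        by_cases e : i.val + j.val = s + 2
        · rw [if_pos e, if_pos (by omega)]
        · rw [if_neg e, if_neg (by omega)]
      have hent0 : ∀ i : Fin (s + 2), (W.updateCol 0 (Pi.single 0 1)).map Θ i 0 =
          if i = 0 then (1 : k[X]) else 0 := by
        intro i
        rw [map_apply, updateCol_self, Pi.single_apply]
        split_ifs <;> simp
      rw [Fintype.sum_eq_single N]
      · rw [← Finset.mul_prod_erase _ _ (Finset.mem_univ (0 : Fin (s + 2))), hent0,
          if_pos (Fin.ext (by rw [hNv]; simp)), one_mul]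
        have : ∀ j ∈ Finset.univ.erase (0 : Fin (s + 2)),
            (W.updateCol 0 (Pi.single 0 1)).map Θ (N j) j = (Polynomial.X : k[X]) := by
          intro j hj
          have hj1 := (Finset.mem_erase.1 hj).1
          have hj0 : j.val ≠ 0 := fun e => hj1 (Fin.ext e)
          have := j.isLt
          rw [hent _ _ hj1, if_pos]
          rw [hNv, if_neg hj0]
          omega
        rw [Finset.prod_congr rfl this, Finset.prod_const, Finset.card_erase_of_mem
          (Finset.mem_univ _), Finset.card_univ, Fintype.card_fin]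
        congr 1
      · intro σ hσ
        by_contra hne
        have h : ∀ j, (W.updateCol 0 (Pi.single 0 1)).map Θ (σ j) j ≠ 0 := fun j hj =>
          hne (Finset.prod_eq_zero (Finset.mem_univ j) hj)
        apply hσ
        ext j
        rw [hNv]
        by_cases hj : j = 0
        · subst hj
          have := h 0
          rw [hent0] at this
          have h5 : σ 0 = 0 := by
            by_contra hc'
            rw [if_neg hc'] at this
            exact this rfl
          rw [h5]
          simp
        · have hj0 : j.val ≠ 0 := fun e => hj (Fin.ext e)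
          have := h j
          rw [hent _ _ hj] at this
          have h5 : (σ j).val + j.val = s + 2 := by
            by_contra hc'
            rw [if_neg hc'] at this
            exact this rfl
          rw [if_neg hj0]
          omega
    rw [hval] at hdvd
    have h8 := Polynomial.natDegree_le_of_dvd hdvd (pow_ne_zero _ Polynomial.X_ne_zero)
    simp only [natDegree_pow, natDegree_X, mul_one] at h8
    omega
  have hdet := det_mem hP M π hmem hπ0
  obtain ⟨Ψ, hΨ'⟩ := hΨ (ww (aa k s c s0))
  have hle : P ≤ (Ideal.span {(Polynomial.X : k[X]) ^ (3 * (s + 2) - 3)}).comap Ψ := by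
    rw [hPdef, permIdeal, Ideal.span_le]
    rintro x ⟨r, d, rfl⟩
    rw [SetLike.mem_coe, Ideal.mem_comap, Ideal.mem_span_singleton, map_permanent]
    have h5 := perm_dvd h2 (aa k s c s0) (fun i => (r i).val) (fun i => (d i).val)
      (fun i j h => r.injective (Fin.ext h)) (fun i j h => d.injective (Fin.ext h))
    have hmat : ((hk z m n).submatrix r d).map Ψ =
        Matrix.of fun i j => ww (aa k s c s0) ((r i).val + (d j).val) := by
      ext1 i j
      rw [map_apply, submatrix_apply, hk, of_apply, of_apply, hΨ' _ (by
        have := (r i).2; have := (d j).2; omega)]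
    rw [hmat]
    exact h5
  have h6 := hle hdet
  rw [Ideal.mem_comap, Ideal.mem_span_singleton, RingHom.map_det, RingHom.mapMatrix_apply] at h6
  apply det_not_dvd h2 hc2 hcs hs01
  rw [← det_transpose]
  convert h6 using 2
  ext1 l i
  have := l.isLt
  have := i.isLt
  rw [transpose_apply, of_apply, map_apply, hM, of_apply, hΨ' _ (by unfold kk; split_ifs <;> omega)]

/-- The Hankel matrix of indeterminates. -/
noncomputable def hankelMat (k : Type*) [Field k] (m n : ℕ) :
    Matrix (Fin m) (Fin n) (MvPolynomial (Fin (m + n - 1)) k) :=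
  Matrix.of fun i j => MvPolynomial.X ⟨i.val + j.val, by omega⟩

theorem hankel_not_prime (h2 : (2 : k) ≠ 0) {m n t : ℕ} (ht : 2 ≤ t) (hm : t ≤ m) (hn : t ≤ n)
    (h3 : 3 * t ≤ m + n + 1) : ¬ (permIdeal t (hankelMat k m n)).IsPrime := by
  obtain ⟨s, rfl⟩ : ∃ s, t = s + 2 := ⟨t - 2, by omega⟩
  set z : ℕ → MvPolynomial (Fin (m + n - 1)) k := fun x =>
    if h : x < m + n - 1 then MvPolynomial.X ⟨x, h⟩ else 0 with hz
  have hΨ : ∀ w : ℕ → k[X], ∃ Ψ : MvPolynomial (Fin (m + n - 1)) k →+* k[X],
      ∀ x, x + 1 < m + n → Ψ (z x) = w x := by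
    intro w
    refine ⟨(MvPolynomial.aeval (fun i : Fin (m + n - 1) => w i.val)).toRingHom, ?_⟩
    intro x hx
    have : x < m + n - 1 := by omega
    simp [hz, this]
  by_cases hmn : m ≤ n
  · have hX : hankelMat k m n = hk z m n := by
      ext1 i j
      have : i.val + j.val < m + n - 1 := by omega
      simp [hankelMat, hk, hz, this]
    rw [hX]
    exact hankel_core h2 hm hmn h3 z hΨ
  · have hX : (hankelMat k m n)ᵀ = hk z n m := by
      ext1 i j
      have : i.val + j.val < m + n - 1 := by omega
      simp [hankelMat, hk, hz, this, add_comm j.val i.val]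
    rw [← permIdeal_transpose, hX]
    exact hankel_core h2 hn (by omega) (by omega) z (by
      intro w
      obtain ⟨Ψ, h⟩ := hΨ w
      exact ⟨Ψ, fun x hx => h x (by omega)⟩)

end Pool.Agent.X271.PR
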