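import Pool.Agent.W375.MG.Out

set_option autoImplicit false

/-! The refined motivic monodromy property and the cubic polynomials: definitions. -/

namespace Pool.Agent.X271.RD

open MvPolynomial Pool.Agent.W428.MOT

/-- `1 - 𝕃⁻¹ T` -/
noncomputable def fac (K : Type) [Field K] : PowerSeries (MK K) :=
  1 - PowerSeries.C (((Lu K)⁻¹ : (MK K)ˣ) : MK K) * PowerSeries.X

/-- The cubic polynomial `x_0 + ∑_j t_j q_j(x)` in the variables `x = (x_0, …, x_n)`,
`t = (t_1, …, t_l)`. -/
noncomputable def cubic {k : Type} [Field k] {n l : ℕ} (q : Fin l → MvPolynomial (Fin (n + 1)) k) :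
    MvPolynomial (Fin (n + 1 + l)) k :=
  X (Fin.castAdd l 0) + ∑ j, X (Fin.natAdd (n + 1) j) * rename (Fin.castAdd l) (q j)

/-- `f + ∑_{i < κ} y_i z_i` in the variables `x, y, z` -/
noncomputable def stab {k : Type} [Field k] {n : ℕ} (f : MvPolynomial (Fin n) k) (κ : ℕ) :
    MvPolynomial (Fin (n + (κ + κ))) k :=
  rename (Fin.castAdd (κ + κ)) f +
    ∑ i : Fin κ, X (Fin.natAdd n (Fin.castAdd κ i)) * X (Fin.natAdd n (Fin.natAdd κ i))

/-- `s` is a root of every polynomial `c` for which `(s + 1) c(s)` satisfies a functional equation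
`(s + 1) c(s) f ^ s = P(s) f ^ (s + 1)`; for non-constant `f`: `s` is a root of `b_f(s) / (s + 1)`. -/
def RedRoot {k : Type} [Field k] [Algebra k ℂ] {n : ℕ} (f : MvPolynomial (Fin n) k) (s : ℂ) :
    Prop :=
  ∀ c : Polynomial ℂ, Pool.Agent.H628R4.TP.IsBFunction (map (algebraMap k ℂ) f)
    ((Polynomial.X + 1) * c) → c.eval s = 0

end Pool.Agent.X271.RD
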