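import Pool.Agent.X271.CubK
import Pool.Agent.X271.RefDef
import Pool.Agent.X271.MotMain

set_option autoImplicit false

/-! Reduction to cubics: refined motivic monodromy properties. -/

namespace Pool.Agent.X271.RC

open MvPolynomial Pool.Agent.H628R4.TP
open Pool.Agent.W428.MOT (Pt Constr ratRing Lu MK)
open Pool.Agent.W375.MG (zetaG Good ratRing_mono)
open Pool.Agent.Y229.MS
open Pool.Agent.X271.RD (fac cubic RedRoot)

variable {k : Type} [Field k]

/-! ### The chain -/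

/-- `F` is `f + ∑_{i < m} y_i z_i` after an automorphism and a renaming -/
def PPs {n : ℕ} (f : MvPolynomial (Fin n) k) (ρ : Type) [Finite ρ] (m : ℕ)
    (F : MvPolynomial ρ k) : Prop :=
  ∃ (e : Fin (n + 2 * m) ≃ ρ)
    (ψ : MvPolynomial (Fin (n + 2 * m)) k ≃ₐ[k] MvPolynomial (Fin (n + 2 * m)) k),
    rename e (ψ (itr f m)) = F

theorem addyz_rename {M : ℕ} {ρ : Type} (e : Fin M ≃ ρ) (g : MvPolynomial (Fin M) k) :
    rename ((finSumFinEquiv (m := M) (n := 2)).symm.trans (Equiv.sumCongr e (Equiv.refl _)))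
      (addyz g) = rename Sum.inl (rename e g) + X (Sum.inr 0) * X (Sum.inr 1) := by
  unfold addyz
  rw [map_add, map_mul, rename_X, rename_X, rename_rename, rename_rename]
  congr 1
  · congr 2
    funext i
    simp
  · simp

theorem chain {n : ℕ} (f : MvPolynomial (Fin n) k) : CK.Chain (PPs f) where
  aut := by
    rintro ρ _ e0 m F ⟨e, ψ, rfl⟩
    refine ⟨e, ((ψ.trans (renameEquiv k e)).trans e0).trans (renameEquiv k e).symm, ?_⟩
    rw [← renameEquiv_apply, ← renameEquiv_apply]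
    show renameEquiv k e ((renameEquiv k e).symm (e0 (renameEquiv k e (ψ (itr f m))))) = _
    rw [AlgEquiv.apply_symm_apply]
  ren := by
    rintro ρ ρ' _ _ e1 m F ⟨e, ψ, rfl⟩
    exact ⟨e.trans e1, ψ, by rw [rename_rename]; rfl⟩
  step := by
    rintro ρ _ m F ⟨e, ψ, rfl⟩
    obtain ⟨ψ', hψ'⟩ := Pool.Agent.Y405.MS.ext k ψ
    refine ⟨(finSumFinEquiv (m := n + 2 * m) (n := 2)).symm.trans
      (Equiv.sumCongr e (Equiv.refl _)), ψ', ?_⟩
    rw [← addyz_rename, ← hψ']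
    rfl

theorem cubic_eq {n l : ℕ} (q : Fin l → MvPolynomial (Fin (n + 1)) k) :
    rename finSumFinEquiv (X (Sum.inl 0) + CK.quadSum q) = cubic q := by
  unfold CK.quadSum cubic
  rw [map_add, rename_X, map_sum]
  congr 1
  refine Finset.sum_congr rfl fun j _ => ?_
  rw [map_mul, rename_X, rename_rename]
  rfl

/-- one more variable -/
theorem pps_succ {n : ℕ} {f : MvPolynomial (Fin n) k} {m n' l : ℕ}
    {q : Fin l → MvPolynomial (Fin (n' + 1)) k}
    (h : PPs f (Fin (n' + 1) ⊕ Fin l) m (X (Sum.inl 0) + CK.quadSum q))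
    (hq : ∀ j, (q j).totalDegree ≤ 2) :
    ∃ q' : Fin (l + 1) → MvPolynomial (Fin (n' + 1 + 1)) k, (∀ j, (q' j).totalDegree ≤ 2) ∧
      PPs f (Fin (n' + 1 + 1) ⊕ Fin (l + 1)) (m + 1) (X (Sum.inl 0) + CK.quadSum q') := by
  set q' : Fin (l + 1) → MvPolynomial (Fin (n' + 1 + 1)) k :=
    Fin.snoc (fun j => rename Fin.castSucc (q j)) (X (Fin.last (n' + 1))) with hq'
  refine ⟨q', fun j => ?_, ?_⟩
  · refine Fin.lastCases ?_ (fun j => ?_) j
    · rw [hq', Fin.snoc_last, totalDegree_X]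
      norm_num
    · rw [hq', Fin.snoc_castSucc]
      exact (totalDegree_rename_le _ _).trans (hq j)
  · have h1 := (chain f).step _ _ _ h
    let e : (Fin (n' + 1) ⊕ Fin l) ⊕ Fin 2 ≃ Fin (n' + 1 + 1) ⊕ Fin (l + 1) :=
      (Equiv.sumCongr (Equiv.refl _) (finSumFinEquiv (m := 1) (n := 1)).symm).trans
        ((Equiv.sumSumSumComm _ _ _ _).trans
          (Equiv.sumCongr (finSumFinEquiv (m := n' + 1) (n := 1))
            (finSumFinEquiv (m := l) (n := 1))))
    have h2 := (chain f).ren _ _ e _ _ h1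
    convert h2 using 1
    have e1 : ∀ i : Fin (n' + 1), e (Sum.inl (Sum.inl i)) = Sum.inl i.castSucc := fun i => rfl
    have e2 : ∀ i : Fin l, e (Sum.inl (Sum.inr i)) = Sum.inr i.castSucc := fun i => rfl
    have e3 : e (Sum.inr 0) = Sum.inl (Fin.last _) := rfl
    have e4 : e (Sum.inr 1) = Sum.inr (Fin.last _) := rfl
    rw [map_add, rename_rename, map_add, rename_X, Function.comp_apply, e1, map_mul, rename_X,
      rename_X, e3, e4, Fin.castSucc_zero]
    refine Eq.trans ?_ (add_assoc (X (Sum.inl 0) : MvPolynomial (Fin (n' + 1 + 1) ⊕ Fin (l + 1)) k)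
      _ _).symm
    congr 1
    unfold CK.quadSum
    rw [Fin.sum_univ_castSucc, map_sum]
    congr 1
    · refine Finset.sum_congr rfl fun j _ => ?_
      rw [hq', Fin.snoc_castSucc, map_mul, rename_X, rename_rename, rename_rename,
        Function.comp_apply, e2]
      congr 2
    · rw [hq', Fin.snoc_last, rename_X, mul_comm]

/-- the form in numbered variables -/
theorem iso_of_pps {n : ℕ} {f : MvPolynomial (Fin n) k} {m n' l : ℕ}
    {q : Fin l → MvPolynomial (Fin (n' + 1)) k}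
    (h : PPs f (Fin (n' + 1) ⊕ Fin l) m (X (Sum.inl 0) + CK.quadSum q)) :
    n + 2 * m = n' + 1 + l ∧
    ∃ Φ : MvPolynomial (Fin (n + 2 * m)) k ≃ₐ[k] MvPolynomial (Fin (n' + 1 + l)) k,
      Φ (itr f m) = cubic q := by
  obtain ⟨e, ψ, h⟩ := h
  refine ⟨by simpa using Fintype.card_congr e,
    ψ.trans (renameEquiv k (e.trans finSumFinEquiv)), ?_⟩
  show rename (e.trans finSumFinEquiv) (ψ (itr f m)) = _
  rw [← cubic_eq, ← h, rename_rename]
  rfl

/-- **Every polynomial becomes a cubic `x_0 + ∑ t_j q_j(x)`.** -/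
theorem universal {n : ℕ} (f : MvPolynomial (Fin n) k) :
    ∃ m : ℕ, 1 ≤ m ∧
      (∃ (n' l : ℕ) (q : Fin l → MvPolynomial (Fin (n' + 1)) k),
        (∀ j, (q j).totalDegree ≤ 2) ∧ n + 2 * m = n' + 1 + l ∧
        ∃ Φ : MvPolynomial (Fin (n + 2 * m)) k ≃ₐ[k] MvPolynomial (Fin (n' + 1 + l)) k,
          Φ (itr f m) = cubic q) ∧
      (∃ (n' l : ℕ) (q : Fin l → MvPolynomial (Fin (n' + 1)) k),
        (∀ j, (q j).totalDegree ≤ 2) ∧ n + 2 * (m + 1) = n' + 1 + l ∧
        ∃ Φ : MvPolynomial (Fin (n + 2 * (m + 1))) k ≃ₐ[k] MvPolynomial (Fin (n' + 1 + l)) k,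
          Φ (itr f (m + 1)) = cubic q) := by
  obtain ⟨n', l, m, q, hm, hq, h⟩ := (chain f).main f (m := 0)
    ⟨Equiv.refl _, AlgEquiv.refl, by simp only [itr, Equiv.coe_refl, rename_id]; rfl⟩
  obtain ⟨h1, Φ, hΦ⟩ := iso_of_pps h
  obtain ⟨q', hq', h'⟩ := pps_succ h hq
  obtain ⟨h1', Φ', hΦ'⟩ := iso_of_pps h'
  exact ⟨m, by omega, ⟨n', l, q, hq, h1, Φ, hΦ⟩, ⟨n' + 1, l + 1, q', hq', h1', Φ', hΦ'⟩⟩

/-! ### The principle -/

theorem addyz_deg {n : ℕ} (g : MvPolynomial (Fin n) k) : (addyz g).totalDegree ≠ 0 := by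
  intro h0
  have h1 := congrArg (pderiv (Fin.natAdd n 0)) (totalDegree_eq_zero_iff_eq_C.1 h0)
  unfold addyz at h1
  have h3 : ∀ i : Fin n, Fin.castAdd 2 i ≠ Fin.natAdd n 0 := by
    intro i h
    have := congrArg Fin.val h
    simp only [Fin.val_castAdd, Fin.val_natAdd] at this
    have := i.2
    omega
  rw [pderiv_C, map_add, Pool.Agent.W206.CU.pderiv_rename_of_not _ _ h3, Derivation.leibniz,
    pderiv_X_self, pderiv_X_of_ne (by
      intro h
      have := congrArg Fin.val h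
      simp at this), smul_zero, zero_add, smul_eq_mul, mul_one, zero_add] at h1
  exact X_ne_zero _ h1

theorem itr_deg {n : ℕ} {f : MvPolynomial (Fin n) k} (hf : f.totalDegree ≠ 0) :
    ∀ m, (itr f m).totalDegree ≠ 0
  | 0 => hf
  | _ + 1 => addyz_deg _

/-- **The reduction principle.** -/
theorem principle (Q : ∀ n, MvPolynomial (Fin n) k → Prop)
    (hiso : ∀ (a b : ℕ) (Φ : MvPolynomial (Fin a) k ≃ₐ[k] MvPolynomial (Fin b) k), a = b →
      ∀ g, Q b (Φ g) → Q a g)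
    (hdesc : ∀ (n : ℕ) (f : MvPolynomial (Fin n) k), f.totalDegree ≠ 0 → Q _ (addyz f) →
      Q _ (addyz (addyz f)) → Q n f)
    (hcub : ∀ (n l : ℕ) (q : Fin l → MvPolynomial (Fin (n + 1)) k),
      (∀ j, (q j).totalDegree ≤ 2) → Q _ (cubic q)) {n : ℕ} (f : MvPolynomial (Fin n) k)
    (hf : f.totalDegree ≠ 0) : Q n f := by
  have key : ∀ m : ℕ, Q _ (itr f m) → Q _ (itr f (m + 1)) → Q n f := by
    intro m
    induction m with
    | zero => exact fun h _ => h
    | succ m ih => exact fun h1 h2 => ih (hdesc _ (itr f m) (itr_deg hf m) h1 h2) h1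
  obtain ⟨m, -, ⟨n1, l1, q1, hq1, hn1, Φ1, hΦ1⟩, ⟨n2, l2, q2, hq2, hn2, Φ2, hΦ2⟩⟩ := universal f
  refine key m (hiso _ _ Φ1 hn1 _ ?_) (hiso _ _ Φ2 hn2 _ ?_)
  · rw [hΦ1]
    exact hcub _ _ _ hq1
  · rw [hΦ2]
    exact hcub _ _ _ hq2

end Pool.Agent.X271.RC
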