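import Pool.Agent.X271.MonoIdeal
import Pool.Agent.H677R3.RegKoszul

/-!
# Monomial ideals whose powers have regularity `k + d`
-/

namespace Pool.Agent.X271.SlopeOne

open MvPolynomial Pool.Agent.X271.VNum Pool.Agent.X271.Mono Pool.Agent.H677R3.EdgeReg

variable {K : Type*} [Field K] {n : ℕ}

/-- A minimal monomial of a monomial ideal gives a nonzero `Tor_0` in its degree. -/
theorem torNe_of_minimal {J : Ideal (MvPolynomial (Fin n) K)} (hJ : IsMonomial J)
    {u : Fin n →₀ ℕ} (hu : (monomial u (1 : K)) ∈ J)
    (hmin : ∀ j, u j ≠ 0 → (monomial (u - Finsupp.single j 1) (1 : K)) ∉ J) :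
    TorNe J 0 u.degree := by
  classical
  refine ⟨fun T => if T = ∅ then monomial u 1 else 0, ?_, ?_, ?_, ?_, ?_⟩
  · intro T
    dsimp only
    split_ifs
    · exact hu
    · exact Ideal.zero_mem _
  · intro T
    dsimp only
    split_ifs
    · exact isHomogeneous_monomial _ rfl
    · exact isHomogeneous_zero _ _ _
  · intro T hT
    dsimp only
    rw [if_neg]
    rintro rfl
    simp at hT
  · intro T
    unfold koszulD
    apply Finset.sum_eq_zero
    intro j _
    dsimp only
    rw [if_neg (Finset.insert_ne_empty _ _), mul_zero, mul_zero]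
  · rintro ⟨g, hg1, _, hg3⟩
    have h := hg3 ∅
    dsimp only at h
    rw [if_pos rfl] at h
    have h2 := congrArg (fun p => MvPolynomial.coeff u p) h
    simp only [coeff_monomial, if_true] at h2
    unfold koszulD at h2
    rw [coeff_sum] at h2
    have h3 : ∀ j ∈ (∅ : Finset (Fin n))ᶜ, coeff u ((-1) ^ (Finset.filter (· < j) (∅ : Finset (Fin n))).card *
        (X j * g (insert j ∅))) = 0 := by
      intro j _
      rw [Finset.filter_empty, Finset.card_empty, pow_zero, one_mul, coeff_X_mul']
      split_ifs with hj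
      · by_contra hcon
        rw [Finsupp.mem_support_iff] at hj
        exact hmin j hj ((hJ.mem_iff _).1 (hg1 _) _ hcon)
      · rfl
    rw [Finset.sum_eq_zero h3] at h2
    exact zero_ne_one h2

/-- If `reg J = r` (or the generators have degree `≤ r`) every monomial of `J` is divisible by a
monomial of `J` of degree at most `r`. -/
theorem exists_small_divisor {J : Ideal (MvPolynomial (Fin n) K)} (hJ : IsMonomial J) {r : ℕ}
    (hr : IsReg J r) (u : Fin n →₀ ℕ) (hu : (monomial u (1 : K)) ∈ J) :
    ∃ w ≤ u, (monomial w (1 : K)) ∈ J ∧ w.degree ≤ r := by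
  have key : ∀ N : ℕ, ∀ u : Fin n →₀ ℕ, u.degree = N → (monomial u (1 : K)) ∈ J →
      ∃ w ≤ u, (monomial w (1 : K)) ∈ J ∧ w.degree ≤ r := by
    intro N
    induction N using Nat.strong_induction_on with
    | _ N ih =>
      intro u hN hu
      by_cases h : ∃ j, u j ≠ 0 ∧ (monomial (u - Finsupp.single j 1) (1 : K)) ∈ J
      · obtain ⟨j, hj, hj2⟩ := h
        have hle : Finsupp.single j 1 ≤ u := by
          rw [Finsupp.single_le_iff]
          omega
        have hdeg : (u - Finsupp.single j 1).degree + 1 = u.degree := by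
          have := congrArg Finsupp.degree (tsub_add_cancel_of_le hle)
          rw [map_add, Finsupp.degree_single] at this
          exact this
        obtain ⟨w, hw, hw2⟩ := ih _ (by omega) _ rfl hj2
        exact ⟨w, hw.trans tsub_le_self, hw2⟩
      · push Not at h
        have := torNe_of_minimal hJ hu h
        exact ⟨u, le_rfl, hu, hr.2 ⟨0, this⟩⟩
  exact key _ u rfl hu

/-- The number of variables of `s` (with multiplicity) in a monomial. -/
noncomputable def ordIn (s : Finset (Fin n)) : (Fin n →₀ ℕ) →+ ℕ where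
  toFun u := ∑ i ∈ s, u i
  map_zero' := by simp
  map_add' u v := by simp [Finset.sum_add_distrib]

theorem ordIn_apply (s : Finset (Fin n)) (u : Fin n →₀ ℕ) : ordIn s u = ∑ i ∈ s, u i := rfl

theorem main {I : Ideal (MvPolynomial (Fin n) K)} (hI : IsMonomial I) (hI1 : I ≠ ⊤) (b d : ℕ)
    (h : ∀ᶠ k : ℕ in Filter.atTop, vNumber (I ^ k) = k + b ∧ IsReg (I ^ k) (k + d)) : False := by
  classical
  obtain ⟨N, hN⟩ := Filter.eventually_atTop.1 h
  set k := N + d + 2 with hk
  obtain ⟨hv, hreg⟩ := hN k (by omega)
  set L : Finset (Fin n) := Finset.univ.filter (fun i => (X i : MvPolynomial (Fin n) K) ∈ I) with hL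
  have hmemL : ∀ i, i ∈ L ↔ (X i : MvPolynomial (Fin n) K) ∈ I := by
    intro i; simp [hL]
  -- the weight deg + ord_L is at least 2 on I
  let φ : (Fin n →₀ ℕ) →+ ℕ := Finsupp.degree + ordIn L
  have hφ : ∀ m, (monomial m (1 : K)) ∈ I → 2 ≤ φ m := by
    intro m hm
    have hm0 : m ≠ 0 := by
      rintro rfl
      apply hI1
      rw [Ideal.eq_top_iff_one]
      exact hm
    have hd1 : m.degree ≠ 0 := by
      rw [Ne, Finsupp.degree_eq_zero_iff]
      exact hm0
    change 2 ≤ m.degree + ordIn L m
    by_cases hd2 : m.degree = 1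
    · -- m is a variable
      obtain ⟨i, hi⟩ : ∃ i, m i ≠ 0 := by
        by_contra hcon
        push Not at hcon
        exact hm0 (Finsupp.ext hcon)
      have hle : Finsupp.single i 1 ≤ m := by
        rw [Finsupp.single_le_iff]; omega
      obtain ⟨c, hc⟩ := exists_add_of_le hle
      have h3 := congrArg Finsupp.degree hc
      rw [map_add, Finsupp.degree_single, hd2] at h3
      have hc0 : c = 0 := by
        rw [← Finsupp.degree_eq_zero_iff]; omega
      rw [hc0, add_zero] at hc
      have hiL : i ∈ L := by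
        rw [hmemL, X, ← hc]
        exact hm
      have : 1 ≤ ordIn L m := by
        rw [ordIn_apply]
        calc 1 ≤ m i := by omega
          _ ≤ ∑ i ∈ L, m i := Finset.single_le_sum (f := fun i => m i) (fun _ _ => Nat.zero_le _) hiL
      omega
    · omega
  have hpow : ∀ m, (monomial m (1 : K)) ∈ I ^ k → 2 * k ≤ φ m := weight_le_of_mem_pow hI φ 2 hφ k
  -- every monomial of I involves a variable of L
  have hsupp : ∀ m, (monomial m (1 : K)) ∈ I → ∃ i ∈ L, m i ≠ 0 := by
    intro m hm
    have h1 : (monomial (k • m) (1 : K)) ∈ I ^ k := by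
      have := Ideal.pow_mem_pow hm k
      rwa [monomial_pow, one_pow] at this
    obtain ⟨w, hw, hw1, hw2⟩ := exists_small_divisor (hI.pow k) hreg _ h1
    have h2 := hpow w hw1
    change 2 * k ≤ w.degree + ordIn L w at h2
    have h3 : ordIn L w ≤ ordIn L (k • m) := by
      rw [ordIn_apply, ordIn_apply]
      exact Finset.sum_le_sum fun i _ => hw i
    rw [map_nsmul, smul_eq_mul] at h3
    by_contra hcon
    push Not at hcon
    have h4 : ordIn L m = 0 := by
      rw [ordIn_apply]
      exact Finset.sum_eq_zero hcon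
    rw [h4, mul_zero] at h3
    omega
  -- L is nonempty, since otherwise I = 0 and there is no regularity
  have hIspan : I = Ideal.span (X '' (L : Set (Fin n))) := by
    apply le_antisymm
    · intro f hf
      rw [mem_ideal_span_X_image]
      intro m hm
      obtain ⟨i, hi, hi2⟩ := hsupp m ((hI.mem_iff f).1 hf m (mem_support_iff.1 hm))
      exact ⟨i, hi, hi2⟩
    · rw [Ideal.span_le]
      rintro _ ⟨i, hi, rfl⟩
      exact (hmemL i).1 hi
  have hLne : L.Nonempty := by
    by_contra hcon
    rw [Finset.not_nonempty_iff_eq_empty] at hcon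
    have hbot : I ^ k = ⊥ := by
      rw [hIspan, hcon]
      simp [hk]
    obtain ⟨i, f, hf1, _, _, _, hf5⟩ := hreg.1
    rw [hbot] at hf1 hf5
    apply hf5
    refine ⟨fun _ => 0, fun _ => Ideal.zero_mem _, fun _ _ => rfl, fun T => ?_⟩
    rw [(Ideal.mem_bot.1 (hf1 T))]
    unfold koszulD
    simp
  obtain ⟨i0, hi0⟩ := hLne
  have hL1 : ∀ m, (monomial m (1 : K)) ∈ I → 1 ≤ ordIn L m := by
    intro m hm
    obtain ⟨i, hi, hi2⟩ := hsupp m hm
    rw [ordIn_apply]
    calc 1 ≤ m i := by omega
      _ ≤ ∑ i ∈ L, m i := Finset.single_le_sum (f := fun i => m i) (fun _ _ => Nat.zero_le _) hi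
  have hordpow : ∀ m, (monomial m (1 : K)) ∈ I ^ k → 1 * k ≤ ordIn L m :=
    weight_le_of_mem_pow hI (ordIn L) 1 hL1 k
  have hmem : k - 1 ∈ vSet (I ^ k) := by
    refine ⟨X i0 ^ (k - 1), isHomogeneous_X_pow i0 (k - 1), ?_⟩
    have hcolon : Submodule.colon (I ^ k) {(X i0 ^ (k - 1) : MvPolynomial (Fin n) K)} = I := by
      apply le_antisymm
      · intro g hg
        rw [Submodule.mem_colon_singleton, smul_eq_mul] at hg
        rw [hIspan, mem_ideal_span_X_image]
        intro m hm
        have h5 : (g * X i0 ^ (k - 1)).coeff (m + Finsupp.single i0 (k - 1)) ≠ 0 := by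
          rw [X_pow_eq_monomial, coeff_mul_monomial, mul_one]
          exact mem_support_iff.1 hm
        have h6 := hordpow _ (((hI.pow k).mem_iff _).1 hg _ h5)
        rw [map_add] at h6
        have h7 : ordIn L (Finsupp.single i0 (k - 1)) = k - 1 := by
          rw [ordIn_apply, Finset.sum_eq_single i0]
          · simp
          · intro j _ hj
            rw [Finsupp.single_apply, if_neg (Ne.symm hj)]
          · intro h; exact absurd hi0 h
        rw [h7] at h6
        by_contra hcon
        push Not at hcon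
        have h8 : ordIn L m = 0 := by
          rw [ordIn_apply]
          exact Finset.sum_eq_zero fun i hi => hcon i (by exact_mod_cast hi)
        omega
      · intro g hg
        rw [Submodule.mem_colon_singleton, smul_eq_mul]
        have h5 : (X i0 : MvPolynomial (Fin n) K) ^ (k - 1) ∈ I ^ (k - 1) :=
          Ideal.pow_mem_pow ((hmemL i0).1 hi0) _
        have h6 := Ideal.mul_mem_mul hg h5
        rw [← pow_succ'] at h6
        have : k - 1 + 1 = k := by omega
        rwa [this] at h6
    apply colon_mem_ass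
    rw [hcolon, hIspan]
    exact span_X_prime _
  have h9 : vNumber (I ^ k) ≤ k - 1 := Nat.sInf_le hmem
  omega

end Pool.Agent.X271.SlopeOne
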