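import Pool.Agent.X271.VNum

/-!
# The ideals `(y², y z^m, x z^{2m})`
-/

namespace Pool.Agent.X271.VSlope

open MvPolynomial Pool.Agent.X271.VNum

variable (K : Type*) [Field K] (m : ℕ)

/-- The ideal `(y², y z^m, x z^{2m})` of `K[x,y,z]`. -/
noncomputable def slopeIdeal : Ideal (MvPolynomial (Fin 3) K) :=
  Ideal.span {X 1 ^ 2, X 1 * X 2 ^ m, X 0 * X 2 ^ (2 * m)}

/-- The prime `(x,y)`. -/
noncomputable def xyPrime : Ideal (MvPolynomial (Fin 3) K) :=
  Ideal.span {X 0, X 1}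

/-- The substitution `x ↦ x t`, `y ↦ y t`, `z ↦ z`, or a general weighted one. -/
noncomputable def phi (w : Fin 3 → ℕ) : MvPolynomial (Fin 3) K →ₐ[K]
    Polynomial (MvPolynomial (Fin 3) K) :=
  aeval (fun j => Polynomial.C (X j) * Polynomial.X ^ (w j))

variable {K m}

/-- the weight of an exponent -/
def wt (w : Fin 3 → ℕ) (u : Fin 3 →₀ ℕ) : ℕ := w 0 * u 0 + w 1 * u 1 + w 2 * u 2

theorem monomial_eq3 (u : Fin 3 →₀ ℕ) (c : K) :
    (monomial u c : MvPolynomial (Fin 3) K) = C c * (X 0 ^ u 0 * X 1 ^ u 1 * X 2 ^ u 2) := by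
  rw [monomial_eq, Finsupp.prod_fintype _ _ (by simp), Fin.prod_univ_three]

theorem phi_monomial (w : Fin 3 → ℕ) (u : Fin 3 →₀ ℕ) (c : K) :
    phi K w (monomial u c) = Polynomial.C (monomial u c) * Polynomial.X ^ (wt w u) := by
  rw [monomial_eq3, map_mul]
  simp only [phi, map_mul, map_pow, aeval_X, algHom_C]
  rw [Polynomial.algebraMap_apply, MvPolynomial.algebraMap_eq, wt, pow_add, pow_add, pow_mul, pow_mul, pow_mul]
  ring

theorem phi_coeff (w : Fin 3 → ℕ) (a : ℕ) (u : Fin 3 →₀ ℕ) (f : MvPolynomial (Fin 3) K) :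
    ((phi K w f).coeff a).coeff u = if wt w u = a then f.coeff u else 0 := by
  induction f using MvPolynomial.induction_on' with
  | monomial v c =>
    rw [phi_monomial, Polynomial.coeff_C_mul, Polynomial.coeff_X_pow, coeff_monomial]
    by_cases hv : v = u
    · subst hv
      by_cases h : a = wt w v
      · simp [h]
      · simp [h, Ne.symm h]
    · by_cases h : a = wt w v
      · simp [h, hv]
      · simp [h, hv]
  | add p q hp hq =>
    rw [map_add, Polynomial.coeff_add, coeff_add, hp, hq, coeff_add]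
    split_ifs <;> simp

theorem dvd_phi_iff (w : Fin 3 → ℕ) (a : ℕ) (f : MvPolynomial (Fin 3) K) :
    Polynomial.X ^ a ∣ phi K w f ↔ ∀ u, f.coeff u ≠ 0 → a ≤ wt w u := by
  rw [Polynomial.X_pow_dvd_iff]
  constructor
  · intro h u hu
    by_contra hcon
    have h2 := h (wt w u) (by omega)
    apply hu
    have h3 := phi_coeff w (wt w u) u f
    rw [h2, if_pos rfl, coeff_zero] at h3
    exact h3.symm
  · intro h d hd
    ext u
    rw [phi_coeff, coeff_zero]
    split_ifs with h1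
    · by_contra hcon
      have := h u hcon
      omega
    · rfl

/-- elements of the power have large weight -/
theorem wt_le_of_mem (w : Fin 3 → ℕ) (a : ℕ) {J : Ideal (MvPolynomial (Fin 3) K)}
    (hJ : J ≤ (Ideal.span {Polynomial.X ^ a} : Ideal (Polynomial (MvPolynomial (Fin 3) K))).comap
      (phi K w)) (k : ℕ) {f : MvPolynomial (Fin 3) K} (hf : f ∈ J ^ k) :
    ∀ u, f.coeff u ≠ 0 → a * k ≤ wt w u := by
  rw [← dvd_phi_iff]
  have h1 : phi K w f ∈ (J ^ k).map (phi K w : MvPolynomial (Fin 3) K →+* Polynomial (MvPolynomial (Fin 3) K)) :=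
    Ideal.mem_map_of_mem _ hf
  rw [Ideal.map_pow] at h1
  have h2 : J.map (phi K w : MvPolynomial (Fin 3) K →+* Polynomial (MvPolynomial (Fin 3) K)) ≤ Ideal.span {Polynomial.X ^ a} := by
    rw [Ideal.map_le_iff_le_comap]
    exact hJ
  have h3 := Ideal.pow_right_mono h2 k h1
  rw [Ideal.span_singleton_pow, Ideal.mem_span_singleton, ← pow_mul] at h3
  exact h3

theorem mem_pow_wt1 {k : ℕ} {f : MvPolynomial (Fin 3) K} (hf : f ∈ slopeIdeal K m ^ k)
    {u : Fin 3 →₀ ℕ} (hu : f.coeff u ≠ 0) : k ≤ u 0 + u 1 := by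
  have := wt_le_of_mem ![1, 1, 0] 1 (J := slopeIdeal K m) (by
    unfold slopeIdeal
    rw [Ideal.span_le]
    intro x hx
    simp only [Set.mem_insert_iff, Set.mem_singleton_iff] at hx
    rcases hx with rfl | rfl | rfl
    · rw [SetLike.mem_coe, Ideal.mem_comap, Ideal.mem_span_singleton]
      simp only [phi, map_pow, aeval_X]
      exact ⟨Polynomial.C (X 1) ^ 2 * Polynomial.X, by simp; ring⟩
    · rw [SetLike.mem_coe, Ideal.mem_comap, Ideal.mem_span_singleton]
      simp only [phi, map_mul, map_pow, aeval_X]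
      exact ⟨Polynomial.C (X 1) * Polynomial.C (X 2) ^ m, by simp; ring⟩
    · rw [SetLike.mem_coe, Ideal.mem_comap, Ideal.mem_span_singleton]
      simp only [phi, map_mul, map_pow, aeval_X]
      exact ⟨Polynomial.C (X 0) * Polynomial.C (X 2) ^ (2 * m), by simp; ring⟩) k hf u hu
  simp [wt] at this
  omega

theorem mem_pow_wt2 {k : ℕ} {f : MvPolynomial (Fin 3) K} (hf : f ∈ slopeIdeal K m ^ k)
    {u : Fin 3 →₀ ℕ} (hu : f.coeff u ≠ 0) : 2 * m * k ≤ m * u 1 + u 2 := by
  have := wt_le_of_mem ![0, m, 1] (2 * m) (J := slopeIdeal K m) (by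
    unfold slopeIdeal
    rw [Ideal.span_le]
    intro x hx
    simp only [Set.mem_insert_iff, Set.mem_singleton_iff] at hx
    rcases hx with rfl | rfl | rfl
    · rw [SetLike.mem_coe, Ideal.mem_comap, Ideal.mem_span_singleton]
      simp only [phi, map_pow, aeval_X]
      exact ⟨Polynomial.C (X 1) ^ 2, by simp; ring⟩
    · rw [SetLike.mem_coe, Ideal.mem_comap, Ideal.mem_span_singleton]
      simp only [phi, map_mul, map_pow, aeval_X]
      exact ⟨Polynomial.C (X 1) * Polynomial.C (X 2) ^ m, by simp; ring⟩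
    · rw [SetLike.mem_coe, Ideal.mem_comap, Ideal.mem_span_singleton]
      simp only [phi, map_mul, map_pow, aeval_X]
      exact ⟨Polynomial.C (X 0) * Polynomial.C (X 2) ^ (2 * m), by simp; ring⟩) k hf u hu
  simp [wt] at this
  exact this

theorem monomial_mem_pow {k : ℕ} {u : Fin 3 →₀ ℕ} (c : K) (h1 : k ≤ u 0 + u 1)
    (h2 : 2 * m * k ≤ m * u 1 + u 2) : (monomial u c : MvPolynomial (Fin 3) K) ∈ slopeIdeal K m ^ k := by
  have g1 : (X 1 ^ 2 : MvPolynomial (Fin 3) K) ∈ slopeIdeal K m := Ideal.subset_span (by simp)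
  have g2 : (X 1 * X 2 ^ m : MvPolynomial (Fin 3) K) ∈ slopeIdeal K m := Ideal.subset_span (by simp)
  have g3 : (X 0 * X 2 ^ (2 * m) : MvPolynomial (Fin 3) K) ∈ slopeIdeal K m :=
    Ideal.subset_span (by simp)
  rw [monomial_eq3]
  apply Ideal.mul_mem_left
  by_cases hb : 2 * k ≤ u 1
  · obtain ⟨r, hr⟩ := Nat.exists_eq_add_of_le hb
    have := Ideal.pow_mem_pow g1 k
    have h3 := Ideal.mul_mem_left _ (X 0 ^ u 0 * X 1 ^ r * X 2 ^ u 2) this
    convert h3 using 1
    rw [hr]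
    ring
  · by_cases hb2 : k ≤ u 1
    · obtain ⟨i, hi⟩ := Nat.exists_eq_add_of_le hb2
      obtain ⟨j, hj⟩ : ∃ j, k = i + j := ⟨k - i, by omega⟩
      have hz : m * j ≤ u 2 := by
        have : 2 * m * k = m * u 1 + m * j := by rw [hi, hj]; ring
        omega
      obtain ⟨s, hs⟩ := Nat.exists_eq_add_of_le hz
      have h3 := Ideal.mul_mem_mul (Ideal.pow_mem_pow g1 i) (Ideal.pow_mem_pow g2 j)
      rw [← pow_add, ← hj] at h3
      have h4 := Ideal.mul_mem_left _ (X 0 ^ u 0 * X 2 ^ s) h3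
      convert h4 using 1
      rw [hi, hs, hj]
      ring
    · obtain ⟨l, hl⟩ := Nat.exists_eq_add_of_le (le_of_not_ge hb2)
      have hx : l ≤ u 0 := by omega
      have hz : m * u 1 + 2 * m * l ≤ u 2 := by
        have : 2 * m * k = 2 * m * u 1 + 2 * m * l := by rw [hl]; ring
        have h5 : 2 * m * u 1 = m * u 1 + m * u 1 := by ring
        omega
      obtain ⟨s, hs⟩ := Nat.exists_eq_add_of_le hz
      obtain ⟨t, ht⟩ := Nat.exists_eq_add_of_le hx
      have h3 := Ideal.mul_mem_mul (Ideal.pow_mem_pow g2 (u 1)) (Ideal.pow_mem_pow g3 l)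
      rw [← pow_add, ← hl] at h3
      have h4 := Ideal.mul_mem_left _ (X 0 ^ t * X 2 ^ s) h3
      convert h4 using 1
      rw [hs, ht]
      ring

theorem mem_pow_iff {k : ℕ} {f : MvPolynomial (Fin 3) K} : f ∈ slopeIdeal K m ^ k ↔
    ∀ u, f.coeff u ≠ 0 → k ≤ u 0 + u 1 ∧ 2 * m * k ≤ m * u 1 + u 2 := by
  constructor
  · intro hf u hu
    exact ⟨mem_pow_wt1 hf hu, mem_pow_wt2 hf hu⟩
  · intro h
    rw [f.as_sum]
    refine Ideal.sum_mem _ fun u hu => ?_
    obtain ⟨h1, h2⟩ := h u (mem_support_iff.1 hu)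
    exact monomial_mem_pow _ h1 h2


theorem mem_xyPrime_iff {f : MvPolynomial (Fin 3) K} :
    f ∈ xyPrime K ↔ ∀ u, f.coeff u ≠ 0 → 1 ≤ u 0 + u 1 := by
  have h := mem_ideal_span_X_image (x := f) (s := ({0, 1} : Set (Fin 3)))
  have h2 : (X '' ({0, 1} : Set (Fin 3)) : Set (MvPolynomial (Fin 3) K)) = {X 0, X 1} := by
    simp [Set.image_pair]
  rw [h2] at h
  unfold xyPrime
  rw [h]
  constructor
  · intro h3 u hu
    obtain ⟨i, hi, hi2⟩ := h3 u (mem_support_iff.2 hu)
    simp only [Set.mem_insert_iff, Set.mem_singleton_iff] at hi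
    rcases hi with rfl | rfl <;> omega
  · intro h3 u hu
    have := h3 u (mem_support_iff.1 hu)
    by_cases h0 : u 0 = 0
    · exact ⟨1, by simp, by omega⟩
    · exact ⟨0, by simp, h0⟩

theorem coeff_X_mul3 (i : Fin 3) (f : MvPolynomial (Fin 3) K) (u : Fin 3 →₀ ℕ) :
    (X i * f).coeff (u + Finsupp.single i 1) = f.coeff u := by
  rw [coeff_X_mul' ]
  simp

/-- if `x f ∈ I^k` and `y f ∈ I^k` the exponents of `f` satisfy the weight conditions. -/
theorem exps_of_X_mul {k : ℕ} {f : MvPolynomial (Fin 3) K} (h0 : X 0 * f ∈ slopeIdeal K m ^ k)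
    (u : Fin 3 →₀ ℕ) (hu : f.coeff u ≠ 0) : k ≤ u 0 + u 1 + 1 ∧ 2 * m * k ≤ m * u 1 + u 2 := by
  rw [mem_pow_iff] at h0
  have := h0 (u + Finsupp.single 0 1) (by rw [coeff_X_mul3]; exact hu)
  simp at this
  omega

/-- The weight valuation: if `h ∉ (x,y)` and `h f ∈ I^k` and all exponents of `f` satisfy the second
condition, then `f ∈ I^k`. -/
theorem mem_of_mul {k : ℕ} {f h : MvPolynomial (Fin 3) K}
    (hf : ∀ u, f.coeff u ≠ 0 → 2 * m * k ≤ m * u 1 + u 2)
    (hh : h ∉ xyPrime K) (hmul : h * f ∈ slopeIdeal K m ^ k) : f ∈ slopeIdeal K m ^ k := by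
  rw [mem_pow_iff]
  intro u hu
  refine ⟨?_, hf u hu⟩
  -- divisibility by powers of the prime t
  have hdiv : Polynomial.X ^ k ∣ phi K ![1, 1, 0] (h * f) := by
    rw [dvd_phi_iff]
    intro v hv
    have := mem_pow_wt1 hmul hv
    simp [wt]
    omega
  have hnd : ¬ Polynomial.X ∣ phi K ![1, 1, 0] h := by
    intro hd
    apply hh
    rw [mem_xyPrime_iff]
    intro v hv
    have h2 := (dvd_phi_iff ![1, 1, 0] 1 h).1 (by rwa [pow_one]) v hv
    simp [wt] at h2
    omega
  rw [map_mul] at hdiv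
  have h3 : Polynomial.X ^ k ∣ phi K ![1, 1, 0] f :=
    (Polynomial.prime_X.pow_dvd_of_dvd_mul_left k hnd) hdiv
  have h4 := (dvd_phi_iff ![1, 1, 0] k f).1 h3 u hu
  simp [wt] at h4
  omega

theorem xyPrime_isPrime : (xyPrime K).IsPrime := by
  unfold xyPrime
  have h2 : (X '' ({0, 1} : Set (Fin 3)) : Set (MvPolynomial (Fin 3) K)) = {X 0, X 1} := by
    simp [Set.image_pair]
  rw [← h2]
  constructor
  · intro h
    rw [Ideal.eq_top_iff_one, mem_ideal_span_X_image] at h
    obtain ⟨i, _, hi⟩ := h 0 (by simp)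
    simp at hi
  · intro a b hab
    rw [h2] at hab ⊢
    by_contra hcon
    push Not at hcon
    obtain ⟨ha, hb⟩ := hcon
    have key : ∀ c : MvPolynomial (Fin 3) K, c ∈ Ideal.span ({X 0, X 1} : Set (MvPolynomial (Fin 3) K)) ↔
        Polynomial.X ∣ phi K ![1, 1, 0] c := by
      intro c
      have := dvd_phi_iff ![1, 1, 0] 1 c
      rw [pow_one] at this
      rw [this]
      change c ∈ xyPrime K ↔ _
      rw [mem_xyPrime_iff]
      simp [wt]
    rw [key] at ha hb hab
    rw [map_mul] at hab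
    rcases Polynomial.prime_X.dvd_or_dvd hab with h | h
    · exact ha h
    · exact hb h

theorem colon_eq_of_mem {k : ℕ} {f : MvPolynomial (Fin 3) K} (h0 : X 0 * f ∈ slopeIdeal K m ^ k)
    (h1 : X 1 * f ∈ slopeIdeal K m ^ k) (hf : f ∉ slopeIdeal K m ^ k) :
    Submodule.colon (slopeIdeal K m ^ k) {f} = xyPrime K := by
  apply le_antisymm
  · intro r hr
    by_contra hcon
    rw [Submodule.mem_colon_singleton, smul_eq_mul] at hr
    exact hf (mem_of_mul (fun u hu => (exps_of_X_mul h0 u hu).2) hcon hr)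
  · unfold xyPrime
    rw [Ideal.span_le]
    intro x hx
    simp only [Set.mem_insert_iff, Set.mem_singleton_iff] at hx
    rcases hx with rfl | rfl
    · exact Submodule.mem_colon_singleton.2 h0
    · exact Submodule.mem_colon_singleton.2 h1

/-- the witness `y^(k-1) z^(m k + m)` with `k = j + 1` -/
noncomputable def wit (K : Type*) [Field K] (m j : ℕ) : MvPolynomial (Fin 3) K :=
  monomial (Finsupp.single 1 j + Finsupp.single 2 (m * (j + 1) + m)) 1

theorem wit_colon (j : ℕ) :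
    Submodule.colon (slopeIdeal K m ^ (j + 1)) {wit K m j} = xyPrime K := by
  apply colon_eq_of_mem
  · unfold wit
    rw [X, monomial_mul]
    apply monomial_mem_pow
    · simp
    · simp; ring_nf; rfl
  · unfold wit
    rw [X, monomial_mul]
    apply monomial_mem_pow
    · simp
    · simp
      have : 2 * m * (j + 1) = m * j + m * j + 2 * m := by ring
      have h2 : m * (1 + j) = m + m * j := by ring
      have h3 : m * (j + 1) = m * j + m := by ring
      rw [this, h2, h3]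
      omega
  · intro h
    rw [mem_pow_iff] at h
    have := (h (Finsupp.single 1 j + Finsupp.single 2 (m * (j + 1) + m)) (by
      unfold wit; rw [coeff_monomial, if_pos rfl]; exact one_ne_zero)).1
    simp at this

theorem wit_hom (j : ℕ) : (wit K m j).IsHomogeneous ((m + 1) * (j + 1) + m - 1) := by
  unfold wit
  apply isHomogeneous_monomial
  simp only [map_add, Finsupp.degree_single]
  have : (m + 1) * (j + 1) = m * (j + 1) + j + 1 := by ring
  omega

theorem lower {j : ℕ} {f : MvPolynomial (Fin 3) K} {d : ℕ} (hd : f.IsHomogeneous d)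
    (h : Submodule.colon (slopeIdeal K m ^ (j + 1)) {f} = xyPrime K) :
    (m + 1) * (j + 1) + m - 1 ≤ d := by
  have h0 : X 0 * f ∈ slopeIdeal K m ^ (j + 1) := by
    have : (X 0 : MvPolynomial (Fin 3) K) ∈ xyPrime K := Ideal.subset_span (by simp)
    rw [← h] at this
    exact Submodule.mem_colon_singleton.1 this
  have hf : f ∉ slopeIdeal K m ^ (j + 1) := by
    intro hf
    have h1 : (1 : MvPolynomial (Fin 3) K) ∈ xyPrime K := by
      rw [← h]
      exact Submodule.mem_colon_singleton.2 (by simpa using hf)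
    exact xyPrime_isPrime.ne_top ((Ideal.eq_top_iff_one _).2 h1)
  rw [mem_pow_iff] at hf
  push Not at hf
  obtain ⟨u, hu, hu2⟩ := hf
  obtain ⟨e1, e2⟩ := exps_of_X_mul h0 u hu
  have e3 : ¬ (j + 1 ≤ u 0 + u 1) := fun h => absurd (hu2 h) (not_lt.2 e2)
  have hdeg : u 0 + u 1 + u 2 = d := by
    have h6 := hd hu
    rw [← h6, Finsupp.weight_apply, Finsupp.sum_fintype _ _ (by simp), Fin.sum_univ_three]
    simp
  have h7 : u 0 + u 1 = j := by omega
  have h8 : m * u 1 ≤ m * j := Nat.mul_le_mul_left m (by omega)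
  have h9 : 2 * m * (j + 1) = m * j + m * j + 2 * m := by ring
  have h10 : (m + 1) * (j + 1) = m * j + m + j + 1 := by ring
  omega

theorem localV_slope (j : ℕ) :
    localV (xyPrime K) (slopeIdeal K m ^ (j + 1)) = (m + 1) * (j + 1) + m - 1 := by
  have hmem : (m + 1) * (j + 1) + m - 1 ∈ localVSet (xyPrime K) (slopeIdeal K m ^ (j + 1)) :=
    ⟨wit K m j, wit_hom j, wit_colon j⟩
  apply le_antisymm (Nat.sInf_le hmem)
  obtain ⟨f, hf, hass⟩ := Nat.sInf_mem ⟨_, hmem⟩
  exact lower hf hass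

theorem xy_mem_ass {k : ℕ} (hk : 1 ≤ k) : xyPrime K ∈ associatedPrimes (MvPolynomial (Fin 3) K)
    (MvPolynomial (Fin 3) K ⧸ slopeIdeal K m ^ k) := by
  obtain ⟨j, rfl⟩ : ∃ j, k = j + 1 := ⟨k - 1, by omega⟩
  rw [← wit_colon j]
  apply colon_mem_ass
  rw [wit_colon j]
  exact xyPrime_isPrime

theorem xy_maximal {k : ℕ} {q : Ideal (MvPolynomial (Fin 3) K)}
    (hq : q ∈ associatedPrimes (MvPolynomial (Fin 3) K)
      (MvPolynomial (Fin 3) K ⧸ slopeIdeal K m ^ k)) (hle : xyPrime K ≤ q) : q = xyPrime K := by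
  obtain ⟨hqp, x, hx⟩ := (isAssociatedPrime_iff).1 hq
  obtain ⟨f, rfl⟩ := Ideal.Quotient.mk_surjective x
  rw [colon_bot_mk] at hx
  have h0 : X 0 * f ∈ slopeIdeal K m ^ k := by
    have : (X 0 : MvPolynomial (Fin 3) K) ∈ q := hle (Ideal.subset_span (by simp))
    rw [hx] at this
    exact Submodule.mem_colon_singleton.1 this
  have h1 : X 1 * f ∈ slopeIdeal K m ^ k := by
    have : (X 1 : MvPolynomial (Fin 3) K) ∈ q := hle (Ideal.subset_span (by simp))
    rw [hx] at this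
    exact Submodule.mem_colon_singleton.1 this
  have hf : f ∉ slopeIdeal K m ^ k := by
    intro hf
    apply hqp.ne_top
    rw [Ideal.eq_top_iff_one, hx]
    exact Submodule.mem_colon_singleton.2 (by simpa using hf)
  rw [hx]
  exact colon_eq_of_mem h0 h1 hf

theorem xy_maximal_stable : Maximal (fun q => q ∈ stablePrimes (slopeIdeal K m)) (xyPrime K) := by
  constructor
  · exact Filter.eventually_atTop.2 ⟨1, fun k hk => xy_mem_ass hk⟩
  · intro q hq hle
    obtain ⟨k, hk⟩ := (Filter.Eventually.exists hq)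
    exact (xy_maximal hk hle).le

theorem initDegree_slope (hm : 1 ≤ m) : initDegree (slopeIdeal K m) = 2 := by
  have hmem : 2 ∈ {d : ℕ | ∃ f ∈ slopeIdeal K m, f ≠ 0 ∧ f.IsHomogeneous d} :=
    ⟨X 1 ^ 2, Ideal.subset_span (by simp), pow_ne_zero _ (X_ne_zero 1), isHomogeneous_X_pow 1 2⟩
  apply le_antisymm (Nat.sInf_le hmem)
  obtain ⟨f, hf, hf0, hd⟩ := Nat.sInf_mem ⟨_, hmem⟩
  obtain ⟨u, hu⟩ := (MvPolynomial.support_nonempty (p := f)).2 hf0
  rw [mem_support_iff] at hu
  have h1 : f ∈ slopeIdeal K m ^ 1 := by rwa [pow_one]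
  obtain ⟨e1, e2⟩ := mem_pow_iff.1 h1 u hu
  have hdeg : u 0 + u 1 + u 2 = sInf {d : ℕ | ∃ f ∈ slopeIdeal K m, f ≠ 0 ∧ f.IsHomogeneous d} := by
    have h6 := hd hu
    rw [← h6, Finsupp.weight_apply, Finsupp.sum_fintype _ _ (by simp), Fin.sum_univ_three]
    simp
  rw [← hdeg]
  rcases Nat.lt_or_ge (u 1) 2 with h | h
  · have : m * u 1 ≤ m * 1 := Nat.mul_le_mul_left m (by omega)
    omega
  · omega

theorem slope_isHomog : IsHomog (slopeIdeal K m) := by
  apply isHomog_span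
  intro g hg
  simp only [Set.mem_insert_iff, Set.mem_singleton_iff] at hg
  rcases hg with rfl | rfl | rfl
  · exact ⟨_, isHomogeneous_X_pow 1 2⟩
  · exact ⟨_, (isHomogeneous_X K 1).mul (isHomogeneous_X_pow 2 m)⟩
  · exact ⟨_, (isHomogeneous_X K 0).mul (isHomogeneous_X_pow 2 (2 * m))⟩

theorem slope_ne_bot : slopeIdeal K m ≠ ⊥ := by
  intro h
  have : (X 1 ^ 2 : MvPolynomial (Fin 3) K) ∈ slopeIdeal K m := Ideal.subset_span (by simp)
  rw [h, Ideal.mem_bot] at this
  exact pow_ne_zero _ (X_ne_zero 1) this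

theorem slope_ne_top : slopeIdeal K m ≠ ⊤ := by
  intro h
  have h1 : (1 : MvPolynomial (Fin 3) K) ∈ slopeIdeal K m ^ 1 := by rw [pow_one, h]; trivial
  have := (mem_pow_iff.1 h1 0 (by simp)).1
  simp at this

theorem tendsto_slope :
    Filter.Tendsto (fun k : ℕ => (localV (xyPrime K) (slopeIdeal K m ^ k) : ℝ) / k)
      Filter.atTop (nhds (m + 1 : ℝ)) := by
  have h1 : Filter.Tendsto (fun k : ℕ => (m + 1 : ℝ) + ((m : ℝ) - 1) / k) Filter.atTop
      (nhds ((m + 1 : ℝ) + 0)) :=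
    Filter.Tendsto.add tendsto_const_nhds (tendsto_const_div_atTop_nhds_zero_nat _)
  rw [add_zero] at h1
  refine h1.congr' ?_
  filter_upwards [Filter.eventually_ge_atTop 1] with k hk
  obtain ⟨j, rfl⟩ : ∃ j, k = j + 1 := ⟨k - 1, by omega⟩
  rw [localV_slope, Nat.cast_sub (by
    have : 1 * 1 ≤ (m + 1) * (j + 1) := Nat.mul_le_mul (by omega) (by omega)
    omega)]
  have : ((j + 1 : ℕ) : ℝ) ≠ 0 := by positivity
  field_simp
  push_cast
  ring

end Pool.Agent.X271.VSlope
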