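import Pool.Agent.X271.MonoIdeal
import Pool.Agent.X271.VSlope

/-!
# The symbolic defect of `(y²z, xyz, x²y, x³)`
-/

namespace Pool.Agent.X271.SymDef

open MvPolynomial Pool.Agent.X271.VNum Pool.Agent.X271.Mono Pool.Agent.X271.VSlope

/-- The `n`-th symbolic power of `I`, over all associated primes of `R/I`: the elements `f` such
that for every associated prime `p` some `s ∉ p` has `s f ∈ I^n`
(that is, `f` lies in `I^n R_p ∩ R` for all associated primes `p`). -/
def symPow {R : Type*} [CommRing R] (I : Ideal R) (n : ℕ) : Ideal R where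
  carrier := {f | ∀ p ∈ associatedPrimes R (R ⧸ I), ∃ s, s ∉ p ∧ s * f ∈ I ^ n}
  add_mem' := by
    intro f g hf hg p hp
    obtain ⟨s, hs, hsf⟩ := hf p hp
    obtain ⟨t, ht, htg⟩ := hg p hp
    refine ⟨s * t, ?_, ?_⟩
    · intro h
      rcases hp.1.mem_or_mem h with h | h
      · exact hs h
      · exact ht h
    · have h1 := Ideal.mul_mem_left _ t hsf
      have h2 := Ideal.mul_mem_left _ s htg
      have := Ideal.add_mem _ h1 h2
      convert this using 1
      ring
  zero_mem' := by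
    intro p hp
    refine ⟨1, ?_, by simp⟩
    intro h
    exact hp.1.ne_top ((Ideal.eq_top_iff_one _).2 h)
  smul_mem' := by
    intro c f hf p hp
    obtain ⟨s, hs, hsf⟩ := hf p hp
    refine ⟨s, hs, ?_⟩
    have := Ideal.mul_mem_left _ c hsf
    convert this using 1
    rw [smul_eq_mul]
    ring

theorem mem_symPow {R : Type*} [CommRing R] (I : Ideal R) (n : ℕ) (f : R) :
    f ∈ symPow I n ↔ ∀ p ∈ associatedPrimes R (R ⧸ I), ∃ s, s ∉ p ∧ s * f ∈ I ^ n := Iff.rfl

/-- The symbolic defect: the minimal number of generators of `I^(n)/I^n`, that is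
`dim_K I^(n)/(I^n + m I^(n))`. -/
noncomputable def sdef {σ K : Type*} [Field K] (I : Ideal (MvPolynomial σ K)) (n : ℕ) : ℕ :=
  Module.finrank K (↥(symPow I n) ⧸
    Submodule.comap (symPow I n).subtype (I ^ n ⊔ idealOfVars σ K * symPow I n))

variable (K : Type*) [Field K]

/-- The ideal `(y²z, xyz, x²y, x³)`. -/
noncomputable def sdIdeal : Ideal (MvPolynomial (Fin 3) K) :=
  Ideal.span {X 1 ^ 2 * X 2, X 0 * X 1 * X 2, X 0 ^ 2 * X 1, X 0 ^ 3}

variable {K}

theorem sdIdeal_mono : IsMonomial (sdIdeal K) := by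
  refine ⟨{Finsupp.single 1 2 + Finsupp.single 2 1, Finsupp.single 0 1 + Finsupp.single 1 1 + Finsupp.single 2 1,
    Finsupp.single 0 2 + Finsupp.single 1 1, Finsupp.single 0 3}, ?_⟩
  unfold sdIdeal
  congr 1
  rw [Set.image_insert_eq, Set.image_insert_eq, Set.image_insert_eq, Set.image_singleton]
  simp only [X_pow_eq_monomial]
  simp only [X, monomial_mul, one_mul]

theorem gen1 : (X 1 ^ 2 * X 2 : MvPolynomial (Fin 3) K) ∈ sdIdeal K := Ideal.subset_span (by simp)
theorem gen2 : (X 0 * X 1 * X 2 : MvPolynomial (Fin 3) K) ∈ sdIdeal K :=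
  Ideal.subset_span (by simp)
theorem gen3 : (X 0 ^ 2 * X 1 : MvPolynomial (Fin 3) K) ∈ sdIdeal K := Ideal.subset_span (by simp)
theorem gen4 : (X 0 ^ 3 : MvPolynomial (Fin 3) K) ∈ sdIdeal K := Ideal.subset_span (by simp)

theorem wt_pow (w : Fin 3 → ℕ) (a : ℕ)
    (h1 : a ≤ 2 * w 1 + w 2) (h2 : a ≤ w 0 + w 1 + w 2) (h3 : a ≤ 2 * w 0 + w 1) (h4 : a ≤ 3 * w 0)
    (k : ℕ) {f : MvPolynomial (Fin 3) K} (hf : f ∈ sdIdeal K ^ k) (u : Fin 3 →₀ ℕ)
    (hu : f.coeff u ≠ 0) : a * k ≤ wt w u := by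
  refine wt_le_of_mem w a ?_ k hf u hu
  unfold sdIdeal
  rw [Ideal.span_le]
  intro x hx
  simp only [Set.mem_insert_iff, Set.mem_singleton_iff] at hx
  rw [SetLike.mem_coe, Ideal.mem_comap, Ideal.mem_span_singleton, dvd_phi_iff]
  intro v hv
  rcases hx with rfl | rfl | rfl | rfl
  · rw [X_pow_eq_monomial, X, monomial_mul, coeff_monomial] at hv
    split_ifs at hv with h
    · rw [← h]; simp [wt]; omega
    · exact absurd rfl hv
  · rw [X, X, X, monomial_mul, monomial_mul, coeff_monomial] at hv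
    split_ifs at hv with h
    · rw [← h]; simp [wt]; omega
    · exact absurd rfl hv
  · rw [X_pow_eq_monomial, X, monomial_mul, coeff_monomial] at hv
    split_ifs at hv with h
    · rw [← h]; simp [wt]; omega
    · exact absurd rfl hv
  · rw [X_pow_eq_monomial, coeff_monomial] at hv
    split_ifs at hv with h
    · rw [← h]; simp [wt]; omega
    · exact absurd rfl hv

/-- the conditions on exponents -/
def T (n : ℕ) (a b c : ℕ) : Prop := 3 * n ≤ a + 2 * b ∧ 2 * n ≤ a + b ∧ 2 * n ≤ a + 2 * c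

theorem mono_mem_of (n a b c : ℕ) (l j i k : ℕ) (hn : l + j + i + k = n)
    (ha : 3 * l + j + 2 * k ≤ a) (hb : j + 2 * i + k ≤ b) (hc : j + i ≤ c) :
    (X 0 ^ a * X 1 ^ b * X 2 ^ c : MvPolynomial (Fin 3) K) ∈ sdIdeal K ^ n := by
  have e1 := Ideal.mul_mem_mul (Ideal.mul_mem_mul (Ideal.mul_mem_mul
    (Ideal.pow_mem_pow (gen4 (K := K)) l) (Ideal.pow_mem_pow gen2 j)) (Ideal.pow_mem_pow gen1 i))
    (Ideal.pow_mem_pow gen3 k)
  rw [← pow_add, ← pow_add, ← pow_add, hn] at e1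
  obtain ⟨a', rfl⟩ := Nat.exists_eq_add_of_le ha
  obtain ⟨b', rfl⟩ := Nat.exists_eq_add_of_le hb
  obtain ⟨c', rfl⟩ := Nat.exists_eq_add_of_le hc
  have e2 := Ideal.mul_mem_left _ (X 0 ^ a' * X 1 ^ b' * X 2 ^ c') e1
  convert e2 using 1
  ring

theorem monomial_mem_of (n : ℕ) (u : Fin 3 →₀ ℕ) (l j i k : ℕ) (hn : l + j + i + k = n)
    (ha : 3 * l + j + 2 * k ≤ u 0) (hb : j + 2 * i + k ≤ u 1) (hc : j + i ≤ u 2) :
    (monomial u (1 : K)) ∈ sdIdeal K ^ n := by
  rw [monomial_eq3]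
  exact Ideal.mul_mem_left _ _ (mono_mem_of n _ _ _ l j i k hn ha hb hc)

/-- the prime `(x, y)` and `(x, z)` as colons -/
theorem colon_yz {g : MvPolynomial (Fin 3) K} (hg : g * (X 1 * X 2) ∈ sdIdeal K) :
    g ∈ Ideal.span (X '' ({0, 1} : Set (Fin 3)) : Set (MvPolynomial (Fin 3) K)) := by
  rw [mem_ideal_span_X_image]
  intro m hm
  have h1 : (g * (X 1 * X 2)).coeff (m + (Finsupp.single 1 1 + Finsupp.single 2 1)) ≠ 0 := by
    rw [X, X, monomial_mul, one_mul, coeff_mul_monomial, mul_one]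
    exact mem_support_iff.1 hm
  have h2 := wt_pow ![1, 2, 0] 3 (by simp) (by simp) (by simp) (by simp) 1 (by rwa [pow_one]) _ h1
  simp [wt] at h2
  by_cases h0 : m 0 = 0
  · exact ⟨1, by simp, by omega⟩
  · exact ⟨0, by simp, h0⟩

theorem colon_xy {g : MvPolynomial (Fin 3) K} (hg : g * (X 0 * X 1) ∈ sdIdeal K) :
    g ∈ Ideal.span (X '' ({0, 2} : Set (Fin 3)) : Set (MvPolynomial (Fin 3) K)) := by
  rw [mem_ideal_span_X_image]
  intro m hm
  have h1 : (g * (X 0 * X 1)).coeff (m + (Finsupp.single 0 1 + Finsupp.single 1 1)) ≠ 0 := by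
    rw [X, X, monomial_mul, one_mul, coeff_mul_monomial, mul_one]
    exact mem_support_iff.1 hm
  have h2 := wt_pow ![1, 0, 2] 2 (by simp) (by simp) (by simp) (by simp) 1 (by rwa [pow_one]) _ h1
  simp [wt] at h2
  by_cases h0 : m 0 = 0
  · exact ⟨2, by simp, by omega⟩
  · exact ⟨0, by simp, h0⟩

theorem ass1 : Ideal.span (X '' ({0, 1} : Set (Fin 3)) : Set (MvPolynomial (Fin 3) K)) ∈
    associatedPrimes (MvPolynomial (Fin 3) K) (MvPolynomial (Fin 3) K ⧸ sdIdeal K) := by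
  have : Submodule.colon (sdIdeal K) {(X 1 * X 2 : MvPolynomial (Fin 3) K)} =
      Ideal.span (X '' ({0, 1} : Set (Fin 3)) : Set (MvPolynomial (Fin 3) K)) := by
    apply le_antisymm
    · intro g hg
      rw [Submodule.mem_colon_singleton, smul_eq_mul] at hg
      exact colon_yz hg
    · rw [Ideal.span_le]
      rintro _ ⟨i, hi, rfl⟩
      rw [SetLike.mem_coe, Submodule.mem_colon_singleton, smul_eq_mul]
      simp only [Set.mem_insert_iff, Set.mem_singleton_iff] at hi
      rcases hi with rfl | rfl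
      · convert gen2 (K := K) using 1; ring
      · convert gen1 (K := K) using 1; ring
  rw [← this]
  apply colon_mem_ass
  rw [this]
  exact span_X_prime _

theorem ass2 : Ideal.span (X '' ({0, 2} : Set (Fin 3)) : Set (MvPolynomial (Fin 3) K)) ∈
    associatedPrimes (MvPolynomial (Fin 3) K) (MvPolynomial (Fin 3) K ⧸ sdIdeal K) := by
  have : Submodule.colon (sdIdeal K) {(X 0 * X 1 : MvPolynomial (Fin 3) K)} =
      Ideal.span (X '' ({0, 2} : Set (Fin 3)) : Set (MvPolynomial (Fin 3) K)) := by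
    apply le_antisymm
    · intro g hg
      rw [Submodule.mem_colon_singleton, smul_eq_mul] at hg
      exact colon_xy hg
    · rw [Ideal.span_le]
      rintro _ ⟨i, hi, rfl⟩
      rw [SetLike.mem_coe, Submodule.mem_colon_singleton, smul_eq_mul]
      simp only [Set.mem_insert_iff, Set.mem_singleton_iff] at hi
      rcases hi with rfl | rfl
      · convert gen3 (K := K) using 1; ring
      · convert gen2 (K := K) using 1; ring
  rw [← this]
  apply colon_mem_ass
  rw [this]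
  exact span_X_prime _

/-- valuation trick -/
theorem wt_of_mul (w : Fin 3 → ℕ) (a k : ℕ) (S : Set (Fin 3)) (hS : ∀ i, i ∉ S → w i = 0)
    (h1 : a ≤ 2 * w 1 + w 2) (h2 : a ≤ w 0 + w 1 + w 2) (h3 : a ≤ 2 * w 0 + w 1) (h4 : a ≤ 3 * w 0)
    {s f : MvPolynomial (Fin 3) K} (hs : s ∉ Ideal.span (X '' S : Set (MvPolynomial (Fin 3) K)))
    (hf : s * f ∈ sdIdeal K ^ k) (u : Fin 3 →₀ ℕ) (hu : f.coeff u ≠ 0) : a * k ≤ wt w u := by
  have hdiv : Polynomial.X ^ (a * k) ∣ phi K w (s * f) := by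
    rw [dvd_phi_iff]
    exact fun v hv => wt_pow w a h1 h2 h3 h4 k hf v hv
  have hnd : ¬ Polynomial.X ∣ phi K w s := by
    intro hd
    apply hs
    rw [mem_ideal_span_X_image]
    intro v hv
    by_contra hcon
    push Not at hcon
    have h5 := (dvd_phi_iff w 1 s).1 (by rwa [pow_one]) v (mem_support_iff.1 hv)
    have h6 : ∀ i, w i * v i = 0 := by
      intro i
      by_cases hi : i ∈ S
      · rw [hcon i hi, mul_zero]
      · rw [hS i hi, zero_mul]
    simp [wt, h6] at h5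
  rw [map_mul] at hdiv
  have h7 : Polynomial.X ^ (a * k) ∣ phi K w f :=
    (Polynomial.prime_X.pow_dvd_of_dvd_mul_left (a * k) hnd) hdiv
  exact (dvd_phi_iff w (a * k) f).1 h7 u hu

theorem ass_cases {p : Ideal (MvPolynomial (Fin 3) K)}
    (hp : p ∈ associatedPrimes (MvPolynomial (Fin 3) K) (MvPolynomial (Fin 3) K ⧸ sdIdeal K)) :
    (X 1 : MvPolynomial (Fin 3) K) ∉ p ∨ (X 2 : MvPolynomial (Fin 3) K) ∉ p := by
  by_contra hcon
  push Not at hcon
  obtain ⟨hy, hz⟩ := hcon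
  obtain ⟨hqp, x, hx⟩ := (isAssociatedPrime_iff).1 hp
  obtain ⟨f, rfl⟩ := Ideal.Quotient.mk_surjective x
  rw [colon_bot_mk] at hx
  rw [hx, Submodule.mem_colon_singleton, smul_eq_mul] at hy hz
  have hf : f ∉ sdIdeal K := by
    intro hf
    apply hqp.ne_top
    rw [Ideal.eq_top_iff_one, hx]
    exact Submodule.mem_colon_singleton.2 (by simpa using hf)
  rw [sdIdeal_mono.mem_iff] at hf
  push Not at hf
  obtain ⟨m, hm, hm2⟩ := hf
  have cy : (X 1 * f).coeff (m + Finsupp.single 1 1) ≠ 0 := by rw [coeff_X_mul3]; exact hm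
  have cz : (X 2 * f).coeff (m + Finsupp.single 2 1) ≠ 0 := by rw [coeff_X_mul3]; exact hm
  rw [← pow_one (sdIdeal K)] at hy hz
  have w1 := wt_pow ![1, 2, 0] 3 (by simp) (by simp) (by simp) (by simp) 1 hz _ cz
  have w2 := wt_pow ![1, 1, 0] 2 (by simp) (by simp) (by simp) (by simp) 1 hz _ cz
  have w3 := wt_pow ![1, 0, 2] 2 (by simp) (by simp) (by simp) (by simp) 1 hy _ cy
  simp [wt] at w1 w2 w3
  apply hm2
  rw [← pow_one (sdIdeal K)]
  by_cases c1 : 3 ≤ m 0
  · exact monomial_mem_of 1 m 1 0 0 0 rfl (by omega) (by omega) (by omega)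
  · by_cases c2 : m 0 = 2
    · exact monomial_mem_of 1 m 0 0 0 1 rfl (by omega) (by omega) (by omega)
    · by_cases c3 : m 0 = 1
      · exact monomial_mem_of 1 m 0 1 0 0 rfl (by omega) (by omega) (by omega)
      · exact monomial_mem_of 1 m 0 0 1 0 rfl (by omega) (by omega) (by omega)

theorem mem_symPow_iff (n : ℕ) (f : MvPolynomial (Fin 3) K) :
    f ∈ symPow (sdIdeal K) n ↔ ∀ u, f.coeff u ≠ 0 → T n (u 0) (u 1) (u 2) := by
  constructor
  · intro h u hu
    obtain ⟨s, hs, hsf⟩ := h _ ass1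
    obtain ⟨t, ht, htf⟩ := h _ ass2
    have w1 := wt_of_mul ![1, 2, 0] 3 n {0, 1} (by
      intro i hi; fin_cases i <;> simp_all) (by simp) (by simp) (by simp) (by simp) hs hsf u hu
    have w2 := wt_of_mul ![1, 1, 0] 2 n {0, 1} (by
      intro i hi; fin_cases i <;> simp_all) (by simp) (by simp) (by simp) (by simp) hs hsf u hu
    have w3 := wt_of_mul ![1, 0, 2] 2 n {0, 2} (by
      intro i hi; fin_cases i <;> simp_all) (by simp) (by simp) (by simp) (by simp) ht htf u hu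
    simp [wt] at w1 w2 w3
    exact ⟨w1, w2, w3⟩
  · intro h p hp
    rcases ass_cases hp with hy | hz
    · refine ⟨X 1 ^ (2 * n), fun h => hy (hp.1.mem_of_pow_mem _ h), ?_⟩
      rw [(sdIdeal_mono.pow n).mem_iff]
      intro m hm
      rw [X_pow_eq_monomial, coeff_monomial_mul'] at hm
      split_ifs at hm with hle
      · rw [one_mul] at hm
        obtain ⟨_, _, h3⟩ := h _ hm
        have hle1 := hle 1
        simp at hle1 h3
        by_cases hc : n ≤ m 2
        · exact monomial_mem_of n m 0 0 n 0 (by omega) (by omega) (by omega) (by omega)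
        · exact monomial_mem_of n m 0 0 (m 2) (n - m 2) (by omega) (by omega) (by omega) (by omega)
      · exact absurd rfl hm
    · refine ⟨X 2 ^ n, fun h => hz (hp.1.mem_of_pow_mem _ h), ?_⟩
      rw [(sdIdeal_mono.pow n).mem_iff]
      intro m hm
      rw [X_pow_eq_monomial, coeff_monomial_mul'] at hm
      split_ifs at hm with hle
      · rw [one_mul] at hm
        obtain ⟨h1, h2, _⟩ := h _ hm
        have hle1 := hle 2
        simp at hle1 h1 h2
        by_cases hb : 2 * n ≤ m 1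
        · exact monomial_mem_of n m 0 0 n 0 (by omega) (by omega) (by omega) (by omega)
        · by_cases hb2 : n ≤ m 1
          · exact monomial_mem_of n m 0 (2 * n - m 1) (m 1 - n) 0 (by omega) (by omega) (by omega)
              (by omega)
          · exact monomial_mem_of n m (n - m 1) (m 1) 0 0 (by omega) (by omega) (by omega)
              (by omega)
      · exact absurd rfl hm


theorem monomial_mem_symPow_iff (n : ℕ) (u : Fin 3 →₀ ℕ) :
    (monomial u (1 : K)) ∈ symPow (sdIdeal K) n ↔ T n (u 0) (u 1) (u 2) := by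
  classical
  rw [mem_symPow_iff]
  constructor
  · intro h
    exact h u (by rw [coeff_monomial, if_pos rfl]; exact one_ne_zero)
  · intro h v hv
    rw [coeff_monomial] at hv
    split_ifs at hv with h2
    · rw [← h2]; exact h
    · exact absurd rfl hv

theorem symPow_mono (n : ℕ) : IsMonomial (symPow (sdIdeal K) n) := by
  refine ⟨{u | T n (u 0) (u 1) (u 2)}, ?_⟩
  ext f
  rw [mem_symPow_iff, mem_ideal_span_monomial_image]
  constructor
  · intro h m hm
    exact ⟨m, h m (mem_support_iff.1 hm), le_rfl⟩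
  · intro h m hm
    obtain ⟨s, hs, hle⟩ := h m (mem_support_iff.2 hm)
    obtain ⟨h1, h2, h3⟩ := hs
    have e0 := hle 0
    have e1 := hle 1
    have e2 := hle 2
    exact ⟨by omega, by omega, by omega⟩

/-- explicit description of the minimal generators of the symbolic power outside `I^n` -/
theorem G_iff (n : ℕ) (u : Fin 3 →₀ ℕ) :
    ((monomial u (1 : K)) ∈ symPow (sdIdeal K) n ∧ (monomial u (1 : K)) ∉
      (sdIdeal K) ^ n ⊔ idealOfVars (Fin 3) K * symPow (sdIdeal K) n) ↔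
    (T n (u 0) (u 1) (u 2) ∧ (u 0 ≠ 0 → ¬ T n (u 0 - 1) (u 1) (u 2)) ∧
      (u 1 ≠ 0 → ¬ T n (u 0) (u 1 - 1) (u 2)) ∧ (u 2 ≠ 0 → ¬ T n (u 0) (u 1) (u 2 - 1)) ∧
      (monomial u (1 : K)) ∉ (sdIdeal K) ^ n) := by
  rw [monomial_mem_symPow_iff, monomial_mem_sup_iff (sdIdeal_mono.pow n)
    (isMonomial_mul isMonomial_vars (symPow_mono n)), monomial_mem_vars_mul_iff (symPow_mono n)]
  push Not
  have e0 : (monomial (u - Finsupp.single 0 1) (1 : K)) ∈ symPow (sdIdeal K) n ↔
      T n (u 0 - 1) (u 1) (u 2) := by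
    rw [monomial_mem_symPow_iff]; simp
  have e1 : (monomial (u - Finsupp.single 1 1) (1 : K)) ∈ symPow (sdIdeal K) n ↔
      T n (u 0) (u 1 - 1) (u 2) := by
    rw [monomial_mem_symPow_iff]; simp
  have e2 : (monomial (u - Finsupp.single 2 1) (1 : K)) ∈ symPow (sdIdeal K) n ↔
      T n (u 0) (u 1) (u 2 - 1) := by
    rw [monomial_mem_symPow_iff]; simp
  constructor
  · rintro ⟨h1, h2, h3⟩
    exact ⟨h1, fun h => e0.not.1 (h3 0 h), fun h => e1.not.1 (h3 1 h),
      fun h => e2.not.1 (h3 2 h), h2⟩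
  · rintro ⟨h1, h3, h4, h5, h2⟩
    refine ⟨h1, h2, ?_⟩
    intro i hi
    fin_cases i
    · exact e0.not.2 (h3 hi)
    · exact e1.not.2 (h4 hi)
    · exact e2.not.2 (h5 hi)

/-- exponent vector from three numbers -/
noncomputable def mk3 (a b c : ℕ) : Fin 3 →₀ ℕ := Finsupp.equivFunOnFinite.symm ![a, b, c]

@[simp] theorem mk3_0 (a b c : ℕ) : mk3 a b c 0 = a := rfl
@[simp] theorem mk3_1 (a b c : ℕ) : mk3 a b c 1 = b := rfl
@[simp] theorem mk3_2 (a b c : ℕ) : mk3 a b c 2 = c := rfl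

theorem mk3_ext {u : Fin 3 →₀ ℕ} {a b c : ℕ} (h0 : u 0 = a) (h1 : u 1 = b) (h2 : u 2 = c) :
    mk3 a b c = u := by
  ext i
  fin_cases i
  · exact h0.symm
  · exact h1.symm
  · exact h2.symm

/-- A minimal generator is outside `I^n` iff `2 ≤ a` and its degree is `< 3 n`. -/
theorem not_mem_pow_of_deg {n : ℕ} {u : Fin 3 →₀ ℕ} (h : u 0 + u 1 + u 2 < 3 * n) :
    (monomial u (1 : K)) ∉ (sdIdeal K) ^ n := by
  classical
  intro hu
  have := wt_pow ![1, 1, 1] 3 (by simp) (by simp) (by simp) (by simp) n hu u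
    (by rw [coeff_monomial, if_pos rfl]; exact one_ne_zero)
  simp [wt] at this
  omega

/-- parametrization for `n = 2 m` -/
def fe (m i : ℕ) : ℕ × ℕ × ℕ :=
  if i < 2 * m - 1 then (i + 2, 4 * m - (i + 2), (4 * m - (i + 2) + 1) / 2)
  else (2 * m + 2 + 2 * (i - (2 * m - 1)), 2 * m - 1 - (i - (2 * m - 1)), m - 1 - (i - (2 * m - 1)))

/-- parametrization for `n = 2 m + 1` -/
def fo (m i : ℕ) : ℕ × ℕ × ℕ :=
  if i < 2 * m then (i + 2, 4 * m + 2 - (i + 2), (4 * m + 2 - (i + 2) + 1) / 2)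
  else if i < 4 * m + 1 then (i + 2, (6 * m + 3 - (i + 2) + 1) / 2, (4 * m + 2 - (i + 2) + 1) / 2)
  else (4 * m + 3 + 2 * (i - (4 * m + 1)), m - (i - (4 * m + 1)), 0)

theorem G_even (m : ℕ) (hm : 1 ≤ m) :
    {u : Fin 3 →₀ ℕ | (monomial u (1 : K)) ∈ symPow (sdIdeal K) (2 * m) ∧ (monomial u (1 : K)) ∉
      (sdIdeal K) ^ (2 * m) ⊔ idealOfVars (Fin 3) K * symPow (sdIdeal K) (2 * m)} =
    (fun i => mk3 (fe m i).1 (fe m i).2.1 (fe m i).2.2) '' Set.Iio (4 * m - 2) := by
  ext u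
  rw [Set.mem_ofPred_eq, G_iff]
  constructor
  · rintro ⟨h1, h2, h3, h4, h5⟩
    unfold T at h1 h2 h3 h4
    have ha0 : u 0 ≠ 0 := by
      intro h0
      exact h5 (monomial_mem_of (2 * m) u 0 0 (2 * m) 0 (by omega) (by omega) (by omega) (by omega))
    have ha1 : u 0 ≠ 1 := by
      intro h0
      exact h5 (monomial_mem_of (2 * m) u 0 1 (2 * m - 1) 0 (by omega) (by omega) (by omega)
        (by omega))
    have ha2 : ¬ (6 * m ≤ u 0) := by
      intro h0
      exact h5 (monomial_mem_of (2 * m) u (2 * m) 0 0 0 (by omega) (by omega) (by omega)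
        (by omega))
    by_cases hle : u 0 ≤ 2 * m
    · refine ⟨u 0 - 2, ?_, ?_⟩
      · rw [Set.mem_Iio]; omega
      · have hlt : u 0 - 2 < 2 * m - 1 := by omega
        simp only [fe, if_pos hlt]
        apply mk3_ext <;> omega
    · refine ⟨2 * m - 1 + (u 0 - (2 * m + 2)) / 2, ?_, ?_⟩
      · rw [Set.mem_Iio]; omega
      · have hlt : ¬ (2 * m - 1 + (u 0 - (2 * m + 2)) / 2 < 2 * m - 1) := by omega
        simp only [fe, if_neg hlt]
        apply mk3_ext <;> omega
  · rintro ⟨i, hi, rfl⟩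
    rw [Set.mem_Iio] at hi
    simp only [mk3_0, mk3_1, mk3_2]
    have hT : T (2 * m) (fe m i).1 (fe m i).2.1 (fe m i).2.2 ∧
        (¬ T (2 * m) ((fe m i).1 - 1) (fe m i).2.1 (fe m i).2.2) ∧
        ((fe m i).2.1 ≠ 0 → ¬ T (2 * m) (fe m i).1 ((fe m i).2.1 - 1) (fe m i).2.2) ∧
        ((fe m i).2.2 ≠ 0 → ¬ T (2 * m) (fe m i).1 (fe m i).2.1 ((fe m i).2.2 - 1)) ∧
        (fe m i).1 + (fe m i).2.1 + (fe m i).2.2 < 3 * (2 * m) := by
      by_cases hlt : i < 2 * m - 1
      · simp only [fe, if_pos hlt, T]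
        refine ⟨by omega, by omega, by omega, by omega, by omega⟩
      · simp only [fe, if_neg hlt, T]
        refine ⟨by omega, by omega, by omega, by omega, by omega⟩
    obtain ⟨t1, t2, t3, t4, t5⟩ := hT
    exact ⟨t1, fun _ => t2, t3, t4, not_mem_pow_of_deg (by simpa using t5)⟩

theorem G_odd (m : ℕ) (hm : 1 ≤ m) :
    {u : Fin 3 →₀ ℕ | (monomial u (1 : K)) ∈ symPow (sdIdeal K) (2 * m + 1) ∧ (monomial u (1 : K)) ∉
      (sdIdeal K) ^ (2 * m + 1) ⊔ idealOfVars (Fin 3) K * symPow (sdIdeal K) (2 * m + 1)} =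
    (fun i => mk3 (fo m i).1 (fo m i).2.1 (fo m i).2.2) '' Set.Iio (5 * m + 1) := by
  ext u
  rw [Set.mem_ofPred_eq, G_iff]
  constructor
  · rintro ⟨h1, h2, h3, h4, h5⟩
    unfold T at h1 h2 h3 h4
    have ha0 : u 0 ≠ 0 := by
      intro h0
      exact h5 (monomial_mem_of (2 * m + 1) u 0 0 (2 * m + 1) 0 (by omega) (by omega) (by omega)
        (by omega))
    have ha1 : u 0 ≠ 1 := by
      intro h0
      exact h5 (monomial_mem_of (2 * m + 1) u 0 1 (2 * m) 0 (by omega) (by omega) (by omega)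
        (by omega))
    have ha2 : ¬ (6 * m + 3 ≤ u 0) := by
      intro h0
      exact h5 (monomial_mem_of (2 * m + 1) u (2 * m + 1) 0 0 0 (by omega) (by omega) (by omega)
        (by omega))
    by_cases hle : u 0 ≤ 4 * m + 2
    · refine ⟨u 0 - 2, ?_, ?_⟩
      · rw [Set.mem_Iio]; omega
      · by_cases hlt : u 0 - 2 < 2 * m
        · simp only [fo, if_pos hlt]
          apply mk3_ext <;> omega
        · have hlt2 : u 0 - 2 < 4 * m + 1 := by omega
          simp only [fo, if_neg hlt, if_pos hlt2]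
          apply mk3_ext <;> omega
    · refine ⟨4 * m + 1 + (u 0 - (4 * m + 3)) / 2, ?_, ?_⟩
      · rw [Set.mem_Iio]; omega
      · have hlt : ¬ (4 * m + 1 + (u 0 - (4 * m + 3)) / 2 < 2 * m) := by omega
        have hlt2 : ¬ (4 * m + 1 + (u 0 - (4 * m + 3)) / 2 < 4 * m + 1) := by omega
        simp only [fo, if_neg hlt, if_neg hlt2]
        apply mk3_ext <;> omega
  · rintro ⟨i, hi, rfl⟩
    rw [Set.mem_Iio] at hi
    simp only [mk3_0, mk3_1, mk3_2]
    have hT : T (2 * m + 1) (fo m i).1 (fo m i).2.1 (fo m i).2.2 ∧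
        (¬ T (2 * m + 1) ((fo m i).1 - 1) (fo m i).2.1 (fo m i).2.2) ∧
        ((fo m i).2.1 ≠ 0 → ¬ T (2 * m + 1) (fo m i).1 ((fo m i).2.1 - 1) (fo m i).2.2) ∧
        ((fo m i).2.2 ≠ 0 → ¬ T (2 * m + 1) (fo m i).1 (fo m i).2.1 ((fo m i).2.2 - 1)) ∧
        (fo m i).1 + (fo m i).2.1 + (fo m i).2.2 < 3 * (2 * m + 1) := by
      by_cases hlt : i < 2 * m
      · simp only [fo, if_pos hlt, T]
        refine ⟨by omega, by omega, by omega, by omega, by omega⟩
      · by_cases hlt2 : i < 4 * m + 1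
        · simp only [fo, if_neg hlt, if_pos hlt2, T]
          refine ⟨by omega, by omega, by omega, by omega, by omega⟩
        · simp only [fo, if_neg hlt, if_neg hlt2, T]
          refine ⟨by omega, by omega, by omega, by omega, by omega⟩
    obtain ⟨t1, t2, t3, t4, t5⟩ := hT
    exact ⟨t1, fun _ => t2, t3, t4, not_mem_pow_of_deg (by simpa using t5)⟩

theorem sdef_even (m : ℕ) (hm : 1 ≤ m) : sdef (sdIdeal K) (2 * m) = 4 * m - 2 := by
  unfold sdef
  have hG := G_even (K := K) m hm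
  rw [finrank_quot (symPow_mono _) (isMonomial_sup (sdIdeal_mono.pow _)
    (isMonomial_mul isMonomial_vars (symPow_mono _))) (by
      rw [hG]; exact (Set.finite_Iio _).image _), hG, Set.InjOn.ncard_image]
  · rw [Set.ncard_eq_toFinset_card', Set.toFinset_Iio, Nat.card_Iio]
  · intro i hi j hj hij
    rw [Set.mem_Iio] at hi hj
    have h0 := congrArg (fun u : Fin 3 →₀ ℕ => u 0) hij
    simp only [mk3_0] at h0
    unfold fe at h0
    split_ifs at h0 with h1 h2 h2 <;> simp only at h0 <;> omega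

theorem sdef_odd (m : ℕ) (hm : 1 ≤ m) : sdef (sdIdeal K) (2 * m + 1) = 5 * m + 1 := by
  unfold sdef
  have hG := G_odd (K := K) m hm
  rw [finrank_quot (symPow_mono _) (isMonomial_sup (sdIdeal_mono.pow _)
    (isMonomial_mul isMonomial_vars (symPow_mono _))) (by
      rw [hG]; exact (Set.finite_Iio _).image _), hG, Set.InjOn.ncard_image]
  · rw [Set.ncard_eq_toFinset_card', Set.toFinset_Iio, Nat.card_Iio]
  · intro i hi j hj hij
    rw [Set.mem_Iio] at hi hj
    have h0 := congrArg (fun u : Fin 3 →₀ ℕ => u 0) hij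
    simp only [mk3_0] at h0
    unfold fo at h0
    split_ifs at h0 <;> simp only at h0 <;> omega

end Pool.Agent.X271.SymDef
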