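import Pool.Agent.W422.GC.Defs
import Mathlib.RingTheory.MvPowerSeries.Derivative
import Mathlib.RingTheory.MvPowerSeries.Rename

set_option autoImplicit false

/-! Twisted topological zeta functions, stabilisation, generic compositions: definitions. -/

namespace Pool.Agent.X271.TwD

open Pool.Agent.W425.SM (SmoothFan chiO)
open Pool.Agent.H628R4.TZ (ordAlong)

variable {N M k r n : ℕ}

/-- The exponent `w` is in the convex hull of the `v j`. -/
def InHull (v : Fin r → Fin N → ℕ) (w : Fin N →₀ ℕ) : Prop :=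
  ∃ l : Fin r → ℝ, (∀ j, 0 ≤ l j) ∧ ∑ j, l j = 1 ∧ ∀ i, ∑ j, l j * (v j i : ℝ) = (w i : ℝ)

/-- The exponent `w` is in the Newton polyhedron (convex hull plus positive orthant) of the `v j`. -/
def InPoly (v : Fin r → Fin N → ℕ) (w : Fin N →₀ ℕ) : Prop :=
  ∃ l : Fin r → ℝ, (∀ j, 0 ≤ l j) ∧ ∑ j, l j = 1 ∧ ∀ i, ∑ j, l j * (v j i : ℝ) ≤ (w i : ℝ)

/-- The exponent `w` is in the convex hull of the `m j` with `π j = i`. -/
def InHullT (π : Fin r → Fin (k + 1)) (m : Fin r → Fin n → ℕ) (i : Fin (k + 1))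
    (w : Fin n →₀ ℕ) : Prop :=
  ∃ l : Fin r → ℝ, (∀ j, 0 ≤ l j) ∧ ∑ j, l j = 1 ∧ (∀ j, l j ≠ 0 → π j = i) ∧
    ∀ x, ∑ j, l j * (m j x : ℝ) = (w x : ℝ)

/-- The exponent `w` is in the Newton polyhedron of the `m j` with `π j = i` or `π j = 0`. -/
def InPolyT (π : Fin r → Fin (k + 1)) (m : Fin r → Fin n → ℕ) (i : Fin (k + 1))
    (w : Fin n →₀ ℕ) : Prop :=
  ∃ l : Fin r → ℝ, (∀ j, 0 ≤ l j) ∧ ∑ j, l j = 1 ∧ (∀ j, l j ≠ 0 → π j = i ∨ π j = 0) ∧
    ∀ x, ∑ j, l j * (m j x : ℝ) ≤ (w x : ℝ)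

/-- `∑_{π j = i} a_j X ^ (m j) + H_i` -/
noncomputable def tup (π : Fin r → Fin (k + 1)) (m : Fin r → Fin n → ℕ) (a : Fin r → ℂ)
    (H : Fin (k + 1) → MvPolynomial (Fin n) ℂ) (i : Fin (k + 1)) : MvPolynomial (Fin n) ℂ :=
  (∑ j ∈ Finset.univ.filter (fun j => π j = i),
    MvPolynomial.C (a j) * ∏ v, MvPolynomial.X v ^ m j v) + H i

/-- The exponents of `Φ + ∑ y_i l_i` in the variables `x, y, z`: `m j` for `π j = 0` and `y_i m j` for
`π j = i`; `m j` is an exponent in the variables `x, z`. -/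
def exps (π : Fin r → Fin (k + 1)) (m : Fin r → Fin (N + k) → ℕ) (j : Fin r) :
    Fin (N + (k + k)) → ℕ :=
  Fin.append (fun i => m j (Fin.castAdd k i)) (Fin.append
    (fun i : Fin k => if π j = i.succ then 1 else 0) (fun i => m j (Fin.natAdd N i)))

/-- `f(x) + y_1 z_1 + ⋯ + y_k z_k` becomes `G` by an automorphism of the polynomial ring. -/
def BecomesG (f : MvPolynomial (Fin N) ℂ) (k : ℕ) (G : MvPolynomial (Fin (N + (k + k))) ℂ) :
    Prop :=
  ∃ φ : MvPolynomial (Fin (N + (k + k))) ℂ ≃ₐ[ℂ] MvPolynomial (Fin (N + (k + k))) ℂ,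
    φ (MvPolynomial.rename (Fin.castAdd (k + k)) f +
      ∑ i : Fin k, MvPolynomial.X (Fin.natAdd N (Fin.castAdd k i)) *
        MvPolynomial.X (Fin.natAdd N (Fin.natAdd k i))) = G

/-- `f(x) + y_1 z_1 + ⋯ + y_k z_k` becomes the polynomial `G` in formal coordinates `φ` at the origin, up
to a factor `u` which is a unit. -/
def BecomesL (f : MvPowerSeries (Fin N) ℂ) (k : ℕ) (G : MvPolynomial (Fin (N + (k + k))) ℂ) :
    Prop :=
  ∃ (φ : Fin (N + (k + k)) → MvPowerSeries (Fin (N + (k + k))) ℂ)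
    (u : MvPowerSeries (Fin (N + (k + k))) ℂ),
    (Matrix.of fun i j => MvPowerSeries.coeff (Finsupp.single j 1) (φ i)).det ≠ 0 ∧
    (∀ i, MvPowerSeries.constantCoeff (φ i) = 0) ∧ IsUnit u ∧
    MvPowerSeries.subst φ (MvPowerSeries.rename (Fin.castAdd (k + k)) f +
      ∑ i : Fin k, MvPowerSeries.X (Fin.natAdd N (Fin.castAdd k i)) *
        MvPowerSeries.X (Fin.natAdd N (Fin.natAdd k i))) =
      u * (G : MvPowerSeries (Fin (N + (k + k))) ℂ)

/-- The differential operators with formal power series coefficients. -/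
noncomputable def DD (n : ℕ) : Subalgebra ℂ (Module.End ℂ (MvPowerSeries (Fin n) ℂ)) :=
  Algebra.adjoin ℂ (Set.range (fun u : MvPowerSeries (Fin n) ℂ => LinearMap.mulLeft ℂ u) ∪
    Set.range (fun i : Fin n => ((MvPowerSeries.pderiv ℂ i : Derivation ℂ
      (MvPowerSeries (Fin n) ℂ) (MvPowerSeries (Fin n) ℂ)) :
        MvPowerSeries (Fin n) ℂ →ₗ[ℂ] MvPowerSeries (Fin n) ℂ)))

/-- `b(s) f ^ s = P(s) f ^ (s + 1)` for some `P(s) = ∑_m s ^ m P_m`, where the `P_m` are differential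
operators with formal power series coefficients. -/
def IsFormalBFunction (f : MvPowerSeries (Fin n) ℂ) (b : Polynomial ℂ) : Prop :=
  ∃ P : ℕ →₀ DD n, ∀ s : ℕ, b.eval (s : ℂ) • f ^ s =
    P.sum fun m Q => ((s : ℂ) ^ m) • (Q : Module.End ℂ (MvPowerSeries (Fin n) ℂ)) (f ^ (s + 1))

/-- The global twisted topological zeta function `Z^(e)` of a Newton nondegenerate polynomial with the
exponents `v j` (at the vertices), on the toric embedded resolution given by the fan `R`: the sum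
over the torus orbits `O_σ`, `σ ∈ R`, such that `e` divides the multiplicities `ord ρ` of the rays
`ρ` of `σ`, of the contributions of `O_σ` without the strict transform (Euler characteristic
`chiO σ - chiG v R σ`; left out for `e ≥ 2` if it does not lie over `{f = 0}`) and, if `e = 1`, of the
strict transform in `O_σ` (`chiG v R σ`, multiplicity `1`). -/
noncomputable def twistedG (v : Fin r → Fin M → ℕ) (R : SmoothFan M) (e : ℕ) : RatFunc ℂ :=
  open Classical in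
  ∑ σ ∈ R.cones.filter (fun σ => ∀ ρ ∈ σ, e ∣ ordAlong v ρ),
    ((if e = 1 ∨ ∃ ρ ∈ σ, ordAlong v ρ ≠ 0 then
        RatFunc.C (((chiO σ : ℝ) - Pool.Agent.W422.GC.chiG v R σ : ℝ) : ℂ) else 0) +
      (if e = 1 then RatFunc.C ((Pool.Agent.W422.GC.chiG v R σ : ℝ) : ℂ) * (RatFunc.X + 1)⁻¹
        else 0)) *
    ∏ ρ ∈ σ, ((ordAlong v ρ : RatFunc ℂ) * RatFunc.X + ((∑ l, ρ l : ℕ) : RatFunc ℂ))⁻¹

/-- The local twisted topological zeta function at the origin: the cones whose relative interior is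
in the open orthant (the orbits over the origin). -/
noncomputable def twistedL (v : Fin r → Fin M → ℕ) (R : SmoothFan M) (e : ℕ) : RatFunc ℂ :=
  open Classical in
  ∑ σ ∈ R.cones.filter (fun σ => (∀ l, ∃ ρ ∈ σ, ρ l ≠ 0) ∧ ∀ ρ ∈ σ, e ∣ ordAlong v ρ),
    (RatFunc.C (((chiO σ : ℝ) - Pool.Agent.W422.GC.chiG v R σ : ℝ) : ℂ) +
      (if e ∣ 1 then RatFunc.C ((Pool.Agent.W422.GC.chiG v R σ : ℝ) : ℂ) * (RatFunc.X + 1)⁻¹
        else 0)) *
    ∏ ρ ∈ σ, ((ordAlong v ρ : RatFunc ℂ) * RatFunc.X + ((∑ l, ρ l : ℕ) : RatFunc ℂ))⁻¹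

open Polynomial in
lemma comp_nzd (k : ℕ) : nonZeroDivisors ℂ[X] ≤
    (nonZeroDivisors ℂ[X]).comap (Polynomial.compRingHom (X - C (k : ℂ))) := by
  intro p hp
  rw [Submonoid.mem_comap, mem_nonZeroDivisors_iff_ne_zero]
  intro h0
  refine (mem_nonZeroDivisors_iff_ne_zero.1 hp) ?_
  have := congrArg (fun q : ℂ[X] => q.comp (X + C (k : ℂ))) h0
  simpa [Polynomial.comp_assoc] using this

/-- `Z(s) ↦ Z(s - k)` -/
noncomputable def shiftZ (k : ℕ) : RatFunc ℂ →+* RatFunc ℂ :=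
  RatFunc.mapRingHom (Polynomial.compRingHom (Polynomial.X - Polynomial.C (k : ℂ))) (comp_nzd k)

/-- The twisted topological zeta function of `f` in terms of that of `f + ∑_{i ≤ k} y_i z_i`:
`1 - Z_f(s) = (1 - Z(s - k)) s (s - k + 1) / ((s - k) (s + 1))` for `e = 1` and
`Z_f(s) = Z(s - k)` for `e ≥ 2`. -/
noncomputable def unstab (k e : ℕ) (Z : RatFunc ℂ) : RatFunc ℂ :=
  if e = 1 then 1 - (1 - shiftZ k Z) * (RatFunc.X * (RatFunc.X - RatFunc.C (k : ℂ) + 1)) *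
    ((RatFunc.X - RatFunc.C (k : ℂ)) * (RatFunc.X + 1))⁻¹
  else shiftZ k Z

/-- The strong monodromy conjecture for the twisted zeta functions `Z e`: `b(s) (s - k) Z 1` is a
polynomial, `b = (s + 1) c`, and `c(s) Z e` is a polynomial for all `e ≥ 2`. -/
def StrongTw (b : Polynomial ℂ) (k : ℕ) (Z : ℕ → RatFunc ℂ) : Prop :=
  (∃ P : Polynomial ℂ, algebraMap (Polynomial ℂ) (RatFunc ℂ)
    (b * (Polynomial.X - Polynomial.C (k : ℂ))) * Z 1 =
      algebraMap (Polynomial ℂ) (RatFunc ℂ) P) ∧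
  ∃ c : Polynomial ℂ, b = (Polynomial.X + 1) * c ∧ ∀ e : ℕ, 2 ≤ e →
    ∃ P : Polynomial ℂ, algebraMap (Polynomial ℂ) (RatFunc ℂ) c * Z e =
      algebraMap (Polynomial ℂ) (RatFunc ℂ) P

end Pool.Agent.X271.TwD
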