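import Pool.Agent.Y230.TH.TopDefs
import Pool.Agent.X271.TwDef

set_option autoImplicit false

/-! # Closure properties of the monodromy conjecture: definitions -/

namespace Pool.Agent.X271.TcD

open MvPolynomial Pool.Agent.W574.SM Pool.Agent.W574.CN Pool.Agent.W574.RO Pool.Agent.Y229
open Pool.Agent.Y230.TH (univFam tsFam val0)
open Pool.Agent.X271.TwD (BecomesG unstab)

/-- `Z(s) ↦ Z(a s)` -/
noncomputable def scaleZ (a : ℕ) (Z : RatFunc ℂ) : RatFunc ℂ :=
  algebraMap (Polynomial ℂ) (RatFunc ℂ) (Z.num.comp (Polynomial.C (a : ℂ) * Polynomial.X)) *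
    (algebraMap (Polynomial ℂ) (RatFunc ℂ)
      (Z.denom.comp (Polynomial.C (a : ℂ) * Polynomial.X)))⁻¹

/-- Two classes of ideals, given by generators, together with their topological zeta functions:
`TC At HAt false A Z` for ideals and `TC At HAt true A Z` for principal ideals (hypersurfaces). They
are the smallest classes with the following properties. -/
inductive TC (At HAt : Fam → RatFunc ℂ → Prop) : Bool → Fam → RatFunc ℂ → Prop
  /-- the ideals of the given class -/
  | atom (A : Fam) (Z : RatFunc ℂ) (h : At A Z) : TC At HAt false A Z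
  /-- the hypersurfaces of the given class -/
  | hatom (A : Fam) (Z : RatFunc ℂ) (h : HAt A Z) : TC At HAt true A Z
  /-- a hypersurface is a principal ideal -/
  | hyp (A : Fam) (Z : RatFunc ℂ) (h : TC At HAt true A Z) : TC At HAt false A Z
  /-- the powers of a polynomial, `Z_{f ^ a}(s) = Z_f(a s)` -/
  | pow (σ : Type) (f : MvPolynomial σ ℂ) (a : ℕ) (ha : 1 ≤ a) (Z : RatFunc ℂ)
      (h : TC At HAt false ⟨σ, Fin 1, fun _ => f⟩ Z) :
      TC At HAt false ⟨σ, Fin 1, fun _ => f ^ a⟩ (scaleZ a Z)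
  /-- the sum of two ideals in disjoint sets of variables: if `1 - Z = s ∫ V(t) exp(- s t) dt` and
  `1 - W = s ∫ W'(t) exp(- s t) dt`, where no constant function occurs in the exponential
  polynomials `V`, `W'` (given by `v` and `w`), then the topological zeta function of the sum is
  `1 - s ∫ V(t) W'(t) exp(- s t) dt` -/
  | sum (A B : Fam) (Z W : RatFunc ℂ) (v w : ℂ × ℕ →₀ ℂ) (hv : 1 - Z = RatFunc.X * lap v)
      (hw : 1 - W = RatFunc.X * lap w) (hv0 : ∀ p ∈ v.support, p.1 ≠ 0)
      (hw0 : ∀ p ∈ w.support, p.1 ≠ 0) (hA : TC At HAt false A Z) (hB : TC At HAt false B W) :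
      TC At HAt false (A.sum B) (1 - RatFunc.X * lap2 v w)
  /-- the product of two ideals, or of two polynomials, in disjoint sets of variables -/
  | mul (c : Bool) (A B : Fam) (Z W : RatFunc ℂ) (hA : TC At HAt c A Z) (hB : TC At HAt c B W) :
      TC At HAt c (A.mul B) (Z * W)
  /-- the polynomial `∑ y_j f_j(x)` has the topological zeta function `Z / (s + 1)` -/
  | univ (A : Fam) (Z : RatFunc ℂ) (hA : TC At HAt false A Z) :
      TC At HAt true (univFam A) (Z * (RatFunc.X + 1)⁻¹)
  /-- the other direction: the ideal `(f_j)` has the zeta function `(s + 1) Z` if `∑ y_j f_j(x)` has the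
  zeta function `Z` -/
  | back (A : Fam) (Z : RatFunc ℂ) (hA : TC At HAt true (univFam A) Z) :
      TC At HAt false A ((RatFunc.X + 1) * Z)
  /-- the Thom-Sebastiani sum `∑ y_j f_j(x) + g(z)`: if `1 - Z = s ∫ V(t) exp(- s t) dt` and
  `1 - (s + 1) W = s ∫ U(t) exp(- s t) dt - c s`, where no constant function occurs in the
  exponential polynomials `V`, `U` (given by `v` and `w`), then
  `1 - (s + 1) Z_F = s ∫ V(t) U(t) exp(- s t) dt - c V(0) s` -/
  | ts (A : Fam) (τ : Type) (g : MvPolynomial τ ℂ) (Z W : RatFunc ℂ) (v w : ℂ × ℕ →₀ ℂ) (c : ℂ)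
      (hv : 1 - Z = RatFunc.X * lap v)
      (hw : 1 - (RatFunc.X + 1) * W = RatFunc.X * (lap w - RatFunc.C c))
      (hv0 : ∀ p ∈ v.support, p.1 ≠ 0) (hw0 : ∀ p ∈ w.support, p.1 ≠ 0)
      (hA : TC At HAt false A Z) (hg : TC At HAt true ⟨τ, Fin 1, fun _ => g⟩ W) :
      TC At HAt true (tsFam A τ g)
        ((1 - RatFunc.X * (lap2 v w - RatFunc.C (c * val0 v))) * (RatFunc.X + 1)⁻¹)
  /-- the other direction for `∑ y_i z_i + f(x)`, up to automorphisms of the polynomial ring: if
  `f + y_1 z_1 + ⋯ + y_k z_k`, `f` not constant, becomes `G` by an automorphism (`BecomesG`), then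
  `1 - Z_f(s) = (1 - Z_G(s - k)) s (s - k + 1) / ((s - k) (s + 1))` (`unstab`; this function has no pole at
  `k ≥ 0`, because this is true for all topological zeta functions) -/
  | destab (N k : ℕ) (f : MvPolynomial (Fin N) ℂ) (hf : f.totalDegree ≠ 0)
      (G : MvPolynomial (Fin (N + (k + k))) ℂ) (hG : BecomesG f k G) (Z : RatFunc ℂ)
      (hk : (unstab k 1 Z).denom.eval (k : ℂ) ≠ 0)
      (h : TC At HAt true ⟨Fin (N + (k + k)), Fin 1, fun _ => G⟩ Z) :
      TC At HAt true ⟨Fin N, Fin 1, fun _ => f⟩ (unstab k 1 Z)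
  /-- variables which do not occur may be dropped -/
  | drop (σ κ : Type) (g : MvPolynomial σ ℂ) (Z : RatFunc ℂ)
      (h : TC At HAt true ⟨σ ⊕ κ, Fin 1, fun _ => rename Sum.inl g⟩ Z) :
      TC At HAt true ⟨σ, Fin 1, fun _ => g⟩ Z
  /-- the variables and the generators may be indexed differently -/
  | equiv (c : Bool) (A B : Fam) (i : A.σ ≃ B.σ) (k : A.ι ≃ B.ι)
      (h : ∀ j, B.f (k j) = rename i (A.f j)) (Z : RatFunc ℂ) (hA : TC At HAt c A Z) :
      TC At HAt c B Z

/-- `t = 0`, or, if `w = true`, `t ∈ ℕ` -/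
def Sh (w : Bool) (t : ℂ) : Prop := t = 0 ∨ (w = true ∧ ∃ i : ℕ, t = i)

/-- The strong (`w = false`) or weak (`w = true`) monodromy conjecture for the ideal generated by the
family `A`, in finitely many variables, which is not zero, and the function `Z`: for every pole
`s` of `Z` there is `t` (`t = 0` in the strong form, `t ∈ ℕ` in the weak form) such that `s - t` is a
root of all `b` which satisfy a functional equation, that is, of the Bernstein-Sato polynomial.
If `c = true`: in addition (for hypersurfaces) the reduced form: if `-1` is a pole of `Z` then it is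
a root of all these `b`, and for every pole `s` of `(s + 1) Z` there is `t` as above such that
`s - t` is a root of `b(s) / (s + 1)`, that is, `s - t` is a root of `b`, and a double root if it
is `-1`. -/
structure Mon (w c : Bool) (A : Fam) (Z : RatFunc ℂ) : Prop where
  fin : Finite A.σ
  ne : ∃ j, A.f j ≠ 0
  pole : ∀ s : ℂ, Z.denom.eval s = 0 → ∃ t : ℂ, Sh w t ∧
    ∀ b : Polynomial ℂ, IsFunctionalEq A.f b → b.eval (s - t) = 0
  one : c = true → Z.denom.eval (-1) = 0 →
    ∀ b : Polynomial ℂ, IsFunctionalEq A.f b → b.eval (-1) = 0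
  red : c = true → ∀ s : ℂ, ((RatFunc.X + 1) * Z).denom.eval s = 0 → ∃ t : ℂ, Sh w t ∧
    ∀ b : Polynomial ℂ, IsFunctionalEq A.f b → b.eval (s - t) = 0 ∧
      (s - t = -1 → (Polynomial.X + 1) ^ 2 ∣ b)

end Pool.Agent.X271.TcD
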