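import Pool.Agent.X271.TcThm

set_option autoImplicit false
set_option linter.unusedSectionVars false

/-! # Closure properties of the monodromy conjecture: the final statements -/

namespace Pool.Agent.X271.TcT

open MvPolynomial Pool.Agent.W574.SM Pool.Agent.W574.CN Pool.Agent.W574.RO Pool.Agent.Y229
open Pool.Agent.W574.HS Pool.Agent.Y230.PS Pool.Agent.Y230.TH Pool.Agent.X271.TcD
open Pool.Agent.TH192.DT Pool.Agent.W425.SM Pool.Agent.W422.GC
open Pool.Agent.Y228.AT (AllGlobal)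
open Pool.Agent.H628R4.TP (IsBFunction)
open Pool.Agent.X271.TwD (BecomesG unstab exps InHullT)

theorem weakAt_mon (A : Fam) (Z : RatFunc ℂ) (h : WeakAt A Z) : Mon true false A Z := by
  obtain ⟨h1, h2, h3⟩ := wa_at A Z h
  refine ⟨h1, h2, fun s hs => ?_, fun h => absurd h (by simp), fun h => absurd h (by simp)⟩
  obtain ⟨t, ht, h4⟩ := h3 s hs
  exact ⟨t, (mem_Tw true t).1 (by unfold Tw; rw [if_pos rfl]; exact ht), h4⟩

theorem allGlobal_mon (w : Bool) (A : Fam) (Z : RatFunc ℂ) (h : AllGlobal A Z) :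
    Mon w false A Z := by
  obtain ⟨h1, h2, h3⟩ := ag_at ⊥ A Z h
  refine ⟨h1, h2, fun s hs => ?_, fun h => absurd h (by simp), fun h => absurd h (by simp)⟩
  obtain ⟨t, ht, h4⟩ := h3 s hs
  exact ⟨t, Or.inl ht, h4⟩

theorem strongHyp_mon (w : Bool) (A : Fam) (Z : RatFunc ℂ) (h : StrongHyp A Z) :
    Mon w true A Z :=
  (mon_iff w true A Z).2 (strongHyp_cl (Tw w) A Z h)

theorem weakHyp_mon (A : Fam) (Z : RatFunc ℂ) (h : WeakHyp A Z) : Mon true true A Z :=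
  (mon_iff true true A Z).2 (by
    unfold Tw
    rw [if_pos rfl]
    exact weakHyp_cl A Z h)

theorem hyp_root {σ : Type} (w c : Bool) (F : MvPolynomial σ ℂ) (Z : RatFunc ℂ)
    (h : Mon w c ⟨σ, Fin 1, fun _ => F⟩ Z) (b : Polynomial ℂ)
    (hb : IsBFunction F b) (s₀ : ℂ) (hs : Z.denom.eval s₀ = 0) :
    ∃ t : ℂ, Sh w t ∧ b.eval (s₀ - t) = 0 := by
  obtain ⟨t, ht, h1⟩ := h.pole s₀ hs
  exact ⟨t, ht, h1 b (single_of_isB F b hb)⟩

section

variable {σ T : Type} [Fintype T] [DecidableEq T] {κ : T → Type} [∀ t, Fintype (κ t)]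

/-- **Products of powers of forms.** -/
theorem mon_pow [Finite σ] (w : Bool) (a : T → ℕ) (ha : ∀ t, 1 ≤ a t) [Nonempty T]
    (f : (t : T) → κ t → MvPolynomial σ ℂ) (Z' : RatFunc ℂ) (c : Bool)
    (h : Mon w c (powFam a f) Z')
    (b : Polynomial ℂ) (hb : IsBFunction (powProd a f) b)
    (s₀ : ℂ) (hs : (Z' * ∏ t, fac (a t) 1).denom.eval s₀ = 0) :
    ∃ t : ℂ, Sh w t ∧ b.eval (s₀ - t) = 0 := by
  classical
  have : Fintype σ := Fintype.ofFinite σ
  have hf := powFam_ne a ha f h.ne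
  rcases prod_fac_pole a ha Z' s₀ hs with h2 | ⟨t, rfl⟩
  · obtain ⟨u, hu, h3⟩ := h.pole s₀ h2
    refine ⟨u, hu, h3 b ?_⟩
    obtain ⟨P, hP⟩ := hb
    obtain ⟨t0⟩ := (inferInstance : Nonempty T)
    exact fe_of_locEq (hat 1 0) (by rw [hat_one, if_pos rfl]) _ b
      (locEq_of_powProd a f t0 (by have := ha t0; omega) b 1 P fun s => by
        rw [one_mul]
        exact hP s)
  · refine ⟨0, Or.inl rfl, ?_⟩
    have h2 := (powData_global a f hf b hb).strict t 0 (by have := ha t; omega)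
    simpa using h2

end

/-- **Generic compositions are in the class.** -/
theorem comp_mem {N k r : ℕ} (hr : 1 ≤ r) (F : Subfield ℂ) (π : Fin r → Fin (k + 1))
    (m : Fin r → Fin (N + k) → ℕ) (hinj : ∀ j j', π j = π j' → m j = m j' → j = j')
    (hm : ∀ j, π j = 0 → m j ≠ 0) (H : Fin (k + 1) → MvPolynomial (Fin (N + k)) F)
    (hH : ∀ i, ∀ w ∈ (H i).support, InHullT π m i w) (a : Fin r → ℂ)
    (ha : AlgebraicIndependent F a) (R : SmoothFan (N + (k + k))) (hR : Principal (exps π m) R)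
    (f : MvPolynomial (Fin N) ℂ) (hf : f.totalDegree ≠ 0)
    (T : Fin (k + 1) → MvPolynomial (Fin (N + k)) ℂ)
    (hT : T = Pool.Agent.X271.TwD.tup π m a fun i => MvPolynomial.map (algebraMap F ℂ) (H i))
    (h : (∃ (c : Fin k → ℂ) (p : Fin k → MvPolynomial (Fin N) ℂ), (∀ i, c i ≠ 0) ∧
        (∀ i : Fin k, T i.succ = C (c i) * X (Fin.natAdd N i) - rename (Fin.castAdd k) (p i)) ∧
        f = aeval (Fin.append X fun i => C (c i)⁻¹ * p i) (T 0)) ∨
      (∃ (θ : MvPolynomial (Fin (N + k)) ℂ ≃ₐ[ℂ] MvPolynomial (Fin (N + k)) ℂ)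
        (q : Fin k → MvPolynomial (Fin (N + k)) ℂ),
        (∀ i, θ (X (Fin.castAdd k i)) = X (Fin.castAdd k i)) ∧
        (∀ i : Fin k, θ (X (Fin.natAdd N i)) = T i.succ) ∧
        T 0 = rename (Fin.castAdd k) f + ∑ i, q i * T i.succ))
    (hk : (unstab k 1 (topZetaG (exps π m) R)).denom.eval (k : ℂ) ≠ 0) :
    TC AllGlobal StrongHyp true ⟨Fin N, Fin 1, fun _ => f⟩
      (unstab k 1 (topZetaG (exps π m) R)) := by
  subst hT
  have h2 : ∃ (θ : MvPolynomial (Fin (N + k)) ℂ ≃ₐ[ℂ] MvPolynomial (Fin (N + k)) ℂ)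
        (q : Fin k → MvPolynomial (Fin (N + k)) ℂ),
        (∀ i, θ (X (Fin.castAdd k i)) = X (Fin.castAdd k i)) ∧
        (∀ i : Fin k, θ (X (Fin.natAdd N i)) = Pool.Agent.Y229.PS.tup π m a H i.succ) ∧
        Pool.Agent.Y229.PS.tup π m a H 0 = rename (Fin.castAdd k) f +
          ∑ i, q i * Pool.Agent.Y229.PS.tup π m a H i.succ := by
    rcases h with ⟨c, p, hc, hl, hf1⟩ | ⟨θ, q, h1, h2, h3⟩
    · obtain ⟨θ, h1, h2⟩ := Pool.Agent.Y229.PG.graph_equiv c hc p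
      obtain ⟨q, hq⟩ := Pool.Agent.Y229.PG.graph_restrict c hc p
        (Pool.Agent.X271.TwD.tup π m a (fun i => MvPolynomial.map (algebraMap F ℂ) (H i)) 0)
      refine ⟨θ, q, h1, fun i => ?_, ?_⟩
      · rw [h2]
        exact (hl i).symm
      · rw [hf1]
        refine hq.trans ?_
        congr 1
        exact Finset.sum_congr rfl fun i _ => by rw [← hl i]; rfl
    · exact ⟨θ, q, h1, h2, h3⟩
  obtain ⟨θ, q, h3, h4, h5⟩ := h2
  refine TC.destab N k f hf _ (Pool.Agent.Y229.PG.becomesG_emb _ _ θ h3 h4 f q h5) _ hk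
    (TC.hatom _ _ ?_)
  have h6 := StrongHyp.generic r (N + (k + k)) hr F (Pool.Agent.Y229.RE.ex π m)
    (Pool.Agent.Y229.RE.ex_inj π m hinj) (Pool.Agent.Y229.PG.ex_ne_zero' π m hm)
    (Pool.Agent.Y229.PS.hG H) (Pool.Agent.Y229.PG.hull_hG π m H hH) a ha R hR
  have h7 := Pool.Agent.Y229.PS.sparse_hG π m a H
  rw [h7] at h6
  exact h6

/-- **Nondegenerate compositions are in the class.** -/
theorem comp_mem_nd {N k r : ℕ} (hr : 1 ≤ r) (π : Fin r → Fin (k + 1))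
    (m : Fin r → Fin (N + k) → ℕ) (hinj : ∀ j j', π j = π j' → m j = m j' → j = j')
    (hm : ∀ j, π j = 0 → m j ≠ 0) (a : Fin r → ℂ)
    (hnd : Pool.Agent.W425.ND.Nondeg (exps π m) a)
    (R : SmoothFan (N + (k + k))) (hR : Principal (exps π m) R)
    (f : MvPolynomial (Fin N) ℂ) (hf : f.totalDegree ≠ 0)
    (T : Fin (k + 1) → MvPolynomial (Fin (N + k)) ℂ)
    (hT : T = Pool.Agent.X271.TwD.tup π m a fun _ => 0)
    (h : (∃ (c : Fin k → ℂ) (p : Fin k → MvPolynomial (Fin N) ℂ), (∀ i, c i ≠ 0) ∧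
        (∀ i : Fin k, T i.succ = C (c i) * X (Fin.natAdd N i) - rename (Fin.castAdd k) (p i)) ∧
        f = aeval (Fin.append X fun i => C (c i)⁻¹ * p i) (T 0)) ∨
      (∃ (θ : MvPolynomial (Fin (N + k)) ℂ ≃ₐ[ℂ] MvPolynomial (Fin (N + k)) ℂ)
        (q : Fin k → MvPolynomial (Fin (N + k)) ℂ),
        (∀ i, θ (X (Fin.castAdd k i)) = X (Fin.castAdd k i)) ∧
        (∀ i : Fin k, θ (X (Fin.natAdd N i)) = T i.succ) ∧
        T 0 = rename (Fin.castAdd k) f + ∑ i, q i * T i.succ))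
    (h1 : ∀ i : ℕ, ((RatFunc.X + 1) * topZetaG (exps π m) R).denom.eval ((i : ℂ) - 1) ≠ 0)
    (hk : (unstab k 1 (topZetaG (exps π m) R)).denom.eval (k : ℂ) ≠ 0) :
    TC WeakAt WeakHyp true ⟨Fin N, Fin 1, fun _ => f⟩
      (unstab k 1 (topZetaG (exps π m) R)) := by
  have hT' : T = Pool.Agent.W749.JI.fam π m a := by
    rw [hT]
    funext i
    unfold Pool.Agent.X271.TwD.tup
    rw [add_zero]
    rfl
  subst hT'
  have h2 : ∃ (θ : MvPolynomial (Fin (N + k)) ℂ ≃ₐ[ℂ] MvPolynomial (Fin (N + k)) ℂ)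
        (q : Fin k → MvPolynomial (Fin (N + k)) ℂ),
        (∀ i, θ (X (Fin.castAdd k i)) = X (Fin.castAdd k i)) ∧
        (∀ i : Fin k, θ (X (Fin.natAdd N i)) = Pool.Agent.W749.JI.fam π m a i.succ) ∧
        Pool.Agent.W749.JI.fam π m a 0 = rename (Fin.castAdd k) f +
          ∑ i, q i * Pool.Agent.W749.JI.fam π m a i.succ := by
    rcases h with ⟨c, p, hc, hl, hf1⟩ | ⟨θ, q, h1, h2, h3⟩
    · obtain ⟨θ, h1, h2⟩ := Pool.Agent.Y229.PG.graph_equiv c hc p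
      obtain ⟨q, hq⟩ := Pool.Agent.Y229.PG.graph_restrict c hc p
        (Pool.Agent.W749.JI.fam π m a 0)
      refine ⟨θ, q, h1, fun i => ?_, ?_⟩
      · rw [h2]
        exact (hl i).symm
      · rw [hf1]
        refine hq.trans ?_
        congr 1
        exact Finset.sum_congr rfl fun i _ => by rw [← hl i]
    · exact ⟨θ, q, h1, h2, h3⟩
  obtain ⟨θ, q, h3, h4, h5⟩ := h2
  refine TC.destab N k f hf _ (Pool.Agent.Y229.PG.becomesG_emb _ _ θ h3 h4 f q h5) _ hk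
    (TC.hatom _ _ ?_)
  have h6 := WeakHyp.nondeg r (N + (k + k)) hr (Pool.Agent.Y229.RE.ex π m) a
    (Pool.Agent.Y229.RE.ex_inj π m hinj) (Pool.Agent.Y229.PG.ex_ne_zero' π m hm) hnd R hR h1
  rw [Pool.Agent.Y229.RE.sparse_ex π m a] at h6
  exact h6

end Pool.Agent.X271.TcT
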