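import Pool.Agent.Y229.PG.Red
import Pool.Agent.Y230.TH.Top
import Pool.Agent.W578.SI.Scale

set_option autoImplicit false

/-! # The functional equations of the powers of a polynomial -/

namespace Pool.Agent.X271.TcP

open MvPolynomial
open Pool.Agent.H628R4.TP
open Pool.Agent.Y229.PG

variable {n : ℕ}

/-- the sequences of `f ^ a` are those of `f` at `a s + j` -/
lemma ww_pow {f : MvPolynomial (Fin n) ℂ} (a j : ℕ) (hj : j < a)
    {F : ℕ → MvPolynomial (Fin n) ℂ} (hF : WW (B1 (f ^ a)) F) :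
    ∃ F' : ℕ → MvPolynomial (Fin n) ℂ, WW (B1 f) F' ∧ ∀ s, F s = F' (a * s + j) := by
  have ha : (a : ℂ) ≠ 0 := by
    have : a ≠ 0 := by omega
    exact_mod_cast this
  induction hF with
  | base i =>
    refine ⟨fun s => f ^ (a - 1 - j) * f ^ (s + 1), (WW.base (B := B1 f) ()).mulL _, fun s => ?_⟩
    change (f ^ a) ^ (s + 1) = f ^ (a - 1 - j) * f ^ (a * s + j + 1)
    rw [← pow_mul, ← pow_add]
    congr 1
    rw [mul_add, mul_one]
    omega
  | zero => exact ⟨_, WW.zero, fun s => rfl⟩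
  | add _ _ h1 h2 =>
    obtain ⟨F', h3, h4⟩ := h1
    obtain ⟨G', h5, h6⟩ := h2
    exact ⟨_, h3.add h5, fun s => by beta_reduce; rw [h4, h6]⟩
  | op Q hQ _ h1 =>
    obtain ⟨F', h3, h4⟩ := h1
    exact ⟨_, h3.op Q hQ, fun s => by beta_reduce; rw [h4]⟩
  | smulS _ h1 =>
    obtain ⟨F', h3, h4⟩ := h1
    refine ⟨_, (h3.smulS.sub (h3.smulC (j : ℂ))).smulC ((a : ℂ)⁻¹), fun s => ?_⟩
    beta_reduce
    rw [h4, ← sub_smul, smul_smul]
    congr 1
    push_cast
    field_simp
    ring

/-- **The functional equations of `f ^ a`.** -/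
theorem isB_pow_fin {f : MvPolynomial (Fin n) ℂ} (hf : f ≠ 0) (a j : ℕ) (hj : j < a)
    {b : Polynomial ℂ} (hb : IsBFunction (f ^ a) b) :
    IsBFunction f (b.comp (Polynomial.C (a : ℂ)⁻¹ * (Polynomial.X - Polynomial.C (j : ℂ)))) := by
  have ha : (a : ℂ) ≠ 0 := by
    have : a ≠ 0 := by omega
    exact_mod_cast this
  obtain ⟨F', h1, h2⟩ := ww_pow a j hj (formal_iff.1 hb)
  have h3 := h1.mulL (f ^ j)
  obtain ⟨D, p, hp⟩ := CC.of_WW h3
  set b' := b.comp (Polynomial.C (a : ℂ)⁻¹ * (Polynomial.X - Polynomial.C (j : ℂ))) with hb'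
  have h4 : Polynomial.C (f ^ D) * (b.map (MvPolynomial.C (σ := Fin n))) =
      p.comp (Polynomial.C (MvPolynomial.C (a : ℂ)) * Polynomial.X +
        Polynomial.C (MvPolynomial.C (j : ℂ))) := by
    refine poly_ext fun s => ?_
    have h5 := hp (a * s + j)
    beta_reduce at h5
    rw [← h2] at h5
    rw [eval_map] at h5
    rw [Polynomial.eval_mul, Polynomial.eval_C, Polynomial.eval_comp, Polynomial.eval_add,
      Polynomial.eval_mul, Polynomial.eval_C, Polynomial.eval_C, Polynomial.eval_X]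
    have h6 : ((a * s + j : ℕ) : MvPolynomial (Fin n) ℂ) =
        MvPolynomial.C (a : ℂ) * (s : MvPolynomial (Fin n) ℂ) + MvPolynomial.C (j : ℂ) := by
      rw [map_natCast, map_natCast]
      push_cast
      ring
    rw [h6] at h5
    have hcs : (s : MvPolynomial (Fin n) ℂ) = MvPolynomial.C (s : ℂ) := by
      rw [map_natCast]
    rw [← hcs] at h5
    refine mul_left_cancel₀ (pow_ne_zero (a * s + j) hf) ?_
    rw [← h5, pow_add f (a * s) j, pow_mul]
    ring
  have h7 : p = Polynomial.C (f ^ D) * (b'.map (MvPolynomial.C (σ := Fin n))) := by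
    have h8 := congrArg (fun q : Polynomial (MvPolynomial (Fin n) ℂ) =>
      q.comp (Polynomial.C (MvPolynomial.C (a : ℂ)⁻¹) * (Polynomial.X -
        Polynomial.C (MvPolynomial.C (j : ℂ))))) h4
    beta_reduce at h8
    rw [Polynomial.comp_assoc] at h8
    have h9 : (Polynomial.C (MvPolynomial.C (a : ℂ)) * Polynomial.X +
        Polynomial.C (MvPolynomial.C (j : ℂ)) : Polynomial (MvPolynomial (Fin n) ℂ)).comp
          (Polynomial.C (MvPolynomial.C (a : ℂ)⁻¹) * (Polynomial.X -
        Polynomial.C (MvPolynomial.C (j : ℂ)))) = Polynomial.X := by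
      rw [Polynomial.add_comp, Polynomial.mul_comp, Polynomial.C_comp, Polynomial.X_comp,
        Polynomial.C_comp, ← mul_assoc, ← Polynomial.C_mul, ← MvPolynomial.C_mul,
        mul_inv_cancel₀ ha, MvPolynomial.C_1, Polynomial.C_1, one_mul, sub_add_cancel]
    rw [h9, Polynomial.comp_X] at h8
    rw [← h8, Polynomial.mul_comp, Polynomial.C_comp, hb', Polynomial.map_comp]
    congr 2
    rw [Polynomial.map_mul, Polynomial.map_C, Polynomial.map_sub, Polynomial.map_X,
      Polynomial.map_C]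
  rw [formal_iff]
  convert h3 using 2 with s
  refine mul_left_cancel₀ (pow_ne_zero D hf) ?_
  rw [hp s, h7, eval_map, Polynomial.eval_mul, Polynomial.eval_C]
  have hcs : (s : MvPolynomial (Fin n) ℂ) = MvPolynomial.C (s : ℂ) := by
    rw [map_natCast]
  rw [← hcs]
  ring

open Pool.Agent.W574.SM (IsFunctionalEq) in
/-- **The functional equations of `f ^ a`, any finite set of variables.** -/
theorem fe_pow {σ : Type} [Finite σ] {f : MvPolynomial σ ℂ} (hf : f ≠ 0) (a j : ℕ) (hj : j < a)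
    {b : Polynomial ℂ} (hb : IsFunctionalEq (fun _ : Fin 1 => f ^ a) b) :
    IsFunctionalEq (fun _ : Fin 1 => f)
      (b.comp (Polynomial.C (a : ℂ)⁻¹ * (Polynomial.X - Polynomial.C (j : ℂ)))) := by
  obtain ⟨n, ⟨e⟩⟩ := Finite.exists_equiv_fin σ
  have h1 := Pool.Agent.W578.SI.taskI2.1 e _ _ (Pool.Agent.Y229.isB_of_single _ b hb)
  rw [map_pow] at h1
  have hf' : rename e f ≠ 0 := by
    rw [Ne, map_eq_zero_iff _ (rename_injective _ e.injective)]
    exact hf
  have h2 := Pool.Agent.W578.SI.taskI2.1 e.symm _ _ (isB_pow_fin hf' a j hj h1)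
  have h3 : rename e.symm (rename e f) = f := by
    rw [rename_rename, Equiv.symm_comp_self, rename_id, AlgHom.id_apply]
  rw [h3] at h2
  exact Pool.Agent.Y230.PS.single_of_isB _ _ h2

end Pool.Agent.X271.TcP
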