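import Pool.Agent.X271.TcPow
import Pool.Agent.X271.TcDef
import Pool.Agent.Y229.PG.Nd
import Pool.Agent.Y229.PG.Idl2
import Pool.Agent.Y229.PS.Weak
import Pool.Agent.Y230.TH.TopFin

set_option autoImplicit false

/-! # Closure properties of the monodromy conjecture -/

namespace Pool.Agent.X271.TcT

open Polynomial Pool.Agent.W574.SM Pool.Agent.W574.CN Pool.Agent.W574.RO Pool.Agent.Y229
open Pool.Agent.W574.HS Pool.Agent.Y230.PS Pool.Agent.Y230.TH Pool.Agent.X271.TcD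
open Pool.Agent.H628R4.TP (IsBFunction)
open Pool.Agent.X271.TwD (BecomesG unstab shiftZ)

/-- the shifts -/
noncomputable def Tw (w : Bool) : AddSubmonoid ℂ := if w = true then natC else ⊥

theorem mem_Tw (w : Bool) (t : ℂ) : t ∈ Tw w ↔ Sh w t := by
  unfold Tw Sh
  cases w with
  | false =>
    rw [if_neg (by simp), AddSubmonoid.mem_bot]
    simp
  | true =>
    rw [if_pos rfl, mem_natC]
    constructor
    · rintro ⟨i, rfl⟩
      exact Or.inr ⟨rfl, i, rfl⟩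
    · rintro (rfl | ⟨-, i, rfl⟩)
      · exact ⟨0, by simp⟩
      · exact ⟨i, rfl⟩

theorem dvd_dl (b : ℂ[X]) (r : ℂ) : (X - C r) ^ (1 + dl r) ∣ b ↔
    (b.eval r = 0 ∧ (r = -1 → (X + 1) ^ 2 ∣ b)) := by
  rw [dl_eq]
  split_ifs with h
  · subst h
    rw [← X_add_one]
    constructor
    · intro h
      refine ⟨?_, fun _ => h⟩
      have h1 : (X + 1 : ℂ[X]) ∣ b := (dvd_pow_self _ (by norm_num)).trans h
      rw [X_add_one, dvd_iff_isRoot] at h1
      exact h1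
    · rintro ⟨-, h⟩
      exact h rfl
  · rw [add_zero, pow_one, dvd_iff_isRoot]
    exact ⟨fun h1 => ⟨h1, fun h2 => absurd h2 h⟩, fun h1 => h1.1⟩

theorem mon_iff (w c : Bool) (A : Fam) (Z : RatFunc ℂ) : Mon w c A Z ↔ Cl (Tw w) c A Z := by
  constructor
  · intro h
    refine ⟨h.fin, h.ne, fun s hs => ?_, fun hc hs => ?_, fun hc s hs => ?_⟩
    · obtain ⟨t, ht, h1⟩ := h.pole s hs
      exact ⟨t, (mem_Tw w t).2 ht, (fm_one _ _).2 h1⟩
    · exact (fm_one _ _).2 (h.one hc hs)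
    · obtain ⟨t, ht, h1⟩ := h.red hc s hs
      exact ⟨t, (mem_Tw w t).2 ht, fun b hb => (dvd_dl b _).2 (h1 b hb)⟩
  · intro h
    refine ⟨h.fin, h.ne, fun s hs => ?_, fun hc hs => ?_, fun hc s hs => ?_⟩
    · obtain ⟨t, ht, h1⟩ := h.pole s hs
      exact ⟨t, (mem_Tw w t).1 ht, (fm_one _ _).1 h1⟩
    · exact (fm_one _ _).1 (h.one hc hs)
    · obtain ⟨t, ht, h1⟩ := h.ref hc s hs
      exact ⟨t, (mem_Tw w t).1 ht, fun b hb => (dvd_dl b _).1 (h1 b hb)⟩

/-- the reduced form -/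
theorem dvd_red (c : ℂ[X]) (r : ℂ) : (X - C r) ^ (1 + dl r) ∣ (X + 1) * c ↔ c.eval r = 0 := by
  rw [dvd_dl]
  have h1 : (X + 1 : ℂ[X]) ≠ 0 := by
    rw [X_add_one]
    exact X_sub_C_ne_zero _
  constructor
  · rintro ⟨h2, h3⟩
    by_cases hr : r = -1
    · obtain ⟨q, hq⟩ := h3 hr
      have h4 : c = (X + 1) * q := mul_left_cancel₀ h1 (by rw [hq]; ring)
      rw [h4, hr]
      simp
    · rw [eval_mul, eval_add, eval_X, eval_one] at h2
      rcases mul_eq_zero.1 h2 with h4 | h4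
      · exact absurd (eq_neg_of_add_eq_zero_left h4) hr
      · exact h4
  · intro h2
    refine ⟨by rw [eval_mul, h2, mul_zero], fun hr => ?_⟩
    rw [pow_two]
    refine mul_dvd_mul_left _ ?_
    rw [X_add_one, dvd_iff_isRoot, ← hr]
    exact h2

theorem reg_of_denom {s : ℂ} {Z : RatFunc ℂ} (h : Z.denom.eval s ≠ 0) :
    Pool.Agent.Y229.CF.Reg s Z := by
  refine ⟨Z.denom, Z.num, h, ?_⟩
  have h1 := RatFunc.num_div_denom Z
  have h2 : algebraMap ℂ[X] (RatFunc ℂ) Z.denom ≠ 0 :=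
    (map_ne_zero_iff _ (IsFractionRing.injective ℂ[X] (RatFunc ℂ))).2 Z.denom_ne_zero
  rw [div_eq_iff h2] at h1
  rw [mul_comm]
  exact h1.symm

theorem reg_neg {s : ℂ} {W : RatFunc ℂ} (hW : Pool.Agent.Y229.CF.Reg s W) :
    Pool.Agent.Y229.CF.Reg s (-W) := by
  have h3 := (Pool.Agent.Y229.CF.Reg.poly s (C (-1))).mul hW
  have h4 : algebraMap ℂ[X] (RatFunc ℂ) (C (-1)) * W = -W := by
    rw [map_neg, map_one, map_neg, map_one]
    ring
  rwa [h4] at h3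

/-- the poles of `(s + 1) Z_f` -/
theorem unstab_pole (k : ℕ) (Z : RatFunc ℂ) (s : ℂ) (hsk : s ≠ k)
    (hs : ((RatFunc.X + 1) * unstab k 1 Z).denom.eval s = 0) :
    ((RatFunc.X + 1) * Z).denom.eval (s - k) = 0 := by
  by_contra h
  have h1 := Pool.Agent.Y229.RE.reg_shift (reg_of_denom h)
  have hk := Pool.Agent.Y229.PS.ratX_ne (k : ℂ)
  have h1' : (RatFunc.X + 1 : RatFunc ℂ) ≠ 0 := X1_ne
  have h2 : Pool.Agent.Y229.RE.shiftZ k ((RatFunc.X + 1) * Z) =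
      (RatFunc.X - RatFunc.C (k : ℂ) + 1) * Pool.Agent.Y229.RE.shiftZ k Z := by
    rw [map_mul]
    congr 1
    have h3 := Pool.Agent.Y229.RE.shiftZ_poly k (X + 1)
    rw [map_add, map_one, RatFunc.algebraMap_X] at h3
    rw [h3, add_comp, X_comp, one_comp, map_add, map_sub, RatFunc.algebraMap_X,
      RatFunc.algebraMap_C, map_one]
  rw [h2] at h1
  have h3 : (RatFunc.X + 1) * unstab k 1 Z =
      (algebraMap ℂ[X] (RatFunc ℂ) (-(C (k : ℂ))) + algebraMap ℂ[X] (RatFunc ℂ) X *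
        ((RatFunc.X - RatFunc.C (k : ℂ) + 1) * Pool.Agent.Y229.RE.shiftZ k Z)) *
      (algebraMap ℂ[X] (RatFunc ℂ) (X - C (k : ℂ)))⁻¹ := by
    change (RatFunc.X + 1) * Pool.Agent.Y229.RE.unstab k 1 Z = _
    unfold Pool.Agent.Y229.RE.unstab
    rw [if_pos rfl, map_neg, map_sub, RatFunc.algebraMap_X, RatFunc.algebraMap_C]
    field_simp
    ring
  refine Pool.Agent.Y229.CF.Reg.denom ?_ hs
  rw [h3]
  refine Pool.Agent.Y229.CF.Reg.mul (Pool.Agent.Y229.CF.Reg.add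
    (Pool.Agent.Y229.CF.Reg.poly _ _) ((Pool.Agent.Y229.CF.Reg.poly _ _).mul h1))
      (Pool.Agent.Y229.CF.Reg.inv ?_)
  rw [eval_sub, eval_X, eval_C, sub_ne_zero]
  exact hsk

/-- **Destabilisation.** -/
theorem cl_destab (T : AddSubmonoid ℂ) (N k : ℕ) (f : MvPolynomial (Fin N) ℂ)
    (hf : f.totalDegree ≠ 0) (G : MvPolynomial (Fin (N + (k + k))) ℂ) (hG : BecomesG f k G)
    (Z : RatFunc ℂ) (hk : (unstab k 1 Z).denom.eval (k : ℂ) ≠ 0)
    (ih : Cl T true ⟨Fin (N + (k + k)), Fin 1, fun _ => G⟩ Z) :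
    Cl T true ⟨Fin N, Fin 1, fun _ => f⟩ (unstab k 1 Z) := by
  have key : ∀ b : ℂ[X], IsFunctionalEq (fun _ : Fin 1 => f) b → ∃ c : ℂ[X],
      b = (X + 1) * c ∧ IsFunctionalEq (fun _ : Fin 1 => G) ((X + 1) * c.comp (X + C (k : ℂ))) := by
    intro b hb
    obtain ⟨h1, h2⟩ := Pool.Agent.Y229.PG.becomes_global hf (isB_of_single _ b hb) hG
    obtain ⟨c, hc⟩ := Pool.Agent.Y229.PS.exists_factor h1
    exact ⟨c, hc, single_of_isB _ _ (h2 c hc)⟩
  have hone : FM (fun _ : Fin 1 => f) (-1) 1 := by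
    rw [fm_one]
    intro b hb
    obtain ⟨c, rfl, -⟩ := key b hb
    simp
  have href : ∀ s : ℂ, ((RatFunc.X + 1) * unstab k 1 Z).denom.eval s = 0 →
      ∃ t ∈ T, FM (fun _ : Fin 1 => f) (s - t) (1 + dl (s - t)) := by
    intro s hs
    have hsk : s ≠ k := by
      rintro rfl
      exact hk (pole_of_ref _ _ hs)
    obtain ⟨t, ht, h1⟩ := ih.ref rfl _ (unstab_pole k Z s hsk hs)
    refine ⟨t, ht, fun b hb => ?_⟩
    obtain ⟨c, rfl, h2⟩ := key b hb
    have h3 := (dvd_red _ _).1 (h1 _ h2)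
    rw [dvd_red]
    rw [eval_comp, eval_add, eval_X, eval_C] at h3
    rw [← h3]
    congr 1
    ring
  refine ⟨inferInstanceAs (Finite (Fin N)), ⟨(0 : Fin 1), fun h0 => hf ?_⟩, fun s hs => ?_,
    fun _ _ => hone, fun _ s hs => href s hs⟩
  · have h0' : f = 0 := h0
    rw [h0', MvPolynomial.totalDegree_zero]
  · rcases ref_of_pole _ s hs with h1 | rfl
    · obtain ⟨t, ht, h2⟩ := href s h1
      exact ⟨t, ht, h2.mono (Nat.le_add_right _ _)⟩
    · exact ⟨0, T.zero_mem, by rw [sub_zero]; exact hone⟩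

/-- **From `∑ y_j f_j` to the ideal.** -/
theorem cl_back (T : AddSubmonoid ℂ) (A : Fam) (Z : RatFunc ℂ)
    (ih : Cl T true (univFam A) Z) : Cl T false A ((RatFunc.X + 1) * Z) := by
  classical
  have hfin : Finite (A.ι ⊕ A.σ) := ih.fin
  refine ⟨Finite.of_injective (Sum.inr : A.σ → A.ι ⊕ A.σ) Sum.inr_injective, ?_, fun s hs => ?_,
    fun h => absurd h (by simp), fun h => absurd h (by simp)⟩
  · by_contra hcon
    push Not at hcon
    obtain ⟨j, hj⟩ := ih.ne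
    apply hj
    change ∑ j, MvPolynomial.X (Sum.inl j) * MvPolynomial.rename Sum.inr (A.f j) =
      (0 : MvPolynomial (A.ι ⊕ A.σ) ℂ)
    refine Finset.sum_eq_zero fun i _ => ?_
    rw [hcon i, map_zero, mul_zero]
  · obtain ⟨t, ht, h1⟩ := ih.ref rfl s hs
    refine ⟨t, ht, (fm_one _ _).2 fun b hb => ?_⟩
    have h2 := Pool.Agent.W366.SI.taskI1 A.f b hb
    exact (dvd_red b _).1 (h1 _ (single_of_isB _ _ h2))

theorem scale_pole (a : ℕ) (Z : RatFunc ℂ) (s : ℂ)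
    (hs : (scaleZ a Z).denom.eval s = 0) : Z.denom.eval ((a : ℂ) * s) = 0 := by
  by_contra h
  refine Pool.Agent.Y229.CF.Reg.denom ?_ hs
  refine (Pool.Agent.Y229.CF.Reg.poly _ _).mul (Pool.Agent.Y229.CF.Reg.inv ?_)
  rw [eval_comp, eval_mul, eval_C, eval_X]
  exact h

/-- **Powers.** -/
theorem cl_pow (w : Bool) (σ : Type) (f : MvPolynomial σ ℂ) (a : ℕ) (ha : 1 ≤ a) (Z : RatFunc ℂ)
    (ih : Cl (Tw w) false ⟨σ, Fin 1, fun _ => f⟩ Z) :
    Cl (Tw w) false ⟨σ, Fin 1, fun _ => f ^ a⟩ (scaleZ a Z) := by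
  have hfin : Finite σ := ih.fin
  have hf : f ≠ 0 := by
    obtain ⟨j, hj⟩ := ih.ne
    exact hj
  have ha0 : (a : ℂ) ≠ 0 := by
    have : a ≠ 0 := by omega
    exact_mod_cast this
  refine ⟨hfin, ⟨(0 : Fin 1), pow_ne_zero a hf⟩, fun s hs => ?_,
    fun h => absurd h (by simp), fun h => absurd h (by simp)⟩
  obtain ⟨t, ht, h1⟩ := ih.pole _ (scale_pole a Z s hs)
  rw [fm_one] at h1
  have key : ∀ j : ℕ, j < a → ∀ b : ℂ[X], IsFunctionalEq (fun _ : Fin 1 => f ^ a) b →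
      b.eval (s - (a : ℂ)⁻¹ * (t + j)) = 0 := by
    intro j hj b hb
    have h2 := h1 _ (Pool.Agent.X271.TcP.fe_pow hf a j hj hb)
    rw [eval_comp, eval_mul, eval_C, eval_sub, eval_X, eval_C] at h2
    rw [← h2]
    congr 1
    field_simp
    ring
  rcases (mem_Tw w t).1 ht with rfl | ⟨hw, i, rfl⟩
  · refine ⟨0, (Tw w).zero_mem, (fm_one _ _).2 fun b hb => ?_⟩
    have h2 := key 0 (by omega) b hb
    simpa using h2
  · -- `t + j = a i'`
    set j : ℕ := (a - i % a) % a with hj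
    obtain ⟨q, hq⟩ : a ∣ i + j := by
      rw [hj, Nat.dvd_iff_mod_eq_zero, Nat.add_mod, Nat.mod_mod, ← Nat.add_mod]
      have h3 : i % a < a := Nat.mod_lt _ (by omega)
      have h4 : i + (a - i % a) = a * (i / a) + a := by
        have := Nat.div_add_mod i a
        omega
      rw [h4]
      simp
    refine ⟨q, (mem_Tw w _).2 (Or.inr ⟨hw, q, rfl⟩), (fm_one _ _).2 fun b hb => ?_⟩
    have h2 := key j (Nat.mod_lt _ (by omega)) b hb
    have h3 : (a : ℂ)⁻¹ * ((i : ℂ) + j) = q := by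
      have h4 : (i : ℂ) + j = a * q := by exact_mod_cast hq
      rw [h4, ← mul_assoc, inv_mul_cancel₀ ha0, one_mul]
    rwa [h3] at h2

/-- one step -/
theorem step (T : AddSubmonoid ℂ) (c : Bool) (A : Fam) (Z : RatFunc ℂ)
    (h : TT (Cl T false) (Cl T true) c A Z) : Cl T c A Z :=
  tt_closure T (Cl T false) (Cl T true) (fun A Z h => ⟨h.fin, h.ne, fun s hs => by
    obtain ⟨t, ht, h1⟩ := h.pole s hs
    exact ⟨t, ht, (fm_one _ _).1 h1⟩⟩) (fun A Z h => h) c A Z h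

/-- **The induction.** -/
theorem tc_closure (w : Bool) (At HAt : Fam → RatFunc ℂ → Prop)
    (hAt : ∀ A Z, At A Z → Cl (Tw w) false A Z) (hHAt : ∀ A Z, HAt A Z → Cl (Tw w) true A Z)
    (c : Bool) (A : Fam) (Z : RatFunc ℂ) (h : TC At HAt c A Z) : Cl (Tw w) c A Z := by
  have inj : ∀ c A Z, Cl (Tw w) c A Z → TT (Cl (Tw w) false) (Cl (Tw w) true) c A Z := by
    intro c A Z h
    cases c with
    | false => exact TT.atom A Z h
    | true => exact TT.hatom A Z h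
  induction h with
  | atom A Z h => exact hAt A Z h
  | hatom A Z h => exact hHAt A Z h
  | hyp A Z h ih => exact step _ _ _ _ (TT.hyp A Z (inj _ _ _ ih))
  | pow σ f a ha Z h ih => exact cl_pow w σ f a ha Z ih
  | sum A B Z W v w hv hw hv0 hw0 hA hB ihA ihB =>
    exact step _ _ _ _ (TT.sum A B Z W v w hv hw hv0 hw0 (inj _ _ _ ihA) (inj _ _ _ ihB))
  | mul c A B Z W hA hB ihA ihB =>
    exact step _ _ _ _ (TT.mul c A B Z W (inj _ _ _ ihA) (inj _ _ _ ihB))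
  | univ A Z hA ih => exact step _ _ _ _ (TT.univ A Z (inj _ _ _ ih))
  | back A Z hA ih => exact cl_back _ A Z ih
  | ts A τ g Z W v w c hv hw hv0 hw0 hA hg ihA ihg =>
    exact step _ _ _ _ (TT.ts A τ g Z W v w c hv hw hv0 hw0 (inj _ _ _ ihA) (inj _ _ _ ihg))
  | destab N k f hf G hG Z hk h ih => exact cl_destab _ N k f hf G hG Z hk ih
  | drop σ κ g Z h ih => exact step _ _ _ _ (TT.drop σ κ g Z (inj _ _ _ ih))
  | equiv c A B i k h Z hA ih => exact step _ _ _ _ (TT.equiv c A B i k h Z (inj _ _ _ ih))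

/-- **The closure theorem.** -/
theorem mon_closure (w : Bool) (At HAt : Fam → RatFunc ℂ → Prop)
    (hAt : ∀ A Z, At A Z → Mon w false A Z) (hHAt : ∀ A Z, HAt A Z → Mon w true A Z)
    (c : Bool) (A : Fam) (Z : RatFunc ℂ) (h : TC At HAt c A Z) : Mon w c A Z :=
  (mon_iff w c A Z).2 (tc_closure w At HAt (fun A Z h => (mon_iff _ _ _ _).1 (hAt A Z h))
    (fun A Z h => (mon_iff _ _ _ _).1 (hHAt A Z h)) c A Z h)

end Pool.Agent.X271.TcT
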