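import Pool.Agent.X271.TwDef

set_option autoImplicit false

/-! Topological zeta functions of ideals which become nondegenerate after stabilisation:
definitions. -/

namespace Pool.Agent.X271.TiD

open MvPolynomial

variable {N P k r n : ℕ}

/-- `∑_j u_j f_j(x)`, in the variables `u, x` -/
noncomputable def usum (f : Fin P → MvPolynomial (Fin N) ℂ) : MvPolynomial (Fin (P + N)) ℂ :=
  ∑ j, X (Fin.castAdd N j) * rename (Fin.natAdd P) (f j)

/-- `∑_j u_j f_j(x)`, in the variables `x, u` -/
noncomputable def xsum (f : Fin P → MvPolynomial (Fin N) ℂ) : MvPolynomial (Fin (N + P)) ℂ :=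
  ∑ j, X (Fin.natAdd N j) * rename (Fin.castAdd P) (f j)

/-- `∑_{π j = i} a_j X ^ (m j)` -/
noncomputable def part {q : ℕ} (π : Fin r → Fin q) (m : Fin r → Fin n → ℕ) (a : Fin r → ℂ)
    (i : Fin q) : MvPolynomial (Fin n) ℂ :=
  ∑ j ∈ Finset.univ.filter (fun j => π j = i), C (a j) * ∏ v, X v ^ m j v

/-- The exponents of `∑_j u_j Φ_j(x, z) + ∑_i y_i l_i(x, z)` in the variables `u, x; y, z`, where the
exponents `m j` in the variables `x, z` belong to `l_i` for `π j = i` and to `Φ_j'` for
`π j = k + j'`. -/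
def expI (π : Fin r → Fin (k + P)) (m : Fin r → Fin (N + k) → ℕ) (j : Fin r) :
    Fin ((P + N) + (k + k)) → ℕ :=
  Fin.append (Fin.append (fun j' : Fin P => if π j = Fin.natAdd k j' then 1 else 0)
      (fun i => m j (Fin.castAdd k i)))
    (Fin.append (fun i : Fin k => if π j = Fin.castAdd P i then 1 else 0)
      (fun i => m j (Fin.natAdd N i)))

/-- The conclusion: for some `K`,
`(s - k) ∏_{i ≤ K} (s - k - i + 1) b(s - i) Z(s)` is a polynomial. So for every pole `s0` of `Z` with
negative real part, `s0 ≠ -1` if `k = 0`, there is `i ∈ ℕ` with `b(s0 - i) = 0`, and the order of the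
pole is at most the sum of the multiplicities of these roots. -/
def OrdersI (b : Polynomial ℂ) (k : ℕ) (Z : RatFunc ℂ) : Prop :=
  ∃ (K : ℕ) (Q : Polynomial ℂ), algebraMap (Polynomial ℂ) (RatFunc ℂ)
    ((Polynomial.X - Polynomial.C (k : ℂ)) * ∏ i ∈ Finset.range (K + 1),
      ((Polynomial.X - Polynomial.C (k : ℂ) - Polynomial.C (i : ℂ) + 1) *
        b.comp (Polynomial.X - Polynomial.C (i : ℂ)))) * Z =
    algebraMap (Polynomial ℂ) (RatFunc ℂ) Q

end Pool.Agent.X271.TiD
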