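import Pool.Agent.Y229.PG.Nd
import Pool.Agent.Y229.PG.Idl2
import Pool.Agent.Y229.PS.Weak
import Pool.Agent.X271.TiDef
import Pool.Agent.X271.IdCmp

set_option autoImplicit false

/-! Topological zeta functions of ideals which become nondegenerate after stabilisation. -/

namespace Pool.Agent.X271.TiT

open Polynomial
open Pool.Agent.H628R4.TP
open Pool.Agent.W425.SM (sparse SmoothFan Principal)
open Pool.Agent.W422.GC (topZetaG topZetaGLocal)
open Pool.Agent.W425.ND (Nondeg prodb rel_of parts unitEq_of_global)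
open Pool.Agent.Y229.CF (NondegC)
open Pool.Agent.Y229.PG (lin BecomesG becomes_global lin_deg rename_lin)
open Pool.Agent.Y229.RE (unstab shiftZ shiftZ_poly ex)
open Pool.Agent.Y229.PS (exists_factor IsFormalBFunction Becomes becomes_local ratX_ne)
open Pool.Agent.X271.TiD (OrdersI usum xsum part expI)
open Pool.Agent.W574.SM (IsFunctionalEq)
open Pool.Agent.W749.JI (IsLocalBIdeal fam)

variable {N M k P r : ℕ}

/-- nondegenerate polynomials, global -/
theorem nd_orders (hr : 1 ≤ r) (v : Fin r → Fin M → ℕ) (a : Fin r → ℂ)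
    (hv : Function.Injective v) (hv0 : ∀ j, v j ≠ 0) (hnd : Nondeg v a) (b : ℂ[X])
    (hb : IsBFunction (sparse v a) b) (R : SmoothFan M) (hR : Principal v R) :
    ∃ (K : ℕ) (Q : ℂ[X]), algebraMap ℂ[X] (RatFunc ℂ) ((X + 1) * prodb b K) * topZetaG v R =
      algebraMap ℂ[X] (RatFunc ℂ) Q := by
  have : NeZero r := ⟨by omega⟩
  obtain ⟨K, θ, hθ, hV⟩ := rel_of parts False v a hv hnd b (unitEq_of_global _ _ hb)
  obtain ⟨Q, hQ⟩ := Pool.Agent.W425.SV.mainV_rel v hv hv0 θ hθ False R hR 1 one_ne_zero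
    (fun h => h.elim) _ hV
  rw [← Pool.Agent.W422.GC.topZG_eq v θ hθ, Pool.Agent.W422.GC.topZG_one] at hQ
  exact ⟨K, Q, hQ⟩

/-- the passage from `G` to the ideal -/
theorem unstabI {Z : RatFunc ℂ} {b Q : ℂ[X]} {K : ℕ}
    (h : algebraMap ℂ[X] (RatFunc ℂ) ((X + 1) *
      prodb ((X + 1) * b.comp (X + C (k : ℂ))) K) * Z = algebraMap ℂ[X] (RatFunc ℂ) Q) :
    OrdersI b k ((RatFunc.X + 1) * unstab k 1 Z) := by
  have h1 := congrArg (shiftZ k) h
  rw [map_mul, shiftZ_poly, shiftZ_poly] at h1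
  have h2 : ((X + 1) * prodb ((X + 1) * b.comp (X + C (k : ℂ))) K : ℂ[X]).comp
      (X - C (k : ℂ)) = (X - C (k : ℂ) + 1) * ∏ i ∈ Finset.range (K + 1),
      ((X - C (k : ℂ) - C (i : ℂ) + 1) * b.comp (X - C (i : ℂ))) := by
    unfold prodb
    rw [mul_comp, Polynomial.prod_comp]
    congr 1
    · simp
    · refine Finset.prod_congr rfl fun i _ => ?_
      rw [mul_comp, mul_comp, comp_assoc, comp_assoc, comp_assoc]
      congr 1
      · simp
      · congr 1
        simp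
        ring
  rw [h2] at h1
  set D : ℂ[X] := ∏ i ∈ Finset.range (K + 1),
      ((X - C (k : ℂ) - C (i : ℂ) + 1) * b.comp (X - C (i : ℂ))) with hD
  have hk := ratX_ne (k : ℂ)
  have h1' : (RatFunc.X + 1 : RatFunc ℂ) ≠ 0 := by
    have := ratX_ne (-1)
    rwa [map_neg, map_one, sub_neg_eq_add] at this
  refine ⟨K, D * (X + 1) * (X - C (k : ℂ)) - X * ((X - C (k : ℂ) + 1) * D -
    Q.comp (X - C (k : ℂ))), ?_⟩
  rw [← hD]
  unfold unstab
  rw [if_pos rfl]
  simp only [map_sub, map_mul, map_add, map_one, RatFunc.algebraMap_X, RatFunc.algebraMap_C]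
    at h1 ⊢
  rw [← h1]
  field_simp

/-- global, stably nondegenerate -/
theorem ideal_nd (hr : 1 ≤ r) (v : Fin r → Fin ((P + N) + (k + k)) → ℕ) (a : Fin r → ℂ)
    (hv : Function.Injective v) (hv0 : ∀ j, v j ≠ 0) (hnd : Nondeg v a)
    (f : Fin P → MvPolynomial (Fin N) ℂ) (hf : ∃ j, f j ≠ 0)
    (hB : BecomesG (lin f) k (sparse v a)) (b : ℂ[X]) (hb : IsFunctionalEq f b)
    (R : SmoothFan ((P + N) + (k + k))) (hR : Principal v R) :
    OrdersI b k ((RatFunc.X + 1) * unstab k 1 (topZetaG v R)) := by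
  have h1 := Pool.Agent.W366.SI.taskI1 f _ hb
  have h2 := Pool.Agent.W578.SI.taskI2.1 (finSumFinEquiv : Fin P ⊕ Fin N ≃ Fin (P + N)) _ _ h1
  rw [rename_lin] at h2
  obtain ⟨-, h3⟩ := becomes_global (lin_deg f hf) h2 hB
  obtain ⟨K, Q, hQ⟩ := nd_orders hr v a hv hv0 hnd _ (h3 b rfl) R hR
  exact unstabI hQ

/-- global, compositions -/
theorem ideal_cmp (hr : 1 ≤ r) (π : Fin r → Fin (k + P))
    (m : Fin r → Fin (N + k) → ℕ) (hinj : ∀ j j', π j = π j' → m j = m j' → j = j')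
    (a : Fin r → ℂ) (hnd : Nondeg (ex (Pool.Agent.Y229.PG.iP π) (Pool.Agent.Y229.PG.iM π m)) a)
    (c : Fin k → ℂ) (p : Fin k → MvPolynomial (Fin N) ℂ) (hc : ∀ i, c i ≠ 0)
    (hl : ∀ i : Fin k, fam π m a (Fin.castAdd P i) = MvPolynomial.C (c i) *
      MvPolynomial.X (Fin.natAdd N i) - MvPolynomial.rename (Fin.castAdd k) (p i))
    (f : Fin P → MvPolynomial (Fin N) ℂ) (hf : ∀ j, f j = MvPolynomial.aeval
      (Fin.append MvPolynomial.X fun i => MvPolynomial.C (c i)⁻¹ * p i)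
        (fam π m a (Fin.natAdd k j))) (hf0 : ∃ j, f j ≠ 0) (b : ℂ[X]) (hb : IsFunctionalEq f b)
    (R : SmoothFan ((P + N) + (k + k)))
    (hR : Principal (ex (Pool.Agent.Y229.PG.iP π) (Pool.Agent.Y229.PG.iM π m)) R) :
    OrdersI b k ((RatFunc.X + 1) * unstab k 1
      (topZetaG (ex (Pool.Agent.Y229.PG.iP π) (Pool.Agent.Y229.PG.iM π m)) R)) := by
  obtain ⟨θ, h3, h4⟩ := Pool.Agent.Y229.PG.graph_equiv c hc
    (fun i => MvPolynomial.rename (Fin.natAdd P) (p i))
  obtain ⟨q, hq⟩ := Pool.Agent.Y229.PG.graph_restrict c hc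
    (fun i => MvPolynomial.rename (Fin.natAdd P) (p i))
    (fam (Pool.Agent.Y229.PG.iP π) (Pool.Agent.Y229.PG.iM π m) a 0)
  have h5 : ∀ i : Fin k, fam (Pool.Agent.Y229.PG.iP π) (Pool.Agent.Y229.PG.iM π m) a i.succ =
      MvPolynomial.C (c i) * MvPolynomial.X (Fin.natAdd (P + N) i) -
        MvPolynomial.rename (Fin.castAdd k) (MvPolynomial.rename (Fin.natAdd P) (p i)) := by
    intro i
    rw [Pool.Agent.Y229.PG.fam_l, hl, map_sub, map_mul, MvPolynomial.rename_C,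
      MvPolynomial.rename_X, Pool.Agent.Y229.PG.iv_r, MvPolynomial.rename_rename,
      MvPolynomial.rename_rename]
    have h6 : (Pool.Agent.Y229.PG.iv P ∘ Fin.castAdd k : Fin N → Fin ((P + N) + k)) =
        Fin.castAdd k ∘ Fin.natAdd P := funext fun i' => Pool.Agent.Y229.PG.iv_l i'
    rw [h6]
  have h6 : MvPolynomial.aeval (Fin.append MvPolynomial.X fun i =>
      MvPolynomial.C (c i)⁻¹ * MvPolynomial.rename (Fin.natAdd P) (p i))
      (fam (Pool.Agent.Y229.PG.iP π) (Pool.Agent.Y229.PG.iM π m) a 0) = lin f := by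
    rw [Pool.Agent.Y229.PG.fam_u, Pool.Agent.Y229.PG.lin_restrict]
    congr 1
    funext j
    rw [hf j]
  refine ideal_nd hr _ a (Pool.Agent.Y229.RE.ex_inj _ _ (Pool.Agent.Y229.PG.i_inj π m hinj))
    (Pool.Agent.Y229.PG.ex_ne_zero' _ _ (Pool.Agent.Y229.PG.i_ne π m)) hnd f hf0 ?_ b hb R hR
  rw [Pool.Agent.Y229.RE.sparse_ex]
  refine Pool.Agent.Y229.PG.becomesG_emb _ _ θ h3 (fun i => by rw [h4, h5]) (lin f) q ?_
  rw [← h6]
  simp only [h5]
  exact hq

/-- local, stably nondegenerate for the compact faces -/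
theorem ideal_loc (hr : 1 ≤ r) (v : Fin r → Fin ((N + P) + (k + k)) → ℕ) (a : Fin r → ℂ)
    (hv : Function.Injective v) (hv0 : ∀ j, v j ≠ 0) (hnd : NondegC v a)
    (f : Fin P → MvPolynomial (Fin N) ℂ) (hf : ∃ j, f j ≠ 0)
    (hB : Becomes (Pool.Agent.TH216.ID.gp f : MvPowerSeries (Fin (N + P)) ℂ) k (sparse v a))
    (b : ℂ[X]) (hb : IsLocalBIdeal f b)
    (R : SmoothFan ((N + P) + (k + k))) (hR : Principal v R) :
    OrdersI b k ((RatFunc.X + 1) * unstab k 1 (topZetaGLocal v R)) := by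
  by_cases hb0 : b = 0
  · refine ⟨0, 0, ?_⟩
    rw [hb0, Finset.prod_eq_zero (Finset.mem_range.2 (Nat.succ_pos 0)), mul_zero, map_zero,
      zero_mul]
    rw [zero_comp, mul_zero]
  have h1 := Pool.Agent.Y229.PS.formal_of_local (Pool.Agent.X271.MG.local_gp f b hb)
  obtain ⟨-, h3⟩ := becomes_local (f := (Pool.Agent.TH216.ID.gp f :
    MvPowerSeries (Fin (N + P)) ℂ)) (fun h0 => Pool.Agent.X271.MG.gp_ne f hf
      (MvPolynomial.coe_injective _ _ (h0.trans MvPolynomial.coe_zero.symm))) (by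
      rw [Pool.Agent.Y229.PS.const_coe]
      exact Pool.Agent.X271.MG.gp_const f) h1 hB
  have hne : ((X + 1) * b.comp (X + C (k : ℂ)) : ℂ[X]) ≠ 0 := by
    refine mul_ne_zero ?_ ?_
    · intro h0
      have := congrArg (Polynomial.eval 0) h0
      simp at this
    · intro h0
      apply hb0
      have := congrArg (fun q : ℂ[X] => q.comp (X - C (k : ℂ))) h0
      simpa [Polynomial.comp_assoc] using this
  obtain ⟨-, K, hK⟩ := Pool.Agent.Y229.GL.tw_local hr v a hv hv0 hnd R hR _ hne (h3 b rfl)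
  obtain ⟨Q, hQ⟩ := hK 1 le_rfl
  rw [if_pos rfl, Pool.Agent.Y229.GL.tw_one] at hQ
  exact unstabI hQ

/-- the exponents -/
theorem expI_eq (π : Fin r → Fin (k + P)) (m : Fin r → Fin (N + k) → ℕ) :
    ex (Pool.Agent.Y229.PG.iP π) (Pool.Agent.Y229.PG.iM π m) = expI π m := by
  funext j v
  unfold ex expI
  refine Fin.addCases (fun i => ?_) (fun i => ?_) v
  · rw [Fin.append_left, Fin.append_left]
    unfold Pool.Agent.Y229.PG.iM
    rw [Fin.append_left]
  · rw [Fin.append_right, Fin.append_right]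
    refine Fin.addCases (fun i => ?_) (fun i => ?_) i
    · rw [Fin.append_left, Fin.append_left]
      by_cases h : π j = Fin.castAdd P i
      · rw [if_pos h, if_pos (Pool.Agent.Y229.PG.iP_l π j i h)]
      · rw [if_neg h, if_neg fun h' => h (Pool.Agent.Y229.PG.iP_l' π j i h')]
    · rw [Fin.append_right, Fin.append_right]
      unfold Pool.Agent.Y229.PG.iM
      rw [Fin.append_right]

end Pool.Agent.X271.TiT
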