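import Pool.Agent.Y230.TL.Defs
import Pool.Agent.Y230.TL.Stm
import Pool.Agent.X271.TcDef

set_option autoImplicit false

/-! # Closure properties of the monodromy conjecture at the origin: definitions -/

namespace Pool.Agent.X271.TlD

open MvPolynomial Pool.Agent.W574.SM Pool.Agent.W574.CN Pool.Agent.W574.RO Pool.Agent.Y229
open Pool.Agent.Y230.TH (univFam tsFam)
open Pool.Agent.X271.TwD (unstab BecomesL)
open Pool.Agent.X271.TcD (scaleZ)

/-- Two classes of germs of ideals at the origin, given by generators, together with their local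
topological zeta functions: `LC At HAt false A Z` for ideals and `LC At HAt true A Z` for principal
ideals (hypersurfaces). They are the smallest classes with the following properties. -/
inductive LC (At HAt : Fam → RatFunc ℂ → Prop) : Bool → Fam → RatFunc ℂ → Prop
  /-- the ideals of the given class -/
  | atom (A : Fam) (Z : RatFunc ℂ) (h : At A Z) : LC At HAt false A Z
  /-- the hypersurfaces of the given class -/
  | hatom (A : Fam) (Z : RatFunc ℂ) (h : HAt A Z) : LC At HAt true A Z
  /-- a hypersurface is a principal ideal -/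
  | hyp (A : Fam) (Z : RatFunc ℂ) (h : LC At HAt true A Z) : LC At HAt false A Z
  /-- the powers of a polynomial, `Z_{f ^ a}(s) = Z_f(a s)` -/
  | pow (σ : Type) (f : MvPolynomial σ ℂ) (a : ℕ) (ha : 1 ≤ a) (Z : RatFunc ℂ)
      (h : LC At HAt false ⟨σ, Fin 1, fun _ => f⟩ Z) :
      LC At HAt false ⟨σ, Fin 1, fun _ => f ^ a⟩ (scaleZ a Z)
  /-- the sum of two ideals in disjoint sets of variables: if `1 - Z = s ∫ V(t) exp(- s t) dt` and
  `1 - W = s ∫ W'(t) exp(- s t) dt`, where no constant function occurs in the exponential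
  polynomials `V`, `W'` (given by `v` and `w`), then the topological zeta function of the sum is
  `1 - s ∫ V(t) W'(t) exp(- s t) dt` -/
  | sum (A B : Fam) (Z W : RatFunc ℂ) (v w : ℂ × ℕ →₀ ℂ) (hv : 1 - Z = RatFunc.X * lap v)
      (hw : 1 - W = RatFunc.X * lap w) (hv0 : ∀ p ∈ v.support, p.1 ≠ 0)
      (hw0 : ∀ p ∈ w.support, p.1 ≠ 0) (hA : LC At HAt false A Z) (hB : LC At HAt false B W) :
      LC At HAt false (A.sum B) (1 - RatFunc.X * lap2 v w)
  /-- the product of two ideals in disjoint sets of variables -/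
  | mul (A B : Fam) (Z W : RatFunc ℂ) (hA : LC At HAt false A Z) (hB : LC At HAt false B W) :
      LC At HAt false (A.mul B) (Z * W)
  /-- the germ of `∑ y_j f_j(x)` has the topological zeta function `Z / (s + 1)` -/
  | univ (A : Fam) (Z : RatFunc ℂ) (hA : LC At HAt false A Z) :
      LC At HAt true (univFam A) (Z * (RatFunc.X + 1)⁻¹)
  /-- the other direction: the ideal `(f_j)` has the zeta function `(s + 1) Z` if `∑ y_j f_j(x)` has the
  zeta function `Z` -/
  | back (A : Fam) (Z : RatFunc ℂ) (hA : LC At HAt true (univFam A) Z) :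
      LC At HAt false A ((RatFunc.X + 1) * Z)
  /-- the Thom-Sebastiani sum `∑ y_j f_j(x) + g(z)`, `g(0) = 0`: if
  `1 - Z = s ∫ V(t) exp(- s t) dt` and `1 - (s + 1) W = s ∫ U(t) exp(- s t) dt`, where no constant
  function occurs in the exponential polynomials `V`, `U` (given by `v` and `w`), then
  `1 - (s + 1) Z_F = s ∫ V(t) U(t) exp(- s t) dt` -/
  | ts (A : Fam) (τ : Type) (g : MvPolynomial τ ℂ) (Z W : RatFunc ℂ) (v w : ℂ × ℕ →₀ ℂ)
      (hv : 1 - Z = RatFunc.X * lap v) (hw : 1 - (RatFunc.X + 1) * W = RatFunc.X * lap w)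
      (hv0 : ∀ p ∈ v.support, p.1 ≠ 0) (hw0 : ∀ p ∈ w.support, p.1 ≠ 0)
      (h0 : constantCoeff g = 0)
      (hA : LC At HAt false A Z) (hg : LC At HAt true ⟨τ, Fin 1, fun _ => g⟩ W) :
      LC At HAt true (tsFam A τ g) ((1 - RatFunc.X * lap2 v w) * (RatFunc.X + 1)⁻¹)
  /-- the other direction for `f(x) + ∑ y_i z_i`, up to formal coordinate changes and units: if
  `f ≠ 0`, `f(0) = 0`, and `f + y_1 z_1 + ⋯ + y_k z_k` becomes `G` in suitable formal coordinates at the
  origin, up to a unit factor (`BecomesL`), then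
  `1 - Z_f(s) = (1 - Z_G(s - k)) s (s - k + 1) / ((s - k) (s + 1))` (`unstab`; this function has no pole at
  `k ≥ 0`, because this is true for all topological zeta functions). For `k = 0` this says
  `Z_f = Z_G`, if `f` is `G` in formal coordinates and up to a unit. -/
  | destab (N k : ℕ) (f : MvPolynomial (Fin N) ℂ) (hf : f ≠ 0) (hf0 : constantCoeff f = 0)
      (G : MvPolynomial (Fin (N + (k + k))) ℂ) (hG : BecomesL (f : MvPowerSeries (Fin N) ℂ) k G)
      (Z : RatFunc ℂ) (hk : (unstab k 1 Z).denom.eval (k : ℂ) ≠ 0)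
      (h : LC At HAt true ⟨Fin (N + (k + k)), Fin 1, fun _ => G⟩ Z) :
      LC At HAt true ⟨Fin N, Fin 1, fun _ => f⟩ (unstab k 1 Z)
  /-- variables which do not occur may be dropped -/
  | drop (σ κ : Type) (g : MvPolynomial σ ℂ) (Z : RatFunc ℂ)
      (h : LC At HAt true ⟨σ ⊕ κ, Fin 1, fun _ => rename Sum.inl g⟩ Z) :
      LC At HAt true ⟨σ, Fin 1, fun _ => g⟩ Z
  /-- the variables and the generators may be indexed differently -/
  | equiv (c : Bool) (A B : Fam) (i : A.σ ≃ B.σ) (k : A.ι ≃ B.ι)
      (h : ∀ j, B.f (k j) = rename i (A.f j)) (Z : RatFunc ℂ) (hA : LC At HAt c A Z) :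
      LC At HAt c B Z

/-- The strong monodromy conjecture at the origin for the ideal generated by the family `A`, in
finitely many variables, which is not zero, and the function `Z`: every pole `s` of `Z` is forced
at the origin (`SF`): `B(0, s) = 0` for all polynomials `B(x, s)` which satisfy a functional equation
`B(x, ∑ s_j) ∏ f_j ^ s_j ∈ ∑ D[s_j] ∏ f_j ^ (s_j + c_j)`, `∑ c_j = 1` (equivalently, `s` is a root of the
local Bernstein-Sato polynomial). If `c = true`: in addition (for hypersurfaces) the reduced form: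
for every pole `s` of `(s + 1) Z` and all polynomials `B(x, s)` with
`(s + 1) B(x, s) f ^ s ∈ D[s] f ^ (s + 1)` one has `B(0, s) = 0` (`RF`; equivalently, `s` is a root of the
reduced local Bernstein-Sato polynomial `b(s) / (s + 1)`). -/
structure MonL (c : Bool) (A : Fam) (Z : RatFunc ℂ) : Prop where
  fin : Finite A.σ
  ne : ∃ j, A.f j ≠ 0
  pole : ∀ s : ℂ, Z.denom.eval s = 0 → SF A.f 0 s
  red : c = true → ∀ s : ℂ, ((RatFunc.X + 1) * Z).denom.eval s = 0 →
    ∀ j, Pool.Agent.Y230.TL.RF (A.f j) 0 s

end Pool.Agent.X271.TlD
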