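import Pool.Agent.X271.TlThm
import Pool.Agent.Y230.TL.Fin
import Pool.Agent.Y230.TL.U
import Pool.Agent.Y230.TL.A
import Pool.Agent.Y64.TL.ExpB
import Pool.Agent.Y448.TL.J
import Pool.Agent.Y229.PS.Gen

set_option autoImplicit false
set_option linter.unusedSectionVars false

/-! # Closure properties of the monodromy conjecture at the origin: the final statements -/

namespace Pool.Agent.X271.TlT

open MvPolynomial Pool.Agent.W574.SM Pool.Agent.W574.CN Pool.Agent.W574.RO Pool.Agent.Y229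
open Pool.Agent.Y230.TL
open Pool.Agent.Y229.PS (hG np_hG sparse_hG tup_zero becomes_emb const_coe)
open Pool.Agent.Y229.RE (ex ex_inj ex_ne_zero)
open Pool.Agent.H628R4.TP (IsLocalBFunction)
open Pool.Agent.X271.TwD (unstab exps InPolyT)
open Pool.Agent.TH192.DT Pool.Agent.W425.SM Pool.Agent.W422.GC Pool.Agent.W574.HS
open Pool.Agent.X271.TlD

theorem hJ : StJ := Pool.Agent.Y448.TL.tJ tA Pool.Agent.Y64.TL.tB

theorem hU : StU := tU Pool.Agent.Y64.TL.tB

theorem hL : StL := Pool.Agent.Y475.TL.tL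

/-- **The closure theorem.** -/
theorem closure (At HAt : Fam → RatFunc ℂ → Prop)
    (hAt : ∀ A Z, At A Z → MonL false A Z) (hHAt : ∀ A Z, HAt A Z → MonL true A Z)
    (c : Bool) (A : Fam) (Z : RatFunc ℂ) (h : LC At HAt c A Z) : MonL c A Z :=
  lc_closure hJ hU hL At HAt hAt hHAt c A Z h

theorem strong_mem (c : Bool) (A : Fam) (Z : RatFunc ℂ)
    (h : LC (fun A Z => Finite A.σ ∧ StrongLocal A Z) StrongHyp c A Z) : MonL c A Z := by
  refine closure _ _ (fun A Z h => ?_) (fun A Z h => ?_) c A Z h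
  · obtain ⟨h1, h2, h3⟩ := fi_strong ⊥ A Z h
    refine ⟨h1, h2, fun s hs => ?_, fun h => absurd h (by simp)⟩
    obtain ⟨t, ht, h4⟩ := h3 s hs
    rw [AddSubmonoid.mem_bot] at ht
    rw [ht, sub_zero] at h4
    exact h4
  · exact (monL_iff true A Z).2 (strongHyp_cl hL A Z h)

/-- the roots of the local Bernstein-Sato polynomial -/
theorem root_of_monL {σ : Type} {c : Bool} {F : MvPolynomial σ ℂ} {Z : RatFunc ℂ}
    (h : MonL c ⟨σ, Fin 1, fun _ => F⟩ Z) (b : Polynomial ℂ) (hb : IsLocalBFunction F b) (s : ℂ)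
    (hs : Z.denom.eval s = 0) : b.eval s = 0 := by
  obtain ⟨j, hj⟩ := h.ne
  exact root_of_sf h.fin F hj s (h.pole s hs) b hb

/-- **Products of powers of forms.** -/
theorem root_pow {σ T : Type} [Finite σ] [Fintype T] [DecidableEq T] [Nonempty T] {κ : T → Type}
    [∀ t, Fintype (κ t)] (a : T → ℕ) (ha : ∀ t, 1 ≤ a t)
    (f : (t : T) → κ t → MvPolynomial σ ℂ) (Z' : RatFunc ℂ)
    (h : MonL false (powFam a f) Z') (b : Polynomial ℂ) (hb : IsLocalBFunction (powProd a f) b)
    (s₀ : ℂ) (hs : (Z' * ∏ t, fac (a t) 1).denom.eval s₀ = 0) : b.eval s₀ = 0 := by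
  classical
  have : Fintype σ := Fintype.ofFinite σ
  have hf := powFam_ne a ha f h.ne
  have hP := powData_local a f hf b hb
  rcases prod_fac_pole a ha Z' s₀ hs with h2 | ⟨t, rfl⟩
  · obtain ⟨t0⟩ := (inferInstance : Nonempty T)
    obtain ⟨H, hH, hloc⟩ := hP.ideal ⟨t0, by have := ha t0; omega⟩
    exact SF.locEq (h.pole s₀ h2) H b hloc (by rw [MvPolynomial.eval_zero]; exact hH)
  · exact hP.strict t 0 (by have := ha t; omega)

/-- **Generic compositions are in the class.** -/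
theorem comp_mem {N k r : ℕ} (hr : 1 ≤ r) (F : Subfield ℂ) (π : Fin r → Fin (k + 1))
    (m : Fin r → Fin (N + k) → ℕ) (hinj : ∀ j j', π j = π j' → m j = m j' → j = j')
    (hm : ∀ j, m j ≠ 0) (H : Fin (k + 1) → MvPolynomial (Fin (N + k)) F)
    (hH : ∀ i, ∀ w ∈ (H i).support, InPolyT π m i w) (a : Fin r → ℂ)
    (ha : AlgebraicIndependent F a) (T : Fin (k + 1) → MvPolynomial (Fin (N + k)) ℂ)
    (hT : T = Pool.Agent.X271.TwD.tup π m a fun i => MvPolynomial.map (algebraMap F ℂ) (H i))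
    (hdet : (Matrix.of fun i j : Fin k => MvPolynomial.coeff (Finsupp.single (Fin.natAdd N j) 1)
      (T i.succ)).det ≠ 0)
    (f : MvPolynomial (Fin N) ℂ) (hf : f ≠ 0) (q : Fin k → MvPowerSeries (Fin (N + k)) ℂ)
    (hq : ∀ i, MvPowerSeries.constantCoeff (q i) = 0)
    (hF : (T 0 : MvPowerSeries (Fin (N + k)) ℂ) =
      MvPowerSeries.rename (Fin.castAdd k) (f : MvPowerSeries (Fin N) ℂ) +
        ∑ i, q i * (T i.succ : MvPowerSeries (Fin (N + k)) ℂ))
    (R : SmoothFan (N + (k + k))) (hR : Principal (exps π m) R)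
    (h1 : ((RatFunc.X + 1) * topZetaGLocal (exps π m) R).denom.eval (-1) ≠ 0)
    (hk : (unstab k 1 (topZetaGLocal (exps π m) R)).denom.eval (k : ℂ) ≠ 0) :
    LC (fun A Z => Finite A.σ ∧ StrongLocal A Z) StrongHyp true ⟨Fin N, Fin 1, fun _ => f⟩
      (unstab k 1 (topZetaGLocal (exps π m) R)) := by
  subst hT
  have h0 := tup_zero π m hm a H hH
  have hB := becomes_emb (Pool.Agent.Y229.PS.tup π m a H) (fun i => h0 i.succ) hdet _ q hq hF
  have hf0 : constantCoeff f = 0 := by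
    have h2 := congrArg (MvPowerSeries.constantCoeff (σ := Fin (N + k)) (R := ℂ)) hF
    have h3 : constantCoeff (Pool.Agent.X271.TwD.tup π m a
      (fun i => MvPolynomial.map (algebraMap F ℂ) (H i)) 0) = 0 := h0 0
    rw [const_coe, h3, map_add, map_sum, MvPowerSeries.constantCoeff_rename,
      Finset.sum_eq_zero (fun i _ => by rw [map_mul, hq, zero_mul]), add_zero, const_coe] at h2
    exact h2.symm
  refine LC.destab N k f hf hf0 _ hB _ hk (LC.hatom _ _ ?_)
  have h6 := StrongHyp.generic r (N + (k + k)) hr F (ex π m) (ex_inj π m hinj)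
    (ex_ne_zero π m hm) (hG H) (np_hG π m H hH) a ha R hR h1
  rw [sparse_hG] at h6
  exact h6

end Pool.Agent.X271.TlT
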