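import Pool.Agent.X271.TcPow
import Pool.Agent.Y229.LP2
import Pool.Agent.Y230.TL.Main

set_option autoImplicit false
set_option linter.unusedSectionVars false

/-! # Forced roots of the powers of a polynomial at a point -/

namespace Pool.Agent.X271.TlP

open MvPolynomial
open Pool.Agent.H628R4.TP
open Pool.Agent.Y229.PG
open Pool.Agent.Y229 (SF)
open Pool.Agent.W574.LM (IsLocEq)

variable {n : ℕ}

/-- the functional equations of `f ^ a` with polynomials `B(x, s)` -/
theorem ww_pow_B {f : MvPolynomial (Fin n) ℂ} (hf : f ≠ 0) (a j : ℕ) (hj : j < a)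
    {B : Polynomial (MvPolynomial (Fin n) ℂ)}
    (hB : WW (B1 (f ^ a)) (fun s => B.eval (s : MvPolynomial (Fin n) ℂ) * (f ^ a) ^ s)) :
    WW (B1 f) (fun s => (B.comp (Polynomial.C (MvPolynomial.C (a : ℂ)⁻¹) * (Polynomial.X -
        Polynomial.C (MvPolynomial.C (j : ℂ))))).eval (s : MvPolynomial (Fin n) ℂ) * f ^ s) := by
  have ha : (a : ℂ) ≠ 0 := by
    have : a ≠ 0 := by omega
    exact_mod_cast this
  obtain ⟨F', h1, h2⟩ := Pool.Agent.X271.TcP.ww_pow a j hj hB
  have h3 := h1.mulL (f ^ j)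
  obtain ⟨D, p, hp⟩ := CC.of_WW h3
  set B' := B.comp (Polynomial.C (MvPolynomial.C (a : ℂ)⁻¹) * (Polynomial.X -
        Polynomial.C (MvPolynomial.C (j : ℂ)))) with hB'
  have h4 : Polynomial.C (f ^ D) * B =
      p.comp (Polynomial.C (MvPolynomial.C (a : ℂ)) * Polynomial.X +
        Polynomial.C (MvPolynomial.C (j : ℂ))) := by
    refine poly_ext fun s => ?_
    have h5 := hp (a * s + j)
    beta_reduce at h5
    rw [← h2] at h5
    rw [Polynomial.eval_mul, Polynomial.eval_C, Polynomial.eval_comp, Polynomial.eval_add,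
      Polynomial.eval_mul, Polynomial.eval_C, Polynomial.eval_C, Polynomial.eval_X]
    have h6 : ((a * s + j : ℕ) : MvPolynomial (Fin n) ℂ) =
        MvPolynomial.C (a : ℂ) * (s : MvPolynomial (Fin n) ℂ) + MvPolynomial.C (j : ℂ) := by
      rw [map_natCast, map_natCast]
      push_cast
      ring
    rw [h6] at h5
    refine mul_left_cancel₀ (pow_ne_zero (a * s + j) hf) ?_
    rw [← h5, pow_add f (a * s) j, pow_mul]
    ring
  have h7 : p = Polynomial.C (f ^ D) * B' := by
    have h8 := congrArg (fun q : Polynomial (MvPolynomial (Fin n) ℂ) =>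
      q.comp (Polynomial.C (MvPolynomial.C (a : ℂ)⁻¹) * (Polynomial.X -
        Polynomial.C (MvPolynomial.C (j : ℂ))))) h4
    beta_reduce at h8
    rw [Polynomial.comp_assoc] at h8
    have h9 : (Polynomial.C (MvPolynomial.C (a : ℂ)) * Polynomial.X +
        Polynomial.C (MvPolynomial.C (j : ℂ)) : Polynomial (MvPolynomial (Fin n) ℂ)).comp
          (Polynomial.C (MvPolynomial.C (a : ℂ)⁻¹) * (Polynomial.X -
        Polynomial.C (MvPolynomial.C (j : ℂ)))) = Polynomial.X := by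
      rw [Polynomial.add_comp, Polynomial.mul_comp, Polynomial.C_comp, Polynomial.X_comp,
        Polynomial.C_comp, ← mul_assoc, ← Polynomial.C_mul, ← MvPolynomial.C_mul,
        mul_inv_cancel₀ ha, MvPolynomial.C_1, Polynomial.C_1, one_mul, sub_add_cancel]
    rw [h9, Polynomial.comp_X] at h8
    rw [← h8, Polynomial.mul_comp, Polynomial.C_comp, hB']
  convert h3 using 2 with s
  refine mul_left_cancel₀ (pow_ne_zero D hf) ?_
  rw [hp s, h7, Polynomial.eval_mul, Polynomial.eval_C]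
  ring

/-- the sequences in `D[s] f ^ (s + 1)` -/
theorem ww_toP {f : MvPolynomial (Fin n) ℂ} {F : ℕ → MvPolynomial (Fin n) ℂ}
    (h : WW (B1 f) F) : ∃ P : ℕ →₀ weylS (Fin n), ∀ s : ℕ, F s =
      P.sum fun m Q => ((s : ℂ) ^ m) • (Q : Module.End ℂ (MvPolynomial (Fin n) ℂ))
        (f ^ (s + 1)) := by
  obtain ⟨L, hL⟩ := h.toList
  suffices H : ∃ P : ℕ →₀ weylS (Fin n), ∀ s : ℕ, (L.map fun x => ((s : ℂ) ^ x.2.1) •
      (x.2.2 : Module.End ℂ (MvPolynomial (Fin n) ℂ)) (B1 f x.1 s)).sum =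
      P.sum fun m Q => ((s : ℂ) ^ m) •
        (Q : Module.End ℂ (MvPolynomial (Fin n) ℂ)) (f ^ (s + 1)) by
    obtain ⟨P, hP⟩ := H
    exact ⟨P, fun s => by rw [hL, hP]⟩
  clear hL
  induction L with
  | nil => exact ⟨0, fun s => by simp⟩
  | cons x L ih =>
    obtain ⟨P, hP⟩ := ih
    refine ⟨Finsupp.single x.2.1 x.2.2 + P, fun s => ?_⟩
    rw [List.map_cons, List.sum_cons, hP, Finsupp.sum_add_index' (by simp) (by
      intro m Q Q'
      simp), Finsupp.sum_single_index (by simp)]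
    rfl

/-- **Powers.** -/
theorem sf_pow_fin {f : MvPolynomial (Fin n) ℂ} (hf : f ≠ 0) (a : ℕ) (ha : 1 ≤ a) (s : ℂ)
    (h : SF (fun _ : Fin 1 => f) 0 ((a : ℂ) * s)) : SF (fun _ : Fin 1 => f ^ a) 0 s := by
  classical
  have ha0 : (a : ℂ) ≠ 0 := by
    have : a ≠ 0 := by omega
    exact_mod_cast this
  refine Pool.Agent.Y229.sf_of_local _ 0 s (fun H b hb hH => ?_)
    (Pool.Agent.Y229.exists_fe _ ⟨0, pow_ne_zero a hf⟩)
  obtain ⟨L, m, Q, hQ⟩ := Pool.Agent.Y229.single_eq (f ^ a) H b hb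
  have e : ∀ (c : Polynomial ℂ) (s : ℕ), (Polynomial.C H * c.map C).eval
      ((s : ℕ) : MvPolynomial (Fin n) ℂ) = H * C (c.eval (s : ℂ)) := by
    intro c s
    have e1 : ((s : ℕ) : MvPolynomial (Fin n) ℂ) = C (s : ℂ) := by rw [map_natCast]
    rw [Polynomial.eval_mul, Polynomial.eval_C, e1, Polynomial.eval_map,
      Polynomial.eval₂_at_apply]
  have h1 : WW (B1 (f ^ a)) (fun s => (Polynomial.C H * b.map C).eval
      (s : MvPolynomial (Fin n) ℂ) * (f ^ a) ^ s) := by
    have h2 : WW (B1 (f ^ a)) (fun s => ∑ i, ((s : ℂ) ^ m i) •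
        (Q i : Module.End ℂ (MvPolynomial (Fin n) ℂ)) ((f ^ a) ^ (s + 1))) := by
      refine WW.sum _ _ fun i _ => ?_
      have h3 : ∀ m' : ℕ, WW (B1 (f ^ a)) (fun s => ((s : ℂ) ^ m') •
          (Q i : Module.End ℂ (MvPolynomial (Fin n) ℂ)) ((f ^ a) ^ (s + 1))) := by
        intro m'
        induction m' with
        | zero => simpa [B1] using WW.op _ (Q i).2 (WW.base (B := B1 (f ^ a)) ())
        | succ m' ih =>
          convert ih.smulS using 2 with s
          rw [smul_smul, pow_succ, mul_comm]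
      exact h3 (m i)
    convert h2 using 2 with s
    rw [e, ← hQ s, mul_assoc]
  have h2 := ww_pow_B hf a 0 (by omega) h1
  obtain ⟨P, hP⟩ := ww_toP h2
  set b' : Polynomial ℂ := b.comp (Polynomial.C (a : ℂ)⁻¹ * Polynomial.X) with hb'
  have h3 : IsLocEq H (fun _ : Fin 1 => f) b' := by
    refine Pool.Agent.Y230.TL.locEq_single f H b' P fun s => ?_
    rw [← hP s, ← mul_assoc, ← e b' s]
    congr 2
    rw [hb', Polynomial.mul_comp, Polynomial.C_comp, Polynomial.map_comp, Polynomial.map_mul,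
      Polynomial.map_C, Polynomial.map_X, Nat.cast_zero, map_zero, map_zero, sub_zero]
  have h4 := h.locEq H b' h3 hH
  rw [hb', Polynomial.eval_comp, Polynomial.eval_mul, Polynomial.eval_C, Polynomial.eval_X,
    ← mul_assoc, inv_mul_cancel₀ ha0, one_mul] at h4
  exact h4

/-- **Powers, any finite set of variables.** -/
theorem sf_pow {σ : Type} [Finite σ] {f : MvPolynomial σ ℂ} (hf : f ≠ 0) (a : ℕ) (ha : 1 ≤ a)
    (s : ℂ) (h : SF (fun _ : Fin 1 => f) 0 ((a : ℂ) * s)) :
    SF (fun _ : Fin 1 => f ^ a) 0 s := by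
  classical
  obtain ⟨n, ⟨e⟩⟩ := Finite.exists_equiv_fin σ
  have h1 := Pool.Agent.Y229.sf_equiv e (Equiv.refl (Fin 1)) (fun _ => f)
    (fun _ => rename e f) (fun _ => rfl) 0 _ h
  have hf' : rename e f ≠ 0 := by
    rw [Ne, map_eq_zero_iff _ (rename_injective _ e.injective)]
    exact hf
  have h2 := sf_pow_fin hf' a ha s h1
  refine Pool.Agent.Y229.sf_equiv e.symm (Equiv.refl (Fin 1)) (fun _ => rename e f ^ a)
    (fun _ => f ^ a) (fun _ => ?_) 0 _ h2
  rw [map_pow, rename_rename, Equiv.symm_comp_self, rename_id_apply]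

end Pool.Agent.X271.TlP
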