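import Pool.Agent.Y229.PG.Main
import Pool.Agent.Y229.PS.Emb
import Pool.Agent.Y230.TL.Fin

set_option autoImplicit false

/-! # Reduced forced roots at the origin and formal functional equations -/

namespace Pool.Agent.X271.TlR

open MvPolynomial
open Pool.Agent.Y230.TL (RE RF)
open Pool.Agent.Y229.PG (WW B1 reduced formal_iff)
open Pool.Agent.H628R4.TP (IsLocalBFunction weylS)

variable {n : ℕ}

/-- the functional equations with the polynomial `B(x, s)` -/
def JJ (f : MvPolynomial (Fin n) ℂ) (B : Polynomial (MvPolynomial (Fin n) ℂ)) : Prop :=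
  WW (B1 f) (fun s => ((s : ℂ) + 1) • (B.eval (s : MvPolynomial (Fin n) ℂ) * f ^ s))

theorem jj_of_re {f : MvPolynomial (Fin n) ℂ} {B : Polynomial (MvPolynomial (Fin n) ℂ)}
    {P : ℕ →₀ Pool.Agent.W574.SM.weyl (Fin n)} (h : RE f B P) : JJ f B := by
  have h1 : WW (B1 f) (fun s => ∑ m ∈ P.support, ((s : ℂ) ^ m) •
      (P m : Module.End ℂ (MvPolynomial (Fin n) ℂ)) (f ^ (s + 1))) := by
    refine WW.sum _ _ fun m _ => ?_
    have h2 : ∀ m' : ℕ, WW (B1 f) (fun s => ((s : ℂ) ^ m') •
        (P m : Module.End ℂ (MvPolynomial (Fin n) ℂ)) (f ^ (s + 1))) := by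
      intro m'
      induction m' with
      | zero => simpa [B1] using WW.op _ (P m).2 (WW.base (B := B1 f) ())
      | succ m' ih =>
        convert ih.smulS using 2 with s
        rw [smul_smul, pow_succ, mul_comm]
    exact h2 m
  unfold JJ
  convert h1 using 2 with s
  exact h s

theorem JJ.mulC {f : MvPolynomial (Fin n) ℂ} {B : Polynomial (MvPolynomial (Fin n) ℂ)}
    (h : JJ f B) (u : MvPolynomial (Fin n) ℂ) : JJ f (Polynomial.C u * B) := by
  unfold JJ at h ⊢
  convert h.mulL u using 2 with s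
  rw [Polynomial.eval_mul, Polynomial.eval_C, mul_smul_comm, mul_assoc]

theorem JJ.mulX {f : MvPolynomial (Fin n) ℂ} {B : Polynomial (MvPolynomial (Fin n) ℂ)}
    (h : JJ f B) : JJ f (Polynomial.X * B) := by
  unfold JJ at h ⊢
  convert h.smulS using 2 with s
  rw [Polynomial.eval_mul, Polynomial.eval_X, smul_comm]
  congr 1
  rw [Nat.cast_smul_eq_nsmul, nsmul_eq_mul, mul_assoc]

theorem JJ.add {f : MvPolynomial (Fin n) ℂ} {B B' : Polynomial (MvPolynomial (Fin n) ℂ)}
    (h : JJ f B) (h' : JJ f B') : JJ f (B + B') := by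
  unfold JJ at h h' ⊢
  convert WW.add h h' using 2 with s
  rw [Polynomial.eval_add, add_mul, smul_add]

theorem JJ.mul {f : MvPolynomial (Fin n) ℂ} {B : Polynomial (MvPolynomial (Fin n) ℂ)}
    (h : JJ f B) (D : Polynomial (MvPolynomial (Fin n) ℂ)) : JJ f (D * B) := by
  induction D using Polynomial.induction_on with
  | C u => exact h.mulC u
  | add p q hp hq =>
    rw [add_mul]
    exact hp.add hq
  | monomial m u ih =>
    have h1 := ih.mulX
    have e : Polynomial.X * (Polynomial.C u * Polynomial.X ^ m * B) =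
        Polynomial.C u * Polynomial.X ^ (m + 1) * B := by
      rw [pow_succ]
      ring
    rwa [e] at h1

theorem JJ.sub {f : MvPolynomial (Fin n) ℂ} {B B' : Polynomial (MvPolynomial (Fin n) ℂ)}
    (h : JJ f B) (h' : JJ f B') : JJ f (B - B') := by
  have h1 := h.add (h'.mul (-1))
  have e : B + -1 * B' = B - B' := by ring
  rwa [e] at h1

theorem eval_mapC' (b : Polynomial ℂ) (a : ℂ) :
    (b.map (C : ℂ →+* MvPolynomial (Fin n) ℂ)).eval (C a) = C (b.eval a) := by
  rw [Polynomial.eval_map, Polynomial.eval₂_at_apply]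

theorem jj_of_b {f : MvPolynomial (Fin n) ℂ} {b : Polynomial ℂ}
    (h : Pool.Agent.H628R4.TP.IsBFunction f b) : JJ f (b.map C) := by
  have h1 := formal_iff.1 h
  unfold JJ
  convert h1.smulS.add h1 using 2 with s
  have e : ((s : ℕ) : MvPolynomial (Fin n) ℂ) = C (s : ℂ) := by rw [map_natCast]
  rw [e, eval_mapC', ← MvPolynomial.smul_eq_C_mul, add_smul, one_smul]

theorem exists_b {f : MvPolynomial (Fin n) ℂ} (hf : f ≠ 0) :
    ∃ b : Polynomial ℂ, b ≠ 0 ∧ Pool.Agent.H628R4.TP.IsBFunction f b := by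
  classical
  obtain ⟨b, hb, h1⟩ := Pool.Agent.Y229.exists_fe (fun _ : Fin 1 => f) ⟨0, hf⟩
  exact ⟨b, hb, Pool.Agent.Y229.isB_of_single f b h1⟩

/-- the polynomial sequences as formal ones -/
theorem ww_formal {f : MvPolynomial (Fin n) ℂ} {F : ℕ → MvPolynomial (Fin n) ℂ}
    (h : WW (B1 f) F) : Pool.Agent.Y229.PS.WW
      (Pool.Agent.Y229.PS.B1 (f : MvPowerSeries (Fin n) ℂ))
      (fun s => ((F s : MvPolynomial (Fin n) ℂ) : MvPowerSeries (Fin n) ℂ)) := by
  induction h with
  | base i =>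
    convert Pool.Agent.Y229.PS.WW.base
      (B := Pool.Agent.Y229.PS.B1 (f : MvPowerSeries (Fin n) ℂ)) () using 2 with s
    change ((f ^ (s + 1) : MvPolynomial (Fin n) ℂ) : MvPowerSeries (Fin n) ℂ) = _
    rw [MvPolynomial.coe_pow]
    rfl
  | zero =>
    convert Pool.Agent.Y229.PS.WW.zero
      (B := Pool.Agent.Y229.PS.B1 (f : MvPowerSeries (Fin n) ℂ)) using 2 with s
    rw [MvPolynomial.coe_zero]
  | add _ _ h1 h2 =>
    convert h1.add h2 using 2 with s
    rw [MvPolynomial.coe_add]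
  | op Q hQ _ h1 =>
    obtain ⟨Q', h2, h3⟩ := Pool.Agent.Y229.PS.weyl_DD Q hQ
    convert h1.op Q' h2 using 2 with s
    rw [h3]
  | smulS _ h1 =>
    convert h1.smulS using 2 with s
    rw [MvPolynomial.coe_smul]

/-- with a polynomial unit -/
theorem formal_of_jj {f : MvPolynomial (Fin n) ℂ} {H : MvPolynomial (Fin n) ℂ}
    (hH : eval 0 H ≠ 0) {c : Polynomial ℂ} (h : JJ f (Polynomial.C H * c.map C)) :
    Pool.Agent.Y229.PS.IsFormalBFunction (f : MvPowerSeries (Fin n) ℂ)
      ((Polynomial.X + 1) * c) := by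
  have hH' : MvPowerSeries.constantCoeff (H : MvPowerSeries (Fin n) ℂ) ≠ 0 := by
    rw [← MvPowerSeries.coeff_zero_eq_constantCoeff_apply, MvPolynomial.coeff_coe]
    rw [MvPolynomial.eval_zero] at hH
    exact hH
  rw [Pool.Agent.Y229.PS.formal_iff]
  have h1 := (ww_formal h).mulL ((H : MvPowerSeries (Fin n) ℂ)⁻¹)
  convert h1 using 2 with s
  have e : ((s : ℕ) : MvPolynomial (Fin n) ℂ) = C (s : ℂ) := by rw [map_natCast]
  have e2 : (Polynomial.C H * c.map C).eval ((s : ℕ) : MvPolynomial (Fin n) ℂ) =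
      H * C (c.eval (s : ℂ)) := by
    rw [Polynomial.eval_mul, Polynomial.eval_C, e, eval_mapC']
  rw [e2, MvPolynomial.coe_smul, MvPolynomial.coe_mul, MvPolynomial.coe_mul,
    MvPolynomial.coe_C, MvPolynomial.coe_pow, Polynomial.eval_mul, Polynomial.eval_add,
    Polynomial.eval_X, Polynomial.eval_one, mul_smul_comm, mul_smul]
  congr 1
  rw [← mul_assoc, ← mul_assoc, MvPowerSeries.inv_mul_cancel _ hH', one_mul,
    MvPowerSeries.smul_eq_C_mul]

/-- **From `B(x, s)` to a formal functional equation.** -/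
theorem exists_formal {f : MvPolynomial (Fin n) ℂ} (hf : f ≠ 0)
    {B : Polynomial (MvPolynomial (Fin n) ℂ)} (hB : JJ f B) {β : ℂ}
    (hne : eval 0 (B.eval (C β)) ≠ 0) :
    ∃ c : Polynomial ℂ, c.eval β ≠ 0 ∧
      Pool.Agent.Y229.PS.IsFormalBFunction (f : MvPowerSeries (Fin n) ℂ)
        ((Polynomial.X + 1) * c) := by
  classical
  obtain ⟨b0, hb0, hfe⟩ := exists_b hf
  obtain ⟨b1, hb1, hnd⟩ := Polynomial.exists_eq_pow_rootMultiplicity_mul_and_not_dvd b0 hb0 β
  set k := b0.rootMultiplicity β with hk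
  have hroot : b1.eval β ≠ 0 := fun h0 => hnd (Polynomial.dvd_iff_isRoot.2 h0)
  obtain ⟨B', hB'⟩ : (Polynomial.X - Polynomial.C (C β : MvPolynomial (Fin n) ℂ)) ∣
      B - Polynomial.C (B.eval (C β)) := by
    rw [Polynomial.dvd_iff_isRoot, Polynomial.IsRoot, Polynomial.eval_sub, Polynomial.eval_C,
      sub_self]
  have hstep : ∀ j : ℕ, j ≤ k → ∃ H : MvPolynomial (Fin n) ℂ, eval 0 H ≠ 0 ∧
      JJ f (Polynomial.C H * ((Polynomial.X - Polynomial.C β) ^ (k - j) * b1).map C) := by
    intro j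
    induction j with
    | zero =>
      intro _
      refine ⟨1, by rw [map_one]; exact one_ne_zero, ?_⟩
      rw [map_one, one_mul, Nat.sub_zero, ← hb1]
      exact jj_of_b hfe
    | succ j ih =>
      intro hj
      obtain ⟨H, hH, hV⟩ := ih (by omega)
      refine ⟨B.eval (C β) * H, by rw [map_mul]; exact mul_ne_zero hne hH, ?_⟩
      obtain ⟨i, hi⟩ : ∃ i, k - j = i + 1 := ⟨k - j - 1, by omega⟩
      have hi' : k - (j + 1) = i := by omega
      rw [hi']
      rw [hi] at hV
      have h1 := hB.mul (Polynomial.C H *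
        ((Polynomial.X - Polynomial.C β) ^ i * b1).map C)
      have h2 := hV.mul B'
      have h3 := h1.sub h2
      convert h3 using 1
      have h4 : B = Polynomial.C (B.eval (C β)) +
          (Polynomial.X - Polynomial.C (C β : MvPolynomial (Fin n) ℂ)) * B' := by
        rw [← hB']
        ring
      conv_rhs => rw [h4]
      simp only [Polynomial.map_mul, Polynomial.map_pow, Polynomial.map_sub, Polynomial.map_X,
        Polynomial.map_C, map_mul]
      ring
  obtain ⟨H, hH, hV⟩ := hstep k le_rfl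
  rw [Nat.sub_self, pow_zero, one_mul] at hV
  exact ⟨b1, hroot, formal_of_jj hH hV⟩

/-- **Reduced forced roots from formal functional equations.** -/
theorem rf_of_formal {f : MvPolynomial (Fin n) ℂ} (hf : f ≠ 0) {β : ℂ}
    (h : ∀ c : Polynomial ℂ, Pool.Agent.Y229.PS.IsFormalBFunction
      (f : MvPowerSeries (Fin n) ℂ) ((Polynomial.X + 1) * c) → c.eval β = 0) : RF f 0 β := by
  intro B P hBP
  by_contra hne
  obtain ⟨c, hc, h1⟩ := exists_formal hf (jj_of_re hBP) hne
  exact hc (h c h1)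

/-- **Reduced forced roots are roots of the reduced local Bernstein-Sato polynomial.** -/
theorem local_of_rf {σ : Type} [Finite σ] {g : MvPolynomial σ ℂ} (hg : g ≠ 0) {γ : ℂ}
    (h : RF g 0 γ) (c : Polynomial ℂ) (hc : IsLocalBFunction g ((Polynomial.X + 1) * c)) :
    c.eval γ = 0 := by
  classical
  obtain ⟨H, P, hH, hP⟩ := Pool.Agent.W574.HS.algebraic_of_local g hg _ hc
  have h1 : RE g (Polynomial.C H * c.map C) (∑ m ∈ P.support, Finsupp.single m
      (⟨(P m).1, (P m).2⟩ : Pool.Agent.W574.SM.weyl σ)) := by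
    intro k
    have e : ((k : ℕ) : MvPolynomial σ ℂ) = C (k : ℂ) := by rw [map_natCast]
    rw [← Finsupp.sum_finsetSum_index (fun m => by simp) (fun m Q Q' => by
      rw [← smul_add]
      rfl)]
    rw [e, Polynomial.eval_mul, Polynomial.eval_C, Polynomial.eval_map,
      Polynomial.eval₂_at_apply]
    have h2 := hP k
    rw [Polynomial.eval_mul, Polynomial.eval_add, Polynomial.eval_X, Polynomial.eval_one] at h2
    have h3 : ((k : ℂ) + 1) • (H * C (c.eval (k : ℂ)) * g ^ k) =
        H * (C (((k : ℂ) + 1) * c.eval (k : ℂ)) * g ^ k) := by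
      rw [MvPolynomial.smul_eq_C_mul, map_mul C ((k : ℂ) + 1)]
      ring
    rw [h3, h2]
    refine Finset.sum_congr rfl fun m _ => ?_
    rw [Finsupp.sum_single_index (by rw [ZeroMemClass.coe_zero, LinearMap.zero_apply, smul_zero])]
  have h2 := h _ _ h1
  rw [Polynomial.eval_mul, Polynomial.eval_C, Polynomial.eval_map, Polynomial.eval₂_at_apply,
    map_mul, eval_C] at h2
  refine (mul_eq_zero.1 h2).resolve_left ?_
  rw [MvPolynomial.eval_zero]
  exact hH

end Pool.Agent.X271.TlR
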