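import Pool.Agent.X271.TlDef
import Pool.Agent.Y229.PS.Main
import Pool.Agent.X271.TlOps
import Pool.Agent.X271.TlPow
import Pool.Agent.X271.TcThm
import Pool.Agent.Y475.TL.L

set_option autoImplicit false
set_option linter.unusedSectionVars false

/-! # Closure properties of the monodromy conjecture at the origin -/

namespace Pool.Agent.X271.TlT

open MvPolynomial Pool.Agent.W574.SM Pool.Agent.W574.CN Pool.Agent.W574.RO Pool.Agent.Y229
open Pool.Agent.Y230.TL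
open Pool.Agent.Y230.TH (univFam tsFam univFam_ne X1_ne)
open Pool.Agent.Y229.PS (becomes_local exists_factor)
open Pool.Agent.H628R4.TP (IsLocalBFunction)
open Pool.Agent.X271.TwD (unstab BecomesL IsFormalBFunction)
open Pool.Agent.X271.TcD (scaleZ)
open Pool.Agent.X271.TlD

theorem monL_iff (c : Bool) (A : Fam) (Z : RatFunc ℂ) : MonL c A Z ↔ Cl ⊥ c A Z := by
  constructor
  · intro h
    exact ⟨h.fin, h.ne, fun s hs => ⟨0, AddSubmonoid.zero_mem _, by
      rw [sub_zero]; exact h.pole s hs⟩, fun hc s hs => ⟨0, AddSubmonoid.zero_mem _, fun j => by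
      rw [sub_zero]; exact h.red hc s hs j⟩⟩
  · intro h
    refine ⟨h.fin, h.ne, fun s hs => ?_, fun hc s hs j => ?_⟩
    · obtain ⟨t, ht, h1⟩ := h.pole s hs
      rw [AddSubmonoid.mem_bot] at ht
      rwa [ht, sub_zero] at h1
    · obtain ⟨t, ht, h1⟩ := h.ref hc s hs
      rw [AddSubmonoid.mem_bot] at ht
      have h2 := h1 j
      rwa [ht, sub_zero] at h2

/-- **Destabilisation, roots.** -/
theorem rf_destab {N k : ℕ} {f : MvPolynomial (Fin N) ℂ} (hf : f ≠ 0)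
    (hf0 : constantCoeff f = 0) {G : MvPolynomial (Fin (N + (k + k))) ℂ} (hG0 : G ≠ 0)
    (hG : BecomesL (f : MvPowerSeries (Fin N) ℂ) k G) {s : ℂ} (h : RF G 0 (s - k)) :
    RF f 0 s := by
  have hf' : (f : MvPowerSeries (Fin N) ℂ) ≠ 0 := by
    rw [Ne, MvPolynomial.coe_eq_zero_iff]
    exact hf
  have hf0' : MvPowerSeries.constantCoeff (f : MvPowerSeries (Fin N) ℂ) = 0 := by
    rw [← MvPowerSeries.coeff_zero_eq_constantCoeff_apply, MvPolynomial.coeff_coe]
    exact hf0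
  refine Pool.Agent.X271.TlR.rf_of_formal hf fun c hc => ?_
  obtain ⟨-, h1⟩ := becomes_local hf' hf0' hc hG
  have h2 := Pool.Agent.X271.TlR.local_of_rf hG0 h _ (h1 c rfl)
  rw [Polynomial.eval_comp, Polynomial.eval_add, Polynomial.eval_X, Polynomial.eval_C,
    sub_add_cancel] at h2
  exact h2

/-- **Destabilisation for germs.** -/
theorem germ_root {N k : ℕ} {f : MvPowerSeries (Fin N) ℂ} (hf : f ≠ 0)
    (hf0 : MvPowerSeries.constantCoeff f = 0) {G : MvPolynomial (Fin (N + (k + k))) ℂ}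
    (hG : BecomesL f k G) {Z : RatFunc ℂ}
    (ih : MonL true ⟨Fin (N + (k + k)), Fin 1, fun _ => G⟩ Z) (b : Polynomial ℂ)
    (hb : IsFormalBFunction f b) (s : ℂ) (hsk : s ≠ k)
    (hs : (unstab k 1 Z).denom.eval s = 0) : b.eval s = 0 := by
  obtain ⟨h1, h2⟩ := becomes_local hf hf0 hb hG
  obtain ⟨c, rfl⟩ := exists_factor h1
  have hG0 : G ≠ 0 := by
    obtain ⟨j, hj⟩ := ih.ne
    exact hj
  rcases Pool.Agent.Y230.TH.ref_of_pole _ s hs with h3 | rfl
  · have h4 := ih.red rfl _ (Pool.Agent.X271.TcT.unstab_pole k Z s hsk h3) (0 : Fin 1)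
    have h5 := Pool.Agent.X271.TlR.local_of_rf hG0 h4 _ (h2 c rfl)
    rw [Polynomial.eval_comp, Polynomial.eval_add, Polynomial.eval_X, Polynomial.eval_C,
      sub_add_cancel] at h5
    rw [Polynomial.eval_mul, h5, mul_zero]
  · exact h1

/-- **Destabilisation.** -/
theorem cl_destab (N k : ℕ) (f : MvPolynomial (Fin N) ℂ) (hf : f ≠ 0)
    (hf0 : constantCoeff f = 0) (G : MvPolynomial (Fin (N + (k + k))) ℂ)
    (hG : BecomesL (f : MvPowerSeries (Fin N) ℂ) k G) (Z : RatFunc ℂ)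
    (hk : (unstab k 1 Z).denom.eval (k : ℂ) ≠ 0)
    (ih : MonL true ⟨Fin (N + (k + k)), Fin 1, fun _ => G⟩ Z) :
    MonL true ⟨Fin N, Fin 1, fun _ => f⟩ (unstab k 1 Z) := by
  classical
  have hL : StL := Pool.Agent.Y475.TL.tL
  have hG0 : G ≠ 0 := by
    obtain ⟨j, hj⟩ := ih.ne
    exact hj
  have href : ∀ s : ℂ, ((RatFunc.X + 1) * unstab k 1 Z).denom.eval s = 0 → RF f 0 s := by
    intro s hs
    have hsk : s ≠ k := by
      rintro rfl
      exact hk (Pool.Agent.Y230.TH.pole_of_ref _ _ hs)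
    exact rf_destab hf hf0 hG0 hG
      (ih.red rfl _ (Pool.Agent.X271.TcT.unstab_pole k Z s hsk hs) (0 : Fin 1))
  refine ⟨inferInstanceAs (Finite (Fin N)), ⟨(0 : Fin 1), hf⟩, fun s hs => ?_,
    fun _ s hs _ => href s hs⟩
  rcases Pool.Agent.Y230.TH.ref_of_pole _ s hs with h1 | rfl
  · exact hL.sf_of_rf f 0 _ (href s h1)
  · exact sf_minus_one f hf hf0

/-- **From `∑ y_j f_j` to the ideal.** -/
theorem cl_back (A : Fam) (Z : RatFunc ℂ) (ih : MonL true (univFam A) Z) :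
    MonL false A ((RatFunc.X + 1) * Z) := by
  classical
  have hfin : Finite (A.ι ⊕ A.σ) := ih.fin
  have hfin' : Finite A.σ := Finite.of_injective (Sum.inr : A.σ → A.ι ⊕ A.σ) Sum.inr_injective
  have hne : ∃ j, A.f j ≠ 0 := by
    by_contra hcon
    push Not at hcon
    obtain ⟨j, hj⟩ := ih.ne
    apply hj
    change ∑ j, MvPolynomial.X (Sum.inl j) * MvPolynomial.rename Sum.inr (A.f j) =
      (0 : MvPolynomial (A.ι ⊕ A.σ) ℂ)
    refine Finset.sum_eq_zero fun i _ => ?_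
    rw [hcon i, map_zero, mul_zero]
  exact ⟨hfin', hne, fun s hs => Pool.Agent.X271.TlO.sf_of_univ A.f hne s
    (ih.red rfl s hs (0 : Fin 1)), fun h => absurd h (by simp)⟩

/-- **Powers.** -/
theorem cl_pow (σ : Type) (f : MvPolynomial σ ℂ) (a : ℕ) (ha : 1 ≤ a) (Z : RatFunc ℂ)
    (ih : MonL false ⟨σ, Fin 1, fun _ => f⟩ Z) :
    MonL false ⟨σ, Fin 1, fun _ => f ^ a⟩ (scaleZ a Z) := by
  have hfin : Finite σ := ih.fin
  have hf : f ≠ 0 := by
    obtain ⟨j, hj⟩ := ih.ne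
    exact hj
  exact ⟨hfin, ⟨(0 : Fin 1), pow_ne_zero a hf⟩, fun s hs => Pool.Agent.X271.TlP.sf_pow hf a ha s
    (ih.pole _ (Pool.Agent.X271.TcT.scale_pole a Z s hs)), fun h => absurd h (by simp)⟩

/-- one step -/
theorem step (hJ : StJ) (hU : StU) (hL : StL) (c : Bool) (A : Fam) (Z : RatFunc ℂ)
    (h : TT (Cl ⊥ false) (Cl ⊥ true) c A Z) : Cl ⊥ c A Z :=
  tt_closure hJ hU hL ⊥ (Cl ⊥ false) (Cl ⊥ true) (fun _ _ h => ⟨h.fin, h.ne, h.pole⟩)
    (fun _ _ h => h) c A Z h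

/-- **The closure theorem.** -/
theorem lc_closure (hJ : StJ) (hU : StU) (hL : StL) (At HAt : Fam → RatFunc ℂ → Prop)
    (hAt : ∀ A Z, At A Z → MonL false A Z) (hHAt : ∀ A Z, HAt A Z → MonL true A Z)
    (c : Bool) (A : Fam) (Z : RatFunc ℂ) (h : LC At HAt c A Z) : MonL c A Z := by
  have inj : ∀ c A Z, MonL c A Z → TT (Cl ⊥ false) (Cl ⊥ true) c A Z := by
    intro c A Z h
    have h' := (monL_iff c A Z).1 h
    cases c with
    | false => exact TT.atom A Z h'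
    | true => exact TT.hatom A Z h'
  have st : ∀ c A Z, TT (Cl ⊥ false) (Cl ⊥ true) c A Z → MonL c A Z := fun c A Z h =>
    (monL_iff c A Z).2 (step hJ hU hL c A Z h)
  induction h with
  | atom A Z h => exact hAt A Z h
  | hatom A Z h => exact hHAt A Z h
  | hyp A Z h ih => exact st _ _ _ (TT.hyp A Z (inj _ _ _ ih))
  | pow σ f a ha Z h ih => exact cl_pow σ f a ha Z ih
  | sum A B Z W v w hv hw hv0 hw0 hA hB ihA ihB =>
    exact st _ _ _ (TT.sum A B Z W v w hv hw hv0 hw0 (inj _ _ _ ihA) (inj _ _ _ ihB))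
  | mul A B Z W hA hB ihA ihB =>
    exact st _ _ _ (TT.mul A B Z W (inj _ _ _ ihA) (inj _ _ _ ihB))
  | univ A Z hA ih => exact st _ _ _ (TT.univ A Z (inj _ _ _ ih))
  | back A Z hA ih => exact cl_back A Z ih
  | ts A τ g Z W v w hv hw hv0 hw0 h0 hA hg ihA ihg =>
    exact st _ _ _ (TT.ts A τ g Z W v w hv hw hv0 hw0 h0 (inj _ _ _ ihA) (inj _ _ _ ihg))
  | destab N k f hf hf0 G hG Z hk h ih => exact cl_destab N k f hf hf0 G hG Z hk ih
  | drop σ κ g Z h ih => exact st _ _ _ (TT.drop σ κ g Z (inj _ _ _ ih))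
  | equiv c A B i k h Z hA ih => exact st _ _ _ (TT.equiv c A B i k h Z (inj _ _ _ ih))

end Pool.Agent.X271.TlT
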