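import Pool.Agent.X271.TmMon
import Pool.Agent.W476.TP.Fin
import Pool.Agent.Y129.TB.Union

/-!
# The image of a multiprojective variety over `E` is closed and defined over `E`
-/

set_option autoImplicit false
set_option linter.unusedSectionVars false

namespace Pool.Agent.X271.TN

open MvPolynomial Pool.Agent.W476.TP Pool.Agent.W356.TP
open Pool.Agent.Y129.TA (DimGE IsForm)
open Pool.Agent.Y129.TB (IsConeOver)

/-- the projection is given by the ideal `II` -/
theorem clo_II (hNST : S_NST) {L : Type} [Field L] [IsAlgClosed L] {r n c : ℕ} (m : Fin r → ℕ)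
    (D : Fin r → ℕ) (hD : D ≠ 0)
    (G : Fin (n + 1) → Polynomial (MvPolynomial (Sig m) L)) (t : Fin (n + 1) → ℕ)
    (hG : ∀ i, MonicMH D (G i) (t i))
    (H : Fin c → MvPolynomial (Sig m) L) (b : Fin c → Fin r → ℕ) (hH : ∀ j, MH (H j) (b j))
    (hyp : ∀ y : Sig m → L, Rel y → (∀ j, eval y (H j) = 0) → ∃ i, ev (G i) y 0 ≠ 0)
    (z0 : Fin (n + 1) → L) (hz0 : z0 ≠ 0) (hI : ∀ P ∈ II m G H, eval z0 P = 0) :
    ∃ y : Sig m → L, Rel y ∧ (∀ j, eval y (H j) = 0) ∧ ∀ i, ev (G i) y (z0 i) = 0 := by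
  classical
  by_contra hno
  push Not at hno
  -- an index with nonzero coordinate
  obtain ⟨i0, hi0⟩ := Function.ne_iff.mp hz0
  have hi0' : z0 i0 ≠ 0 := hi0
  set a := (z0 i0)⁻¹ with ha
  have haz : a * z0 i0 = 1 := inv_mul_cancel₀ hi0'
  -- linear forms through z0
  set ℓ : Fin (n + 1) → MvPolynomial (Fin (n + 1)) L := fun i => X i - C (z0 i * a) * X i0 with hℓ
  set K3 : Ideal (MvPolynomial (Sig m ⊕ Fin (n + 1)) L) :=
    JJ m G H ⊔ Ideal.span (Set.range fun i => rename Sum.inr (ℓ i)) with hK3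
  obtain ⟨κ0, hκ0⟩ := Function.ne_iff.mp hD
  have hκ0' : D κ0 ≠ 0 := hκ0
  obtain ⟨N, hN⟩ := hNST L m D hD G t hG K3
    (fun i => Ideal.mem_sup_left (Ideal.mem_sup_right (Ideal.subset_span (Set.mem_range_self i))))
    (by
      intro y z hy
      by_contra hcon
      push Not at hcon
      have hJ : ∀ P ∈ JJ m G H, eval (Sum.elim y z) P = 0 := fun P hP =>
        hcon P (Ideal.mem_sup_left hP)
      rw [JJ_eval] at hJ
      have hz : ∀ i, z i = (a * z i0) * z0 i := by
        intro i
        have := hcon _ (Ideal.mem_sup_right (Ideal.subset_span (Set.mem_range_self i)))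
        simp only [hℓ, map_sub, map_mul, rename_X, rename_C, eval_X, eval_C, Sum.elim_inr] at this
        linear_combination this
      by_cases hc : a * z i0 = 0
      · obtain ⟨i, hi⟩ := hyp y hy hJ.1
        apply hi
        have := hJ.2 i
        rwa [hz i, hc, zero_mul] at this
      · -- scale
        obtain ⟨μ, hμ⟩ := IsAlgClosed.exists_pow_nat_eq ((a * z i0)⁻¹) (Nat.pos_of_ne_zero hκ0')
        have hμ0 : μ ≠ 0 := by
          rintro rfl
          rw [zero_pow hκ0'] at hμ
          exact (inv_ne_zero hc) hμ.symm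
        set lam : Fin r → L := Function.update 1 κ0 μ with hlam
        have hlam0 : ∀ κ, lam κ ≠ 0 := by
          intro κ
          by_cases h : κ = κ0
          · subst h; simp [hlam, hμ0]
          · simp [hlam, Function.update_of_ne h]
        have hsp : sp lam D = (a * z i0)⁻¹ := by
          rw [← hμ]
          unfold sp
          rw [Finset.prod_eq_single κ0]
          · simp [hlam]
          · intro κ _ hκ
            simp [hlam, Function.update_of_ne hκ]
          · simp
        obtain ⟨i, hi⟩ := hno (scl lam y) (rel_scl hlam0 hy) (fun j => by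
          rw [eval_scl (hH j), hJ.1 j, mul_zero])
        apply hi
        have h1 := ev_scl (hG i) lam y (z i)
        have h2 : sp lam D * z i = z0 i := by
          rw [hsp]
          conv_lhs => rw [hz i]
          rw [← mul_assoc, inv_mul_cancel₀ hc, one_mul]
        rw [h2, hJ.2 i, mul_zero] at h1
        exact h1)
  -- Nakayama
  set η : Fin r → ℕ := fun _ => N with hη
  set ψ : MvPolynomial (Fin (n + 1)) L →+* (MvPolynomial (Sig m ⊕ Fin (n + 1)) L ⧸ JJ m G H) :=
    (Ideal.Quotient.mk (JJ m G H)).comp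
      (rename Sum.inr : MvPolynomial (Fin (n + 1)) L →ₐ[L] MvPolynomial (Sig m ⊕ Fin (n + 1)) L).toRingHom
    with hψ
  have hψa : ∀ x, ψ x = Ideal.Quotient.mk (JJ m G H) (rename Sum.inr x) := fun _ => rfl
  set S : Set (MvPolynomial (Sig m ⊕ Fin (n + 1)) L ⧸ JJ m G H) :=
    (fun α : (Sig m ⊕ Fin (n + 1)) →₀ ℕ => Ideal.Quotient.mk (JJ m G H) (monomial α 1)) ''
      {α | Finsupp.weight (wt2 m D n) α = η} with hS
  have hwne : ∀ i, (∑ κ, wt2 m D n i κ) ≠ 0 := by
    intro i
    rcases i with ⟨κ, j⟩ | i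
    · have : wt2 m D n (Sum.inl ⟨κ, j⟩) κ = 1 := by simp [wt2, wt]
      intro h
      have h2 := Finset.sum_eq_zero_iff.mp h κ (Finset.mem_univ κ)
      omega
    · intro h
      have h2 := Finset.sum_eq_zero_iff.mp h κ0 (Finset.mem_univ κ0)
      exact hκ0' h2
  have hfin : {α : (Sig m ⊕ Fin (n + 1)) →₀ ℕ | Finsupp.weight (wt2 m D n) α = η}.Finite := by
    apply (Finsupp.finite_of_nat_weight_le (fun i => ∑ κ, wt2 m D n i κ) hwne (∑ κ, η κ)).subset
    intro α hα
    have hα' : Finsupp.weight (wt2 m D n) α = η := hα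
    show Finsupp.weight (fun i => ∑ κ, wt2 m D n i κ) α ≤ ∑ κ, η κ
    rw [← hα', Finsupp.weight_apply, Finsupp.weight_apply, Finsupp.sum, Finsupp.sum]
    simp only [Finset.sum_apply, Pi.smul_apply, smul_eq_mul]
    rw [Finset.sum_comm]
    apply le_of_eq
    refine Finset.sum_congr rfl fun i _ => ?_
    rw [Finset.mul_sum]
  have hSfin : S.Finite := hfin.image _
  -- span of the monomials
  have hspan : ∀ (x : MvPolynomial (Fin (n + 1)) L) (Q : MvPolynomial (Sig m ⊕ Fin (n + 1)) L),
      IsWeightedHomogeneous (wt2 m D n) Q η → eval z0 x = 0 →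
      ∀ W : AddSubgroup (MvPolynomial (Sig m ⊕ Fin (n + 1)) L ⧸ JJ m G H),
      (∀ x ∈ RingHom.ker (eval z0 : MvPolynomial (Fin (n + 1)) L →+* L), ∀ s ∈ S, ψ x * s ∈ W) →
      ψ x * Ideal.Quotient.mk (JJ m G H) Q ∈ W := by
    intro x Q hQ hx W hW
    rw [Q.as_sum, map_sum, Finset.mul_sum]
    apply W.sum_mem
    intro α hα
    have h1 : ψ x * Ideal.Quotient.mk (JJ m G H) (monomial α (coeff α Q)) =
        ψ (x * C (coeff α Q)) * Ideal.Quotient.mk (JJ m G H) (monomial α 1) := by
      rw [map_mul, hψa (C (coeff α Q)), rename_C, mul_assoc, ← map_mul, C_mul_monomial, mul_one]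
    rw [h1]
    apply hW
    · rw [RingHom.mem_ker, map_mul, hx, zero_mul]
    · exact ⟨α, hQ (mem_support_iff.mp hα), rfl⟩
  obtain ⟨g, hg1, hg2⟩ := nak ψ (RingHom.ker (eval z0 : MvPolynomial (Fin (n + 1)) L →+* L)) S hSfin (by
    rintro _ ⟨α, hα, rfl⟩ W hW
    have hα' : Finsupp.weight (wt2 m D n) α = η := hα
    have hQ : IsWeightedHomogeneous (wt2 m D n)
        (monomial α 1 : MvPolynomial (Sig m ⊕ Fin (n + 1)) L) η :=
      isWeightedHomogeneous_monomial _ _ _ hα'
    have hXi : IsWeightedHomogeneous (wt2 m D n)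
        (X (Sum.inr i0) : MvPolynomial (Sig m ⊕ Fin (n + 1)) L) D :=
      isWeightedHomogeneous_X L (wt2 m D n) (Sum.inr i0)
    have hQX := hQ.mul hXi
    have hmem := hN (η + D) (fun κ => by simp only [Pi.add_apply, hη]; omega) _ hQX
    rw [hK3, Submodule.mem_sup] at hmem
    obtain ⟨A, hA, B, hB, hAB⟩ := hmem
    rw [Ideal.mem_span_range_iff_exists_fun] at hB
    obtain ⟨q, hq⟩ := hB
    have hℓh : ∀ i, IsWeightedHomogeneous (wt2 m D n)
        (rename Sum.inr (ℓ i) : MvPolynomial (Sig m ⊕ Fin (n + 1)) L) D := by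
      intro i
      have h1 : (ℓ i).IsHomogeneous 1 := by
        simp only [hℓ]
        apply IsHomogeneous.sub
        · exact isHomogeneous_X _ _
        · have := (isHomogeneous_C (Fin (n + 1)) (z0 i * a)).mul (isHomogeneous_X L i0)
          simpa using this
      have := rename_inr_hom m D (ℓ i) 1 h1
      rwa [one_smul] at this
    have hcomp : (monomial α 1 : MvPolynomial (Sig m ⊕ Fin (n + 1)) L) * X (Sum.inr i0) =
        weightedHomogeneousComponent (wt2 m D n) (η + D) A +
        ∑ i, weightedHomogeneousComponent (wt2 m D n) η (q i) * rename Sum.inr (ℓ i) := by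
      have h1 := hQX.weightedHomogeneousComponent_same
      rw [← hAB, ← hq, map_add, map_sum] at h1
      rw [hq, hAB] at h1
      rw [← h1]
      congr 1
      refine Finset.sum_congr rfl fun i _ => ?_
      rw [wcomp_mul (wt2 m D n) _ _ _ _ (hℓh i)]
    have hℓ0 : ∀ i, eval z0 (ℓ i) = 0 := by
      intro i
      simp only [hℓ, map_sub, map_mul, eval_X, eval_C]
      linear_combination (-z0 i) * haz
    have hkey : Ideal.Quotient.mk (JJ m G H) (monomial α 1) =
        ψ (C a * (C (z0 i0) - X i0)) * Ideal.Quotient.mk (JJ m G H) (monomial α 1) +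
        ∑ i, ψ (C a * ℓ i) * Ideal.Quotient.mk (JJ m G H)
          (weightedHomogeneousComponent (wt2 m D n) η (q i)) := by
      have h0 : Ideal.Quotient.mk (JJ m G H) (weightedHomogeneousComponent (wt2 m D n) (η + D) A) = 0 :=
        Ideal.Quotient.eq_zero_iff_mem.mpr (JJ_comp m D G t hG H b hH A hA _)
      have h1 : ∑ i, ψ (C a * ℓ i) * Ideal.Quotient.mk (JJ m G H)
          (weightedHomogeneousComponent (wt2 m D n) η (q i)) =
          ψ (C a) * Ideal.Quotient.mk (JJ m G H) (monomial α 1 * X (Sum.inr i0)) := by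
        rw [hcomp, map_add, h0, zero_add, map_sum, Finset.mul_sum]
        refine Finset.sum_congr rfl fun i _ => ?_
        rw [map_mul ψ, map_mul (Ideal.Quotient.mk (JJ m G H)), hψa (ℓ i)]
        ring
      rw [h1, hψa, hψa, ← map_mul, ← map_mul, ← map_add]
      congr 1
      simp only [map_mul, map_sub, rename_C, rename_X]
      have h2 : (C a : MvPolynomial (Sig m ⊕ Fin (n + 1)) L) * C (z0 i0) = 1 := by
        rw [← C_mul, haz, C_1]
      linear_combination (-(monomial α 1 : MvPolynomial (Sig m ⊕ Fin (n + 1)) L)) * h2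
    show Ideal.Quotient.mk (JJ m G H) (monomial α 1) ∈ W
    rw [hkey]
    apply W.add_mem
    · apply hspan _ _ hQ _ W hW
      simp
    · apply W.sum_mem
      intro i _
      apply hspan _ _ (weightedHomogeneousComponent_isWeightedHomogeneous η (q i)) _ W hW
      rw [map_mul, hℓ0 i, mul_zero])
  -- conclusion
  have hgI : g ∈ II m G H := by
    refine ⟨N, fun i => ?_⟩
    have hYh := YY_pow_hom (L := L) (n := n) m D i N
    rw [← Ideal.Quotient.eq_zero_iff_mem, map_mul, ← hψa]
    rw [(YY m L n i ^ N).as_sum, map_sum, Finset.mul_sum]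
    apply Finset.sum_eq_zero
    intro α hα
    have h1 : Ideal.Quotient.mk (JJ m G H) (monomial α (coeff α (YY m L n i ^ N))) =
        Ideal.Quotient.mk (JJ m G H) (C (coeff α (YY m L n i ^ N))) *
          Ideal.Quotient.mk (JJ m G H) (monomial α 1) := by
      rw [← map_mul, C_mul_monomial, mul_one]
    rw [h1, mul_left_comm, hg2 _ ⟨α, hYh (mem_support_iff.mp hα), rfl⟩, mul_zero]
  have h1 := hI g hgI
  have h2 : eval z0 (g - 1) = 0 := hg1
  rw [map_sub, map_one, h1] at h2
  norm_num at h2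


end Pool.Agent.X271.TN
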