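import Pool.Agent.X271.TmClo

/-!
# The image of a multiprojective variety over `E` is closed and defined over `E`
-/

set_option autoImplicit false
set_option linter.unusedSectionVars false

namespace Pool.Agent.X271.TN

open MvPolynomial Pool.Agent.W476.TP Pool.Agent.W356.TP
open Pool.Agent.Y129.TA (DimGE IsForm)
open Pool.Agent.Y129.TB (IsConeOver)

section Descent

variable {E F : Type} [Field E] [Field F] [Algebra E F] {σ τ : Type}

/-- a linear form applied to the coefficients -/
noncomputable def cf (φ : F →ₗ[E] E) (P : MvPolynomial σ F) : MvPolynomial σ E :=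
  ∑ α ∈ P.support, monomial α (φ (coeff α P))

theorem coeff_cf (φ : F →ₗ[E] E) (P : MvPolynomial σ F) (α : σ →₀ ℕ) :
    coeff α (cf φ P) = φ (coeff α P) := by
  classical
  unfold cf
  rw [coeff_sum]
  simp only [coeff_monomial]
  rw [Finset.sum_ite_eq']
  split_ifs with h
  · rfl
  · rw [notMem_support_iff.1 h, map_zero]

theorem cf_add (φ : F →ₗ[E] E) (P Q : MvPolynomial σ F) : cf φ (P + Q) = cf φ P + cf φ Q := by
  ext α
  rw [coeff_cf, coeff_add, coeff_add, coeff_cf, coeff_cf, map_add]

theorem cf_zero (φ : F →ₗ[E] E) : cf φ (0 : MvPolynomial σ F) = 0 := by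
  ext α
  rw [coeff_cf, coeff_zero, coeff_zero, map_zero]

theorem cf_mul (φ : F →ₗ[E] E) (P : MvPolynomial σ F) (Q : MvPolynomial σ E) :
    cf φ (P * MvPolynomial.map (algebraMap E F) Q) = cf φ P * Q := by
  classical
  ext α
  rw [coeff_cf, coeff_mul, coeff_mul, map_sum]
  refine Finset.sum_congr rfl fun x _ => ?_
  rw [coeff_cf, coeff_map, mul_comm (coeff x.1 P), ← Algebra.smul_def, map_smul, smul_eq_mul,
    mul_comm]

theorem cf_mem (φ : F →ₗ[E] E) (J : Ideal (MvPolynomial σ E)) (P : MvPolynomial σ F)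
    (hP : P ∈ J.map (MvPolynomial.map (algebraMap E F))) : cf φ P ∈ J := by
  have h1 : ∀ a : MvPolynomial σ F, cf φ (a * P) ∈ J := by
    unfold Ideal.map at hP
    induction hP using Submodule.span_induction with
    | mem x hx =>
      obtain ⟨q, hq, rfl⟩ := hx
      intro a
      change cf φ (a * MvPolynomial.map (algebraMap E F) q) ∈ J
      rw [cf_mul]
      exact J.mul_mem_left _ hq
    | zero =>
      intro a
      rw [mul_zero, cf_zero]
      exact J.zero_mem
    | add x y hx hy ihx ihy =>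
      intro a
      rw [mul_add, cf_add]
      exact J.add_mem (ihx a) (ihy a)
    | smul c x hx ih =>
      intro a
      rw [smul_eq_mul, ← mul_assoc]
      exact ih _
  have h2 := h1 1
  rwa [one_mul] at h2

theorem cf_rename (φ : F →ₗ[E] E) (f : σ → τ) (hf : Function.Injective f)
    (P : MvPolynomial σ F) : cf φ (rename f P) = rename f (cf φ P) := by
  classical
  ext α
  rw [coeff_cf]
  by_cases hα : ∃ β, Finsupp.mapDomain f β = α
  · obtain ⟨β, rfl⟩ := hα
    rw [coeff_rename_mapDomain _ hf, coeff_rename_mapDomain _ hf, coeff_cf]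
  · rw [coeff_rename_eq_zero _ _ _ (fun β hβ => absurd ⟨β, hβ⟩ hα),
      coeff_rename_eq_zero _ _ _ (fun β hβ => absurd ⟨β, hβ⟩ hα), map_zero]

/-- a polynomial vanishes where its components vanish -/
theorem eval_of_cf [Fintype σ] (P : MvPolynomial σ F) (z : σ → F)
    (h : ∀ φ : F →ₗ[E] E, aeval z (cf φ P) = 0) : eval z P = 0 := by
  classical
  set b := Module.Free.chooseBasis E F with hb
  set S := P.support.biUnion fun α => (b.repr (coeff α P)).support with hS
  have h1 : ∀ α ∈ P.support, coeff α P = ∑ k ∈ S, algebraMap E F (b.coord k (coeff α P)) * b k := by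
    intro α hα
    conv_lhs => rw [← b.linearCombination_repr (coeff α P)]
    rw [Finsupp.linearCombination_apply, Finsupp.sum_of_support_subset (s := S)]
    · refine Finset.sum_congr rfl fun k _ => ?_
      rw [Algebra.smul_def, b.coord_apply]
    · intro k hk
      exact Finset.mem_biUnion.2 ⟨α, hα, hk⟩
    · intro k _
      exact zero_smul _ _
  have h2 : ∀ k, ∑ α ∈ P.support, algebraMap E F (b.coord k (coeff α P)) * ∏ i, z i ^ α i = 0 := by
    intro k
    rw [← h (b.coord k)]
    unfold cf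
    rw [map_sum]
    refine Finset.sum_congr rfl fun α _ => ?_
    rw [aeval_monomial, Finsupp.prod_fintype _ _ (fun i => by exact pow_zero _)]
  rw [eval_eq']
  calc ∑ α ∈ P.support, coeff α P * ∏ i, z i ^ α i
      = ∑ α ∈ P.support, ∑ k ∈ S, b k * (algebraMap E F (b.coord k (coeff α P)) *
          ∏ i, z i ^ α i) := by
        refine Finset.sum_congr rfl fun α hα => ?_
        conv_lhs => rw [h1 α hα, Finset.sum_mul]
        refine Finset.sum_congr rfl fun k _ => ?_
        ring
    _ = 0 := by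
        rw [Finset.sum_comm]
        refine Finset.sum_eq_zero fun k _ => ?_
        rw [← Finset.mul_sum, h2, mul_zero]

end Descent

variable {E F : Type} [Field E] [Field F] [Algebra E F] {r n c : ℕ} {m : Fin r → ℕ}

/-- The set of the `z` such that `H_j(y) = 0`, `G_i(y, z_i) = 0` for some relevant `y`, and zero. -/
def Img (F : Type) [Field F] [Algebra E F]
    (G : Fin (n + 1) → Polynomial (MvPolynomial (Sig m) E)) (H : Fin c → MvPolynomial (Sig m) E) :
    Set (Fin (n + 1) → F) :=
  {z | z = 0 ∨ ∃ y : Sig m → F, Rel y ∧ (∀ j, aeval y (H j) = 0) ∧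
    ∀ i, ev (mp F (G i)) y (z i) = 0}

theorem aeval_eq {σ : Type} (y : σ → F) (P : MvPolynomial σ E) :
    aeval y P = eval y (MvPolynomial.map (algebraMap E F) P) := by
  rw [eval_map, aeval_def]

theorem gz_map (G : Polynomial (MvPolynomial (Sig m) E)) (i : Fin (n + 1)) :
    gz (mp F G) i = MvPolynomial.map (algebraMap E F) (gz G i) := by
  unfold gz mp
  rw [Polynomial.eval₂_map, Polynomial.hom_eval₂]
  congr 1
  · refine MvPolynomial.ringHom_ext (fun a => ?_) fun i => ?_
    · change rename Sum.inl (MvPolynomial.map (algebraMap E F) (C a)) =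
        MvPolynomial.map (algebraMap E F) (rename Sum.inl (C a))
      rw [map_C, rename_C, rename_C, map_C]
    · change rename Sum.inl (MvPolynomial.map (algebraMap E F) (X i)) =
        MvPolynomial.map (algebraMap E F) (rename Sum.inl (X i))
      rw [map_X, rename_X, rename_X, map_X]
  · rw [map_X]

theorem JJ_map (G : Fin (n + 1) → Polynomial (MvPolynomial (Sig m) E))
    (H : Fin c → MvPolynomial (Sig m) E) :
    JJ m (fun i => mp F (G i)) (fun j => MvPolynomial.map (algebraMap E F) (H j)) =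
      (JJ m G H).map (MvPolynomial.map (algebraMap E F)) := by
  unfold JJ
  rw [Ideal.map_sup, Ideal.map_span, Ideal.map_span, ← Set.range_comp, ← Set.range_comp]
  congr 3
  · funext j
    rw [Function.comp_apply, map_rename]
  · funext i
    rw [Function.comp_apply, gz_map]

theorem YY_map (i : ∀ κ, Fin (m κ + 1)) :
    MvPolynomial.map (algebraMap E F) (YY m E n i) = YY m F n i := by
  unfold YY
  rw [map_prod]
  refine Finset.prod_congr rfl fun κ _ => ?_
  rw [map_X]

theorem II_map (G : Fin (n + 1) → Polynomial (MvPolynomial (Sig m) E))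
    (H : Fin c → MvPolynomial (Sig m) E) {P : MvPolynomial (Fin (n + 1)) E}
    (hP : P ∈ II m G H) : MvPolynomial.map (algebraMap E F) P ∈
      II m (fun i => mp F (G i)) (fun j => MvPolynomial.map (algebraMap E F) (H j)) := by
  obtain ⟨N, hN⟩ := hP
  refine ⟨N, fun i => ?_⟩
  rw [JJ_map, ← YY_map (E := E), ← map_rename, ← map_pow, ← map_mul]
  exact Ideal.mem_map_of_mem _ (hN i)

theorem II_cf (G : Fin (n + 1) → Polynomial (MvPolynomial (Sig m) E))
    (H : Fin c → MvPolynomial (Sig m) E) {P : MvPolynomial (Fin (n + 1)) F}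
    (hP : P ∈ II m (fun i => mp F (G i)) (fun j => MvPolynomial.map (algebraMap E F) (H j)))
    (φ : F →ₗ[E] E) : cf φ P ∈ II m G H := by
  obtain ⟨N, hN⟩ := hP
  refine ⟨N, fun i => ?_⟩
  have h1 := hN i
  rw [JJ_map, ← YY_map (E := E), ← map_pow] at h1
  have h2 := cf_mem φ _ _ h1
  rwa [cf_mul, cf_rename φ _ Sum.inr_injective] at h2

theorem img_iff [IsAlgClosed F] {D : Fin r → ℕ} (hD : D ≠ 0)
    {G : Fin (n + 1) → Polynomial (MvPolynomial (Sig m) E)} {t : Fin (n + 1) → ℕ}
    (hG : ∀ i, MonicMH D (G i) (t i)) {H : Fin c → MvPolynomial (Sig m) E} {b : Fin c → Fin r → ℕ}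
    (hH : ∀ j, MH (H j) (b j))
    (hyp : ∀ y : Sig m → F, Rel y → (∀ j, aeval y (H j) = 0) → ∃ i, ev (mp F (G i)) y 0 ≠ 0) :
    Img F G H = zeroLocus F (II m G H * Ideal.span (Set.range X)) := by
  ext z
  rw [mem_zeroLocus_iff]
  constructor
  · intro hz P hP
    refine Submodule.mul_induction_on hP (fun a ha x hx => ?_) fun x y hx hy => ?_
    · rw [map_mul]
      rcases hz with rfl | ⟨y, hy, h1, h2⟩
      · have : aeval (0 : Fin (n + 1) → F) x = 0 := by
          refine Submodule.span_induction (p := fun x _ => aeval (0 : Fin (n + 1) → F) x = 0)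
            ?_ ?_ ?_ ?_ hx
          · rintro _ ⟨i, rfl⟩
            rw [aeval_X]
            rfl
          · exact map_zero _
          · intro x y _ _ h1 h2
            rw [map_add, h1, h2, add_zero]
          · intro a x _ h1
            rw [smul_eq_mul, map_mul, h1, mul_zero]
        rw [this, mul_zero]
      · have h3 := II_eval m (fun i => mp F (G i))
          (fun j => MvPolynomial.map (algebraMap E F) (H j)) y z hy
          (fun j => by rw [← aeval_eq]; exact h1 j) h2 _ (II_map G H ha)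
        rw [← aeval_eq] at h3
        rw [h3, zero_mul]
    · rw [map_add, hx, hy, add_zero]
  · intro h
    by_cases hz : z = 0
    · exact Or.inl hz
    right
    obtain ⟨i0, hi0⟩ := Function.ne_iff.mp hz
    have h1 : ∀ P ∈ II m G H, aeval z P = 0 := by
      intro P hP
      have h2 := h (P * X i0) (Ideal.mul_mem_mul hP (Ideal.subset_span ⟨i0, rfl⟩))
      rw [map_mul, aeval_X] at h2
      exact (mul_eq_zero.1 h2).resolve_right hi0
    obtain ⟨y, hy, h2, h3⟩ := clo_II Pool.Agent.W476.TP.t_NST m D hD (fun i => mp F (G i)) t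
      (fun i => monic_map (hG i)) (fun j => MvPolynomial.map (algebraMap E F) (H j)) b
      (fun j => mh_map (hH j)) (fun y hy h => hyp y hy fun j => by rw [aeval_eq]; exact h j) z hz
      (fun P hP => eval_of_cf (E := E) P z fun φ => h1 _ (II_cf G H hP φ))
    exact ⟨y, hy, fun j => by rw [aeval_eq]; exact h2 j, h3⟩

theorem exists_sp [IsAlgClosed F] {D : Fin r → ℕ} (hD : D ≠ 0) {a : F} (ha : a ≠ 0) :
    ∃ lam : Fin r → F, (∀ κ, lam κ ≠ 0) ∧ sp lam D = a := by
  classical
  obtain ⟨κ0, hκ0⟩ := Function.ne_iff.mp hD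
  have hκ0' : D κ0 ≠ 0 := hκ0
  obtain ⟨μ, hμ⟩ := IsAlgClosed.exists_pow_nat_eq a (Nat.pos_of_ne_zero hκ0')
  have hμ0 : μ ≠ 0 := by
    rintro rfl
    rw [zero_pow hκ0'] at hμ
    exact ha hμ.symm
  refine ⟨Function.update 1 κ0 μ, fun κ => ?_, ?_⟩
  · by_cases h : κ = κ0
    · subst h; simp [hμ0]
    · simp [Function.update_of_ne h]
  · unfold sp
    rw [Finset.prod_eq_single κ0]
    · simp [hμ]
    · intro κ _ hκ
      simp [Function.update_of_ne hκ]
    · simp

theorem aeval_scl {P : MvPolynomial (Sig m) E} {d : Fin r → ℕ} (hP : MH P d) (lam : Fin r → F)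
    (y : Sig m → F) : aeval (scl lam y) P = sp lam d * aeval y P := by
  rw [aeval_eq, aeval_eq, eval_scl (mh_map hP)]

theorem img_cone [IsAlgClosed F] {D : Fin r → ℕ} (hD : D ≠ 0)
    {G : Fin (n + 1) → Polynomial (MvPolynomial (Sig m) E)} {t : Fin (n + 1) → ℕ}
    (hG : ∀ i, MonicMH D (G i) (t i)) {H : Fin c → MvPolynomial (Sig m) E} {b : Fin c → Fin r → ℕ}
    (hH : ∀ j, MH (H j) (b j))
    (hyp : ∀ y : Sig m → F, Rel y → (∀ j, aeval y (H j) = 0) → ∃ i, ev (mp F (G i)) y 0 ≠ 0) :
    IsConeOver E (Img F G H) := by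
  refine ⟨⟨_, img_iff hD hG hH hyp⟩, fun a z hz => ?_⟩
  by_cases ha : a = 0
  · left
    rw [ha, zero_smul]
  rcases hz with rfl | ⟨y, hy, h1, h2⟩
  · left
    rw [smul_zero]
  · obtain ⟨lam, hl, he⟩ := exists_sp hD ha
    refine Or.inr ⟨scl lam y, rel_scl hl hy, fun j => ?_, fun i => ?_⟩
    · rw [aeval_scl (hH j), h1 j, mul_zero]
    · have h3 := ev_scl (monic_map (F := F) (hG i)) lam y (z i)
      rw [h2 i, mul_zero, he] at h3
      exact h3

/-- forms have common zeros on the image -/
theorem img_dimGE [IsAlgClosed F] {D : Fin r → ℕ} (hD : D ≠ 0)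
    {G : Fin (n + 1) → Polynomial (MvPolynomial (Sig m) E)} {t : Fin (n + 1) → ℕ}
    (hG : ∀ i, MonicMH D (G i) (t i)) {H : Fin c → MvPolynomial (Sig m) E} {b : Fin c → Fin r → ℕ}
    (hH : ∀ j, MH (H j) (b j))
    (hyp : ∀ y : Sig m → F, Rel y → (∀ j, aeval y (H j) = 0) → ∃ i, ev (mp F (G i)) y 0 ≠ 0)
    {d : ℕ} (τ : Fin c ⊕ Fin d → Fin r) (h1 : ∀ j, 0 < b j (τ (Sum.inl j)))
    (h2 : ∀ k, 0 < D (τ (Sum.inr k)))
    (h3 : ∀ κ, (Finset.univ.filter fun x => τ x = κ).card ≤ m κ) :
    DimGE (Img F G H) d := by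
  classical
  intro q hq
  choose Dq hDq hq' using hq
  obtain ⟨y, z, hy, h4, h5⟩ := Pool.Agent.W762.TP.t_EXC
    (Pool.Agent.W338.TP.t_KEY Pool.Agent.W476.TP.t_NST) F m D hD (fun i => mp F (G i)) t
    (fun i => monic_map (hG i)) (Fin c ⊕ Fin d)
    (Sum.elim (fun j => rename Sum.inl (MvPolynomial.map (algebraMap E F) (H j)))
      fun k => rename Sum.inr (q k))
    (Sum.elim b fun k => Dq k • D) (by
      rintro (j | k)
      · exact rename_hom (mh_map (hH j)) D n
      · exact rename_inr_hom m D (q k) (Dq k) (hq' k)) τ (by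
      rintro (j | k)
      · exact h1 j
      · change 0 < (Dq k • D) _
        rw [Pi.smul_apply, smul_eq_mul]
        exact Nat.mul_pos (hDq k) (h2 k)) h3
  have h6 : ∀ j, aeval y (H j) = 0 := by
    intro j
    have h7 := h5 (Sum.inl j)
    rw [Sum.elim_inl, eval_rename, Sum.elim_comp_inl] at h7
    rw [aeval_eq]
    exact h7
  refine ⟨z, Or.inr ⟨y, hy, h6, h4⟩, ?_, fun k => ?_⟩
  · rintro rfl
    obtain ⟨i, hi⟩ := hyp y hy h6
    exact hi (h4 i)
  · have h7 := h5 (Sum.inr k)
    rw [Sum.elim_inr, eval_rename, Sum.elim_comp_inr] at h7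
    exact h7

end Pool.Agent.X271.TN
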