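import Pool.Agent.X271.TmCone

/-!
# Normalised solutions of the approximating system
-/

set_option autoImplicit false
set_option linter.unusedSectionVars false

namespace Pool.Agent.X271.TN

open MvPolynomial Pool.Agent.W476.TP Pool.Agent.W356.TP
open Pool.Agent.Y129.TA (Tilting TiltPair)
open Pool.Agent.Y129.TB (BaseField)

variable {p : ℕ} [hp : Fact p.Prime] {C F K E : Type} [Field C] [Field F] [CharP F p] [Field K]
  [Field E] [Algebra K C] [Algebra E F] {r n c : ℕ} {m : Fin r → ℕ}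

/-- every group of coordinates has maximum norm one, attained at `i κ` -/
def Nm (T : TiltPair p C F) (z : Sig m → F) (i : ∀ κ, Fin (m κ + 1)) : Prop :=
  (∀ s, T.absF (z s) ≤ 1) ∧ ∀ κ, T.absF (z ⟨κ, i κ⟩) = 1

theorem exists_nm (T : TiltPair p C F) {z : Sig m → F} (hz : Rel z) :
    ∃ (lam : Fin r → F) (i : ∀ κ, Fin (m κ + 1)), (∀ κ, lam κ ≠ 0) ∧ Nm T (scl lam z) i := by
  classical
  have h1 : ∀ κ, ∃ i : Fin (m κ + 1), ∀ j, T.absF (z ⟨κ, j⟩) ≤ T.absF (z ⟨κ, i⟩) :=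
    fun κ => Finite.exists_max fun j => T.absF (z ⟨κ, j⟩)
  choose i hi using h1
  have hne : ∀ κ, z ⟨κ, i κ⟩ ≠ 0 := by
    intro κ h0
    obtain ⟨j, hj⟩ := hz κ
    have := hi κ j
    rw [h0, map_zero] at this
    exact hj (T.absF.eq_zero.1 (le_antisymm this (T.absF.nonneg _)))
  refine ⟨fun κ => (z ⟨κ, i κ⟩)⁻¹, i, fun κ => inv_ne_zero (hne κ), fun s => ?_, fun κ => ?_⟩
  · obtain ⟨κ, j⟩ := s
    change T.absF ((z ⟨κ, i κ⟩)⁻¹ * z ⟨κ, j⟩) ≤ 1
    rw [map_mul, map_inv₀, inv_mul_le_iff₀ (T.absF.pos (hne κ)), mul_one]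
    exact hi κ j
  · change T.absF ((z ⟨κ, i κ⟩)⁻¹ * z ⟨κ, i κ⟩) = 1
    rw [inv_mul_cancel₀ (hne κ), map_one]

theorem sharp_scl (T : TiltPair p C F) (lam : Fin r → F) (z : Sig m → F) :
    (fun s => T.sharp (scl lam z s)) =
      scl (fun κ => T.sharp (lam κ)) (fun s => T.sharp (z s)) := by
  funext s
  exact map_mul _ _ _

theorem sharp_sp (T : TiltPair p C F) (lam : Fin r → F) (d : Fin r → ℕ) :
    T.sharp (sp lam d) = sp (fun κ => T.sharp (lam κ)) d := by
  unfold sp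
  rw [map_prod]
  refine Finset.prod_congr rfl fun κ _ => ?_
  rw [map_pow]

theorem abs_aeval_le (T : TiltPair p C F) {σ : Type} [Fintype σ] {f : MvPolynomial σ K}
    (hf : ∀ α, T.absK (algebraMap K C (coeff α f)) ≤ 1) (v : σ → C)
    (hv : ∀ s, T.absK (v s) ≤ 1) : T.absK (aeval v f) ≤ 1 := by
  classical
  rw [aeval_def, eval₂_eq']
  refine Finset.sum_induction _ (fun x => T.absK x ≤ 1) (fun a b ha hb =>
    (T.ultraK a b).trans (max_le ha hb)) (by rw [map_zero]; exact zero_le_one) fun α _ => ?_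
  rw [map_mul, map_prod]
  refine mul_le_one₀ (hf α) (Finset.prod_nonneg fun i _ => T.absK.nonneg _) ?_
  refine Finset.prod_le_one (fun i _ => T.absK.nonneg _) fun i _ => ?_
  rw [map_pow]
  exact pow_le_one₀ (T.absK.nonneg _) (hv i)

/-- **Normalised solutions.** -/
theorem key [IsAlgClosed F] (T : Tilting p C F) {D : Fin r → ℕ} (hD : D ≠ 0)
    {h : Fin c → MvPolynomial (Sig m) K} {f : Fin (n + 1) → MvPolynomial (Sig m) K}
    (hf : ∀ i, MH (f i) D) (hf1 : ∀ i α, T.absK (algebraMap K C (coeff α (f i))) ≤ 1)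
    {δ : ℝ} (hδ1 : δ < 1) {H : Fin c → MvPolynomial (Sig m) E} {b : Fin c → Fin r → ℕ}
    (hH : ∀ j, MH (H j) (b j))
    (hHa : ∀ j (z : Sig m → F), (∀ s, T.absF (z s) ≤ 1) → aeval z (H j) = 0 →
      T.absK (aeval (fun s => T.sharp (z s)) (h j)) ≤ δ)
    {G : Fin (n + 1) → Polynomial (MvPolynomial (Sig m) E)} {t : Fin (n + 1) → ℕ}
    (hG : ∀ i, MonicMH D (G i) (t i))
    (hGa : ∀ i (z : Sig m → F) (y : F), (∀ s, T.absF (z s) ≤ 1) → T.absF y ≤ 1 →
      ev (mp F (G i)) z y = 0 →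
        T.absK (T.sharp y - aeval (fun s => T.sharp (z s)) (f i)) ≤ δ)
    {z : Sig m → F} (hz : Rel z) {y : Fin (n + 1) → F} (h1 : ∀ j, aeval z (H j) = 0)
    (h2 : ∀ i, ev (mp F (G i)) z (y i) = 0) :
    ∃ (μ : F) (z' : Sig m → F) (i : ∀ κ, Fin (m κ + 1)), μ ≠ 0 ∧ Nm T.toTiltPair z' i ∧
      (∀ l, T.absF (μ * y l) ≤ 1) ∧
      (∀ j, T.absK (aeval (fun s => T.sharp (z' s)) (h j)) ≤ δ) ∧
      ∀ l, T.absK (T.sharp (μ * y l) - aeval (fun s => T.sharp (z' s)) (f l)) ≤ δ := by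
  classical
  obtain ⟨lam, i, hl, hn⟩ := exists_nm T.toTiltPair hz
  set z' := scl lam z with hz'
  set μ := sp lam D with hμ
  have hμ0 : μ ≠ 0 := sp_ne_zero hl D
  have h3 : ∀ j, aeval z' (H j) = 0 := fun j => by rw [hz', aeval_scl (hH j), h1 j, mul_zero]
  have h4 : ∀ l, ev (mp F (G l)) z' (μ * y l) = 0 := by
    intro l
    have h5 := ev_scl (monic_map (F := F) (hG l)) lam z (y l)
    rw [h2 l, mul_zero] at h5
    exact h5
  have h5 : ∀ l, T.absF (μ * y l) ≤ 1 := by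
    obtain ⟨l0, hl0⟩ := Finite.exists_max fun l => T.absF (μ * y l)
    by_contra hcon
    push Not at hcon
    obtain ⟨l1, hl1⟩ := hcon
    have hbig : 1 < T.absF (μ * y l0) := hl1.trans_le (hl0 l1)
    have hne : μ * y l0 ≠ 0 := by
      intro h0
      rw [h0, map_zero] at hbig
      exact absurd hbig (by norm_num)
    obtain ⟨κ0, hκ0⟩ := Function.ne_iff.mp hD
    have hκ0' : D κ0 ≠ 0 := hκ0
    obtain ⟨ν, hν⟩ := IsAlgClosed.exists_pow_nat_eq (μ * y l0)⁻¹ (Nat.pos_of_ne_zero hκ0')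
    have hνa : T.absF ν < 1 := by
      by_contra hge
      have h6 : 1 ≤ T.absF ν ^ D κ0 := one_le_pow₀ (not_lt.1 hge)
      rw [← map_pow, hν, map_inv₀] at h6
      exact absurd (inv_lt_one_of_one_lt₀ hbig) (not_lt.2 h6)
    set lam' : Fin r → F := Function.update 1 κ0 ν with hlam'
    have hsp : sp lam' D = (μ * y l0)⁻¹ := by
      unfold sp
      rw [Finset.prod_eq_single κ0]
      · simp [hlam', hν]
      · intro κ _ hκ
        simp [hlam', Function.update_of_ne hκ]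
      · simp
    have hle : ∀ κ, T.absF (lam' κ) ≤ 1 := by
      intro κ
      by_cases h : κ = κ0
      · subst h
        simp [hlam', hνa.le]
      · simp [hlam', Function.update_of_ne h]
    have h6 := ev_scl (monic_map (F := F) (hG l0)) lam' z' (μ * y l0)
    rw [h4 l0, mul_zero, hsp, inv_mul_cancel₀ hne] at h6
    have h7 := hGa l0 (scl lam' z') 1 (fun s => by
      change T.absF (lam' s.1 * z' s) ≤ 1
      rw [map_mul]
      exact mul_le_one₀ (hle _) (T.absF.nonneg _) (hn.1 s)) (by rw [map_one]) h6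
    rw [sharp_scl, aeval_scl (hf l0), ← sharp_sp, hsp, map_one] at h7
    have h8 : T.absK (T.sharp (μ * y l0)⁻¹ * aeval (fun s => T.sharp (z' s)) (f l0)) < 1 := by
      rw [map_mul, T.abs_sharp, map_inv₀]
      have h9 := abs_aeval_le T.toTiltPair (hf1 l0) (fun s => T.sharp (z' s)) fun s => by
        rw [T.abs_sharp]
        exact hn.1 s
      calc (T.absF (μ * y l0))⁻¹ * T.absK (aeval (fun s => T.sharp (z' s)) (f l0)) ≤
          (T.absF (μ * y l0))⁻¹ * 1 := mul_le_mul_of_nonneg_left h9 (inv_nonneg.2 (T.absF.nonneg _))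
        _ < 1 := by rw [mul_one]; exact inv_lt_one_of_one_lt₀ hbig
    have h9 : T.absK (1 : C) ≤ max
        (T.absK (1 - T.sharp (μ * y l0)⁻¹ * aeval (fun s => T.sharp (z' s)) (f l0)))
        (T.absK (T.sharp (μ * y l0)⁻¹ * aeval (fun s => T.sharp (z' s)) (f l0))) := by
      refine le_trans (le_of_eq ?_) (T.ultraK _ _)
      rw [sub_add_cancel]
    rw [map_one] at h9
    exact absurd h9 (not_le.2 (max_lt (lt_of_le_of_lt h7 hδ1) h8))
  exact ⟨μ, z', i, hμ0, hn, h5, fun j => hHa j z' hn.1 (h3 j),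
    fun l => hGa l z' (μ * y l) hn.1 (h5 l) (h4 l)⟩

end Pool.Agent.X271.TN
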