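import Pool.Agent.X271.TmApp
import Pool.Agent.W515.TP.Mon
import Pool.Agent.W476.TP.Base

/-!
# The equation `z = f(y)` is approximated by a monic equation over the tilt of a perfectoid field
-/

set_option autoImplicit false
set_option linter.unusedSectionVars false

namespace Pool.Agent.X271.TN

open MvPolynomial Pool.Agent.W476.TP
open Pool.Agent.Y129.TA (Tilting TiltPair)
open Pool.Agent.Y129.TB (BaseField)
open Pool.Agent.W515.TP (wo weight_elim weight_zero rename_some_hom)
open Pool.Agent.Y129.TB.X271TM (approxW)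

/-- the polynomial over the larger field -/
noncomputable def mp {E : Type} [Field E] (F : Type) [Field F] [Algebra E F] {σ : Type}
    (G : Polynomial (MvPolynomial σ E)) : Polynomial (MvPolynomial σ F) :=
  G.map (MvPolynomial.map (algebraMap E F))

section

variable {E F : Type} [Field E] [Field F] [Algebra E F] {r n : ℕ} {m : Fin r → ℕ}

theorem mh_map {f : MvPolynomial (Sig m) E} {d : Fin r → ℕ} (hf : MH f d) :
    MH (MvPolynomial.map (algebraMap E F) f) d := by
  intro α hα
  refine hf (d := α) fun h0 => hα ?_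
  rw [coeff_map, h0, map_zero]

theorem wh_map {σ M : Type} [AddCommMonoid M] {w : σ → M} {f : MvPolynomial σ E} {d : M}
    (hf : IsWeightedHomogeneous w f d) :
    IsWeightedHomogeneous w (MvPolynomial.map (algebraMap E F) f) d := by
  intro α hα
  refine hf (d := α) fun h0 => hα ?_
  rw [coeff_map, h0, map_zero]

theorem monic_map {D : Fin r → ℕ} {G : Polynomial (MvPolynomial (Sig m) E)} {t : ℕ}
    (h : MonicMH D G t) : MonicMH D (mp F G) t := by
  obtain ⟨h1, h2, h3, h4⟩ := h
  refine ⟨h1, h2.map _, ?_, fun l hl => ?_⟩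
  · unfold mp
    rw [h2.natDegree_map, h3]
  · unfold mp
    rw [Polynomial.coeff_map]
    exact mh_map (h4 l hl)

theorem ev_mp (G : Polynomial (MvPolynomial (Sig m) E)) (y : Sig m → F) (z : F) :
    ev (mp F G) y z = Polynomial.eval z (G.map (aeval y : MvPolynomial (Sig m) E →ₐ[E] F).toRingHom) := by
  unfold ev mp
  rw [Polynomial.map_map]
  congr 2
  refine MvPolynomial.ringHom_ext (fun a => ?_) fun i => ?_
  · change eval y (MvPolynomial.map (algebraMap E F) (C a)) = aeval y (C a)
    rw [map_C, eval_C, aeval_C]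
  · change eval y (MvPolynomial.map (algebraMap E F) (X i)) = aeval y (X i)
    rw [map_X, eval_X, aeval_X]

end

variable {p : ℕ} [hp : Fact p.Prime] {C F : Type} [Field C] [Field F] [CharP F p]
  {E : Type} [Field E] [Algebra E F] {K : Type} [Field K] [Algebra K C]

theorem monE [IsAlgClosed F] (T : Tilting p C F) (B : BaseField T K E) {r : ℕ} {m : Fin r → ℕ}
    {D : Fin r → ℕ} (hD : D ≠ 0) {f : MvPolynomial (Sig m) K} (hf : MH f D) {ε : ℝ} (hε : 0 < ε)
    (hε1 : ε < 1) :
    ∃ (t : ℕ) (G : Polynomial (MvPolynomial (Sig m) E)), MonicMH D G t ∧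
      ∀ (y : Sig m → F) (z : F), (∀ i, T.absF (y i) ≤ 1) → T.absF z ≤ 1 → ev (mp F G) y z = 0 →
        T.absK (T.sharp z - aeval (fun i => T.sharp (y i)) f) ≤ ε := by
  classical
  obtain ⟨κ, hκ⟩ : ∃ κ, D κ ≠ 0 := by
    by_contra hcon
    push Not at hcon
    exact hD (funext hcon)
  set h : MvPolynomial (Option (Sig m)) K := X none - rename some f with hh
  have hhom : IsWeightedHomogeneous (wo m D) h D := by
    refine IsWeightedHomogeneous.sub ?_ (rename_some_hom hf)
    exact isWeightedHomogeneous_X K (wo m D) none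
  obtain ⟨s, G0, hG0, happ⟩ := approxW T B (wo m D) hhom hε
  set t := p ^ s with ht
  have ht0 : 0 < t := pow_pos (Fact.out : p.Prime).pos s
  set G1 := optionEquivLeft E (Sig m) G0 with hG1
  have hev : ∀ (y : Sig m → F) (z : F), ev (mp F G1) y z =
      aeval (fun i => Option.elim i z y) G0 := by
    intro y z
    have h1 : mp F G1 = optionEquivLeft F (Sig m) (MvPolynomial.map (algebraMap E F) G0) := by
      ext l α
      unfold mp
      rw [Polynomial.coeff_map, coeff_map, hG1, optionEquivLeft_coeff_coeff,
        optionEquivLeft_coeff_coeff, coeff_map]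
    have h2 : aeval (fun i => Option.elim i z y) G0 =
        eval (fun i => Option.elim i z y) (MvPolynomial.map (algebraMap E F) G0) := by
      rw [eval_map, aeval_def]
    rw [h1, h2, optionEquivLeft_elim_eval]
    rfl
  -- the value of `h`
  have hval : ∀ (y : Sig m → F) (z : F),
      aeval (fun i : Option (Sig m) => T.sharp (Option.elim i z y)) h =
        T.sharp z - aeval (fun i => T.sharp (y i)) f := by
    intro y z
    rw [hh, map_sub, aeval_X, aeval_rename]
    rfl
  -- degrees
  have hdeg : ∀ (l : ℕ) (α : Sig m →₀ ℕ), coeff α (G1.coeff l) ≠ 0 →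
      l • D + Finsupp.weight (wt m) α = t • D := by
    intro l α hα
    rw [hG1, optionEquivLeft_coeff_coeff] at hα
    rw [← weight_elim]
    exact hG0 hα
  have hle : ∀ (l : ℕ) (α : Sig m →₀ ℕ), coeff α (G1.coeff l) ≠ 0 → l ≤ t := by
    intro l α hα
    have h1 := congrFun (hdeg l α hα) κ
    rw [Pi.add_apply, Pi.smul_apply, Pi.smul_apply, smul_eq_mul, smul_eq_mul] at h1
    exact Nat.le_of_mul_le_mul_right (by omega) (Nat.pos_of_ne_zero hκ)
  have htop : ∀ α : Sig m →₀ ℕ, coeff α (G1.coeff t) ≠ 0 → α = 0 := by
    intro α hα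
    have h1 := hdeg t α hα
    exact weight_zero (add_eq_left.1 h1)
  have hconst : ∀ l : ℕ, coeff 0 (G1.coeff l) ≠ 0 → l = t := by
    intro l hl
    have h1 := congrFun (hdeg l 0 hl) κ
    rw [map_zero, add_zero, Pi.smul_apply, Pi.smul_apply, smul_eq_mul, smul_eq_mul] at h1
    exact Nat.eq_of_mul_eq_mul_right (Nat.pos_of_ne_zero hκ) h1
  set c := coeff 0 (G1.coeff t) with hc
  have hCc : G1.coeff t = MvPolynomial.C c := by
    ext α
    rw [coeff_C]
    split
    · next h0 => rw [← h0]
    · next h0 =>
      by_contra hne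
      exact h0 (htop α hne).symm
  have hnat : G1.natDegree ≤ t := by
    rw [Polynomial.natDegree_le_iff_coeff_eq_zero]
    intro l hl
    ext α
    rw [coeff_zero]
    by_contra hne
    exact absurd (hle l α hne) (not_le.2 hl)
  have hc0 : c ≠ 0 := by
    intro hc0
    have h1 : ev (mp F G1) 0 1 = 0 := by
      unfold ev mp
      rw [Polynomial.eval_map, Polynomial.eval₂_eq_sum_range]
      refine Finset.sum_eq_zero fun l _ => ?_
      rw [one_pow, mul_one, Polynomial.coeff_map]
      have h2 : (eval (0 : Sig m → F)) (MvPolynomial.map (algebraMap E F) (G1.coeff l)) =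
          algebraMap E F (coeff 0 (G1.coeff l)) := by
        rw [eval_zero, constantCoeff_eq, coeff_map]
      rw [h2]
      by_cases hne : coeff 0 (G1.coeff l) = 0
      · rw [hne, map_zero]
      · rw [hconst l hne] at hne
        exact absurd hc0 hne
    rw [hev] at h1
    have h3 := happ _ (by
      intro i
      cases i with
      | none =>
        show T.absF 1 ≤ 1
        rw [map_one]
      | some i =>
        show T.absF 0 ≤ 1
        rw [map_zero]
        exact zero_le_one) h1
    rw [hval] at h3
    have h4 : aeval (fun i : Sig m => T.sharp ((0 : Sig m → F) i)) f = 0 := by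
      have h5 : (fun i : Sig m => T.sharp ((0 : Sig m → F) i)) = 0 := by
        funext i
        rw [Pi.zero_apply, Pi.zero_apply]
        exact T.toTiltPair.sharp_zero
      rw [h5, aeval_zero, constantCoeff_eq]
      by_contra hne
      have h6 := hf (d := 0) fun h0 => hne (by rw [h0, map_zero])
      rw [map_zero] at h6
      exact hD h6.symm
    rw [h4, map_one, sub_zero, map_one] at h3
    exact absurd h3 (not_le.2 hε1)
  -- the monic polynomial
  set G : Polynomial (MvPolynomial (Sig m) E) := Polynomial.C (MvPolynomial.C c⁻¹) * G1 with hG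
  have hGc : ∀ l, G.coeff l = MvPolynomial.C c⁻¹ * G1.coeff l := by
    intro l
    rw [hG, Polynomial.coeff_C_mul]
  have hGt : G.coeff t = 1 := by
    rw [hGc, hCc, ← map_mul, inv_mul_cancel₀ hc0, map_one]
  have hGn : G.natDegree ≤ t := (Polynomial.natDegree_C_mul_le _ _).trans hnat
  have hmonic : G.Monic := Polynomial.monic_of_natDegree_le_of_coeff_eq_one t hGn hGt
  have hGd : G.natDegree = t := by
    refine le_antisymm hGn (Polynomial.le_natDegree_of_ne_zero ?_)
    rw [hGt]
    exact one_ne_zero
  refine ⟨t, G, ⟨ht0, hmonic, hGd, ?_⟩, ?_⟩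
  · intro l hl
    intro α hα
    rw [hGc, coeff_C_mul] at hα
    have h1 := hdeg l α (right_ne_zero_of_mul hα)
    have h2 : l • D + Finsupp.weight (wt m) α = l • D + (t - l) • D := by
      rw [h1, ← add_smul, Nat.add_sub_cancel' hl]
    exact add_left_cancel h2
  · intro y z hy hz h0
    have h1 : ev (mp F G) y z = algebraMap E F c⁻¹ * ev (mp F G1) y z := by
      unfold ev mp
      rw [hG, Polynomial.map_mul, Polynomial.map_mul, Polynomial.eval_mul, Polynomial.map_C,
        Polynomial.map_C, Polynomial.eval_C, map_C, eval_C]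
    rw [h1] at h0
    have h2 : ev (mp F G1) y z = 0 := by
      rcases mul_eq_zero.1 h0 with h | h
      · rw [map_inv₀] at h
        exact absurd h (inv_ne_zero ((map_ne_zero _).2 hc0))
      · exact h
    rw [hev] at h2
    have h3 := happ _ (by
      intro i
      cases i with
      | none => exact hz
      | some i => exact hy i) h2
    rw [hval] at h3
    exact h3

end Pool.Agent.X271.TN
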