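import Pool.Agent.X271.TqDim

/-!
# Operations on approximable cones
-/

set_option autoImplicit false
set_option linter.unusedSectionVars false

namespace Pool.Agent.X271.TQ

open MvPolynomial Pool.Agent.Y129.TA
open Pool.Agent.Y129.TB (IsConeOver InTube Approximable DimLEOver form_map eval_map_alg BaseField
  approx imageOver imageOver_cone)

section Cone

variable {E F : Type} [Field E] [Field F] [Algebra E F] [IsAlgClosed F] {ι κ : Type} [Fintype ι]

/-- `Y` is the zero set of the forms `G k` over `E`. -/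
def IsZero (F : Type) [Field F] [Algebra E F] (G : κ → MvPolynomial ι E) (Y : Set (ι → F)) : Prop :=
  ∀ y, y ∈ Y ↔ ∀ k, aeval y (G k) = 0

theorem IsZero.isVar {G : κ → MvPolynomial ι E} {Y : Set (ι → F)} (h : IsZero F G Y) :
    IsVar (fun k => MvPolynomial.map (algebraMap E F) (G k)) Y := by
  intro y
  rw [h y]
  exact forall_congr' fun k => by rw [eval_map_alg]

theorem hom_smul {Q : MvPolynomial ι E} {D : ℕ} (hQ : Q.IsHomogeneous D) (a : F) (t : ι → F) :
    aeval (a • t) Q = a ^ D * aeval t Q := by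
  rw [← eval_map_alg, ← eval_map_alg]
  exact eval_smul_of_homogeneous (hQ.map _) a t

theorem aeval_zero_form {Q : MvPolynomial ι E} (hQ : IsForm Q) : aeval (0 : ι → F) Q = 0 := by
  rw [← eval_map_alg]
  exact form_zero (form_map hQ)

theorem IsZero.cone {G : κ → MvPolynomial ι E} (hG : ∀ k, IsForm (G k)) {Y : Set (ι → F)}
    (h : IsZero F G Y) : IsConeOver E Y := by
  refine ⟨⟨Ideal.span (Set.range G), ?_⟩, ?_⟩
  · ext y
    rw [h y, mem_zeroLocus_iff]
    constructor
    · intro hy f hf
      have h1 : Ideal.span (Set.range G) ≤ RingHom.ker (aeval y : MvPolynomial ι E →ₐ[E] F) := by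
        rw [Ideal.span_le]
        rintro _ ⟨k, rfl⟩
        exact hy k
      exact h1 hf
    · intro hy k
      exact hy _ (Ideal.subset_span ⟨k, rfl⟩)
  · intro a y hy
    rw [h] at hy ⊢
    intro k
    obtain ⟨D, -, hD⟩ := hG k
    rw [hom_smul hD, hy k, mul_zero]

/-- A closed nonempty cone over `E` is the zero set of finitely many forms over `E`. -/
theorem exists_forms {Y : Set (ι → F)} (hY : IsConeOver E Y) (hne : Y.Nonempty) :
    ∃ (r : ℕ) (G : Fin r → MvPolynomial ι E), (∀ k, IsForm (G k)) ∧ IsZero F G Y := by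
  classical
  obtain ⟨⟨J, rfl⟩, hc⟩ := hY
  obtain ⟨y₀, hy₀⟩ := hne
  obtain ⟨S, hS⟩ := (isNoetherian_def.1 (inferInstance : IsNoetherian _ _)) J
  -- components
  have hcomp : ∀ f ∈ J, ∀ y ∈ zeroLocus F J, ∀ m, aeval y (homogeneousComponent m f) = 0 := by
    intro f hf y hy m
    let Pf : Polynomial F := ∑ k ∈ Finset.range (f.totalDegree + 1),
      Polynomial.C (aeval y (homogeneousComponent k f)) * Polynomial.X ^ k
    have hP0 : Pf = 0 := by
      refine Polynomial.funext fun a => ?_
      rw [Polynomial.eval_zero]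
      have h1 := (mem_zeroLocus_iff).1 (hc a y hy) f hf
      rw [← sum_homogeneousComponent f, map_sum] at h1
      rw [Polynomial.eval_finsetSum, ← h1]
      refine Finset.sum_congr rfl fun k _ => ?_
      rw [hom_smul (homogeneousComponent_isHomogeneous k f), Polynomial.eval_mul,
        Polynomial.eval_C, Polynomial.eval_pow, Polynomial.eval_X, mul_comm]
    rcases Nat.lt_or_ge m (f.totalDegree + 1) with hm | hm
    · have h2 : Pf.coeff m = aeval y (homogeneousComponent m f) := by
        simp only [Pf, Polynomial.finsetSum_coeff, Polynomial.coeff_C_mul_X_pow]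
        rw [Finset.sum_eq_single m]
        · simp
        · intro b _ hb
          rw [if_neg (Ne.symm hb)]
        · intro h
          exact absurd (Finset.mem_range.2 hm) h
      rw [← h2, hP0, Polynomial.coeff_zero]
    · rw [homogeneousComponent_eq_zero _ _ (by omega), map_zero]
  have hzero : ∀ f ∈ J, homogeneousComponent 0 f = 0 := by
    intro f hf
    have h1 := hcomp f hf y₀ hy₀ 0
    rw [homogeneousComponent_zero, aeval_C] at h1
    rw [homogeneousComponent_zero, (map_eq_zero_iff _ (algebraMap E F).injective).1 h1, map_zero]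
  let N := S.sup (fun f => f.totalDegree)
  let ix : Type := S × Fin (N + 1)
  let G0 : ix → MvPolynomial ι E := fun x => homogeneousComponent ((x.2 : ℕ) + 1) x.1.1
  let e := Fintype.equivFin ix
  refine ⟨Fintype.card ix, fun k => G0 (e.symm k), fun k => ⟨_, Nat.succ_pos _,
    homogeneousComponent_isHomogeneous _ _⟩, fun y => ⟨fun hy k => ?_, fun hy => ?_⟩⟩
  · refine hcomp _ ?_ y hy _
    rw [← hS]
    exact Submodule.subset_span (e.symm k).1.2
  · rw [mem_zeroLocus_iff]
    have h1 : J ≤ RingHom.ker (aeval y : MvPolynomial ι E →ₐ[E] F) := by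
      rw [← hS]
      refine Submodule.span_le.2 ?_
      intro f hf
      change aeval y f = 0
      have hfJ : f ∈ J := by
        rw [← hS]
        exact Submodule.subset_span hf
      rw [← sum_homogeneousComponent f, map_sum, Finset.sum_range_succ', hzero f hfJ, map_zero,
        add_zero]
      refine Finset.sum_eq_zero fun k hk => ?_
      have hk' : k < f.totalDegree := Finset.mem_range.1 hk
      have hkN : k < N + 1 := by
        have : f.totalDegree ≤ N := Finset.le_sup (f := fun f => f.totalDegree) hf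
        omega
      have h2 := hy (e ⟨⟨f, hf⟩, ⟨k, hkN⟩⟩)
      simpa [G0] using h2
    intro f hf
    exact h1 hf

theorem IsConeOver.zero_mem {Y : Set (ι → F)} (hY : IsConeOver E Y) (hne : Y.Nonempty) :
    (0 : ι → F) ∈ Y := by
  obtain ⟨y, hy⟩ := hne
  have := hY.2 0 y hy
  rwa [zero_smul] at this

theorem DimGE.nonempty {Y : Set (ι → F)} {d : ℕ} (h : DimGE Y d) : Y.Nonempty := by
  obtain ⟨y, hy, -⟩ := h (fun _ => 0) fun _ => ⟨1, one_pos, isHomogeneous_zero _ _ _⟩
  exact ⟨y, hy⟩

theorem DimGE.family {Y : Set (ι → F)} {d : ℕ} (h : DimGE Y d) {β : Type} [Fintype β]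
    (hβ : Fintype.card β ≤ d) (q : β → MvPolynomial ι F) (hq : ∀ b, IsForm (q b)) :
    ∃ y ∈ Y, y ≠ 0 ∧ ∀ b, eval y (q b) = 0 := by
  classical
  let em : β → Fin d := fun b => Fin.castLE hβ (Fintype.equivFin β b)
  have hem : Function.Injective em := fun a b hab =>
    (Fintype.equivFin β).injective (Fin.castLE_injective hβ hab)
  obtain ⟨y, hy, hy0, hyq⟩ := h (Function.extend em q fun _ => 0) fun j => by
    by_cases hj : ∃ b, em b = j
    · obtain ⟨b, rfl⟩ := hj
      rw [hem.extend_apply]
      exact hq b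
    · rw [Function.extend_apply' _ _ _ hj]
      exact ⟨1, one_pos, isHomogeneous_zero _ _ _⟩
  refine ⟨y, hy, hy0, fun b => ?_⟩
  have := hyq (em b)
  rwa [hem.extend_apply] at this

end Cone

section Join

variable {L : Type} {α β : Type}

/-- The cone of the join of two cones in complementary linear subspaces. -/
def joinSet (X : Set (α → L)) (Y : Set (β → L)) : Set (α ⊕ β → L) :=
  {v | (fun i => v (Sum.inl i)) ∈ X ∧ (fun i => v (Sum.inr i)) ∈ Y}

variable {E F : Type} [Field E] [Field F] [Algebra E F] [IsAlgClosed F] [Fintype α] [Fintype β]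

theorem join_isZero {κ κ' : Type} {G : κ → MvPolynomial α E} {G' : κ' → MvPolynomial β E}
    {Y : Set (α → F)} {Y' : Set (β → F)} (h : IsZero F G Y) (h' : IsZero F G' Y') :
    IsZero F (Sum.elim (fun k => rename Sum.inl (G k)) fun k => rename Sum.inr (G' k))
      (joinSet Y Y') := by
  intro v
  unfold joinSet
  rw [Set.mem_ofPred_eq, h, h']
  constructor
  · rintro ⟨h1, h2⟩ (k | k)
    · rw [Sum.elim_inl, aeval_rename]
      exact h1 k
    · rw [Sum.elim_inr, aeval_rename]
      exact h2 k
  · intro h1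
    refine ⟨fun k => ?_, fun k => ?_⟩
    · have := h1 (Sum.inl k)
      rwa [Sum.elim_inl, aeval_rename] at this
    · have := h1 (Sum.inr k)
      rwa [Sum.elim_inr, aeval_rename] at this

theorem join_form {κ κ' : Type} {G : κ → MvPolynomial α E} {G' : κ' → MvPolynomial β E}
    (hG : ∀ k, IsForm (G k)) (hG' : ∀ k, IsForm (G' k)) :
    ∀ k, IsForm (Sum.elim (fun k => rename Sum.inl (G k)) (fun k => rename Sum.inr (G' k)) k :
      MvPolynomial (α ⊕ β) E) := by
  rintro (k | k)
  · obtain ⟨D, hD, h⟩ := hG k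
    exact ⟨D, hD, h.rename_isHomogeneous⟩
  · obtain ⟨D, hD, h⟩ := hG' k
    exact ⟨D, hD, h.rename_isHomogeneous⟩

theorem dimGE_join {Y : Set (α → F)} {Y' : Set (β → F)} (hY : IsConeOver E Y)
    (hY' : IsConeOver E Y') {d d' : ℕ} (h1 : DimGE Y d) (h2 : DimLE Y d) (h1' : DimGE Y' d')
    (h2' : DimLE Y' d') : DimGE (joinSet Y Y') (d + d' + 1) := by
  classical
  obtain ⟨r, G, hG, hGY⟩ := exists_forms hY (DimGE.nonempty h1)
  obtain ⟨r', G', hG', hGY'⟩ := exists_forms hY' (DimGE.nonempty h1')
  obtain ⟨q, hq, hq0⟩ := h2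
  obtain ⟨q', hq', hq0'⟩ := h2'
  obtain ⟨N, hN, u, hu, hu0⟩ := same_degree q hq
  obtain ⟨N', hN', u', hu', hu0'⟩ := same_degree q' hq'
  have hv := (join_isZero hGY hGY').isVar
  refine dimGE_of_dominant _ (fun k => form_map (join_form hG hG' k)) hv
    (β := Fin (d + 1) ⊕ Fin (d' + 1)) (by
      rw [Nat.card_eq_fintype_card, Fintype.card_sum, Fintype.card_fin, Fintype.card_fin]; omega)
    (Sum.elim (fun j => rename Sum.inl (u j)) fun j => rename Sum.inr (u' j)) fun b => ?_
  obtain ⟨y, hy, hyb⟩ := surj_of_dim hY.2 h1 u hN hu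
    (fun y hy h => hq0 y hy fun j => (hu0 y j).1 (h j)) fun j => b (Sum.inl j)
  obtain ⟨y', hy', hyb'⟩ := surj_of_dim hY'.2 h1' u' hN' hu'
    (fun y hy h => hq0' y hy fun j => (hu0' y j).1 (h j)) fun j => b (Sum.inr j)
  refine ⟨Sum.elim y y', ⟨by simpa using hy, by simpa using hy'⟩, ?_⟩
  rintro (j | j)
  · rw [Sum.elim_inl, eval_rename, Sum.elim_comp_inl]
    exact hyb j
  · rw [Sum.elim_inr, eval_rename, Sum.elim_comp_inr]
    exact hyb' j

end Join

end Pool.Agent.X271.TQ
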