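import Pool.Agent.X271.TqSeh
import Pool.Agent.X271.TmFin

/-!
# Operations on approximable varieties
-/

set_option autoImplicit false
set_option linter.unusedSectionVars false
set_option linter.unusedVariables false

namespace Pool.Agent.X271.TQ

open MvPolynomial Pool.Agent.Y129.TA
open Pool.Agent.Y129.TB (IsConeOver InTube Approximable DimLEOver form_map eval_map_alg BaseField
  approx imageOver imageOver_cone)

variable {p : ℕ} [hp : Fact p.Prime] {C F K E : Type} [Field C] [Field F] [CharP F p] [Field K]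
  [Field E] [Algebra K C] [Algebra E F] [IsAlgClosed C] [IsAlgClosed F]

theorem univ_cone (L L' : Type) [Field L] [Field L'] [Algebra L L'] (ι : Type) :
    IsConeOver L (Set.univ : Set (ι → L')) :=
  ⟨⟨⊥, by rw [zeroLocus_bot]; rfl⟩, fun _ _ _ => Set.mem_univ _⟩

theorem univ_dimGE (L' : Type) [Field L'] [IsAlgClosed L'] (n : ℕ) :
    DimGE (Set.univ : Set (Fin (n + 1) → L')) n := by
  intro q hq
  choose D hD hDq using hq
  obtain ⟨w, hw0, hw⟩ := exists_zero q D hD hDq (by simp)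
  exact ⟨w, Set.mem_univ _, hw0, hw⟩

/-- projective space -/
theorem Good.univ (T : Tilting p C F) (B : BaseField T K E) (n : ℕ) :
    Good T.toTiltPair K E (Set.univ : Set (Fin (n + 1) → C)) n := by
  have hle : DimLEOver K (Set.univ : Set (Fin (n + 1) → C)) n := by
    refine ⟨fun j => MvPolynomial.X j, fun j => ⟨1, one_pos, isHomogeneous_X _ _⟩,
      fun y _ hy => funext fun j => ?_⟩
    have := hy j
    rwa [aeval_X] at this
  refine ⟨univ_cone _ _ _, univ_dimGE _ _, hle, ?_⟩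
  refine approx_of_system T B (κ := Fin 0) (S := fun k => k.elim0)
    (fun y => ⟨fun _ k => k.elim0, fun _ => Set.mem_univ _⟩) (Set.mem_univ _) hle fun δ hδ => ?_
  exact ⟨Set.univ, univ_cone _ _ _, univ_dimGE _ _, fun w _ _ k => k.elim0⟩

/-- enlarging -/
theorem Good.super {T : TiltPair p C F} {ι : Type} [Fintype ι] {X X' : Set (ι → C)} {d : ℕ}
    (h : Good T K E X d) (hXX : X ⊆ X') (hc : IsConeOver K X') (hle : DimLEOver K X' d) :
    Good T K E X' d := by
  refine ⟨hc, fun q hq => ?_, hle, fun r P D hP hPX => h.app r P D hP fun k x hx =>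
    hPX k x (hXX hx)⟩
  obtain ⟨y, hy, h1⟩ := h.ge q hq
  exact ⟨y, hXX hy, h1⟩

/-- images -/
theorem Good.image (T : Tilting p C F) (B : BaseField T K E) {α : Type} [Fintype α] [Nonempty α]
    {n d : ℕ} {X : Set (α → C)} (h : Good T.toTiltPair K E X d)
    (f : Fin (n + 1) → MvPolynomial α K) {e : ℕ} (he : 0 < e) (hf : ∀ i, (f i).IsHomogeneous e)
    (h0 : ∀ x ∈ X, (∀ i, aeval x (f i) = 0) → x = 0)
    (hle : DimLEOver K {y : Fin (n + 1) → C | ∃ x ∈ X, ∀ i, y i = aeval x (f i)} d) :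
    Good T.toTiltPair K E {y : Fin (n + 1) → C | ∃ x ∈ X, ∀ i, y i = aeval x (f i)} d := by
  classical
  have hJ := Good.join T B h (Good.univ T B n)
  let g : Fin (n + 1) → MvPolynomial (α ⊕ Fin (n + 1)) K := fun i =>
    rename Sum.inl (f i) - MvPolynomial.X (Sum.inr i) ^ e
  have hg : ∀ i, IsForm (g i) := fun i =>
    ⟨e, he, ((hf i).rename_isHomogeneous).sub (isHomogeneous_X_pow _ _)⟩
  have hge : ∀ (w : α ⊕ Fin (n + 1) → C) i, aeval w (g i) = 0 ↔
      w (Sum.inr i) ^ e = aeval (fun a => w (Sum.inl a)) (f i) := by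
    intro w i
    simp only [g, map_sub, map_pow, aeval_X, aeval_rename, sub_eq_zero]
    exact eq_comm
  have hfree : Free {w | w ∈ joinSet X (Set.univ : Set (Fin (n + 1) → C)) ∧
      ∀ i, aeval w (g i) = 0} := by
    rintro w ⟨hw, hwg⟩ hw0
    have h1 : (fun a => w (Sum.inl a)) = 0 := h0 _ hw.1 fun i => by
      rw [← (hge w i).1 (hwg i), hw0 i, zero_pow he.ne']
    funext t
    rcases t with a | i
    · exact congrFun h1 a
    · exact hw0 i
  have himg : TQ.powImage e {w | w ∈ joinSet X (Set.univ : Set (Fin (n + 1) → C)) ∧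
      ∀ i, aeval w (g i) = 0} = {y : Fin (n + 1) → C | ∃ x ∈ X, ∀ i, y i = aeval x (f i)} := by
    ext y
    constructor
    · rintro ⟨w, ⟨hw, hwg⟩, hy⟩
      exact ⟨_, hw.1, fun i => by rw [hy i, (hge w i).1 (hwg i)]⟩
    · rintro ⟨x, hx, hy⟩
      choose s hs using fun i => IsAlgClosed.exists_pow_nat_eq (y i) he
      refine ⟨Sum.elim x s, ⟨⟨by simpa using hx, Set.mem_univ _⟩, fun i => ?_⟩, fun i => ?_⟩
      · rw [hge, Sum.elim_inr, hs, hy i]
        rfl
      · rw [Sum.elim_inr, hs]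
  have hsle : DimLEOver K {w | w ∈ joinSet X (Set.univ : Set (Fin (n + 1) → C)) ∧
      ∀ i, aeval w (g i) = 0} d := by
    obtain ⟨q, hq, hq0⟩ := hle
    refine ⟨fun j => pw e (q j), fun j => pw_form he (hq j), fun w hw hwq => ?_⟩
    have h1 : (fun i => w (Sum.inr i) ^ e) = 0 := by
      refine hq0 _ ?_ fun j => ?_
      · rw [← himg]
        exact ⟨w, hw, fun i => rfl⟩
      · rw [← aeval_pw]
        exact hwq j
    exact hfree w hw fun i => pow_eq_zero_iff he.ne' |>.1 (congrFun h1 i)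
  have hS := Good.section T B (d := d) hJ g hg (by rw [Fintype.card_fin]; omega) hsle
  have hP := Good.powImage T B hS he hfree (by rw [himg]; exact hle)
  rwa [himg] at hP

/-- proper intersections -/
theorem Good.inter (T : Tilting p C F) (B : BaseField T K E) {n d₁ d₂ d : ℕ}
    {X₁ X₂ : Set (Fin (n + 1) → C)} (h₁ : Good T.toTiltPair K E X₁ d₁)
    (h₂ : Good T.toTiltPair K E X₂ d₂) (hd : n + d ≤ d₁ + d₂)
    (hle : DimLEOver K (X₁ ∩ X₂) d) : Good T.toTiltPair K E (X₁ ∩ X₂) d := by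
  classical
  have hJ := Good.join T B h₁ h₂
  let g : Fin (n + 1) → MvPolynomial (Fin (n + 1) ⊕ Fin (n + 1)) K := fun i =>
    MvPolynomial.X (Sum.inl i) - MvPolynomial.X (Sum.inr i)
  have hg : ∀ i, IsForm (g i) := fun i =>
    ⟨1, one_pos, (isHomogeneous_X _ _).sub (isHomogeneous_X _ _)⟩
  have hge : ∀ (w : Fin (n + 1) ⊕ Fin (n + 1) → C) i, aeval w (g i) = 0 ↔
      w (Sum.inl i) = w (Sum.inr i) := by
    intro w i
    simp only [g, map_sub, aeval_X, sub_eq_zero]
  have hfree : Free {w | w ∈ joinSet X₁ X₂ ∧ ∀ i, aeval w (g i) = 0} := by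
    rintro w ⟨hw, hwg⟩ hw0
    funext t
    rcases t with i | i
    · exact ((hge w i).1 (hwg i)).trans (hw0 i)
    · exact hw0 i
  have himg : TQ.powImage 1 {w | w ∈ joinSet X₁ X₂ ∧ ∀ i, aeval w (g i) = 0} = X₁ ∩ X₂ := by
    ext y
    constructor
    · rintro ⟨w, ⟨hw, hwg⟩, hy⟩
      have e1 : (fun i => w (Sum.inl i)) = y := funext fun i => by
        rw [hy i, pow_one, (hge w i).1 (hwg i)]
      have e2 : (fun i => w (Sum.inr i)) = y := funext fun i => by rw [hy i, pow_one]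
      refine ⟨?_, ?_⟩
      · rw [← e1]
        exact hw.1
      · rw [← e2]
        exact hw.2
    · rintro ⟨hy1, hy2⟩
      refine ⟨Sum.elim y y, ⟨⟨by simpa using hy1, by simpa using hy2⟩, fun i => ?_⟩,
        fun i => ?_⟩
      · rw [hge]
        rfl
      · rw [pow_one]
        rfl
  have hsle : DimLEOver K {w | w ∈ joinSet X₁ X₂ ∧ ∀ i, aeval w (g i) = 0} d := by
    obtain ⟨q, hq, hq0⟩ := hle
    refine ⟨fun j => pw 1 (q j), fun j => pw_form one_pos (hq j), fun w hw hwq => ?_⟩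
    have h1 : (fun i => w (Sum.inr i) ^ 1) = 0 := by
      refine hq0 _ ?_ fun j => ?_
      · rw [← himg]
        exact ⟨w, hw, fun i => rfl⟩
      · rw [← aeval_pw]
        exact hwq j
    exact hfree w hw fun i => pow_eq_zero_iff one_ne_zero |>.1 (congrFun h1 i)
  have hS := Good.section T B (d := d) hJ g hg (by rw [Fintype.card_fin]; omega) hsle
  have hP := Good.powImage T B hS one_pos hfree (by rw [himg]; exact hle)
  rwa [himg] at hP

/-- inverse images -/
theorem Good.preimage (T : Tilting p C F) (B : BaseField T K E) {m n d d' : ℕ}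
    {X : Set (Fin (n + 1) → C)} (h : Good T.toTiltPair K E X d)
    (f : Fin (n + 1) → MvPolynomial (Fin (m + 1)) K) {e : ℕ} (he : 0 < e)
    (hf : ∀ i, (f i).IsHomogeneous e) (hd : n + d' ≤ m + d)
    (hle : DimLEOver K {z : Fin (m + 1) → C | (fun i => aeval z (f i)) ∈ X} d') :
    Good T.toTiltPair K E {z : Fin (m + 1) → C | (fun i => aeval z (f i)) ∈ X} d' := by
  classical
  have hJ := Good.join T B (Good.powPull T B h he) (Good.univ T B m)
  let g : Fin (n + 1) → MvPolynomial (Fin (n + 1) ⊕ Fin (m + 1)) K := fun i =>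
    MvPolynomial.X (Sum.inl i) ^ e - rename Sum.inr (f i)
  have hg : ∀ i, IsForm (g i) := fun i =>
    ⟨e, he, (isHomogeneous_X_pow _ _).sub ((hf i).rename_isHomogeneous)⟩
  have hge : ∀ (w : Fin (n + 1) ⊕ Fin (m + 1) → C) i, aeval w (g i) = 0 ↔
      w (Sum.inl i) ^ e = aeval (fun a => w (Sum.inr a)) (f i) := by
    intro w i
    simp only [g, map_sub, map_pow, aeval_X, aeval_rename, sub_eq_zero]
    exact Iff.rfl
  set J : Set (Fin (n + 1) ⊕ Fin (m + 1) → C) :=
    joinSet (TQ.powPull e X) (Set.univ : Set (Fin (m + 1) → C)) with hJd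
  have hfree : Free {w | w ∈ J ∧ ∀ i, aeval w (g i) = 0} := by
    rintro w ⟨hw, hwg⟩ hw0
    funext t
    rcases t with i | i
    · have h1 := (hge w i).1 (hwg i)
      have h2 : (fun a => w (Sum.inr a)) = 0 := funext hw0
      rw [h2, aeval_zero_form ⟨e, he, hf i⟩] at h1
      exact pow_eq_zero_iff he.ne' |>.1 h1
    · exact hw0 i
  have himg : TQ.powImage 1 {w | w ∈ J ∧ ∀ i, aeval w (g i) = 0} =
      {z : Fin (m + 1) → C | (fun i => aeval z (f i)) ∈ X} := by
    ext y
    constructor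
    · rintro ⟨w, ⟨hw, hwg⟩, hy⟩
      have e2 : (fun i => w (Sum.inr i)) = y := funext fun i => by rw [hy i, pow_one]
      have h1 : (fun i => w (Sum.inl i) ^ e) ∈ X := hw.1
      have e1 : (fun i => w (Sum.inl i) ^ e) = fun i => aeval y (f i) := funext fun i => by
        rw [(hge w i).1 (hwg i), e2]
      rw [e1] at h1
      exact h1
    · intro hy
      choose s hs using fun i => IsAlgClosed.exists_pow_nat_eq (aeval y (f i)) he
      refine ⟨Sum.elim s y, ⟨⟨?_, Set.mem_univ _⟩, fun i => ?_⟩, fun i => ?_⟩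
      · change (fun i => s i ^ e) ∈ X
        have e1 : (fun i => s i ^ e) = fun i => aeval y (f i) := funext hs
        rw [e1]
        exact hy
      · rw [hge, Sum.elim_inl, hs]
        rfl
      · rw [pow_one]
        rfl
  have hsle : DimLEOver K {w | w ∈ J ∧ ∀ i, aeval w (g i) = 0} d' := by
    obtain ⟨q, hq, hq0⟩ := hle
    refine ⟨fun j => pw 1 (q j), fun j => pw_form one_pos (hq j), fun w hw hwq => ?_⟩
    have h1 : (fun i => w (Sum.inr i) ^ 1) = 0 := by
      refine hq0 _ ?_ fun j => ?_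
      · rw [← himg]
        exact ⟨w, hw, fun i => rfl⟩
      · rw [← aeval_pw]
        exact hwq j
    exact hfree w hw fun i => pow_eq_zero_iff one_ne_zero |>.1 (congrFun h1 i)
  have hS := Good.section T B (d := d') hJ g hg (by rw [Fintype.card_fin]; omega) hsle
  have hP := Good.powImage T B hS one_pos hfree (by rw [himg]; exact hle)
  rwa [himg] at hP

/-- products -/
theorem Good.prod (T : Tilting p C F) (B : BaseField T K E) {n n₁ n₂ d₁ d₂ : ℕ}
    (σ : Fin (n + 1) ≃ Fin (n₁ + 1) × Fin (n₂ + 1))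
    {X₁ : Set (Fin (n₁ + 1) → C)} {X₂ : Set (Fin (n₂ + 1) → C)}
    (h₁ : Good T.toTiltPair K E X₁ d₁) (h₂ : Good T.toTiltPair K E X₂ d₂) :
    Good T.toTiltPair K E {y : Fin (n + 1) → C | ∃ x₁ ∈ X₁, ∃ x₂ ∈ X₂,
      ∀ i, y i = x₁ (σ i).1 * x₂ (σ i).2} (d₁ + d₂) := by
  classical
  have hS := Good.segre T B h₁ h₂
  have hset : {y : Fin (n + 1) → C | ∃ x ∈ TQ.segre X₁ X₂,
      ∀ i, y i = aeval x (MvPolynomial.X (σ i) : MvPolynomial _ K)} =
      {y : Fin (n + 1) → C | ∃ x₁ ∈ X₁, ∃ x₂ ∈ X₂, ∀ i, y i = x₁ (σ i).1 * x₂ (σ i).2} := by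
    ext y
    constructor
    · rintro ⟨x, ⟨x₁, hx₁, x₂, hx₂, hx⟩, hy⟩
      exact ⟨x₁, hx₁, x₂, hx₂, fun i => by rw [hy i, aeval_X, hx]⟩
    · rintro ⟨x₁, hx₁, x₂, hx₂, hy⟩
      exact ⟨fun t => x₁ t.1 * x₂ t.2, ⟨x₁, hx₁, x₂, hx₂, fun t => rfl⟩,
        fun i => by rw [hy i, aeval_X]⟩
  rw [← hset]
  refine Good.image T B hS (fun i => MvPolynomial.X (σ i)) one_pos (fun i => isHomogeneous_X _ _)
    (fun x hx h0 => ?_) ?_
  · funext t
    have := h0 (σ.symm t)
    rwa [aeval_X, Equiv.apply_symm_apply] at this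
  · obtain ⟨q, hq, hq0⟩ := hS.le
    refine ⟨fun j => rename σ.symm (q j), fun j => ?_, ?_⟩
    · obtain ⟨D, hD, h⟩ := hq j
      exact ⟨D, hD, h.rename_isHomogeneous⟩
    · rintro y ⟨x, hx, hy⟩ hyq
      have h1 : y ∘ σ.symm = x := by
        funext t
        rw [Function.comp, hy, aeval_X, Equiv.apply_symm_apply]
      have h2 : x = 0 := hq0 x hx fun j => by
        have := hyq j
        rwa [aeval_rename, h1] at this
      funext i
      rw [hy i, aeval_X, h2]
      rfl

end Pool.Agent.X271.TQ
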