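import Pool.Agent.Y129.TB.Final

/-!
# The dimension of cones: dominant maps
-/

set_option autoImplicit false
set_option linter.unusedSectionVars false

namespace Pool.Agent.X271.TQ

open MvPolynomial Pool.Agent.Y129.TA
open Pool.Agent.Y129.TB (IsConeOver)

section Fin

variable {F τ ι κ : Type} [Field F] [IsAlgClosed F] [Finite τ] [Finite ι] [Finite κ]

/-- If the forms `u` have no common zero on the cone defined by the forms `G` then the ring of the cone
is integral over the ring generated by the `u i`. -/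
theorem integral_of_no_zero (G : κ → MvPolynomial τ F) (D : κ → ℕ)
    (hG : ∀ k, (G k).IsHomogeneous (D k)) (u : ι → MvPolynomial τ F) {e : ℕ} (he : 0 < e)
    (hu : ∀ i, (u i).IsHomogeneous e)
    (h0 : ∀ w : τ → F, (∀ k, eval w (G k) = 0) → (∀ i, eval w (u i) = 0) → w = 0) :
    ((aeval fun i => Ideal.Quotient.mkₐ F (Ideal.span (Set.range G)) (u i) :
      MvPolynomial ι F →ₐ[F] (MvPolynomial τ F ⧸ Ideal.span (Set.range G))).toRingHom).IsIntegral := by
  classical
  have : Fintype τ := Fintype.ofFinite τ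
  have : Fintype ι := Fintype.ofFinite ι
  set I : Ideal (MvPolynomial τ F) := Ideal.span (Set.range G) with hI
  let mk : MvPolynomial τ F →ₐ[F] (MvPolynomial τ F ⧸ I) := Ideal.Quotient.mkₐ F I
  let φ : MvPolynomial ι F →ₐ[F] (MvPolynomial τ F ⧸ I) := aeval fun i => mk (u i)
  let : Algebra (MvPolynomial ι F) (MvPolynomial τ F ⧸ I) := φ.toRingHom.toAlgebra
  have hsm : ∀ (r : MvPolynomial ι F) (a : MvPolynomial τ F ⧸ I), r • a = φ r * a :=
    fun r a => Algebra.smul_def r a
  -- a power of the irrelevant ideal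
  set U : Ideal (MvPolynomial τ F) := Ideal.span (Set.range u) with hU
  obtain ⟨L, hL0, hL⟩ : ∃ L : ℕ, 0 < L ∧
      (Ideal.span (Set.range (X : τ → MvPolynomial τ F))) ^ L ≤ I ⊔ U := by
    have h1 : Ideal.span (Set.range (X : τ → MvPolynomial τ F)) ≤ (I ⊔ U).radical := by
      rw [Ideal.span_le]
      rintro _ ⟨i, rfl⟩
      rw [SetLike.mem_coe, ← vanishingIdeal_zeroLocus_eq_radical (K := F), mem_vanishingIdeal_iff]
      intro w hw
      rw [mem_zeroLocus_iff] at hw
      have hw0 : w = 0 := by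
        refine h0 w (fun k => ?_) fun i => ?_
        · have h2 := hw (G k) (Ideal.mem_sup_left (Ideal.subset_span ⟨k, rfl⟩))
          rwa [aeval_eq_eval] at h2
        · have h2 := hw (u i) (Ideal.mem_sup_right (Ideal.subset_span ⟨i, rfl⟩))
          rwa [aeval_eq_eval] at h2
      rw [aeval_X, hw0]
      rfl
    obtain ⟨L, hL⟩ := Ideal.exists_pow_le_of_le_radical_of_fg h1
      ⟨(Set.finite_range (X : τ → MvPolynomial τ F)).toFinset, by simp⟩
    exact ⟨L + 1, Nat.succ_pos L, (Ideal.pow_le_pow_right (Nat.le_succ L)).trans hL⟩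
  -- the module generated by the monomials of degree less than `L`
  let M : Submodule (MvPolynomial ι F) (MvPolynomial τ F ⧸ I) :=
    Submodule.span _ {a | ∃ α : τ →₀ ℕ, α.degree < L ∧ a = mk (monomial α 1)}
  have hCM : ∀ (c : F) (a : MvPolynomial τ F ⧸ I), a ∈ M → mk (C c) * a ∈ M := by
    intro c a ha
    have h1 : mk (C c) * a = (C c : MvPolynomial ι F) • a := by
      rw [hsm]
      congr 1
      change _ = aeval _ (C c)
      rw [aeval_C]
      rfl
    rw [h1]
    exact M.smul_mem _ ha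
  have hlow : ∀ (f : MvPolynomial τ F) (m : ℕ), m < L → f.IsHomogeneous m → mk f ∈ M := by
    intro f m hm hf
    rw [← support_sum_monomial_coeff f, map_sum]
    refine Submodule.sum_mem _ fun α hα => ?_
    have h1 : monomial α (coeff α f) = C (coeff α f) * monomial α 1 := by
      rw [C_mul_monomial, mul_one]
    rw [h1, map_mul]
    refine hCM _ _ (Submodule.subset_span ⟨α, ?_, rfl⟩)
    have h2 : ∑ i, α i = m := sum_of_homogeneous hf hα
    have h3 : α.degree = ∑ i, α i := by
      rw [Finsupp.degree_apply]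
      exact Finset.sum_subset (Finset.subset_univ _) (by simp)
    omega
  have htop : ∀ f : MvPolynomial τ F, f.IsHomogeneous L → mk f ∈ M := by
    intro f hf
    have h1 := hL (mem_pow_of_homogeneous hf)
    obtain ⟨b, hb, a, ha, hba⟩ := Submodule.mem_sup.1 h1
    obtain ⟨c, hc⟩ := (Ideal.mem_span_range_iff_exists_fun).1 ha
    have h2 : f = homogeneousComponent L b + ∑ i, homogeneousComponent L (c i * u i) := by
      rw [← map_sum, hc, ← map_add, hba, homogeneousComponent_eq_self hf]
    have h3 : mk (homogeneousComponent L b) = 0 :=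
      Ideal.Quotient.eq_zero_iff_mem.2
        (homogeneousComponent_mem_of_mem (span_isHomogeneous G D hG) hb L)
    rw [h2, map_add, h3, zero_add, map_sum]
    refine Submodule.sum_mem _ fun i _ => ?_
    rw [component_mul (hu i)]
    split_ifs with h4
    · have h5 : mk (homogeneousComponent (L - e) (c i) * u i) =
          (X i : MvPolynomial ι F) • mk (homogeneousComponent (L - e) (c i)) := by
        rw [hsm, map_mul, mul_comm]
        congr 1
        change _ = aeval _ (X i)
        rw [aeval_X]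
      rw [h5]
      exact M.smul_mem _ (hlow _ (L - e) (by omega) (homogeneousComponent_isHomogeneous _ _))
    · rw [map_zero]
      exact M.zero_mem
  have hX : ∀ (j : τ) (a : MvPolynomial τ F ⧸ I), a ∈ M → mk (X j) * a ∈ M := by
    intro j a ha
    induction ha using Submodule.span_induction with
    | mem a ha =>
      obtain ⟨α, hα, rfl⟩ := ha
      rw [← map_mul]
      have h1 : (X j * monomial α 1 : MvPolynomial τ F).IsHomogeneous (1 + α.degree) :=
        (isHomogeneous_X F j).mul (isHomogeneous_monomial _ rfl)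
      rcases Nat.lt_or_ge (1 + α.degree) L with h2 | h2
      · exact hlow _ _ h2 h1
      · have h3 : 1 + α.degree = L := by omega
        rw [h3] at h1
        exact htop _ h1
    | zero => rw [mul_zero]; exact M.zero_mem
    | add a b _ _ ha hb => rw [mul_add]; exact M.add_mem ha hb
    | smul r a _ ha =>
      rw [hsm, mul_left_comm, ← hsm]
      exact M.smul_mem _ ha
  have hall : ∀ f : MvPolynomial τ F, mk f ∈ M := by
    intro f
    have h1 : (1 : MvPolynomial τ F ⧸ I) ∈ M := by
      have h2 := hlow 1 0 hL0 (isHomogeneous_one _ _)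
      rwa [map_one] at h2
    induction f using MvPolynomial.induction_on with
    | C c =>
      have h2 := hCM c 1 h1
      rwa [mul_one] at h2
    | add f g hf hg => rw [map_add]; exact M.add_mem hf hg
    | mul_X f j hf => rw [map_mul, mul_comm]; exact hX j _ hf
  have hfin : Module.Finite (MvPolynomial ι F) (MvPolynomial τ F ⧸ I) := by
    refine ⟨Submodule.fg_def.2 ⟨{a | ∃ α : τ →₀ ℕ, α.degree < L ∧ a = mk (monomial α 1)}, ?_, ?_⟩⟩
    · have h1 : {a | ∃ α : τ →₀ ℕ, α.degree < L ∧ a = mk (monomial α 1)} =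
          (fun α : τ →₀ ℕ => mk (monomial α 1)) '' {α | α.degree < L} := by
        ext a
        constructor
        · rintro ⟨α, h, rfl⟩
          exact ⟨α, h, rfl⟩
        · rintro ⟨α, h, rfl⟩
          exact ⟨α, h, rfl⟩
      rw [h1]
      refine Set.Finite.image _ ((Finsupp.finite_of_degree_le L).subset fun α hα => ?_)
      exact (show α.degree < L from hα).le
    · rw [eq_top_iff]
      rintro a -
      obtain ⟨f, rfl⟩ := Ideal.Quotient.mk_surjective a
      exact hall f
  have hint : Algebra.IsIntegral (MvPolynomial ι F) (MvPolynomial τ F ⧸ I) := inferInstance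
  exact hint.isIntegral

/-- More functions than the forms `u i` satisfy a polynomial relation on the cone. -/
theorem rel_exists (G : κ → MvPolynomial τ F) (D : κ → ℕ)
    (hG : ∀ k, (G k).IsHomogeneous (D k)) (u : ι → MvPolynomial τ F) {e : ℕ} (he : 0 < e)
    (hu : ∀ i, (u i).IsHomogeneous e)
    (h0 : ∀ w : τ → F, (∀ k, eval w (G k) = 0) → (∀ i, eval w (u i) = 0) → w = 0)
    {β : Type} [Finite β] (hc : Nat.card ι < Nat.card β) (Φ : β → MvPolynomial τ F) :
    ∃ R : MvPolynomial β F, R ≠ 0 ∧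
      ∀ w : τ → F, (∀ k, eval w (G k) = 0) → eval (fun b => eval w (Φ b)) R = 0 := by
  classical
  by_contra hno
  push Not at hno
  set I : Ideal (MvPolynomial τ F) := Ideal.span (Set.range G) with hI
  let M : Submonoid (MvPolynomial τ F) :=
    (nonZeroDivisors (MvPolynomial β F)).map (aeval Φ : MvPolynomial β F →ₐ[F] MvPolynomial τ F)
  have hdis : Disjoint (I : Set (MvPolynomial τ F)) M := by
    rw [Set.disjoint_left]
    rintro f hf ⟨R, hR, rfl⟩
    obtain ⟨w, hw, hw0⟩ := hno R (nonZeroDivisors.ne_zero hR)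
    apply hw0
    have h1 : I ≤ RingHom.ker (eval w : MvPolynomial τ F →+* F) := by
      rw [hI, Ideal.span_le]
      rintro _ ⟨k, rfl⟩
      exact hw k
    have h2 : eval w (aeval Φ R) = 0 := h1 hf
    rw [← h2]
    have h3 : ((eval w).comp (aeval Φ : MvPolynomial β F →ₐ[F] MvPolynomial τ F).toRingHom) =
        eval fun b => eval w (Φ b) := by
      ext i <;> simp
    exact (congrArg (fun ψ : MvPolynomial β F →+* F => ψ R) h3).symm
  obtain ⟨P, hP, hIP, hPM⟩ := Ideal.exists_le_prime_disjoint I M hdis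
  let mk : MvPolynomial τ F →ₐ[F] (MvPolynomial τ F ⧸ P) := Ideal.Quotient.mkₐ F P
  have hmk : ∀ f, mk f = 0 ↔ f ∈ P := fun f => Ideal.Quotient.eq_zero_iff_mem
  have hind : AlgebraicIndependent F fun b => mk (Φ b) := by
    rw [algebraicIndependent_iff]
    intro R hR
    by_contra hR0
    have h1 : aeval (fun b => mk (Φ b)) R = mk (aeval Φ R) := by
      have h9 : (aeval fun b => mk (Φ b)) = mk.comp (aeval Φ) := by
        ext i
        simp
      rw [h9]
      rfl
    rw [h1, hmk] at hR
    exact Set.disjoint_left.1 hPM hR ⟨R, mem_nonZeroDivisors_of_ne_zero hR0, rfl⟩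
  have hint : ∀ a : MvPolynomial τ F ⧸ P,
      IsIntegral (Algebra.adjoin F (Set.range fun i => mk (u i))) a := by
    intro a
    obtain ⟨f, rfl⟩ := Ideal.Quotient.mk_surjective a
    obtain ⟨Q, hQ, hQ0⟩ := integral_of_no_zero G D hG u he hu h0
      (Ideal.Quotient.mkₐ F (Ideal.span (Set.range G)) f)
    let fac : (MvPolynomial τ F ⧸ I) →ₐ[F] (MvPolynomial τ F ⧸ P) := Ideal.Quotient.factorₐ F hIP
    have hfac : ∀ g, fac (Ideal.Quotient.mkₐ F I g) = mk g := fun g => rfl
    let ρ : MvPolynomial ι F →+* Algebra.adjoin F (Set.range fun i => mk (u i)) :=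
      (aeval fun i => (⟨mk (u i), Algebra.subset_adjoin ⟨i, rfl⟩⟩ :
        Algebra.adjoin F (Set.range fun i => mk (u i)))).toRingHom
    refine ⟨Q.map ρ, hQ.map ρ, ?_⟩
    rw [Polynomial.eval₂_map]
    have h1 := congrArg fac hQ0
    rw [map_zero] at h1
    rw [← h1]
    change _ = fac.toRingHom _
    rw [Polynomial.hom_eval₂]
    congr 1
    · ext i
      · simp [ρ]
        exact (fac.commutes i).symm
      · simp [ρ]
        rfl
  have hint' : Algebra.IsIntegral (Algebra.adjoin F (Set.range fun i => mk (u i)))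
      (MvPolynomial τ F ⧸ P) := ⟨hint⟩
  have h1 : Algebra.trdeg F (MvPolynomial τ F ⧸ P) ≤ Cardinal.mk (Set.range fun i => mk (u i)) :=
    Algebra.IsAlgebraic.trdeg_le_cardinalMk F _
  have h2 : Cardinal.mk β ≤ Algebra.trdeg F (MvPolynomial τ F ⧸ P) := hind.cardinalMk_le_trdeg
  have h3 : Cardinal.mk (Set.range fun i => mk (u i)) ≤ Cardinal.mk ι := Cardinal.mk_range_le
  have h4 : Cardinal.mk β ≤ Cardinal.mk ι := h2.trans (h1.trans h3)
  have h5 : Nat.card β ≤ Nat.card ι := by
    have := Cardinal.toNat_le_toNat h4 (Cardinal.lt_aleph0_of_finite ι)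
    exact this
  omega

end Fin

section Dim

variable {F : Type} [Field F] [IsAlgClosed F] {τ : Type} [Fintype τ]

/-- forms of the same degree -/
theorem same_degree {κ : Type} [Finite κ] (q : κ → MvPolynomial τ F) (hq : ∀ j, IsForm (q j)) :
    ∃ N, 0 < N ∧ ∃ u : κ → MvPolynomial τ F, (∀ j, (u j).IsHomogeneous N) ∧
      ∀ w : τ → F, ∀ j, eval w (u j) = 0 ↔ eval w (q j) = 0 := by
  classical
  have := Fintype.ofFinite κ
  choose D hD hDq using hq
  refine ⟨∏ j, D j, Finset.prod_pos fun j _ => hD j, fun j => q j ^ (∏ k ∈ Finset.univ.erase j, D k),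
    fun j => ?_, fun w j => ?_⟩
  · have h1 := (hDq j).pow (∏ k ∈ Finset.univ.erase j, D k)
    rwa [Finset.mul_prod_erase _ _ (Finset.mem_univ j)] at h1
  · rw [map_pow]
    exact pow_eq_zero_iff (Finset.prod_pos fun k _ => hD k).ne'

/-- The closed cone is the zero set of finitely many forms `G k`. -/
def IsVar {κ : Type} (G : κ → MvPolynomial τ F) (Y : Set (τ → F)) : Prop :=
  ∀ y, y ∈ Y ↔ ∀ k, eval y (G k) = 0

theorem dimGE_of_dominant {κ : Type} [Finite κ] {Y : Set (τ → F)} (G : κ → MvPolynomial τ F)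
    (hG : ∀ k, IsForm (G k)) (hY : IsVar G Y) {d : ℕ} {β : Type} [Finite β]
    (hc : Nat.card β = d + 1) (Φ : β → MvPolynomial τ F)
    (hΦ : ∀ b : β → F, ∃ y ∈ Y, ∀ i, eval y (Φ i) = b i) : DimGE Y d := by
  classical
  intro q hq
  by_contra hno
  push Not at hno
  obtain ⟨N, hN, u, hu, hu0⟩ := same_degree q hq
  choose D hD hDG using hG
  obtain ⟨R, hR, hR0⟩ := rel_exists G D hDG u hN hu (fun w hw hwu => by
    by_contra hw0
    obtain ⟨j, hj⟩ := hno w ((hY w).2 hw) hw0
    exact hj ((hu0 w j).1 (hwu j))) (β := β) (by rw [Nat.card_fin, hc]; omega) Φ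
  apply hR
  apply MvPolynomial.funext
  intro b
  obtain ⟨y, hy, hyb⟩ := hΦ b
  have h1 := hR0 y ((hY y).1 hy)
  have h2 : (fun i => eval y (Φ i)) = b := funext hyb
  rw [h2] at h1
  rw [h1, map_zero]

theorem surj_of_dim {Y : Set (τ → F)} (hcone : ∀ a : F, ∀ y ∈ Y, a • y ∈ Y) {d : ℕ}
    (hY : DimGE Y d) (φ : Fin (d + 1) → MvPolynomial τ F) {N : ℕ} (hN : 0 < N)
    (hφ : ∀ j, (φ j).IsHomogeneous N) (h0 : ∀ y ∈ Y, (∀ j, eval y (φ j) = 0) → y = 0)
    (b : Fin (d + 1) → F) : ∃ y ∈ Y, ∀ j, eval y (φ j) = b j := by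
  classical
  by_cases hb : b = 0
  · obtain ⟨y, hy, -⟩ := hY (fun _ => φ 0) fun _ => ⟨N, hN, hφ 0⟩
    refine ⟨0, ?_, fun j => ?_⟩
    · have := hcone 0 y hy
      rwa [zero_smul] at this
    · rw [hb]
      exact form_zero ⟨N, hN, hφ j⟩
  · obtain ⟨j₀, hj₀⟩ : ∃ j, b j ≠ 0 := by
      by_contra h
      push Not at h
      exact hb (funext h)
    obtain ⟨y, hy, hy0, hyq⟩ := hY (fun j => C (b j₀) * φ (j₀.succAbove j) -
      C (b (j₀.succAbove j)) * φ j₀) fun j => by
        refine ⟨N, hN, ?_⟩
        have h1 := (isHomogeneous_C τ (b j₀)).mul (hφ (j₀.succAbove j))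
        have h2 := (isHomogeneous_C τ (b (j₀.succAbove j))).mul (hφ j₀)
        rw [zero_add] at h1 h2
        exact h1.sub h2
    have h1 : ∀ j, b j₀ * eval y (φ j) = b j * eval y (φ j₀) := by
      intro j
      rcases eq_or_ne j j₀ with rfl | hj
      · rfl
      · obtain ⟨k, rfl⟩ := Fin.exists_succAbove_eq hj
        have := hyq k
        simpa [sub_eq_zero] using this
    have h2 : eval y (φ j₀) ≠ 0 := by
      intro h3
      refine hy0 (h0 y hy fun j => ?_)
      have h4 := h1 j
      rw [h3, mul_zero] at h4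
      exact (mul_eq_zero.1 h4).resolve_left hj₀
    obtain ⟨l, hl⟩ := IsAlgClosed.exists_pow_nat_eq (b j₀ / eval y (φ j₀)) hN
    refine ⟨l • y, hcone l y hy, fun j => ?_⟩
    have h3 : eval (l • y) (φ j) = l ^ N * eval y (φ j) := eval_smul_of_homogeneous (hφ j) l y
    rw [h3, hl]
    field_simp
    linear_combination h1 j

end Dim

end Pool.Agent.X271.TQ
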