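import Pool.Agent.X271.TqOps

/-!
# Images of approximable cones
-/

set_option autoImplicit false
set_option linter.unusedSectionVars false

namespace Pool.Agent.X271.TQ

open MvPolynomial Pool.Agent.Y129.TA
open Pool.Agent.Y129.TB (IsConeOver InTube Approximable DimLEOver form_map eval_map_alg BaseField
  approx imageOver imageOver_cone)

/-- the image under `(z, y) ↦ (y_i ^ e)` -/
def powImage {L : Type} [Field L] {α ι : Type} (e : ℕ) (X : Set (α ⊕ ι → L)) : Set (ι → L) :=
  {x | ∃ w ∈ X, ∀ i, x i = w (Sum.inr i) ^ e}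

section Pow

variable {L L' : Type} [Field L] [Field L'] [Algebra L L'] [IsAlgClosed L'] {α ι : Type}
  [Fintype α] [Fintype ι]

/-- no point of `X` in the center of the projection -/
def Free (X : Set (α ⊕ ι → L')) : Prop := ∀ w ∈ X, (∀ i, w (Sum.inr i) = 0) → w = 0

/-- the form `P(y^e)` -/
noncomputable def pw (e : ℕ) (P : MvPolynomial ι L) : MvPolynomial (α ⊕ ι) L :=
  aeval (fun i => (MvPolynomial.X (Sum.inr i) : MvPolynomial (α ⊕ ι) L) ^ e) P

theorem pw_form {e : ℕ} (he : 0 < e) {P : MvPolynomial ι L} (hP : IsForm P) :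
    IsForm (pw e P : MvPolynomial (α ⊕ ι) L) := by
  obtain ⟨D, hD, hPD⟩ := hP
  exact ⟨e * D, Nat.mul_pos he hD, hPD.aeval _ fun i => isHomogeneous_X_pow _ _⟩

theorem aeval_pw (e : ℕ) (P : MvPolynomial ι L) (w : α ⊕ ι → L') :
    aeval w (pw e P : MvPolynomial (α ⊕ ι) L) = aeval (fun i => w (Sum.inr i) ^ e) P := by
  have h : ((aeval w : MvPolynomial (α ⊕ ι) L →ₐ[L] L').comp
      (aeval (fun i => (MvPolynomial.X (Sum.inr i) : MvPolynomial (α ⊕ ι) L) ^ e))) =
        aeval fun i => w (Sum.inr i) ^ e := by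
    ext i
    simp
  exact congrArg (fun ψ : MvPolynomial ι L →ₐ[L] L' => ψ P) h

theorem powImage_cone {X : Set (α ⊕ ι → L')} (hX : IsConeOver L X) (hne : X.Nonempty) {e : ℕ}
    (he : 0 < e) (h0 : Free X) : IsConeOver L (powImage e X) := by
  obtain ⟨r, G, hG, hGX⟩ := exists_forms hX hne
  have h1 := imageOver_cone (F := L') (h := G)
    (f := fun i => (MvPolynomial.X (Sum.inr i) : MvPolynomial (α ⊕ ι) L) ^ e) hG
    (fun i => isHomogeneous_X_pow _ _) he (fun w hw hw' => by
      refine h0 w ((hGX w).2 hw) fun i => ?_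
      have := hw' i
      rw [map_pow, aeval_X] at this
      exact pow_eq_zero_iff he.ne' |>.1 this)
  have h2 : imageOver L' G (fun i => (MvPolynomial.X (Sum.inr i) : MvPolynomial (α ⊕ ι) L) ^ e) =
      powImage e X := by
    ext x
    refine exists_congr fun w => and_congr (hGX w).symm (forall_congr' fun i => ?_)
    rw [map_pow, aeval_X]
  rwa [h2] at h1

theorem powImage_dimGE {X : Set (α ⊕ ι → L')} {d : ℕ} (hX : DimGE X d) {e : ℕ} (he : 0 < e)
    (h0 : Free X) : DimGE (powImage e X) d := by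
  intro q hq
  obtain ⟨w, hw, hw0, hwq⟩ := hX (fun j => pw e (q j)) fun j => pw_form he (hq j)
  refine ⟨fun i => w (Sum.inr i) ^ e, ⟨w, hw, fun i => rfl⟩, fun h => ?_, fun j => ?_⟩
  · refine hw0 (h0 w hw fun i => ?_)
    exact pow_eq_zero_iff he.ne' |>.1 (congrFun h i)
  · have h1 := hwq j
    have h2 := aeval_pw (L := L') (L' := L') e (q j) w
    rw [aeval_eq_eval, aeval_eq_eval] at h2
    rw [← h2]
    exact h1

end Pow

variable {p : ℕ} [hp : Fact p.Prime] {C F K E : Type} [Field C] [Field F] [CharP F p] [Field K]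
  [Field E] [Algebra K C] [Algebra E F] {α ι : Type} [Fintype α] [Fintype ι]

/-- images under `(z, y) ↦ (y_i ^ e)` -/
theorem Good.powImage [IsAlgClosed C] [IsAlgClosed F] (T : Tilting p C F) (B : BaseField T K E)
    [Nonempty ι] {X : Set (α ⊕ ι → C)} {d : ℕ} (h : Good T.toTiltPair K E X d) {e : ℕ}
    (he : 0 < e) (h0 : Free X) (hle : DimLEOver K (powImage e X) d) :
    Good T.toTiltPair K E (powImage e X) d := by
  classical
  have hcone := powImage_cone h.cone ⟨0, h.zero_mem⟩ he h0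
  have hz0 : (0 : ι → C) ∈ TQ.powImage e X :=
    ⟨0, h.zero_mem, fun i => (zero_pow he.ne').symm⟩
  refine ⟨hcone, powImage_dimGE h.ge he h0, hle, ?_⟩
  obtain ⟨r, G, hG, hGX⟩ := exists_forms h.cone ⟨0, h.zero_mem⟩
  obtain ⟨s, S, hS, hSX⟩ := exists_forms hcone ⟨0, hz0⟩
  choose DS hDS hSD using hS
  refine approx_of_system T B hSX hz0 hle fun δ hδ => ?_
  -- the coordinates `y` are not all small
  choose δ₁ hδ₁ h1 using fun t : α ⊕ ι => smallK T.toTiltPair
    (Sum.elim G fun i => (MvPolynomial.X (Sum.inr i) : MvPolynomial (α ⊕ ι) K) ^ e)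
    (MvPolynomial.X t) (fun v hv => by
      have h2 : v = 0 := h0 v ((hGX v).2 fun k => hv (Sum.inl k)) fun i => by
        have := hv (Sum.inr i)
        rw [Sum.elim_inr, map_pow, aeval_X] at this
        exact pow_eq_zero_iff he.ne' |>.1 this
      rw [h2, aeval_X]
      rfl) (show (0 : ℝ) < 1 / 2 by norm_num)
  obtain ⟨δa, hδa, hδa'⟩ := exists_pos_le δ₁ hδ₁
  set c : ℝ := min δa 1 with hc
  have hc0 : 0 < c := lt_min hδa one_pos
  choose δ₂ hδ₂ h2 using fun k : Fin s => smallK T.toTiltPair G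
    (pw e (S k) : MvPolynomial (α ⊕ ι) K) (fun v hv => by
      rw [aeval_pw]
      exact (hSX _).1 ⟨v, (hGX v).2 hv, fun i => rfl⟩ k)
      (show (0 : ℝ) < δ * c ^ DS k by positivity)
  obtain ⟨δb, hδb, hδb'⟩ := exists_pos_le δ₂ hδ₂
  obtain ⟨W, a1, a2, a3, a4⟩ := system_of_approx T.toTiltPair hG
    (fun x hx => (hGX x).1 hx) h.app (lt_min hδa hδb)
  have key : ∀ w ∈ W, w ≠ 0 → ∃ a : F, a ≠ 0 ∧ (∀ t, T.absF (a * w t) ≤ 1) ∧
      ∃ i, c < T.absF (a ^ e * w (Sum.inr i) ^ e) := by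
    intro w hw hw0
    obtain ⟨a, ha, ha1, t, ht⟩ := exists_normal T.toTiltPair hw0
    refine ⟨a, ha, ha1, ?_⟩
    by_contra hno
    push Not at hno
    have h3 := h1 t (fun t => T.sharp (a * w t)) (fun i => by rw [T.abs_sharp]; exact ha1 i) (by
      rintro (k | i)
      · exact (a4 (a • w) (a1.2 a w hw) ha1 k).trans ((min_le_left _ _).trans (hδa' t))
      · rw [Sum.elim_inr, map_pow, aeval_X, ← map_pow, T.abs_sharp, mul_pow]
        exact (hno i).trans ((min_le_left _ _).trans (hδa' t)))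
    rw [aeval_X, T.abs_sharp, ht] at h3
    norm_num at h3
  have hfree : Free W := by
    intro w hw hwi
    by_contra hw0
    obtain ⟨a, _, _, i, hi⟩ := key w hw hw0
    rw [hwi i, zero_pow he.ne', mul_zero, map_zero] at hi
    exact absurd hi (not_lt.2 hc0.le)
  refine ⟨TQ.powImage e W, powImage_cone a1 (DimGE.nonempty a2) he hfree,
    powImage_dimGE a2 he hfree, ?_⟩
  rintro y ⟨w, hw, hyw⟩ hy1 k
  by_cases hw0 : w = 0
  · have hy0 : (fun i => T.sharp (y i)) = (0 : ι → C) := by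
      funext i
      rw [hyw i, hw0, Pi.zero_apply, zero_pow he.ne']
      exact T.toTiltPair.sharp_zero
    rw [hy0, aeval_zero_form ⟨DS k, hDS k, hSD k⟩, map_zero]
    exact hδ.le
  · obtain ⟨a, ha, ha1, i, hi⟩ := key w hw hw0
    have h3 := h2 k (fun t => T.sharp (a * w t)) (fun i => by rw [T.abs_sharp]; exact ha1 i)
      fun l => (a4 (a • w) (a1.2 a w hw) ha1 l).trans ((min_le_right _ _).trans (hδb' k))
    rw [aeval_pw] at h3
    have h4 : (fun i => T.sharp (a * w (Sum.inr i)) ^ e) =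
        T.sharp (a ^ e) • fun i => T.sharp (y i) := by
      funext i
      rw [Pi.smul_apply, smul_eq_mul, hyw i, map_pow, map_pow, map_mul, mul_pow]
    rw [h4, hom_smul (hSD k), map_mul, map_pow, T.abs_sharp] at h3
    have hA : 0 < T.absF (a ^ e) := T.absF.pos (pow_ne_zero e ha)
    have h5 : c ≤ T.absF (a ^ e) := by
      refine hi.le.trans ?_
      rw [map_mul, ← hyw i]
      exact mul_le_of_le_one_right hA.le (hy1 i)
    have h6 : T.absF (a ^ e) ^ DS k * T.absK (aeval (fun i => T.sharp (y i)) (S k)) ≤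
        T.absF (a ^ e) ^ DS k * δ := by
      refine h3.trans ?_
      rw [mul_comm]
      exact mul_le_mul_of_nonneg_right (pow_le_pow_left₀ hc0.le h5 _) hδ.le
    exact le_of_mul_le_mul_left h6 (pow_pos hA _)

end Pool.Agent.X271.TQ
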