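import Pool.Agent.X271.TqApp

/-!
# Operations on approximable cones
-/

set_option autoImplicit false
set_option linter.unusedSectionVars false

namespace Pool.Agent.X271.TQ

open MvPolynomial Pool.Agent.Y129.TA
open Pool.Agent.Y129.TB (IsConeOver InTube Approximable DimLEOver form_map eval_map_alg BaseField
  approx imageOver imageOver_cone)

variable {p : ℕ} [hp : Fact p.Prime] {C F K E : Type} [Field C] [Field F] [CharP F p] [Field K]
  [Field E] [Algebra K C] [Algebra E F] {ι κ : Type} [Fintype ι] [Fintype κ]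

theorem inTube_of_small [IsAlgClosed C] [IsAlgClosed F] (T : TiltPair p C F) [Nonempty ι]
    {P : MvPolynomial ι K} {D : ℕ} (hP : P.IsHomogeneous D) {ε : ℝ} (hε : 0 < ε) {y : ι → F}
    (h0 : aeval (0 : ι → C) P = 0)
    (h : ∀ a : F, a ≠ 0 → (∀ i, T.absF (a * y i) ≤ 1) → (∃ i, T.absF (a * y i) = 1) →
      T.absK (aeval (fun i => T.sharp (a * y i)) P) ≤ ε) : InTube T P D ε y := by
  intro B hB
  have hB0 : 0 ≤ B := (T.absF.nonneg _).trans (hB (Classical.arbitrary ι))
  by_cases hy : y = 0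
  · have h1 : (fun i => T.sharp (y i)) = (0 : ι → C) := by
      funext i
      rw [hy]
      exact T.sharp_zero
    rw [h1, h0, map_zero]
    positivity
  · obtain ⟨a, ha, h1, t, ht⟩ := exists_normal T hy
    have h2 := h a ha h1 ⟨t, ht⟩
    have h3 : (fun i => T.sharp (a * y i)) = T.sharp a • fun i => T.sharp (y i) := by
      funext i
      rw [map_mul]
      rfl
    rw [h3, hom_smul hP, map_mul, map_pow, T.abs_sharp] at h2
    have hA : 0 < T.absF a := T.absF.pos ha
    have h4 : 1 ≤ T.absF a * B := by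
      rw [← ht, map_mul]
      exact mul_le_mul_of_nonneg_left (hB t) hA.le
    have h5 : T.absF a ^ D * T.absK (aeval (fun i => T.sharp (y i)) P) ≤
        T.absF a ^ D * (ε * B ^ D) := by
      refine h2.trans ?_
      calc ε = ε * 1 ^ D := by rw [one_pow, mul_one]
        _ ≤ ε * (T.absF a * B) ^ D :=
            mul_le_mul_of_nonneg_left (pow_le_pow_left₀ zero_le_one h4 _) hε.le
        _ = T.absF a ^ D * (ε * B ^ D) := by rw [mul_pow]; ring
    exact le_of_mul_le_mul_left h5 (pow_pos hA _)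

/-- `W` approximates the zero set of the `S k` with error `δ`. -/
def Near (T : TiltPair p C F) (S : κ → MvPolynomial ι K) (δ : ℝ) (W : Set (ι → F)) : Prop :=
  ∀ w ∈ W, (∀ i, T.absF (w i) ≤ 1) → ∀ k, T.absK (aeval (fun i => T.sharp (w i)) (S k)) ≤ δ

/-- the Nullstellensatz over `C` for polynomials over `K` -/
theorem smallK [IsAlgClosed C] (T : TiltPair p C F) (S : κ → MvPolynomial ι K)
    (Q : MvPolynomial ι K) (hQ : ∀ v : ι → C, (∀ k, aeval v (S k) = 0) → aeval v Q = 0) {η : ℝ}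
    (hη : 0 < η) : ∃ δ : ℝ, 0 < δ ∧ ∀ v : ι → C, (∀ i, T.absK (v i) ≤ 1) →
      (∀ k, T.absK (aeval v (S k)) ≤ δ) → T.absK (aeval v Q) ≤ η := by
  obtain ⟨δ, hδ, h⟩ := small T.ultraK (fun k => MvPolynomial.map (algebraMap K C) (S k))
    (MvPolynomial.map (algebraMap K C) Q) (fun v hv => by
      rw [eval_map_alg]
      exact hQ v fun k => by rw [← eval_map_alg]; exact hv k) hη
  refine ⟨δ, hδ, fun v hv hk => ?_⟩
  rw [← eval_map_alg]
  exact h v hv fun k => by rw [eval_map_alg]; exact hk k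

theorem approx_of_system [IsAlgClosed C] [IsAlgClosed F] (T : Tilting p C F)
    (B : BaseField T K E) [Nonempty ι] {S : κ → MvPolynomial ι K} {X : Set (ι → C)}
    (hX : IsZero C S X) (h0 : (0 : ι → C) ∈ X) {d : ℕ} (hd : DimLEOver K X d)
    (hW : ∀ δ : ℝ, 0 < δ → ∃ W : Set (ι → F), IsConeOver E W ∧ DimGE W d ∧
      Near T.toTiltPair S δ W) : Approximable T.toTiltPair K E X d := by
  classical
  intro r P D hPD hPX ε hε
  obtain ⟨q, hq, hq0⟩ := hd
  choose δ₁ hδ₁ h1 using fun k => smallK T.toTiltPair S (P k)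
    (fun v hv => hPX k v ((hX v).2 hv)) hε
  obtain ⟨δa, hδa, hδa'⟩ := exists_pos_le δ₁ hδ₁
  choose δ₂ hδ₂ h2 using fun t : ι => smallK T.toTiltPair (Sum.elim S q)
    (MvPolynomial.X t)
    (fun v hv => by
      rw [hq0 v ((hX v).2 fun k => hv (Sum.inl k)) fun j => hv (Sum.inr j), aeval_X]
      rfl) (show (0 : ℝ) < 1 / 2 by norm_num)
  obtain ⟨δb, hδb, hδb'⟩ := exists_pos_le δ₂ hδ₂
  obtain ⟨W, hWc, hWd, hWn⟩ := hW (min δa δb) (lt_min hδa hδb)
  have a2 : ∀ j : Fin (d + 1), ∃ D, 0 < D ∧ ∃ g : MvPolynomial ι E, g.IsHomogeneous D ∧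
      ∀ t : ι → F, (∀ i, T.absF (t i) ≤ 1) → aeval t g = 0 →
        T.absK (aeval (fun i => T.sharp (t i)) (q j)) ≤ δb := by
    intro j
    obtain ⟨D, hD, hD'⟩ := hq j
    exact approx T B hD hD' hδb
  choose Dg hDg g hg hga using a2
  refine ⟨W, hWc, hWd, ⟨fun j => MvPolynomial.map (algebraMap E F) (g j),
      fun j => form_map ⟨Dg j, hDg j, hg j⟩, fun w hw hgw => ?_⟩, fun w hw k => ?_⟩
  · by_contra hw0
    obtain ⟨a, ha, ha1, t, ht⟩ := exists_normal T.toTiltPair hw0
    have h3 := h2 t (fun i => T.sharp (a * w i)) (fun i => by rw [T.abs_sharp]; exact ha1 i) (by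
      rintro (k | j)
      · exact (hWn (a • w) (hWc.2 a w hw) ha1 k).trans ((min_le_right _ _).trans (hδb' t))
      · rw [Sum.elim_inr]
        refine (hga j (a • w) ha1 ?_).trans (hδb' t)
        have := hgw j
        rw [eval_map_alg] at this
        rw [hom_smul (hg j), this, mul_zero])
    rw [aeval_X, T.abs_sharp, ht] at h3
    norm_num at h3
  · refine inTube_of_small T.toTiltPair (hPD k) hε (hPX k 0 h0) fun a ha ha1 _ => ?_
    refine h1 k _ (fun i => by rw [T.abs_sharp]; exact ha1 i) fun l => ?_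
    exact (hWn (a • w) (hWc.2 a w hw) ha1 l).trans ((min_le_left _ _).trans (hδa' k))

theorem system_of_approx (T : TiltPair p C F) {S : κ → MvPolynomial ι K}
    (hS : ∀ k, IsForm (S k)) {X : Set (ι → C)} (hX : ∀ x ∈ X, ∀ k, aeval x (S k) = 0) {d : ℕ}
    (hA : Approximable T K E X d) {δ : ℝ} (hδ : 0 < δ) :
    ∃ W : Set (ι → F), IsConeOver E W ∧ DimGE W d ∧ DimLE W d ∧ Near T S δ W := by
  classical
  choose D hD hSD using hS
  let e := Fintype.equivFin κ
  obtain ⟨W, h1, h2, h3, h4⟩ := hA (Fintype.card κ) (fun k => S (e.symm k)) (fun k => D (e.symm k))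
    (fun k => hSD _) (fun k x hx => hX x hx _) δ hδ
  refine ⟨W, h1, h2, h3, fun w hw hw1 k => ?_⟩
  have h5 := h4 w hw (e k) 1 hw1
  rw [one_pow, mul_one, e.symm_apply_apply] at h5
  exact h5

/-- `X` is closed, defined over `K`, of dimension `d`, and Q1 holds for `X`. -/
structure Good (T : TiltPair p C F) (K E : Type) [Field K] [Field E] [Algebra K C] [Algebra E F]
    (X : Set (ι → C)) (d : ℕ) : Prop where
  cone : IsConeOver K X
  ge : DimGE X d
  le : DimLEOver K X d
  app : Approximable T K E X d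

theorem DimLEOver.dimLE {X : Set (ι → C)} {d : ℕ} (h : DimLEOver K X d) : DimLE X d := by
  obtain ⟨q, hq, h0⟩ := h
  exact ⟨fun j => MvPolynomial.map (algebraMap K C) (q j), fun j => form_map (hq j),
    fun y hy hj => h0 y hy fun j => by rw [← eval_map_alg]; exact hj j⟩

theorem Good.zero_mem [IsAlgClosed C] {T : TiltPair p C F} {X : Set (ι → C)} {d : ℕ} (h : Good T K E X d) :
    (0 : ι → C) ∈ X := by
  obtain ⟨y, hy⟩ := DimGE.nonempty h.ge
  have := h.cone.2 0 y hy
  rwa [zero_smul] at this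

/-- joins -/
theorem Good.join [IsAlgClosed C] [IsAlgClosed F] (T : Tilting p C F) (B : BaseField T K E)
    {β : Type} [Fintype β] [Nonempty ι] {X : Set (ι → C)} {X' : Set (β → C)} {d d' : ℕ}
    (h : Good T.toTiltPair K E X d) (h' : Good T.toTiltPair K E X' d') :
    Good T.toTiltPair K E (joinSet X X') (d + d' + 1) := by
  classical
  obtain ⟨r, G, hG, hGX⟩ := exists_forms h.cone ⟨0, h.zero_mem⟩
  obtain ⟨r', G', hG', hGX'⟩ := exists_forms h'.cone ⟨0, h'.zero_mem⟩
  have hv := join_isZero hGX hGX'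
  have h0 : (0 : ι ⊕ β → C) ∈ joinSet X X' := ⟨h.zero_mem, h'.zero_mem⟩
  have hle : DimLEOver K (joinSet X X') (d + d' + 1) := by
    obtain ⟨q, hq, hq0⟩ := h.le
    obtain ⟨q', hq', hq0'⟩ := h'.le
    let e : Fin (d + d' + 1 + 1) ≃ Fin (d + 1) ⊕ Fin (d' + 1) :=
      (finCongr (by omega)).trans finSumFinEquiv.symm
    refine ⟨fun j => Sum.elim (fun k => rename Sum.inl (q k)) (fun k => rename Sum.inr (q' k))
      (e j), fun j => join_form hq hq' _, fun v hv hq => ?_⟩
    have h1 : (fun i => v (Sum.inl i)) = 0 := hq0 _ hv.1 fun k => by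
      have h3 := hq (e.symm (Sum.inl k))
      simp only [Equiv.apply_symm_apply, Sum.elim_inl, aeval_rename] at h3
      exact h3
    have h2 : (fun i => v (Sum.inr i)) = 0 := hq0' _ hv.2 fun k => by
      have h3 := hq (e.symm (Sum.inr k))
      simp only [Equiv.apply_symm_apply, Sum.elim_inr, aeval_rename] at h3
      exact h3
    funext t
    rcases t with i | i
    · exact congrFun h1 i
    · exact congrFun h2 i
  refine ⟨hv.cone (join_form hG hG'), dimGE_join h.cone h'.cone h.ge (DimLEOver.dimLE h.le) h'.ge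
    (DimLEOver.dimLE h'.le), hle, ?_⟩
  refine approx_of_system T B hv h0 hle fun δ hδ => ?_
  obtain ⟨W, a1, a2, a3, a4⟩ := system_of_approx T.toTiltPair hG
    (fun x hx => (hGX x).1 hx) h.app hδ
  obtain ⟨W', b1, b2, b3, b4⟩ := system_of_approx T.toTiltPair hG'
    (fun x hx => (hGX' x).1 hx) h'.app hδ
  obtain ⟨s, H, hH, hHW⟩ := exists_forms a1 (DimGE.nonempty a2)
  obtain ⟨s', H', hH', hHW'⟩ := exists_forms b1 (DimGE.nonempty b2)
  refine ⟨joinSet W W', (join_isZero hHW hHW').cone (join_form hH hH'),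
    dimGE_join a1 b1 a2 a3 b2 b3, ?_⟩
  rintro w hw hw1 (k | k)
  · rw [Sum.elim_inl, aeval_rename]
    exact a4 _ hw.1 (fun i => hw1 _) k
  · rw [Sum.elim_inr, aeval_rename]
    exact b4 _ hw.2 (fun i => hw1 _) k

theorem cone_section {L L' : Type} [Field L] [Field L'] [Algebra L L'] [IsAlgClosed L']
    {X : Set (ι → L')} (hX : IsConeOver L X) (h : κ → MvPolynomial ι L) (hh : ∀ k, IsForm (h k)) :
    IsConeOver L {x | x ∈ X ∧ ∀ k, aeval x (h k) = 0} := by
  obtain ⟨⟨J, rfl⟩, hc⟩ := hX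
  refine ⟨⟨J ⊔ Ideal.span (Set.range h), ?_⟩, ?_⟩
  · ext x
    rw [Set.mem_ofPred_eq, mem_zeroLocus_iff, mem_zeroLocus_iff]
    constructor
    · rintro ⟨h1, h2⟩ f hf
      have h3 : J ⊔ Ideal.span (Set.range h) ≤
          RingHom.ker (aeval x : MvPolynomial ι L →ₐ[L] L') := by
        rw [sup_le_iff, Ideal.span_le]
        refine ⟨h1, ?_⟩
        rintro _ ⟨k, rfl⟩
        exact h2 k
      exact h3 hf
    · intro h1
      exact ⟨fun f hf => h1 f (Ideal.mem_sup_left hf),
        fun k => h1 _ (Ideal.mem_sup_right (Ideal.subset_span ⟨k, rfl⟩))⟩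
  · rintro a x ⟨hx, h2⟩
    refine ⟨hc a x hx, fun k => ?_⟩
    obtain ⟨D, -, hD⟩ := hh k
    rw [hom_smul hD, h2 k, mul_zero]

theorem dimGE_section {L L' : Type} [Field L] [Field L'] [Algebra L L'] [IsAlgClosed L']
    {X : Set (ι → L')} {d d' : ℕ} (hX : DimGE X d') (h : κ → MvPolynomial ι L)
    (hh : ∀ k, IsForm (h k)) (hd : Fintype.card κ + d ≤ d') :
    DimGE {x | x ∈ X ∧ ∀ k, aeval x (h k) = 0} d := by
  intro q hq
  obtain ⟨y, hy, hy0, hyq⟩ := DimGE.family hX (β := κ ⊕ Fin d)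
    (by rw [Fintype.card_sum, Fintype.card_fin]; exact hd)
    (Sum.elim (fun k => MvPolynomial.map (algebraMap L L') (h k)) q) (by
      rintro (k | j)
      · exact form_map (hh k)
      · exact hq j)
  refine ⟨y, ⟨hy, fun k => ?_⟩, hy0, fun j => hyq (Sum.inr j)⟩
  have := hyq (Sum.inl k)
  rwa [Sum.elim_inl, eval_map_alg] at this

/-- sections -/
theorem Good.section [IsAlgClosed C] [IsAlgClosed F] (T : Tilting p C F) (B : BaseField T K E)
    [Nonempty ι] {X : Set (ι → C)} {d d' : ℕ} (h : Good T.toTiltPair K E X d')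
    (g : κ → MvPolynomial ι K) (hg : ∀ k, IsForm (g k)) (hd : Fintype.card κ + d ≤ d')
    (hle : DimLEOver K {x | x ∈ X ∧ ∀ k, aeval x (g k) = 0} d) :
    Good T.toTiltPair K E {x | x ∈ X ∧ ∀ k, aeval x (g k) = 0} d := by
  classical
  refine ⟨cone_section h.cone g hg, dimGE_section h.ge g hg hd, hle, ?_⟩
  obtain ⟨r, G, hG, hGX⟩ := exists_forms h.cone ⟨0, h.zero_mem⟩
  have h0 : (0 : ι → C) ∈ {x | x ∈ X ∧ ∀ k, aeval x (g k) = 0} :=
    ⟨h.zero_mem, fun k => aeval_zero_form (hg k)⟩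
  refine approx_of_system T B (S := Sum.elim G g) (fun x => ?_) h0 hle fun δ hδ => ?_
  · rw [Set.mem_ofPred_eq, hGX]
    constructor
    · rintro ⟨h1, h2⟩ (k | k)
      · exact h1 k
      · exact h2 k
    · intro h1
      exact ⟨fun k => h1 (Sum.inl k), fun k => h1 (Sum.inr k)⟩
  · obtain ⟨W, a1, a2, a3, a4⟩ := system_of_approx T.toTiltPair hG
      (fun x hx => (hGX x).1 hx) h.app hδ
    have b : ∀ k, ∃ D, 0 < D ∧ ∃ H : MvPolynomial ι E, H.IsHomogeneous D ∧
        ∀ t : ι → F, (∀ i, T.absF (t i) ≤ 1) → aeval t H = 0 →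
          T.absK (aeval (fun i => T.sharp (t i)) (g k)) ≤ δ := by
      intro k
      obtain ⟨D, hD, hD'⟩ := hg k
      exact approx T B hD hD' hδ
    choose D hD H hH hHa using b
    refine ⟨{x | x ∈ W ∧ ∀ k, aeval x (H k) = 0}, cone_section a1 H fun k => ⟨D k, hD k, hH k⟩,
      dimGE_section a2 H (fun k => ⟨D k, hD k, hH k⟩) hd, ?_⟩
    rintro w ⟨hw, hwH⟩ hw1 (k | k)
    · exact a4 w hw hw1 k
    · exact hHa k w hw1 (hwH k)

end Pool.Agent.X271.TQ
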