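import Pool.Agent.X271.TqImg

/-!
# Inverse images of approximable cones under the power map; products
-/

set_option autoImplicit false
set_option linter.unusedSectionVars false

namespace Pool.Agent.X271.TQ

open MvPolynomial Pool.Agent.Y129.TA
open Pool.Agent.Y129.TB (IsConeOver InTube Approximable DimLEOver form_map eval_map_alg BaseField
  approx imageOver imageOver_cone)

/-- the inverse image under `s ↦ s^a` -/
def powPull {L : Type} [Field L] {ι : Type} (a : ℕ) (X : Set (ι → L)) : Set (ι → L) :=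
  {s | (fun i => s i ^ a) ∈ X}

section Pull

variable {L L' : Type} [Field L] [Field L'] [Algebra L L'] [IsAlgClosed L'] {ι κ : Type}
  [Fintype ι]

/-- the form `P(s^a)` -/
noncomputable def pl (a : ℕ) (P : MvPolynomial ι L) : MvPolynomial ι L :=
  aeval (fun i => (MvPolynomial.X i : MvPolynomial ι L) ^ a) P

theorem pl_hom {a : ℕ} {P : MvPolynomial ι L} {D : ℕ} (hP : P.IsHomogeneous D) :
    (pl a P).IsHomogeneous (a * D) := hP.aeval _ fun i => isHomogeneous_X_pow _ _

theorem pl_form {a : ℕ} (ha : 0 < a) {P : MvPolynomial ι L} (hP : IsForm P) :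
    IsForm (pl a P) := by
  obtain ⟨D, hD, hPD⟩ := hP
  exact ⟨a * D, Nat.mul_pos ha hD, pl_hom hPD⟩

theorem aeval_pl (a : ℕ) (P : MvPolynomial ι L) (w : ι → L') :
    aeval w (pl a P) = aeval (fun i => w i ^ a) P := by
  have h : ((aeval w : MvPolynomial ι L →ₐ[L] L').comp
      (aeval (fun i => (MvPolynomial.X i : MvPolynomial ι L) ^ a))) =
        aeval fun i => w i ^ a := by
    ext i
    simp
  exact congrArg (fun ψ : MvPolynomial ι L →ₐ[L] L' => ψ P) h

theorem powPull_isZero {G : κ → MvPolynomial ι L} {X : Set (ι → L')} (h : IsZero L' G X) (a : ℕ) :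
    IsZero L' (fun k => pl a (G k)) (powPull a X) := by
  intro s
  change (fun i => s i ^ a) ∈ X ↔ _
  rw [h]
  exact forall_congr' fun k => by rw [aeval_pl]

theorem powPull_dimGE {X : Set (ι → L')} (hX : IsConeOver L X) {d : ℕ} (h1 : DimGE X d)
    (h2 : DimLE X d) {a : ℕ} (ha : 0 < a) : DimGE (powPull a X) d := by
  classical
  obtain ⟨r, G, hG, hGX⟩ := exists_forms hX (DimGE.nonempty h1)
  obtain ⟨q, hq, hq0⟩ := h2
  obtain ⟨N, hN, u, hu, hu0⟩ := same_degree q hq
  refine dimGE_of_dominant _ (fun k => form_map (pl_form ha (hG k))) (powPull_isZero hGX a).isVar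
    (β := Fin (d + 1)) (by rw [Nat.card_eq_fintype_card, Fintype.card_fin])
    (fun j => pl a (u j)) fun b => ?_
  obtain ⟨y, hy, hyb⟩ := surj_of_dim hX.2 h1 u hN hu
    (fun y hy h => hq0 y hy fun j => (hu0 y j).1 (h j)) b
  choose s hs using fun i => IsAlgClosed.exists_pow_nat_eq (y i) ha
  have hsy : (fun i => s i ^ a) = y := funext hs
  refine ⟨s, show (fun i => s i ^ a) ∈ X by rw [hsy]; exact hy, fun j => ?_⟩
  have h3 := aeval_pl (L := L') (L' := L') a (u j) s
  rw [aeval_eq_eval, aeval_eq_eval, hsy] at h3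
  rw [← hyb j, ← h3]

end Pull

variable {p : ℕ} [hp : Fact p.Prime] {C F K E : Type} [Field C] [Field F] [CharP F p] [Field K]
  [Field E] [Algebra K C] [Algebra E F] {α β ι : Type} [Fintype α] [Fintype β] [Fintype ι]

/-- inverse images under `s ↦ s^a` -/
theorem Good.powPull [IsAlgClosed C] [IsAlgClosed F] (T : Tilting p C F) (B : BaseField T K E)
    [Nonempty ι] {X : Set (ι → C)} {d : ℕ} (h : Good T.toTiltPair K E X d) {a : ℕ}
    (ha : 0 < a) : Good T.toTiltPair K E (powPull a X) d := by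
  classical
  obtain ⟨r, G, hG, hGX⟩ := exists_forms h.cone ⟨0, h.zero_mem⟩
  have hv := powPull_isZero hGX a
  have hle : DimLEOver K (TQ.powPull a X) d := by
    obtain ⟨q, hq, hq0⟩ := h.le
    refine ⟨fun j => pl a (q j), fun j => pl_form ha (hq j), fun s hs hsq => ?_⟩
    have h1 : (fun i => s i ^ a) = 0 := hq0 _ hs fun j => by
      rw [← aeval_pl]
      exact hsq j
    funext i
    exact pow_eq_zero_iff ha.ne' |>.1 (congrFun h1 i)
  have h0 : (0 : ι → C) ∈ TQ.powPull a X := by
    change (fun i => (0 : ι → C) i ^ a) ∈ X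
    have h1 : (fun i => (0 : ι → C) i ^ a) = 0 := funext fun i => zero_pow ha.ne'
    rw [h1]
    exact h.zero_mem
  refine ⟨hv.cone fun k => pl_form ha (hG k), powPull_dimGE h.cone h.ge (DimLEOver.dimLE h.le) ha,
    hle, ?_⟩
  refine approx_of_system T B hv h0 hle fun δ hδ => ?_
  obtain ⟨W, a1, a2, a3, a4⟩ := system_of_approx T.toTiltPair hG
    (fun x hx => (hGX x).1 hx) h.app hδ
  obtain ⟨s, H, hH, hHW⟩ := exists_forms a1 (DimGE.nonempty a2)
  refine ⟨TQ.powPull a W, (powPull_isZero hHW a).cone fun k => pl_form ha (hH k),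
    powPull_dimGE a1 a2 a3 ha, ?_⟩
  intro w hw hw1 k
  rw [aeval_pl]
  have h1 := a4 _ hw (fun i => by
    rw [map_pow]
    exact pow_le_one₀ (T.absF.nonneg _) (hw1 i)) k
  simpa only [map_pow] using h1

end Pool.Agent.X271.TQ
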