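import Pool.Agent.X271.TqPull

/-!
# Products of approximable cones in the Segre embedding
-/

set_option autoImplicit false
set_option linter.unusedSectionVars false
set_option linter.unusedVariables false

namespace Pool.Agent.X271.TQ

open MvPolynomial Pool.Agent.Y129.TA
open Pool.Agent.Y129.TB (IsConeOver InTube Approximable DimLEOver form_map eval_map_alg BaseField
  approx imageOver imageOver_cone)

/-- the cone over the Segre product -/
def segre {L : Type} [Field L] {α β : Type} (X : Set (α → L)) (Y : Set (β → L)) :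
    Set (α × β → L) := {m | ∃ x ∈ X, ∃ y ∈ Y, ∀ t, m t = x t.1 * y t.2}

section Seg

variable {L L' : Type} [Field L] [Field L'] [Algebra L L'] {α β κ κ' : Type}
  [Fintype α] [Fintype β]

theorem mono_prod (M : ℕ) : ∀ (a : α →₀ ℕ) (b : β →₀ ℕ), ∑ i, a i = M → ∑ j, b j = M →
    ∃ R : MvPolynomial (α × β) L, R.IsHomogeneous M ∧ ∀ (x : α → L') (y : β → L'),
      aeval (fun t : α × β => x t.1 * y t.2) R = (∏ i, x i ^ a i) * ∏ j, y j ^ b j := by
  classical
  induction M with
  | zero =>
    intro a b ha hb
    refine ⟨1, isHomogeneous_one _ _, fun x y => ?_⟩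
    rw [Finset.sum_eq_zero_iff] at ha hb
    rw [map_one, Finset.prod_eq_one, Finset.prod_eq_one, one_mul]
    · intro j hj
      rw [hb j hj, pow_zero]
    · intro i hi
      rw [ha i hi, pow_zero]
  | succ M ih =>
    intro a b ha hb
    obtain ⟨i, hi⟩ : ∃ i, a i ≠ 0 := by
      by_contra h
      push Not at h
      rw [Finset.sum_eq_zero fun i _ => h i] at ha
      omega
    obtain ⟨j, hj⟩ : ∃ j, b j ≠ 0 := by
      by_contra h
      push Not at h
      rw [Finset.sum_eq_zero fun i _ => h i] at hb
      omega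
    have key : ∀ {γ : Type} [Fintype γ] (c : γ →₀ ℕ) (k : γ), c k ≠ 0 →
        ∑ l, c l = M + 1 → ∃ c' : γ →₀ ℕ, ∑ l, c' l = M ∧ ∀ z : γ → L',
          ∏ l, z l ^ c l = z k * ∏ l, z l ^ c' l := by
      intro γ _ c k hk hc
      refine ⟨c - Finsupp.single k 1, ?_, fun z => ?_⟩
      · have h1 : ∀ l, (c - Finsupp.single k 1 : γ →₀ ℕ) l + (if l = k then 1 else 0) = c l := by
          intro l
          rw [Finsupp.tsub_apply, Finsupp.single_apply]
          by_cases h : k = l
          · subst h
            simp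
            omega
          · rw [if_neg h, if_neg (Ne.symm h)]
            omega
        have h2 : ∑ l, ((c - Finsupp.single k 1 : γ →₀ ℕ) l + (if l = k then 1 else 0)) =
            M + 1 := by
          rw [← hc]
          exact Finset.sum_congr rfl fun l _ => h1 l
        rw [Finset.sum_add_distrib, Finset.sum_ite_eq' Finset.univ k, if_pos (Finset.mem_univ k)]
          at h2
        omega
      · rw [← Finset.mul_prod_erase _ _ (Finset.mem_univ k),
          ← Finset.mul_prod_erase Finset.univ (fun l => z l ^ (c - Finsupp.single k 1 : γ →₀ ℕ) l)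
            (Finset.mem_univ k), ← mul_assoc]
        congr 1
        · rw [← pow_succ', Finsupp.tsub_apply, Finsupp.single_eq_same]
          congr 1
          omega
        · refine Finset.prod_congr rfl fun l hl => ?_
          rw [Finsupp.tsub_apply, Finsupp.single_eq_of_ne (Finset.ne_of_mem_erase hl), tsub_zero]
    obtain ⟨a', ha', ha2⟩ := key a i hi ha
    obtain ⟨b', hb', hb2⟩ := key b j hj hb
    obtain ⟨R, hR, hRe⟩ := ih a' b' ha' hb'
    refine ⟨R * MvPolynomial.X (i, j), hR.mul (isHomogeneous_X _ _), fun x y => ?_⟩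
    rw [map_mul, hRe, aeval_X, ha2, hb2]
    ring

theorem poly_prod {M : ℕ} {P : MvPolynomial α L} {Q : MvPolynomial β L} (hP : P.IsHomogeneous M)
    (hQ : Q.IsHomogeneous M) : ∃ R : MvPolynomial (α × β) L, R.IsHomogeneous M ∧
      ∀ (x : α → L') (y : β → L'),
        aeval (fun t : α × β => x t.1 * y t.2) R = aeval x P * aeval y Q := by
  classical
  have h : ∀ a ∈ P.support, ∀ b ∈ Q.support, ∃ R : MvPolynomial (α × β) L,
      R.IsHomogeneous M ∧ ∀ (x : α → L') (y : β → L'),
        aeval (fun t : α × β => x t.1 * y t.2) R = (∏ i, x i ^ a i) * ∏ j, y j ^ b j :=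
    fun a ha b hb => mono_prod M a b (sum_of_homogeneous hP ha) (sum_of_homogeneous hQ hb)
  choose! R hR hRe using h
  refine ⟨∑ a ∈ P.support, ∑ b ∈ Q.support, C (coeff a P * coeff b Q) * R a b, ?_,
    fun x y => ?_⟩
  · refine IsHomogeneous.sum _ _ _ fun a ha => IsHomogeneous.sum _ _ _ fun b hb => ?_
    have := (isHomogeneous_C (α × β) (coeff a P * coeff b Q)).mul (hR a ha b hb)
    rwa [zero_add] at this
  · rw [map_sum, aeval_eq_sum x P, aeval_eq_sum y Q, Finset.sum_mul_sum]
    refine Finset.sum_congr rfl fun a ha => ?_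
    rw [map_sum]
    refine Finset.sum_congr rfl fun b hb => ?_
    rw [map_mul, hRe a ha b hb, aeval_C, map_mul]
    ring
where
  aeval_eq_sum {γ : Type} [Fintype γ] (z : γ → L') (P : MvPolynomial γ L) :
      aeval z P = ∑ a ∈ P.support, algebraMap L L' (coeff a P) * ∏ i, z i ^ a i := by
    rw [aeval_def, eval₂_eq']

end Seg

end Pool.Agent.X271.TQ
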