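import Pool.Agent.X271.TqSeg

/-!
# Products of approximable cones in the Segre embedding, II
-/

set_option autoImplicit false
set_option linter.unusedSectionVars false
set_option linter.unusedVariables false

namespace Pool.Agent.X271.TQ

open MvPolynomial Pool.Agent.Y129.TA
open Pool.Agent.Y129.TB (IsConeOver InTube Approximable DimLEOver form_map eval_map_alg BaseField
  approx imageOver imageOver_cone)

section Fac

theorem exists_factor {F : Type} [Field F] [IsAlgClosed F] (d d' : ℕ) : ∀ B : Polynomial F,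
    B.natDegree ≤ d + d' → ∃ P Q : Polynomial F, P.natDegree ≤ d ∧ Q.natDegree ≤ d' ∧
      B = P * Q := by
  induction d with
  | zero =>
    intro B hB
    exact ⟨1, B, by simp, by omega, by rw [one_mul]⟩
  | succ d ih =>
    intro B hB
    by_cases h : B.natDegree ≤ d + d'
    · obtain ⟨P, Q, h1, h2, h3⟩ := ih B h
      exact ⟨P, Q, by omega, h2, h3⟩
    · have hB0 : B ≠ 0 := by
        rintro rfl
        simp at h
      obtain ⟨r, hr⟩ := IsAlgClosed.exists_root B (by
        intro h0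
        rw [Polynomial.degree_eq_natDegree hB0] at h0
        have : B.natDegree = 0 := by exact_mod_cast h0
        omega)
      obtain ⟨B', hB'⟩ := Polynomial.dvd_iff_isRoot.2 hr
      have hB'0 : B' ≠ 0 := by
        rintro rfl
        exact hB0 (by rw [hB', mul_zero])
      have hdeg : B.natDegree = 1 + B'.natDegree := by
        rw [hB', Polynomial.natDegree_mul (Polynomial.X_sub_C_ne_zero r) hB'0,
          Polynomial.natDegree_X_sub_C]
      obtain ⟨P, Q, h1, h2, h3⟩ := ih B' (by omega)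
      refine ⟨(Polynomial.X - Polynomial.C r) * P, Q, ?_, h2, by rw [mul_assoc, ← h3, ← hB']⟩
      refine (Polynomial.natDegree_mul_le).trans ?_
      rw [Polynomial.natDegree_X_sub_C]
      omega

theorem coeff_conv {F : Type} [Field F] {d d' : ℕ} (a : Fin (d + 1) → F) (b : Fin (d' + 1) → F)
    (k : ℕ) : ((∑ i, Polynomial.C (a i) * Polynomial.X ^ (i : ℕ)) *
      (∑ j, Polynomial.C (b j) * Polynomial.X ^ (j : ℕ)) : Polynomial F).coeff k =
        ∑ i : Fin (d + 1), ∑ j : Fin (d' + 1), if ((i : ℕ) + (j : ℕ) = k) then a i * b j else 0 := by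
  rw [Finset.sum_mul_sum, Polynomial.finsetSum_coeff]
  refine Finset.sum_congr rfl fun i _ => ?_
  rw [Polynomial.finsetSum_coeff]
  refine Finset.sum_congr rfl fun j _ => ?_
  have h1 : Polynomial.C (a i) * Polynomial.X ^ (i : ℕ) *
      (Polynomial.C (b j) * Polynomial.X ^ (j : ℕ)) =
        Polynomial.C (a i * b j) * Polynomial.X ^ ((i : ℕ) + (j : ℕ)) := by
    rw [Polynomial.C_mul, pow_add]
    ring
  rw [h1, Polynomial.coeff_C_mul_X_pow]
  by_cases h : (i : ℕ) + (j : ℕ) = k
  · rw [if_pos h, if_pos h.symm]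
  · rw [if_neg h, if_neg (Ne.symm h)]

theorem sum_coeff {F : Type} [Field F] {d : ℕ} {P : Polynomial F} (hP : P.natDegree ≤ d) :
    ∑ i : Fin (d + 1), Polynomial.C (P.coeff i) * Polynomial.X ^ (i : ℕ) = P := by
  conv_rhs => rw [P.as_sum_range_C_mul_X_pow' (Nat.lt_succ_of_le hP)]
  rw [Finset.sum_range]

end Fac

section Seg

variable {L L' : Type} [Field L] [Field L'] [Algebra L L'] {α β κ κ' : Type}
  [Fintype α] [Fintype β]

theorem conv_forms {M d d' : ℕ} {u : Fin (d + 1) → MvPolynomial α L}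
    {u' : Fin (d' + 1) → MvPolynomial β L} (hu : ∀ i, (u i).IsHomogeneous M)
    (hu' : ∀ j, (u' j).IsHomogeneous M) :
    ∃ Φ : Fin (d + d' + 1) → MvPolynomial (α × β) L, (∀ k, (Φ k).IsHomogeneous M) ∧
      ∀ (x : α → L') (y : β → L') k, aeval (fun t : α × β => x t.1 * y t.2) (Φ k) =
        ∑ i : Fin (d + 1), ∑ j : Fin (d' + 1), if ((i : ℕ) + (j : ℕ) = k) then aeval x (u i) * aeval y (u' j) else 0 := by
  classical
  choose R hR hRe using fun i j => poly_prod (L' := L') (hu i) (hu' j)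
  refine ⟨fun k => ∑ i : Fin (d + 1), ∑ j : Fin (d' + 1), if ((i : ℕ) + (j : ℕ) = k) then R i j else 0, fun k => ?_,
    fun x y k => ?_⟩
  · refine IsHomogeneous.sum _ _ _ fun i _ => IsHomogeneous.sum _ _ _ fun j _ => ?_
    split_ifs
    · exact hR i j
    · exact isHomogeneous_zero _ _ _
  · rw [map_sum]
    refine Finset.sum_congr rfl fun i _ => ?_
    rw [map_sum]
    refine Finset.sum_congr rfl fun j _ => ?_
    split_ifs
    · exact hRe i j x y
    · exact map_zero _

/-- forms of the same degree -/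
theorem same_degree' {ν : Type} [Fintype ν] (q : ν → MvPolynomial α L)
    (hq : ∀ j, IsForm (q j)) :
    ∃ N, 0 < N ∧ ∃ u : ν → MvPolynomial α L, (∀ j, (u j).IsHomogeneous N) ∧
      ∀ w : α → L', ∀ j, aeval w (u j) = 0 ↔ aeval w (q j) = 0 := by
  classical
  choose D hD hDq using hq
  refine ⟨∏ j, D j, Finset.prod_pos fun j _ => hD j, fun j => q j ^ (∏ k ∈ Finset.univ.erase j, D k),
    fun j => ?_, fun w j => ?_⟩
  · have h1 := (hDq j).pow (∏ k ∈ Finset.univ.erase j, D k)
    rwa [Finset.mul_prod_erase _ _ (Finset.mem_univ j)] at h1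
  · rw [map_pow]
    exact pow_eq_zero_iff (Finset.prod_pos fun k _ => hD k).ne'

theorem same_degree₂ {ν ν' : Type} [Fintype ν] [Fintype ν'] (q : ν → MvPolynomial α L)
    (hq : ∀ j, IsForm (q j)) (q' : ν' → MvPolynomial β L) (hq' : ∀ j, IsForm (q' j)) :
    ∃ N, 0 < N ∧ ∃ (u : ν → MvPolynomial α L) (u' : ν' → MvPolynomial β L),
      (∀ j, (u j).IsHomogeneous N) ∧ (∀ j, (u' j).IsHomogeneous N) ∧
      (∀ w : α → L', ∀ j, aeval w (u j) = 0 ↔ aeval w (q j) = 0) ∧
      ∀ w : β → L', ∀ j, aeval w (u' j) = 0 ↔ aeval w (q' j) = 0 := by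
  obtain ⟨N, hN, u, hu, hu0⟩ := same_degree' (L' := L') q hq
  obtain ⟨N', hN', u', hu', hu0'⟩ := same_degree' (L' := L') q' hq'
  refine ⟨N * N', Nat.mul_pos hN hN', fun j => u j ^ N', fun j => u' j ^ N,
    fun j => (hu j).pow N', fun j => ?_, fun w j => ?_, fun w j => ?_⟩
  · rw [mul_comm]
    exact (hu' j).pow N
  · rw [map_pow, pow_eq_zero_iff hN'.ne', hu0]
  · rw [map_pow, pow_eq_zero_iff hN.ne', hu0']

/-- the equations of the Segre product -/
noncomputable def segForms (G : κ → MvPolynomial α L) (G' : κ' → MvPolynomial β L) :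
    ((α × β) × (α × β)) ⊕ ((κ × β) ⊕ (κ' × α)) → MvPolynomial (α × β) L :=
  Sum.elim (fun t => MvPolynomial.X t.1 * MvPolynomial.X t.2 -
    MvPolynomial.X (t.1.1, t.2.2) * MvPolynomial.X (t.2.1, t.1.2))
    (Sum.elim (fun t => rename (fun i => (i, t.2)) (G t.1))
      fun t => rename (fun j => (t.2, j)) (G' t.1))

theorem segForms_form {G : κ → MvPolynomial α L} {G' : κ' → MvPolynomial β L}
    (hG : ∀ k, IsForm (G k)) (hG' : ∀ k, IsForm (G' k)) : ∀ k, IsForm (segForms G G' k) := by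
  rintro (t | t | t)
  · refine ⟨2, two_pos, ?_⟩
    exact ((isHomogeneous_X L t.1).mul (isHomogeneous_X L t.2)).sub
      ((isHomogeneous_X L (t.1.1, t.2.2)).mul (isHomogeneous_X L (t.2.1, t.1.2)))
  · obtain ⟨D, hD, h⟩ := hG t.1
    exact ⟨D, hD, h.rename_isHomogeneous⟩
  · obtain ⟨D, hD, h⟩ := hG' t.1
    exact ⟨D, hD, h.rename_isHomogeneous⟩

theorem seg_isZero [IsAlgClosed L'] {G : κ → MvPolynomial α L} {G' : κ' → MvPolynomial β L}
    (hG : ∀ k, IsForm (G k)) (hG' : ∀ k, IsForm (G' k)) {X : Set (α → L')} {Y : Set (β → L')}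
    (hX : IsZero L' G X) (hY : IsZero L' G' Y) :
    IsZero L' (segForms G G') (segre X Y) := by
  intro m
  constructor
  · rintro ⟨x, hx, y, hy, hm⟩
    rw [hX] at hx
    rw [hY] at hy
    rintro (t | t | t)
    · simp only [segForms, Sum.elim_inl, map_sub, map_mul, aeval_X, hm]
      ring
    · simp only [segForms, Sum.elim_inl, Sum.elim_inr, aeval_rename]
      obtain ⟨D, hD, h⟩ := hG t.1
      have h1 : (m ∘ fun i => (i, t.2)) = y t.2 • x := by
        funext i
        simp [hm, mul_comm]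
      rw [h1, hom_smul h, hx, mul_zero]
    · simp only [segForms, Sum.elim_inr, aeval_rename]
      obtain ⟨D, hD, h⟩ := hG' t.1
      have h1 : (m ∘ fun j => (t.2, j)) = x t.2 • y := by
        funext i
        simp [hm]
      rw [h1, hom_smul h, hy, mul_zero]
  · intro h
    have hcol : ∀ j, (fun i => m (i, j)) ∈ X := by
      intro j
      rw [hX]
      intro k
      have := h (Sum.inr (Sum.inl (k, j)))
      simp only [segForms, Sum.elim_inl, Sum.elim_inr, aeval_rename] at this
      exact this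
    have hrow : ∀ i, (fun j => m (i, j)) ∈ Y := by
      intro i
      rw [hY]
      intro k
      have := h (Sum.inr (Sum.inr (k, i)))
      simp only [segForms, Sum.elim_inr, aeval_rename] at this
      exact this
    have hmin : ∀ i j i' j', m (i, j) * m (i', j') = m (i, j') * m (i', j) := by
      intro i j i' j'
      have := h (Sum.inl ((i, j), (i', j')))
      simp only [segForms, Sum.elim_inl, map_sub, map_mul, aeval_X, sub_eq_zero] at this
      exact this
    by_cases h0 : ∃ t, m t ≠ 0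
    · obtain ⟨⟨i₀, j₀⟩, h0⟩ := h0
      refine ⟨fun i => m (i, j₀), hcol j₀, (m (i₀, j₀))⁻¹ • fun j => m (i₀, j), ?_, ?_⟩
      · exact (hY.cone hG').2 _ _ (hrow i₀)
      · rintro ⟨i, j⟩
        have := hmin i j i₀ j₀
        simp only [Pi.smul_apply, smul_eq_mul]
        field_simp
        linear_combination this
    · push Not at h0
      refine ⟨0, ?_, 0, ?_, fun t => ?_⟩
      · rw [hX]
        exact fun k => aeval_zero_form (hG k)
      · rw [hY]
        exact fun k => aeval_zero_form (hG' k)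
      · rw [h0 t]
        simp

theorem segre_dimGE [IsAlgClosed L'] {X : Set (α → L')} {Y : Set (β → L')}
    (hX : IsConeOver L X) (hY : IsConeOver L Y) {d d' : ℕ} (h1 : DimGE X d) (h2 : DimLE X d)
    (h1' : DimGE Y d') (h2' : DimLE Y d') : DimGE (segre X Y) (d + d') := by
  classical
  obtain ⟨r, G, hG, hGX⟩ := exists_forms hX (DimGE.nonempty h1)
  obtain ⟨r', G', hG', hGY⟩ := exists_forms hY (DimGE.nonempty h1')
  obtain ⟨q, hq, hq0⟩ := h2
  obtain ⟨q', hq', hq0'⟩ := h2'
  obtain ⟨N, hN, u, u', hu, hu', hu0, hu0'⟩ := same_degree₂ (L' := L') q hq q' hq'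
  obtain ⟨Φ, hΦ, hΦe⟩ := conv_forms (L' := L') hu hu'
  refine dimGE_of_dominant _ (fun k => form_map (segForms_form hG hG' k))
    (seg_isZero hG hG' hGX hGY).isVar (β := Fin (d + d' + 1))
    (by rw [Nat.card_eq_fintype_card, Fintype.card_fin]) Φ fun b => ?_
  obtain ⟨P, Q, hP, hQ, hPQ⟩ := exists_factor d d'
    (∑ k : Fin (d + d' + 1), Polynomial.C (b k) * Polynomial.X ^ (k : ℕ)) (by
      refine Polynomial.natDegree_sum_le_of_forall_le _ _ fun k _ => ?_
      exact (Polynomial.natDegree_C_mul_X_pow_le _ _).trans (Nat.lt_succ_iff.1 k.2))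
  obtain ⟨x, hx, hxb⟩ := surj_of_dim hX.2 h1 u hN hu
    (fun y hy h => hq0 y hy fun j => by
      have := (hu0 y j).1 (by rw [aeval_eq_eval]; exact h j)
      rwa [aeval_eq_eval] at this) fun j => P.coeff j
  obtain ⟨y, hy, hyb⟩ := surj_of_dim hY.2 h1' u' hN hu'
    (fun y hy h => hq0' y hy fun j => by
      have := (hu0' y j).1 (by rw [aeval_eq_eval]; exact h j)
      rwa [aeval_eq_eval] at this) fun j => Q.coeff j
  refine ⟨fun t => x t.1 * y t.2, ⟨x, hx, y, hy, fun t => rfl⟩, fun k => ?_⟩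
  have h3 := hΦe x y k
  rw [aeval_eq_eval] at h3
  rw [h3]
  have h4 : ∀ i, aeval x (u i) = P.coeff i := fun i => by rw [aeval_eq_eval]; exact hxb i
  have h5 : ∀ i, aeval y (u' i) = Q.coeff i := fun i => by rw [aeval_eq_eval]; exact hyb i
  simp only [h4, h5]
  rw [← coeff_conv, sum_coeff hP, sum_coeff hQ, ← hPQ, Polynomial.finsetSum_coeff,
    Finset.sum_eq_single k]
  · simp
  · intro l _ hl
    rw [Polynomial.coeff_C_mul_X_pow, if_neg fun h => hl (Fin.ext h.symm)]
  · intro h
    exact absurd (Finset.mem_univ _) h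

theorem segre_dimLE {X : Set (α → L')} {Y : Set (β → L')} {d d' : ℕ} (h : DimLEOver L X d)
    (h' : DimLEOver L Y d') : DimLEOver L (segre X Y) (d + d') := by
  classical
  obtain ⟨q, hq, hq0⟩ := h
  obtain ⟨q', hq', hq0'⟩ := h'
  obtain ⟨N, hN, u, u', hu, hu', hu0, hu0'⟩ := same_degree₂ (L' := L') q hq q' hq'
  obtain ⟨Φ, hΦ, hΦe⟩ := conv_forms (L' := L') hu hu'
  refine ⟨Φ, fun k => ⟨N, hN, hΦ k⟩, ?_⟩
  rintro m ⟨x, hx, y, hy, hm⟩ h0
  have hm' : m = fun t : α × β => x t.1 * y t.2 := funext hm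
  subst hm'
  have h1 : (∑ i, Polynomial.C (aeval x (u i)) * Polynomial.X ^ (i : ℕ) : Polynomial L') *
      (∑ j, Polynomial.C (aeval y (u' j)) * Polynomial.X ^ (j : ℕ)) = 0 := by
    ext k
    rw [coeff_conv, Polynomial.coeff_zero]
    by_cases hk : k < d + d' + 1
    · exact (hΦe x y ⟨k, hk⟩).symm.trans (h0 ⟨k, hk⟩)
    · refine Finset.sum_eq_zero fun i _ => Finset.sum_eq_zero fun j _ => ?_
      rw [if_neg]
      have := i.2
      have := j.2
      omega
  have key : ∀ {n : ℕ} (c : Fin (n + 1) → L'),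
      (∑ i, Polynomial.C (c i) * Polynomial.X ^ (i : ℕ) : Polynomial L') = 0 → ∀ i, c i = 0 := by
    intro n c hc i
    have h2 := congrArg (fun P : Polynomial L' => P.coeff i) hc
    simp only [Polynomial.finsetSum_coeff, Polynomial.coeff_zero] at h2
    rw [Finset.sum_eq_single i] at h2
    · simpa using h2
    · intro l _ hl
      rw [Polynomial.coeff_C_mul_X_pow, if_neg fun h => hl (Fin.ext h.symm)]
    · intro h
      exact absurd (Finset.mem_univ _) h
  rcases mul_eq_zero.1 h1 with h2 | h2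
  · have h3 : x = 0 := hq0 x hx fun j => (hu0 x j).1 (key _ h2 j)
    funext t
    simp [h3]
  · have h3 : y = 0 := hq0' y hy fun j => (hu0' y j).1 (key _ h2 j)
    funext t
    simp [h3]

end Seg

variable {p : ℕ} [hp : Fact p.Prime] {C F K E : Type} [Field C] [Field F] [CharP F p] [Field K]
  [Field E] [Algebra K C] [Algebra E F] {α β ι : Type} [Fintype α] [Fintype β] [Fintype ι]

/-- products -/
theorem Good.segre [IsAlgClosed C] [IsAlgClosed F] (T : Tilting p C F) (B : BaseField T K E)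
    [Nonempty α] [Nonempty β] {X : Set (α → C)} {Y : Set (β → C)} {d d' : ℕ}
    (h : Good T.toTiltPair K E X d) (h' : Good T.toTiltPair K E Y d') :
    Good T.toTiltPair K E (segre X Y) (d + d') := by
  classical
  obtain ⟨r, G, hG, hGX⟩ := exists_forms h.cone ⟨0, h.zero_mem⟩
  obtain ⟨r', G', hG', hGY⟩ := exists_forms h'.cone ⟨0, h'.zero_mem⟩
  have hv := seg_isZero hG hG' hGX hGY
  have h0 : (0 : α × β → C) ∈ TQ.segre X Y :=
    ⟨0, h.zero_mem, 0, h'.zero_mem, fun t => by simp⟩
  have hle := segre_dimLE h.le h'.le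
  refine ⟨hv.cone (segForms_form hG hG'), segre_dimGE h.cone h'.cone h.ge (DimLEOver.dimLE h.le)
    h'.ge (DimLEOver.dimLE h'.le), hle, ?_⟩
  refine approx_of_system T B hv h0 hle fun δ hδ => ?_
  obtain ⟨W, a1, a2, a3, a4⟩ := system_of_approx T.toTiltPair hG
    (fun x hx => (hGX x).1 hx) h.app hδ
  obtain ⟨W', b1, b2, b3, b4⟩ := system_of_approx T.toTiltPair hG'
    (fun x hx => (hGY x).1 hx) h'.app hδ
  obtain ⟨s, H, hH, hHW⟩ := exists_forms a1 (DimGE.nonempty a2)
  obtain ⟨s', H', hH', hHW'⟩ := exists_forms b1 (DimGE.nonempty b2)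
  refine ⟨TQ.segre W W', (seg_isZero hH hH' hHW hHW').cone (segForms_form hH hH'),
    segre_dimGE a1 b1 a2 a3 b2 b3, ?_⟩
  intro m hm hm1
  -- normalised factors
  obtain ⟨x, hx, y, hy, hmxy, hx1, hy1⟩ : ∃ x ∈ W, ∃ y ∈ W', (∀ t, m t = x t.1 * y t.2) ∧
      (∀ i, T.absF (x i) ≤ 1) ∧ ∀ j, T.absF (y j) ≤ 1 := by
    obtain ⟨x, hx, y, hy, hmxy⟩ := hm
    have z1 : (0 : α → F) ∈ W := by
      have := a1.2 0 x hx
      rwa [zero_smul] at this
    have z2 : (0 : β → F) ∈ W' := by
      have := b1.2 0 y hy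
      rwa [zero_smul] at this
    by_cases hxy : x = 0 ∨ y = 0
    · refine ⟨0, z1, 0, z2, fun t => ?_, fun i => ?_, fun j => ?_⟩
      · rw [hmxy]
        rcases hxy with rfl | rfl <;> simp
      · rw [Pi.zero_apply, map_zero]
        exact zero_le_one
      · rw [Pi.zero_apply, map_zero]
        exact zero_le_one
    · push Not at hxy
      obtain ⟨a, ha, ha1, i₀, hi₀⟩ := exists_normal T.toTiltPair hxy.1
      obtain ⟨b, hb, hb1, j₀, hj₀⟩ := exists_normal T.toTiltPair hxy.2
      have h1 : T.absF (a * b)⁻¹ ≤ 1 := by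
        have h2 := hm1 (i₀, j₀)
        have h3 : m (i₀, j₀) = (a * b)⁻¹ * ((a * x i₀) * (b * y j₀)) := by
          rw [hmxy]
          field_simp
        rw [h3, map_mul, map_mul, hi₀, hj₀] at h2
        simpa using h2
      refine ⟨(a * b)⁻¹ • (a • x), a1.2 _ _ (a1.2 _ _ hx), b • y, b1.2 _ _ hy, fun t => ?_,
        fun i => ?_, hb1⟩
      · simp only [Pi.smul_apply, smul_eq_mul]
        rw [hmxy]
        field_simp
      · simp only [Pi.smul_apply, smul_eq_mul]
        rw [map_mul]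
        exact mul_le_one₀ h1 (T.absF.nonneg _) (ha1 i)
  have hms : ∀ t : α × β, T.sharp (m t) = T.sharp (x t.1) * T.sharp (y t.2) := by
    intro t
    rw [hmxy, map_mul]
  rintro (t | t | t)
  · have h1 : aeval (fun t => T.sharp (m t)) (segForms G G' (Sum.inl t)) = 0 := by
      simp only [segForms, Sum.elim_inl, map_sub, map_mul, aeval_X, hms]
      ring
    rw [h1, map_zero]
    exact hδ.le
  · simp only [segForms, Sum.elim_inl, Sum.elim_inr, aeval_rename]
    obtain ⟨D, hD, h⟩ := hG t.1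
    have h1 : ((fun t => T.sharp (m t)) ∘ fun i => (i, t.2)) =
        T.sharp (y t.2) • fun i => T.sharp (x i) := by
      funext i
      simp only [hms, Function.comp, Pi.smul_apply, smul_eq_mul]
      ring
    rw [h1, hom_smul h, map_mul, map_pow, T.abs_sharp]
    have h2 := a4 x hx hx1 t.1
    have h3 : T.absF (y t.2) ^ D ≤ 1 := pow_le_one₀ (T.absF.nonneg _) (hy1 _)
    calc _ ≤ 1 * T.absK (aeval (fun i => T.sharp (x i)) (G t.1)) :=
          mul_le_mul_of_nonneg_right h3 (T.absK.nonneg _)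
      _ ≤ δ := by rw [one_mul]; exact h2
  · simp only [segForms, Sum.elim_inr, aeval_rename]
    obtain ⟨D, hD, h⟩ := hG' t.1
    have h1 : ((fun t => T.sharp (m t)) ∘ fun j => (t.2, j)) =
        T.sharp (x t.2) • fun i => T.sharp (y i) := by
      funext i
      simp only [hms, Function.comp, Pi.smul_apply, smul_eq_mul]
    rw [h1, hom_smul h, map_mul, map_pow, T.abs_sharp]
    have h2 := b4 y hy hy1 t.1
    have h3 : T.absF (x t.2) ^ D ≤ 1 := pow_le_one₀ (T.absF.nonneg _) (hx1 _)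
    calc _ ≤ 1 * T.absK (aeval (fun i => T.sharp (y i)) (G' t.1)) :=
          mul_le_mul_of_nonneg_right h3 (T.absK.nonneg _)
      _ ≤ δ := by rw [one_mul]; exact h2

end Pool.Agent.X271.TQ
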