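import Pool.Agent.X271.TrLin

/-!
# Matrices with dependent columns: the cones
-/

set_option autoImplicit false
set_option linter.unusedSectionVars false
set_option linter.unusedVariables false

namespace Pool.Agent.X271.TR

open MvPolynomial Pool.Agent.Y129.TA Pool.Agent.X271.TQ
open Pool.Agent.X271.TN (Img img_cone img_dimGE imX imX_eq lin lin_monic ev_lin mp)
open Pool.Agent.W476.TP (Sig wt MH Rel ev MonicMH)
open Pool.Agent.Y129.TB (IsConeOver InTube Approximable DimLEOver form_map eval_map_alg BaseField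
  approx)

/-- the dimensions of the two projective spaces -/
def mm (N b : ℕ) : Fin 2 → ℕ := ![N, b]

/-- the point `(m, v)` -/
def pt {L : Type} {N b : ℕ} (m : Fin (N + 1) → L) (v : Fin (b + 1) → L) : Sig (mm N b) → L :=
  fun s => (Fin.cases (motive := fun κ => Fin (mm N b κ + 1) → L) m
    (fun κ => Fin.cases (motive := fun κ => Fin (mm N b κ.succ + 1) → L) v
      (fun κ => κ.elim0) κ) s.1) s.2

theorem wh_aeval {σ τ M L : Type} [Field L] [AddCommMonoid M] [Fintype σ] {w : τ → M}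
    {g : MvPolynomial σ L} {Q : ℕ} (hg : g.IsHomogeneous Q) {u : σ → MvPolynomial τ L} {e : M}
    (hu : ∀ j, IsWeightedHomogeneous w (u j) e) : IsWeightedHomogeneous w (aeval u g) (Q • e) := by
  classical
  rw [aeval_def, eval₂_eq']
  refine IsWeightedHomogeneous.sum _ _ _ fun α hα => ?_
  have h1 : ∑ i, α i = Q := sum_of_homogeneous hg hα
  have h2 : IsWeightedHomogeneous w (∏ i, u i ^ α i) (∑ i, α i • e) :=
    IsWeightedHomogeneous.prod _ _ _ fun i _ => (hu i).pow (α i)
  rw [← Finset.sum_smul, h1] at h2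
  have h3 := (isWeightedHomogeneous_C w (coeff α g)).mul h2
  rw [zero_add] at h3
  exact h3

section General

variable {L₀ L : Type} [Field L₀] [Field L] [Algebra L₀ L] {a b N : ℕ}

/-- the equation of the row `i` -/
noncomputable def Hp (σ : Fin a × Fin (b + 1) ≃ Fin (N + 1)) (g : MvPolynomial (Fin (b + 1)) L₀)
    (i : Fin a) : MvPolynomial (Sig (mm N b)) L₀ :=
  aeval (fun j => (MvPolynomial.X (⟨0, σ (i, j)⟩ : Sig (mm N b)) *
    MvPolynomial.X (⟨1, j⟩ : Sig (mm N b)) : MvPolynomial (Sig (mm N b)) L₀)) g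

theorem Hp_mh (σ : Fin a × Fin (b + 1) ≃ Fin (N + 1)) {g : MvPolynomial (Fin (b + 1)) L₀} {Q : ℕ}
    (hg : g.IsHomogeneous Q) (i : Fin a) : MH (Hp σ g i) (Q • fun _ => 1) := by
  refine wh_aeval hg fun j => ?_
  have h1 := (isWeightedHomogeneous_X L₀ (wt (mm N b)) (⟨0, σ (i, j)⟩ : Sig (mm N b))).mul
    (isWeightedHomogeneous_X L₀ (wt (mm N b)) (⟨1, j⟩ : Sig (mm N b)))
  have h2 : wt (mm N b) (⟨0, σ (i, j)⟩ : Sig (mm N b)) + wt (mm N b) (⟨1, j⟩ : Sig (mm N b)) =
      fun _ => 1 := by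
    funext κ
    fin_cases κ <;> simp [wt]
  rwa [h2] at h1

theorem aeval_Hp (σ : Fin a × Fin (b + 1) ≃ Fin (N + 1)) (g : MvPolynomial (Fin (b + 1)) L₀)
    (i : Fin a) (z : Sig (mm N b) → L) :
    aeval z (Hp σ g i) = aeval (fun j => z ⟨0, σ (i, j)⟩ * z ⟨1, j⟩) g := by
  have h : ((aeval z : MvPolynomial (Sig (mm N b)) L₀ →ₐ[L₀] L).comp
      (aeval (fun j => (MvPolynomial.X (⟨0, σ (i, j)⟩ : Sig (mm N b)) *
        MvPolynomial.X (⟨1, j⟩ : Sig (mm N b)) : MvPolynomial (Sig (mm N b)) L₀)))) =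
        aeval fun j => z ⟨0, σ (i, j)⟩ * z ⟨1, j⟩ := by
    ext j
    simp
  exact congrArg (fun ψ : MvPolynomial (Fin (b + 1)) L₀ →ₐ[L₀] L => ψ g) h

/-- the matrices `m` with `g(m_{i1} v_1, ..., m_{ib} v_b) = 0` for some `v ≠ 0` and all `i` -/
def Dg (L : Type) [Field L] [Algebra L₀ L] (σ : Fin a × Fin (b + 1) ≃ Fin (N + 1))
    (g : MvPolynomial (Fin (b + 1)) L₀) : Set (Fin (N + 1) → L) :=
  {m | m = 0 ∨ ∃ v : Fin (b + 1) → L, v ≠ 0 ∧ ∀ i, aeval (fun j => m (σ (i, j)) * v j) g = 0}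

theorem Dg_eq (σ : Fin a × Fin (b + 1) ≃ Fin (N + 1)) (g : MvPolynomial (Fin (b + 1)) L₀) :
    Dg L σ g = Img L (fun x : Fin (N + 1) => lin (MvPolynomial.X (⟨0, x⟩ : Sig (mm N b))))
      (Hp σ g) := by
  ext m
  constructor
  · rintro (h | ⟨v, hv, h⟩)
    · exact Or.inl h
    by_cases hm : m = 0
    · exact Or.inl hm
    right
    refine ⟨pt m v, fun κ => ?_, fun i => ?_, fun x => ?_⟩
    · obtain ⟨x, hx⟩ := Function.ne_iff.1 hm
      obtain ⟨j, hj⟩ := Function.ne_iff.1 hv
      fin_cases κ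
      · exact ⟨x, hx⟩
      · exact ⟨j, hj⟩
    · rw [aeval_Hp]
      exact h i
    · rw [ev_lin, aeval_X, sub_eq_zero]
      rfl
  · rintro (h | ⟨z, hz, h1, h2⟩)
    · exact Or.inl h
    right
    have hm : ∀ x, m x = z ⟨0, x⟩ := fun x => by
      have := h2 x
      rwa [ev_lin, aeval_X, sub_eq_zero] at this
    refine ⟨fun j => z ⟨1, j⟩, fun h0 => ?_, fun i => ?_⟩
    · obtain ⟨j, hj⟩ := hz 1
      exact hj (congrFun h0 j)
    · have := h1 i
      rw [aeval_Hp] at this
      simp only [hm]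
      exact this

theorem lin_hyp (N b : ℕ) {c : ℕ} (H : Fin c → MvPolynomial (Sig (mm N b)) L₀) :
    ∀ y : Sig (mm N b) → L, Rel y → (∀ j, aeval y (H j) = 0) → ∃ x : Fin (N + 1),
      ev (mp L (lin (MvPolynomial.X (⟨0, x⟩ : Sig (mm N b)) : MvPolynomial _ L₀))) y 0 ≠ 0 := by
  intro y hy _
  obtain ⟨x, hx⟩ := hy 0
  refine ⟨x, ?_⟩
  rw [ev_lin, aeval_X, zero_sub]
  exact neg_ne_zero.2 hx

theorem wt0_ne (N b : ℕ) (x : Fin (N + 1)) : wt (mm N b) (⟨0, x⟩ : Sig (mm N b)) ≠ 0 := by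
  intro h
  have := congrFun h 0
  simp [wt] at this

theorem lin_mon (N b : ℕ) (x : Fin (N + 1)) :
    MonicMH (Pi.single (0 : Fin 2) 1)
      (lin (MvPolynomial.X (⟨0, x⟩ : Sig (mm N b)) : MvPolynomial _ L₀)) 1 :=
  lin_monic (isWeightedHomogeneous_X L₀ (wt (mm N b)) (⟨0, x⟩ : Sig (mm N b)))

theorem single_ne : (Pi.single (0 : Fin 2) 1 : Fin 2 → ℕ) ≠ 0 := by
  intro h
  have := congrFun h 0
  simp at this

theorem Dg_cone [IsAlgClosed L] (σ : Fin a × Fin (b + 1) ≃ Fin (N + 1))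
    {g : MvPolynomial (Fin (b + 1)) L₀} {Q : ℕ} (hg : g.IsHomogeneous Q) :
    IsConeOver L₀ (Dg L σ g) := by
  rw [Dg_eq]
  exact img_cone single_ne (fun x => lin_mon N b x) (fun i => Hp_mh σ hg i) (lin_hyp N b _)

theorem Dg_dimGE [IsAlgClosed L] (hab : b + 1 ≤ a) (hb : 0 < b)
    (σ : Fin a × Fin (b + 1) ≃ Fin (N + 1)) {g : MvPolynomial (Fin (b + 1)) L₀} {Q : ℕ}
    (hg : g.IsHomogeneous Q) (hQ : 0 < Q) : DimGE (Dg L σ g) ((a + 1) * b - 1) := by
  classical
  rw [Dg_eq]
  have hN : a * (b + 1) = N + 1 := by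
    have := Fintype.card_congr σ
    rwa [Fintype.card_prod, Fintype.card_fin, Fintype.card_fin, Fintype.card_fin] at this
  refine img_dimGE single_ne (fun x => lin_mon N b x) (fun i => Hp_mh σ hg i) (lin_hyp N b _)
    (Sum.elim (fun i => if (i : ℕ) < b then 1 else 0) fun _ => 0) (fun i => ?_) (fun k => ?_)
    fun κ => ?_
  · rw [Pi.smul_apply, smul_eq_mul, mul_one]
    exact hQ
  · simp
  · rw [Finset.card_filter, Fintype.sum_sum_type, ← Finset.card_filter, ← Finset.card_filter]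
    have c1 : (Finset.univ.filter fun i : Fin a => (i : ℕ) < b).card = b := by
      rw [Fin.card_filter_val_lt]
      omega
    have c2 : (Finset.univ.filter fun i : Fin a => ¬ (i : ℕ) < b).card = a - b := by
      have := Finset.card_filter_add_card_filter_not (s := (Finset.univ : Finset (Fin a)))
        (fun i => (i : ℕ) < b)
      rw [c1, Finset.card_univ, Fintype.card_fin] at this
      omega
    fin_cases κ
    · have e1 : (Finset.univ.filter fun i : Fin a =>
          (Sum.elim (fun i : Fin a => if (i : ℕ) < b then (1 : Fin 2) else 0)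
            (fun _ : Fin ((a + 1) * b - 1) => 0) (Sum.inl i)) = 0) =
          Finset.univ.filter fun i : Fin a => ¬ (i : ℕ) < b := by
        ext i
        simp
      have e2 : (Finset.univ.filter fun k : Fin ((a + 1) * b - 1) =>
          (Sum.elim (fun i : Fin a => if (i : ℕ) < b then (1 : Fin 2) else 0)
            (fun _ : Fin ((a + 1) * b - 1) => 0) (Sum.inr k)) = 0) = Finset.univ := by
        ext i
        simp
      change (Finset.card _) + (Finset.card _) ≤ N
      have h5 : (a + 1) * b = a * b + b := by ring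
      have h6 : a * (b + 1) = a * b + a := by ring
      refine le_trans (add_le_add (le_of_eq (congrArg Finset.card e1))
        (le_of_eq (congrArg Finset.card e2))) ?_
      rw [c2, Finset.card_univ, Fintype.card_fin]
      omega
    · have e1 : (Finset.univ.filter fun i : Fin a =>
          (Sum.elim (fun i : Fin a => if (i : ℕ) < b then (1 : Fin 2) else 0)
            (fun _ : Fin ((a + 1) * b - 1) => 0) (Sum.inl i)) = 1) =
          Finset.univ.filter fun i : Fin a => (i : ℕ) < b := by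
        ext i
        simp
      have e2 : (Finset.univ.filter fun k : Fin ((a + 1) * b - 1) =>
          (Sum.elim (fun i : Fin a => if (i : ℕ) < b then (1 : Fin 2) else 0)
            (fun _ : Fin ((a + 1) * b - 1) => 0) (Sum.inr k)) = 1) = ∅ := by
        ext i
        simp
      change (Finset.card _) + (Finset.card _) ≤ b
      refine le_trans (add_le_add (le_of_eq (congrArg Finset.card e1))
        (le_of_eq (congrArg Finset.card e2))) ?_
      rw [c1, Finset.card_empty]
      exact le_rfl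

end General

end Pool.Agent.X271.TR
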