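import Pool.Agent.X271.TqCls

/-!
# Matrices with linearly dependent columns: a linear system of parameters
-/

set_option autoImplicit false
set_option linter.unusedSectionVars false
set_option linter.unusedVariables false

namespace Pool.Agent.X271.TR

open MvPolynomial Pool.Agent.Y129.TA

variable {a b : ℕ}

/-- the position `(i, j)` is in the band, and not in the last column -/
def InBand (a b : ℕ) (x : Fin a × Fin (b + 1)) : Prop :=
  (x.2 : ℕ) < b ∧ (x.2 : ℕ) ≤ x.1 ∧ (x.1 : ℕ) + (b + 1) ≤ x.2 + a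

instance (x : Fin a × Fin (b + 1)) : Decidable (InBand a b x) := by
  unfold InBand
  infer_instance

/-- the next position on the diagonal -/
def nxt (x : Fin a × Fin (b + 1)) (h : InBand a b x) : Fin a × Fin (b + 1) :=
  (⟨x.1 + 1, by unfold InBand at h; omega⟩, ⟨x.2 + 1, by unfold InBand at h; omega⟩)

/-- the positions used for the linear forms -/
def Idx (a b : ℕ) : Type := {x : Fin a × Fin (b + 1) // ¬ ((x.2 : ℕ) = b ∧ b ≤ (x.1 : ℕ))}

instance : Fintype (Idx a b) := by
  unfold Idx
  infer_instance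

theorem card_idx (h : b ≤ a) : Fintype.card (Idx a b) = (a + 1) * b := by
  classical
  have h1 : Fintype.card {x : Fin a × Fin (b + 1) // ((x.2 : ℕ) = b ∧ b ≤ (x.1 : ℕ))} = a - b := by
    let e : {x : Fin a × Fin (b + 1) // ((x.2 : ℕ) = b ∧ b ≤ (x.1 : ℕ))} ≃ Fin (a - b) :=
      { toFun := fun x => ⟨x.1.1 - b, by have := x.1.1.2; have := x.2.2; omega⟩
        invFun := fun t => ⟨(⟨t + b, by have := t.2; omega⟩, ⟨b, by omega⟩), rfl, by simp⟩
        left_inv := by
          rintro ⟨⟨i, j⟩, h1, h2⟩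
          apply Subtype.ext
          apply Prod.ext
          · apply Fin.ext
            simp at h2 ⊢
            omega
          · apply Fin.ext
            exact h1.symm
        right_inv := by
          rintro ⟨t, ht⟩
          apply Fin.ext
          simp }
    rw [Fintype.card_congr e, Fintype.card_fin]
  have h2 := Fintype.card_subtype_compl
    (fun x : Fin a × Fin (b + 1) => ((x.2 : ℕ) = b ∧ b ≤ (x.1 : ℕ)))
  rw [h1, Fintype.card_prod, Fintype.card_fin, Fintype.card_fin] at h2
  have h3 : Fintype.card (Idx a b) = a * (b + 1) - (a - b) := by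
    rw [← h2]
    exact Fintype.card_congr (Equiv.refl _)
  rw [h3]
  have h4 : a * (b + 1) = a * b + a := by ring
  have h5 : (a + 1) * b = a * b + b := by ring
  omega

/-- the linear conditions -/
def Lin {L : Type} [Field L] (y : Fin a × Fin (b + 1) → L) : Prop :=
  ∀ x : Fin a × Fin (b + 1), ¬ ((x.2 : ℕ) = b ∧ b ≤ (x.1 : ℕ)) →
    if h : InBand a b x then y x - y (nxt x h) = 0 else y x = 0

theorem lin_form {L : Type} [Field L] {y : Fin a × Fin (b + 1) → L} (hy : Lin y) (hab : b + 1 ≤ a) :
    ∀ (t : ℕ) (i j : ℕ) (hi : i < a) (hj : j < b + 1), j + t = b → j ≤ i → i + (b + 1) ≤ j + a →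
      ∃ h : i + t < a, y (⟨i, hi⟩, ⟨j, hj⟩) = y (⟨i + t, h⟩, ⟨b, by omega⟩) := by
  intro t
  induction t with
  | zero =>
    intro i j hi hj h1 h2 h3
    have : j = b := by omega
    subst this
    exact ⟨by omega, rfl⟩
  | succ t ih =>
    intro i j hi hj h1 h2 h3
    have hb : InBand a b (⟨i, hi⟩, ⟨j, hj⟩) := ⟨by simp; omega, h2, h3⟩
    have h4 := hy (⟨i, hi⟩, ⟨j, hj⟩) (by rintro ⟨h5, -⟩; simp at h5; omega)
    rw [dif_pos hb, sub_eq_zero] at h4
    obtain ⟨h5, h6⟩ := ih (i + 1) (j + 1) (by omega) (by omega) (by omega) (by omega) (by omega)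
    refine ⟨by omega, ?_⟩
    rw [h4]
    have h7 : nxt (⟨i, hi⟩, ⟨j, hj⟩) hb = ((⟨i + 1, by omega⟩ : Fin a), (⟨j + 1, by omega⟩ : Fin (b + 1))) := rfl
    rw [h7, h6]
    congr 2
    apply Fin.ext
    simp
    omega

theorem lin_out {L : Type} [Field L] {y : Fin a × Fin (b + 1) → L} (hy : Lin y)
    (i : Fin a) (j : Fin (b + 1)) (h : ¬ ((j : ℕ) ≤ i ∧ (i : ℕ) + (b + 1) ≤ j + a)) :
    y (i, j) = 0 := by
  have h1 := hy (i, j) (by
    rintro ⟨h2, h3⟩
    simp at h2 h3
    apply h
    have := i.2
    omega)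
  rwa [dif_neg (by
    rintro ⟨h2, h3, h4⟩
    exact h ⟨h3, h4⟩)] at h1

/-- If `y` satisfies the linear conditions and its powers have linearly dependent columns (in a weak
sense) then `y = 0`. -/
theorem lin_zero {L : Type} [Field L] (hab : b + 1 ≤ a) {y : Fin a × Fin (b + 1) → L} (hy : Lin y)
    {e : Fin a × Fin (b + 1) → ℕ} (he : ∀ x, 0 < e x) {v : Fin (b + 1) → L} (hv : v ≠ 0)
    (hz : ∀ i j, (∀ j', j' ≠ j → y (i, j') ^ e (i, j') * v j' = 0) →
      y (i, j) ^ e (i, j) * v j = 0) : y = 0 := by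
  classical
  by_contra hy0
  -- some entry of the last column is not zero
  have hex : ∃ k : ℕ, ∃ h : b + k < a, y (⟨b + k, h⟩, ⟨b, by omega⟩) ≠ 0 := by
    by_contra hno
    push Not at hno
    apply hy0
    funext x
    obtain ⟨i, j⟩ := x
    by_cases h : ((j : ℕ) ≤ i ∧ (i : ℕ) + (b + 1) ≤ j + a)
    · obtain ⟨h1, h2⟩ := lin_form hy hab (b - j) i j i.2 j.2 (by have := j.2; omega) h.1 h.2
      have h3 : y (i, j) = y (⟨i, i.2⟩, ⟨j, j.2⟩) := rfl
      rw [h3, h2]
      have h4 := hno (i - j) (by have := j.2; omega)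
      have h5 : (⟨(i : ℕ) + (b - j), h1⟩ : Fin a) = ⟨b + (i - j), by have := j.2; omega⟩ := by
        apply Fin.ext
        simp
        have := j.2
        omega
      rw [h5, h4]
      rfl
    · rw [lin_out hy i j h]
      rfl
  obtain ⟨hk, hk0⟩ := Nat.find_spec hex
  set k := Nat.find hex with hkd
  have hmin : ∀ k' < k, ∀ h : b + k' < a, y (⟨b + k', h⟩, ⟨b, by omega⟩) = 0 := by
    intro k' hk' h
    have := Nat.find_min hex hk'
    push Not at this
    exact this h
  apply hv
  have key : ∀ t : ℕ, ∀ j : Fin (b + 1), (j : ℕ) = t → v j = 0 := by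
    intro t
    induction t using Nat.strong_induction_on with
    | _ t ih =>
      intro j hj
      have hjb := j.2
      have hi : (j : ℕ) + k < a := by omega
      have h1 := hz ⟨j + k, hi⟩ j (fun j' hj' => by
        have hne : (j' : ℕ) ≠ j := fun h => hj' (Fin.ext h)
        rcases Nat.lt_or_ge j' j with h2 | h2
        · rw [ih j' (by omega) j' rfl, mul_zero]
        · have h3 : (j : ℕ) < j' := by omega
          have h4 : y (⟨(j : ℕ) + k, hi⟩, j') = 0 := by
            by_cases h : ((j' : ℕ) ≤ j + k ∧ ((j : ℕ) + k) + (b + 1) ≤ j' + a)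
            · obtain ⟨h5, h6⟩ := lin_form hy hab (b - j') (j + k) j' hi j'.2
                (by have := j'.2; omega) h.1 h.2
              have h7 : y (⟨(j : ℕ) + k, hi⟩, j') = y (⟨(j : ℕ) + k, hi⟩, ⟨j', j'.2⟩) := rfl
              rw [h7, h6]
              have hj'b := j'.2
              have h8 := hmin (j + k - j') (by omega) (by omega)
              have h9 : (⟨(j : ℕ) + k + (b - j'), h5⟩ : Fin a) =
                  ⟨b + (j + k - j'), by omega⟩ := by
                apply Fin.ext
                simp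
                omega
              rw [h9, h8]
            · exact lin_out hy _ _ h
          rw [h4, zero_pow (he _).ne', zero_mul])
      have h2 : y (⟨(j : ℕ) + k, hi⟩, j) ≠ 0 := by
        obtain ⟨h5, h6⟩ := lin_form hy hab (b - j) (j + k) j hi j.2 (by omega) (by omega)
          (by omega)
        have h7 : y (⟨(j : ℕ) + k, hi⟩, j) = y (⟨(j : ℕ) + k, hi⟩, ⟨j, j.2⟩) := rfl
        rw [h7, h6]
        have h9 : (⟨(j : ℕ) + k + (b - j), h5⟩ : Fin a) = ⟨b + k, hk⟩ := by
          apply Fin.ext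
          simp
          omega
        rw [h9]
        exact hk0
      exact (mul_eq_zero.1 h1).resolve_left (pow_ne_zero _ h2)
  funext j
  exact key j j rfl

end Pool.Agent.X271.TR
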