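import Pool.Agent.X271.TrPow

/-!
# Approximation of determinantal varieties
-/

set_option autoImplicit false
set_option linter.unusedSectionVars false
set_option linter.unusedVariables false

namespace Pool.Agent.X271.TR

open MvPolynomial Pool.Agent.Y129.TA Pool.Agent.X271.TQ
open Pool.Agent.Y129.TB (IsConeOver InTube Approximable DimLEOver form_map eval_map_alg BaseField
  approx)

/-- the sum of the variables -/
noncomputable def sm (b : ℕ) (L₀ : Type) [Field L₀] : MvPolynomial (Fin (b + 1)) L₀ :=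
  ∑ j, MvPolynomial.X j

theorem sm_hom (b : ℕ) (L₀ : Type) [Field L₀] : (sm b L₀).IsHomogeneous 1 :=
  IsHomogeneous.sum _ _ _ fun j _ => isHomogeneous_X _ _

theorem aeval_sm {b : ℕ} {L₀ L : Type} [Field L₀] [Field L] [Algebra L₀ L]
    (x : Fin (b + 1) → L) : aeval x (sm b L₀) = ∑ j, x j := by
  unfold sm
  rw [map_sum]
  simp only [aeval_X]

theorem sm_unit (b : ℕ) (L₀ L : Type) [Field L₀] [Field L] [Algebra L₀ L] :
    Unit' L (sm b L₀) := by
  intro j x hx h
  rw [aeval_sm, Finset.sum_eq_single j] at h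
  · exact h
  · intro j' _ hj'
    exact hx j' hj'
  · intro h
    exact absurd (Finset.mem_univ _) h

variable {p : ℕ} [hp : Fact p.Prime] {C F K E : Type} [Field C] [Field F] [CharP F p] [Field K]
  [Field E] [Algebra K C] [Algebra E F] [IsAlgClosed C] [IsAlgClosed F] {a b N n : ℕ}

theorem unit_of_approx (T : Tilting p C F) {g : MvPolynomial (Fin (b + 1)) E} {Q : ℕ}
    (hg : g.IsHomogeneous Q) {δ : ℝ} (hδ : δ < 1)
    (h : ∀ t : Fin (b + 1) → F, (∀ i, T.absF (t i) ≤ 1) → aeval t g = 0 →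
      T.absK (aeval (fun i => T.sharp (t i)) (sm b K)) ≤ δ) : Unit' F g := by
  intro j x hx h0
  by_contra hxj
  have h1 : ∀ j', ((x j)⁻¹ • x) j' = if j' = j then 1 else 0 := by
    intro j'
    rw [Pi.smul_apply, smul_eq_mul]
    split_ifs with hj
    · rw [hj, inv_mul_cancel₀ hxj]
    · rw [hx j' hj, mul_zero]
  have h2 := h ((x j)⁻¹ • x) (fun j' => by
    rw [h1]
    split_ifs
    · rw [map_one]
    · rw [map_zero]
      exact zero_le_one) (by rw [hom_smul hg, h0, mul_zero])
  rw [aeval_sm, Finset.sum_eq_single j, h1, if_pos rfl, T.abs_sharp, map_one] at h2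
  · exact absurd h2 (not_le.2 hδ)
  · intro j' _ hj'
    rw [h1, if_neg hj']
    exact T.toTiltPair.sharp_zero
  · intro h
    exact absurd (Finset.mem_univ _) h

theorem good_PD (T : Tilting p C F) (B : BaseField T K E) (hab : b + 1 ≤ a) (hb : 0 < b)
    (σ : Fin a × Fin (b + 1) ≃ Fin (N + 1)) {O : Fin a × Fin (b + 1) → Prop} [DecidablePred O]
    (hO : OffBand O) {e : Fin a × Fin (b + 1) → ℕ} (he : ∀ x, 0 < e x)
    {α : Fin a → ℕ} {β : Fin (b + 1) → ℕ} (hαβ : ∀ x, ¬ O x → e x + β x.2 = α x.1) :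
    Good T.toTiltPair K E (PD C σ O e (sm b K)) ((a + 1) * b - 1 - no O) := by
  classical
  have hcone : IsConeOver K (PD C σ O e (sm b K)) := PD_cone σ he hαβ (sm_hom b K)
  have h0 : (0 : Fin (N + 1) → C) ∈ PD C σ O e (sm b K) := by
    refine ⟨fun _ _ => rfl, Or.inl ?_⟩
    funext x
    rw [Pi.zero_apply, zero_pow (he _).ne']
  have hle : DimLEOver K (PD C σ O e (sm b K)) ((a + 1) * b - 1 - no O) := by
    obtain ⟨q, hq, hq0⟩ := PD_dimLE (L := C) hab hb σ hO he (sm_unit b K C)
    exact ⟨q, fun j => ⟨1, one_pos, hq j⟩, hq0⟩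
  refine ⟨hcone, PD_dimGE hab hb σ hO he hαβ (sm_hom b K) one_pos (sm_unit b K C), hle, ?_⟩
  obtain ⟨r, S, hS, hSX⟩ := exists_forms hcone ⟨0, h0⟩
  refine approx_of_system T B hSX h0 hle fun δ hδ => ?_
  choose δ₁ hδ₁ h2 using fun x : Fin r × Fin (b + 1) => smallK T.toTiltPair
    (Sum.elim (fun i : Fin a => (∑ j, MvPolynomial.X (Sum.inl (σ (i, j))) ^ e (i, j) *
      MvPolynomial.X (Sum.inr j) : MvPolynomial (Fin (N + 1) ⊕ Fin (b + 1)) K))
      (fun t : {t // O t} => MvPolynomial.X (Sum.inl (σ t.1))))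
    (rename Sum.inl (S x.1) * MvPolynomial.X (Sum.inr x.2)) (fun v hv => by
      rw [map_mul, aeval_X, aeval_rename]
      by_cases hv0 : (fun j => v (Sum.inr j)) = 0
      · rw [show v (Sum.inr x.2) = 0 from congrFun hv0 x.2, mul_zero]
      · have h3 : (fun y => v (Sum.inl y)) ∈ PD C σ O e (sm b K) := by
          refine ⟨fun t ht => ?_, Or.inr ⟨_, hv0, fun i => ?_⟩⟩
          · have := hv (Sum.inr ⟨t, ht⟩)
            rwa [Sum.elim_inr, aeval_X] at this
          rw [aeval_sm]
          have := hv (Sum.inl i)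
          simpa [Equiv.symm_apply_apply] using this
        have h4 := (hSX _).1 h3 x.1
        have h5 : aeval (v ∘ Sum.inl) (S x.1) = 0 := h4
        rw [h5, zero_mul]) hδ
  obtain ⟨δa, hδa, hδa'⟩ := exists_pos_le δ₁ hδ₁
  obtain ⟨Q, hQ, g, hg, hga⟩ := approx T B one_pos (sm_hom b K)
    (show (0 : ℝ) < min δa (1 / 2) from lt_min hδa (by norm_num))
  have hu : Unit' F g := unit_of_approx T hg
    (lt_of_le_of_lt (min_le_right δa (1 / 2)) (by norm_num)) hga
  refine ⟨PD F σ O e g, PD_cone σ he hαβ hg, PD_dimGE hab hb σ hO he hαβ hg hQ hu, ?_⟩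
  rintro w ⟨hwO, hw⟩ hw1 k
  rcases hw with hw0 | ⟨v, hv, h1⟩
  · have h3 : (fun i => T.sharp (w i)) = (0 : Fin (N + 1) → C) := by
      funext i
      have : w i = 0 := pow_eq_zero_iff (he _).ne' |>.1 (congrFun hw0 i)
      rw [this]
      exact T.toTiltPair.sharp_zero
    rw [h3, aeval_zero_form (hS k), map_zero]
    exact hδ.le
  · obtain ⟨c, hc, hc1, j₀, hj₀⟩ := exists_normal T.toTiltPair hv
    have h3 := h2 (k, j₀) (Sum.elim (fun x => T.sharp (w x)) fun j => T.sharp (c * v j)) (by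
      rintro (x | j)
      · rw [Sum.elim_inl, T.abs_sharp]
        exact hw1 x
      · rw [Sum.elim_inr, T.abs_sharp]
        exact hc1 j) (by
      rintro (i | t)
      swap
      · rw [Sum.elim_inr, aeval_X, Sum.elim_inl, hwO _ t.2, T.toTiltPair.sharp_zero, map_zero]
        exact (hδ₁ _).le
      have h4 := hga (fun j => w (σ (i, j)) ^ e (i, j) * (c * v j)) (fun j => by
        rw [map_mul, map_pow]
        exact mul_le_one₀ (pow_le_one₀ (T.absF.nonneg _) (hw1 _)) (T.absF.nonneg _) (hc1 j)) (by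
        have h5 : (fun j => w (σ (i, j)) ^ e (i, j) * (c * v j)) =
            c • fun j => w (σ (i, j)) ^ e (σ.symm (σ (i, j))) * v j := by
          funext j
          simp only [Pi.smul_apply, smul_eq_mul, Equiv.symm_apply_apply]
          ring
        rw [h5, hom_smul hg, h1 i, mul_zero])
      rw [aeval_sm] at h4
      have h6 : aeval (Sum.elim (fun x => T.sharp (w x)) fun j => T.sharp (c * v j))
          (∑ j, MvPolynomial.X (Sum.inl (σ (i, j))) ^ e (i, j) *
            MvPolynomial.X (Sum.inr j) : MvPolynomial (Fin (N + 1) ⊕ Fin (b + 1)) K) =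
          ∑ j, T.sharp (w (σ (i, j)) ^ e (i, j) * (c * v j)) := by
        rw [map_sum]
        refine Finset.sum_congr rfl fun j _ => ?_
        rw [map_mul, map_pow, aeval_X, aeval_X, Sum.elim_inl, Sum.elim_inr, ← map_pow,
          ← map_mul]
      rw [Sum.elim_inl, h6]
      exact h4.trans ((min_le_left _ _).trans (hδa' (k, j₀))))
    rw [map_mul, aeval_X, Sum.elim_inr, map_mul, T.abs_sharp, hj₀, mul_one, aeval_rename,
      Sum.elim_comp_inl] at h3
    exact h3

/-- The points where the columns of the matrix `M` are linearly dependent. -/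
def Degen (C : Type) [Field C] {K : Type} [Field K] [Algebra K C] {a b n : ℕ}
    (M : Fin a → Fin (b + 1) → MvPolynomial (Fin (n + 1)) K) : Set (Fin (n + 1) → C) :=
  {z | ∃ v : Fin (b + 1) → C, v ≠ 0 ∧ ∀ i, ∑ j, aeval z (M i j) * v j = 0}

theorem good_degen (T : Tilting p C F) (B : BaseField T K E) (hab : b + 1 ≤ a) (hb : 0 < b)
    (M : Fin a → Fin (b + 1) → MvPolynomial (Fin (n + 1)) K) {α : Fin a → ℕ}
    {β : Fin (b + 1) → ℕ} (hM : ∀ i j, β j < α i → (M i j).IsHomogeneous (α i - β j))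
    (hM0 : ∀ i j, α i ≤ β j → M i j = 0)
    (hband : ∀ (i : Fin a) (j : Fin (b + 1)), (j : ℕ) ≤ (i : ℕ) →
      (i : ℕ) + (b + 1) ≤ (j : ℕ) + a → β j < α i) {d : ℕ}
    (hd : a + d ≤ n + b) (hle : DimLEOver K (Degen C M) d) :
    Good T.toTiltPair K E (Degen C M) d := by
  classical
  obtain ⟨N, hN⟩ : ∃ N, a * (b + 1) = N + 1 :=
    ⟨a * (b + 1) - 1, by have : 0 < a * (b + 1) := Nat.mul_pos (by omega) (by omega); omega⟩
  let σ : Fin a × Fin (b + 1) ≃ Fin (N + 1) := finProdFinEquiv.trans (finCongr hN)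
  let O : Fin a × Fin (b + 1) → Prop := fun x => α x.1 ≤ β x.2
  let e' : Fin a × Fin (b + 1) → ℕ := fun x => max 1 (α x.1 - β x.2)
  have he' : ∀ x, 0 < e' x := fun x => lt_of_lt_of_le one_pos (le_max_left _ _)
  have hO : OffBand O := by
    rintro ⟨i, j⟩ h ⟨h1, h2⟩
    exact absurd (hband i j h1 h2) (not_lt.2 h)
  have hαβ : ∀ x, ¬ O x → e' x + β x.2 = α x.1 := by
    intro x hx
    have h1 : β x.2 < α x.1 := not_le.1 hx
    have h2 : e' x = α x.1 - β x.2 := max_eq_right (by omega)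
    omega
  have hMe : ∀ x : Fin a × Fin (b + 1), ¬ O x → (M x.1 x.2).IsHomogeneous (e' x) := by
    intro x hx
    have h1 : β x.2 < α x.1 := not_le.1 hx
    have h2 : e' x = α x.1 - β x.2 := max_eq_right (by omega)
    rw [h2]
    exact hM _ _ h1
  have hJ := Good.join T B (good_PD T B hab hb σ hO he' hαβ) (Good.univ T B n)
  let g : {x : Fin (N + 1) // ¬ O (σ.symm x)} → MvPolynomial (Fin (N + 1) ⊕ Fin (n + 1)) K :=
    fun x => MvPolynomial.X (Sum.inl x.1) ^ e' (σ.symm x.1) -
      rename Sum.inr (M (σ.symm x.1).1 (σ.symm x.1).2)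
  have hg : ∀ i, IsForm (g i) := fun x =>
    ⟨e' (σ.symm x.1), he' _, (isHomogeneous_X_pow _ _).sub
      ((hMe _ x.2).rename_isHomogeneous)⟩
  have hge : ∀ (w : Fin (N + 1) ⊕ Fin (n + 1) → C) x, aeval w (g x) = 0 ↔
      w (Sum.inl x.1) ^ e' (σ.symm x.1) =
        aeval (fun t => w (Sum.inr t)) (M (σ.symm x.1).1 (σ.symm x.1).2) := by
    intro w x
    simp only [g, map_sub, map_pow, aeval_X, aeval_rename, sub_eq_zero]
    exact Iff.rfl
  set J : Set (Fin (N + 1) ⊕ Fin (n + 1) → C) :=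
    joinSet (PD C σ O e' (sm b K)) (Set.univ : Set (Fin (n + 1) → C)) with hJd
  have hwx : ∀ w ∈ {w | w ∈ J ∧ ∀ i, aeval w (g i) = 0}, ∀ x : Fin (N + 1),
      w (Sum.inl x) ^ e' (σ.symm x) =
        aeval (fun t => w (Sum.inr t)) (M (σ.symm x).1 (σ.symm x).2) := by
    rintro w ⟨hw, hwg⟩ x
    by_cases hx : O (σ.symm x)
    · have h0 := hw.1.1 _ hx
      rw [Equiv.apply_symm_apply] at h0
      have h1 : w (Sum.inl x) = 0 := h0
      rw [h1, zero_pow (he' _).ne', hM0 _ _ hx, map_zero]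
    · exact (hge w ⟨x, hx⟩).1 (hwg ⟨x, hx⟩)
  have hfree : Free {w | w ∈ J ∧ ∀ i, aeval w (g i) = 0} := by
    intro w hw hw0
    funext t
    rcases t with x | i
    · have h1 := hwx w hw x
      have h2 : (fun t => w (Sum.inr t)) = 0 := funext hw0
      have h3 : aeval (0 : Fin (n + 1) → C) (M (σ.symm x).1 (σ.symm x).2) = 0 := by
        by_cases hx : O (σ.symm x)
        · rw [hM0 _ _ hx, map_zero]
        · exact aeval_zero_form ⟨_, he' _, hMe _ hx⟩
      rw [h2, h3] at h1
      exact pow_eq_zero_iff (he' _).ne' |>.1 h1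
    · exact hw0 i
  have himg : TQ.powImage 1 {w | w ∈ J ∧ ∀ i, aeval w (g i) = 0} = Degen C M := by
    ext y
    constructor
    · rintro ⟨w, hw', hy⟩
      have e2 : (fun i => w (Sum.inr i)) = y := funext fun i => by rw [hy i, pow_one]
      have h1 : (fun x => w (Sum.inl x) ^ e' (σ.symm x)) ∈ Dg C σ (sm b K) := hw'.1.1.2
      have e1 : (fun x => w (Sum.inl x) ^ e' (σ.symm x)) =
          fun x => aeval y (M (σ.symm x).1 (σ.symm x).2) := funext fun x => by
        rw [hwx w hw' x, e2]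
      rw [e1] at h1
      rcases h1 with h1 | ⟨v, hv, h1⟩
      · refine ⟨fun _ => 1, fun h => one_ne_zero (congrFun h 0), fun i => ?_⟩
        refine Finset.sum_eq_zero fun j _ => ?_
        have h3 := congrFun h1 (σ (i, j))
        simp only [Equiv.symm_apply_apply] at h3
        rw [h3]
        exact zero_mul _
      · refine ⟨v, hv, fun i => ?_⟩
        have h3 := h1 i
        rw [aeval_sm] at h3
        simp only [Equiv.symm_apply_apply] at h3
        exact h3
    · rintro ⟨v, hv, h1⟩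
      choose s hs using fun x => IsAlgClosed.exists_pow_nat_eq
        (aeval y (M (σ.symm x).1 (σ.symm x).2)) (he' (σ.symm x))
      refine ⟨Sum.elim s y, ⟨⟨⟨fun x hx => ?_, ?_⟩, Set.mem_univ _⟩, fun x => ?_⟩, fun i => ?_⟩
      · change s (σ x) = 0
        have h2 := hs (σ x)
        rw [Equiv.symm_apply_apply, hM0 _ _ hx, map_zero] at h2
        exact pow_eq_zero_iff (he' _).ne' |>.1 h2
      · change (fun x => s x ^ e' (σ.symm x)) ∈ Dg C σ (sm b K)
        have e3 : (fun x => s x ^ e' (σ.symm x)) =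
            fun x => aeval y (M (σ.symm x).1 (σ.symm x).2) := funext hs
        rw [e3]
        right
        refine ⟨v, hv, fun i => ?_⟩
        rw [aeval_sm]
        simp only [Equiv.symm_apply_apply]
        exact h1 i
      · rw [hge, Sum.elim_inl, hs]
        rfl
      · rw [pow_one]
        rfl
  have hsle : DimLEOver K {w | w ∈ J ∧ ∀ i, aeval w (g i) = 0} d := by
    obtain ⟨q, hq, hq0⟩ := hle
    refine ⟨fun j => pw 1 (q j), fun j => pw_form one_pos (hq j), fun w hw hwq => ?_⟩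
    have h1 : (fun i => w (Sum.inr i) ^ 1) = 0 := by
      refine hq0 _ ?_ fun j => ?_
      · rw [← himg]
        exact ⟨w, hw, fun i => rfl⟩
      · rw [← aeval_pw]
        exact hwq j
    exact hfree w hw fun i => pow_eq_zero_iff one_ne_zero |>.1 (congrFun h1 i)
  have hcard : Fintype.card {x : Fin (N + 1) // ¬ O (σ.symm x)} + no O = N + 1 := by
    have h1 : Fintype.card {x : Fin (N + 1) // O (σ.symm x)} = no O :=
      Fintype.card_congr (σ.symm.subtypeEquiv fun x => Iff.rfl)
    have h2 := Fintype.card_subtype_compl (fun x : Fin (N + 1) => O (σ.symm x))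
    have h3 : Fintype.card {x : Fin (N + 1) // O (σ.symm x)} ≤ Fintype.card (Fin (N + 1)) :=
      Fintype.card_subtype_le _
    rw [Fintype.card_fin] at h2 h3
    omega
  have hcount : Fintype.card {x : Fin (N + 1) // ¬ O (σ.symm x)} + d ≤
      (a + 1) * b - 1 - no O + n + 1 := by
    have h5 : (a + 1) * b = a * b + b := by ring
    have h6 : a * (b + 1) = a * b + a := by ring
    have h7 := no_lt hab hb hO
    omega
  have hS := Good.section T B (d := d) hJ g hg hcount hsle
  have hP := Good.powImage T B hS one_pos hfree (by rw [himg]; exact hle)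
  rwa [himg] at hP

end Pool.Agent.X271.TR
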