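import Pool.Agent.X271.TrDet

/-!
# Matrices of powers with dependent columns
-/

set_option autoImplicit false
set_option linter.unusedSectionVars false
set_option linter.unusedVariables false

namespace Pool.Agent.X271.TR

open MvPolynomial Pool.Agent.Y129.TA Pool.Agent.X271.TQ
open Pool.Agent.Y129.TB (IsConeOver InTube Approximable DimLEOver form_map eval_map_alg BaseField
  approx)

section General

variable {L₀ L : Type} [Field L₀] [Field L] [Algebra L₀ L] {a b N : ℕ}

/-- the coordinates at the positions in `O` vanish and the powers of the coordinates lie in `Dg` -/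
def PD (L : Type) [Field L] [Algebra L₀ L] (σ : Fin a × Fin (b + 1) ≃ Fin (N + 1))
    (O : Fin a × Fin (b + 1) → Prop) (e : Fin a × Fin (b + 1) → ℕ)
    (g : MvPolynomial (Fin (b + 1)) L₀) : Set (Fin (N + 1) → L) :=
  {y | (∀ x, O x → y (σ x) = 0) ∧ (fun x => y x ^ e (σ.symm x)) ∈ Dg L σ g}

/-- `g` is not zero at the nonzero multiples of the unit vectors -/
def Unit' (L : Type) [Field L] [Algebra L₀ L] (g : MvPolynomial (Fin (b + 1)) L₀) : Prop :=
  ∀ (j : Fin (b + 1)) (x : Fin (b + 1) → L), (∀ j', j' ≠ j → x j' = 0) → aeval x g = 0 → x j = 0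

/-- the linear forms -/
noncomputable def lf (L₀ : Type) [Field L₀] (σ : Fin a × Fin (b + 1) ≃ Fin (N + 1))
    (x : Idx a b) : MvPolynomial (Fin (N + 1)) L₀ :=
  if h : InBand a b x.1 then MvPolynomial.X (σ x.1) - MvPolynomial.X (σ (nxt x.1 h))
    else MvPolynomial.X (σ x.1)

theorem lf_hom (σ : Fin a × Fin (b + 1) ≃ Fin (N + 1)) (x : Idx a b) :
    (lf L₀ σ x).IsHomogeneous 1 := by
  unfold lf
  split_ifs
  · exact (isHomogeneous_X _ _).sub (isHomogeneous_X _ _)
  · exact isHomogeneous_X _ _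

theorem lf_lin (σ : Fin a × Fin (b + 1) ≃ Fin (N + 1)) {y : Fin (N + 1) → L}
    (h : ∀ x : Idx a b, aeval y (lf L₀ σ x) = 0) : Lin fun x => y (σ x) := by
  intro x hx
  have h1 := h ⟨x, hx⟩
  unfold lf at h1
  split_ifs with h2
  · rw [dif_pos h2, map_sub, aeval_X, aeval_X] at h1
    exact h1
  · rw [dif_neg h2, aeval_X] at h1
    exact h1

/-- the positions in `O` are not in the band -/
def OffBand (O : Fin a × Fin (b + 1) → Prop) : Prop :=
  ∀ x : Fin a × Fin (b + 1), O x → ¬ ((x.2 : ℕ) ≤ x.1 ∧ (x.1 : ℕ) + (b + 1) ≤ x.2 + a)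

theorem PD_zero (hab : b + 1 ≤ a) (σ : Fin a × Fin (b + 1) ≃ Fin (N + 1))
    {O : Fin a × Fin (b + 1) → Prop} [DecidablePred O] (hO : OffBand O)
    {e : Fin a × Fin (b + 1) → ℕ} (he : ∀ x, 0 < e x) {g : MvPolynomial (Fin (b + 1)) L₀}
    (hg : Unit' L g) {y : Fin (N + 1) → L} (hy : y ∈ PD L σ O e g)
    (h : ∀ x : Idx a b, ¬ O x.1 → aeval y (lf L₀ σ x) = 0) : y = 0 := by
  have h' : ∀ x : Idx a b, aeval y (lf L₀ σ x) = 0 := by
    intro x
    by_cases hx : O x.1
    · unfold lf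
      rw [dif_neg fun h2 => hO _ hx ⟨h2.2.1, h2.2.2⟩, aeval_X]
      exact hy.1 _ hx
    · exact h x hx
  rcases hy.2 with h0 | ⟨v, hv, h1⟩
  · funext x
    exact pow_eq_zero_iff (he _).ne' |>.1 (congrFun h0 x)
  · have h2 := lin_zero hab (lf_lin σ h') he hv (fun i j hj => by
      have h3 := h1 i
      simp only [Equiv.symm_apply_apply] at h3
      exact hg j _ hj h3)
    funext x
    have := congrFun h2 (σ.symm x)
    simpa using this

/-- the number of positions in `O` -/
def no (O : Fin a × Fin (b + 1) → Prop) [DecidablePred O] : ℕ := Fintype.card {x // O x}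

theorem card_off (hab : b + 1 ≤ a) {O : Fin a × Fin (b + 1) → Prop} [DecidablePred O]
    (hO : OffBand O) : Fintype.card {x : Idx a b // ¬ O x.1} + no O = (a + 1) * b := by
  classical
  have h1 : Fintype.card {x : Idx a b // O x.1} = no O := by
    unfold no
    refine Fintype.card_congr
      { toFun := fun x => ⟨x.1.1, x.2⟩
        invFun := fun x => ⟨⟨x.1, fun h => hO _ x.2 ⟨by rw [h.1]; exact h.2, by
          rw [h.1]
          have := x.1.1.2
          omega⟩⟩, x.2⟩
        left_inv := fun x => rfl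
        right_inv := fun x => rfl }
  have h2 := Fintype.card_subtype_compl (fun x : Idx a b => O x.1)
  have h3 : Fintype.card {x : Idx a b // O x.1} ≤ Fintype.card (Idx a b) :=
    Fintype.card_subtype_le _
  rw [card_idx (by omega)] at h2 h3
  omega

theorem no_lt (hab : b + 1 ≤ a) (hb : 0 < b) {O : Fin a × Fin (b + 1) → Prop} [DecidablePred O]
    (hO : OffBand O) : no O + 1 ≤ (a + 1) * b := by
  have h1 := card_off hab hO
  have h2 : 0 < Fintype.card {x : Idx a b // ¬ O x.1} := by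
    rw [Fintype.card_pos_iff]
    refine ⟨⟨⟨(⟨0, by omega⟩, ⟨0, by omega⟩), fun h => ?_⟩, fun h => hO _ h ⟨by simp, by simp; omega⟩⟩⟩
    have := h.1
    simp at this
    omega
  omega

theorem PD_dimLE (hab : b + 1 ≤ a) (hb : 0 < b) (σ : Fin a × Fin (b + 1) ≃ Fin (N + 1))
    {O : Fin a × Fin (b + 1) → Prop} [DecidablePred O] (hO : OffBand O)
    {e : Fin a × Fin (b + 1) → ℕ} (he : ∀ x, 0 < e x) {g : MvPolynomial (Fin (b + 1)) L₀}
    (hg : Unit' L g) :
    ∃ q : Fin ((a + 1) * b - 1 - no O + 1) → MvPolynomial (Fin (N + 1)) L₀,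
      (∀ j, (q j).IsHomogeneous 1) ∧ ∀ y ∈ PD L σ O e g, (∀ j, aeval y (q j) = 0) → y = 0 := by
  have hc : Fintype.card {x : Idx a b // ¬ O x.1} = (a + 1) * b - 1 - no O + 1 := by
    have h1 := card_off hab hO
    have h2 := no_lt hab hb hO
    omega
  let E := (Fintype.equivFin {x : Idx a b // ¬ O x.1}).trans (finCongr hc)
  refine ⟨fun j => lf L₀ σ (E.symm j).1, fun j => lf_hom σ _, fun y hy h => ?_⟩
  refine PD_zero hab σ hO he hg hy fun x hx => ?_
  have h1 := h (E ⟨x, hx⟩)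
  simp only [Equiv.symm_apply_apply] at h1
  exact h1

theorem Dg_scale (σ : Fin a × Fin (b + 1) ≃ Fin (N + 1)) {g : MvPolynomial (Fin (b + 1)) L₀}
    {Q : ℕ} [IsAlgClosed L] (hg : g.IsHomogeneous Q) {m : Fin (N + 1) → L} (hm : m ∈ Dg L σ g)
    (s : Fin a → L) (t : Fin (b + 1) → L) (ht : ∀ j, t j ≠ 0) :
    (fun x => s (σ.symm x).1 * t (σ.symm x).2 * m x) ∈ Dg L σ g := by
  rcases hm with rfl | ⟨v, hv, h1⟩
  · left
    funext x
    simp
  · right
    refine ⟨fun j => (t j)⁻¹ * v j, fun h0 => hv (funext fun j => ?_), fun i => ?_⟩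
    · have := congrFun h0 j
      exact (mul_eq_zero.1 this).resolve_left (inv_ne_zero (ht j))
    · have h2 : (fun j => s (σ.symm (σ (i, j))).1 * t (σ.symm (σ (i, j))).2 * m (σ (i, j)) *
          ((t j)⁻¹ * v j)) = s i • fun j => m (σ (i, j)) * v j := by
        funext j
        rw [Equiv.symm_apply_apply]
        have := ht j
        simp only [Pi.smul_apply, smul_eq_mul]
        field_simp
      rw [h2, hom_smul hg, h1, mul_zero]

theorem PD_cone [IsAlgClosed L] (σ : Fin a × Fin (b + 1) ≃ Fin (N + 1))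
    {O : Fin a × Fin (b + 1) → Prop}
    {e : Fin a × Fin (b + 1) → ℕ} (he : ∀ x, 0 < e x) {α : Fin a → ℕ} {β : Fin (b + 1) → ℕ}
    (hαβ : ∀ x, ¬ O x → e x + β x.2 = α x.1) {g : MvPolynomial (Fin (b + 1)) L₀} {Q : ℕ}
    (hg : g.IsHomogeneous Q) : IsConeOver L₀ (PD L σ O e g) := by
  classical
  obtain ⟨⟨J, hJ⟩, hc⟩ := Dg_cone (L := L) σ hg
  have hev : ∀ (y : Fin (N + 1) → L) (f : MvPolynomial (Fin (N + 1)) L₀),
      aeval y (aeval (fun x => (MvPolynomial.X x : MvPolynomial (Fin (N + 1)) L₀) ^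
        e (σ.symm x)) f) = aeval (fun x => y x ^ e (σ.symm x)) f := by
    intro y f
    have h : ((aeval y : MvPolynomial (Fin (N + 1)) L₀ →ₐ[L₀] L).comp
        (aeval (fun x => (MvPolynomial.X x : MvPolynomial (Fin (N + 1)) L₀) ^
          e (σ.symm x)))) = aeval fun x => y x ^ e (σ.symm x) := by
      ext i
      simp
    exact congrArg (fun ψ : MvPolynomial (Fin (N + 1)) L₀ →ₐ[L₀] L => ψ f) h
  refine ⟨⟨Ideal.map (aeval (fun x => (MvPolynomial.X x : MvPolynomial (Fin (N + 1)) L₀) ^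
    e (σ.symm x)) : MvPolynomial (Fin (N + 1)) L₀ →ₐ[L₀] _) J ⊔
      Ideal.span {f | ∃ x, O x ∧ f = MvPolynomial.X (σ x)}, ?_⟩, ?_⟩
  · ext y
    rw [mem_zeroLocus_iff]
    change (∀ x, O x → y (σ x) = 0) ∧ (fun x => y x ^ e (σ.symm x)) ∈ Dg L σ g ↔ _
    rw [hJ, mem_zeroLocus_iff]
    constructor
    · rintro ⟨hO, h⟩ f hf
      have h1 : Ideal.map (aeval (fun x => (MvPolynomial.X x : MvPolynomial (Fin (N + 1)) L₀) ^
          e (σ.symm x)) : MvPolynomial (Fin (N + 1)) L₀ →ₐ[L₀] _) J ⊔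
            Ideal.span {f | ∃ x, O x ∧ f = MvPolynomial.X (σ x)} ≤
            RingHom.ker (aeval y : MvPolynomial (Fin (N + 1)) L₀ →ₐ[L₀] L) := by
        rw [sup_le_iff, Ideal.map_le_iff_le_comap, Ideal.span_le]
        refine ⟨fun f hf => ?_, ?_⟩
        · change aeval y (aeval _ f) = 0
          rw [hev]
          exact h f hf
        · rintro _ ⟨x, hx, rfl⟩
          change aeval y (MvPolynomial.X (σ x)) = 0
          rw [aeval_X]
          exact hO x hx
      exact h1 hf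
    · intro h
      refine ⟨fun x hx => ?_, fun f hf => ?_⟩
      · have := h (MvPolynomial.X (σ x)) (Ideal.mem_sup_right (Ideal.subset_span ⟨x, hx, rfl⟩))
        rwa [aeval_X] at this
      · rw [← hev]
        exact h _ (Ideal.mem_sup_left (Ideal.mem_map_of_mem _ hf))
  · rintro c y ⟨hyO, hy⟩
    refine ⟨fun x hx => by rw [Pi.smul_apply, hyO x hx, smul_zero], ?_⟩
    by_cases hc0 : c = 0
    · left
      funext x
      rw [hc0, zero_smul, Pi.zero_apply, zero_pow (he _).ne']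
    · have h1 := Dg_scale σ hg hy (fun i => c ^ α i) (fun j => (c ^ β j)⁻¹)
        fun j => inv_ne_zero (pow_ne_zero _ hc0)
      have h2 : (fun x => (c • y) x ^ e (σ.symm x)) =
          fun x => c ^ α (σ.symm x).1 * (c ^ β (σ.symm x).2)⁻¹ * (y x ^ e (σ.symm x)) := by
        funext x
        by_cases hx : O (σ.symm x)
        · have h3 := hyO _ hx
          rw [Equiv.apply_symm_apply] at h3
          rw [Pi.smul_apply, h3, smul_zero, zero_pow (he _).ne', mul_zero]
        · rw [Pi.smul_apply, smul_eq_mul, mul_pow, ← hαβ _ hx, pow_add,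
            mul_assoc (c ^ _) (c ^ _), mul_inv_cancel₀ (pow_ne_zero _ hc0), mul_one]
      rw [h2]
      exact h1

theorem PD_dimGE [IsAlgClosed L] (hab : b + 1 ≤ a) (hb : 0 < b)
    (σ : Fin a × Fin (b + 1) ≃ Fin (N + 1)) {O : Fin a × Fin (b + 1) → Prop} [DecidablePred O]
    (hO : OffBand O) {e : Fin a × Fin (b + 1) → ℕ} (he : ∀ x, 0 < e x)
    {α : Fin a → ℕ} {β : Fin (b + 1) → ℕ} (hαβ : ∀ x, ¬ O x → e x + β x.2 = α x.1)
    {g : MvPolynomial (Fin (b + 1)) L₀} {Q : ℕ} (hg : g.IsHomogeneous Q) (hQ : 0 < Q)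
    (hu : Unit' L g) : DimGE (PD L σ O e g) ((a + 1) * b - 1 - no O) := by
  classical
  have h0 : (0 : Fin (N + 1) → L) ∈ PD L σ O e g := by
    refine ⟨fun x _ => rfl, Or.inl ?_⟩
    funext x
    rw [Pi.zero_apply, zero_pow (he _).ne']
  obtain ⟨r, G, hG, hGX⟩ := exists_forms (PD_cone (L := L) σ he hαβ hg) ⟨0, h0⟩
  obtain ⟨q, hq, hq0⟩ := PD_dimLE (L := L) hab hb σ hO (e := fun _ => 1) (fun _ => one_pos) hu
  -- the linear section of `Dg`
  have hXf : ∀ x : {x // O x}, IsForm (MvPolynomial.X (σ x.1) : MvPolynomial (Fin (N + 1)) L₀) :=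
    fun x => ⟨1, one_pos, isHomogeneous_X _ _⟩
  have hscone := cone_section (Dg_cone (L := L) σ hg)
    (fun x : {x // O x} => (MvPolynomial.X (σ x.1) : MvPolynomial (Fin (N + 1)) L₀)) hXf
  have hsdim := dimGE_section (L := L₀) (Dg_dimGE (L := L) hab hb σ hg hQ)
    (fun x : {x // O x} => (MvPolynomial.X (σ x.1) : MvPolynomial (Fin (N + 1)) L₀)) hXf
    (d := (a + 1) * b - 1 - no O) (by
      have h1 := no_lt hab hb hO
      have h2 : Fintype.card {x // O x} = no O := rfl
      omega)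
  have hsurj := surj_of_dim hscone.2 hsdim
    (fun j => MvPolynomial.map (algebraMap L₀ L) (q j)) one_pos (fun j => (hq j).map _)
    (fun y hy h => hq0 y (by
      refine ⟨fun x hx => ?_, ?_⟩
      · have := hy.2 ⟨x, hx⟩
        rwa [aeval_X] at this
      · simpa only [pow_one] using hy.1) fun j => by
        rw [← eval_map_alg]
        exact h j)
  refine dimGE_of_dominant _ (fun k => form_map (hG k)) hGX.isVar
    (β := Fin ((a + 1) * b - 1 - no O + 1)) (by rw [Nat.card_eq_fintype_card, Fintype.card_fin])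
    (fun j => aeval (fun x => (MvPolynomial.X x : MvPolynomial (Fin (N + 1)) L) ^ e (σ.symm x))
      (MvPolynomial.map (algebraMap L₀ L) (q j))) fun c => ?_
  obtain ⟨m, hm, hmc⟩ := hsurj c
  choose y hy using fun x => IsAlgClosed.exists_pow_nat_eq (m x) (he (σ.symm x))
  have hym : (fun x => y x ^ e (σ.symm x)) = m := funext hy
  refine ⟨y, ⟨fun x hx => ?_, ?_⟩, fun j => ?_⟩
  · have h1 := hm.2 ⟨x, hx⟩
    rw [aeval_X] at h1
    have h2 := hy (σ x)
    rw [h1] at h2
    exact pow_eq_zero_iff (he _).ne' |>.1 h2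
  · change (fun x => y x ^ e (σ.symm x)) ∈ Dg L σ g
    rw [hym]
    exact hm.1
  have h : ((aeval y : MvPolynomial (Fin (N + 1)) L →ₐ[L] L).comp
      (aeval (fun x => (MvPolynomial.X x : MvPolynomial (Fin (N + 1)) L) ^
        e (σ.symm x)))) = aeval fun x => y x ^ e (σ.symm x) := by
    ext i
    simp
  have h2 := congrArg (fun ψ : MvPolynomial (Fin (N + 1)) L →ₐ[L] L =>
    ψ (MvPolynomial.map (algebraMap L₀ L) (q j))) h
  simp only [AlgHom.comp_apply] at h2
  rw [hym, aeval_eq_eval, aeval_eq_eval] at h2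
  rw [← hmc j, ← h2]

end General

end Pool.Agent.X271.TR
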