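import Pool.Agent.X271.TqCls

/-!
# Descent of the field of definition of the approximating varieties
-/

set_option autoImplicit false
set_option linter.unusedSectionVars false
set_option linter.unusedVariables false

namespace Pool.Agent.X271.TS

open MvPolynomial Pool.Agent.Y129.TA Pool.Agent.X271.TQ
open Pool.Agent.Y129.TB (IsConeOver InTube Approximable DimLEOver form_map eval_map_alg BaseField
  approx)

/-- The group `Γ` acts on `C` by automorphisms over `K` which preserve the absolute value, and
compatibly on `F`, and the elements of `F` which are fixed by `Γ` are in `E`. -/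
structure GaloisAction {p : ℕ} {C F : Type} [Field C] [Field F] (T : TiltPair p C F) (K E : Type)
    [Field K] [Field E] [Algebra K C] [Algebra E F] (Γ : Type) [Group Γ] [MulSemiringAction Γ C]
    [MulSemiringAction Γ F] : Prop where
  smul_K : ∀ (γ : Γ) (x : K), γ • algebraMap K C x = algebraMap K C x
  abs_smul : ∀ (γ : Γ) (x : C), T.absK (γ • x) = T.absK x
  sharp_smul : ∀ (γ : Γ) (y : F), T.sharp (γ • y) = γ • T.sharp y
  fixed : ∀ y : F, (∀ γ : Γ, γ • y = y) → ∃ e : E, algebraMap E F e = y

section Descent

variable {F E Γ σ : Type} [Field F] [Field E] [Algebra E F] [Group Γ] [MulSemiringAction Γ F]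
  [Fintype σ]

/-- the action on the coefficients -/
noncomputable def act (γ : Γ) : MvPolynomial σ F →+* MvPolynomial σ F :=
  MvPolynomial.map (MulSemiringAction.toRingHom Γ F γ)

theorem coeff_act (γ : Γ) (f : MvPolynomial σ F) (α : σ →₀ ℕ) :
    coeff α (act γ f) = γ • coeff α f := by
  unfold act
  rw [coeff_map]
  rfl

theorem eval_act (γ : Γ) (f : MvPolynomial σ F) (y : σ → F) :
    eval (fun i => γ • y i) (act γ f) = γ • eval y f := by
  have h : ((eval fun i => γ • y i).comp (act γ : MvPolynomial σ F →+* MvPolynomial σ F)) =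
      (MulSemiringAction.toRingHom Γ F γ).comp (eval y) := by
    refine MvPolynomial.ringHom_ext (fun a => ?_) fun i => ?_
    · simp [act]
    · simp [act]
  exact congrArg (fun ψ : MvPolynomial σ F →+* F => ψ f) h

theorem descent (hfix : ∀ y : F, (∀ γ : Γ, γ • y = y) → ∃ e : E, algebraMap E F e = y)
    (I : Ideal (MvPolynomial σ F)) (hI : ∀ (γ : Γ), ∀ f ∈ I, act γ f ∈ I) (y : σ → F)
    (hy : ∀ g : MvPolynomial σ E, MvPolynomial.map (algebraMap E F) g ∈ I → aeval y g = 0) :
    ∀ (N : ℕ), ∀ f ∈ I, f.support.card ≤ N → eval y f = 0 := by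
  classical
  intro N
  induction N with
  | zero =>
    intro f hf hN
    have : f = 0 := by
      rw [← support_eq_empty]
      exact Finset.card_eq_zero.1 (by omega)
    rw [this, map_zero]
  | succ N ih =>
    intro f hf hN
    by_cases hf0 : f = 0
    · rw [hf0, map_zero]
    -- minimal support
    have hex : ∃ k : ℕ, ∃ h ∈ I, h ≠ 0 ∧ h.support ⊆ f.support ∧ h.support.card = k :=
      ⟨_, f, hf, hf0, subset_rfl, rfl⟩
    obtain ⟨h, hh, hh0, hsub, hcard⟩ := Nat.find_spec hex
    have hmin : ∀ h' ∈ I, h'.support ⊆ f.support → h'.support.card < h.support.card → h' = 0 := by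
      intro h' h1 h2 h3
      by_contra h4
      rw [hcard] at h3
      exact Nat.find_min hex h3 ⟨h', h1, h4, h2, rfl⟩
    obtain ⟨α, hα⟩ : ∃ α, α ∈ h.support := by
      by_contra hno
      push Not at hno
      exact hh0 (support_eq_empty.1 (Finset.eq_empty_of_forall_notMem hno))
    have hc : coeff α h ≠ 0 := mem_support_iff.1 hα
    set h1 : MvPolynomial σ F := C (coeff α h)⁻¹ * h with hh1
    have h1I : h1 ∈ I := I.mul_mem_left _ hh
    have hcoef : ∀ β, coeff β h1 = (coeff α h)⁻¹ * coeff β h := fun β => coeff_C_mul _ _ _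
    have h1α : coeff α h1 = 1 := by rw [hcoef, inv_mul_cancel₀ hc]
    have h1s : ∀ β, β ∉ h.support → coeff β h1 = 0 := fun β hβ => by
      rw [hcoef, notMem_support_iff.1 hβ, mul_zero]
    have hfixed : ∀ γ : Γ, act γ h1 = h1 := by
      intro γ
      have h2 : act γ h1 - h1 = 0 := by
        have hs : (act γ h1 - h1).support ⊆ h.support.erase α := by
          intro β hβ
          rw [mem_support_iff, coeff_sub, coeff_act] at hβ
          rw [Finset.mem_erase]
          constructor
          · rintro rfl
            apply hβ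
            rw [h1α, smul_one, sub_self]
          · by_contra hno
            apply hβ
            rw [h1s β hno, smul_zero, sub_zero]
        refine hmin _ (I.sub_mem (hI γ _ h1I) h1I)
          (hs.trans ((Finset.erase_subset _ _).trans hsub)) ?_
        exact lt_of_le_of_lt (Finset.card_le_card hs) (Finset.card_erase_lt_of_mem hα)
      exact sub_eq_zero.1 h2
    choose e he using fun β => hfix (coeff β h1) (fun γ => by rw [← coeff_act, hfixed])
    let g : MvPolynomial σ E := ∑ β ∈ h.support, monomial β (e β)
    have hg : MvPolynomial.map (algebraMap E F) g = h1 := by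
      ext β
      rw [coeff_map]
      simp only [g, coeff_sum, coeff_monomial, Finset.sum_ite_eq']
      split_ifs with hβ
      · rw [he]
      · rw [map_zero, h1s β hβ]
    have hgy : eval y h1 = 0 := by
      rw [← hg, eval_map_alg]
      exact hy g (by rw [hg]; exact h1I)
    have hf2 : f - C (coeff α f) * h1 ∈ I := I.sub_mem hf (I.mul_mem_left _ h1I)
    have hsupp : (f - C (coeff α f) * h1).support ⊆ f.support.erase α := by
      intro β hβ
      rw [mem_support_iff, coeff_sub, coeff_C_mul] at hβ
      rw [Finset.mem_erase]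
      constructor
      · rintro rfl
        apply hβ
        rw [h1α, mul_one, sub_self]
      · by_contra hno
        apply hβ
        rw [notMem_support_iff.1 hno, h1s β fun h => hno (hsub h), mul_zero, sub_zero]
    have h3 := ih _ hf2 (by
      have := Finset.card_le_card hsupp
      rw [Finset.card_erase_of_mem (hsub hα)] at this
      omega)
    rw [map_sub, map_mul, hgy, mul_zero, sub_zero] at h3
    exact h3

/-- A closed subset which is stable under `Γ` is defined over `E`. -/
theorem closed_descent (hfix : ∀ y : F, (∀ γ : Γ, γ • y = y) → ∃ e : E, algebraMap E F e = y)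
    {W : Set (σ → F)} (hW : ∀ (γ : Γ), ∀ w ∈ W, (fun i => γ • w i) ∈ W)
    (hcl : ∀ y, y ∉ W → ∃ f : MvPolynomial σ F, (∀ w ∈ W, eval w f = 0) ∧ eval y f ≠ 0) :
    ∃ J : Ideal (MvPolynomial σ E), W = zeroLocus F J := by
  classical
  let I : Ideal (MvPolynomial σ F) :=
    { carrier := {f | ∀ w ∈ W, eval w f = 0}
      add_mem' := fun {f g} hf hg w hw => by rw [map_add, hf w hw, hg w hw, add_zero]
      zero_mem' := fun w _ => map_zero _
      smul_mem' := fun c f hf w hw => by rw [smul_eq_mul, map_mul, hf w hw, mul_zero] }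
  have hI : ∀ (γ : Γ), ∀ f ∈ I, act γ f ∈ I := by
    intro γ f hf w hw
    have h1 : w = fun i => γ • ((fun i => γ⁻¹ • w i) i) := by
      funext i
      rw [smul_inv_smul]
    rw [h1, eval_act, hf _ (hW γ⁻¹ w hw), smul_zero]
  refine ⟨I.comap (MvPolynomial.map (algebraMap E F)), ?_⟩
  ext y
  rw [mem_zeroLocus_iff]
  constructor
  · intro hy g hg
    rw [← eval_map_alg]
    exact hg y hy
  · intro hy
    by_contra hno
    obtain ⟨f, hf, hfy⟩ := hcl y hno
    exact hfy (descent hfix I hI y (fun g hg => hy g hg) _ f hf le_rfl)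

end Descent

end Pool.Agent.X271.TS
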