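import Pool.Agent.X271.TsGal

/-!
# Descent of Q1 along finite extensions
-/

set_option autoImplicit false
set_option linter.unusedSectionVars false
set_option linter.unusedVariables false

namespace Pool.Agent.X271.TS

open MvPolynomial Pool.Agent.Y129.TA Pool.Agent.X271.TQ
open Pool.Agent.Y129.TB (IsConeOver InTube Approximable DimLEOver form_map eval_map_alg BaseField
  approx)

variable {p : ℕ} [hp : Fact p.Prime] {C F K E : Type} [Field C] [Field F] [CharP F p] [Field K]
  [Field E] [Algebra K C] [Algebra E F] [IsAlgClosed C] [IsAlgClosed F] {ι : Type} [Fintype ι]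

/-- the union of the translates -/
def orb {F : Type} (Γ : Type) [SMul Γ F] {ι : Type} (Y : Set (ι → F)) : Set (ι → F) :=
  {w | ∃ γ : Γ, ∃ y ∈ Y, w = fun i => γ • y i}

theorem orb_cone {Γ E' : Type} [Group Γ] [MulSemiringAction Γ F] [Field E'] [Algebra E' F]
    (hfix : ∀ y : F, (∀ γ : Γ, γ • y = y) → ∃ e : E, algebraMap E F e = y)
    (Γ' : Subgroup Γ) [Γ'.FiniteIndex]
    (hΓ' : ∀ γ ∈ Γ', ∀ e : E', γ • algebraMap E' F e = algebraMap E' F e)
    {Y : Set (ι → F)} (hY : IsConeOver E' Y) : IsConeOver E (orb Γ Y) := by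
  classical
  obtain ⟨⟨J, hJ⟩, hc⟩ := hY
  have hst : ∀ γ ∈ Γ', ∀ y ∈ Y, (fun i => γ • y i) ∈ Y := by
    intro γ hγ y hy
    rw [hJ, mem_zeroLocus_iff] at hy ⊢
    intro f hf
    have h1 : act γ (MvPolynomial.map (algebraMap E' F) f) = MvPolynomial.map (algebraMap E' F) f := by
      ext α
      rw [coeff_act, coeff_map, hΓ' γ hγ]
    have h2 := eval_act γ (MvPolynomial.map (algebraMap E' F) f) y
    rw [h1, eval_map_alg, eval_map_alg, hy f hf, smul_zero] at h2
    exact h2
  refine ⟨closed_descent (Γ := Γ) hfix ?_ ?_, ?_⟩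
  · rintro γ w ⟨γ₁, y, hy, rfl⟩
    exact ⟨γ * γ₁, y, hy, funext fun i => (mul_smul _ _ _).symm⟩
  · intro y hy
    have := Fintype.ofFinite (Γ ⧸ Γ')
    have hq : ∀ c : Γ ⧸ Γ', ∃ f : MvPolynomial ι F,
        (∀ w ∈ Y, eval (fun i => (Quotient.out c : Γ) • w i) f = 0) ∧ eval y f ≠ 0 := by
      intro c
      have h1 : (fun i => (Quotient.out c : Γ)⁻¹ • y i) ∉ Y := by
        intro h
        apply hy
        exact ⟨Quotient.out c, _, h, funext fun i => (smul_inv_smul _ _).symm⟩
      rw [hJ, mem_zeroLocus_iff] at h1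
      push Not at h1
      obtain ⟨f, hf, hf0⟩ := h1
      refine ⟨act (Quotient.out c : Γ) (MvPolynomial.map (algebraMap E' F) f),
        fun w hw => ?_, ?_⟩
      · rw [eval_act, eval_map_alg]
        rw [hJ, mem_zeroLocus_iff] at hw
        rw [hw f hf, smul_zero]
      · have h2 : y = fun i => (Quotient.out c : Γ) •
            ((fun i => (Quotient.out c : Γ)⁻¹ • y i) i) :=
          funext fun i => (smul_inv_smul _ _).symm
        rw [h2, eval_act, eval_map_alg]
        intro h3
        exact hf0 ((smul_eq_zero_iff_eq _).1 h3)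
    choose f hf hf0 using hq
    refine ⟨∏ c, f c, ?_, ?_⟩
    · rintro w ⟨γ, z, hz, rfl⟩
      rw [map_prod]
      refine Finset.prod_eq_zero (Finset.mem_univ (QuotientGroup.mk γ : Γ ⧸ Γ')) ?_
      have h1 : (Quotient.out (QuotientGroup.mk γ : Γ ⧸ Γ') : Γ)⁻¹ * γ ∈ Γ' := by
        rw [← QuotientGroup.eq]
        exact QuotientGroup.out_eq' _
      have h2 := hf (QuotientGroup.mk γ : Γ ⧸ Γ') _ (hst _ h1 z hz)
      have h3 : (fun i => γ • z i) = fun i =>
          (Quotient.out (QuotientGroup.mk γ : Γ ⧸ Γ') : Γ) •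
            (((Quotient.out (QuotientGroup.mk γ : Γ ⧸ Γ') : Γ)⁻¹ * γ) • z i) := by
        funext i
        rw [← mul_smul, mul_inv_cancel_left]
      rw [h3]
      exact h2
    · rw [map_prod]
      exact Finset.prod_ne_zero_iff.2 fun c _ => hf0 c
  · rintro a w ⟨γ, y, hy, rfl⟩
    refine ⟨γ, (γ⁻¹ • a) • y, hc _ y hy, funext fun i => ?_⟩
    rw [Pi.smul_apply, Pi.smul_apply, smul_eq_mul, smul_eq_mul, smul_mul', smul_inv_smul]

/-- Q1 over a finite extension implies Q1. -/
theorem descend (T : Tilting p C F) (B : BaseField T K E) {Γ : Type} [Group Γ]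
    [MulSemiringAction Γ C] [MulSemiringAction Γ F] (A : GaloisAction T.toTiltPair K E Γ)
    {K' E' : Type} [Field K'] [Field E'] [Algebra K' C] [Algebra E' F] [Algebra K K']
    [IsScalarTower K K' C] (Γ' : Subgroup Γ) [Γ'.FiniteIndex]
    (hΓ' : ∀ γ ∈ Γ', ∀ e : E', γ • algebraMap E' F e = algebraMap E' F e) [Nonempty ι]
    {X : Set (ι → C)} {d : ℕ} (hX : IsConeOver K X) (hd : DimLEOver K X d) (hne : X.Nonempty)
    (h : Approximable T.toTiltPair K' E' X d) : Approximable T.toTiltPair K E X d := by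
  classical
  have h0 := IsConeOver.zero_mem hX hne
  obtain ⟨r, S, hS, hSX⟩ := exists_forms hX hne
  have hmap : ∀ (k : Fin r) (z : ι → C),
      aeval z (MvPolynomial.map (algebraMap K K') (S k)) = aeval z (S k) := by
    intro k z
    exact aeval_map_algebraMap K' z (S k)
  refine approx_of_system T B hSX h0 hd fun δ hδ => ?_
  obtain ⟨W, a1, a2, a3, a4⟩ := system_of_approx T.toTiltPair
    (S := fun k => MvPolynomial.map (algebraMap K K') (S k)) (fun k => form_map (hS k))
    (X := X) (fun x hx k => by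
      rw [hmap]
      exact (hSX x).1 hx k) h hδ
  have habs : ∀ (γ : Γ) (y : F), T.absF (γ • y) = T.absF y := by
    intro γ y
    rw [← T.abs_sharp, A.sharp_smul, A.abs_smul, T.abs_sharp]
  refine ⟨orb Γ W, orb_cone A.fixed Γ' hΓ' a1, ?_, ?_⟩
  · intro q hq
    obtain ⟨y, hy, h1⟩ := a2 q hq
    exact ⟨y, ⟨1, y, hy, funext fun i => (one_smul _ _).symm⟩, h1⟩
  · rintro w ⟨γ, y, hy, rfl⟩ hw1 k
    have h1 : ∀ i, T.absF (y i) ≤ 1 := fun i => by
      rw [← habs γ]
      exact hw1 i
    have h2 := a4 y hy h1 k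
    rw [hmap] at h2
    have h3 : aeval (fun i => T.sharp (γ • y i)) (S k) =
        γ • aeval (fun i => T.sharp (y i)) (S k) := by
      have h4 : (MvPolynomial.map (algebraMap K C) (S k)) =
          act γ (MvPolynomial.map (algebraMap K C) (S k)) := by
        ext α
        rw [coeff_act, coeff_map, A.smul_K]
      have h5 := eval_act γ (MvPolynomial.map (algebraMap K C) (S k)) fun i => T.sharp (y i)
      rw [← h4, eval_map_alg, eval_map_alg] at h5
      rw [← h5]
      simp only [A.sharp_smul]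
    change T.absK (aeval (fun i => T.sharp (γ • y i)) (S k)) ≤ δ
    rw [h3, A.abs_smul]
    exact h2

end Pool.Agent.X271.TS
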