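import Pool.Agent.X271.TcDef

set_option autoImplicit false

/-! # Twisted topological zeta functions of Thom-Sebastiani sums `∑ y_j f_j(x) + g(z)`: definitions

Let `e ≥ 2`, let `V_I(t)` be the function of the ideal `I = (f_j)` which is described in
`Pool/Agent/Y229/LPDefs` (the limit for `L → 1`, `i = t / (L - 1)`, of the volumes `U_i` of the arcs with
`ord I ≥ i`), and let `Z_g^(e)(s) = ∫ v(t) exp(- s t) dt`: each stratum in the definition of `Z_g^(e)`
contributes `χ(E_I°)` times the density of `∑_i N_i x_i` for the measure `exp(- ∑_i ν_i x_i) dx`; `v` is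
the limit of the volumes of the arcs with `ord g = m`, weighted with a character of order `e` of
the angular component of `g`. Let `F = ∑ y_j f_j(x) + g(z)`. If `ord I = i` at the arc `x`, then
`∑ y_j f_j(x)` is uniformly distributed in `t ^ i ℂ[[t]]`. If `ord g(z) ≥ i`, then so is `F`, and the
weighted volume is `0`; if `m = ord g(z) < i`, then `F` has the order `m` and the angular component of
`g`. So the weighted volume for `ord F = m` is `U_(m + 1)` times the one for `ord g = m`, and in the limit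
`Z_F^(e)(s) = ∫ V_I(t) v(t) exp(- s t) dt`; in particular `Z_F^(e) = 0` for `g = 0`.
For the product of two polynomials in disjoint sets of variables the weighted volumes (for all arcs,
those with `f ≠ 0` at the origin of the arc included) are multiplied, so that
`Z_(f g)^(e) = Z_f^(e) Z_g^(e) + χ(f ≠ 0) Z_g^(e) + χ(g ≠ 0) Z_f^(e)`. -/

namespace Pool.Agent.X271.TtD

open MvPolynomial Pool.Agent.W574.SM Pool.Agent.W574.CN Pool.Agent.W574.RO Pool.Agent.Y229
open Pool.Agent.W425.SM Pool.Agent.W425.SV Pool.Agent.W422.GC Pool.Agent.W425.ND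
open Pool.Agent.Y230.TH (val0)
open Pool.Agent.X271.TwD (BecomesG unstab twistedG)
open Pool.Agent.X271.TcD (TC Mon Sh scaleZ)

/-- The smallest class of polynomials `f`, together with `Z`, `Z = Z_f` their topological zeta function
(including the constant `χ(f ≠ 0)`), and `W`, `W e = Z_f^(e)` their twisted topological zeta functions
for `e ≥ 2`, with the following properties; the ideals `A` are in the class `TC At HAt false`. -/
inductive TW (At HAt : Fam → RatFunc ℂ → Prop)
    (HT : (σ : Type) → MvPolynomial σ ℂ → RatFunc ℂ → (ℕ → RatFunc ℂ) → Prop) :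
    (σ : Type) → MvPolynomial σ ℂ → RatFunc ℂ → (ℕ → RatFunc ℂ) → Prop
  /-- the polynomials in the given class -/
  | atom (σ : Type) (f : MvPolynomial σ ℂ) (Z : RatFunc ℂ) (W : ℕ → RatFunc ℂ) (h : HT σ f Z W) :
      TW At HAt HT σ f Z W
  /-- the polynomial `∑ y_j f_j(x)` -/
  | univ (A : Fam) (Z : RatFunc ℂ) (hA : TC At HAt false A Z) :
      TW At HAt HT (A.ι ⊕ A.σ) (∑ j, X (Sum.inl j) * rename Sum.inr (A.f j))
        (Z * (RatFunc.X + 1)⁻¹) (fun _ => 0)
  /-- the Thom-Sebastiani sum `∑ y_j f_j(x) + g(z)`: if `1 - Z = s ∫ V(t) exp(- s t) dt`,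
  `1 - (s + 1) Z_g = s ∫ U(t) exp(- s t) dt - c s` and `Z_g^(e) = ∫ U_e(t) exp(- s t) dt`, where no
  constant function occurs in the exponential polynomials `V`, `U` (given by `v`, `w`, and `u e` for
  `U_e`), then `1 - (s + 1) Z_F = s ∫ V(t) U(t) exp(- s t) dt - c V(0) s` and
  `Z_F^(e) = ∫ V(t) U_e(t) exp(- s t) dt` -/
  | ts (A : Fam) (τ : Type) (g : MvPolynomial τ ℂ) (Z Y : RatFunc ℂ) (W : ℕ → RatFunc ℂ)
      (v w : ℂ × ℕ →₀ ℂ) (c : ℂ) (u : ℕ → (ℂ × ℕ →₀ ℂ)) (hv : 1 - Z = RatFunc.X * lap v)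
      (hw : 1 - (RatFunc.X + 1) * Y = RatFunc.X * (lap w - RatFunc.C c))
      (hv0 : ∀ p ∈ v.support, p.1 ≠ 0) (hw0 : ∀ p ∈ w.support, p.1 ≠ 0)
      (hu : ∀ e, 2 ≤ e → W e = lap (u e))
      (hA : TC At HAt false A Z) (hg : TW At HAt HT τ g Y W) :
      TW At HAt HT ((A.ι ⊕ A.σ) ⊕ τ) (rename Sum.inl (∑ j, X (Sum.inl j) *
          rename Sum.inr (A.f j) : MvPolynomial (A.ι ⊕ A.σ) ℂ) + rename Sum.inr g)
        ((1 - RatFunc.X * (lap2 v w - RatFunc.C (c * val0 v))) * (RatFunc.X + 1)⁻¹)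
        (fun e => lap2 v (u e))
  /-- the product of two polynomials in disjoint sets of variables: `c e = χ(g ≠ 0)`,
  `c' e = χ(f ≠ 0)` (here arbitrary constants) -/
  | mul (σ τ : Type) (f : MvPolynomial σ ℂ) (g : MvPolynomial τ ℂ) (Z Y : RatFunc ℂ)
      (W V : ℕ → RatFunc ℂ) (c c' : ℕ → ℂ) (hf : TW At HAt HT σ f Z W)
      (hg : TW At HAt HT τ g Y V) :
      TW At HAt HT (σ ⊕ τ) (rename Sum.inl f * rename Sum.inr g) (Z * Y)
        (fun e => W e * V e + RatFunc.C (c e) * W e + RatFunc.C (c' e) * V e)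
  /-- if `f + y_1 z_1 + ⋯ + y_k z_k`, `f` not constant, becomes `G` by an automorphism of the polynomial
  ring (`BecomesG`), then `1 - Z_f(s) = (1 - Z_G(s - k)) s (s - k + 1) / ((s - k) (s + 1))` and
  `Z_f^(e)(s) = Z_G^(e)(s - k)`, `e ≥ 2` (`unstab`) -/
  | destab (N k : ℕ) (f : MvPolynomial (Fin N) ℂ) (hf : f.totalDegree ≠ 0)
      (G : MvPolynomial (Fin (N + (k + k))) ℂ) (hG : BecomesG f k G) (Z : RatFunc ℂ)
      (W : ℕ → RatFunc ℂ) (hk : (unstab k 1 Z).denom.eval (k : ℂ) ≠ 0)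
      (h : TW At HAt HT (Fin (N + (k + k))) G Z W) :
      TW At HAt HT (Fin N) f (unstab k 1 Z) (fun e => unstab k e (W e))
  /-- variables which do not occur may be dropped -/
  | drop (σ κ : Type) (g : MvPolynomial σ ℂ) (Z : RatFunc ℂ) (W : ℕ → RatFunc ℂ)
      (h : TW At HAt HT (σ ⊕ κ) (rename Sum.inl g) Z W) : TW At HAt HT σ g Z W
  /-- the variables may be indexed differently -/
  | equiv (σ τ : Type) (i : σ ≃ τ) (f : MvPolynomial σ ℂ) (Z : RatFunc ℂ) (W : ℕ → RatFunc ℂ)
      (h : TW At HAt HT σ f Z W) : TW At HAt HT τ (rename i f) Z W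

/-- The products of powers, in disjoint sets of variables, of the polynomials in `TW`, together with
`Z`, `Z e = Z_f^(e)`, `e ≥ 1` (up to constants). -/
inductive PW (At HAt : Fam → RatFunc ℂ → Prop)
    (HT : (σ : Type) → MvPolynomial σ ℂ → RatFunc ℂ → (ℕ → RatFunc ℂ) → Prop) :
    (σ : Type) → MvPolynomial σ ℂ → (ℕ → RatFunc ℂ) → Prop
  /-- the members of `TW` -/
  | of (σ : Type) (f : MvPolynomial σ ℂ) (Z : RatFunc ℂ) (W : ℕ → RatFunc ℂ)
      (h : TW At HAt HT σ f Z W) : PW At HAt HT σ f (fun e => if e = 1 then Z else W e)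
  /-- the functions may be changed by constants -/
  | const (σ : Type) (f : MvPolynomial σ ℂ) (Z : ℕ → RatFunc ℂ) (c : ℕ → ℂ)
      (h : PW At HAt HT σ f Z) : PW At HAt HT σ f (fun e => Z e + RatFunc.C (c e))
  /-- powers: `Z_(f ^ a)^(e)(s) = Z_f^(e / gcd(e, a))(a s)` -/
  | pow (σ : Type) (f : MvPolynomial σ ℂ) (a : ℕ) (ha : 1 ≤ a) (Z : ℕ → RatFunc ℂ)
      (h : PW At HAt HT σ f Z) :
      PW At HAt HT σ (f ^ a) (fun e => scaleZ a (Z (e / Nat.gcd e a)))
  /-- products in disjoint sets of variables, as in `TW` -/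
  | mul (σ τ : Type) (f : MvPolynomial σ ℂ) (g : MvPolynomial τ ℂ) (Z Y : ℕ → RatFunc ℂ)
      (c c' : ℕ → ℂ) (hf : PW At HAt HT σ f Z) (hg : PW At HAt HT τ g Y) :
      PW At HAt HT (σ ⊕ τ) (rename Sum.inl f * rename Sum.inr g)
        (fun e => Z e * Y e + RatFunc.C (c e) * Z e + RatFunc.C (c' e) * Y e)

/-- The polynomials `∑_j a_j x ^ (v j) + h`, where `h` has coefficients in the field `F` and its
exponents lie in the convex hull of the `v j ≠ 0`, and the `a_j` are algebraically independent over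
`F`, with their zeta functions on a toric resolution. -/
inductive StrongTwist : (σ : Type) → MvPolynomial σ ℂ → RatFunc ℂ → (ℕ → RatFunc ℂ) → Prop
  /-- very general coefficients at the vertices of the Newton polytope -/
  | generic (r N : ℕ) (hr : 1 ≤ r) (F : Subfield ℂ) (v : Fin r → Fin N → ℕ)
      (hv : Function.Injective v) (hv0 : ∀ j, v j ≠ 0) (h : MvPolynomial (Fin N) F)
      (hh : ∀ w ∈ h.support, Hull v w) (a : Fin r → ℂ) (ha : AlgebraicIndependent F a)
      (R : SmoothFan N) (hR : Principal v R) :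
      StrongTwist (Fin N) (sparse v a + MvPolynomial.map (algebraMap F ℂ) h)
        (topZetaG v R) (twistedG v R)

/-- `StrongTwist`, and the polynomials `g = ∑_j a_j x ^ (v j)`, `g(0) = 0`, which are nondegenerate with
respect to their Newton polytope, such that `(s + 1) Z_g` and the `Z_g^(e)`, `e ≥ 2`, have no pole at
`-1` (and at the natural numbers, which holds for all topological zeta functions). -/
inductive WeakTwist : (σ : Type) → MvPolynomial σ ℂ → RatFunc ℂ → (ℕ → RatFunc ℂ) → Prop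
  /-- the polynomials in `StrongTwist` -/
  | strong (σ : Type) (f : MvPolynomial σ ℂ) (Z : RatFunc ℂ) (W : ℕ → RatFunc ℂ)
      (h : StrongTwist σ f Z W) : WeakTwist σ f Z W
  /-- nondegenerate polynomials -/
  | nondeg (r N : ℕ) (hr : 1 ≤ r) (v : Fin r → Fin N → ℕ) (a : Fin r → ℂ)
      (hv : Function.Injective v) (hv0 : ∀ j, v j ≠ 0) (hnd : Nondeg v a) (R : SmoothFan N)
      (hR : Principal v R)
      (h1 : ∀ i : ℕ, ((RatFunc.X + 1) * topZetaG v R).denom.eval ((i : ℂ) - 1) ≠ 0)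
      (h2 : ∀ e : ℕ, 2 ≤ e → ∀ i : ℕ, (twistedG v R e).denom.eval ((i : ℂ) - 1) ≠ 0) :
      WeakTwist (Fin N) (sparse v a) (topZetaG v R) (twistedG v R)

/-- The strong (`w = false`) or weak (`w = true`) monodromy conjecture for `f` and `Z`, in the reduced
form (`Mon`), and for `f` and the functions `W e`, `e ≥ 2`: for every pole `s` of `W e` there is `t` (`t = 0` in the
strong form, `t ∈ ℕ` in the weak form) such that `s - t` is a root of `b(s) / (s + 1)` for all `b` which
satisfy a functional equation, that is, a root of `b`, and a double root if it is `-1`. -/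
structure MonTw (w : Bool) (σ : Type) (f : MvPolynomial σ ℂ) (Z : RatFunc ℂ)
    (W : ℕ → RatFunc ℂ) : Prop where
  one : Mon w true ⟨σ, Fin 1, fun _ => f⟩ Z
  tw : ∀ e : ℕ, 2 ≤ e → ∀ s : ℂ, (W e).denom.eval s = 0 → ∃ t : ℂ, Sh w t ∧
    ∀ b : Polynomial ℂ, IsFunctionalEq (fun _ : Fin 1 => f) b → b.eval (s - t) = 0 ∧
      (s - t = -1 → (Polynomial.X + 1) ^ 2 ∣ b)

end Pool.Agent.X271.TtD
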