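import Pool.Agent.X271.TtThm

set_option autoImplicit false
set_option linter.unusedSectionVars false

/-! # Twisted topological zeta functions of Thom-Sebastiani sums: the final statements -/

namespace Pool.Agent.X271.TtT

open MvPolynomial Pool.Agent.W574.SM Pool.Agent.W574.CN Pool.Agent.W574.RO Pool.Agent.Y229
open Pool.Agent.W574.HS Pool.Agent.Y230.PS Pool.Agent.Y230.TH Pool.Agent.X271.TcD
open Pool.Agent.X271.TcT Pool.Agent.X271.TtD
open Pool.Agent.W425.SM Pool.Agent.W422.GC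
open Pool.Agent.Y228.AT (AllGlobal)
open Pool.Agent.H628R4.TP (IsBFunction)
open Pool.Agent.X271.TwD (BecomesG unstab exps InHullT twistedG)

theorem strongTwist_mon (w : Bool) (σ : Type) (f : MvPolynomial σ ℂ) (Z : RatFunc ℂ)
    (W : ℕ → RatFunc ℂ) (h : StrongTwist σ f Z W) : MonTw w σ f Z W := by
  classical
  rw [tw_iff]
  cases h with
  | generic r N hr F v hv hv0 h hh a ha R hR =>
    refine ⟨(mon_iff w true _ _).1 (strongHyp_mon w _ _
      (StrongHyp.generic r N hr F v hv hv0 h hh a ha R hR)), fun e he s hs => ?_⟩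
    obtain ⟨g, hg0, hg⟩ := Pool.Agent.X271.TwG.gen_tw hr v hv hv0 h hh
    have hga : aeval a g ≠ 0 := fun h0 => hg0 (ha (by rw [h0, map_zero]))
    refine ⟨0, (Tw w).zero_mem, fun b hb => ?_⟩
    rw [sub_zero]
    obtain ⟨P, hP⟩ := ((hg a hga).2 b (isB_of_single _ b hb) R hR).2 e he
    have hs' : (Pool.Agent.Y229.PG.topZetaTw v R e).denom.eval s = 0 := hs
    have h1 : b.eval s = 0 := pole_dvd b _ _ hP s hs'
    rw [dl_eq]
    split_ifs with h2
    · subst h2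
      obtain ⟨b', rfl⟩ := Polynomial.dvd_iff_isRoot.2 h1
      have e1 : algebraMap (Polynomial ℂ) (RatFunc ℂ) b' *
          Pool.Agent.Y229.PG.topZetaTw v R e = algebraMap (Polynomial ℂ) (RatFunc ℂ) P := by
        have e2 : (Polynomial.X - Polynomial.C (-1) : Polynomial ℂ) = Polynomial.X + 1 :=
          X_add_one.symm
        rw [e2, map_mul, map_mul, mul_assoc] at hP
        refine mul_left_cancel₀ ?_ hP
        rw [Ne, map_eq_zero_iff _ (IsFractionRing.injective (Polynomial ℂ) (RatFunc ℂ)), ← e2]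
        exact Polynomial.X_sub_C_ne_zero _
      have h3 := pole_dvd b' P _ e1 (-1) hs'
      obtain ⟨b'', rfl⟩ := Polynomial.dvd_iff_isRoot.2 h3
      exact ⟨b'', by ring⟩
    · rw [add_zero, pow_one]
      exact Polynomial.dvd_iff_isRoot.2 h1

theorem weakTwist_mon (σ : Type) (f : MvPolynomial σ ℂ) (Z : RatFunc ℂ)
    (W : ℕ → RatFunc ℂ) (h : WeakTwist σ f Z W) : MonTw true σ f Z W := by
  classical
  cases h with
  | strong _ _ _ _ h => exact strongTwist_mon true _ _ _ _ h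
  | nondeg r N hr v a hv hv0 hnd R hR h1 h2 =>
    have hne : sparse v a ≠ 0 := by
      have : NeZero r := ⟨by omega⟩
      exact Pool.Agent.W425.ND.spa_ne_zero hv a hnd
    rw [tw_iff]
    refine ⟨(mon_iff true true _ _).1 (weakHyp_mon _ _
      (WeakHyp.nondeg r N hr v a hv hv0 hnd R hR h1)), fun e he s hs => ?_⟩
    have hs1 : s ≠ -1 := by
      rintro rfl
      apply h2 e he 0
      rw [Nat.cast_zero, zero_sub]
      exact hs
    have key : ∃ i : ℕ, Forced (fun _ : Fin 1 => sparse v a) (s - i) := by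
      refine forced_shift _ s (fun b hb0 hb => ?_) (exists_fe _ ⟨0, hne⟩)
      by_contra hcon
      push Not at hcon
      exact Pool.Agent.Y229.CF.Reg.denom (Pool.Agent.Y229.PG.nd_reg hr v a hv hv0 hnd R hR b
        (isB_of_single _ b hb) e (by omega) s hs1 hcon) hs
    obtain ⟨i, hi⟩ := key
    refine ⟨i, (mem_Tw true _).2 (Or.inr ⟨rfl, i, rfl⟩), ?_⟩
    have h3 : s - i ≠ -1 := by
      intro h0
      refine h2 e he i ?_
      have : (i : ℂ) - 1 = s := by linear_combination -h0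
      rw [this]
      exact hs
    rw [dl_eq, if_neg h3, add_zero]
    exact (fm_one _ _).2 hi

/-- the poles of the zeta functions of products of powers -/
def PP (w : Bool) (σ : Type) (f : MvPolynomial σ ℂ) (Z : ℕ → RatFunc ℂ) : Prop :=
  Finite σ ∧ f ≠ 0 ∧ ∀ e : ℕ, 1 ≤ e → ∀ s : ℂ, (Z e).denom.eval s = 0 →
    ∃ t ∈ Tw w, FM (fun _ : Fin 1 => f) (s - t) 1

theorem fm_single {σ τ : Type} (f : MvPolynomial σ ℂ) (g : MvPolynomial τ ℂ) (r : ℂ) (m : ℕ)
    (h : FM ((Fam.mul ⟨σ, Fin 1, fun _ => f⟩ ⟨τ, Fin 1, fun _ => g⟩).f) r m) :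
    FM (fun _ : Fin 1 => (rename Sum.inl f * rename Sum.inr g : MvPolynomial (σ ⊕ τ) ℂ)) r m := by
  classical
  refine fm_equiv (Fam.mul ⟨σ, Fin 1, fun _ => f⟩ ⟨τ, Fin 1, fun _ => g⟩)
    ⟨σ ⊕ τ, Fin 1, fun _ => (rename Sum.inl f * rename Sum.inr g :
      MvPolynomial (σ ⊕ τ) ℂ)⟩ (Equiv.refl _) (Equiv.prodUnique (Fin 1) (Fin 1)) (fun j => ?_)
      r m h
  exact (rename_id_apply (R := ℂ) (rename Sum.inl f *
    rename Sum.inr g : MvPolynomial (σ ⊕ τ) ℂ)).symm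

theorem pw_closure (w : Bool) (At HAt : Fam → RatFunc ℂ → Prop)
    (HT : (σ : Type) → MvPolynomial σ ℂ → RatFunc ℂ → (ℕ → RatFunc ℂ) → Prop)
    (hAt : ∀ A Z, At A Z → Mon w false A Z) (hHAt : ∀ A Z, HAt A Z → Mon w true A Z)
    (hHT : ∀ σ f Z W, HT σ f Z W → MonTw w σ f Z W)
    (σ : Type) (f : MvPolynomial σ ℂ) (Z : ℕ → RatFunc ℂ)
    (h : PW At HAt HT σ f Z) : PP w σ f Z := by
  induction h with
  | of σ f Z W h =>
    obtain ⟨h1, h2⟩ := (tw_iff w σ f Z W).1 (tw_closure w At HAt HT hAt hHAt hHT σ f Z W h)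
    refine ⟨h1.fin, ?_, fun e he s hs => ?_⟩
    · obtain ⟨j, hj⟩ := h1.ne
      exact hj
    · by_cases h3 : e = 1
      · simp only [if_pos h3] at hs
        exact h1.pole s hs
      · simp only [if_neg h3] at hs
        obtain ⟨t, ht, h4⟩ := h2 e (by omega) s hs
        exact ⟨t, ht, h4.mono (Nat.le_add_right _ _)⟩
  | const σ f Z c h ih =>
    obtain ⟨h1, h2, h3⟩ := ih
    refine ⟨h1, h2, fun e he s hs => h3 e he s ?_⟩
    by_contra h4
    exact Reg_denom s _ ((Reg s).add_mem (mem_Reg_of_denom _ _ h4) (C_reg s (c e))) hs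
  | pow σ f a ha Z h ih =>
    obtain ⟨h1, h2, h3⟩ := ih
    refine ⟨h1, pow_ne_zero a h2, fun e he s hs => ?_⟩
    have h4 : 1 ≤ e / Nat.gcd e a :=
      Nat.div_pos (Nat.gcd_le_left a (by omega)) (Nat.gcd_pos_of_pos_left a (by omega))
    exact (cl_pow w σ f a ha (Z (e / Nat.gcd e a)) ⟨h1, ⟨(0 : Fin 1), h2⟩, h3 _ h4,
      fun h => absurd h (by simp), fun h => absurd h (by simp)⟩).pole s hs
  | mul σ τ f g Z Y c c' hf hg ihf ihg =>
    obtain ⟨h1, h2, h3⟩ := ihf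
    obtain ⟨k1, k2, k3⟩ := ihg
    refine ⟨inferInstanceAs (Finite (σ ⊕ τ)), mul_ne_zero ?_ ?_, fun e he s hs => ?_⟩
    · rw [Ne, map_eq_zero_iff _ (rename_injective _ Sum.inl_injective)]
      exact h2
    · rw [Ne, map_eq_zero_iff _ (rename_injective _ Sum.inr_injective)]
      exact k2
    · rcases mul_pole _ _ _ _ _ hs with h | h
      · obtain ⟨t, ht, h5⟩ := h3 e he s h
        exact ⟨t, ht, fm_single f g _ _ (fm_mulL ⟨σ, Fin 1, fun _ => f⟩ ⟨τ, Fin 1, fun _ => g⟩ _ _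
          ⟨(0 : Fin 1), k2⟩ h5)⟩
      · obtain ⟨t, ht, h5⟩ := k3 e he s h
        exact ⟨t, ht, fm_single f g _ _ (fm_mulR ⟨σ, Fin 1, fun _ => f⟩ ⟨τ, Fin 1, fun _ => g⟩ _ _
          ⟨(0 : Fin 1), h2⟩ h5)⟩

theorem pw_root (w : Bool) (σ : Type) (f : MvPolynomial σ ℂ) (Z : ℕ → RatFunc ℂ)
    (h : PP w σ f Z) (e : ℕ) (he : 1 ≤ e) (s : ℂ) (hs : (Z e).denom.eval s = 0) :
    ∃ t : ℂ, Sh w t ∧ ∀ b : Polynomial ℂ, IsBFunction f b → b.eval (s - t) = 0 := by
  obtain ⟨t, ht, h1⟩ := h.2.2 e he s hs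
  exact ⟨t, (mem_Tw w t).1 ht, fun b hb => (fm_one _ _).1 h1 b (single_of_isB f b hb)⟩

/-- a root of the reduced polynomial -/
theorem red_root (w : Bool) (σ : Type) (f : MvPolynomial σ ℂ) (Z : RatFunc ℂ)
    (W : ℕ → RatFunc ℂ) (h : MonTw w σ f Z W) (e : ℕ) (he : 2 ≤ e) (s : ℂ)
    (hs : (W e).denom.eval s = 0) : ∃ t : ℂ, Sh w t ∧ ∀ c : Polynomial ℂ,
      IsBFunction f ((Polynomial.X + 1) * c) → c.eval (s - t) = 0 := by
  obtain ⟨t, ht, h1⟩ := h.tw e he s hs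
  exact ⟨t, ht, fun c hc => (dvd_red c _).1 ((dvd_dl _ _).2 (h1 _ (single_of_isB f _ hc)))⟩

/-- the two descriptions of the restriction to a graph -/
theorem comp_data {N k : ℕ} (f : MvPolynomial (Fin N) ℂ)
    (T : Fin (k + 1) → MvPolynomial (Fin (N + k)) ℂ)
    (h : (∃ (c : Fin k → ℂ) (p : Fin k → MvPolynomial (Fin N) ℂ), (∀ i, c i ≠ 0) ∧
        (∀ i : Fin k, T i.succ = C (c i) * X (Fin.natAdd N i) - rename (Fin.castAdd k) (p i)) ∧
        f = aeval (Fin.append X fun i => C (c i)⁻¹ * p i) (T 0)) ∨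
      (∃ (θ : MvPolynomial (Fin (N + k)) ℂ ≃ₐ[ℂ] MvPolynomial (Fin (N + k)) ℂ)
        (q : Fin k → MvPolynomial (Fin (N + k)) ℂ),
        (∀ i, θ (X (Fin.castAdd k i)) = X (Fin.castAdd k i)) ∧
        (∀ i : Fin k, θ (X (Fin.natAdd N i)) = T i.succ) ∧
        T 0 = rename (Fin.castAdd k) f + ∑ i, q i * T i.succ)) :
    ∃ (θ : MvPolynomial (Fin (N + k)) ℂ ≃ₐ[ℂ] MvPolynomial (Fin (N + k)) ℂ)
        (q : Fin k → MvPolynomial (Fin (N + k)) ℂ),
        (∀ i, θ (X (Fin.castAdd k i)) = X (Fin.castAdd k i)) ∧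
        (∀ i : Fin k, θ (X (Fin.natAdd N i)) = T i.succ) ∧
        T 0 = rename (Fin.castAdd k) f + ∑ i, q i * T i.succ := by
  rcases h with ⟨c, p, hc, hl, hf1⟩ | h
  · obtain ⟨θ, h1, h2⟩ := Pool.Agent.Y229.PG.graph_equiv c hc p
    obtain ⟨q, hq⟩ := Pool.Agent.Y229.PG.graph_restrict c hc p (T 0)
    refine ⟨θ, q, h1, fun i => ?_, ?_⟩
    · rw [h2]
      exact (hl i).symm
    · rw [hf1]
      refine hq.trans ?_
      congr 1
      exact Finset.sum_congr rfl fun i _ => by rw [← hl i]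
  · exact h

/-- **Generic compositions are in the class.** -/
theorem comp_tw {N k r : ℕ} (hr : 1 ≤ r) (F : Subfield ℂ) (π : Fin r → Fin (k + 1))
    (m : Fin r → Fin (N + k) → ℕ) (hinj : ∀ j j', π j = π j' → m j = m j' → j = j')
    (hm : ∀ j, π j = 0 → m j ≠ 0) (H : Fin (k + 1) → MvPolynomial (Fin (N + k)) F)
    (hH : ∀ i, ∀ w ∈ (H i).support, InHullT π m i w) (a : Fin r → ℂ)
    (ha : AlgebraicIndependent F a) (R : SmoothFan (N + (k + k))) (hR : Principal (exps π m) R)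
    (f : MvPolynomial (Fin N) ℂ) (hf : f.totalDegree ≠ 0)
    (T : Fin (k + 1) → MvPolynomial (Fin (N + k)) ℂ)
    (hT : T = Pool.Agent.X271.TwD.tup π m a fun i => MvPolynomial.map (algebraMap F ℂ) (H i))
    (h : (∃ (c : Fin k → ℂ) (p : Fin k → MvPolynomial (Fin N) ℂ), (∀ i, c i ≠ 0) ∧
        (∀ i : Fin k, T i.succ = C (c i) * X (Fin.natAdd N i) - rename (Fin.castAdd k) (p i)) ∧
        f = aeval (Fin.append X fun i => C (c i)⁻¹ * p i) (T 0)) ∨
      (∃ (θ : MvPolynomial (Fin (N + k)) ℂ ≃ₐ[ℂ] MvPolynomial (Fin (N + k)) ℂ)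
        (q : Fin k → MvPolynomial (Fin (N + k)) ℂ),
        (∀ i, θ (X (Fin.castAdd k i)) = X (Fin.castAdd k i)) ∧
        (∀ i : Fin k, θ (X (Fin.natAdd N i)) = T i.succ) ∧
        T 0 = rename (Fin.castAdd k) f + ∑ i, q i * T i.succ))
    (hk : (unstab k 1 (topZetaG (exps π m) R)).denom.eval (k : ℂ) ≠ 0) :
    TW AllGlobal StrongHyp StrongTwist (Fin N) f (unstab k 1 (topZetaG (exps π m) R))
      (fun e => unstab k e (twistedG (exps π m) R e)) := by
  obtain ⟨θ, q, h3, h4, h5⟩ := comp_data f T h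
  subst hT
  refine TW.destab N k f hf _ (Pool.Agent.Y229.PG.becomesG_emb _ _ θ h3 h4 f q h5) _ _ hk
    (TW.atom _ _ _ _ ?_)
  have h6 := StrongTwist.generic r (N + (k + k)) hr F (Pool.Agent.Y229.RE.ex π m)
    (Pool.Agent.Y229.RE.ex_inj π m hinj) (Pool.Agent.Y229.PG.ex_ne_zero' π m hm)
    (Pool.Agent.Y229.PS.hG H) (Pool.Agent.Y229.PG.hull_hG π m H hH) a ha R hR
  have h7 := Pool.Agent.Y229.PS.sparse_hG π m a H
  rw [h7] at h6
  exact h6

/-- **Nondegenerate compositions are in the class.** -/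
theorem comp_tw_nd {N k r : ℕ} (hr : 1 ≤ r) (π : Fin r → Fin (k + 1))
    (m : Fin r → Fin (N + k) → ℕ) (hinj : ∀ j j', π j = π j' → m j = m j' → j = j')
    (hm : ∀ j, π j = 0 → m j ≠ 0) (a : Fin r → ℂ)
    (hnd : Pool.Agent.W425.ND.Nondeg (exps π m) a)
    (R : SmoothFan (N + (k + k))) (hR : Principal (exps π m) R)
    (f : MvPolynomial (Fin N) ℂ) (hf : f.totalDegree ≠ 0)
    (T : Fin (k + 1) → MvPolynomial (Fin (N + k)) ℂ)
    (hT : T = Pool.Agent.X271.TwD.tup π m a fun _ => 0)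
    (h : (∃ (c : Fin k → ℂ) (p : Fin k → MvPolynomial (Fin N) ℂ), (∀ i, c i ≠ 0) ∧
        (∀ i : Fin k, T i.succ = C (c i) * X (Fin.natAdd N i) - rename (Fin.castAdd k) (p i)) ∧
        f = aeval (Fin.append X fun i => C (c i)⁻¹ * p i) (T 0)) ∨
      (∃ (θ : MvPolynomial (Fin (N + k)) ℂ ≃ₐ[ℂ] MvPolynomial (Fin (N + k)) ℂ)
        (q : Fin k → MvPolynomial (Fin (N + k)) ℂ),
        (∀ i, θ (X (Fin.castAdd k i)) = X (Fin.castAdd k i)) ∧
        (∀ i : Fin k, θ (X (Fin.natAdd N i)) = T i.succ) ∧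
        T 0 = rename (Fin.castAdd k) f + ∑ i, q i * T i.succ))
    (h1 : ∀ i : ℕ, ((RatFunc.X + 1) * topZetaG (exps π m) R).denom.eval ((i : ℂ) - 1) ≠ 0)
    (h2 : ∀ e : ℕ, 2 ≤ e → ∀ i : ℕ, (twistedG (exps π m) R e).denom.eval ((i : ℂ) - 1) ≠ 0)
    (hk : (unstab k 1 (topZetaG (exps π m) R)).denom.eval (k : ℂ) ≠ 0) :
    TW WeakAt WeakHyp WeakTwist (Fin N) f (unstab k 1 (topZetaG (exps π m) R))
      (fun e => unstab k e (twistedG (exps π m) R e)) := by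
  have hT' : T = Pool.Agent.W749.JI.fam π m a := by
    rw [hT]
    funext i
    unfold Pool.Agent.X271.TwD.tup
    rw [add_zero]
    rfl
  obtain ⟨θ, q, h3, h4, h5⟩ := comp_data f T h
  subst hT'
  refine TW.destab N k f hf _ (Pool.Agent.Y229.PG.becomesG_emb _ _ θ h3 h4 f q h5) _ _ hk
    (TW.atom _ _ _ _ ?_)
  have h6 := WeakTwist.nondeg r (N + (k + k)) hr (Pool.Agent.Y229.RE.ex π m) a
    (Pool.Agent.Y229.RE.ex_inj π m hinj) (Pool.Agent.Y229.PG.ex_ne_zero' π m hm) hnd R hR h1 h2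
  rw [Pool.Agent.Y229.RE.sparse_ex π m a] at h6
  exact h6

end Pool.Agent.X271.TtT
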