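import Pool.Agent.Y229.PG.Nd
import Pool.Agent.Y229.PS.Weak
import Pool.Agent.X271.TwDef

set_option autoImplicit false

/-! Twisted topological zeta functions: generic coefficients, strong form, and stabilisation. -/

namespace Pool.Agent.X271.TwG

open MvPolynomial
open Pool.Agent.H628R4.TP
open Pool.Agent.W425.SM (sparse SmoothFan Principal)
open Pool.Agent.W422.GC (topZetaG topZetaGLocal)
open Pool.Agent.W422.GC.Tw (twG)
open Pool.Agent.W425.GN
open Pool.Agent.W425.MM (NonD we wc)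
open Pool.Agent.Y229.PG (topZetaTw tw_two' BecomesG becomes_global)
open Pool.Agent.Y229.GL (topZetaTwistedLocal)
open Pool.Agent.Y229.RE (unstab shiftZ shiftZ_poly)
open Pool.Agent.X271.TwD (StrongTw)
open Pool.Agent.Y229.PS (exists_factor IsFormalBFunction Becomes becomes_local)

variable {N k r : ℕ}

lemma rr_twG (v : Fin r → Fin N → ℕ) (R : SmoothFan N) (e : ℕ) (α : ℝ) : RR (twG v R e α) := by
  unfold twG
  exact RR.sum _ _ fun σ _ => RR.mul (RR.const _) (RR.prod _ _ fun ρ _ => RR.lin _ _)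

/-- very general coefficients -/
theorem tw_vg {F : Type} [Field F] [Algebra F ℂ] [NeZero r] (loc : Prop)
    (S : Submonoid (MvPolynomial (Fin N) ℂ))
    (hS : ∀ g ∈ S, MvPolynomial.constantCoeff g = 1 ∧ (¬ loc → g = 1))
    (v : Fin r → Fin N → ℕ) (a : Fin r → ℂ)
    (hv : Function.Injective v) (hv0 : ∀ j, v j ≠ 0) (ha : AlgebraicIndependent F a)
    (h : MvPolynomial (Fin N) F) (hh : ∀ w ∈ h.support, Pool.Agent.W425.SV.NP v w)
    (R : SmoothFan N) (hR : Principal v R) (e : ℕ) (he : 2 ≤ e)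
    (α : ℝ) (hα0 : α ≠ 0) (hα : loc → α < 0) (b : Polynomial ℂ)
    (hb : Pool.Agent.W591.GC.J S (sparse v a + MvPolynomial.map (algebraMap F ℂ) h) 1 b) :
    ∃ P : Polynomial ℂ, algebraMap (Polynomial ℂ) (RatFunc ℂ) b *
      (twG v R e α * (RatFunc.X + 1)⁻¹) = algebraMap (Polynomial ℂ) (RatFunc ℂ) P := by
  obtain ⟨θ, hθ⟩ := Pool.Agent.W422.GC.exists_heights r
  by_cases hb0 : b = 0
  · exact ⟨0, by rw [hb0, map_zero, zero_mul]⟩
  obtain ⟨p, q, hbp, hp⟩ := Pool.Agent.W422.GC.rel_of_unit loc S hS v a hv hv0 ha h hh θ hθ b hb0 hb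
  obtain ⟨P, hP⟩ := Pool.Agent.W422.GC.Tw.main_tw v hv θ hθ loc R hR e he α hα0 hα p hp
  refine ⟨P * q, ?_⟩
  have h1 : (RatFunc.X + 1 : RatFunc ℂ) ≠ 0 := by
    have := Pool.Agent.Y229.PS.ratX_ne (-1)
    rwa [map_neg, map_one, sub_neg_eq_add] at this
  have h2 : algebraMap (Polynomial ℂ) (RatFunc ℂ) b = (RatFunc.X + 1) *
      algebraMap (Polynomial ℂ) (RatFunc ℂ) p * algebraMap (Polynomial ℂ) (RatFunc ℂ) q := by
    rw [hbp, map_mul, map_mul, map_add, map_one, RatFunc.algebraMap_X]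
  rw [h2, map_mul, ← hP]
  field_simp

/-- **The global twisted topological zeta function, generic coefficients.** -/
theorem gen_tw {F : Type} [Field F] [Algebra F ℂ] (hr : 1 ≤ r)
    (v : Fin r → Fin N → ℕ) (hv : Function.Injective v) (hv0 : ∀ j, v j ≠ 0)
    (h : MvPolynomial (Fin N) F) (hh : ∀ w ∈ h.support, Pool.Agent.W425.SV.Hull v w) :
    ∃ g : MvPolynomial (Fin r) F, g ≠ 0 ∧ ∀ a : Fin r → ℂ, aeval a g ≠ 0 →
      NonD (Fin.append v (we h)) (Fin.append a (fun l => algebraMap F ℂ (wc h l))) ∧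
      ∀ b : Polynomial ℂ, IsBFunction (sparse v a + MvPolynomial.map (algebraMap F ℂ) h) b →
      ∀ R : SmoothFan N, Principal v R →
        (∃ P : Polynomial ℂ, algebraMap (Polynomial ℂ) (RatFunc ℂ) b * topZetaG v R =
          algebraMap (Polynomial ℂ) (RatFunc ℂ) P) ∧
        ∀ e : ℕ, 2 ≤ e → ∃ P : Polynomial ℂ, algebraMap (Polynomial ℂ) (RatFunc ℂ) b *
          topZetaTw v R e = algebraMap (Polynomial ℂ) (RatFunc ℂ) ((Polynomial.X + 1) * P) := by
  have hne : NeZero r := ⟨by omega⟩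
  have hh' : ∀ w ∈ h.support, Pool.Agent.W425.SV.NP v w := fun w hw => by
    obtain ⟨l, h1, h2, h3⟩ := hh w hw
    exact ⟨l, h1, h2, fun i => (h3 i).le⟩
  obtain ⟨g1, hg1, h1⟩ := univ pF4 pR1 (show 0 < r by omega) v hv h
  obtain ⟨g2, hg2, h2⟩ := gen_top hr v hv hv0 h hh
  refine ⟨g1 * g2, mul_ne_zero hg1 hg2, fun a ha => ?_⟩
  rw [map_mul] at ha
  obtain ⟨h3, h4⟩ := h2 _ (right_ne_zero_of_mul ha)
  refine ⟨h3, fun b hb R hR => ⟨h4 b hb R hR, fun e he => ?_⟩⟩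
  obtain ⟨P, hP⟩ := top_core v h (twG v R e 1 * (RatFunc.X + 1)⁻¹) ((rr_twG v R e 1).mul RR.lin1)
    (fun F' _ _ a' h' ha' hs b' hb' => tw_vg False ⊥ (fun g hg => by
        rw [Submonoid.mem_bot] at hg
        exact ⟨by rw [hg, map_one], fun _ => hg⟩) v a' hv hv0 ha' h'
      (fun w hw => hh' w (hs w hw)) R hR e he 1 one_ne_zero (fun h => h.elim) b'
      ((Pool.Agent.W591.GC.J_bot _ b').2 ((bfun_iff _ _).2 hb'))) b
    (h1 a (left_ne_zero_of_mul ha) b ((bfun_iff _ _).1 hb))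
  refine ⟨P, ?_⟩
  have h1 : (RatFunc.X + 1 : RatFunc ℂ) ≠ 0 := by
    have := Pool.Agent.Y229.PS.ratX_ne (-1)
    rwa [map_neg, map_one, sub_neg_eq_add] at this
  rw [tw_two' v R e he, map_mul, map_add, map_one, RatFunc.algebraMap_X, ← hP]
  field_simp

/-- **The local twisted topological zeta function, generic coefficients.** -/
theorem gen_twL {F : Type} [Field F] [Algebra F ℂ] (hr : 1 ≤ r)
    (v : Fin r → Fin N → ℕ) (hv : Function.Injective v) (hv0 : ∀ j, v j ≠ 0)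
    (h : MvPolynomial (Fin N) F) (hh : ∀ w ∈ h.support, Pool.Agent.W425.SV.NP v w) :
    ∃ g : MvPolynomial (Fin r) F, g ≠ 0 ∧ ∀ a : Fin r → ℂ, aeval a g ≠ 0 →
      NonD (Fin.append v (we h)) (Fin.append a (fun l => algebraMap F ℂ (wc h l))) ∧
      ∀ b : Polynomial ℂ, IsLocalBFunction (sparse v a + MvPolynomial.map (algebraMap F ℂ) h) b →
      ∀ R : SmoothFan N, Principal v R →
        (∃ P : Polynomial ℂ, algebraMap (Polynomial ℂ) (RatFunc ℂ) b * topZetaGLocal v R =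
          algebraMap (Polynomial ℂ) (RatFunc ℂ) P) ∧
        ∀ e : ℕ, 2 ≤ e → ∃ P : Polynomial ℂ, algebraMap (Polynomial ℂ) (RatFunc ℂ) b *
          topZetaTwistedLocal v R e =
            algebraMap (Polynomial ℂ) (RatFunc ℂ) ((Polynomial.X + 1) * P) := by
  have hne : NeZero r := ⟨by omega⟩
  obtain ⟨g1, hg1, h1⟩ := univL pF4 pR1 pG2 (show 0 < r by omega) v hv h
  obtain ⟨g2, hg2, h2⟩ := gen_topL hr v hv hv0 h hh
  obtain ⟨g3, hg3, h3⟩ := gen_ne (show 0 < r by omega) v hv h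
  refine ⟨g1 * (g2 * g3), mul_ne_zero hg1 (mul_ne_zero hg2 hg3), fun a ha => ?_⟩
  rw [map_mul, map_mul] at ha
  obtain ⟨h4, h5⟩ := h2 _ (left_ne_zero_of_mul (right_ne_zero_of_mul ha))
  refine ⟨h4, fun b hb R hR => ⟨h5 b hb R hR, fun e he => ?_⟩⟩
  obtain ⟨P, hP⟩ := top_coreL v h (twG v R e (-1) * (RatFunc.X + 1)⁻¹)
    ((rr_twG v R e (-1)).mul RR.lin1)
    (fun F' _ _ a' h' ha' hs b' hb' => tw_vg True (Pool.Agent.W591.GC.S1 N)
      (fun g hg => ⟨Pool.Agent.W591.GC.mem_S1.1 hg, fun h => absurd trivial h⟩) v a' hv hv0 ha' h'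
      (fun w hw => hh w (hs w hw)) R hR e he (-1) (by norm_num) (fun _ => by norm_num) b'
      ((feqL_iff _ _).2 hb')) b (h1 a (left_ne_zero_of_mul ha) b (by
        obtain ⟨_, c, P, hc, hP⟩ := Pool.Agent.W368.SL.taskL1 _ _
          (h3 a (right_ne_zero_of_mul (right_ne_zero_of_mul ha)))
          (Pool.Agent.W425.SV.f_const hv0 a h hh) (Pool.Agent.W425.SL.toSL hb)
        refine (feqL_iff _ _).1 ((Pool.Agent.W591.GC.J_iff _ _ b).2
          ⟨c, Pool.Agent.W591.GC.mem_S1.2 hc, P, fun s => ?_⟩)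
        rw [← hP s]
        ring))
  refine ⟨P, ?_⟩
  have h1 : (RatFunc.X + 1 : RatFunc ℂ) ≠ 0 := by
    have := Pool.Agent.Y229.PS.ratX_ne (-1)
    rwa [map_neg, map_one, sub_neg_eq_add] at this
  rw [Pool.Agent.Y229.GL.tw_two v hv0 R hR e he, map_mul, map_add, map_one, RatFunc.algebraMap_X, ← hP]
  field_simp

/-- the passage from `G` to `f`, `e ≥ 2` -/
theorem untw {Z : RatFunc ℂ} {k e : ℕ} (he : 2 ≤ e) {c P : Polynomial ℂ}
    (h : algebraMap (Polynomial ℂ) (RatFunc ℂ) ((Polynomial.X + 1) *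
      c.comp (Polynomial.X + Polynomial.C (k : ℂ))) * Z =
      algebraMap (Polynomial ℂ) (RatFunc ℂ) ((Polynomial.X + 1) * P)) :
    algebraMap (Polynomial ℂ) (RatFunc ℂ) c * unstab k e Z =
      algebraMap (Polynomial ℂ) (RatFunc ℂ) (P.comp (Polynomial.X - Polynomial.C (k : ℂ))) := by
  have h1 : (RatFunc.X + 1 : RatFunc ℂ) ≠ 0 := by
    have := Pool.Agent.Y229.PS.ratX_ne (-1)
    rwa [map_neg, map_one, sub_neg_eq_add] at this
  have h2 : algebraMap (Polynomial ℂ) (RatFunc ℂ) (c.comp (Polynomial.X + Polynomial.C (k : ℂ))) *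
      Z = algebraMap (Polynomial ℂ) (RatFunc ℂ) P := by
    rw [map_mul, map_mul, map_add, map_one, RatFunc.algebraMap_X, mul_assoc] at h
    exact mul_left_cancel₀ h1 h
  have h3 := congrArg (shiftZ k) h2
  rw [map_mul, shiftZ_poly, shiftZ_poly] at h3
  have h4 : (c.comp (Polynomial.X + Polynomial.C (k : ℂ))).comp
      (Polynomial.X - Polynomial.C (k : ℂ)) = c := by
    rw [Polynomial.comp_assoc]
    simp
  rw [h4] at h3
  unfold unstab
  rw [if_neg (by omega)]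
  exact h3

/-- **Generic coefficients, after the addition of `∑ y_i z_i`, global.** -/
theorem strongTwG (hr : 1 ≤ r) (F : Subfield ℂ) (v : Fin r → Fin (N + (k + k)) → ℕ)
    (hv : Function.Injective v) (hv0 : ∀ j, v j ≠ 0)
    (h : MvPolynomial (Fin (N + (k + k))) F) (hh : ∀ w ∈ h.support, Pool.Agent.W425.SV.Hull v w) :
    ∃ g : MvPolynomial (Fin r) F, g ≠ 0 ∧ ∀ a : Fin r → ℂ, MvPolynomial.aeval a g ≠ 0 →
      NonD (Fin.append v (we h)) (Fin.append a (fun l => algebraMap F ℂ (wc h l))) ∧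
      ∀ f : MvPolynomial (Fin N) ℂ, f.totalDegree ≠ 0 →
        BecomesG f k (sparse v a + MvPolynomial.map (algebraMap F ℂ) h) →
      ∀ b : Polynomial ℂ, IsBFunction f b → ∀ R : SmoothFan (N + (k + k)), Principal v R →
        StrongTw b k fun e => unstab k e (topZetaTw v R e) := by
  obtain ⟨g, hg0, hg⟩ := gen_tw hr v hv hv0 h hh
  refine ⟨g, hg0, fun a ha => ⟨(hg a ha).1, fun f hf hB b hb R hR => ?_⟩⟩
  obtain ⟨hb1, h1⟩ := becomes_global hf hb hB
  obtain ⟨c, hc⟩ := exists_factor hb1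
  obtain ⟨⟨P, hP⟩, h2⟩ := (hg a ha).2 _ (h1 c hc) R hR
  refine ⟨?_, c, hc, fun e he => ?_⟩
  · rw [hc]
    show ∃ P : Polynomial ℂ, _ * unstab k 1 (topZetaTw v R 1) = _
    rw [Pool.Agent.Y229.PG.tw_one' v R]
    exact Pool.Agent.Y229.PS.unstab_poly hP
  · obtain ⟨P', hP'⟩ := h2 e he
    exact ⟨_, untw he hP'⟩

/-- **Generic coefficients, after the addition of `∑ y_i z_i`, local, formal coordinates.** -/
theorem strongTwL {M : ℕ} (hr : 1 ≤ r) (F : Subfield ℂ) (v : Fin r → Fin M → ℕ)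
    (hv : Function.Injective v) (hv0 : ∀ j, v j ≠ 0)
    (h : MvPolynomial (Fin M) F) (hh : ∀ w ∈ h.support, Pool.Agent.W425.SV.NP v w) :
    ∃ g : MvPolynomial (Fin r) F, g ≠ 0 ∧ ∀ a : Fin r → ℂ, MvPolynomial.aeval a g ≠ 0 →
      ∀ (N k : ℕ) (e : M = N + (k + k)) (f : MvPowerSeries (Fin N) ℂ), f ≠ 0 →
        MvPowerSeries.constantCoeff f = 0 →
        Becomes f k (MvPolynomial.rename (Fin.cast e)
          (sparse v a + MvPolynomial.map (algebraMap F ℂ) h)) →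
      ∀ b : Polynomial ℂ, IsFormalBFunction f b → ∀ R : SmoothFan M, Principal v R →
        StrongTw b k fun e => unstab k e (topZetaTwistedLocal v R e) := by
  obtain ⟨g, hg0, hg⟩ := gen_twL hr v hv hv0 h hh
  refine ⟨g, hg0, fun a ha N k e f hf0 hf hB b hb R hR => ?_⟩
  subst e
  obtain ⟨hb1, h1⟩ := becomes_local hf0 hf hb hB
  obtain ⟨c, hc⟩ := exists_factor hb1
  have h2 := h1 c hc
  have h3 : (Fin.cast (rfl : N + (k + k) = N + (k + k))) = id := by
    funext i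
    rfl
  rw [h3, MvPolynomial.rename_id_apply] at h2
  obtain ⟨⟨P, hP⟩, h4⟩ := (hg a ha).2 _ h2 R hR
  refine ⟨?_, c, hc, fun e he => ?_⟩
  · rw [hc]
    show ∃ P : Polynomial ℂ, _ * unstab k 1 (topZetaTwistedLocal v R 1) = _
    rw [Pool.Agent.Y229.GL.tw_one v R]
    exact Pool.Agent.Y229.PS.unstab_poly hP
  · obtain ⟨P', hP'⟩ := h4 e he
    exact ⟨_, untw he hP'⟩

/-- **Generic functions on generic graphs, global.** -/
theorem graph_tw (hr : 1 ≤ r) (F : Subfield ℂ) (π : Fin r → Fin (k + 1))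
    (m : Fin r → Fin (N + k) → ℕ) (hinj : ∀ j j', π j = π j' → m j = m j' → j = j')
    (hm : ∀ j, π j = 0 → m j ≠ 0) (H : Fin (k + 1) → MvPolynomial (Fin (N + k)) F)
    (hH : ∀ i, ∀ w ∈ (H i).support, Pool.Agent.Y229.PG.HullT π m i w) :
    ∃ g : MvPolynomial (Fin r) F, g ≠ 0 ∧ ∀ a : Fin r → ℂ, MvPolynomial.aeval a g ≠ 0 →
      NonD (Fin.append (Pool.Agent.Y229.RE.ex π m) (we (Pool.Agent.Y229.PS.hG H)))
        (Fin.append a (fun l => algebraMap F ℂ (wc (Pool.Agent.Y229.PS.hG H) l))) ∧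
      ∀ θ : MvPolynomial (Fin (N + k)) ℂ ≃ₐ[ℂ] MvPolynomial (Fin (N + k)) ℂ,
        (∀ i, θ (X (Fin.castAdd k i)) = X (Fin.castAdd k i)) →
        (∀ i, θ (X (Fin.natAdd N i)) = Pool.Agent.Y229.PS.tup π m a H i.succ) →
      ∀ (f : MvPolynomial (Fin N) ℂ) (q : Fin k → MvPolynomial (Fin (N + k)) ℂ),
        f.totalDegree ≠ 0 → Pool.Agent.Y229.PS.tup π m a H 0 =
          rename (Fin.castAdd k) f + ∑ i, q i * Pool.Agent.Y229.PS.tup π m a H i.succ →
      ∀ b : Polynomial ℂ, IsBFunction f b →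
      ∀ R : SmoothFan (N + (k + k)), Principal (Pool.Agent.Y229.RE.ex π m) R →
        StrongTw b k fun e => unstab k e (topZetaTw (Pool.Agent.Y229.RE.ex π m) R e) := by
  obtain ⟨g, hg0, hg⟩ := strongTwG hr F (Pool.Agent.Y229.RE.ex π m)
    (Pool.Agent.Y229.RE.ex_inj π m hinj) (Pool.Agent.Y229.PG.ex_ne_zero' π m hm)
    (Pool.Agent.Y229.PS.hG H) (Pool.Agent.Y229.PG.hull_hG π m H hH)
  refine ⟨g, hg0, fun a ha => ⟨(hg a ha).1, fun θ hx hz f q hf hF b hb R hR =>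
    (hg a ha).2 f hf ?_ b hb R hR⟩⟩
  rw [Pool.Agent.Y229.PS.sparse_hG]
  exact Pool.Agent.Y229.PG.becomesG_emb _ _ θ hx hz f q hF

/-- **Functions on generic smooth complete intersections, local.** -/
theorem ci_tw (hr : 1 ≤ r) (F : Subfield ℂ) (π : Fin r → Fin (k + 1))
    (m : Fin r → Fin (N + k) → ℕ) (hinj : ∀ j j', π j = π j' → m j = m j' → j = j')
    (hm : ∀ j, m j ≠ 0) (H : Fin (k + 1) → MvPolynomial (Fin (N + k)) F)
    (hH : ∀ i, ∀ w ∈ (H i).support, Pool.Agent.Y229.PS.NPT π m i w) :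
    ∃ g : MvPolynomial (Fin r) F, g ≠ 0 ∧ ∀ a : Fin r → ℂ, MvPolynomial.aeval a g ≠ 0 →
      (Matrix.of fun i j : Fin k => MvPolynomial.coeff (Finsupp.single (Fin.natAdd N j) 1)
        (Pool.Agent.Y229.PS.tup π m a H i.succ)).det ≠ 0 →
      ∀ (f : MvPowerSeries (Fin N) ℂ) (q : Fin k → MvPowerSeries (Fin (N + k)) ℂ), f ≠ 0 →
        (∀ i, MvPowerSeries.constantCoeff (q i) = 0) →
        (Pool.Agent.Y229.PS.tup π m a H 0 : MvPowerSeries (Fin (N + k)) ℂ) =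
          MvPowerSeries.rename (Fin.castAdd k) f +
            ∑ i, q i * (Pool.Agent.Y229.PS.tup π m a H i.succ :
              MvPowerSeries (Fin (N + k)) ℂ) →
      ∀ b : Polynomial ℂ, IsFormalBFunction f b →
      ∀ R : SmoothFan (N + (k + k)), Principal (Pool.Agent.Y229.RE.ex π m) R →
        StrongTw b k fun e => unstab k e
          (topZetaTwistedLocal (Pool.Agent.Y229.RE.ex π m) R e) := by
  obtain ⟨g, hg0, hg⟩ := strongTwL hr F (Pool.Agent.Y229.RE.ex π m)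
    (Pool.Agent.Y229.RE.ex_inj π m hinj) (Pool.Agent.Y229.RE.ex_ne_zero π m hm)
    (Pool.Agent.Y229.PS.hG H) (Pool.Agent.Y229.PS.np_hG π m H hH)
  refine ⟨g, hg0, fun a ha hdet f q hf0 hq hF b hb R hR => ?_⟩
  have h0 := Pool.Agent.Y229.PS.tup_zero π m hm a H hH
  have hB := Pool.Agent.Y229.PS.becomes_emb (Pool.Agent.Y229.PS.tup π m a H)
    (fun i => h0 i.succ) hdet f q hq hF
  have hf : MvPowerSeries.constantCoeff f = 0 := by
    have h1 := congrArg (MvPowerSeries.constantCoeff (σ := Fin (N + k)) (R := ℂ)) hF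
    rw [Pool.Agent.Y229.PS.const_coe, h0, map_add, map_sum,
      MvPowerSeries.constantCoeff_rename,
      Finset.sum_eq_zero (fun i _ => by rw [map_mul, hq, zero_mul]), add_zero] at h1
    exact h1.symm
  refine hg a ha N k rfl f hf0 hf ?_ b hb R hR
  rw [Pool.Agent.Y229.PS.sparse_hG]
  have h3 : (Fin.cast (rfl : N + (k + k) = N + (k + k))) = id := by
    funext i
    rfl
  rw [h3, MvPolynomial.rename_id_apply]
  exact hB

end Pool.Agent.X271.TwG
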