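import Pool.Agent.X271.TtDef
import Pool.Agent.X271.TcFin
import Pool.Agent.X271.TwGen

set_option autoImplicit false
set_option linter.unusedSectionVars false

/-! # Twisted topological zeta functions of Thom-Sebastiani sums -/

namespace Pool.Agent.X271.TtT

open Polynomial Pool.Agent.W574.SM Pool.Agent.W574.CN Pool.Agent.W574.RO Pool.Agent.Y229
open Pool.Agent.W574.HS Pool.Agent.Y230.PS Pool.Agent.Y230.TH Pool.Agent.X271.TcD
open Pool.Agent.X271.TcT Pool.Agent.X271.TtD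
open Pool.Agent.H628R4.TP (IsBFunction)
open Pool.Agent.X271.TwD (BecomesG unstab twistedG)

/-- the poles of the functions `W e`, `e ≥ 2` -/
def RT (w : Bool) {σ : Type} (f : MvPolynomial σ ℂ) (W : RatFunc ℂ) : Prop :=
  ∀ s : ℂ, W.denom.eval s = 0 → ∃ t ∈ Tw w, FM (fun _ : Fin 1 => f) (s - t) (1 + dl (s - t))

theorem tw_iff (w : Bool) (σ : Type) (f : MvPolynomial σ ℂ) (Z : RatFunc ℂ)
    (W : ℕ → RatFunc ℂ) : MonTw w σ f Z W ↔ Cl (Tw w) true ⟨σ, Fin 1, fun _ => f⟩ Z ∧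
      ∀ e : ℕ, 2 ≤ e → RT w f (W e) := by
  constructor
  · intro h
    refine ⟨(mon_iff w true _ Z).1 h.one, fun e he s hs => ?_⟩
    obtain ⟨t, ht, h1⟩ := h.tw e he s hs
    exact ⟨t, (mem_Tw w t).2 ht, fun b hb => (dvd_dl b _).2 (h1 b hb)⟩
  · rintro ⟨h1, h2⟩
    refine ⟨(mon_iff w true _ Z).2 h1, fun e he s hs => ?_⟩
    obtain ⟨t, ht, h3⟩ := h2 e he s hs
    exact ⟨t, (mem_Tw w t).1 ht, fun b hb => (dvd_dl b _).1 (h3 b hb)⟩

/-- the poles of the Hadamard product -/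
theorem lap2_pole' (v w : ℂ × ℕ →₀ ℂ) (s : ℂ) (h : (lap2 v w).denom.eval s = 0) :
    ∃ p ∈ v.support, ∃ q ∈ w.support, s = -p.1 + -q.1 := by
  by_contra hne
  push Not at hne
  refine Reg_denom s _ ?_ h
  refine Subring.sum_mem _ fun p hp => Subring.sum_mem _ fun q hq => ?_
  refine (Reg s).mul_mem (C_reg s _) (lterm_reg s _ _ fun h1 => hne p hp q hq ?_)
  rw [h1]
  ring

theorem pole_of_lap (v : ℂ × ℕ →₀ ℂ) (p : ℂ × ℕ) (hp : p ∈ v.support) :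
    (lap v).denom.eval (-p.1) = 0 := by
  by_contra h
  exact lap_pole v p hp (mem_Reg_of_denom _ _ h)

/-- the poles of `Z_f^(e)(s) = Z_G^(e)(s - k)` -/
theorem shift_pole (k e : ℕ) (he : 2 ≤ e) (W : RatFunc ℂ) (s : ℂ)
    (hs : (unstab k e W).denom.eval s = 0) : W.denom.eval (s - k) = 0 := by
  by_contra h
  refine Pool.Agent.Y229.CF.Reg.denom ?_ hs
  change Pool.Agent.Y229.CF.Reg s (Pool.Agent.Y229.RE.unstab k e W)
  unfold Pool.Agent.Y229.RE.unstab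
  rw [if_neg (by omega)]
  exact Pool.Agent.Y229.RE.reg_shift (reg_of_denom h)

theorem rt_ts (w : Bool) (A : Fam) (τ : Type) (g : MvPolynomial τ ℂ) (Z : RatFunc ℂ)
    (W : RatFunc ℂ) (v u : ℂ × ℕ →₀ ℂ) (hv : 1 - Z = RatFunc.X * lap v)
    (hv0 : ∀ p ∈ v.support, p.1 ≠ 0) (hu : W = lap u) (hA : Cl (Tw w) false A Z) (hg : g ≠ 0)
    (h : RT w g W) : RT w ((tsFam A τ g).f 0) (lap2 v u) := by
  intro s hs
  obtain ⟨p, hp, q, hq, rfl⟩ := lap2_pole' v u s hs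
  obtain ⟨t, ht, h3⟩ := hA.pole _ (pole_of_exp Z v hv hv0 p hp)
  obtain ⟨t', ht', h5⟩ := h (-q.1) (by rw [hu]; exact pole_of_lap u q hq)
  refine ⟨t + t', (Tw w).add_mem ht ht', ?_⟩
  have h6 : -p.1 + -q.1 - (t + t') = (-p.1 - t) + (-q.1 - t') := by ring
  rw [h6]
  intro b hb
  obtain ⟨b', rfl, h7⟩ := fm_ts A τ g hA.ne hg b hb
  have h8 := h7 _ _ 1 1 le_rfl le_rfl h3 h5
  rw [dl_eq]
  split_ifs with h9
  · rw [pow_succ']
    refine mul_dvd_mul ?_ h8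
    rw [X_add_one, h9]
  · exact h8.mul_left _

/-- sums of multiples -/
theorem mul_pole (W V : RatFunc ℂ) (c c' : ℂ) (s : ℂ)
    (hs : (W * V + RatFunc.C c * W + RatFunc.C c' * V).denom.eval s = 0) :
    W.denom.eval s = 0 ∨ V.denom.eval s = 0 := by
  by_contra hne
  push Not at hne
  have h1 := mem_Reg_of_denom _ _ hne.1
  have h2 := mem_Reg_of_denom _ _ hne.2
  exact Reg_denom s _ ((Reg s).add_mem ((Reg s).add_mem ((Reg s).mul_mem h1 h2)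
    ((Reg s).mul_mem (C_reg s c) h1)) ((Reg s).mul_mem (C_reg s c') h2)) hs

theorem rt_mul (w : Bool) {σ τ : Type} (f : MvPolynomial σ ℂ) (g : MvPolynomial τ ℂ)
    (W V : RatFunc ℂ) (c c' : ℂ) (hf : f ≠ 0) (hg : g ≠ 0) (h1 : RT w f W) (h2 : RT w g V) :
    RT w (MvPolynomial.rename Sum.inl f * MvPolynomial.rename Sum.inr g : MvPolynomial (σ ⊕ τ) ℂ)
      (W * V + RatFunc.C c * W + RatFunc.C c' * V) := by
  classical
  intro s hs
  have key : ∀ (r : ℂ) (m : ℕ), FM ((Fam.mul ⟨σ, Fin 1, fun _ => f⟩ ⟨τ, Fin 1, fun _ => g⟩).f) r m →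
      FM (fun _ : Fin 1 => (MvPolynomial.rename Sum.inl f * MvPolynomial.rename Sum.inr g :
        MvPolynomial (σ ⊕ τ) ℂ)) r m := by
    intro r m h
    refine fm_equiv (Fam.mul ⟨σ, Fin 1, fun _ => f⟩ ⟨τ, Fin 1, fun _ => g⟩)
      ⟨σ ⊕ τ, Fin 1, fun _ => (MvPolynomial.rename Sum.inl f * MvPolynomial.rename Sum.inr g :
        MvPolynomial (σ ⊕ τ) ℂ)⟩ (Equiv.refl _) (Equiv.prodUnique (Fin 1) (Fin 1)) (fun j => ?_)
        r m h
    exact (MvPolynomial.rename_id_apply (R := ℂ) (MvPolynomial.rename Sum.inl f *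
      MvPolynomial.rename Sum.inr g : MvPolynomial (σ ⊕ τ) ℂ)).symm
  rcases mul_pole _ _ _ _ _ hs with h | h
  · obtain ⟨t, ht, h3⟩ := h1 s h
    exact ⟨t, ht, key _ _ (fm_mulL ⟨σ, Fin 1, fun _ => f⟩ ⟨τ, Fin 1, fun _ => g⟩ _ _
      ⟨(0 : Fin 1), hg⟩ h3)⟩
  · obtain ⟨t, ht, h3⟩ := h2 s h
    exact ⟨t, ht, key _ _ (fm_mulR ⟨σ, Fin 1, fun _ => f⟩ ⟨τ, Fin 1, fun _ => g⟩ _ _
      ⟨(0 : Fin 1), hf⟩ h3)⟩

/-- **Destabilisation, `e ≥ 2`.** -/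
theorem rt_destab (w : Bool) (N k : ℕ) (f : MvPolynomial (Fin N) ℂ)
    (hf : f.totalDegree ≠ 0) (G : MvPolynomial (Fin (N + (k + k))) ℂ) (hG : BecomesG f k G)
    (W : RatFunc ℂ) (e : ℕ) (he : 2 ≤ e) (h : RT w G W) : RT w f (unstab k e W) := by
  intro s hs
  obtain ⟨t, ht, h1⟩ := h _ (shift_pole k e he W s hs)
  refine ⟨t, ht, fun b hb => ?_⟩
  obtain ⟨h2, h3⟩ := Pool.Agent.Y229.PG.becomes_global hf (isB_of_single _ b hb) hG
  obtain ⟨c, hc⟩ := Pool.Agent.Y229.PS.exists_factor h2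
  have h4 := (dvd_red _ _).1 (h1 _ (single_of_isB _ _ (h3 c hc)))
  rw [hc, dvd_red]
  rw [eval_comp, eval_add, eval_X, eval_C] at h4
  rw [← h4]
  congr 1
  ring

theorem cl_single (T : AddSubmonoid ℂ) (A : Fam) (Z : RatFunc ℂ) (f : MvPolynomial A.σ ℂ)
    (i : A.ι ≃ Fin 1) (h : ∀ j, A.f j = f) (hA : Cl T true A Z) :
    Cl T true ⟨A.σ, Fin 1, fun _ => f⟩ Z := by
  refine TcT.step T true _ _ (TT.equiv true A ⟨A.σ, Fin 1, fun _ => f⟩ (Equiv.refl _) i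
    (fun j => ?_) Z (TT.hatom A Z hA))
  rw [h j, Equiv.coe_refl, MvPolynomial.rename_id, AlgHom.id_apply]

/-- **The induction.** -/
theorem tw_closure (w : Bool) (At HAt : Fam → RatFunc ℂ → Prop)
    (HT : (σ : Type) → MvPolynomial σ ℂ → RatFunc ℂ → (ℕ → RatFunc ℂ) → Prop)
    (hAt : ∀ A Z, At A Z → Mon w false A Z) (hHAt : ∀ A Z, HAt A Z → Mon w true A Z)
    (hHT : ∀ σ f Z W, HT σ f Z W → MonTw w σ f Z W)
    (σ : Type) (f : MvPolynomial σ ℂ) (Z : RatFunc ℂ) (W : ℕ → RatFunc ℂ)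
    (h : TW At HAt HT σ f Z W) : MonTw w σ f Z W := by
  have hI : ∀ A Z, TC At HAt false A Z → Cl (Tw w) false A Z := fun A Z h =>
    (mon_iff w false A Z).1 (mon_closure w At HAt hAt hHAt false A Z h)
  rw [tw_iff]
  induction h with
  | atom σ f Z W h => exact (tw_iff w σ f Z W).1 (hHT σ f Z W h)
  | univ A Z hA =>
    have h1 := TcT.step (Tw w) true _ _ (TT.univ A Z (TT.atom (At := Cl (Tw w) false)
      (HAt := Cl (Tw w) true) A Z (hI A Z hA)))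
    refine ⟨h1, fun e he s hs => ?_⟩
    rw [RatFunc.denom_zero, eval_one] at hs
    exact absurd hs one_ne_zero
  | ts A τ g Z Y W v w' c u hv hw hv0 hw0 hu hA hg ih =>
    have hg0 : g ≠ 0 := by
      obtain ⟨j, hj⟩ := ih.1.ne
      exact hj
    have h1 := TcT.step (Tw w) true _ _ (TT.ts (At := Cl (Tw w) false)
      (HAt := Cl (Tw w) true) A τ g Z Y v w' c hv hw hv0 hw0 (TT.atom _ _ (hI A Z hA))
        (TT.hatom _ _ ih.1))
    exact ⟨h1, fun e he => rt_ts w A τ g Z (W e) v (u e) hv hv0 (hu e he) (hI A Z hA) hg0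
      (ih.2 e he)⟩
  | mul σ τ f g Z Y W V c c' hf hg ihf ihg =>
    have hf0 : f ≠ 0 := by
      obtain ⟨j, hj⟩ := ihf.1.ne
      exact hj
    have hg0 : g ≠ 0 := by
      obtain ⟨j, hj⟩ := ihg.1.ne
      exact hj
    have h1 := TcT.step (Tw w) true _ _ (TT.mul (At := Cl (Tw w) false)
      (HAt := Cl (Tw w) true) true _ _ Z Y (TT.hatom _ _ ihf.1) (TT.hatom _ _ ihg.1))
    exact ⟨cl_single (Tw w) _ _ _ (Equiv.prodUnique (Fin 1) (Fin 1)) (fun j => rfl) h1,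
      fun e he => rt_mul w f g _ _ _ _ hf0 hg0 (ihf.2 e he) (ihg.2 e he)⟩
  | destab N k f hf G hG Z W hk h ih =>
    exact ⟨cl_destab (Tw w) N k f hf G hG Z hk ih.1, fun e he =>
      rt_destab w N k f hf G hG (W e) e he (ih.2 e he)⟩
  | drop σ κ g Z W h ih =>
    refine ⟨TcT.step (Tw w) true _ _ (TT.drop (At := Cl (Tw w) false)
      (HAt := Cl (Tw w) true) σ κ g Z (TT.hatom _ _ ih.1)), fun e he s hs => ?_⟩
    obtain ⟨t, ht, h1⟩ := ih.2 e he s hs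
    exact ⟨t, ht, fm_drop (κ := κ) g _ _ h1⟩
  | equiv σ τ i f Z W h ih =>
    refine ⟨TcT.step (Tw w) true _ _ (TT.equiv (At := Cl (Tw w) false)
      (HAt := Cl (Tw w) true) true ⟨σ, Fin 1, fun _ => f⟩ ⟨τ, Fin 1, fun _ => _⟩ i (Equiv.refl _)
        (fun j => rfl) Z (TT.hatom _ _ ih.1)), fun e he s hs => ?_⟩
    obtain ⟨t, ht, h1⟩ := ih.2 e he s hs
    exact ⟨t, ht, fm_equiv ⟨σ, Fin 1, fun _ => f⟩ ⟨τ, Fin 1, fun _ => _⟩ i (Equiv.refl _)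
      (fun j => rfl) _ _ h1⟩

end Pool.Agent.X271.TtT
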