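import Pool.Agent.X271.Mono
import Pool.Agent.X271.Depth

/-!
# The Stanley-Reisner ideal of two disjoint boundaries of simplices
-/

namespace Pool.Agent.X271.TwoSpheres

open MvPolynomial Pool.Agent.X271.VNum Pool.Agent.X271.Depth Pool.Agent.X271.Mono

variable (K : Type*) [Field K] (r : ℕ)

/-- The ideal `(x_1⋯x_r, y_1⋯y_r, x_i y_j (all i, j))`, where `x_i = X (true, i)` and
`y_i = X (false, i)`. -/
noncomputable def sphereIdeal : Ideal (MvPolynomial (Bool × Fin r) K) :=
  Ideal.span (Set.range (fun b : Bool => ∏ i : Fin r, X (b, i)) ∪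
    Set.range (fun p : Fin r × Fin r => X (true, p.1) * X (false, p.2)))

variable {K r}

/-- exponents of the monomials in the ideal -/
def Bad (m : Bool × Fin r →₀ ℕ) : Prop :=
  (∃ i j, m (true, i) ≠ 0 ∧ m (false, j) ≠ 0) ∨ (∃ b, ∀ i, m (b, i) ≠ 0)

theorem sum_single_apply (b : Bool) (x : Bool × Fin r) :
    (∑ i : Fin r, Finsupp.single (b, i) 1 : Bool × Fin r →₀ ℕ) x = if x.1 = b then 1 else 0 := by
  rw [Finsupp.finsetSum_apply]
  obtain ⟨c, j⟩ := x
  by_cases h : c = b
  · subst h
    rw [Finset.sum_eq_single j]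
    · simp
    · intro i _ hi
      rw [Finsupp.single_apply, if_neg]
      intro h2
      exact hi (by simpa using congrArg Prod.snd h2)
    · simp
  · rw [if_neg h]
    apply Finset.sum_eq_zero
    intro i _
    rw [Finsupp.single_apply, if_neg]
    intro h2
    exact h (by simpa using (congrArg Prod.fst h2).symm)

theorem mem_iff (f : MvPolynomial (Bool × Fin r) K) :
    f ∈ sphereIdeal K r ↔ ∀ m, f.coeff m ≠ 0 → Bad m := by
  have hset : (Set.range (fun b : Bool => ∏ i : Fin r, (X (b, i) : MvPolynomial (Bool × Fin r) K)) ∪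
      Set.range (fun p : Fin r × Fin r => X (true, p.1) * X (false, p.2))) =
      (fun s => monomial s (1 : K)) '' (Set.range (fun b : Bool => ∑ i : Fin r, Finsupp.single (b, i) 1) ∪
        Set.range (fun p : Fin r × Fin r =>
          Finsupp.single (true, p.1) 1 + Finsupp.single (false, p.2) 1)) := by
    rw [Set.image_union, ← Set.range_comp, ← Set.range_comp]
    congr 1
    · congr 1
      ext1 b
      simp only [Function.comp_apply]
      rw [monomial_sum_one]
      rfl
    · congr 1
      ext1 p
      simp only [Function.comp_apply]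
      rw [X, X, monomial_mul, one_mul]
  rw [sphereIdeal, hset, mem_ideal_span_monomial_image]
  have hiff : ∀ m : Bool × Fin r →₀ ℕ, (∃ si ∈ (Set.range (fun b : Bool => ∑ i : Fin r, Finsupp.single (b, i) 1) ∪
        Set.range (fun p : Fin r × Fin r =>
          Finsupp.single (true, p.1) 1 + Finsupp.single (false, p.2) 1) : Set (Bool × Fin r →₀ ℕ)), si ≤ m) ↔ Bad m := by
    intro m
    constructor
    · rintro ⟨si, (⟨b, rfl⟩ | ⟨p, rfl⟩), hle⟩
      · right
        refine ⟨b, fun i => ?_⟩
        have := hle (b, i)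
        simp only [] at this
        rw [sum_single_apply, if_pos rfl] at this
        omega
      · left
        refine ⟨p.1, p.2, ?_, ?_⟩
        · have := hle (true, p.1)
          simp at this
          omega
        · have := hle (false, p.2)
          simp at this
          omega
    · rintro (⟨i, j, hi, hj⟩ | ⟨b, hb⟩)
      · refine ⟨_, Or.inr ⟨(i, j), rfl⟩, ?_⟩
        intro x
        simp only [Finsupp.add_apply, Finsupp.single_apply]
        by_cases h1 : (true, i) = x
        · subst h1
          simp
          omega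
        · by_cases h2 : (false, j) = x
          · subst h2
            simp
            omega
          · simp [h1, h2]
      · refine ⟨_, Or.inl ⟨b, rfl⟩, ?_⟩
        intro x
        simp only []
        rw [sum_single_apply]
        split_ifs with h
        · have := hb x.2
          rw [← h] at this
          simp at this
          omega
        · omega
  constructor
  · intro h m hm
    exact (hiff m).1 (h m (mem_support_iff.2 hm))
  · intro h m hm
    exact (hiff m).2 (h m (mem_support_iff.1 hm))

theorem coeff_X_mul_add (x : Bool × Fin r) (f : MvPolynomial (Bool × Fin r) K)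
    (u : Bool × Fin r →₀ ℕ) : (X x * f).coeff (u + Finsupp.single x 1) = f.coeff u := by
  rw [coeff_X_mul']
  simp

theorem bad_of_X_mul {x : Bool × Fin r} {f : MvPolynomial (Bool × Fin r) K}
    (h : X x * f ∈ sphereIdeal K r) {m : Bool × Fin r →₀ ℕ} (hm : f.coeff m ≠ 0) :
    Bad (m + Finsupp.single x 1) := by
  rw [mem_iff] at h
  exact h _ (by rwa [coeff_X_mul_add])

theorem prod_mem (b : Bool) : (∏ i : Fin r, X (b, i) : MvPolynomial (Bool × Fin r) K) ∈
    sphereIdeal K r := Ideal.subset_span (Or.inl ⟨b, rfl⟩)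

theorem XX_mem (i j : Fin r) : (X (true, i) * X (false, j) : MvPolynomial (Bool × Fin r) K) ∈
    sphereIdeal K r := Ideal.subset_span (Or.inr ⟨(i, j), rfl⟩)

/-- A prime containing the ideal contains all variables of one block and one of the other. -/
theorem prime_contains {p : Ideal (MvPolynomial (Bool × Fin r) K)} (hp : p.IsPrime)
    (hle : sphereIdeal K r ≤ p) :
    ∃ b : Bool, (∀ i, X (b, i) ∈ p) ∧ ∃ i, X (!b, i) ∈ p := by
  have h1 : ∀ b : Bool, ∃ i : Fin r, (X (b, i) : MvPolynomial (Bool × Fin r) K) ∈ p := by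
    intro b
    have := hle (prod_mem b)
    obtain ⟨i, _, hi⟩ := (hp.prod_mem_iff).1 this
    exact ⟨i, hi⟩
  by_cases h : ∀ i : Fin r, (X (true, i) : MvPolynomial (Bool × Fin r) K) ∈ p
  · exact ⟨true, h, h1 false⟩
  · push Not at h
    obtain ⟨i, hi⟩ := h
    refine ⟨false, ?_, h1 true⟩
    intro j
    rcases hp.mem_or_mem (hle (XX_mem i j)) with h2 | h2
    · exact absurd h2 hi
    · exact h2

theorem bad_add_of_ne_zero {m : Bool × Fin r →₀ ℕ} {x : Bool × Fin r} (hx : m x ≠ 0)
    (h : Bad (m + Finsupp.single x 1)) : Bad m := by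
  have key : ∀ y, (m + Finsupp.single x 1 : Bool × Fin r →₀ ℕ) y ≠ 0 → m y ≠ 0 := by
    intro y hy
    by_cases hxy : x = y
    · subst hxy; exact hx
    · simpa [Finsupp.single_apply, hxy] using hy
  rcases h with ⟨i, j, hi, hj⟩ | ⟨b, hb⟩
  · exact Or.inl ⟨i, j, key _ hi, key _ hj⟩
  · exact Or.inr ⟨b, fun i => key _ (hb i)⟩

theorem lower {f : MvPolynomial (Bool × Fin r) K} {d : ℕ} (hd : f.IsHomogeneous d)
    (hp : (Submodule.colon (sphereIdeal K r) {f} : Ideal (MvPolynomial (Bool × Fin r) K)).IsPrime) :
    r - 1 ≤ d := by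
  have hle : sphereIdeal K r ≤ Submodule.colon (sphereIdeal K r) {f} := by
    intro g hg
    exact Submodule.mem_colon_singleton.2 (Ideal.mul_mem_right _ _ hg)
  obtain ⟨b, hb, i0, hi0⟩ := prime_contains hp hle
  have hf : f ∉ sphereIdeal K r := by
    intro hf
    apply hp.ne_top
    rw [Ideal.eq_top_iff_one]
    exact Submodule.mem_colon_singleton.2 (by simpa using hf)
  rw [mem_iff] at hf
  push Not at hf
  obtain ⟨m, hm, hbad⟩ := hf
  have hb' : ∀ i, Bad (m + Finsupp.single (b, i) 1) := fun i =>
    bad_of_X_mul (Submodule.mem_colon_singleton.1 (hb i)) hm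
  have hzero : ∀ i, m (b, i) = 0 := by
    intro i
    by_contra hne
    exact hbad (bad_add_of_ne_zero hne (hb' i))
  have hi0' : Bad (m + Finsupp.single (!b, i0) 1) :=
    bad_of_X_mul (Submodule.mem_colon_singleton.1 hi0) hm
  have hne : ∀ i, i ≠ i0 → m (!b, i) ≠ 0 := by
    have hb0 : ∀ i, (m + Finsupp.single (!b, i0) 1 : Bool × Fin r →₀ ℕ) (b, i) = 0 := by
      intro i
      rw [Finsupp.add_apply, hzero, Finsupp.single_apply, if_neg (by
        intro h
        have := congrArg Prod.fst h
        simp at this), add_zero]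
    rcases hi0' with ⟨i, j, hi, hj⟩ | ⟨c, hc⟩
    · exfalso
      cases b
      · exact hj (hb0 j)
      · exact hi (hb0 i)
    · intro i hi
      have hcb : c = !b := by
        by_contra hcon
        have : c = b := by cases b <;> cases c <;> simp_all
        subst this
        exact hc i (hb0 i)
      subst hcb
      have := hc i
      rw [Finsupp.add_apply, Finsupp.single_apply, if_neg, add_zero] at this
      · exact this
      · intro h
        exact hi (congrArg Prod.snd h).symm
  have hdeg : ∑ x : Bool × Fin r, m x = d := by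
    have h6 := hd hm
    rw [← h6, Finsupp.weight_apply, Finsupp.sum_fintype _ _ (by simp)]
    simp
  rw [← hdeg, Fintype.sum_prod_type]
  calc r - 1 = ∑ i ∈ Finset.univ.erase i0, 1 := by simp
    _ ≤ ∑ i ∈ Finset.univ.erase i0, m (!b, i) := by
        apply Finset.sum_le_sum
        intro i hi
        have := hne i (Finset.ne_of_mem_erase hi)
        omega
    _ ≤ ∑ i, m (!b, i) := Finset.sum_le_sum_of_subset (Finset.erase_subset _ _)
    _ ≤ ∑ c : Bool, ∑ i, m (c, i) :=
        Finset.single_le_sum (f := fun c => ∑ i, m (c, i)) (fun _ _ => Nat.zero_le _)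
          (Finset.mem_univ _)

/-- exponent of the facet monomial -/
noncomputable def facetExp (i0 : Fin r) : Bool × Fin r →₀ ℕ :=
  ∑ i ∈ Finset.univ.erase i0, Finsupp.single (true, i) 1

theorem facetExp_true (i0 i : Fin r) : facetExp i0 (true, i) = if i = i0 then 0 else 1 := by
  rw [facetExp, Finsupp.finsetSum_apply]
  split_ifs with h
  · subst h
    apply Finset.sum_eq_zero
    intro j hj
    rw [Finsupp.single_apply, if_neg]
    intro h2
    exact (Finset.ne_of_mem_erase hj) (congrArg Prod.snd h2)
  · rw [Finset.sum_eq_single i]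
    · simp
    · intro j _ hj
      rw [Finsupp.single_apply, if_neg]
      intro h2
      exact hj (congrArg Prod.snd h2)
    · intro h2
      exact absurd (Finset.mem_erase.2 ⟨h, Finset.mem_univ _⟩) h2

theorem facetExp_false (i0 i : Fin r) : facetExp i0 (false, i) = 0 := by
  rw [facetExp, Finsupp.finsetSum_apply]
  apply Finset.sum_eq_zero
  intro j _
  rw [Finsupp.single_apply, if_neg]
  intro h2
  simpa using congrArg Prod.fst h2

/-- the variables off the facet -/
def offFacet (i0 : Fin r) : Set (Bool × Fin r) := {x | x = (true, i0) ∨ x.1 = false}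

theorem colon_facet (hr : 2 ≤ r) (i0 : Fin r) :
    Submodule.colon (sphereIdeal K r) {(monomial (facetExp i0) 1 : MvPolynomial (Bool × Fin r) K)} =
      Ideal.span (X '' offFacet i0) := by
  obtain ⟨i1, hi1⟩ : ∃ i1 : Fin r, i1 ≠ i0 := by
    have : Nontrivial (Fin r) := Fin.nontrivial_iff_two_le.2 hr
    exact exists_ne i0
  have hiff : ∀ m : Bool × Fin r →₀ ℕ, Bad (m + facetExp i0) ↔ ∃ x ∈ offFacet i0, m x ≠ 0 := by
    intro m
    constructor
    · rintro (⟨i, j, _, hj⟩ | ⟨b, hb⟩)
      · refine ⟨(false, j), Or.inr rfl, ?_⟩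
        rwa [Finsupp.add_apply, facetExp_false, add_zero] at hj
      · cases b
        · refine ⟨(false, i0), Or.inr rfl, ?_⟩
          have := hb i0
          rwa [Finsupp.add_apply, facetExp_false, add_zero] at this
        · refine ⟨(true, i0), Or.inl rfl, ?_⟩
          have := hb i0
          rwa [Finsupp.add_apply, facetExp_true, if_pos rfl, add_zero] at this
    · rintro ⟨x, (rfl | hx), hm⟩
      · right
        refine ⟨true, fun i => ?_⟩
        rw [Finsupp.add_apply, facetExp_true]
        split_ifs with h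
        · subst h; omega
        · omega
      · left
        refine ⟨i1, x.2, ?_, ?_⟩
        · rw [Finsupp.add_apply, facetExp_true, if_neg hi1]
          omega
        · rw [Finsupp.add_apply]
          have : (false, x.2) = x := by rw [← hx]
          rw [this]
          omega
  ext g
  rw [Submodule.mem_colon_singleton, smul_eq_mul, mem_iff, mem_ideal_span_X_image]
  constructor
  · intro h m hm
    apply (hiff m).1
    apply h
    rw [coeff_mul_monomial, mul_one]
    exact mem_support_iff.1 hm
  · intro h m hm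
    rw [coeff_mul_monomial'] at hm
    split_ifs at hm with hle
    · rw [mul_one] at hm
      obtain ⟨c, rfl⟩ := exists_add_of_le hle
      rw [add_tsub_cancel_left] at hm
      rw [add_comm]
      exact (hiff c).2 (h c (mem_support_iff.2 hm))
    · exact absurd rfl hm

theorem facet_hom (i0 : Fin r) : (monomial (facetExp i0) 1 : MvPolynomial (Bool × Fin r) K).IsHomogeneous
    (r - 1) := by
  apply isHomogeneous_monomial
  rw [facetExp, map_sum]
  simp

theorem vNumber_sphere (hr : 2 ≤ r) : vNumber (sphereIdeal K r) = r - 1 := by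
  have i0 : Fin r := ⟨0, by omega⟩
  have hmem : r - 1 ∈ vSet (sphereIdeal K r) := by
    refine ⟨monomial (facetExp i0) 1, facet_hom i0, ?_⟩
    apply colon_mem_ass
    rw [colon_facet hr]
    exact span_X_prime _
  apply le_antisymm (Nat.sInf_le hmem)
  obtain ⟨f, hf, hass⟩ := Nat.sInf_mem ⟨_, hmem⟩
  exact lower hf hass.1


/-! ### The depth is one -/

theorem mem_vars_iff {f : MvPolynomial (Bool × Fin r) K} :
    f ∈ idealOfVars (Bool × Fin r) K ↔ f.coeff 0 = 0 := by
  have := mem_pow_idealOfVars_iff' 1 f
  rw [pow_one] at this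
  rw [this]
  constructor
  · intro h
    exact h 0 (by simp)
  · intro h x hx
    have : x = 0 := by
      rw [Nat.lt_one_iff, Finsupp.degree_eq_zero_iff] at hx
      exact hx
    rw [this, h]

/-- the block of `y` variables -/
def yBlock (r : ℕ) : Set (Bool × Fin r) := {x | x.1 = false}

/-- the block of `x` variables -/
def xBlock (r : ℕ) : Set (Bool × Fin r) := {x | x.1 = true}

theorem mul_mem {f g : MvPolynomial (Bool × Fin r) K} (hf : f ∈ Ideal.span (X '' xBlock r))
    (hg : g ∈ Ideal.span (X '' yBlock r)) : f * g ∈ sphereIdeal K r := by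
  have : Ideal.span (X '' xBlock r) * Ideal.span (X '' yBlock r) ≤ sphereIdeal K r := by
    rw [Ideal.span_mul_span', Ideal.span_le]
    rintro _ ⟨_, ⟨⟨a, i⟩, hx, rfl⟩, _, ⟨⟨b, j⟩, hy, rfl⟩, rfl⟩
    have ha : a = true := hx
    have hb : b = false := hy
    subst ha hb
    exact XX_mem i j
  exact this (Ideal.mul_mem_mul hf hg)

theorem kill_mem {f : MvPolynomial (Bool × Fin r) K} (hf : f ∈ idealOfVars (Bool × Fin r) K) :
    kill (yBlock r) f ∈ Ideal.span (X '' xBlock r : Set (MvPolynomial (Bool × Fin r) K)) := by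
  have hle : idealOfVars (Bool × Fin r) K ≤
      (Ideal.span (X '' xBlock r : Set (MvPolynomial (Bool × Fin r) K))).comap
        (kill (yBlock r)) := by
    rw [idealOfVars, Ideal.span_le]
    rintro _ ⟨⟨b, i⟩, rfl⟩
    rw [SetLike.mem_coe, Ideal.mem_comap]
    cases b
    · rw [kill_X_mem (show (false, i) ∈ yBlock r from rfl)]
      exact Ideal.zero_mem _
    · rw [kill_X_not_mem (show (true, i) ∉ yBlock r by simp [yBlock])]
      exact Ideal.subset_span ⟨_, rfl, rfl⟩
  exact hle hf

theorem not_bad_single (hr : 2 ≤ r) (x : Bool × Fin r) : ¬ Bad (Finsupp.single x 1) := by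
  rintro (⟨i, j, hi, hj⟩ | ⟨b, hb⟩)
  · rw [Finsupp.single_apply] at hi hj
    split_ifs at hi hj with h1 h2
    · subst h1
      simp at h2
    all_goals simp at hi hj
  · have : Nontrivial (Fin r) := Fin.nontrivial_iff_two_le.2 hr
    obtain ⟨j, hj⟩ := exists_ne x.2
    apply hb j
    rw [Finsupp.single_apply, if_neg]
    intro h
    exact hj (by rw [h])

theorem coeff_zero_of_X_mul_mem (hr : 2 ≤ r) (x : Bool × Fin r) {f : MvPolynomial (Bool × Fin r) K}
    (h : X x * f ∈ sphereIdeal K r) : f.coeff 0 = 0 := by
  by_contra hcon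
  have := bad_of_X_mul h hcon
  rw [zero_add] at this
  exact not_bad_single hr x this

theorem no_two_regular (hr : 2 ≤ r) {a b : MvPolynomial (Bool × Fin r) K}
    {rest : List (MvPolynomial (Bool × Fin r) K)}
    (ha : a ∈ idealOfVars (Bool × Fin r) K) (hb : b ∈ idealOfVars (Bool × Fin r) K)
    (h : RingTheory.Sequence.IsWeaklyRegular (MvPolynomial (Bool × Fin r) K ⧸ sphereIdeal K r)
      (a :: b :: rest)) : False := by
  obtain ⟨h1, h2⟩ := two_regular h
  have i0 : Fin r := ⟨0, by omega⟩
  set pa := kill (yBlock r) a with hpa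
  set pb := kill (yBlock r) b with hpb
  have hpa1 : pa ∈ Ideal.span (X '' xBlock r : Set (MvPolynomial (Bool × Fin r) K)) := kill_mem ha
  have hpb1 : pb ∈ Ideal.span (X '' xBlock r : Set (MvPolynomial (Bool × Fin r) K)) := kill_mem hb
  have hpa2 : a - pa ∈ Ideal.span (X '' yBlock r : Set (MvPolynomial (Bool × Fin r) K)) :=
    sub_kill_mem _ a
  have hpb2 : b - pb ∈ Ideal.span (X '' yBlock r : Set (MvPolynomial (Bool × Fin r) K)) :=
    sub_kill_mem _ b
  obtain ⟨d, hd⟩ := h2 pa pb (by
    have e1 := mul_mem hpa1 hpb2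
    have e2 := mul_mem hpb1 hpa2
    have := Ideal.sub_mem _ e1 e2
    convert this using 1
    ring)
  have hxt : (X (true, i0) : MvPolynomial (Bool × Fin r) K) ∈ Ideal.span (X '' xBlock r) :=
    Ideal.subset_span ⟨_, rfl, rfl⟩
  have hyt : (X (false, i0) : MvPolynomial (Bool × Fin r) K) ∈ Ideal.span (X '' yBlock r) :=
    Ideal.subset_span ⟨_, rfl, rfl⟩
  have e1 : X (true, i0) * (1 - d) ∈ sphereIdeal K r := by
    apply h1
    have k1 := mul_mem hxt hpa2
    have k2 := Ideal.mul_mem_left _ (X (true, i0)) hd
    have := Ideal.add_mem _ k1 k2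
    convert this using 1
    ring
  have e2 : X (false, i0) * d ∈ sphereIdeal K r := by
    apply h1
    have k1 := mul_mem hpa1 hyt
    have k2 := Ideal.mul_mem_left _ (X (false, i0)) hd
    have := Ideal.sub_mem _ k1 k2
    convert this using 1
    ring
  have f1 := coeff_zero_of_X_mul_mem hr _ e1
  have f2 := coeff_zero_of_X_mul_mem hr _ e2
  rw [coeff_sub, f2, sub_zero, coeff_zero_one] at f1
  exact one_ne_zero f1

/-- the sum of all variables -/
noncomputable def allSum (K : Type*) [Field K] (r : ℕ) : MvPolynomial (Bool × Fin r) K :=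
  ∑ x : Bool × Fin r, X x

theorem exists_facet {m : Bool × Fin r →₀ ℕ} (hm : ¬ Bad m) :
    ∃ (b : Bool) (i0 : Fin r), ∀ x : Bool × Fin r, (x = (b, i0) ∨ x.1 = !b) → m x = 0 := by
  unfold Bad at hm
  push Not at hm
  obtain ⟨h1, h2⟩ := hm
  by_cases h : ∃ i, m (true, i) ≠ 0
  · obtain ⟨i, hi⟩ := h
    obtain ⟨i0, hi0⟩ := h2 true
    refine ⟨true, i0, ?_⟩
    rintro x (rfl | hx)
    · exact hi0
    · have := h1 i x.2 hi
      have hx' : x = (false, x.2) := by
        rw [Bool.not_true] at hx
        rw [← hx]
      rw [hx']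
      exact this
  · push Not at h
    obtain ⟨i0, hi0⟩ := h2 false
    refine ⟨false, i0, ?_⟩
    rintro x (rfl | hx)
    · exact hi0
    · have hx' : x = (true, x.2) := by
        rw [Bool.not_false] at hx
        rw [← hx]
      rw [hx']
      exact h _

theorem allSum_regular (hr : 2 ≤ r) (g : MvPolynomial (Bool × Fin r) K)
    (hg : allSum K r * g ∈ sphereIdeal K r) : g ∈ sphereIdeal K r := by
  rw [mem_iff]
  intro m hm
  by_contra hbad
  obtain ⟨b, i0, hfac⟩ := exists_facet hbad
  let s : Set (Bool × Fin r) := {x | x = (b, i0) ∨ x.1 = !b}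
  have hker : sphereIdeal K r ≤ RingHom.ker (kill (K := K) s) := by
    unfold sphereIdeal
    rw [Ideal.span_le]
    rintro _ (⟨c, rfl⟩ | ⟨p, rfl⟩)
    · rw [SetLike.mem_coe, RingHom.mem_ker, map_prod]
      by_cases hc : c = b
      · subst hc
        exact Finset.prod_eq_zero (Finset.mem_univ i0) (kill_X_mem (Or.inl rfl))
      · refine Finset.prod_eq_zero (Finset.mem_univ i0) (kill_X_mem (Or.inr ?_))
        cases b <;> cases c <;> simp_all
    · rw [SetLike.mem_coe, RingHom.mem_ker, map_mul]
      cases b
      · rw [kill_X_mem (s := s) (x := (true, p.1)) (Or.inr rfl), zero_mul]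
      · rw [kill_X_mem (s := s) (x := (false, p.2)) (Or.inr rfl), mul_zero]
  have h1 := hker hg
  rw [RingHom.mem_ker, map_mul] at h1
  rcases mul_eq_zero.1 h1 with h2 | h2
  · have : Nontrivial (Fin r) := Fin.nontrivial_iff_two_le.2 hr
    obtain ⟨j, hj⟩ := exists_ne i0
    have hjs : (b, j) ∉ s := by
      rintro (h | h)
      · exact hj (congrArg Prod.snd h)
      · cases b <;> simp at h
    classical
    have h3 := congrArg (fun p => MvPolynomial.coeff (Finsupp.single (b, j) 1) p) h2
    simp only [kill_coeff, coeff_zero] at h3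
    rw [if_pos, allSum, coeff_sum, Finset.sum_eq_single (b, j)] at h3
    · rw [coeff_X, if_pos rfl] at h3
      exact one_ne_zero h3
    · intro y _ hy
      rw [coeff_X, if_neg]
      intro h4
      exact hy (Finsupp.single_left_injective one_ne_zero h4)
    · intro h4
      exact absurd (Finset.mem_univ _) h4
    · intro x hx
      rw [Finsupp.single_apply, if_neg]
      rintro rfl
      exact hjs hx
  · classical
    have h3 := congrArg (fun p => MvPolynomial.coeff m p) h2
    simp only [kill_coeff, coeff_zero] at h3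
    have h4 : ∀ x ∈ s, m x = 0 := fun x hx => hfac x hx
    rw [if_pos h4] at h3
    exact hm h3

theorem coeff_zero_of_mem {f : MvPolynomial (Bool × Fin r) K} (hr : 2 ≤ r)
    (hf : f ∈ sphereIdeal K r) : f.coeff 0 = 0 := by
  by_contra hcon
  rcases (mem_iff f).1 hf 0 hcon with ⟨i, j, hi, _⟩ | ⟨b, hb⟩
  · exact hi rfl
  · exact hb ⟨0, by omega⟩ rfl

open scoped Pointwise in
theorem depth_sphere (hr : 2 ≤ r) : depth (sphereIdeal K r) = 1 := by
  unfold depth
  apply le_antisymm
  · apply sSup_le
    rintro n ⟨rs, hrs, hreg, rfl⟩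
    rcases rs with _ | ⟨a, _ | ⟨b, rest⟩⟩
    · simp
    · simp
    · exact (no_two_regular hr (hrs a (by simp)) (hrs b (by simp)) hreg.toIsWeaklyRegular).elim
  · apply le_sSup
    refine ⟨[allSum K r], ?_, ?_, by simp⟩
    · intro x hx
      rw [List.mem_singleton] at hx
      subst hx
      exact Ideal.sum_mem _ fun i _ => Ideal.subset_span ⟨i, rfl⟩
    · refine ⟨?_, ?_⟩
      · rw [RingTheory.Sequence.isWeaklyRegular_singleton_iff, isSMulRegular_iff]
        exact allSum_regular hr
      · intro htop
        rw [Ideal.ofList_singleton, Submodule.ideal_span_singleton_smul] at htop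
        have h1 : (Ideal.Quotient.mk (sphereIdeal K r) 1) ∈
            allSum K r • (⊤ : Submodule (MvPolynomial (Bool × Fin r) K)
              (MvPolynomial (Bool × Fin r) K ⧸ sphereIdeal K r)) := by
          rw [← htop]; trivial
        rw [Submodule.mem_smul_pointwise_iff_exists] at h1
        obtain ⟨y, _, hy⟩ := h1
        obtain ⟨d, rfl⟩ := Ideal.Quotient.mk_surjective y
        have : allSum K r • (Ideal.Quotient.mk (sphereIdeal K r)) d =
            Ideal.Quotient.mk (sphereIdeal K r) (allSum K r * d) := by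
          rw [map_mul]; rfl
        rw [this, Ideal.Quotient.eq] at hy
        have h2 := coeff_zero_of_mem hr hy
        have h3 : (allSum K r * d).coeff 0 = 0 := by
          rw [← mem_vars_iff]
          apply Ideal.mul_mem_right
          exact Ideal.sum_mem _ fun i _ => Ideal.subset_span ⟨i, rfl⟩
        rw [coeff_sub, h3, zero_sub, neg_eq_zero, coeff_zero_one] at h2
        exact one_ne_zero h2

/-- A squarefree monomial ideal: proper and generated by squarefree monomials. -/
def IsSquarefreeMonomial {σ : Type*} (I : Ideal (MvPolynomial σ K)) : Prop :=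
  I ≠ ⊤ ∧ ∃ S : Set (Finset σ), I = Ideal.span ((fun s => ∏ x ∈ s, X x) '' S)

theorem sphere_squarefree (hr : 2 ≤ r) : IsSquarefreeMonomial (sphereIdeal K r) := by
  refine ⟨?_, Set.range (fun b : Bool => Finset.univ.image (fun i : Fin r => (b, i))) ∪
    Set.range (fun p : Fin r × Fin r => {(true, p.1), (false, p.2)}), ?_⟩
  · intro h
    have : (1 : MvPolynomial (Bool × Fin r) K) ∈ sphereIdeal K r := by rw [h]; trivial
    have h2 := coeff_zero_of_mem hr this
    rw [coeff_zero_one] at h2
    exact one_ne_zero h2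
  · rw [sphereIdeal, Set.image_union, ← Set.range_comp, ← Set.range_comp]
    congr 2
    · congr 1
      ext1 b
      simp only [Function.comp_apply]
      rw [Finset.prod_image]
      intro i _ j _ hij
      exact congrArg Prod.snd hij
    · congr 1
      ext1 p
      simp only [Function.comp_apply]
      rw [Finset.prod_pair]
      intro h
      simpa using congrArg Prod.fst h

end Pool.Agent.X271.TwoSpheres
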