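import Mathlib

/-!
# v-numbers of homogeneous ideals: basic definitions
-/

namespace Pool.Agent.X271.VNum

open MvPolynomial

variable {σ : Type*} {K : Type*} [Field K]

/-- The set of degrees of homogeneous `f` such that `J : f` is an associated prime of `S/J`. -/
def vSet (J : Ideal (MvPolynomial σ K)) : Set ℕ :=
  {d | ∃ f : MvPolynomial σ K, f.IsHomogeneous d ∧
    Submodule.colon J {f} ∈ associatedPrimes (MvPolynomial σ K) (MvPolynomial σ K ⧸ J)}

/-- The v-number of `J`: the least degree of a homogeneous `f` with `J : f` an associated prime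
of `S/J`. -/
noncomputable def vNumber (J : Ideal (MvPolynomial σ K)) : ℕ := sInf (vSet J)

/-- The set of degrees of homogeneous `f` such that `J : f = p`. -/
def localVSet (p J : Ideal (MvPolynomial σ K)) : Set ℕ :=
  {d | ∃ f : MvPolynomial σ K, f.IsHomogeneous d ∧ Submodule.colon J {f} = p}

/-- The local v-number of `J` at `p`: the least degree of a homogeneous `f` with `J : f = p`. -/
noncomputable def localV (p J : Ideal (MvPolynomial σ K)) : ℕ := sInf (localVSet p J)

/-- A homogeneous ideal for the standard grading: closed under taking homogeneous components. -/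
def IsHomog (J : Ideal (MvPolynomial σ K)) : Prop :=
  ∀ f ∈ J, ∀ d : ℕ, homogeneousComponent d f ∈ J

theorem colon_bot_mk (J : Ideal (MvPolynomial σ K)) (f : MvPolynomial σ K) :
    Submodule.colon (⊥ : Submodule (MvPolynomial σ K) (MvPolynomial σ K ⧸ J))
      {Ideal.Quotient.mk J f} = Submodule.colon J {f} := by
  ext r
  rw [Submodule.mem_colon_singleton, Submodule.mem_colon_singleton, Submodule.mem_bot,
    smul_eq_mul, ← Ideal.Quotient.eq_zero_iff_mem, map_mul]
  rfl

theorem colon_mem_ass {J : Ideal (MvPolynomial σ K)} {f : MvPolynomial σ K}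
    (h : (Submodule.colon J {f} : Ideal (MvPolynomial σ K)).IsPrime) :
    Submodule.colon J {f} ∈ associatedPrimes (MvPolynomial σ K) (MvPolynomial σ K ⧸ J) := by
  refine ⟨h, (Ideal.Quotient.mk J f), ?_⟩
  rw [colon_bot_mk]
  exact h.radical.symm

attribute [local instance] MvPolynomial.gradedAlgebra in
theorem isHomog_span {s : Set (MvPolynomial σ K)} (h : ∀ g ∈ s, ∃ d, g.IsHomogeneous d) :
    IsHomog (Ideal.span s) := by
  have : (Ideal.span s).IsHomogeneous (MvPolynomial.homogeneousSubmodule σ K) := by
    refine Ideal.homogeneous_span _ _ ?_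
    intro g hg
    obtain ⟨d, hd⟩ := h g hg
    exact ⟨d, (mem_homogeneousSubmodule d g).2 hd⟩
  intro f hf d
  exact homogeneousComponent_mem_of_mem this hf d

end Pool.Agent.X271.VNum

namespace Pool.Agent.X271.VNum

open MvPolynomial

variable {σ : Type*} {K : Type*} [Field K]

/-- The initial degree of an ideal: the least degree of a nonzero homogeneous element. -/
noncomputable def initDegree (J : Ideal (MvPolynomial σ K)) : ℕ :=
  sInf {d : ℕ | ∃ f ∈ J, f ≠ 0 ∧ f.IsHomogeneous d}

/-- The stable set of associated primes of the powers of `J`: the primes associated to `S/J^k`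
for all large `k`. -/
def stablePrimes (J : Ideal (MvPolynomial σ K)) : Set (Ideal (MvPolynomial σ K)) :=
  {p | ∀ᶠ k : ℕ in Filter.atTop,
    p ∈ associatedPrimes (MvPolynomial σ K) (MvPolynomial σ K ⧸ J ^ k)}

end Pool.Agent.X271.VNum
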