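import Pool.Agent.X271.VNum

/-!
# The ideals `(xy, yz, zx, (x+y+z)^N)`
-/

namespace Pool.Agent.X271.VTri

open MvPolynomial Pool.Agent.X271.VNum

variable (K : Type*) [Field K] (N : ℕ)

/-- The ideal `(xy, yz, zx, (x+y+z)^N)` of `K[x,y,z]`. -/
noncomputable def triIdeal : Ideal (MvPolynomial (Fin 3) K) :=
  Ideal.span {X 0 * X 1, X 1 * X 2, X 2 * X 0, (X 0 + X 1 + X 2) ^ N}

/-- The substitution `x_i = t`, `x_j = 0` for `j ≠ i`. -/
noncomputable def ev (i : Fin 3) : MvPolynomial (Fin 3) K →ₐ[K] Polynomial K :=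
  aeval (fun j => if j = i then Polynomial.X else 0)

variable {K N}

theorem ev_X (i j : Fin 3) : ev K i (X j) = if j = i then Polynomial.X else 0 := by
  simp [ev]

theorem ev_coeff (i : Fin 3) (a : ℕ) (f : MvPolynomial (Fin 3) K) :
    (ev K i f).coeff a = f.coeff (Finsupp.single i a) := by
  induction f using MvPolynomial.induction_on' with
  | monomial u c =>
    rw [ev, aeval_monomial, coeff_monomial, Finsupp.prod_fintype _ _ (by simp)]
    by_cases hu : u = Finsupp.single i a
    · subst hu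
      have : ∏ j : Fin 3, (if j = i then (Polynomial.X : Polynomial K) else 0)
          ^ (Finsupp.single i a j) = Polynomial.X ^ a := by
        rw [Finset.prod_eq_single i]
        · simp
        · intro b _ hb
          simp [hb]
        · simp
      rw [this]
      simp
    · rw [if_neg hu]
      by_cases h2 : ∃ j, j ≠ i ∧ u j ≠ 0
      · obtain ⟨j, hj, hj2⟩ := h2
        rw [Finset.prod_eq_zero (Finset.mem_univ j) (by simp [hj, hj2])]
        simp
      · push Not at h2
        have hu3 : u = Finsupp.single i (u i) := by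
          ext j
          by_cases hj : j = i
          · subst hj; simp
          · rw [h2 j hj]
            simp [Ne.symm hj]
        have hne : u i ≠ a := fun h => hu (h ▸ hu3)
        have : ∏ j : Fin 3, (if j = i then (Polynomial.X : Polynomial K) else 0)
          ^ (u j) = Polynomial.X ^ (u i) := by
          rw [Finset.prod_eq_single i]
          · simp
          · intro b _ hb
            simp [h2 b hb]
          · simp
        rw [this]
        simp [Polynomial.coeff_X_pow, hne.symm]
  | add p q hp hq =>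
    rw [map_add, Polynomial.coeff_add, coeff_add, hp, hq]

/-- linear conditions satisfied by elements of the ideal -/
theorem mem_conditions {g : MvPolynomial (Fin 3) K} (hg : g ∈ triIdeal K N) :
    (∀ i a, a < N → g.coeff (Finsupp.single i a) = 0) ∧
    (∀ i, g.coeff (Finsupp.single i N) = g.coeff (Finsupp.single 0 N)) := by
  have key : ∃ h : MvPolynomial (Fin 3) K, ∀ i, ev K i g = ev K i h * Polynomial.X ^ N := by
    unfold triIdeal at hg
    induction hg using Submodule.span_induction with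
    | mem x hx =>
      simp only [Set.mem_insert_iff, Set.mem_singleton_iff] at hx
      rcases hx with rfl | rfl | rfl | rfl
      · exact ⟨0, fun i => by fin_cases i <;> simp [ev_X]⟩
      · exact ⟨0, fun i => by fin_cases i <;> simp [ev_X]⟩
      · exact ⟨0, fun i => by fin_cases i <;> simp [ev_X]⟩
      · exact ⟨1, fun i => by fin_cases i <;> simp [ev_X]⟩
    | zero => exact ⟨0, fun i => by simp⟩
    | add x y _ _ hx hy =>
      obtain ⟨h1, hh1⟩ := hx
      obtain ⟨h2, hh2⟩ := hy
      exact ⟨h1 + h2, fun i => by rw [map_add, hh1, hh2, map_add, add_mul]⟩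
    | smul r x _ hx =>
      obtain ⟨h1, hh1⟩ := hx
      exact ⟨r * h1, fun i => by rw [smul_eq_mul, map_mul, hh1, map_mul, mul_assoc]⟩
  obtain ⟨h, hh⟩ := key
  constructor
  · intro i a ha
    rw [← ev_coeff, hh, Polynomial.coeff_mul_X_pow', if_neg (by omega)]
  · have : ∀ i, g.coeff (Finsupp.single i N) = h.coeff 0 := by
      intro i
      rw [← ev_coeff, hh, Polynomial.coeff_mul_X_pow', if_pos le_rfl, Nat.sub_self, ev_coeff]
      simp
    intro i
    rw [this, this]

/-- A polynomial without pure powers is in the ideal. -/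
theorem mem_of_no_pure {f : MvPolynomial (Fin 3) K}
    (hf : ∀ i a, f.coeff (Finsupp.single i a) = 0) : f ∈ triIdeal K N := by
  rw [f.as_sum]
  refine Ideal.sum_mem _ fun u hu => ?_
  rw [mem_support_iff] at hu
  -- two variables divide
  have h01 : (X 0 * X 1 : MvPolynomial (Fin 3) K) ∈ triIdeal K N :=
    Ideal.subset_span (by simp)
  have h12 : (X 1 * X 2 : MvPolynomial (Fin 3) K) ∈ triIdeal K N :=
    Ideal.subset_span (by simp)
  have h20 : (X 2 * X 0 : MvPolynomial (Fin 3) K) ∈ triIdeal K N :=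
    Ideal.subset_span (by simp)
  have hmem : ∀ i j : Fin 3, i ≠ j → (X i * X j : MvPolynomial (Fin 3) K) ∈ triIdeal K N := by
    intro i j hij
    fin_cases i <;> fin_cases j <;> first | exact absurd rfl hij | skip
    · exact h01
    · exact mul_comm (X 2 : MvPolynomial (Fin 3) K) (X 0) ▸ h20
    · exact mul_comm (X 0 : MvPolynomial (Fin 3) K) (X 1) ▸ h01
    · exact h12
    · exact h20
    · exact mul_comm (X 1 : MvPolynomial (Fin 3) K) (X 2) ▸ h12
  have hex : ∃ i j : Fin 3, i ≠ j ∧ u i ≠ 0 ∧ u j ≠ 0 := by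
    by_contra hcon
    push Not at hcon
    by_cases hz : ∃ i, u i ≠ 0
    · obtain ⟨i, hi⟩ := hz
      apply hu
      have : u = Finsupp.single i (u i) := by
        ext j
        by_cases hj : j = i
        · subst hj; simp
        · rw [hcon i j (Ne.symm hj) hi]
          simp [Ne.symm hj]
      rw [this]
      exact hf i _
    · push Not at hz
      apply hu
      have : u = Finsupp.single 0 0 := by
        ext j; simp [hz]
      rw [this]
      exact hf 0 0
  obtain ⟨i, j, hij, hi, hj⟩ := hex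
  have hdvd : (X i * X j : MvPolynomial (Fin 3) K) ∣ monomial u (coeff u f) := by
    have h1 : (X i * X j : MvPolynomial (Fin 3) K) =
        monomial (Finsupp.single i 1 + Finsupp.single j 1) 1 := by
      rw [X, X, monomial_mul, one_mul]
    rw [h1, monomial_dvd_monomial]
    refine ⟨Or.inr ?_, one_dvd _⟩
    intro k
    rw [Finsupp.add_apply, Finsupp.single_apply, Finsupp.single_apply]
    by_cases hki : i = k
    · subst hki
      rw [if_pos rfl, if_neg (Ne.symm hij)]
      omega
    · rw [if_neg hki]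
      split_ifs with h
      · subst h; omega
      · omega
  exact Ideal.mem_of_dvd _ hdvd (hmem i j hij)

theorem X_mul_ell_pow (i : Fin 3) (hN : 1 ≤ N) : (X i : MvPolynomial (Fin 3) K) ^ (N + 1) ∈ triIdeal K N := by
  have hell : (X 0 + X 1 + X 2 : MvPolynomial (Fin 3) K) ^ N ∈ triIdeal K N :=
    Ideal.subset_span (by simp)
  have h2 : (X i : MvPolynomial (Fin 3) K) ^ (N + 1) - X i * (X 0 + X 1 + X 2) ^ N ∈ triIdeal K N := by
    apply mem_of_no_pure
    intro j a
    rw [← ev_coeff]
    have : ev K j ((X i : MvPolynomial (Fin 3) K) ^ (N + 1) - X i * (X 0 + X 1 + X 2) ^ N) = 0 := by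
      have hN' : N + 1 ≠ 0 := by omega
      fin_cases i <;> fin_cases j <;> simp [ev_X, pow_succ']
    rw [this, Polynomial.coeff_zero]
  have := Ideal.add_mem _ h2 (Ideal.mul_mem_left _ (X i) hell)
  simpa using this


/-- The irrelevant ideal as a set of polynomials with zero constant term. -/
theorem mem_vars_iff {f : MvPolynomial (Fin 3) K} :
    f ∈ idealOfVars (Fin 3) K ↔ f.coeff 0 = 0 := by
  have := mem_pow_idealOfVars_iff' 1 f
  rw [pow_one] at this
  rw [this]
  constructor
  · intro h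
    exact h 0 (by simp)
  · intro h x hx
    have : x = 0 := by
      rw [Nat.lt_one_iff, Finsupp.degree_eq_zero_iff] at hx
      exact hx
    rw [this, h]

theorem vars_prime : (idealOfVars (Fin 3) K).IsPrime := by
  have : idealOfVars (Fin 3) K = RingHom.ker (constantCoeff : MvPolynomial (Fin 3) K →+* K) := by
    ext f
    rw [mem_vars_iff, RingHom.mem_ker, constantCoeff_eq]
  rw [this]
  exact RingHom.ker_isPrime _

/-- If every variable is in the colon and `f` is not in `J`, the colon is the irrelevant ideal. -/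
theorem colon_eq_vars {J : Ideal (MvPolynomial (Fin 3) K)} {f : MvPolynomial (Fin 3) K}
    (hX : ∀ i, X i * f ∈ J) (hf : f ∉ J) : Submodule.colon J {f} = idealOfVars (Fin 3) K := by
  have hle : idealOfVars (Fin 3) K ≤ Submodule.colon J {f} := by
    rw [idealOfVars, Ideal.span_le]
    rintro _ ⟨i, rfl⟩
    exact Submodule.mem_colon_singleton.2 (hX i)
  refine le_antisymm ?_ hle
  intro r hr
  by_contra hcon
  rw [mem_vars_iff] at hcon
  have h1 : r - C (r.coeff 0) ∈ idealOfVars (Fin 3) K := by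
    rw [mem_vars_iff]; simp
  have h2 : C (r.coeff 0) ∈ Submodule.colon J {f} := by
    have := Ideal.sub_mem _ hr (hle h1)
    simpa using this
  rw [Submodule.mem_colon_singleton, smul_eq_mul] at h2
  apply hf
  have := Ideal.mul_mem_left J (C (r.coeff 0)⁻¹) h2
  rwa [← mul_assoc, ← map_mul, inv_mul_cancel₀ hcon, map_one, one_mul] at this

theorem not_mem_of_colon_prime {J : Ideal (MvPolynomial (Fin 3) K)} {f : MvPolynomial (Fin 3) K}
    (h : (Submodule.colon J {f} : Ideal (MvPolynomial (Fin 3) K)).IsPrime) : f ∉ J := by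
  intro hf
  apply h.ne_top
  rw [Ideal.eq_top_iff_one]
  exact Submodule.mem_colon_singleton.2 (by simpa using hf)

theorem X_mem_of_colon_prime {J : Ideal (MvPolynomial (Fin 3) K)} {f : MvPolynomial (Fin 3) K}
    {e : ℕ} (he : ∀ i, (X i : MvPolynomial (Fin 3) K) ^ e ∈ J)
    (h : (Submodule.colon J {f} : Ideal (MvPolynomial (Fin 3) K)).IsPrime) (i : Fin 3) :
    X i * f ∈ J := by
  have : (X i : MvPolynomial (Fin 3) K) ^ e ∈ Submodule.colon J {f} :=
    Submodule.mem_colon_singleton.2 (Ideal.mul_mem_right _ _ (he i))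
  have := h.mem_of_pow_mem _ this
  exact Submodule.mem_colon_singleton.1 this

/-- lower bound for `f` with `triIdeal : f` prime -/
theorem lower_one (hN : 1 ≤ N) {f : MvPolynomial (Fin 3) K} {d : ℕ} (hf : f.IsHomogeneous d)
    (h : (Submodule.colon (triIdeal K N) {f} : Ideal (MvPolynomial (Fin 3) K)).IsPrime) : N ≤ d := by
  by_contra hcon
  have hX := X_mem_of_colon_prime (fun i => X_mul_ell_pow i hN) h
  apply not_mem_of_colon_prime h
  apply mem_of_no_pure
  intro i a
  by_cases ha : a = d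
  · subst ha
    have hc : ∀ j, (X i * f).coeff (Finsupp.single j (a + 1)) =
        if j = i then f.coeff (Finsupp.single j a) else 0 := by
      intro j
      rw [← ev_coeff, map_mul, ev_X, ← ev_coeff]
      by_cases hij : i = j
      · rw [if_pos hij, if_pos hij.symm, Polynomial.coeff_X_mul]
      · rw [if_neg hij, if_neg (Ne.symm hij), zero_mul, Polynomial.coeff_zero]
    obtain ⟨h1, h2⟩ := mem_conditions (hX i)
    have h3 : (X i * f).coeff (Finsupp.single i (a + 1)) = 0 := by
      rcases Nat.lt_or_ge (a + 1) N with hlt | hge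
      · exact h1 i (a + 1) hlt
      · have : N = a + 1 := by omega
        subst this
        obtain ⟨j, hj⟩ := exists_ne i
        rw [h2 i, ← h2 j, hc j, if_neg hj]
    rw [hc i, if_pos rfl] at h3
    exact h3
  · by_contra hne
    have := hf hne
    rw [Finsupp.weight_apply] at this
    simp at this
    exact ha this

theorem X_pow_not_mem (hN : 1 ≤ N) : (X 0 : MvPolynomial (Fin 3) K) ^ N ∉ triIdeal K N := by
  intro h
  obtain ⟨h1, h2⟩ := mem_conditions h
  have h3 := h2 1
  rw [← ev_coeff, ← ev_coeff, map_pow, map_pow, ev_X, ev_X] at h3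
  rw [if_neg (by decide), if_pos rfl, zero_pow (by omega), Polynomial.coeff_zero,
    Polynomial.coeff_X_pow, if_pos rfl] at h3
  exact zero_ne_one h3

theorem colon_X_pow (hN : 1 ≤ N) :
    Submodule.colon (triIdeal K N) {(X 0 : MvPolynomial (Fin 3) K) ^ N} = idealOfVars (Fin 3) K := by
  apply colon_eq_vars _ (X_pow_not_mem hN)
  intro i
  by_cases hi : i = 0
  · subst hi
    have := X_mul_ell_pow (K := K) 0 hN
    rwa [pow_succ'] at this
  · apply mem_of_no_pure
    intro j a
    rw [← ev_coeff, map_mul, map_pow, ev_X, ev_X]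
    by_cases hij : i = j
    · subst hij
      rw [if_neg (Ne.symm hi), zero_pow (by omega), mul_zero, Polynomial.coeff_zero]
    · rw [if_neg hij, zero_mul, Polynomial.coeff_zero]

theorem triIdeal_le (hN : 2 ≤ N) : triIdeal K N ≤ idealOfVars (Fin 3) K ^ 2 := by
  have hX : ∀ i, (X i : MvPolynomial (Fin 3) K) ∈ idealOfVars (Fin 3) K :=
    fun i => Ideal.subset_span ⟨i, rfl⟩
  unfold triIdeal
  rw [Ideal.span_le]
  intro x hx
  simp only [Set.mem_insert_iff, Set.mem_singleton_iff] at hx
  rcases hx with rfl | rfl | rfl | rfl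
  · rw [pow_two]; exact Ideal.mul_mem_mul (hX _) (hX _)
  · rw [pow_two]; exact Ideal.mul_mem_mul (hX _) (hX _)
  · rw [pow_two]; exact Ideal.mul_mem_mul (hX _) (hX _)
  · apply Ideal.pow_le_pow_right hN
    apply Ideal.pow_mem_pow
    exact Ideal.add_mem _ (Ideal.add_mem _ (hX _) (hX _)) (hX _)

theorem triIdeal_sq_le (hN : 2 ≤ N) : triIdeal K N ^ 2 ≤ idealOfVars (Fin 3) K ^ 4 := by
  have := Ideal.pow_right_mono (triIdeal_le (K := K) hN) 2
  rwa [← pow_mul] at this

theorem xyz_not_mem (hN : 2 ≤ N) : (X 0 * X 1 * X 2 : MvPolynomial (Fin 3) K) ∉ triIdeal K N ^ 2 := by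
  intro h
  have h2 := triIdeal_sq_le hN h
  rw [mem_pow_idealOfVars_iff'] at h2
  have h3 := h2 (Finsupp.single 0 1 + Finsupp.single 1 1 + Finsupp.single 2 1) (by
    simp only [map_add, Finsupp.degree_single]; norm_num)
  rw [X, X, X, monomial_mul, monomial_mul, coeff_monomial, if_pos rfl] at h3
  simp at h3

theorem colon_xyz (hN : 2 ≤ N) :
    Submodule.colon (triIdeal K N ^ 2) {(X 0 * X 1 * X 2 : MvPolynomial (Fin 3) K)} =
      idealOfVars (Fin 3) K := by
  apply colon_eq_vars _ (xyz_not_mem hN)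
  have h01 : (X 0 * X 1 : MvPolynomial (Fin 3) K) ∈ triIdeal K N :=
    Ideal.subset_span (by simp)
  have h12 : (X 1 * X 2 : MvPolynomial (Fin 3) K) ∈ triIdeal K N :=
    Ideal.subset_span (by simp)
  have h20 : (X 2 * X 0 : MvPolynomial (Fin 3) K) ∈ triIdeal K N :=
    Ideal.subset_span (by simp)
  intro i
  rw [pow_two]
  fin_cases i
  · have := Ideal.mul_mem_mul h01 h20
    have he : (X 0 * X 1 * (X 2 * X 0) : MvPolynomial (Fin 3) K) = X 0 * (X 0 * X 1 * X 2) := by ring
    rw [he] at this
    exact this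
  · have := Ideal.mul_mem_mul h01 h12
    have he : (X 0 * X 1 * (X 1 * X 2) : MvPolynomial (Fin 3) K) = X 1 * (X 0 * X 1 * X 2) := by ring
    rw [he] at this
    exact this
  · have := Ideal.mul_mem_mul h12 h20
    have he : (X 1 * X 2 * (X 2 * X 0) : MvPolynomial (Fin 3) K) = X 2 * (X 0 * X 1 * X 2) := by ring
    rw [he] at this
    exact this

theorem lower_two (hN : 2 ≤ N) {f : MvPolynomial (Fin 3) K} {d : ℕ} (hf : f.IsHomogeneous d)
    (h : (Submodule.colon (triIdeal K N ^ 2) {f} : Ideal (MvPolynomial (Fin 3) K)).IsPrime) :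
    3 ≤ d := by
  have hX := X_mem_of_colon_prime (e := (N + 1) * 2) (fun i => by
    rw [pow_mul]; exact Ideal.pow_mem_pow (X_mul_ell_pow i (by omega)) 2) h 0
  have hf0 : f ≠ 0 := by
    rintro rfl
    exact not_mem_of_colon_prime h (Ideal.zero_mem _)
  have hne : X 0 * f ≠ 0 := mul_ne_zero (X_ne_zero 0) hf0
  have hhom : (X 0 * f).IsHomogeneous (1 + d) := (isHomogeneous_X K 0).mul hf
  have h4 := triIdeal_sq_le hN hX
  rw [mem_pow_idealOfVars_iff] at h4
  obtain ⟨m, hm⟩ := (MvPolynomial.support_nonempty (p := X 0 * f)).2 hne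
  have h5 := h4 m hm
  have h6 := hhom (mem_support_iff.1 hm)
  have h7 : Finsupp.degree m = 1 + d := by
    rw [← h6, Finsupp.degree_eq_weight_one]; rfl
  omega

theorem vNumber_tri (hN : 1 ≤ N) : vNumber (triIdeal K N) = N := by
  have hmem : N ∈ vSet (triIdeal K N) := by
    refine ⟨X 0 ^ N, isHomogeneous_X_pow 0 N, ?_⟩
    apply colon_mem_ass
    rw [colon_X_pow hN]
    exact vars_prime
  apply le_antisymm (Nat.sInf_le hmem)
  obtain ⟨f, hf, hass⟩ := Nat.sInf_mem ⟨N, hmem⟩
  exact lower_one hN hf hass.1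

theorem vNumber_tri_sq (hN : 2 ≤ N) : vNumber (triIdeal K N ^ 2) = 3 := by
  have hmem : 3 ∈ vSet (triIdeal K N ^ 2) := by
    refine ⟨X 0 * X 1 * X 2, ?_, ?_⟩
    · exact ((isHomogeneous_X K 0).mul (isHomogeneous_X K 1)).mul (isHomogeneous_X K 2)
    · apply colon_mem_ass
      rw [colon_xyz hN]
      exact vars_prime
  apply le_antisymm (Nat.sInf_le hmem)
  obtain ⟨f, hf, hass⟩ := Nat.sInf_mem ⟨3, hmem⟩
  exact lower_two hN hf hass.1

theorem localV_tri (hN : 1 ≤ N) : localV (idealOfVars (Fin 3) K) (triIdeal K N) = N := by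
  have hmem : N ∈ localVSet (idealOfVars (Fin 3) K) (triIdeal K N) :=
    ⟨X 0 ^ N, isHomogeneous_X_pow 0 N, colon_X_pow hN⟩
  apply le_antisymm (Nat.sInf_le hmem)
  obtain ⟨f, hf, hass⟩ := Nat.sInf_mem ⟨N, hmem⟩
  refine lower_one hN hf ?_
  rw [hass]; exact vars_prime

theorem localV_tri_sq (hN : 2 ≤ N) : localV (idealOfVars (Fin 3) K) (triIdeal K N ^ 2) = 3 := by
  have hmem : 3 ∈ localVSet (idealOfVars (Fin 3) K) (triIdeal K N ^ 2) := by
    refine ⟨X 0 * X 1 * X 2, ?_, colon_xyz hN⟩
    exact ((isHomogeneous_X K 0).mul (isHomogeneous_X K 1)).mul (isHomogeneous_X K 2)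
  apply le_antisymm (Nat.sInf_le hmem)
  obtain ⟨f, hf, hass⟩ := Nat.sInf_mem ⟨3, hmem⟩
  refine lower_two hN hf ?_
  rw [hass]; exact vars_prime

theorem triIdeal_isHomog : IsHomog (triIdeal K N) := by
  apply isHomog_span
  intro g hg
  simp only [Set.mem_insert_iff, Set.mem_singleton_iff] at hg
  rcases hg with rfl | rfl | rfl | rfl
  · exact ⟨_, (isHomogeneous_X K 0).mul (isHomogeneous_X K 1)⟩
  · exact ⟨_, (isHomogeneous_X K 1).mul (isHomogeneous_X K 2)⟩
  · exact ⟨_, (isHomogeneous_X K 2).mul (isHomogeneous_X K 0)⟩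
  · exact ⟨_, (((isHomogeneous_X K 0).add (isHomogeneous_X K 1)).add (isHomogeneous_X K 2)).pow N⟩

theorem triIdeal_ne_bot : triIdeal K N ≠ ⊥ := by
  intro h
  have : (X 0 * X 1 : MvPolynomial (Fin 3) K) ∈ triIdeal K N := Ideal.subset_span (by simp)
  rw [h, Ideal.mem_bot] at this
  exact mul_ne_zero (X_ne_zero 0) (X_ne_zero 1) this

theorem triIdeal_ne_top (hN : 1 ≤ N) : triIdeal K N ≠ ⊤ := by
  intro h
  apply X_pow_not_mem (K := K) hN
  rw [h]; trivial

/-- The irrelevant ideal is associated to all powers. -/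
theorem vars_mem_ass (hN : 1 ≤ N) {k : ℕ} (hk : 1 ≤ k) :
    idealOfVars (Fin 3) K ∈ associatedPrimes (MvPolynomial (Fin 3) K)
      (MvPolynomial (Fin 3) K ⧸ triIdeal K N ^ k) := by
  have hne : triIdeal K N ^ k ≠ ⊤ := by
    intro h
    apply triIdeal_ne_top (K := K) hN
    rw [eq_top_iff, ← h]
    exact Ideal.pow_le_self (by omega)
  have : Nontrivial (MvPolynomial (Fin 3) K ⧸ triIdeal K N ^ k) :=
    Ideal.Quotient.nontrivial_iff.2 hne
  obtain ⟨p, hp⟩ := associatedPrimes.nonempty (MvPolynomial (Fin 3) K)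
    (MvPolynomial (Fin 3) K ⧸ triIdeal K N ^ k)
  have hle : triIdeal K N ^ k ≤ p := by
    have := IsAssociatedPrime.annihilator_le hp
    rwa [Submodule.annihilator_top, Ideal.annihilator_quotient] at this
  have hpp : p.IsPrime := hp.1
  have hle2 : idealOfVars (Fin 3) K ≤ p := by
    rw [idealOfVars, Ideal.span_le]
    rintro _ ⟨i, rfl⟩
    have h1 : ((X i : MvPolynomial (Fin 3) K) ^ (N + 1)) ^ k ∈ triIdeal K N ^ k :=
      Ideal.pow_mem_pow (X_mul_ell_pow i hN) k
    rw [← pow_mul] at h1
    exact hpp.mem_of_pow_mem _ (hle h1)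
  have : p = idealOfVars (Fin 3) K := by
    refine le_antisymm ?_ hle2
    intro r hr
    by_contra hcon
    rw [mem_vars_iff] at hcon
    have h1 : r - C (r.coeff 0) ∈ idealOfVars (Fin 3) K := by
      rw [mem_vars_iff]; simp
    have h2 : C (r.coeff 0) ∈ p := by
      have := Ideal.sub_mem _ hr (hle2 h1)
      simpa using this
    apply hpp.ne_top
    rw [Ideal.eq_top_iff_one]
    have := Ideal.mul_mem_left p (C (r.coeff 0)⁻¹) h2
    rwa [← map_mul, inv_mul_cancel₀ hcon, map_one] at this
  rw [← this]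
  exact hp

end Pool.Agent.X271.VTri
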